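import Pool.Agent.Work.MP_680515_an.IfaceL

/-! # MP_680515_an: block AB (helper93) -/

open MeasureTheory Set Filter Topology Complex

namespace Pool.Mart

namespace AB_

theorem act_adj (M : M3) (v w : E3) : inner ℝ (act M v) w = inner ℝ v (act M.transpose w) := by
  simp only [PiLp.inner_apply, act, Matrix.mulVec, dotProduct, Fin.sum_univ_three,
    Matrix.transpose_apply, RCLike.inner_apply, conj_trivial]
  ring

theorem act_sub (M : M3) (v w : E3) : act M (v - w) = act M v - act M w := by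
  unfold act
  rw [WithLp.ofLp_sub, Matrix.mulVec_sub, WithLp.toLp_sub]

theorem act_smul (M : M3) (c : ℝ) (v : E3) : act M (c • v) = c • act M v := by
  unfold act
  rw [WithLp.ofLp_smul, Matrix.mulVec_smul, WithLp.toLp_smul]

theorem opn_nonneg (M : M3) : 0 ≤ opn M := norm_nonneg _

end AB_

open AB_

theorem stmt_AB (hBAS : Stmt_BAS) (_hQF : Stmt_QF) : Stmt_AB := by
  obtain ⟨hop, _, hcp, hin, hadj, _, _⟩ := hBAS
  intro A b y η hG hdet hb hy hη hcpair
  have hN0 : 0 ≤ opn (cofm A) := opn_nonneg _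
  have hNpos : 0 < opn (cofm A) := by
    rcases hN0.lt_or_eq with h | h
    · exact h
    · exfalso
      have h1 := hop (cofm A) b
      rw [← h, zero_mul] at h1
      have h2 : act (cofm A) b = 0 := norm_le_zero_iff.1 h1
      have h3 := hin A b b
      rw [h2, inner_zero_right, real_inner_self_eq_norm_sq, hb] at h3
      nlinarith
  obtain ⟨N, hN⟩ : ∃ N, N = opn (cofm A) := ⟨_, rfl⟩
  obtain ⟨B, hB⟩ : ∃ B, B = cofm A := ⟨_, rfl⟩
  have htau : tau A = A.det / N := by rw [hN]; rfl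
  have hqf : qf A b = N ^ 2 - ‖act B b‖ ^ 2 := by
    unfold qf; rw [hb, ← hN, ← hB]; ring
  rw [hcp A y b, ← hN, ← hB] at hcpair
  rw [← hN] at hNpos
  have hBN : ∀ v, ‖act B v‖ ≤ N * ‖v‖ := by intro v; rw [hB, hN]; exact hop _ v
  have hBT : ∀ w, ‖act B.transpose w‖ ≤ N * ‖w‖ := by
    intro w
    have h1 : ‖act B.transpose w‖ ^ 2 ≤ (N * ‖w‖) * ‖act B.transpose w‖ := by
      rw [← real_inner_self_eq_norm_sq, ← act_adj]
      calc inner ℝ (act B (act B.transpose w)) w ≤ ‖act B (act B.transpose w)‖ * ‖w‖ :=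
            real_inner_le_norm _ _
        _ ≤ (N * ‖act B.transpose w‖) * ‖w‖ :=
            mul_le_mul_of_nonneg_right (hBN _) (norm_nonneg _)
        _ = (N * ‖w‖) * ‖act B.transpose w‖ := by ring
    rcases (norm_nonneg (act B.transpose w)).lt_or_eq with h | h
    · rw [pow_two] at h1
      exact le_of_mul_le_mul_right h1 h
    · rw [← h]; positivity
  have hBb : ‖act B b‖ ≤ N := by have := hBN b; rwa [hb, mul_one] at this
  have hyB : inner ℝ y (act B b) ≤ ‖act B b‖ := by
    have := real_inner_le_norm y (act B b)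
    rwa [hy, one_mul] at this
  -- first
  have hq : qf A b ≤ 2 * N * η := by
    rw [hqf]
    by_cases h : η ≤ N
    · have h1 : N - η ≤ ‖act B b‖ := hcpair.trans hyB
      have h2 : (N - η) ^ 2 ≤ ‖act B b‖ ^ 2 := pow_le_pow_left₀ (by linarith) h1 2
      nlinarith [sq_nonneg η]
    · push Not at h
      nlinarith [sq_nonneg ‖act B b‖]
  -- third
  have htp : 0 < tau A := by rw [htau]; positivity
  have hop3 : opn A ≤ 2 * tau A := by
    have h1 : A.det ≤ 2 * tau A ^ 3 := by
      have h2 : N ^ 3 ≤ 2 * A.det ^ 2 := by have := hG.1; rwa [← hN] at this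
      rw [htau, div_pow]
      rw [← mul_div_assoc, le_div_iff₀ (by positivity)]
      nlinarith
    have h3 : opn A ^ 3 ≤ (2 * tau A) ^ 3 := by
      have := hG.2
      nlinarith
    exact le_of_pow_le_pow_left₀ (by norm_num) (by positivity) h3
  refine ⟨by rw [← hN]; exact hq, ?_, hop3⟩
  rw [← hN]
  -- second
  obtain ⟨u, hu⟩ : ∃ u : E3, u = N⁻¹ • act B b := ⟨_, rfl⟩
  have hu1 : ‖u‖ ≤ 1 := by
    rw [hu, norm_smul, Real.norm_eq_abs, abs_of_pos (by positivity), inv_mul_le_iff₀ hNpos]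
    linarith
  have huy : ‖u - y‖ ^ 2 ≤ 2 * η / N := by
    rw [norm_sub_sq_real, hy]
    have h1 : 1 - η / N ≤ inner ℝ u y := by
      rw [hu, real_inner_smul_left, real_inner_comm, le_inv_mul_iff₀ hNpos]
      have : N * (1 - η / N) = N - η := by field_simp
      rw [this]; exact hcpair
    have h2 : ‖u‖ ^ 2 ≤ 1 := by nlinarith [norm_nonneg u]
    have h3 : 2 * η / N = 2 * (η / N) := by ring
    rw [h3]; linarith
  have huy' : ‖u - y‖ ≤ Real.sqrt (2 * η / N) := Real.le_sqrt_of_sq_le huy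
  obtain ⟨Hb, hHb⟩ : ∃ Hb : E3, Hb = N ^ 2 • b - act B.transpose (act B b) := ⟨_, rfl⟩
  have hHn : ‖Hb‖ ^ 2 ≤ N ^ 2 * (2 * N * η) := by
    have h1 : ‖Hb‖ ^ 2 ≤ N ^ 2 * qf A b := by
      rw [hHb, norm_sub_sq_real, norm_smul, hb, real_inner_smul_left, ← act_adj,
        real_inner_self_eq_norm_sq, hqf, Real.norm_eq_abs, abs_of_nonneg (sq_nonneg N)]
      have h2 : ‖act B.transpose (act B b)‖ ^ 2 ≤ (N * ‖act B b‖) ^ 2 :=
        pow_le_pow_left₀ (norm_nonneg _) (hBT _) 2
      nlinarith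
    exact h1.trans (mul_le_mul_of_nonneg_left hq (sq_nonneg N))
  have hHn' : ‖Hb‖ ≤ N ^ 2 * Real.sqrt (2 * η / N) := by
    apply le_of_sq_le_sq _ (by positivity)
    rw [mul_pow, Real.sq_sqrt (by positivity)]
    refine hHn.trans (le_of_eq ?_)
    field_simp
  have hAb : act A b - tau A • y = tau A • (u - y) + (N ^ 2)⁻¹ • act A Hb := by
    have h1 : act A Hb = N ^ 2 • act A b - A.det • act B b := by
      rw [hHb, act_sub, act_smul, hB, hadj A]
    rw [h1, hu, htau, smul_sub, smul_sub, smul_smul, smul_smul, smul_smul,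
      inv_mul_cancel₀ (by positivity), one_smul]
    have h2 : A.det / N * N⁻¹ = (N ^ 2)⁻¹ * A.det := by field_simp
    rw [h2]
    abel
  rw [hAb]
  refine (norm_add_le _ _).trans ?_
  rw [norm_smul, norm_smul, Real.norm_eq_abs, Real.norm_eq_abs, abs_of_pos htp,
    abs_of_pos (by positivity)]
  have h4 : ‖act A Hb‖ ≤ 2 * tau A * (N ^ 2 * Real.sqrt (2 * η / N)) :=
    (hop A Hb).trans (mul_le_mul hop3 hHn' (norm_nonneg _) (by positivity))
  have h5 : (N ^ 2)⁻¹ * ‖act A Hb‖ ≤ 2 * tau A * Real.sqrt (2 * η / N) := by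
    rw [inv_mul_le_iff₀ (by positivity)]
    refine h4.trans (le_of_eq (by ring))
  have h6 := mul_le_mul_of_nonneg_left huy' htp.le
  linarith

end Pool.Mart
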