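import Pool.Agent.Work.MP_680515_an.IfaceS

open MeasureTheory Set Filter Topology Complex

namespace Pool.Mart

namespace AFN_

/-- The square of side `s` in the half plane. -/
def SQ (s z0 : ℝ) : Set ℂ := {ζ : ℂ | s < ζ.re ∧ ζ.re < 2 * s ∧ |ζ.im - z0| < s / 2}

lemma SQ_eq (s z0 : ℝ) : SQ s z0 =
    measurableEquivRealProd ⁻¹' (Ioo s (2 * s) ×ˢ Ioo (z0 - s / 2) (z0 + s / 2)) := by
  ext ζ
  simp only [SQ, Set.mem_ofPred_eq, mem_preimage, measurableEquivRealProd_apply, mem_prod, mem_Ioo,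
    abs_lt]
  constructor
  · rintro ⟨h1, h2, h3, h4⟩
    exact ⟨⟨h1, h2⟩, by linarith, by linarith⟩
  · rintro ⟨⟨h1, h2⟩, h3, h4⟩
    exact ⟨h1, h2, by linarith, by linarith⟩

lemma meas_SQ (s z0 : ℝ) : MeasurableSet (SQ s z0) := by
  rw [SQ_eq]
  exact measurableEquivRealProd.measurable (measurableSet_Ioo.prod measurableSet_Ioo)

lemma vol_SQ (s z0 : ℝ) (hs : 0 < s) : volume (SQ s z0) = ENNReal.ofReal (s ^ 2) := by
  rw [SQ_eq, volume_preserving_equiv_real_prod.measure_preimage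
    (measurableSet_Ioo.prod measurableSet_Ioo).nullMeasurableSet, Measure.volume_eq_prod,
    Measure.prod_prod, Real.volume_Ioo, Real.volume_Ioo,
    ← ENNReal.ofReal_mul (by linarith)]
  congr 1
  ring

lemma af_re (a b : ℝ) (ζ : ℂ) : (af a b ζ).re = a + b * ζ.im := by
  simp [af]

lemma af_im (a b : ℝ) (ζ : ℂ) : (af a b ζ).im = -(b * ζ.re) := by
  simp [af]

lemma pointwise (a b s z0 : ℝ) (hs : 0 < s) (ζ : ℂ) (h : ζ ∈ SQ s z0) :
    (2 / 5) * (|a + b * z0| + s * |b|) ≤ ‖af a b ζ‖ := by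
  obtain ⟨h1, h2, h3⟩ := h
  have hre : |a + b * ζ.im| ≤ ‖af a b ζ‖ := by
    rw [← af_re]
    exact Complex.abs_re_le_norm _
  have him : |b| * s ≤ ‖af a b ζ‖ := by
    have h4 : |(af a b ζ).im| ≤ ‖af a b ζ‖ := Complex.abs_im_le_norm _
    rw [af_im, abs_neg, abs_mul, abs_of_pos (hs.trans h1)] at h4
    have : |b| * s ≤ |b| * ζ.re := mul_le_mul_of_nonneg_left h1.le (abs_nonneg b)
    linarith
  have hd : |a + b * z0| ≤ |a + b * ζ.im| + |b| * (s / 2) := by
    have e : a + b * z0 = (a + b * ζ.im) + -(b * (ζ.im - z0)) := by ring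
    rw [e]
    refine (abs_add_le _ _).trans ?_
    rw [abs_neg, abs_mul]
    have : |b| * |ζ.im - z0| ≤ |b| * (s / 2) := mul_le_mul_of_nonneg_left h3.le (abs_nonneg b)
    linarith
  nlinarith

end AFN_

open AFN_ in
theorem stmt_AFN : Stmt_AFN := by
  refine ⟨2 / 5, by norm_num, ?_⟩
  intro a b s z0 E hs hE hsub hint
  have hvol := vol_SQ s z0 hs
  have hfin : volume (SQ s z0) ≠ ⊤ := by
    rw [hvol]
    exact ENNReal.ofReal_ne_top
  have hsub' : SQ s z0 ⊆ E := hsub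
  have hintS : IntegrableOn (fun ζ => ‖af a b ζ‖) (SQ s z0) := (hint.mono_set hsub').norm
  have h1 := setIntegral_ge_of_const_le_real (c := (2 / 5) * (|a + b * z0| + s * |b|))
    (meas_SQ s z0) hfin (fun ζ hζ => pointwise a b s z0 hs ζ hζ) hintS
  have hr : volume.real (SQ s z0) = s ^ 2 := by
    rw [measureReal_def, hvol, ENNReal.toReal_ofReal (by positivity)]
  rw [hr] at h1
  have h2 : ∫ ζ in SQ s z0, ‖af a b ζ‖ ≤ ∫ ζ in E, ‖af a b ζ‖ := by
    refine setIntegral_mono_set hint.norm ?_ hsub'.eventuallyLE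
    exact Eventually.of_forall (fun ζ => norm_nonneg _)
  calc (2 / 5 : ℝ) * (s ^ 2 * |a + b * z0| + s ^ 3 * |b|)
      = (2 / 5) * (|a + b * z0| + s * |b|) * s ^ 2 := by ring
    _ ≤ _ := h1.trans h2

end Pool.Mart
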