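import Pool.Agent.Work.MP_680515_an.IfaceW

/-!
# MP_680515_an, block APX: smooth approximation of a normalised map
-/

open MeasureTheory Set Filter Topology Complex

namespace Pool.Mart

namespace APX_

/-- Planar part. -/
noncomputable def pl (X : E3) : EuclideanSpace ℝ (Fin 2) := !₂[X 0, X 1]

theorem rad_eq (X : E3) : rad X = ‖pl X‖ := by
  rw [EuclideanSpace.norm_eq, Fin.sum_univ_two]
  simp [pl, rad, sq_abs]

theorem pl_sub (X Y : E3) : pl X - pl Y = pl (X - Y) := by
  ext i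
  fin_cases i <;> simp [pl]

theorem pl_le (X : E3) : ‖pl X‖ ≤ ‖X‖ := by
  rw [EuclideanSpace.norm_eq, EuclideanSpace.norm_eq, Fin.sum_univ_two, Fin.sum_univ_three]
  apply Real.sqrt_le_sqrt
  simp only [pl, Real.norm_eq_abs, sq_abs]
  simp
  positivity

theorem rad_lip (X Y : E3) : |rad X - rad Y| ≤ ‖X - Y‖ := by
  rw [rad_eq, rad_eq]
  exact (abs_norm_sub_norm_le _ _).trans (by rw [pl_sub]; exact pl_le _)

theorem rad_cont : Continuous rad := by
  unfold rad
  fun_prop

theorem rad_nn (X : E3) : 0 ≤ rad X := Real.sqrt_nonneg _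

theorem abs0 (X : E3) : |X 0| ≤ rad X := by
  unfold rad
  rw [← Real.sqrt_sq_eq_abs]
  exact Real.sqrt_le_sqrt (by nlinarith [sq_nonneg (X 1)])

theorem abs1 (X : E3) : |X 1| ≤ rad X := by
  unfold rad
  rw [← Real.sqrt_sq_eq_abs]
  exact Real.sqrt_le_sqrt (by nlinarith [sq_nonneg (X 0)])

theorem div_le (a r : ℝ) (h : |a| ≤ r) : |a / r| ≤ 1 := by
  have hr : 0 ≤ r := (abs_nonneg a).trans h
  rw [abs_div, abs_of_nonneg hr]
  exact div_le_one_of_le₀ h hr

theorem er_bd (Y : E3) (i : Fin 3) : |er Y i| ≤ 1 := by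
  fin_cases i
  · exact div_le _ _ (abs0 Y)
  · exact div_le _ _ (abs1 Y)
  · simp [er]

theorem et_bd (Y : E3) (i : Fin 3) : |et Y i| ≤ 1 := by
  fin_cases i
  · exact div_le _ _ (by rw [abs_neg]; exact abs1 Y)
  · exact div_le _ _ (abs0 Y)
  · simp [et]

theorem e3_bd (i : Fin 3) : |e3 i| ≤ 1 := by
  fin_cases i <;> simp [e3]

theorem co_cont (i : Fin 3) : Continuous (fun X : E3 => X i) :=
  (EuclideanSpace.proj i : E3 →L[ℝ] ℝ).continuous

theorem er_cont (i : Fin 3) : ContinuousOn (fun X : E3 => er X i) {X | 0 < rad X} := by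
  have h0 : ∀ X ∈ {X : E3 | 0 < rad X}, rad X ≠ 0 := fun X hX => ne_of_gt hX
  fin_cases i
  · exact (co_cont 0).continuousOn.div rad_cont.continuousOn h0
  · exact (co_cont 1).continuousOn.div rad_cont.continuousOn h0
  · simp only [er]
    exact continuousOn_const

theorem et_cont (i : Fin 3) : ContinuousOn (fun X : E3 => et X i) {X | 0 < rad X} := by
  have h0 : ∀ X ∈ {X : E3 | 0 < rad X}, rad X ≠ 0 := fun X hX => ne_of_gt hX
  fin_cases i
  · exact (co_cont 1).neg.continuousOn.div rad_cont.continuousOn h0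
  · exact (co_cont 0).continuousOn.div rad_cont.continuousOn h0
  · simp only [et]
    exact continuousOn_const

theorem quo_lip {a a' r r' d : ℝ} (hr : 0 < r) (hr' : 0 < r') (h1 : |a - a'| ≤ d)
    (h2 : |r - r'| ≤ d) (h3 : |a'| ≤ r') : |a / r - a' / r'| ≤ 2 * d / r := by
  have e : a / r - a' / r' = (a - a') / r + (a' / r') * ((r' - r) / r) := by
    field_simp
    ring
  rw [e]
  refine (abs_add_le _ _).trans ?_
  rw [abs_div, abs_of_pos hr, abs_mul, abs_div (r' - r) r, abs_of_pos hr, abs_sub_comm r' r]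
  have h4 : |a - a'| / r ≤ d / r := div_le_div_of_nonneg_right h1 hr.le
  have h5 : |a' / r'| * (|r - r'| / r) ≤ 1 * (d / r) :=
    mul_le_mul (div_le _ _ h3) (div_le_div_of_nonneg_right h2 hr.le) (by positivity) (by norm_num)
  calc |a - a'| / r + |a' / r'| * (|r - r'| / r) ≤ d / r + 1 * (d / r) := add_le_add h4 h5
    _ = 2 * d / r := by ring

theorem er_lip {Y Y' : E3} (h : 0 < rad Y) (h' : 0 < rad Y') (i : Fin 3) :
    |er Y i - er Y' i| ≤ 2 * ‖Y - Y'‖ / rad Y := by
  have hc : ∀ i : Fin 3, |Y i - Y' i| ≤ ‖Y - Y'‖ := fun i => by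
    have := PiLp.norm_apply_le (Y - Y') i
    simpa using this
  fin_cases i
  · exact quo_lip h h' (hc 0) (rad_lip Y Y') (abs0 Y')
  · exact quo_lip h h' (hc 1) (rad_lip Y Y') (abs1 Y')
  · simp only [er]
    simp
    positivity

theorem inner_act (u v : E3) (M : M3) :
    inner ℝ u (act M v) = ∑ i, ∑ j, u i * v j * M i j := by
  simp only [act, PiLp.inner_apply, Matrix.mulVec, dotProduct, Fin.sum_univ_three]
  simp
  ring

/-- Sum of the absolute values of the entries. -/
noncomputable def nm (M : M3) : ℝ := ∑ i, ∑ j, |M i j|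

theorem nm_nn (M : M3) : 0 ≤ nm M :=
  Finset.sum_nonneg fun _ _ => Finset.sum_nonneg fun _ _ => abs_nonneg _

theorem inner_bd {u v : E3} {M : M3} {c : ℝ} (hc : 0 ≤ c) (hu : ∀ i, |u i| ≤ c)
    (hv : ∀ j, |v j| ≤ 1) : |inner ℝ u (act M v)| ≤ c * nm M := by
  rw [inner_act, nm, Finset.mul_sum]
  refine (Finset.abs_sum_le_sum_abs _ _).trans (Finset.sum_le_sum fun i _ => ?_)
  rw [Finset.mul_sum]
  refine (Finset.abs_sum_le_sum_abs _ _).trans (Finset.sum_le_sum fun j _ => ?_)
  rw [abs_mul, abs_mul]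
  refine mul_le_mul_of_nonneg_right ?_ (abs_nonneg _)
  calc |u i| * |v j| ≤ c * 1 := mul_le_mul (hu i) (hv j) (abs_nonneg _) hc
    _ = c := mul_one c

/-- The common form of `gr`, `gz`, `gt`. -/
noncomputable def qq (A : M3) (v Y : E3) (c1 c2 : ℝ) : ℂ :=
  ((inner ℝ (er Y) (act A v) - c1 : ℝ) : ℂ) + ((inner ℝ e3 (act A v) - c2 : ℝ) : ℂ) * I

theorem gr_eq (A : M3) (X Y : E3) : gr A X Y = qq A (er X) Y 1 0 := by
  simp [gr, qq]

theorem gz_eq (A : M3) (X Y : E3) : gz A X Y = qq A e3 Y 0 1 := by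
  simp [gz, qq]

theorem gt_eq (A : M3) (X Y : E3) : gt A X Y = qq A (et X) Y 0 0 := by
  simp [gt, qq]

theorem act_sub (A B : M3) (v : E3) : act (B - A) v = act B v - act A v := by
  unfold act
  rw [Matrix.sub_mulVec]
  rfl

theorem qq_diff {A B : M3} {v Y Y' : E3} {c1 c2 c : ℝ} (hc : 0 ≤ c)
    (hv : ∀ j, |v j| ≤ 1) (hY : ∀ i, |er Y' i - er Y i| ≤ c) :
    ‖qq B v Y' c1 c2 - qq A v Y c1 c2‖ ≤ 2 * nm (B - A) + c * nm A := by
  have e : qq B v Y' c1 c2 - qq A v Y c1 c2 =
      ((inner ℝ (er Y') (act (B - A) v) + inner ℝ (er Y' - er Y) (act A v) : ℝ) : ℂ)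
        + ((inner ℝ e3 (act (B - A) v) : ℝ) : ℂ) * I := by
    unfold qq
    rw [act_sub, inner_sub_right, inner_sub_left, inner_sub_right]
    push_cast
    ring
  rw [e]
  refine (norm_add_le _ _).trans ?_
  rw [norm_mul, Complex.norm_I, mul_one, Complex.norm_real, Complex.norm_real, Real.norm_eq_abs,
    Real.norm_eq_abs]
  have h1 : |inner ℝ (er Y') (act (B - A) v)| ≤ 1 * nm (B - A) :=
    inner_bd (by norm_num) (er_bd Y') hv
  have h2 : |inner ℝ (er Y' - er Y) (act A v)| ≤ c * nm A :=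
    inner_bd hc (fun i => by simpa using hY i) hv
  have h3 : |inner ℝ e3 (act (B - A) v)| ≤ 1 * nm (B - A) := inner_bd (by norm_num) e3_bd hv
  have h4 := abs_add_le (inner ℝ (er Y') (act (B - A) v)) (inner ℝ (er Y' - er Y) (act A v))
  linarith

theorem int_pair {K : Set E3} (hK : IsCompact K) {u v : E3 → E3} {A : E3 → M3}
    (hA : ∀ i j, IntegrableOn (fun X => A X i j) K)
    (hu : ∀ i, ContinuousOn (fun X => u X i) K) (hv : ∀ i, ContinuousOn (fun X => v X i) K) :
    IntegrableOn (fun X => (inner ℝ (u X) (act (A X) (v X)) : ℝ)) K := by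
  simp only [inner_act]
  refine integrable_finsetSum _ fun i _ => integrable_finsetSum _ fun j _ => ?_
  exact (hA i j).continuousOn_mul ((hu i).mul (hv j)) hK

theorem int_qq {K : Set E3} (hK : IsCompact K) {F : E3 → E3} {v : E3 → E3} {A : E3 → M3}
    (hA : ∀ i j, IntegrableOn (fun X => A X i j) K)
    (hu : ∀ i, ContinuousOn (fun X => er (F X) i) K) (hv : ∀ i, ContinuousOn (fun X => v X i) K)
    (c1 c2 : ℝ) : IntegrableOn (fun X => qq (A X) (v X) (F X) c1 c2) K := by
  have : IsFiniteMeasure (volume.restrict K) := ⟨by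
    rw [Measure.restrict_apply_univ]
    exact hK.measure_lt_top⟩
  have h1 : IntegrableOn (fun X => (inner ℝ (er (F X)) (act (A X) (v X)) - c1 : ℝ)) K :=
    (int_pair hK (u := fun X => er (F X)) hA hu hv).sub (integrable_const c1)
  have h2 : IntegrableOn (fun X => (inner ℝ e3 (act (A X) (v X)) - c2 : ℝ)) K :=
    (int_pair hK (u := fun _ => e3) hA (fun i => continuousOn_const) hv).sub
      (integrable_const c2)
  exact (h1.ofReal (𝕜 := ℂ)).add ((h2.ofReal (𝕜 := ℂ)).mul_const I)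

theorem conv_qq {K : Set E3} (hK : IsCompact K) {r0 : ℝ} (hr0 : 0 < r0) {F : E3 → E3}
    {A : E3 → M3} {v : E3 → E3} {g : ℕ → E3 → E3} {B : ℕ → E3 → M3}
    (hA : ∀ i j, IntegrableOn (fun X => A X i j) K)
    (hB : ∀ n i j, IntegrableOn (fun X => B n X i j) K)
    (hF : ContinuousOn F K) (hg : ∀ n, ContinuousOn (g n) K)
    (hFr : ∀ X ∈ K, r0 ≤ rad (F X)) (hgr : ∀ n, ∀ X ∈ K, r0 ≤ rad (g n X))
    (hu : TendstoUniformlyOn g F atTop K)
    (hBA : ∀ i j, Tendsto (fun n => ∫ X in K, |B n X i j - A X i j|) atTop (𝓝 0))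
    (hv : ∀ i, ContinuousOn (fun X => v X i) K) (hv1 : ∀ X, ∀ j, |v X j| ≤ 1) (c1 c2 : ℝ) :
    IntegrableOn (fun X => qq (A X) (v X) (F X) c1 c2) K ∧
    Tendsto (fun n => ∫ X in K, ‖qq (B n X) (v X) (g n X) c1 c2 - qq (A X) (v X) (F X) c1 c2‖)
      atTop (𝓝 0) := by
  have hcont : ∀ (G : E3 → E3), ContinuousOn G K → (∀ X ∈ K, r0 ≤ rad (G X)) →
      ∀ i, ContinuousOn (fun X => er (G X) i) K := fun G hG hr i =>
    (er_cont i).comp hG fun X hX => hr0.trans_le (hr X hX)
  have h1 := int_qq hK hA (hcont F hF hFr) hv c1 c2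
  have h2 := fun n => int_qq hK (hB n) (hcont (g n) (hg n) (hgr n)) hv c1 c2
  refine ⟨h1, ?_⟩
  refine tendsto_order.2 ⟨fun a ha => Eventually.of_forall fun n =>
    lt_of_lt_of_le ha (integral_nonneg fun _ => norm_nonneg _), fun η hη => ?_⟩
  have hnmA : IntegrableOn (fun X => nm (A X)) K := by
    unfold nm
    exact integrable_finsetSum _ fun i _ => integrable_finsetSum _ fun j _ => (hA i j).abs
  have hD : ∀ n, ∀ i j, IntegrableOn (fun X => |B n X i j - A X i j|) K := fun n i j =>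
    ((hB n i j).sub (hA i j)).abs
  have hnmD : ∀ n, IntegrableOn (fun X => nm (B n X - A X)) K := by
    intro n
    unfold nm
    exact integrable_finsetSum _ fun i _ => integrable_finsetSum _ fun j _ => hD n i j
  set J := ∫ X in K, nm (A X) with hJ
  have hJ0 : 0 ≤ J := integral_nonneg fun X => nm_nn _
  set δ := η / (2 * (J + 1)) with hδ
  have hδ0 : 0 < δ := by positivity
  have hev : ∀ᶠ n in atTop, ∀ X ∈ K, dist (F X) (g n X) < δ * r0 / 2 :=
    Metric.tendstoUniformlyOn_iff.1 hu _ (by positivity)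
  have hsum : Tendsto (fun n => 2 * ∑ i : Fin 3, ∑ j : Fin 3, ∫ X in K, |B n X i j - A X i j|)
      atTop (𝓝 0) := by
    have : Tendsto (fun n => 2 * ∑ i : Fin 3, ∑ j : Fin 3, ∫ X in K, |B n X i j - A X i j|)
        atTop (𝓝 (2 * ∑ i : Fin 3, ∑ j : Fin 3, 0)) :=
      (tendsto_finsetSum _ fun i _ => tendsto_finsetSum _ fun j _ => hBA i j).const_mul 2
    simpa using this
  filter_upwards [hev, (tendsto_order.1 hsum).2 (η / 2) (by positivity)] with n hn hn2
  have h3 : ∫ X in K, ‖qq (B n X) (v X) (g n X) c1 c2 - qq (A X) (v X) (F X) c1 c2‖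
      ≤ ∫ X in K, (2 * nm (B n X - A X) + δ * nm (A X)) := by
    refine setIntegral_mono_on ((h2 n).sub h1).norm
      (((hnmD n).const_mul 2).add (hnmA.const_mul δ)) hK.measurableSet fun X hX => ?_
    refine qq_diff hδ0.le (hv1 X) fun i => ?_
    have h4 := er_lip (hr0.trans_le (hgr n X hX)) (hr0.trans_le (hFr X hX)) i
    refine h4.trans ?_
    have h5 := hn X hX
    rw [dist_comm, dist_eq_norm] at h5
    rw [div_le_iff₀ (hr0.trans_le (hgr n X hX))]
    have h6 := hgr n X hX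
    have h7 : δ * r0 ≤ δ * rad (g n X) := mul_le_mul_of_nonneg_left h6 hδ0.le
    linarith
  have h8 : ∫ X in K, (2 * nm (B n X - A X) + δ * nm (A X))
      = 2 * (∑ i : Fin 3, ∑ j : Fin 3, ∫ X in K, |B n X i j - A X i j|) + δ * J := by
    rw [integral_add ((hnmD n).const_mul 2) (hnmA.const_mul δ), integral_const_mul,
      integral_const_mul]
    congr 2
    simp only [nm, Matrix.sub_apply]
    rw [integral_finsetSum _ fun i _ => integrable_finsetSum _ fun j _ => hD n i j]
    refine Finset.sum_congr rfl fun i _ => ?_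
    rw [integral_finsetSum _ fun j _ => hD n i j]
  have h9 : δ * J ≤ η / 2 := by
    rw [hδ, div_mul_eq_mul_div, div_le_iff₀ (by positivity)]
    nlinarith
  linarith

theorem L1_of_L3 {K : Set E3} (hK : IsCompact K) {d : ℕ → E3 → ℝ}
    (hd : ∀ n, MemLp (d n) 3 (volume.restrict K))
    (h : Tendsto (fun n => ∫ x in K, |d n x| ^ 3) atTop (𝓝 0)) :
    Tendsto (fun n => ∫ x in K, |d n x|) atTop (𝓝 0) := by
  have : IsFiniteMeasure (volume.restrict K) := ⟨by
    rw [Measure.restrict_apply_univ]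
    exact hK.measure_lt_top⟩
  refine tendsto_order.2 ⟨fun a ha => Eventually.of_forall fun n =>
    lt_of_lt_of_le ha (integral_nonneg fun _ => abs_nonneg _), fun η hη => ?_⟩
  set V := volume.real K with hV
  have hV0 : 0 ≤ V := measureReal_nonneg
  set δ := η / (2 * (V + 1)) with hδ
  have hδ0 : 0 < δ := by positivity
  have h9 : δ * V ≤ η / 2 := by
    rw [hδ, div_mul_eq_mul_div, div_le_iff₀ (by positivity)]
    nlinarith
  filter_upwards [(tendsto_order.1 h).2 (δ ^ 2 * (η / 2)) (by positivity)] with n hn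
  have h1 : Integrable (fun x => |d n x|) (volume.restrict K) :=
    ((hd n).integrable (by norm_num)).abs
  have h2 : Integrable (fun x => |d n x| ^ 3) (volume.restrict K) :=
    MemLp.integrable_norm_pow (p := 3) (hd n) (by norm_num)
  have h3 : ∫ x in K, |d n x| ≤ ∫ x in K, (δ + (δ ^ 2)⁻¹ * |d n x| ^ 3) := by
    refine integral_mono h1 ((integrable_const δ).add (h2.const_mul _)) fun x => ?_
    show |d n x| ≤ δ + (δ ^ 2)⁻¹ * |d n x| ^ 3
    have hx := abs_nonneg (d n x)
    by_cases h4 : |d n x| ≤ δ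
    · have : 0 ≤ (δ ^ 2)⁻¹ * |d n x| ^ 3 := by positivity
      linarith
    · have h5 : δ < |d n x| := lt_of_not_ge h4
      have h6 : |d n x| ≤ (δ ^ 2)⁻¹ * |d n x| ^ 3 := by
        rw [inv_mul_eq_div, le_div_iff₀ (by positivity)]
        have : δ ^ 2 ≤ |d n x| ^ 2 := pow_le_pow_left₀ hδ0.le h5.le 2
        calc |d n x| * δ ^ 2 ≤ |d n x| * |d n x| ^ 2 := mul_le_mul_of_nonneg_left this hx
          _ = |d n x| ^ 3 := by ring
      linarith
  rw [integral_add (integrable_const δ) (h2.const_mul _), integral_const_mul,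
    setIntegral_const, smul_eq_mul] at h3
  have h7 : (δ ^ 2)⁻¹ * ∫ x in K, |d n x| ^ 3 < η / 2 := by
    rw [inv_mul_eq_div, div_lt_iff₀ (by positivity)]
    linarith
  have h8 : V * δ ≤ η / 2 := by linarith
  linarith

theorem jac_cont {g : E3 → E3} (hg : ContDiff ℝ (⊤ : ℕ∞) g) (i j : Fin 3) :
    Continuous (fun X => jac g X i j) := by
  have h := (hg.continuous_fderiv (by simp)).clm_apply
    (continuous_const (y := (EuclideanSpace.single j 1 : E3)))
  exact (co_cont i).comp h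

theorem KR_compact (ρ R : ℝ) : IsCompact (KR ρ R) := by
  refine (isCompact_closedBall (0 : E3) R).of_isClosed_subset ?_ ?_
  · exact (isClosed_le continuous_const rad_cont).inter (isClosed_le continuous_norm continuous_const)
  · intro X hX
    rw [mem_closedBall_zero_iff]
    exact hX.2

theorem gg_lip (X Y Y' : E3) : ‖gg X Y - gg X Y'‖ ≤ 2 * ‖Y - Y'‖ := by
  have e : gg X Y - gg X Y' = ((rad Y - rad Y' : ℝ) : ℂ) + ((Y 2 - Y' 2 : ℝ) : ℂ) * I := by
    unfold gg
    push_cast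
    ring
  rw [e]
  refine (norm_add_le _ _).trans ?_
  rw [norm_mul, Complex.norm_I, mul_one, Complex.norm_real, Complex.norm_real, Real.norm_eq_abs,
    Real.norm_eq_abs]
  have h1 := rad_lip Y Y'
  have h2 : |Y 2 - Y' 2| ≤ ‖Y - Y'‖ := by
    have := PiLp.norm_apply_le (Y - Y') 2
    simpa using this
  linarith

end APX_

open APX_ in
theorem stmt_APX (hMOLL : Stmt_MOLL) (_hPIOI : Stmt_PIOI) (_hBAS : Stmt_BAS)
    (hWIN1 : Stmt_WIN1) : Stmt_APX := by
  intro ρ ε F A hρ hρ1 hε hερ hN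
  set K := KR ρ 40 with hKdef
  have hK : IsCompact K := KR_compact ρ 40
  have hfin : IsFiniteMeasure (volume.restrict K) := ⟨by
    rw [Measure.restrict_apply_univ]
    exact hK.measure_lt_top⟩
  have hKb : K ⊆ Metric.ball 0 64 := by
    intro X hX
    rw [mem_ball_zero_iff]
    exact lt_of_le_of_lt hX.2 (by norm_num)
  have hFc : ContinuousOn F K := hN.cont.mono hKb
  have hAL : ∀ i j, MemLp (fun X => A X i j) 3 (volume.restrict K) := fun i j =>
    hN.wg.loc K hK hKb i j
  have hAi : ∀ i j, IntegrableOn (fun X => A X i j) K := fun i j =>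
    (hAL i j).integrable (by norm_num)
  have hFr : ∀ X ∈ K, 15 / 16 * ρ ≤ rad (F X) := by
    intro X hX
    have h1 := hN.close X (hKb hX)
    have h2 := rad_lip (F X) (wind X)
    rw [hWIN1.2.1 X] at h2
    have h3 := abs_le.1 (h2.trans h1)
    have h4 : ρ ≤ rad X := hX.1
    linarith [h3.1]
  obtain ⟨g, hgs, hgu, hgL⟩ := hMOLL (Metric.ball 0 64) F A Metric.isOpen_ball hN.cont hN.wg K hK hKb
  -- drop finitely many terms
  obtain ⟨N, hNn⟩ := (Metric.tendstoUniformlyOn_iff.1 hgu (ρ / 16) (by positivity)).exists_forall_of_atTop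
  set g' : ℕ → E3 → E3 := fun n => g (n + N) with hg'
  have hg's : ∀ n, ContDiff ℝ (⊤ : ℕ∞) (g' n) := fun n => hgs (n + N)
  have hg'r : ∀ n, ∀ X ∈ K, ρ / 2 ≤ rad (g' n X) := by
    intro n X hX
    have h1 := hNn (n + N) (by omega) X hX
    rw [dist_eq_norm] at h1
    have h2 := abs_le.1 ((rad_lip (F X) (g' n X)).trans h1.le)
    have h3 := hFr X hX
    linarith [h2.2]
  have hg'u : TendstoUniformlyOn g' F atTop K := by
    intro u hu
    exact (tendsto_add_atTop_nat N).eventually (hgu u hu)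
  have hJL : ∀ n i j, MemLp (fun X => jac (g' n) X i j) 3 (volume.restrict K) := by
    intro n i j
    obtain ⟨C, hC⟩ := hK.exists_bound_of_continuousOn (jac_cont (hg's n) i j).continuousOn
    refine MemLp.of_bound (jac_cont (hg's n) i j).aestronglyMeasurable C ?_
    exact (ae_restrict_iff' hK.measurableSet).2 (Eventually.of_forall hC)
  have hJi : ∀ n i j, IntegrableOn (fun X => jac (g' n) X i j) K := fun n i j =>
    (hJL n i j).integrable (by norm_num)
  have hconv : ∀ i j, Tendsto (fun n => ∫ X in K, |jac (g' n) X i j - A X i j|) atTop (𝓝 0) := by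
    intro i j
    exact L1_of_L3 hK (fun n => (hJL n i j).sub (hAL i j))
      ((hgL i j).comp (tendsto_add_atTop_nat N))
  have hr0 : (0 : ℝ) < ρ / 2 := by positivity
  have hFr2 : ∀ X ∈ K, ρ / 2 ≤ rad (F X) := fun X hX => by
    have := hFr X hX
    linarith
  have hKpos : ∀ X ∈ K, 0 < rad X := fun X hX => hρ.trans_le hX.1
  have hg'c : ∀ n, ContinuousOn (g' n) K := fun n => (hg's n).continuous.continuousOn
  obtain ⟨r1, r2⟩ := conv_qq hK hr0 (B := fun n => jac (g' n)) hAi hJi hFc hg'c hFr2 hg'r hg'u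
    hconv (v := er) (fun i => (er_cont i).mono hKpos) er_bd 1 0
  obtain ⟨z1, z2⟩ := conv_qq hK hr0 (B := fun n => jac (g' n)) hAi hJi hFc hg'c hFr2 hg'r hg'u
    hconv (v := fun _ => e3) (fun i => continuousOn_const) (fun _ => e3_bd) 0 1
  obtain ⟨t1, t2⟩ := conv_qq hK hr0 (B := fun n => jac (g' n)) hAi hJi hFc hg'c hFr2 hg'r hg'u
    hconv (v := et) (fun i => (et_cont i).mono hKpos) et_bd 0 0
  simp only [gr_eq, gz_eq, gt_eq]
  refine ⟨r1, z1, t1, g', hg's, hg'r, ?_, r2, z2, t2⟩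
  rw [Metric.tendstoUniformlyOn_iff]
  intro η hη
  filter_upwards [Metric.tendstoUniformlyOn_iff.1 hg'u (η / 2) (by positivity)] with n hn X hX
  have h1 := hn X hX
  rw [dist_eq_norm] at h1 ⊢
  exact (gg_lip X (F X) (g' n X)).trans_lt (by linarith)

end Pool.Mart
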