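import Pool.Agent.Work.MP_680515_an.IfaceL

/-!
# MP_680515_an, block BAS: basic facts of linear algebra
-/

open MeasureTheory Set Filter Topology Complex

namespace Pool.Mart

namespace BAS_

open Matrix

theorem le_opn (M : M3) (v : E3) : ‖act M v‖ ≤ opn M * ‖v‖ := by
  have h : act M v = (Matrix.toEuclideanLin M).toContinuousLinearMap v := rfl
  rw [h]
  exact ContinuousLinearMap.le_opNorm _ _

theorem opn_le (M : M3) (c : ℝ) (hc : 0 ≤ c) (h : ∀ v : E3, ‖act M v‖ ≤ c * ‖v‖) : opn M ≤ c :=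
  ContinuousLinearMap.opNorm_le_bound _ hc h

theorem inner_eq (v w : E3) : (inner ℝ v w : ℝ) = v.ofLp ⬝ᵥ w.ofLp := by
  rw [PiLp.inner_apply]
  simp [dotProduct, mul_comm]

theorem act_ofLp (M : M3) (v : E3) : (act M v).ofLp = M.mulVec v.ofLp := rfl

theorem cpair_eq (A : M3) (H b : E3) : cpair A H b = inner ℝ H (act (cofm A) b) := by
  rw [inner_eq, act_ofLp]
  simp only [cpair, dotProduct, Matrix.mulVec, Finset.mul_sum]
  refine Finset.sum_congr rfl fun i _ => Finset.sum_congr rfl fun j _ => ?_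
  ring

theorem cof_mul (A : M3) : A.transpose * cofm A = A.det • (1 : M3) := by
  rw [cofm, ← Matrix.transpose_mul, Matrix.adjugate_mul, Matrix.transpose_smul,
    Matrix.transpose_one]

theorem inner_act (A : M3) (v w : E3) :
    inner ℝ (act A v) (act (cofm A) w) = A.det * inner ℝ v w := by
  rw [inner_eq, inner_eq, act_ofLp, act_ofLp]
  rw [Matrix.dotProduct_mulVec, Matrix.vecMul_mulVec, ← Matrix.dotProduct_mulVec,
    show A.transpose * cofm A = A.det • (1 : M3) from cof_mul A]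
  simp [Matrix.smul_mulVec, dotProduct_smul]

theorem act_act (A : M3) (v : E3) : act A (act (cofm A).transpose v) = A.det • v := by
  apply (WithLp.equiv 2 (Fin 3 → ℝ)).injective
  change A.mulVec ((cofm A).transpose.mulVec v.ofLp) = A.det • v.ofLp
  rw [Matrix.mulVec_mulVec, cofm, Matrix.transpose_transpose, Matrix.mul_adjugate,
    Matrix.smul_mulVec, Matrix.one_mulVec]

theorem cof_cof (A : M3) : cofm (cofm A) = A.det • A := by
  rw [cofm, cofm, ← Matrix.adjugate_transpose, Matrix.transpose_transpose,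
    Matrix.adjugate_adjugate A (by simp)]
  simp

/-- the cofactor matrix and the cross product -/
theorem cof_cross (M : M3) (a b : Fin 3 → ℝ) :
    (cofm M).mulVec (crossProduct a b) = crossProduct (M.mulVec a) (M.mulVec b) := by
  ext i
  fin_cases i <;>
  · simp [cofm, Matrix.adjugate_fin_three, crossProduct, Matrix.mulVec, dotProduct,
      Fin.sum_univ_three, Matrix.transpose_apply]
    ring

theorem norm_sq (v : E3) : ‖v‖ ^ 2 = v.ofLp ⬝ᵥ v.ofLp := by
  rw [← inner_eq, real_inner_self_eq_norm_sq]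

theorem norm_cross_le (a b : E3) :
    ‖(WithLp.toLp 2 (crossProduct a.ofLp b.ofLp) : E3)‖ ≤ ‖a‖ * ‖b‖ := by
  apply le_of_sq_le_sq _ (by positivity)
  rw [mul_pow, norm_sq, norm_sq, norm_sq]
  simp only [dotProduct, crossProduct, Fin.sum_univ_three]
  simp
  nlinarith [sq_nonneg (a.ofLp 0 * b.ofLp 0 + a.ofLp 1 * b.ofLp 1 + a.ofLp 2 * b.ofLp 2)]

theorem exists_perp (v : E3) : ∃ a : E3, ‖a‖ = 1 ∧ a.ofLp ⬝ᵥ v.ofLp = 0 := by
  by_cases h : v.ofLp 0 = 0 ∧ v.ofLp 1 = 0
  · refine ⟨EuclideanSpace.single 0 1, by simp, ?_⟩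
    simp [dotProduct, h.1]
  · have hpos : 0 < v.ofLp 0 ^ 2 + v.ofLp 1 ^ 2 := by
      rcases not_and_or.1 h with h | h
      · have := sq_nonneg (v.ofLp 1)
        positivity
      · have := sq_nonneg (v.ofLp 0)
        positivity
    set s := Real.sqrt (v.ofLp 0 ^ 2 + v.ofLp 1 ^ 2) with hs
    have hs0 : 0 < s := Real.sqrt_pos.2 hpos
    have hss : s ^ 2 = v.ofLp 0 ^ 2 + v.ofLp 1 ^ 2 := Real.sq_sqrt hpos.le
    refine ⟨WithLp.toLp 2 ![v.ofLp 1 / s, -v.ofLp 0 / s, 0], ?_, ?_⟩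
    · have h1 : ‖(WithLp.toLp 2 ![v.ofLp 1 / s, -v.ofLp 0 / s, 0] : E3)‖ ^ 2 = 1 := by
        rw [norm_sq]
        simp only [dotProduct, Fin.sum_univ_three]
        simp
        field_simp
        linarith
      have h2 := norm_nonneg (WithLp.toLp 2 ![v.ofLp 1 / s, -v.ofLp 0 / s, 0] : E3)
      nlinarith
    · simp [dotProduct, Fin.sum_univ_three]
      ring

theorem cof_le (M : M3) : opn (cofm M) ≤ opn M ^ 2 := by
  have hM : 0 ≤ opn M := norm_nonneg _
  apply opn_le _ _ (by positivity)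
  intro v
  obtain ⟨a, ha, hav⟩ := exists_perp v
  -- `b = v × a`, `a × b = v`
  set b : E3 := WithLp.toLp 2 (crossProduct v.ofLp a.ofLp) with hb
  have hb1 : ‖b‖ ≤ ‖v‖ := by
    have := norm_cross_le v a
    rwa [ha, mul_one] at this
  have ha2 : a.ofLp ⬝ᵥ a.ofLp = 1 := by rw [← norm_sq, ha]; norm_num
  have hab : crossProduct a.ofLp b.ofLp = v.ofLp := by
    simp only [dotProduct, Fin.sum_univ_three] at ha2 hav
    ext i
    fin_cases i
    · simp [hb, crossProduct]
      linear_combination v.ofLp 0 * ha2 - a.ofLp 0 * hav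
    · simp [hb, crossProduct]
      linear_combination v.ofLp 1 * ha2 - a.ofLp 1 * hav
    · simp [hb, crossProduct]
      linear_combination v.ofLp 2 * ha2 - a.ofLp 2 * hav
  have hact : act (cofm M) v
      = WithLp.toLp 2 (crossProduct (act M a).ofLp (act M b).ofLp) := by
    rw [act, act_ofLp, act_ofLp, ← cof_cross, hab]
  rw [hact]
  calc ‖(WithLp.toLp 2 (crossProduct (act M a).ofLp (act M b).ofLp) : E3)‖
      ≤ ‖act M a‖ * ‖act M b‖ := norm_cross_le _ _
    _ ≤ (opn M * ‖a‖) * (opn M * ‖b‖) := by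
        gcongr
        · exact le_opn M a
        · exact le_opn M b
    _ = opn M ^ 2 * ‖b‖ := by rw [ha]; ring
    _ ≤ opn M ^ 2 * ‖v‖ := by gcongr

end BAS_

open BAS_ in
theorem stmt_BAS : Stmt_BAS :=
  ⟨le_opn, opn_le, cpair_eq, inner_act, act_act, cof_le, cof_cof⟩

end Pool.Mart
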