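import Pool.Agent.Work.MP_680515_an.IfaceS

open MeasureTheory Set Filter Topology Complex

namespace Pool.Mart

namespace BXI_

lemma BC_eq (k : ℕ) (i : ℤ) : BC k i =
    measurableEquivRealProd ⁻¹' (Icc ((2 : ℝ)⁻¹ ^ (k + 1)) ((2 : ℝ)⁻¹ ^ k) ×ˢ
      Icc (i * (2 : ℝ)⁻¹ ^ k - (2 : ℝ)⁻¹ ^ k) (i * (2 : ℝ)⁻¹ ^ k + (2 : ℝ)⁻¹ ^ k)) := by
  ext ζ
  simp only [BC, Set.mem_ofPred_eq, mem_preimage, measurableEquivRealProd_apply, mem_prod,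
    mem_Icc, abs_le]
  constructor
  · rintro ⟨h1, h2, h3, h4⟩
    exact ⟨⟨h1, h2⟩, by linarith, by linarith⟩
  · rintro ⟨⟨h1, h2⟩, h3, h4⟩
    exact ⟨h1, h2, by linarith, by linarith⟩

lemma meas_BC (k : ℕ) (i : ℤ) : MeasurableSet (BC k i) := by
  rw [BC_eq]
  exact measurableEquivRealProd.measurable (measurableSet_Icc.prod measurableSet_Icc)

lemma four (k : ℕ) : (4 : ℝ)⁻¹ ^ k = (2 : ℝ)⁻¹ ^ k * (2 : ℝ)⁻¹ ^ k := by
  rw [← mul_pow]; norm_num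

lemma eight (k : ℕ) : (8 : ℝ)⁻¹ ^ k = (4 : ℝ)⁻¹ ^ k * (2 : ℝ)⁻¹ ^ k := by
  rw [← mul_pow]; norm_num

lemma vol_BC (k : ℕ) (i : ℤ) : volume (BC k i) = ENNReal.ofReal ((4 : ℝ)⁻¹ ^ k) := by
  rw [BC_eq, volume_preserving_equiv_real_prod.measure_preimage
    (measurableSet_Icc.prod measurableSet_Icc).nullMeasurableSet, Measure.volume_eq_prod,
    Measure.prod_prod, Real.volume_Icc, Real.volume_Icc,
    ← ENNReal.ofReal_mul (by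
      have : (2 : ℝ)⁻¹ ^ (k + 1) ≤ (2 : ℝ)⁻¹ ^ k := by
        rw [pow_succ]
        have : (0 : ℝ) < (2 : ℝ)⁻¹ ^ k := by positivity
        linarith
      linarith)]
  congr 1
  rw [four, pow_succ]
  ring

lemma BC_sub (k : ℕ) (i : ℤ) : BC k i ⊆ BB k i := by
  rintro ζ ⟨h1, h2, h3⟩
  have hp : (0 : ℝ) < (2 : ℝ)⁻¹ ^ k := by positivity
  have e1 : (2 : ℝ)⁻¹ ^ (k + 1) = (2 : ℝ)⁻¹ ^ k / 2 := by rw [pow_succ]; ring
  have e2 : (2 : ℝ)⁻¹ ^ (k + 2) = (2 : ℝ)⁻¹ ^ k / 4 := by rw [pow_add]; norm_num; ring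
  refine ⟨?_, ?_, ?_⟩
  · rw [e2]; rw [e1] at h1; linarith
  · linarith
  · linarith

lemma BB_sub (k : ℕ) (i : ℤ) : BB k i ⊆ Metric.closedBall 0 (4 + |(i : ℝ)|) := by
  rintro ζ ⟨h1, h2, h3⟩
  have hp : (0 : ℝ) < (2 : ℝ)⁻¹ ^ k := by positivity
  have hp1 : (2 : ℝ)⁻¹ ^ k ≤ 1 := pow_le_one₀ (by norm_num) (by norm_num)
  have hq : (0 : ℝ) < (2 : ℝ)⁻¹ ^ (k + 2) := by positivity
  rw [Metric.mem_closedBall, dist_zero_right]
  have h4 : ‖ζ‖ ≤ |ζ.re| + |ζ.im| := Complex.norm_le_abs_re_add_abs_im ζ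
  have h5 : |ζ.re| ≤ 2 := by
    rw [abs_of_pos (hq.trans h1)]; linarith
  have h6 : |ζ.im| ≤ 2 + |(i : ℝ)| := by
    have e : ζ.im = (ζ.im - i * (2 : ℝ)⁻¹ ^ k) + i * (2 : ℝ)⁻¹ ^ k := by ring
    rw [e]
    refine (abs_add_le _ _).trans ?_
    have : |(i : ℝ) * (2 : ℝ)⁻¹ ^ k| ≤ |(i : ℝ)| := by
      rw [abs_mul, abs_of_pos hp]
      exact mul_le_of_le_one_right (abs_nonneg _) hp1
    linarith
  linarith

lemma af_re (a b : ℝ) (ζ : ℂ) : (af a b ζ).re = a + b * ζ.im := by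
  simp [af]

lemma af_im (a b : ℝ) (ζ : ℂ) : (af a b ζ).im = -(b * ζ.re) := by
  simp [af]

lemma af_cont (a b : ℝ) : Continuous (af a b) := by
  unfold af
  fun_prop

lemma af_im_le (k : ℕ) (i : ℤ) (a b : ℝ) (ζ : ℂ) (h : ζ ∈ BC k i) :
    |(af a b ζ).im| ≤ (2 : ℝ)⁻¹ ^ k * |b| := by
  obtain ⟨h1, h2, h3⟩ := h
  have hp : (0 : ℝ) < (2 : ℝ)⁻¹ ^ (k + 1) := by positivity
  rw [af_im, abs_neg, abs_mul, abs_of_pos (hp.trans_le h1), mul_comm]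
  exact mul_le_mul_of_nonneg_right h2 (abs_nonneg b)

lemma af_re_le (k : ℕ) (i : ℤ) (a b : ℝ) (ζ : ℂ) (h : ζ ∈ BC k i) :
    |(af a b ζ).re| ≤ |a + b * (i * (2 : ℝ)⁻¹ ^ k)| + (2 : ℝ)⁻¹ ^ k * |b| := by
  obtain ⟨h1, h2, h3⟩ := h
  rw [af_re]
  have e : a + b * ζ.im = (a + b * (i * (2 : ℝ)⁻¹ ^ k)) + b * (ζ.im - i * (2 : ℝ)⁻¹ ^ k) := by ring
  rw [e]
  refine (abs_add_le _ _).trans ?_
  rw [abs_mul]
  have := mul_le_mul_of_nonneg_left h3 (abs_nonneg b)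
  linarith

lemma af_le (k : ℕ) (i : ℤ) (a b : ℝ) (ζ : ℂ) (h : ζ ∈ BC k i) :
    ‖af a b ζ‖ ≤ 2 * (|a + b * (i * (2 : ℝ)⁻¹ ^ k)| + (2 : ℝ)⁻¹ ^ k * |b|) := by
  have h1 := af_im_le k i a b ζ h
  have h2 := af_re_le k i a b ζ h
  have h3 := Complex.norm_le_abs_re_add_abs_im (af a b ζ)
  have h4 := abs_nonneg (a + b * (i * (2 : ℝ)⁻¹ ^ k))
  linarith

lemma constInt (k : ℕ) (i : ℤ) (c : ℝ) :
    IntegrableOn (fun _ : ℂ => c) (BC k i) ∧ (∫ _ in BC k i, c) = (4 : ℝ)⁻¹ ^ k * c := by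
  constructor
  · refine integrableOn_const ?_
    rw [vol_BC]
    exact ENNReal.ofReal_ne_top
  · rw [setIntegral_const, measureReal_def, vol_BC, ENNReal.toReal_ofReal (by positivity),
      smul_eq_mul]

end BXI_

open BXI_ in
theorem stmt_BXI : Stmt_BXI := by
  refine ⟨2, by norm_num, ?_⟩
  intro v k i a b o hv ho
  have hafB : IntegrableOn (af a b) (BB k i) :=
    ((af_cont a b).continuousOn.integrableOn_compact
      (isCompact_closedBall (0 : ℂ) (4 + |(i : ℝ)|))).mono_set (BB_sub k i)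
  have hd : IntegrableOn (fun ζ => v ζ - af a b ζ) (BB k i) := hv.sub hafB
  have hdn : IntegrableOn (fun ζ => ‖v ζ - af a b ζ‖) (BB k i) := hd.norm
  have hdC : IntegrableOn (fun ζ => ‖v ζ - af a b ζ‖) (BC k i) := hdn.mono_set (BC_sub k i)
  have hvC : IntegrableOn v (BC k i) := hv.mono_set (BC_sub k i)
  have hBB : (∫ ζ in BB k i, ‖v ζ - af a b ζ‖) ≤ (8 : ℝ)⁻¹ ^ k * o := by
    have h8 : (0 : ℝ) < (8 : ℝ)⁻¹ ^ k := by positivity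
    have h88 : (8 : ℝ)⁻¹ ^ k * 8 ^ k = 1 := by
      rw [← mul_pow]; norm_num
    calc (∫ ζ in BB k i, ‖v ζ - af a b ζ‖)
        = (8 : ℝ)⁻¹ ^ k * (8 ^ k * ∫ ζ in BB k i, ‖v ζ - af a b ζ‖) := by
          rw [← mul_assoc, h88, one_mul]
      _ ≤ _ := mul_le_mul_of_nonneg_left ho h8.le
  have hmono : (∫ ζ in BC k i, ‖v ζ - af a b ζ‖) ≤ ∫ ζ in BB k i, ‖v ζ - af a b ζ‖ :=
    setIntegral_mono_set hdn (Eventually.of_forall fun ζ => norm_nonneg _)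
      (Eventually.of_forall (BC_sub k i))
  constructor
  · obtain ⟨c1, c2⟩ := constInt k i
      (2 * (|a + b * (i * (2 : ℝ)⁻¹ ^ k)| + (2 : ℝ)⁻¹ ^ k * |b|))
    have h1 : (∫ ζ in BC k i, ‖v ζ‖) ≤ ∫ ζ in BC k i, (‖v ζ - af a b ζ‖ +
        2 * (|a + b * (i * (2 : ℝ)⁻¹ ^ k)| + (2 : ℝ)⁻¹ ^ k * |b|)) := by
      refine setIntegral_mono_on hvC.norm (hdC.add c1) (meas_BC k i) fun ζ hζ => ?_
      have h2 := af_le k i a b ζ hζ
      have h3 : ‖v ζ‖ ≤ ‖v ζ - af a b ζ‖ + ‖af a b ζ‖ := norm_le_norm_sub_add _ _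
      linarith
    have h2 := integral_add hdC c1
    rw [h2, c2] at h1
    linarith
  · obtain ⟨c1, c2⟩ := constInt k i ((2 : ℝ)⁻¹ ^ k * |b|)
    have h1 : (∫ ζ in BC k i, |(v ζ).im|) ≤ ∫ ζ in BC k i, (‖v ζ - af a b ζ‖ +
        (2 : ℝ)⁻¹ ^ k * |b|) := by
      refine setIntegral_mono_on ?_ (hdC.add c1) (meas_BC k i) fun ζ hζ => ?_
      · exact hvC.im.abs
      have h2 := af_im_le k i a b ζ hζ
      have h3 : |(v ζ).im| ≤ |(v ζ - af a b ζ).im| + |(af a b ζ).im| := by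
        have e : (v ζ).im = (v ζ - af a b ζ).im + (af a b ζ).im := by
          rw [Complex.sub_im]; ring
        rw [e]
        exact abs_add_le _ _
      have h4 := Complex.abs_im_le_norm (v ζ - af a b ζ)
      linarith
    have h2 := integral_add hdC c1
    rw [h2, c2, ← mul_assoc, ← eight] at h1
    have h3 : 0 ≤ (8 : ℝ)⁻¹ ^ k * |b| := by positivity
    linarith

end Pool.Mart
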