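import Pool.Agent.Work.MP_680515_an.IfaceM

/-!
# MP_680515_an, block CH1: one step inequality for the logarithmic ratio
-/

set_option autoImplicit false
open MeasureTheory Set Filter Topology

namespace Pool.Mart

namespace CH1_

theorem e3_0 : e3 0 = 0 := by simp [e3]
theorem e3_1 : e3 1 = 0 := by simp [e3]
theorem e3_2 : e3 2 = 1 := by simp [e3]

theorem nsq (X : E3) : ‖X‖ ^ 2 = X 0 ^ 2 + X 1 ^ 2 + X 2 ^ 2 := by
  rw [EuclideanSpace.norm_eq, Real.sq_sqrt (by positivity), Fin.sum_univ_three]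
  simp [sq_abs]

theorem radsq (X : E3) : rad X ^ 2 = X 0 ^ 2 + X 1 ^ 2 := by
  unfold rad
  rw [Real.sq_sqrt (by positivity)]

theorem rad_nn (X : E3) : 0 ≤ rad X := Real.sqrt_nonneg _

theorem near (X : E3) (δ : ℝ) (h : ‖X - (1 / 2 : ℝ) • e3‖ ≤ δ) : |X 2 - 1 / 2| ≤ δ ∧ rad X ≤ δ := by
  have h0 : 0 ≤ δ := (norm_nonneg _).trans h
  have h1 : ‖X - (1 / 2 : ℝ) • e3‖ ^ 2 = X 0 ^ 2 + X 1 ^ 2 + (X 2 - 1 / 2) ^ 2 := by
    rw [nsq]
    simp [e3_0, e3_1, e3_2]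
  have h2 : ‖X - (1 / 2 : ℝ) • e3‖ ^ 2 ≤ δ ^ 2 := pow_le_pow_left₀ (norm_nonneg _) h 2
  rw [h1] at h2
  constructor
  · apply abs_le_of_sq_le_sq _ h0
    nlinarith [sq_nonneg (X 0), sq_nonneg (X 1)]
  · have h3 := radsq X
    have h4 := rad_nn X
    apply le_of_sq_le_sq _ h0
    nlinarith [sq_nonneg (X 2 - 1 / 2)]

theorem prod_le (a b s x r : ℝ) (_hs : 0 ≤ s) (hx : 49 / 100 ≤ x) (hx' : x ≤ 51 / 100)
    (ha : (a * b) ^ 2 = (r ^ 2 + x ^ 2) * (r ^ 2 + (1 - x) ^ 2)) :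
    a * b ≤ x * (1 - x) + 4 * r ^ 2 := by
  have w : 24 / 100 ≤ x * (1 - x) := by nlinarith
  have hR : 0 ≤ r ^ 2 := sq_nonneg _
  apply le_of_sq_le_sq _ (by linarith)
  rw [ha]
  have e : (x * (1 - x) + 4 * r ^ 2) ^ 2 - (r ^ 2 + x ^ 2) * (r ^ 2 + (1 - x) ^ 2)
      = r ^ 2 * (10 * (x * (1 - x)) - 1) + 15 * (r ^ 2 * r ^ 2) := by ring
  have e1 : 0 ≤ r ^ 2 * (10 * (x * (1 - x)) - 1) := mul_nonneg hR (by linarith)
  have e2 : 0 ≤ r ^ 2 * r ^ 2 := mul_nonneg hR hR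
  linarith

theorem fin_alg (P T x y r ε d : ℝ) (hε : 0 ≤ ε) (hr0 : 0 ≤ r) (hr : r ≤ ε)
    (hP : P ≤ x * (1 - x) + 4 * r ^ 2) (hT : y * (1 - y) ≤ T) (hT' : 1 / 5 ≤ T)
    (hxy : |1 - x - y| ≤ 4 * ε) (hd : |y - x| + r ≤ d) : P ≤ T * (1 + 20 * ε * d) := by
  have e1 : (x - y) * (1 - x - y) ≤ |y - x| * (4 * ε) := by
    calc (x - y) * (1 - x - y) ≤ |(x - y) * (1 - x - y)| := le_abs_self _
      _ = |y - x| * |1 - x - y| := by rw [abs_mul, abs_sub_comm]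
      _ ≤ |y - x| * (4 * ε) := mul_le_mul_of_nonneg_left hxy (abs_nonneg _)
  have e2 : r * r ≤ r * ε := mul_le_mul_of_nonneg_left hr hr0
  have e3' : (|y - x| + r) * ε ≤ d * ε := mul_le_mul_of_nonneg_right hd hε
  have d0 : 0 ≤ d := by
    have := abs_nonneg (y - x)
    linarith
  have k2 : x * (1 - x) - y * (1 - y) = (x - y) * (1 - x - y) := by ring
  have k4 : 0 ≤ ε * d := mul_nonneg hε d0
  have k3 : 1 / 5 * (ε * d) ≤ T * (ε * d) := mul_le_mul_of_nonneg_right hT' k4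
  have e4 : r ^ 2 = r * r := by ring
  have e5 : T * (1 + 20 * ε * d) = T + 20 * (T * (ε * d)) := by ring
  rw [e5]
  rw [e4] at hP
  linarith

theorem alg (X Y : E3) (ε : ℝ) (hε : 0 ≤ ε) (hε' : ε ≤ 1 / 1024) (hX : ‖X - (1 / 2 : ℝ) • e3‖ ≤ ε)
    (hY : ‖Y - (1 / 2 : ℝ) • e3‖ ≤ 3 * ε) :
    0 < ‖X‖ * ‖e3 - X‖ ∧ 0 < ‖Y‖ * ‖e3 - Y‖ ∧
      ‖X‖ * ‖e3 - X‖ ≤ (‖Y‖ * ‖e3 - Y‖) * (1 + 20 * ε * dev X Y) := by
  obtain ⟨hx, hr⟩ := near X _ hX
  obtain ⟨hy, -⟩ := near Y _ hY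
  have hr0 := rad_nn X
  have hrY := rad_nn Y
  have a1 := abs_le.mp hx
  have a2 := abs_le.mp hy
  have n1 := nsq X
  have n2 : ‖e3 - X‖ ^ 2 = X 0 ^ 2 + X 1 ^ 2 + (1 - X 2) ^ 2 := by
    rw [nsq]; simp [e3_0, e3_1, e3_2]
  have n3 := nsq Y
  have n4 : ‖e3 - Y‖ ^ 2 = Y 0 ^ 2 + Y 1 ^ 2 + (1 - Y 2) ^ 2 := by
    rw [nsq]; simp [e3_0, e3_1, e3_2]
  have r1 := radsq X
  have p1 : 0 ≤ ‖X‖ := norm_nonneg _
  have p2 : 0 ≤ ‖e3 - X‖ := norm_nonneg _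
  have p3 : 0 ≤ ‖Y‖ := norm_nonneg _
  have p4 : 0 ≤ ‖e3 - Y‖ := norm_nonneg _
  have z0 := sq_nonneg (X 0)
  have z1 := sq_nonneg (X 1)
  have z2 := sq_nonneg (Y 0)
  have z3 := sq_nonneg (Y 1)
  have q1 : X 2 ≤ ‖X‖ := le_of_sq_le_sq (by linarith) p1
  have q2 : 1 - X 2 ≤ ‖e3 - X‖ := le_of_sq_le_sq (by linarith) p2
  have q3 : Y 2 ≤ ‖Y‖ := le_of_sq_le_sq (by linarith) p3
  have q4 : 1 - Y 2 ≤ ‖e3 - Y‖ := le_of_sq_le_sq (by linarith) p4
  have hx2 : 49 / 100 ≤ X 2 := by linarith [a1.1]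
  have hx2' : X 2 ≤ 51 / 100 := by linarith [a1.2]
  have hy2 : 49 / 100 ≤ Y 2 := by linarith [a2.1]
  have hy2' : Y 2 ≤ 51 / 100 := by linarith [a2.2]
  have T1 : Y 2 * (1 - Y 2) ≤ ‖Y‖ * ‖e3 - Y‖ :=
    mul_le_mul q3 q4 (by linarith) p3
  have T2 : 1 / 5 ≤ Y 2 * (1 - Y 2) := by
    have : 0 ≤ (Y 2 - 49 / 100) * (51 / 100 - Y 2) := mul_nonneg (by linarith) (by linarith)
    have e : (Y 2 - 49 / 100) * (51 / 100 - Y 2) = Y 2 * (1 - Y 2) - 49 * 51 / 10000 := by ring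
    rw [e] at this
    linarith
  have S1 : ‖X‖ * ‖e3 - X‖ ≤ X 2 * (1 - X 2) + 4 * rad X ^ 2 := by
    refine prod_le _ _ 0 _ _ le_rfl hx2 hx2' ?_
    rw [mul_pow, n1, n2, r1]
  refine ⟨?_, ?_, ?_⟩
  · have h1 : 0 < ‖X‖ := by linarith
    have h2 : 0 < ‖e3 - X‖ := by linarith
    exact mul_pos h1 h2
  · linarith
  · refine fin_alg _ _ (X 2) (Y 2) (rad X) ε _ hε hr0 hr S1 T1 (by linarith) ?_ ?_
    · rw [abs_le]; constructor <;> linarith [a1.1, a1.2, a2.1, a2.2]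
    · unfold dev; linarith

end CH1_

open CH1_ in
theorem stmt_CH1 (_hRENS : Stmt_RENS) (_hGEO2 : Stmt_GEO2) (_hSCL : Stmt_SCL) (hCHV : Stmt_CHV)
    (hWIN1 : Stmt_WIN1) : Stmt_CH1 := by
  refine ⟨10, by norm_num, ?_⟩
  intro ε Ω f γ O O' hε hε' hP t ht n
  have hsc : sc (n + 1) = 1 / 2 * sc n := by unfold sc; rw [pow_succ]; ring
  have hscp : 0 < sc n := by unfold sc; positivity
  have hsc1 : sc n ≤ 1 := by
    unfold sc; exact pow_le_one₀ (by norm_num) (by norm_num)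
  have ht' : t ∈ Icc (-20 : ℝ) 20 := ⟨by linarith [ht.1], by linarith [ht.2]⟩
  have ht2 : t + sc (n + 1) ∈ Icc (-20 : ℝ) 20 :=
    ⟨by rw [hsc]; linarith [ht.1], by rw [hsc]; linarith [ht.2]⟩
  have hl := hP.pos t ht' n
  have hl' := hP.pos' t ht' n
  have hso := hP.so t ht' n
  have hso' := hP.so' t ht' n
  obtain ⟨-, hn, hc1, hc2, -⟩ := hCHV (fun _ => 0) 0 1 (O t n) one_pos hso
  obtain ⟨-, hn', hc1', hc2', -⟩ := hCHV (fun _ => 0) 0 1 (O' t n) one_pos hso'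
  have hlin : ∀ (A : M3) (v w : E3), act A (v - w) = act A v - act A w := by
    intro A v w
    show WithLp.toLp 2 (A.mulVec (v.ofLp - w.ofLp)) = _
    rw [Matrix.mulVec_sub]
    rfl
  have hsm : ∀ (A : M3) (c : ℝ) (v : E3), act A (c • v) = c • act A v := by
    intro A c v
    show WithLp.toLp 2 (A.mulVec (c • v.ofLp)) = _
    rw [Matrix.mulVec_smul]
    rfl
  set l := len γ t n with hldef
  set l' := len (f ∘ γ) t n with hldef'
  set q := γ (t + sc (n + 1)) with hq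
  set X : E3 := nX γ O t n q with hXdef
  set Y : E3 := nF f γ O O' t n X with hYdef
  have hX1 : l • act (O t n) X = q - γ t := by
    rw [hXdef]; unfold nX
    rw [hsm, smul_smul, mul_inv_cancel₀ hl.ne', one_smul, hc1]
  have hX2 : γ t + l • act (O t n) X = q := by rw [hX1]; abel
  have hY1 : l' • act (O' t n) Y = f q - f (γ t) := by
    rw [hYdef]; unfold nF
    rw [hsm, smul_smul, mul_inv_cancel₀ hl'.ne', one_smul, hc1', ← hldef, hX2]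
  -- closeness
  have hXn : ‖X - (1 / 2 : ℝ) • e3‖ ≤ ε := by
    have h1 := hP.line t ht' n (1 / 2) (by rw [abs_of_pos] <;> norm_num)
      ⟨by linarith [ht.1], by linarith [ht.2]⟩
    rw [← hsc, ← hq, ← hldef, ← hX1, mul_comm, ← smul_smul, ← smul_sub, ← hsm, ← hlin, norm_smul, hn,
      Real.norm_of_nonneg hl.le, mul_comm ε] at h1
    exact le_of_mul_le_mul_left h1 hl
  have hXb : X ∈ Metric.ball (0 : E3) 64 := by
    rw [mem_ball_zero_iff]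
    have h1 : ‖(1 / 2 : ℝ) • e3‖ = 1 / 2 := by
      rw [norm_smul]; simp [e3]
    have h2 : ‖X‖ ≤ ‖X - (1 / 2 : ℝ) • e3‖ + ‖(1 / 2 : ℝ) • e3‖ := by
      have := norm_add_le (X - (1 / 2 : ℝ) • e3) ((1 / 2 : ℝ) • e3)
      simpa using this
    linarith
  have hYw : ‖Y - wind X‖ ≤ ε := by
    have h1 := hP.close t ht' n X hXb
    rw [← hldef, ← hldef', hX2, ← hY1, ← smul_sub, ← hlin, norm_smul, hn',
      Real.norm_of_nonneg hl'.le, mul_comm ε] at h1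
    exact le_of_mul_le_mul_left h1 hl'
  have hYn : ‖Y - (1 / 2 : ℝ) • e3‖ ≤ 3 * ε := by
    have h1 : ‖wind X - (1 / 2 : ℝ) • e3‖ ≤ 2 * ε := by
      have h2 := hWIN1.2.2.2.1 X ((1 / 2 : ℝ) • e3)
      rw [hWIN1.2.2.2.2.2.2.2.2 (1 / 2)] at h2
      linarith
    have h3 : ‖Y - (1 / 2 : ℝ) • e3‖ ≤ ‖Y - wind X‖ + ‖wind X - (1 / 2 : ℝ) • e3‖ :=
      norm_sub_le_norm_sub_add_norm_sub _ _ _
    linarith
  obtain ⟨hA, hB, hC⟩ := alg X Y ε hε hε' hXn hYn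
  -- chords
  have c1 : len γ t (n + 1) = l * ‖X‖ := by
    unfold len
    rw [← hq, ← hX1, norm_smul, hn, Real.norm_of_nonneg hl.le]
  have hend : t + sc (n + 1) + sc (n + 1) = t + sc n := by rw [hsc]; ring
  have c2 : len γ (t + sc (n + 1)) (n + 1) = l * ‖e3 - X‖ := by
    unfold len
    rw [hend, ← hq]
    have : γ (t + sc n) - q = l • act (O t n) (e3 - X) := by
      rw [hlin, smul_sub, hX1, ← hP.base t ht' n]; abel
    rw [this, norm_smul, hn, Real.norm_of_nonneg hl.le]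
  have c3 : len (f ∘ γ) t (n + 1) = l' * ‖Y‖ := by
    unfold len
    simp only [Function.comp_apply]
    rw [← hq, ← hY1, norm_smul, hn', Real.norm_of_nonneg hl'.le]
  have c4 : len (f ∘ γ) (t + sc (n + 1)) (n + 1) = l' * ‖e3 - Y‖ := by
    unfold len
    simp only [Function.comp_apply]
    rw [hend, ← hq]
    have : f (γ (t + sc n)) - f q = l' • act (O' t n) (e3 - Y) := by
      rw [hlin, smul_sub, hY1, ← hP.base' t ht' n]; abel
    rw [this, norm_smul, hn', Real.norm_of_nonneg hl'.le]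
  have pX : 0 < ‖X‖ := by
    rcases (norm_nonneg X).lt_or_eq with h | h
    · exact h
    · rw [← h, zero_mul] at hA; exact absurd hA (lt_irrefl _)
  have pX' : 0 < ‖e3 - X‖ := by
    rcases (norm_nonneg (e3 - X)).lt_or_eq with h | h
    · exact h
    · rw [← h, mul_zero] at hA; exact absurd hA (lt_irrefl _)
  have pY : 0 < ‖Y‖ := by
    rcases (norm_nonneg Y).lt_or_eq with h | h
    · exact h
    · rw [← h, zero_mul] at hB; exact absurd hB (lt_irrefl _)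
  have pY' : 0 < ‖e3 - Y‖ := by
    rcases (norm_nonneg (e3 - Y)).lt_or_eq with h | h
    · exact h
    · rw [← h, mul_zero] at hB; exact absurd hB (lt_irrefl _)
  have hXX : XX f γ O O' t n = dev X Y := by
    unfold XX Dv; rfl
  rw [hXX]
  unfold FF
  rw [c1, c2, c3, c4, ← hldef, ← hldef']
  have L1 : Real.log (l * ‖X‖ / (l' * ‖Y‖)) = Real.log l + Real.log ‖X‖ - (Real.log l' + Real.log ‖Y‖) := by
    rw [Real.log_div (by positivity) (by positivity), Real.log_mul hl.ne' pX.ne',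
      Real.log_mul hl'.ne' pY.ne']
  have L2 : Real.log (l * ‖e3 - X‖ / (l' * ‖e3 - Y‖))
      = Real.log l + Real.log ‖e3 - X‖ - (Real.log l' + Real.log ‖e3 - Y‖) := by
    rw [Real.log_div (by positivity) (by positivity), Real.log_mul hl.ne' pX'.ne',
      Real.log_mul hl'.ne' pY'.ne']
  have L3 : Real.log (l / l') = Real.log l - Real.log l' := Real.log_div hl.ne' hl'.ne'
  have d0 : 0 ≤ dev X Y := by
    unfold dev
    have := rad_nn X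
    have := rad_nn Y
    positivity
  have L4 : Real.log (‖X‖ * ‖e3 - X‖) ≤ Real.log (‖Y‖ * ‖e3 - Y‖) + 20 * ε * dev X Y := by
    have hpos : 0 < 1 + 20 * ε * dev X Y := by positivity
    calc Real.log (‖X‖ * ‖e3 - X‖) ≤ Real.log ((‖Y‖ * ‖e3 - Y‖) * (1 + 20 * ε * dev X Y)) :=
          Real.log_le_log hA hC
      _ = Real.log (‖Y‖ * ‖e3 - Y‖) + Real.log (1 + 20 * ε * dev X Y) :=
          Real.log_mul hB.ne' hpos.ne'
      _ ≤ _ := by
          have := Real.log_le_sub_one_of_pos hpos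
          linarith
  rw [Real.log_mul pX.ne' pX'.ne', Real.log_mul pY.ne' pY'.ne'] at L4
  rw [L1, L2, L3]
  linarith

end Pool.Mart
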