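import Pool.Agent.Work.MP_680515_an.IfaceU

/-!
# MP_680515_an, block CHA: stability inequalities between consecutive scales
-/

open MeasureTheory Set Filter Topology Complex

namespace Pool.Mart

namespace CHA_

theorem en_nonneg (a : Fin 5 → ℝ) : 0 ≤ en a := norm_nonneg _

theorem en_add (a b : Fin 5 → ℝ) : en (a + b) ≤ en a + en b := by
  unfold en
  have h : (WithLp.toLp 2 (a + b) : EuclideanSpace ℝ (Fin 5))
      = WithLp.toLp 2 a + WithLp.toLp 2 b := rfl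
  rw [h]
  exact norm_add_le _ _

theorem en_smul (c : ℝ) (a : Fin 5 → ℝ) : en (c • a) = |c| * en a := by
  unfold en
  have h : (WithLp.toLp 2 (c • a) : EuclideanSpace ℝ (Fin 5)) = c • WithLp.toLp 2 a := rfl
  rw [h, norm_smul, Real.norm_eq_abs]

theorem en_sq (a : Fin 5 → ℝ) :
    en a ^ 2 = a 0 ^ 2 + a 1 ^ 2 + a 2 ^ 2 + a 3 ^ 2 + a 4 ^ 2 := by
  unfold en
  rw [EuclideanSpace.norm_sq_eq, Fin.sum_univ_five]
  simp only [Real.norm_eq_abs, sq_abs]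

theorem en_Rm (α : ℝ) (a : Fin 5 → ℝ) : en ((Rm α).mulVec a) = en a := by
  have h : en ((Rm α).mulVec a) ^ 2 = en a ^ 2 := by
    rw [en_sq, en_sq]
    simp only [Rm, Matrix.mulVec, dotProduct, Fin.sum_univ_five]
    simp
    have h1 := Real.sin_sq_add_cos_sq α
    have h2 := Real.sin_sq_add_cos_sq (2 * α)
    linear_combination (a 1 ^ 2 + a 2 ^ 2) * h1 + (a 3 ^ 2 + a 4 ^ 2) * h2
  have h0 : |en ((Rm α).mulVec a)| = |en a| := sq_eq_sq_iff_abs_eq_abs _ _ |>.1 h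
  rwa [abs_of_nonneg (en_nonneg _), abs_of_nonneg (en_nonneg _)] at h0

theorem rad_sq (x : E3) : rad x ^ 2 = x 0 ^ 2 + x 1 ^ 2 :=
  Real.sq_sqrt (by positivity)

theorem dev_le (F : E3 → E3) (x : E3) : dev x (F x) ≤ 4 * en (da F x) := by
  have hu := rad_sq x
  have hv := rad_sq (F x)
  have hu0 : 0 ≤ rad x := Real.sqrt_nonneg _
  have hv0 : 0 ≤ rad (F x) := Real.sqrt_nonneg _
  have hw0 : 0 ≤ |F x 2 - x 2| := abs_nonneg _
  have hw : |F x 2 - x 2| ^ 2 = (F x 2 - x 2) ^ 2 := sq_abs _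
  have hen : en (da F x) ^ 2 = |F x 2 - x 2| ^ 2 + rad x ^ 2 / 4 + rad (F x) ^ 2 / 4 := by
    rw [en_sq, hw, hu, hv]
    simp [da]
    ring
  unfold dev
  have h0 := en_nonneg (da F x)
  apply le_of_sq_le_sq _ (by positivity)
  nlinarith [sq_nonneg (rad x - rad (F x)), sq_nonneg (rad x - 2 * |F x 2 - x 2|),
    sq_nonneg (rad (F x) - 2 * |F x 2 - x 2|)]

theorem da_zero (F : E3 → E3) (h : F 0 = 0) : da F 0 = 0 := by
  unfold da
  rw [h]
  ext i
  fin_cases i <;> simp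

theorem da_one (F : E3 → E3) (h : F e3 = e3) : da F e3 = 0 := by
  unfold da
  rw [h]
  ext i
  fin_cases i <;> simp [e3]

theorem e3_two : e3 2 = 1 := by simp [e3]

theorem norm_e3 : ‖e3‖ = 1 := by simp [e3]

/-- norm of the first half -/
theorem norm_first {M : E3} {ε : ℝ} (h : ‖M - (1 / 2 : ℝ) • e3‖ ≤ 2 * ε) : ‖M‖ ≤ 1 / 2 + 2 * ε := by
  have h1 : ‖(1 / 2 : ℝ) • e3‖ = 1 / 2 := by
    rw [norm_smul, norm_e3, Real.norm_eq_abs, abs_of_pos (by norm_num)]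
    norm_num
  calc ‖M‖ = ‖(M - (1 / 2 : ℝ) • e3) + (1 / 2 : ℝ) • e3‖ := by rw [sub_add_cancel]
    _ ≤ ‖M - (1 / 2 : ℝ) • e3‖ + ‖(1 / 2 : ℝ) • e3‖ := norm_add_le _ _
    _ ≤ 1 / 2 + 2 * ε := by rw [h1]; linarith

theorem norm_second {M : E3} {ε : ℝ} (h : ‖M - (1 / 2 : ℝ) • e3‖ ≤ 2 * ε) :
    ‖e3 - M‖ ≤ 1 / 2 + 2 * ε := by
  have h1 : ‖(1 / 2 : ℝ) • e3‖ = 1 / 2 := by
    rw [norm_smul, norm_e3, Real.norm_eq_abs, abs_of_pos (by norm_num)]
    norm_num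
  have h2 : e3 - M = (1 / 2 : ℝ) • e3 - (M - (1 / 2 : ℝ) • e3) := by
    have : (1 / 2 : ℝ) • e3 + (1 / 2 : ℝ) • e3 = e3 := by
      rw [← add_smul]; norm_num
    nth_rewrite 1 [← this]
    abel
  calc ‖e3 - M‖ = ‖(1 / 2 : ℝ) • e3 - (M - (1 / 2 : ℝ) • e3)‖ := by rw [h2]
    _ ≤ ‖(1 / 2 : ℝ) • e3‖ + ‖M - (1 / 2 : ℝ) • e3‖ := norm_sub_le _ _
    _ ≤ 1 / 2 + 2 * ε := by rw [h1]; linarith

theorem abs_coord (x : E3) (i : Fin 3) : |x i| ≤ ‖x‖ := by
  have := EuclideanSpace.norm_sq_eq x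
  have h2 : |x i| ^ 2 ≤ ‖x‖ ^ 2 := by
    rw [this]
    have h3 : ‖x i‖ ^ 2 ≤ ∑ j, ‖x j‖ ^ 2 :=
      Finset.single_le_sum (f := fun j => ‖x j‖ ^ 2) (fun j _ => by positivity) (Finset.mem_univ i)
    rw [Real.norm_eq_abs] at h3
    exact h3
  exact le_of_sq_le_sq h2 (norm_nonneg _)

theorem two_first {M : E3} {ε : ℝ} (h : ‖M - (1 / 2 : ℝ) • e3‖ ≤ 2 * ε) :
    |M 2 - 1 / 2| ≤ 2 * ε := by
  have h1 := abs_coord (M - (1 / 2 : ℝ) • e3) 2
  have h2 : (M - (1 / 2 : ℝ) • e3) 2 = M 2 - 1 / 2 := by simp [e3]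
  rw [h2] at h1
  linarith

/-- Reverse triangle inequality in the form used below. -/
theorem en_le_of {a b : Fin 5 → ℝ} {r : ℝ} (h : en (a - b) ≤ r) : en a ≤ en b + r := by
  have := en_add (a - b) b
  rw [sub_add_cancel] at this
  linarith

theorem en_sub_le (a b : Fin 5 → ℝ) : en (a - b) ≤ en a + en b := by
  have h : a - b = a + (-1 : ℝ) • b := by
    rw [neg_one_smul, sub_eq_add_neg]
  rw [h]
  refine (en_add _ _).trans ?_
  rw [en_smul]
  simp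

/-- Convex combination. -/
theorem en_conv (a b : Fin 5 → ℝ) (s : ℝ) (h0 : 0 ≤ s) (h1 : s ≤ 1) :
    en (a + s • b) ≤ en a + en (a + b) := by
  have h : a + s • b = (1 - s) • a + s • (a + b) := by
    rw [smul_add, sub_smul, one_smul]
    abel
  rw [h]
  refine (en_add _ _).trans ?_
  rw [en_smul, en_smul, abs_of_nonneg h0, abs_of_nonneg (by linarith)]
  nlinarith [en_nonneg a, en_nonneg (a + b)]

/-- The error term. -/
theorem err_le {ε X Ce : ℝ} (hε : 0 < ε) (h1 : ε ≤ 1) (hX : 0 ≤ X) (hX2 : X ≤ 20 * ε)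
    (_ : 0 < Ce) :
    (ε + 3 * X + Ce * Real.sqrt ε) * (3 * X) ≤ 3 * (61 + Ce) * (Real.sqrt ε * X) := by
  have hs : ε ≤ Real.sqrt ε := by
    apply Real.le_sqrt_of_sq_le
    nlinarith
  have h2 : ε + 3 * X + Ce * Real.sqrt ε ≤ (61 + Ce) * Real.sqrt ε := by nlinarith
  calc (ε + 3 * X + Ce * Real.sqrt ε) * (3 * X)
      ≤ ((61 + Ce) * Real.sqrt ε) * (3 * X) := by gcongr
    _ = 3 * (61 + Ce) * (Real.sqrt ε * X) := by ring

/-- Algebra of the first two conclusions. -/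
theorem concl {P Q lam Cs K d1 d2 sX C1 r : ℝ} (hQ : 0 ≤ Q) (hlam : lam ≤ 3 / 5)
    (hr : r ≤ Cs * (d1 + d2 + K * sX)) (hP : P ≤ lam * Q + r) (hCs : Cs ≤ C1) (hCK : Cs * K ≤ C1)
    (hd : 0 ≤ d1 + d2) (hs : 0 ≤ sX) :
    P ≤ 3 / 5 * Q + C1 * (d1 + d2) + C1 * sX := by
  have h1 : lam * Q ≤ 3 / 5 * Q := by gcongr
  have h2 : Cs * (d1 + d2) ≤ C1 * (d1 + d2) := by gcongr
  have h3 : Cs * K * sX ≤ C1 * sX := by gcongr
  nlinarith

end CHA_

open CHA_ in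
theorem stmt_CHA (hSTB : Stmt_STB) (hSUBH : Stmt_SUBH) (hRENS : Stmt_RENS) (hETA : Stmt_ETA)
    (hNRM : Stmt_NRM) : Stmt_CHA := by
  obtain ⟨Cs, κs, hCs, hκs, STB⟩ := hSTB
  obtain ⟨κh, hκh, SUBH⟩ := hSUBH
  obtain ⟨Ce, κe, hCe, hκe, ETA⟩ := hETA (1 / 160) (by norm_num) (by norm_num)
  obtain ⟨K, hK⟩ : ∃ K : ℝ, K = 3 * (61 + Ce) := ⟨_, rfl⟩
  have hK0 : 0 < K := by rw [hK]; positivity
  have hCK : 0 < Cs * K := by positivity
  refine ⟨8 * (Cs + 1) + Cs * K, min κs (min (κs / 60) (min κh (min κe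
    (min (1 / 1024) (((8 * (Cs * K))⁻¹) ^ 2))))), by positivity, by positivity, ?_⟩
  intro ε Ω f A γ O O' pa pb dt hε hεκ hΩ hQ hID hP happ t ht n
  simp only [le_min_iff] at hεκ
  obtain ⟨hεs, hεs60, hεh, hεe, hε1024, hεK⟩ := hεκ
  have hε1 : ε ≤ 1 := by linarith
  have hsqrt : Real.sqrt ε ≤ (8 * (Cs * K))⁻¹ := by
    rw [Real.sqrt_le_left (by positivity)]
    exact hεK
  have hsq0 : 0 ≤ Real.sqrt ε := Real.sqrt_nonneg _
  have hCKs : Cs * K * Real.sqrt ε ≤ 1 / 8 := by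
    calc Cs * K * Real.sqrt ε ≤ Cs * K * (8 * (Cs * K))⁻¹ := by gcongr
      _ = 1 / 8 := by
        field_simp
  have hsc0 : 0 < sc (n + 1) := by unfold sc; positivity
  have hsc1 : sc (n + 1) ≤ 1 := by
    unfold sc
    apply pow_le_one₀ (by norm_num) (by norm_num)
  have ht20 : t ∈ Icc (-20 : ℝ) 20 := ⟨by linarith [ht.1], by linarith [ht.2]⟩
  have ht19 : t ∈ Icc (-19 : ℝ) 19 := ⟨by linarith [ht.1], by linarith [ht.2]⟩
  have ht9 : t ∈ Icc (-9 : ℝ) 10 := ⟨by linarith [ht.1], by linarith [ht.2]⟩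
  have ht9' : t + sc (n + 1) ∈ Icc (-9 : ℝ) 10 := ⟨by linarith [ht.1], by linarith [ht.2]⟩
  have ht20' : t + sc (n + 1) ∈ Icc (-20 : ℝ) 20 := ⟨by linarith [ht.1], by linarith [ht.2]⟩
  obtain ⟨sub1, sub2, hM, hX0, hX20, hz, h1, hsc⟩ := SUBH ε Ω f γ O O' hε.le hεh hP t ht n
  obtain ⟨-, -, ren1, -⟩ := hRENS ε Ω f γ O O' hε.le hε1024 hP t ht20 n t ht20 (n + 1)
  obtain ⟨-, -, ren2, -⟩ := hRENS ε Ω f γ O O' hε.le hε1024 hP t ht20 n (t + sc (n + 1)) ht20'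
    (n + 1)
  rw [hz] at ren1
  rw [hsc, h1] at ren2
  have ren1' := funext ren1
  have ren2' := funext ren2
  obtain ⟨hNm, -⟩ := hNRM ε Ω f A γ O O' 2 hΩ hQ hID le_rfl hP t ht20 n
  have eta := ETA ε Ω f A γ O O' hε.le hεe hΩ hQ hID hP t ht19 n
  obtain ⟨hpb, happ0⟩ := happ t ht9 n
  have happ1 := (happ t ht9 (n + 1)).2
  have happ2 := (happ (t + sc (n + 1)) ht9' (n + 1)).2
  have hd0 : 0 ≤ dt t n := le_trans (integral_nonneg fun _ => norm_nonneg _) happ0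
  have hd1 : 0 ≤ dt t (n + 1) := le_trans (integral_nonneg fun _ => norm_nonneg _) happ1
  have hd2 : 0 ≤ dt (t + sc (n + 1)) (n + 1) :=
    le_trans (integral_nonneg fun _ => norm_nonneg _) happ2
  have hXX : XX f γ O O' t n = dev (nX γ O t n (γ (t + sc (n + 1))))
      (nF f γ O O' t n (nX γ O t n (γ (t + sc (n + 1))))) := rfl
  generalize hF : nF f γ O O' t n = F at *
  generalize hMdef : nX γ O t n (γ (t + sc (n + 1))) = M at *
  generalize hX : XX f γ O O' t n = X at *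
  have hm0 : 0 ≤ 3 * X := by positivity
  have hmκ : 3 * X ≤ κs := by linarith
  have hn1 : ‖M - 0‖ ≤ 3 / 5 := by
    rw [sub_zero]
    have := norm_first hM
    linarith
  have hn2 : ‖e3 - M‖ ≤ 3 / 5 := by
    have := norm_second hM
    linarith
  have hM2 := two_first hM
  have hM2' := abs_le.1 hM2
  have hab : |M 2| ≤ 3 / 5 := by
    rw [abs_le]
    constructor <;> linarith [hM2'.1, hM2'.2]
  have hsX : 0 ≤ Real.sqrt ε * X := by positivity
  have herr := err_le hε hε1 hX0 hX20 hCe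
  rw [← hK] at herr
  obtain ⟨α1, r11, r12⟩ := STB ε (3 * X) (Ce * Real.sqrt ε) (dt t n) (dt t (n + 1)) F _ 0 M _ _
    (pa t n) (pb t n) (pa t (n + 1)) (pb t (n + 1)) hε.le hεs hm0 hmκ hNm sub1 hn1
    (by simp; norm_num) hpb eta happ0 (by rw [ren1']; exact happ1)
  obtain ⟨α2, -, r22⟩ := STB ε (3 * X) (Ce * Real.sqrt ε) (dt t n) (dt (t + sc (n + 1)) (n + 1))
    F _ M e3 _ _ (pa t n) (pb t n) (pa (t + sc (n + 1)) (n + 1)) (pb (t + sc (n + 1)) (n + 1))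
    hε.le hεs hm0 hmκ hNm sub2 hn2 hab hpb eta happ0 (by rw [ren2']; exact happ2)
  have hC1 : Cs ≤ 8 * (Cs + 1) + Cs * K := by linarith
  have hC2 : Cs * K ≤ 8 * (Cs + 1) + Cs * K := by linarith
  refine ⟨?_, ?_, ?_⟩
  · have e1 : pa t n + (0 : E3) 2 • pb t n - da F 0 = pa t n := by
      rw [da_zero F hNm.zero]
      simp
    rw [e1] at r11
    have h2 := en_le_of r11
    rw [en_smul, en_Rm, abs_of_nonneg (norm_nonneg _)] at h2
    rw [mul_assoc (8 * (Cs + 1) + Cs * K)]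
    exact concl (en_nonneg _) hn1 (by gcongr) h2 hC1 hC2 (by positivity) hsX
  · have e1 : pa t n + e3 2 • pb t n - da F e3 = pa t n + pb t n := by
      rw [da_one F hNm.one, e3_two, one_smul, sub_zero]
    rw [e1] at r22
    have h2 := en_le_of r22
    rw [en_smul, en_Rm, abs_of_nonneg (norm_nonneg _)] at h2
    rw [mul_assoc (8 * (Cs + 1) + Cs * K)]
    exact concl (en_nonneg _) hn2 (by gcongr) h2 hC1 hC2 (by positivity) hsX
  · have h3 := dev_le F M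
    rw [← hXX] at h3
    set u := pa t n + M 2 • pb t n with hu
    set w := ‖M - 0‖ • (Rm α1).mulVec (pa t (n + 1) + pb t (n + 1)) with hw
    have hda : da F M = (u - w) - (u - da F M - w) := by abel
    have h4 : en (da F M) ≤ en u + en w + Cs * (dt t n + dt t (n + 1)
        + (ε + 3 * X + Ce * Real.sqrt ε) * (3 * X)) := by
      calc en (da F M) = en ((u - w) - (u - da F M - w)) := by rw [← hda]
        _ ≤ en (u - w) + en (u - da F M - w) := en_sub_le _ _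
        _ ≤ (en u + en w) + _ := add_le_add (en_sub_le _ _) r12
    have h5 : en u ≤ en (pa t n) + en (pa t n + pb t n) :=
      en_conv _ _ _ (by linarith [hM2'.1]) (by linarith [hM2'.2])
    have h6 : en w ≤ 3 / 5 * en (pa t (n + 1) + pb t (n + 1)) := by
      rw [hw, en_smul, en_Rm, abs_of_nonneg (norm_nonneg _)]
      gcongr
      exact en_nonneg _
    have h7 : Cs * (dt t n + dt t (n + 1) + (ε + 3 * X + Ce * Real.sqrt ε) * (3 * X))
        ≤ Cs * (dt t n + dt t (n + 1)) + 1 / 8 * X := by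
      have : Cs * ((ε + 3 * X + Ce * Real.sqrt ε) * (3 * X)) ≤ 1 / 8 * X := by
        calc Cs * ((ε + 3 * X + Ce * Real.sqrt ε) * (3 * X))
            ≤ Cs * (K * (Real.sqrt ε * X)) := by gcongr
          _ = (Cs * K * Real.sqrt ε) * X := by ring
          _ ≤ 1 / 8 * X := by gcongr
      linarith
    have hs := en_nonneg (pa t n)
    have hs2 := en_nonneg (pa t n + pb t n)
    have hs3 := en_nonneg (pa t (n + 1))
    have hs4 := en_nonneg (pa t (n + 1) + pb t (n + 1))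
    have h8 : X ≤ 8 * (en (pa t n) + en (pa t n + pb t n) + en (pa t (n + 1) + pb t (n + 1)))
        + 8 * Cs * (dt t n + dt t (n + 1)) := by
      linarith
    have hS : 0 ≤ en (pa t n) + en (pa t n + pb t n) + en (pa t (n + 1) + pb t (n + 1)) := by
      positivity
    nlinarith [mul_nonneg hCs.le hS, mul_nonneg hCK.le hS, mul_nonneg hCK.le hd0,
      mul_nonneg hCK.le hd1, mul_nonneg hCs.le hs3, mul_nonneg hCK.le hs3]

end Pool.Mart
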