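import Pool.Agent.Work.MP_680515_an.IfaceS

open MeasureTheory Set Filter Topology Complex

namespace Pool.Mart

namespace CHN_

/-- The square of side `s` in the half plane. -/
def SQ (s z0 : ℝ) : Set ℂ := {ζ : ℂ | s < ζ.re ∧ ζ.re < 2 * s ∧ |ζ.im - z0| < s / 2}

lemma meas_SQ (s z0 : ℝ) : MeasurableSet (SQ s z0) := by
  have h1 : MeasurableSet {ζ : ℂ | s < ζ.re} := measurableSet_lt measurable_const measurable_re
  have h2 : MeasurableSet {ζ : ℂ | ζ.re < 2 * s} := measurableSet_lt measurable_re measurable_const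
  have h3 : MeasurableSet {ζ : ℂ | |ζ.im - z0| < s / 2} :=
    measurableSet_lt ((measurable_im.sub_const z0).abs) measurable_const
  exact h1.inter (h2.inter h3)

lemma cont_af (a b : ℝ) : Continuous (af a b) := by
  unfold af
  fun_prop

lemma int_af (a b : ℝ) {X : Set ℂ} {R : ℝ} (hX : ∀ ζ ∈ X, ‖ζ‖ ≤ R) : IntegrableOn (af a b) X := by
  have h := (cont_af a b).continuousOn.integrableOn_compact (μ := volume)
    (isCompact_closedBall (0 : ℂ) R)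
  refine h.mono_set ?_
  intro ζ hζ
  simpa using hX ζ hζ

lemma af_sub (a b a' b' : ℝ) (ζ : ℂ) : af (a - a') (b - b') ζ = af a b ζ - af a' b' ζ := by
  simp only [af]
  push_cast
  ring

lemma key {c : ℝ} (hc : ∀ (a b s z0 : ℝ) (E : Set ℂ), 0 < s → MeasurableSet E →
    {ζ : ℂ | s < ζ.re ∧ ζ.re < 2 * s ∧ |ζ.im - z0| < s / 2} ⊆ E →
    IntegrableOn (af a b) E → c * (s ^ 2 * |a + b * z0| + s ^ 3 * |b|) ≤ ∫ ζ in E, ‖af a b ζ‖)
    (v : ℂ → ℂ) (X Y : Set ℂ) (R : ℝ) (hX : ∀ ζ ∈ X, ‖ζ‖ ≤ R) (hY : ∀ ζ ∈ Y, ‖ζ‖ ≤ R)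
    (s z0 a b a' b' : ℝ) (hs : 0 < s) (hEX : SQ s z0 ⊆ X) (hEY : SQ s z0 ⊆ Y)
    (hvX : IntegrableOn v X) (hvY : IntegrableOn v Y) :
    c * (s ^ 2 * |(a + b * z0) - (a' + b' * z0)| + s ^ 3 * |b - b'|) ≤
      (∫ ζ in X, ‖v ζ - af a b ζ‖) + ∫ ζ in Y, ‖v ζ - af a' b' ζ‖ := by
  have hE : ∀ ζ ∈ SQ s z0, ‖ζ‖ ≤ R := fun ζ h => hX ζ (hEX h)
  have h1 := hc (a - a') (b - b') s z0 (SQ s z0) hs (meas_SQ s z0) (Subset.refl _)
    (int_af _ _ hE)
  have e1 : (a - a') + (b - b') * z0 = (a + b * z0) - (a' + b' * z0) := by ring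
  rw [e1] at h1
  refine h1.trans ?_
  have iX : IntegrableOn (fun ζ => ‖v ζ - af a b ζ‖) X := (hvX.sub (int_af a b hX)).norm
  have iY : IntegrableOn (fun ζ => ‖v ζ - af a' b' ζ‖) Y := (hvY.sub (int_af a' b' hY)).norm
  have i1 : IntegrableOn (fun ζ => ‖v ζ - af a b ζ‖) (SQ s z0) := iX.mono_set hEX
  have i2 : IntegrableOn (fun ζ => ‖v ζ - af a' b' ζ‖) (SQ s z0) := iY.mono_set hEY
  have h2 : ∫ ζ in SQ s z0, ‖af (a - a') (b - b') ζ‖ ≤
      ∫ ζ in SQ s z0, (‖v ζ - af a b ζ‖ + ‖v ζ - af a' b' ζ‖) := by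
    refine setIntegral_mono (int_af _ _ hE).norm (i1.add i2) ?_
    intro ζ
    have e : af (a - a') (b - b') ζ = (v ζ - af a' b' ζ) - (v ζ - af a b ζ) := by
      rw [af_sub]; ring
    change ‖af (a - a') (b - b') ζ‖ ≤ ‖v ζ - af a b ζ‖ + ‖v ζ - af a' b' ζ‖
    rw [e]
    have := norm_sub_le (v ζ - af a' b' ζ) (v ζ - af a b ζ)
    linarith
  have h3 : ∫ ζ in SQ s z0, (‖v ζ - af a b ζ‖ + ‖v ζ - af a' b' ζ‖) =
      (∫ ζ in SQ s z0, ‖v ζ - af a b ζ‖) + ∫ ζ in SQ s z0, ‖v ζ - af a' b' ζ‖ :=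
    integral_add i1 i2
  have h4 : ∫ ζ in SQ s z0, ‖v ζ - af a b ζ‖ ≤ ∫ ζ in X, ‖v ζ - af a b ζ‖ :=
    setIntegral_mono_set iX (Eventually.of_forall fun ζ => norm_nonneg _) hEX.eventuallyLE
  have h5 : ∫ ζ in SQ s z0, ‖v ζ - af a' b' ζ‖ ≤ ∫ ζ in Y, ‖v ζ - af a' b' ζ‖ :=
    setIntegral_mono_set iY (Eventually.of_forall fun ζ => norm_nonneg _) hEY.eventuallyLE
  linarith

lemma norm_BB (k : ℕ) (i : ℤ) : ∀ ζ ∈ BB k i,
    ‖ζ‖ ≤ 2 * (2 : ℝ)⁻¹ ^ k + (|i * (2 : ℝ)⁻¹ ^ k| + 2 * (2 : ℝ)⁻¹ ^ k) := by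
  intro ζ hζ
  obtain ⟨h1, h2, h3⟩ := hζ
  have hp : (0 : ℝ) < (2 : ℝ)⁻¹ ^ (k + 2) := by positivity
  have h4 := Complex.norm_le_abs_re_add_abs_im ζ
  have h5 : |ζ.re| = ζ.re := abs_of_pos (hp.trans h1)
  have h6 : |ζ.im| ≤ |i * (2 : ℝ)⁻¹ ^ k| + |ζ.im - i * (2 : ℝ)⁻¹ ^ k| := by
    have := abs_add_le (i * (2 : ℝ)⁻¹ ^ k) (ζ.im - i * (2 : ℝ)⁻¹ ^ k)
    have e : i * (2 : ℝ)⁻¹ ^ k + (ζ.im - i * (2 : ℝ)⁻¹ ^ k) = ζ.im := by ring
    rw [e] at this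
    exact this
  linarith

lemma norm_QQ : ∀ ζ ∈ QQ, ‖ζ‖ ≤ 18 := by
  intro ζ hζ
  obtain ⟨h1, h2, h3⟩ := hζ
  have h4 := Complex.norm_le_abs_re_add_abs_im ζ
  have h5 : |ζ.re| = ζ.re := abs_of_pos (by linarith)
  linarith

/-- final arithmetic -/
lemma fin_arith {c p A B T : ℝ} (hc : 0 < c) (hp : 0 < p)
    (h : c * ((p / 2) ^ 2 * A + (p / 2) ^ 3 * B) ≤ p ^ 3 * T) (hA : 0 ≤ A) (hB : 0 ≤ B) :
    B ≤ 8 / c * T ∧ A ≤ 8 / c * p * T := by
  have h1 : c * ((p / 2) ^ 3 * B) ≤ p ^ 3 * T := by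
    refine le_trans ?_ h
    have : 0 ≤ c * ((p / 2) ^ 2 * A) := by positivity
    nlinarith
  have h2 : c * ((p / 2) ^ 2 * A) ≤ p ^ 3 * T := by
    refine le_trans ?_ h
    have : 0 ≤ c * ((p / 2) ^ 3 * B) := by positivity
    nlinarith
  have hT : 0 ≤ T := by
    have h3 : 0 ≤ p ^ 3 * T := by
      refine le_trans ?_ h1
      positivity
    by_contra hneg
    push Not at hneg
    have : p ^ 3 * T < 0 := mul_neg_of_pos_of_neg (by positivity) hneg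
    linarith
  constructor
  · have h3 : c * B ≤ 8 * T := by
      have h4 : p ^ 3 * (c * B) ≤ p ^ 3 * (8 * T) := by nlinarith
      exact le_of_mul_le_mul_left h4 (by positivity)
    rw [div_mul_eq_mul_div, le_div_iff₀ hc]
    linarith
  · have h3 : c * A ≤ 4 * (p * T) := by
      have h4 : p ^ 2 * (c * A) ≤ p ^ 2 * (4 * (p * T)) := by nlinarith
      exact le_of_mul_le_mul_left h4 (by positivity)
    have e : 8 / c * p * T = (8 * (p * T)) / c := by ring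
    rw [e, le_div_iff₀ hc]
    have : 0 ≤ p * T := by positivity
    linarith

end CHN_

open CHN_ in
theorem stmt_CHN (hAFN : Stmt_AFN) : Stmt_CHN := by
  obtain ⟨c, hc0, hc⟩ := hAFN
  refine ⟨512 / c, by positivity, ?_, ?_⟩
  · intro v k i a b a' b' o o' hv1 hv2 h1 h2
    set p : ℝ := (2 : ℝ)⁻¹ ^ k with hp
    have hp0 : 0 < p := by positivity
    have e1 : (2 : ℝ)⁻¹ ^ (k + 1) = p / 2 := by rw [hp, pow_succ]; ring
    have e2 : (2 : ℝ)⁻¹ ^ (k + 2) = p / 4 := by rw [hp, pow_add]; ring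
    have e3 : (2 : ℝ)⁻¹ ^ (k + 1 + 2) = p / 8 := by rw [hp, pow_add, pow_add]; ring
    have hfl : |(i : ℝ) - 2 * ((i / 2 : ℤ) : ℝ)| ≤ 1 := by
      have h3 : i % 2 = 0 ∨ i % 2 = 1 := Int.emod_two_eq_zero_or_one i
      have h4 : i = 2 * (i / 2) + i % 2 := (Int.mul_ediv_add_emod i 2).symm
      have h5 : (i : ℝ) = 2 * ((i / 2 : ℤ) : ℝ) + ((i % 2 : ℤ) : ℝ) := by exact_mod_cast h4
      rw [h5]
      rcases h3 with h3 | h3 <;> rw [h3] <;> norm_num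
    have hEX : SQ (p / 2) (i * (p / 2)) ⊆ BB (k + 1) i := by
      intro ζ hζ
      obtain ⟨h3, h4, h5⟩ := hζ
      refine ⟨?_, ?_, ?_⟩
      · rw [e3]; linarith
      · rw [e1]; linarith
      · rw [e1]; linarith
    have hEY : SQ (p / 2) (i * (p / 2)) ⊆ BB k (i / 2) := by
      intro ζ hζ
      obtain ⟨h3, h4, h5⟩ := hζ
      refine ⟨?_, ?_, ?_⟩
      · rw [e2]; linarith
      · rw [← hp]; linarith
      · rw [← hp]
        have h6 : ζ.im - ((i / 2 : ℤ) : ℝ) * p =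
            (ζ.im - i * (p / 2)) + ((i : ℝ) - 2 * ((i / 2 : ℤ) : ℝ)) * (p / 2) := by ring
        rw [h6]
        refine (abs_add_le _ _).trans_lt ?_
        rw [abs_mul, abs_of_pos (by linarith : 0 < p / 2)]
        have : |(i : ℝ) - 2 * ((i / 2 : ℤ) : ℝ)| * (p / 2) ≤ 1 * (p / 2) :=
          mul_le_mul_of_nonneg_right hfl (by linarith)
        linarith
    have hk := key hc v (BB (k + 1) i) (BB k (i / 2))
      (max (2 * (2 : ℝ)⁻¹ ^ (k + 1) + (|i * (2 : ℝ)⁻¹ ^ (k + 1)| + 2 * (2 : ℝ)⁻¹ ^ (k + 1)))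
        (2 * (2 : ℝ)⁻¹ ^ k + (|((i / 2 : ℤ) : ℝ) * (2 : ℝ)⁻¹ ^ k| + 2 * (2 : ℝ)⁻¹ ^ k)))
      (fun ζ h => (norm_BB (k + 1) i ζ h).trans (le_max_left _ _))
      (fun ζ h => (norm_BB k (i / 2) ζ h).trans (le_max_right _ _))
      (p / 2) (i * (p / 2)) a b a' b' (by linarith) hEX hEY hv1 hv2
    set I1 := ∫ ζ in BB (k + 1) i, ‖v ζ - af a b ζ‖ with hI1
    set I2 := ∫ ζ in BB k (i / 2), ‖v ζ - af a' b' ζ‖ with hI2
    have hI1n : 0 ≤ I1 := integral_nonneg fun ζ => norm_nonneg _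
    have hI2n : 0 ≤ I2 := integral_nonneg fun ζ => norm_nonneg _
    have h8 : p ^ 3 * 8 ^ k = 1 := by
      rw [hp, ← pow_mul, mul_comm k 3, pow_mul, ← mul_pow]
      norm_num
    have hT : I1 + I2 ≤ p ^ 3 * (o + o') := by
      have h9 : (8 : ℝ) ^ k * I1 ≤ o := by
        refine le_trans ?_ h1
        rw [pow_succ]
        have : 0 ≤ (8 : ℝ) ^ k * I1 := by positivity
        nlinarith
      have h10 : I1 = p ^ 3 * (8 ^ k * I1) := by rw [← mul_assoc, h8, one_mul]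
      have h11 : I2 = p ^ 3 * (8 ^ k * I2) := by rw [← mul_assoc, h8, one_mul]
      rw [h10, h11, ← mul_add]
      exact mul_le_mul_of_nonneg_left (add_le_add h9 h2) (by positivity)
    have hf := fin_arith hc0 hp0 (hk.trans hT) (abs_nonneg _) (abs_nonneg _)
    have hTn : 0 ≤ o + o' := by
      have h12 : 0 ≤ (8 : ℝ) ^ k * I2 := by positivity
      have h13 : 0 ≤ (8 : ℝ) ^ (k + 1) * I1 := by positivity
      linarith
    have hC : 8 / c ≤ 512 / c := div_le_div_of_nonneg_right (by norm_num) hc0.le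
    rw [e1]
    refine ⟨hf.1.trans (mul_le_mul_of_nonneg_right hC hTn), hf.2.trans ?_⟩
    exact mul_le_mul_of_nonneg_right (mul_le_mul_of_nonneg_right hC hp0.le) hTn
  · intro v i a b a' b' o o' hi hv1 hv2 h1 h2
    have e1 : (2 : ℝ)⁻¹ ^ 3 = 1 / 8 := by norm_num
    have e2 : (2 : ℝ)⁻¹ ^ (3 + 2) = 1 / 32 := by norm_num
    have hi' := Finset.mem_Icc.1 hi
    have hiR : |(i : ℝ)| ≤ 64 := by
      rw [abs_le]
      constructor
      · have := hi'.1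
        norm_num at this
        have h3 : ((-64 : ℤ) : ℝ) ≤ (i : ℝ) := by exact_mod_cast this
        simpa using h3
      · have := hi'.2
        norm_num at this
        exact_mod_cast this
    have hEX : SQ (1 / 8) (i * (1 / 8)) ⊆ BB 3 i := by
      intro ζ hζ
      obtain ⟨h3, h4, h5⟩ := hζ
      refine ⟨?_, ?_, ?_⟩
      · rw [e2]; linarith
      · rw [e1]; linarith
      · rw [e1]; linarith
    have hEY : SQ (1 / 8) (i * (1 / 8)) ⊆ QQ := by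
      intro ζ hζ
      obtain ⟨h3, h4, h5⟩ := hζ
      refine ⟨by linarith, by linarith, ?_⟩
      have h6 : ζ.im = (ζ.im - i * (1 / 8)) + i * (1 / 8) := by ring
      rw [h6]
      refine (abs_add_le _ _).trans_lt ?_
      rw [abs_mul, abs_of_pos (by norm_num : (0 : ℝ) < 1 / 8)]
      linarith
    have hk := key hc v (BB 3 i) QQ
      (max (2 * (2 : ℝ)⁻¹ ^ 3 + (|i * (2 : ℝ)⁻¹ ^ 3| + 2 * (2 : ℝ)⁻¹ ^ 3)) 18)
      (fun ζ h => (norm_BB 3 i ζ h).trans (le_max_left _ _))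
      (fun ζ h => (norm_QQ ζ h).trans (le_max_right _ _))
      (1 / 8) (i * (1 / 8)) a b a' b' (by norm_num) hEX hEY hv1 hv2
    set I1 := ∫ ζ in BB 3 i, ‖v ζ - af a b ζ‖ with hI1
    set I2 := ∫ ζ in QQ, ‖v ζ - af a' b' ζ‖ with hI2
    have hI1n : 0 ≤ I1 := integral_nonneg fun ζ => norm_nonneg _
    have hI2n : 0 ≤ I2 := integral_nonneg fun ζ => norm_nonneg _
    have hT : I1 + I2 ≤ o + o' := by
      norm_num at h1
      linarith
    have hk' := hk.trans hT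
    have hA : 0 ≤ |(a + b * (i * (1 / 8))) - (a' + b' * (i * (1 / 8)))| := abs_nonneg _
    have hB : 0 ≤ |b - b'| := abs_nonneg _
    rw [e1]
    constructor
    · rw [div_mul_eq_mul_div, le_div_iff₀ hc0]
      have : 0 ≤ c * |(a + b * (i * (1 / 8))) - (a' + b' * (i * (1 / 8)))| := by positivity
      nlinarith
    · rw [div_mul_eq_mul_div, le_div_iff₀ hc0]
      have : 0 ≤ c * |b - b'| := by positivity
      nlinarith

end Pool.Mart
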