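import Pool.Agent.Work.MP_680515_an.IfaceS

/-!
# Block CHS of MP_680515_an: the chain of ancestors

Paper proof.  Fix `i` in `IX k` and put `i_j = anc k j i` for `j ≤ k`, so that `i_k = i` and
`i_j = i_(j+1) / 2`.  Let `β_j = b j i_j`, `α_j = a j i_j + β_j i_j 2^-j`, `ω_j = o j i_j`, and let
`C` be the constant of `CHN`.  All `ω_j` and `o0` are nonnegative.

* `CHN`, second part with the zero affine function on `QQ`: `|β_3|, |α_3| ≤ C (ω_3 + o0)`.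
* `CHN`, first part: `|β_(j+1) - β_j| ≤ C (ω_(j+1) + ω_j)`; and since
  `|i_(j+1) 2^-(j+1) - i_j 2^-j| ≤ 2^-j`,
  `|α_(j+1) - α_j| ≤ C 2^-j (ω_(j+1) + ω_j) + 2^-j |β_j|`.

With `S_n = o0 + ∑_{3..n} ω_j` and `T_n = o0 + ∑_{3..n} 2^-j ω_j`, induction on `n` gives
`|β_n| + C ω_n ≤ 2 C S_n` and then `|α_n| + 4 C 2^-n S_n + C 2^-n ω_n ≤ 13 C T_n`, because the left
side grows by at most `7 C 2^-(n+1) ω_(n+1)` from `n` to `n + 1`.
-/

open MeasureTheory Set Filter Topology Complex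

namespace Pool.Mart

namespace CHS_

/-- The recursion for real sequences, indexed from `3`. -/
theorem seq_bound (k : ℕ) (β α ω : ℕ → ℝ) (C o0 : ℝ) (hC : 0 ≤ C) (ho : 0 ≤ o0)
    (hω : ∀ j, 3 ≤ j → j ≤ k → 0 ≤ ω j)
    (hβ3 : |β 3| ≤ C * (ω 3 + o0)) (hα3 : |α 3| ≤ C * (ω 3 + o0))
    (hβ : ∀ j, 3 ≤ j → j + 1 ≤ k → |β (j + 1) - β j| ≤ C * (ω (j + 1) + ω j))
    (hα : ∀ j, 3 ≤ j → j + 1 ≤ k → |α (j + 1) - α j|
      ≤ C * (2 : ℝ)⁻¹ ^ j * (ω (j + 1) + ω j) + (2 : ℝ)⁻¹ ^ j * |β j|) :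
    ∀ n, 3 ≤ n → n ≤ k →
      |β n| + C * ω n ≤ 2 * C * (o0 + ∑ j ∈ Finset.Icc 3 n, ω j) ∧
      |α n| + 4 * C * (2 : ℝ)⁻¹ ^ n * (o0 + ∑ j ∈ Finset.Icc 3 n, ω j) + C * (2 : ℝ)⁻¹ ^ n * ω n
        ≤ 13 * C * (o0 + ∑ j ∈ Finset.Icc 3 n, (2 : ℝ)⁻¹ ^ j * ω j) := by
  intro n hn
  induction n, hn using Nat.le_induction with
  | base =>
    intro hk
    have h3 := hω 3 le_rfl hk
    have hCo : 0 ≤ C * o0 := mul_nonneg hC ho
    have hCw : 0 ≤ C * ω 3 := mul_nonneg hC h3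
    simp only [Finset.Icc_self, Finset.sum_singleton]
    constructor
    · nlinarith [hβ3]
    · norm_num
      nlinarith [hα3]
  | succ n hn ih =>
    intro hk
    obtain ⟨ih1, ih2⟩ := ih (by omega)
    have hw1 := hω (n + 1) (by omega) hk
    have hw0 := hω n hn (by omega)
    have hb := hβ n hn hk
    have ha := hα n hn hk
    have hp : (0 : ℝ) < (2 : ℝ)⁻¹ ^ n := by positivity
    have hps : (2 : ℝ)⁻¹ ^ (n + 1) = (2 : ℝ)⁻¹ ^ n / 2 := by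
      rw [pow_succ]; ring
    rw [Finset.sum_Icc_succ_top (by omega : 3 ≤ n + 1),
      Finset.sum_Icc_succ_top (by omega : 3 ≤ n + 1)]
    have tb : |β (n + 1)| ≤ |β n| + |β (n + 1) - β n| := by
      have := abs_add_le (β n) (β (n + 1) - β n)
      simpa using this
    have ta : |α (n + 1)| ≤ |α n| + |α (n + 1) - α n| := by
      have := abs_add_le (α n) (α (n + 1) - α n)
      simpa using this
    constructor
    · linarith
    · rw [hps]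
      set S := o0 + ∑ j ∈ Finset.Icc 3 n, ω j with hS
      set T := o0 + ∑ j ∈ Finset.Icc 3 n, (2 : ℝ)⁻¹ ^ j * ω j with hT
      set p := (2 : ℝ)⁻¹ ^ n with hpdef
      have hCw0 : 0 ≤ C * ω n := mul_nonneg hC hw0
      have hCw1 : 0 ≤ C * ω (n + 1) := mul_nonneg hC hw1
      have hβS : p * |β n| ≤ p * (2 * C * S) := by
        apply mul_le_mul_of_nonneg_left _ hp.le
        linarith
      have e1 : o0 + (∑ j ∈ Finset.Icc 3 n, ω j + ω (n + 1)) = S + ω (n + 1) := by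
        rw [hS]; ring
      have e2 : o0 + (∑ j ∈ Finset.Icc 3 n, (2 : ℝ)⁻¹ ^ j * ω j + p / 2 * ω (n + 1))
          = T + p / 2 * ω (n + 1) := by
        rw [hT]; ring
      rw [e1, e2]
      have hpc : 0 ≤ p * (C * ω (n + 1)) := mul_nonneg hp.le hCw1
      nlinarith [ta, ha, ih2, hβS, hpc]

theorem anc_self (k : ℕ) (i : ℤ) : anc k k i = i := by
  simp [anc]

theorem anc_half (k j : ℕ) (i : ℤ) (hj : j + 1 ≤ k) : anc k j i = anc k (j + 1) i / 2 := by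
  unfold anc
  have h1 : k - j = (k - (j + 1)) + 1 := by omega
  rw [h1, pow_succ, ← Int.ediv_ediv_of_nonneg (by positivity)]

/-- The centers of a box and of its parent. -/
theorem center (q : ℤ) (j : ℕ) :
    |(q : ℝ) * (2 : ℝ)⁻¹ ^ (j + 1) - ((q / 2 : ℤ) : ℝ) * (2 : ℝ)⁻¹ ^ j| ≤ (2 : ℝ)⁻¹ ^ j := by
  have hp : (0 : ℝ) < (2 : ℝ)⁻¹ ^ j := by positivity
  have hq : q = 2 * (q / 2) + q % 2 := by omega
  have h0 : 0 ≤ q % 2 := by omega
  have h1 : q % 2 ≤ 1 := by omega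
  have h0' : (0 : ℝ) ≤ ((q % 2 : ℤ) : ℝ) := by exact_mod_cast h0
  have h1' : ((q % 2 : ℤ) : ℝ) ≤ 1 := by exact_mod_cast h1
  have hq' : (q : ℝ) = 2 * ((q / 2 : ℤ) : ℝ) + ((q % 2 : ℤ) : ℝ) := by exact_mod_cast hq
  have e : (q : ℝ) * (2 : ℝ)⁻¹ ^ (j + 1) - ((q / 2 : ℤ) : ℝ) * (2 : ℝ)⁻¹ ^ j
      = ((q % 2 : ℤ) : ℝ) / 2 * (2 : ℝ)⁻¹ ^ j := by
    rw [pow_succ, hq']
    have : ((q / 2 : ℤ) : ℝ) = (((2 * (q / 2) + q % 2 : ℤ) / 2 : ℤ) : ℝ) := by rw [← hq]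
    ring
  rw [e, abs_of_nonneg (by positivity)]
  nlinarith

end CHS_

theorem stmt_CHS (hCHN : Stmt_CHN) (hCOV : Stmt_COV) : Stmt_CHS := by
  obtain ⟨C, hC, hA, hB⟩ := hCHN
  refine ⟨13 * C, by positivity, ?_⟩
  intro v k0 a b o o0 hk0 hvQ hvB hbox h0 k hk i hi
  rw [Finset.mem_Icc] at hk
  obtain ⟨hk3, hkk0⟩ := hk
  have hanc : ∀ j ≤ k, anc k j i ∈ IX j := (hCOV k0 hk0).2.2.2.1 k i hi
  have ho0 : 0 ≤ o0 := le_trans (integral_nonneg fun _ => norm_nonneg _) h0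
  have hmem : ∀ j, 3 ≤ j → j ≤ k → j ∈ Finset.Icc 3 k0 := fun j h1 h2 =>
    Finset.mem_Icc.2 ⟨h1, h2.trans hkk0⟩
  have hω : ∀ j, 3 ≤ j → j ≤ k → 0 ≤ o j (anc k j i) := by
    intro j h1 h2
    refine le_trans ?_ (hbox j (hmem j h1 h2) _ (hanc j h2))
    exact mul_nonneg (by positivity) (integral_nonneg fun _ => norm_nonneg _)
  have haf0 : (∫ ζ in QQ, ‖v ζ - af 0 0 ζ‖) ≤ o0 := by
    have : ∀ ζ, v ζ - af 0 0 ζ = v ζ := fun ζ => by simp [af]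
    simpa only [this] using h0
  have h3 := hB v (anc k 3 i) (a 3 (anc k 3 i)) (b 3 (anc k 3 i)) 0 0 (o 3 (anc k 3 i)) o0
    (hanc 3 hk3) (hvB 3 (hmem 3 le_rfl hk3) _ (hanc 3 hk3)) hvQ
    (hbox 3 (hmem 3 le_rfl hk3) _ (hanc 3 hk3)) haf0
  have hstep : ∀ j, 3 ≤ j → j + 1 ≤ k → _ := fun j h1 h2 =>
    hA v j (anc k (j + 1) i) (a (j + 1) (anc k (j + 1) i)) (b (j + 1) (anc k (j + 1) i))
      (a j (anc k (j + 1) i / 2)) (b j (anc k (j + 1) i / 2)) (o (j + 1) (anc k (j + 1) i))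
      (o j (anc k (j + 1) i / 2))
      (hvB (j + 1) (hmem (j + 1) (by omega) h2) _ (hanc (j + 1) h2))
      (by rw [← CHS_.anc_half k j i h2]; exact hvB j (hmem j h1 (by omega)) _ (hanc j (by omega)))
      (hbox (j + 1) (hmem (j + 1) (by omega) h2) _ (hanc (j + 1) h2))
      (by
        rw [← CHS_.anc_half k j i h2]
        exact hbox j (hmem j h1 (by omega)) _ (hanc j (by omega)))
  have key := CHS_.seq_bound k (fun j => b j (anc k j i))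
    (fun j => a j (anc k j i) + b j (anc k j i) * ((anc k j i : ℝ) * (2 : ℝ)⁻¹ ^ j))
    (fun j => o j (anc k j i)) C o0 hC.le ho0 hω
    (by simpa using h3.1) (by simpa using h3.2)
    (by
      intro j h1 h2
      have := (hstep j h1 h2).1
      rw [← CHS_.anc_half k j i h2] at this
      exact this)
    (by
      intro j h1 h2
      have h := (hstep j h1 h2).2
      have hc := CHS_.center (anc k (j + 1) i) j
      rw [← CHS_.anc_half k j i h2] at h hc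
      have e : (a (j + 1) (anc k (j + 1) i) + b (j + 1) (anc k (j + 1) i)
            * ((anc k (j + 1) i : ℝ) * (2 : ℝ)⁻¹ ^ (j + 1)))
          - (a j (anc k j i) + b j (anc k j i) * ((anc k j i : ℝ) * (2 : ℝ)⁻¹ ^ j))
          = ((a (j + 1) (anc k (j + 1) i) + b (j + 1) (anc k (j + 1) i)
              * ((anc k (j + 1) i : ℝ) * (2 : ℝ)⁻¹ ^ (j + 1)))
            - (a j (anc k j i) + b j (anc k j i)
              * ((anc k (j + 1) i : ℝ) * (2 : ℝ)⁻¹ ^ (j + 1))))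
            + b j (anc k j i) * ((anc k (j + 1) i : ℝ) * (2 : ℝ)⁻¹ ^ (j + 1)
              - (anc k j i : ℝ) * (2 : ℝ)⁻¹ ^ j) := by ring
      show |(a (j + 1) (anc k (j + 1) i) + b (j + 1) (anc k (j + 1) i)
            * ((anc k (j + 1) i : ℝ) * (2 : ℝ)⁻¹ ^ (j + 1)))
          - (a j (anc k j i) + b j (anc k j i) * ((anc k j i : ℝ) * (2 : ℝ)⁻¹ ^ j))| ≤ _
      rw [e]
      refine (abs_add_le _ _).trans (add_le_add h ?_)
      rw [abs_mul, mul_comm]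
      exact mul_le_mul_of_nonneg_right hc (abs_nonneg _))
    k hk3 le_rfl
  obtain ⟨k1, k2⟩ := key
  simp only [CHS_.anc_self] at k1 k2
  have hoi : 0 ≤ o k i := by
    have := hω k hk3 le_rfl
    rwa [CHS_.anc_self] at this
  have hS : 0 ≤ o0 + ∑ j ∈ Finset.Icc 3 k, o j (anc k j i) :=
    add_nonneg ho0 (Finset.sum_nonneg fun j hj => by
      rw [Finset.mem_Icc] at hj; exact hω j hj.1 hj.2)
  constructor
  · have h1 : 0 ≤ C * o k i := mul_nonneg hC.le hoi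
    have h2 : 0 ≤ C * (o0 + ∑ j ∈ Finset.Icc 3 k, o j (anc k j i)) := mul_nonneg hC.le hS
    nlinarith [k1]
  · have h1 : 0 ≤ C * (2 : ℝ)⁻¹ ^ k * o k i := mul_nonneg (by positivity) hoi
    have h2 : 0 ≤ 4 * C * (2 : ℝ)⁻¹ ^ k * (o0 + ∑ j ∈ Finset.Icc 3 k, o j (anc k j i)) :=
      mul_nonneg (by positivity) hS
    linarith [k2]

end Pool.Mart
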