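import Pool.Agent.Work.MP_680515_an.IfaceA

/-!
# MP_680515_an: block CHV (change of variables for similarities)
-/

open MeasureTheory Set Filter Topology

namespace Pool.Mart

namespace CHV_

theorem act_add (A : M3) (v w : E3) : act A (v + w) = act A v + act A w := by
  unfold act
  rw [WithLp.ofLp_add, Matrix.mulVec_add, WithLp.toLp_add]

theorem act_smul (A : M3) (c : ℝ) (v : E3) : act A (c • v) = c • act A v := by
  unfold act
  rw [WithLp.ofLp_smul, Matrix.mulVec_smul, WithLp.toLp_smul]

theorem act_mul (A B : M3) (x : E3) : act (A * B) x = act A (act B x) := by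
  unfold act
  rw [← Matrix.mulVec_mulVec]

theorem act_one (x : E3) : act 1 x = x := by
  unfold act
  rw [Matrix.one_mulVec]

theorem inner_act (A : M3) (v w : E3) : inner ℝ (act A v) w = inner ℝ v (act A.transpose w) := by
  simp only [act, PiLp.inner_apply, Matrix.mulVec, dotProduct, Matrix.transpose_apply,
    Fin.sum_univ_three, RCLike.inner_apply, conj_trivial]
  ring

theorem mul_tr {O : M3} (hO : O ∈ Matrix.specialOrthogonalGroup (Fin 3) ℝ) :
    O * O.transpose = 1 ∧ O.transpose * O = 1 := by
  have h := (Matrix.mem_specialOrthogonalGroup_iff.1 hO).1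
  exact ⟨(Matrix.mem_orthogonalGroup_iff (Fin 3) ℝ).1 h, (Matrix.mem_orthogonalGroup_iff' (Fin 3) ℝ).1 h⟩

theorem norm_act {O : M3} (hO : O ∈ Matrix.specialOrthogonalGroup (Fin 3) ℝ) (v : E3) :
    ‖act O v‖ = ‖v‖ := by
  have h1 : ‖act O v‖ ^ 2 = ‖v‖ ^ 2 := by
    rw [← real_inner_self_eq_norm_sq, inner_act, ← act_mul, (mul_tr hO).2, act_one,
      real_inner_self_eq_norm_sq]
  exact (sq_eq_sq₀ (norm_nonneg _) (norm_nonneg _)).1 h1

/-- The rotation as a linear isometry equivalence. -/
noncomputable def iso {O : M3} (hO : O ∈ Matrix.specialOrthogonalGroup (Fin 3) ℝ) : E3 ≃ₗᵢ[ℝ] E3 where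
  toFun := act O
  invFun := act O.transpose
  map_add' := act_add O
  map_smul' := act_smul O
  left_inv v := by rw [← act_mul, (mul_tr hO).2, act_one]
  right_inv v := by rw [← act_mul, (mul_tr hO).1, act_one]
  norm_map' v := norm_act hO v

theorem iso_apply {O : M3} (hO : O ∈ Matrix.specialOrthogonalGroup (Fin 3) ℝ) (v : E3) :
    iso hO v = act O v := rfl

end CHV_

open CHV_ in
theorem stmt_CHV : Stmt_CHV := by
  intro h p l O hl hO
  refine ⟨?_, norm_act hO, ?_, ?_, ?_⟩
  · have h1 : ∫ X, h (p + l • act O X) = ∫ X, h (p + l • X) := by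
      have h2 := (iso hO).measurePreserving.integral_comp
        (iso hO).toHomeomorph.measurableEmbedding (fun X => h (p + l • X))
      simpa only [iso_apply] using h2
    rw [h1, Measure.integral_comp_smul volume (fun X => h (p + X)) l,
      integral_add_left_eq_self h p, smul_eq_mul, abs_of_pos (by positivity)]
    simp
  · intro v
    rw [← act_mul, (mul_tr hO).1, act_one]
  · intro v
    rw [← act_mul, (mul_tr hO).2, act_one]
  · intro P hP
    have h1 : ∀ᵐ x : E3, P (p + x) := by
      have h2 := (measurePreserving_add_left (volume : Measure E3) p).quasiMeasurePreserving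
      exact h2.ae hP
    have h2 : ∀ᵐ x : E3, P (p + l • x) := by
      have h3 : Measure.map (fun x : E3 => l • x) volume ≪ volume := by
        rw [Measure.map_addHaar_smul volume hl.ne']
        exact Measure.smul_absolutelyContinuous
      have h4 : Measure.QuasiMeasurePreserving (fun x : E3 => l • x) volume volume :=
        ⟨measurable_const_smul l, h3⟩
      exact h4.ae h1
    exact (iso hO).measurePreserving.quasiMeasurePreserving.ae h2

end Pool.Mart
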