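import Pool.Agent.Work.MP_680515_an.IfaceS

/-!
# MP_680515_an, block COV: the boxes cover the region near the axis
-/

open MeasureTheory Set Filter Topology Complex

namespace Pool.Mart

namespace COV_

theorem hp (k : ℕ) : (0 : ℝ) < (2 : ℝ)⁻¹ ^ k := by positivity

theorem hinv (k : ℕ) : (2 : ℝ)⁻¹ ^ k * 2 ^ k = 1 := by
  rw [← mul_pow]; norm_num

theorem hanti {a b : ℕ} (h : a ≤ b) : (2 : ℝ)⁻¹ ^ b ≤ (2 : ℝ)⁻¹ ^ a :=
  pow_le_pow_of_le_one (by norm_num) (by norm_num) h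

theorem floor_box (k : ℕ) (y : ℝ) (hy : |y| < 8) :
    ∃ i ∈ IX k, |y - i * (2 : ℝ)⁻¹ ^ k| ≤ (2 : ℝ)⁻¹ ^ k := by
  have h2 : (0 : ℝ) < 2 ^ k := by positivity
  have hq := hinv k
  have hp' := hp k
  obtain ⟨hy1, hy2⟩ := abs_lt.1 hy
  have hf1 := Int.floor_le (y * 2 ^ k)
  have hf2 := Int.lt_floor_add_one (y * 2 ^ k)
  refine ⟨⌊y * 2 ^ k⌋, ?_, ?_⟩
  · rw [IX, Finset.mem_Icc]
    constructor
    · apply Int.le_floor.2
      push_cast
      nlinarith
    · have : ((⌊y * 2 ^ k⌋ : ℤ) : ℝ) ≤ 8 * 2 ^ k := by nlinarith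
      exact_mod_cast this
  · have e : y - (⌊y * 2 ^ k⌋ : ℤ) * (2 : ℝ)⁻¹ ^ k
        = (y * 2 ^ k - (⌊y * 2 ^ k⌋ : ℤ)) * (2 : ℝ)⁻¹ ^ k := by
      rw [sub_mul, mul_assoc, mul_comm ((2 : ℝ) ^ k), hq, mul_one]
    rw [e, abs_mul, abs_of_pos hp', abs_of_nonneg (by linarith)]
    calc (y * 2 ^ k - (⌊y * 2 ^ k⌋ : ℤ)) * (2 : ℝ)⁻¹ ^ k ≤ 1 * (2 : ℝ)⁻¹ ^ k := by
          apply mul_le_mul_of_nonneg_right _ hp'.le
          linarith
      _ = (2 : ℝ)⁻¹ ^ k := one_mul _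

end COV_

open COV_ in
theorem stmt_COV : Stmt_COV := by
  intro k0 hk0
  refine ⟨?_, ?_, ?_, ?_, ?_⟩
  · intro ζ h1 h2 h3
    have hex : ∃ k : ℕ, 3 ≤ k ∧ (2 : ℝ)⁻¹ ^ (k + 1) < ζ.re := ⟨k0, hk0, h1⟩
    classical
    obtain ⟨k, ⟨hk3, hk⟩, hmin⟩ : ∃ k : ℕ, (3 ≤ k ∧ (2 : ℝ)⁻¹ ^ (k + 1) < ζ.re) ∧
        ∀ j < k, ¬ (3 ≤ j ∧ (2 : ℝ)⁻¹ ^ (j + 1) < ζ.re) :=
      ⟨Nat.find hex, Nat.find_spec hex, fun j hj => Nat.find_min hex hj⟩
    have hkk0 : k ≤ k0 := by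
      by_contra hcon
      exact hmin k0 (by omega) ⟨hk0, h1⟩
    have hle : ζ.re ≤ (2 : ℝ)⁻¹ ^ k := by
      rcases Nat.eq_or_lt_of_le hk3 with h | h
      · rw [← h]
        norm_num
        linarith
      · by_contra hcon
        push Not at hcon
        apply hmin (k - 1) (by omega)
        refine ⟨by omega, ?_⟩
        rw [Nat.sub_add_cancel (by omega)]
        exact hcon
    obtain ⟨i, hi, hi2⟩ := floor_box k ζ.im h3
    exact ⟨k, Finset.mem_Icc.2 ⟨hk3, hkk0⟩, i, hi, hk.le, hle, hi2⟩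
  · rintro ζ ⟨h1, h2, h3⟩
    have him : |ζ.im| < 8 := lt_of_le_of_lt (Complex.abs_im_le_norm ζ) h3
    obtain ⟨i, hi, hi2⟩ := floor_box k0 ζ.im him
    refine ⟨i, hi, h1.le, ?_, hi2⟩
    rw [pow_succ] at h2
    linarith
  · intro k hk i hi ζ hζ
    obtain ⟨h1, h2, h3⟩ := hζ
    rw [Finset.mem_Icc] at hk
    rw [IX, Finset.mem_Icc] at hi
    refine ⟨?_, ?_⟩
    · have e1 : (2 : ℝ)⁻¹ ^ (k0 + 3) ≤ (2 : ℝ)⁻¹ ^ (k + 2) := hanti (by omega)
      linarith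
    · have e2 : (2 : ℝ)⁻¹ ^ k ≤ 1 / 8 := by
        refine (hanti hk.1).trans ?_
        norm_num
      have e3' := hp k
      have e3'' := hp (k + 2)
      have e4 : |(i : ℝ) * (2 : ℝ)⁻¹ ^ k| ≤ 8 := by
        have hq := hinv k
        have hi1 : (-(8 * 2 ^ k) : ℝ) ≤ i := by exact_mod_cast hi.1
        have hi2 : (i : ℝ) ≤ 8 * 2 ^ k := by exact_mod_cast hi.2
        rw [abs_le]
        constructor <;> nlinarith
      have e5 : |ζ.im| ≤ |ζ.im - i * (2 : ℝ)⁻¹ ^ k| + |(i : ℝ) * (2 : ℝ)⁻¹ ^ k| := by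
        have := abs_add_le (ζ.im - i * (2 : ℝ)⁻¹ ^ k) (i * (2 : ℝ)⁻¹ ^ k)
        rwa [sub_add_cancel] at this
      have e6 := Complex.norm_le_abs_re_add_abs_im ζ
      have e7 : |ζ.re| = ζ.re := abs_of_pos (by linarith)
      rw [e7] at e6
      linarith
  · intro k i hi j hj
    rw [IX, Finset.mem_Icc] at hi ⊢
    have hd : (0 : ℤ) < 2 ^ (k - j) := by positivity
    have hpow : (2 : ℤ) ^ k = 2 ^ j * 2 ^ (k - j) := by
      rw [← pow_add]; congr 1; omega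
    rw [anc]
    constructor
    · rw [Int.le_ediv_iff_mul_le hd]
      calc -(8 * 2 ^ j) * 2 ^ (k - j) = -(8 * (2 ^ j * 2 ^ (k - j) : ℤ)) := by ring
        _ = -(8 * 2 ^ k) := by rw [← hpow]
        _ ≤ i := hi.1
    · have h1 : i ≤ (8 * 2 ^ j) * 2 ^ (k - j) := by
        calc i ≤ 8 * 2 ^ k := hi.2
          _ = (8 * 2 ^ j) * 2 ^ (k - j) := by rw [hpow]; ring
      calc i / 2 ^ (k - j) ≤ ((8 * 2 ^ j) * 2 ^ (k - j)) / 2 ^ (k - j) :=
            Int.ediv_le_ediv hd h1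
        _ = 8 * 2 ^ j := Int.mul_ediv_cancel _ hd.ne'
  · intro f k j hj hf
    have hd : (0 : ℤ) < 2 ^ (k - j) := by positivity
    have hpow : (2 : ℤ) ^ k = 2 ^ j * 2 ^ (k - j) := by
      rw [← pow_add]; congr 1; omega
    have hmaps : ∀ i ∈ IX k, anc k j i ∈ IX j := by
      intro i hi
      rw [IX, Finset.mem_Icc] at hi ⊢
      rw [anc]
      constructor
      · rw [Int.le_ediv_iff_mul_le hd]
        calc -(8 * 2 ^ j) * 2 ^ (k - j) = -(8 * (2 ^ j * 2 ^ (k - j) : ℤ)) := by ring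
          _ = -(8 * 2 ^ k) := by rw [← hpow]
          _ ≤ i := hi.1
      · have h1 : i ≤ (8 * 2 ^ j) * 2 ^ (k - j) := by
          calc i ≤ 8 * 2 ^ k := hi.2
            _ = (8 * 2 ^ j) * 2 ^ (k - j) := by rw [hpow]; ring
        calc i / 2 ^ (k - j) ≤ ((8 * 2 ^ j) * 2 ^ (k - j)) / 2 ^ (k - j) :=
              Int.ediv_le_ediv hd h1
          _ = 8 * 2 ^ j := Int.mul_ediv_cancel _ hd.ne'
    rw [← Finset.sum_fiberwise_of_maps_to hmaps, Finset.mul_sum]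
    apply Finset.sum_le_sum
    intro l _
    have hcard : ((IX k).filter fun i => anc k j i = l).card ≤ 2 ^ (k - j) := by
      have hsub : ((IX k).filter fun i => anc k j i = l) ⊆
          Finset.Ico (l * 2 ^ (k - j)) (l * 2 ^ (k - j) + 2 ^ (k - j)) := by
        intro i hi
        rw [Finset.mem_filter] at hi
        have h1 := hi.2
        rw [anc] at h1
        have h2 := Int.emod_add_mul_ediv i (2 ^ (k - j))
        have h3 := Int.emod_nonneg i hd.ne'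
        have h4 := Int.emod_lt_of_pos i hd
        rw [h1] at h2
        rw [Finset.mem_Ico]
        constructor <;> nlinarith
      calc ((IX k).filter fun i => anc k j i = l).card
          ≤ (Finset.Ico (l * 2 ^ (k - j)) (l * 2 ^ (k - j) + 2 ^ (k - j))).card :=
            Finset.card_le_card hsub
        _ = 2 ^ (k - j) := by
            rw [Int.card_Ico, add_sub_cancel_left]
            have : ((2 : ℤ) ^ (k - j)) = ((2 ^ (k - j) : ℕ) : ℤ) := by push_cast; rfl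
            rw [this, Int.toNat_natCast]
    calc ∑ i ∈ IX k with anc k j i = l, f (anc k j i)
        = ∑ i ∈ IX k with anc k j i = l, f l := by
          apply Finset.sum_congr rfl
          intro i hi
          rw [(Finset.mem_filter.1 hi).2]
      _ = (((IX k).filter fun i => anc k j i = l).card : ℝ) * f l := by
          rw [Finset.sum_const, nsmul_eq_mul]
      _ ≤ 2 ^ (k - j) * f l := by
          apply mul_le_mul_of_nonneg_right _ (hf l)
          exact_mod_cast hcard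

end Pool.Mart
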