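import Pool.Agent.Work.MP_680515_an.IfaceS

/-!
# MP_680515_an, block CTD: the Cauchy transform solves the dbar equation
-/

open MeasureTheory Set Filter Topology Complex

namespace Pool.Mart

namespace CTD_

open scoped Convolution

theorem locInt (hCTP : Stmt_CTP) : LocallyIntegrable (fun w : ℂ => w⁻¹) := by
  intro x
  -- a bump equal to one on a large ball
  let b : ContDiffBump (0 : ℂ) := ⟨‖x‖ + 1, ‖x‖ + 2, by positivity, by linarith⟩
  let g : ℂ → ℂ := fun w => ((b w : ℝ) : ℂ)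
  have hg : ContDiff ℝ (⊤ : ℕ∞) g := Complex.ofRealCLM.contDiff.comp b.contDiff
  have hc : HasCompactSupport g := by
    have := b.hasCompactSupport.comp_left (g := fun t : ℝ => (t : ℂ)) (by simp)
    exact this
  have h := (hCTP g hg hc 0).2
  refine ⟨Metric.ball (0 : ℂ) (‖x‖ + 1), ?_, ?_⟩
  · exact Metric.isOpen_ball.mem_nhds (by simp)
  · have h2 : IntegrableOn (fun w : ℂ => g w / (0 - w)) (Metric.ball (0 : ℂ) (‖x‖ + 1)) :=
      h.integrableOn
    have h3 : IntegrableOn (fun w : ℂ => -(g w / (0 - w))) (Metric.ball (0 : ℂ) (‖x‖ + 1)) :=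
      h2.neg
    refine h3.congr_fun ?_ measurableSet_ball
    intro w hw
    have hw1 : (b w : ℝ) = 1 :=
      b.one_of_mem_closedBall (Metric.ball_subset_closedBall hw)
    have hgw : g w = 1 := by
      show ((b w : ℝ) : ℂ) = 1
      rw [hw1]; simp
    show -(g w / (0 - w)) = w⁻¹
    rw [hgw, zero_sub, div_neg, neg_neg, one_div]

/-- The Cauchy transform as a convolution. -/
theorem cT_conv (g : ℂ → ℂ) (ζ : ℂ) :
    cT g ζ = ((Real.pi)⁻¹ : ℝ) *
      ((fun w : ℂ => w⁻¹) ⋆[ContinuousLinearMap.mul ℝ ℂ, volume] g) ζ := by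
  unfold cT convolution
  congr 1
  rw [← integral_sub_left_eq_self (fun w => (ContinuousLinearMap.mul ℝ ℂ) (w⁻¹) (g (ζ - w)))
    volume ζ]
  refine integral_congr_ae (Eventually.of_forall fun w => ?_)
  simp only [ContinuousLinearMap.mul_apply', sub_sub_cancel]
  rw [div_eq_mul_inv, mul_comm]

theorem dbar_cont {g : ℂ → ℂ} (hg : ContDiff ℝ (⊤ : ℕ∞) g) :
    Continuous (fun a => fderiv ℝ g a) :=
  hg.continuous_fderiv (by simp)

end CTD_

open CTD_ in
open scoped Convolution in
theorem stmt_CTD (hCTP : Stmt_CTP) : Stmt_CTD := by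
  intro g hg hc
  have hL := locInt hCTP
  have hfun : cT g = fun ζ => ((Real.pi)⁻¹ : ℝ) *
      ((fun w : ℂ => w⁻¹) ⋆[ContinuousLinearMap.mul ℝ ℂ, volume] g) ζ := funext (cT_conv g)
  refine ⟨?_, ?_⟩
  · rw [hfun]
    exact contDiff_const.mul (hc.contDiff_convolution_right _ hL hg)
  · intro ζ
    have h1 : HasFDerivAt ((fun w : ℂ => w⁻¹) ⋆[ContinuousLinearMap.mul ℝ ℂ, volume] g)
        (((fun w : ℂ => w⁻¹) ⋆[(ContinuousLinearMap.mul ℝ ℂ).precompR ℂ, volume]
          fderiv ℝ g) ζ) ζ :=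
      hc.hasFDerivAt_convolution_right _ hL (hg.of_le (by simp)) ζ
    have h2 : HasFDerivAt (cT g) ((((Real.pi)⁻¹ : ℝ) : ℂ) •
        (((fun w : ℂ => w⁻¹) ⋆[(ContinuousLinearMap.mul ℝ ℂ).precompR ℂ, volume]
          fderiv ℝ g) ζ)) ζ := by
      rw [hfun]
      exact h1.const_mul _
    have h3 : ∀ v : ℂ, (((fun w : ℂ => w⁻¹) ⋆[(ContinuousLinearMap.mul ℝ ℂ).precompR ℂ, volume]
          fderiv ℝ g) ζ) v
        = ((fun w : ℂ => w⁻¹) ⋆[ContinuousLinearMap.mul ℝ ℂ, volume]
            (fun a => fderiv ℝ g a v)) ζ := fun v =>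
      convolution_precompR_apply _ hL (hc.fderiv ℝ) (dbar_cont hg) ζ v
    -- integrability of the two convolutions
    have hint : ∀ v : ℂ, Integrable (fun t : ℂ => t⁻¹ * fderiv ℝ g (ζ - t) v) := by
      intro v
      have hcv : HasCompactSupport (fun a => fderiv ℝ g a v) :=
        (hc.fderiv ℝ).comp_left (g := fun T : ℂ →L[ℝ] ℂ => T v) (by simp)
      have hcont : Continuous (fun a => fderiv ℝ g a v) := (dbar_cont hg).clm_apply continuous_const
      have := hcv.convolutionExists_right (ContinuousLinearMap.mul ℝ ℂ) hL hcont ζ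
      exact this
    have h4 : dbar (cT g) ζ = cT (dbar g) ζ := by
      rw [cT_conv]
      unfold dbar
      rw [h2.fderiv]
      simp only [ContinuousLinearMap.smul_apply, smul_eq_mul, h3]
      unfold convolution
      simp only [ContinuousLinearMap.mul_apply']
      have h5 : (∫ t : ℂ, t⁻¹ * (1 / 2 * (fderiv ℝ g (ζ - t) 1 + I * fderiv ℝ g (ζ - t) I)))
          = 1 / 2 * ((∫ t : ℂ, t⁻¹ * fderiv ℝ g (ζ - t) 1)
            + I * ∫ t : ℂ, t⁻¹ * fderiv ℝ g (ζ - t) I) := by
        rw [← integral_const_mul I, ← integral_add (hint 1) ((hint I).const_mul I),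
          ← integral_const_mul]
        refine integral_congr_ae (Eventually.of_forall fun t => ?_)
        ring
      rw [h5]
      ring
    rw [h4]
    exact (hCTP g hg hc ζ).1

end Pool.Mart
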