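import Pool.Agent.Work.MP_680515_an.IfaceS

/-!
# MP_680515_an: block CTP (Cauchy-Pompeiu formula for compactly supported smooth functions)
-/

open MeasureTheory Set Filter Topology Complex
namespace Pool.Mart
namespace CTP_

/-- the direction of the angle `φ` -/
noncomputable def dir (φ : ℝ) : ℂ := Complex.exp (φ * I)

lemma polar_eq (p : ℝ × ℝ) : Complex.polarCoord.symm p = (p.1 : ℂ) * dir p.2 := by
  rw [Complex.polarCoord_symm_apply, dir, Complex.exp_mul_I]
  push_cast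
  ring

lemma norm_dir (φ : ℝ) : ‖dir φ‖ = 1 := by
  unfold dir
  exact Complex.norm_exp_ofReal_mul_I φ

lemma dir_ne (φ : ℝ) : dir φ ≠ 0 := by
  intro h
  have := norm_dir φ
  rw [h, norm_zero] at this
  exact zero_ne_one this

lemma dir_conj (φ : ℝ) : (dir φ)⁻¹ = (starRingEnd ℂ) (dir φ) := by
  unfold dir
  rw [← Complex.exp_conj, ← Complex.exp_neg]
  congr 1
  simp

lemma cont_dir : Continuous dir := by
  unfold dir
  fun_prop

/-- the algebra: a real linear map in the direction `v` and `I v` -/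
lemma lin_alg (L : ℂ →L[ℝ] ℂ) (v : ℂ) :
    L v + I * L (I * v) = 2 * ((1 / 2) * (L 1 + I * L I)) * (starRingEnd ℂ) v := by
  have e1 : v = v.re • (1 : ℂ) + v.im • I := by
    apply Complex.ext <;> simp
  have e2 : I * v = (-v.im) • (1 : ℂ) + v.re • I := by
    apply Complex.ext <;> simp
  have e3 : (starRingEnd ℂ) v = (v.re : ℂ) - (v.im : ℂ) * I := by
    apply Complex.ext <;> simp
  rw [e2, e3]
  nth_rewrite 1 [e1]
  rw [map_add, map_smul, map_smul, map_add, map_smul, map_smul]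
  simp only [Complex.real_smul, Complex.ofReal_neg]
  have hI : I * I = -1 := Complex.I_mul_I
  linear_combination ((v.im : ℂ) * L I) * hI

section
variable {g : ℂ → ℂ} (hg : ContDiff ℝ (⊤ : ℕ∞) g)
include hg

lemma hasFDerivAt (w : ℂ) : HasFDerivAt g (fderiv ℝ g w) w :=
  (hg.differentiable (by simp) w).hasFDerivAt

lemma deriv_s (ζ : ℂ) (φ s : ℝ) :
    HasDerivAt (fun s : ℝ => g (ζ + (s : ℂ) * dir φ)) (fderiv ℝ g (ζ + (s : ℂ) * dir φ) (dir φ)) s := by
  have h1 : HasDerivAt (fun s : ℝ => ζ + (s : ℂ) * dir φ) (dir φ) s := by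
    have := ((Complex.ofRealCLM.hasDerivAt (x := s)).mul_const (dir φ)).const_add ζ
    simpa using this
  exact (hasFDerivAt hg _).comp_hasDerivAt s h1

lemma deriv_phi (ζ : ℂ) (s φ : ℝ) :
    HasDerivAt (fun φ : ℝ => g (ζ + (s : ℂ) * dir φ))
      ((s : ℂ) * fderiv ℝ g (ζ + (s : ℂ) * dir φ) (I * dir φ)) φ := by
  have h0 : HasDerivAt dir (I * dir φ) φ := by
    unfold dir
    have h : HasDerivAt (fun φ : ℝ => (φ : ℂ) * I) I φ := by
      have := (Complex.ofRealCLM.hasDerivAt (x := φ)).mul_const I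
      simpa using this
    have := h.cexp
    rw [mul_comm I]
    exact this
  have h1 : HasDerivAt (fun φ : ℝ => ζ + (s : ℂ) * dir φ) ((s : ℂ) * (I * dir φ)) φ :=
    (h0.const_mul (s : ℂ)).const_add ζ
  have h2 := (hasFDerivAt hg (ζ + (s : ℂ) * dir φ)).comp_hasDerivAt φ h1
  have h3 : fderiv ℝ g (ζ + (s : ℂ) * dir φ) ((s : ℂ) * (I * dir φ)) =
      (s : ℂ) * fderiv ℝ g (ζ + (s : ℂ) * dir φ) (I * dir φ) := by
    have : (s : ℂ) * (I * dir φ) = s • (I * dir φ) := by simp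
    rw [this, map_smul]
    simp
  rw [← h3]
  exact h2

lemma cont_fderiv : Continuous (fderiv ℝ g) :=
  hg.continuous_fderiv (by simp)

end

lemma bounded_supp {g : ℂ → ℂ} (hc : HasCompactSupport g) (ζ : ℂ) :
    ∃ R : ℝ, 0 < R ∧ ∀ w : ℂ, R < ‖w‖ → g (ζ + w) = 0 ∧ fderiv ℝ g (ζ + w) = 0 := by
  obtain ⟨R, hR⟩ := hc.isCompact.isBounded.exists_norm_le
  refine ⟨max 1 (R + ‖ζ‖), by positivity, fun w hw => ?_⟩
  have h1 : ζ + w ∉ tsupport g := by
    intro hm
    have h2 := hR _ hm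
    have h3 : ‖w‖ ≤ ‖ζ + w‖ + ‖ζ‖ := by
      have : w = (ζ + w) - ζ := by ring
      calc ‖w‖ = ‖(ζ + w) - ζ‖ := by rw [← this]
        _ ≤ _ := norm_sub_le _ _
    have := le_max_right 1 (R + ‖ζ‖)
    linarith
  refine ⟨image_eq_zero_of_notMem_tsupport h1, ?_⟩
  have h4 : ζ + w ∉ Function.support (fderiv ℝ g) := fun h => h1 (support_fderiv_subset ℝ h)
  exact Function.notMem_support.1 h4

/-- integrability on the half strip -/
lemma integrable_strip {F : ℝ × ℝ → ℂ} (hF : Continuous F) {R : ℝ}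
    (hR : ∀ p : ℝ × ℝ, R < p.1 → F p = 0) :
    IntegrableOn F (Ioi (0 : ℝ) ×ˢ Ioo (-Real.pi) Real.pi) := by
  have h1 : IntegrableOn F (Icc (0 : ℝ) R ×ˢ Icc (-Real.pi) Real.pi) :=
    hF.continuousOn.integrableOn_compact (isCompact_Icc.prod isCompact_Icc)
  have h2 : IntegrableOn F (Ioi R ×ˢ Ioo (-Real.pi) Real.pi) := by
    refine integrableOn_zero.congr_fun (fun p hp => (hR p hp.1).symm)
      (measurableSet_Ioi.prod measurableSet_Ioo)
  refine (h1.union h2).mono_set ?_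
  rintro ⟨a, b⟩ ⟨h3, h4⟩
  simp only [mem_union, mem_prod, mem_Icc, mem_Ioi, mem_Ioo] at h3 h4 ⊢
  rcases le_or_gt a R with h | h
  · exact Or.inl ⟨⟨h3.le, h⟩, h4.1.le, h4.2.le⟩
  · exact Or.inr ⟨h, h4⟩

lemma cont_A {g : ℂ → ℂ} (hg : ContDiff ℝ (⊤ : ℕ∞) g) (ζ : ℂ) {v : ℝ × ℝ → ℂ}
    (hv : Continuous v) :
    Continuous (fun p : ℝ × ℝ => fderiv ℝ g (ζ + (p.1 : ℂ) * dir p.2) (v p)) := by
  have h1 : Continuous (fun p : ℝ × ℝ => ζ + (p.1 : ℂ) * dir p.2) := by
    have := cont_dir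
    fun_prop
  exact ((cont_fderiv hg).comp h1).clm_apply hv

lemma zero_A {g : ℂ → ℂ} {ζ : ℂ} {R : ℝ} (_hR0 : 0 < R)
    (hR : ∀ w : ℂ, R < ‖w‖ → g (ζ + w) = 0 ∧ fderiv ℝ g (ζ + w) = 0) (v : ℝ × ℝ → ℂ) :
    ∀ p : ℝ × ℝ, R < p.1 → fderiv ℝ g (ζ + (p.1 : ℂ) * dir p.2) (v p) = 0 := by
  intro p hp
  rw [(hR ((p.1 : ℂ) * dir p.2) ?_).2]
  · simp
  · rw [norm_mul, norm_dir, mul_one, Complex.norm_real, Real.norm_eq_abs]
    exact lt_of_lt_of_le hp (le_abs_self _)

lemma int_A {g : ℂ → ℂ} (hg : ContDiff ℝ (⊤ : ℕ∞) g) (hc : HasCompactSupport g) (ζ : ℂ) :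
    ∫ p in Ioi (0 : ℝ) ×ˢ Ioo (-Real.pi) Real.pi,
      fderiv ℝ g (ζ + (p.1 : ℂ) * dir p.2) (dir p.2) = -(2 * Real.pi : ℂ) * g ζ := by
  obtain ⟨R, hR0, hR⟩ := bounded_supp hc ζ
  have hint := integrable_strip (cont_A hg ζ (v := fun p => dir p.2)
    (cont_dir.comp continuous_snd)) (zero_A hR0 hR _)
  have hswap : ∫ p in Ioi (0 : ℝ) ×ˢ Ioo (-Real.pi) Real.pi,
      fderiv ℝ g (ζ + (p.1 : ℂ) * dir p.2) (dir p.2) =
      ∫ φ in Ioo (-Real.pi) Real.pi, ∫ s in Ioi (0 : ℝ),
        fderiv ℝ g (ζ + (s : ℂ) * dir φ) (dir φ) := by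
    rw [Measure.volume_eq_prod] at hint ⊢
    rw [setIntegral_prod _ hint]
    have h2 := hint
    rw [IntegrableOn, ← Measure.prod_restrict] at h2
    exact integral_integral_swap h2
  rw [hswap]
  have hin : ∀ φ : ℝ, ∫ s in Ioi (0 : ℝ), fderiv ℝ g (ζ + (s : ℂ) * dir φ) (dir φ) = - g ζ := by
    intro φ
    have hcd : ContDiff ℝ 1 (fun s : ℝ => g (ζ + (s : ℂ) * dir φ)) := by
      have h1 : ContDiff ℝ 1 (fun s : ℝ => ζ + (s : ℂ) * dir φ) := by
        have := Complex.ofRealCLM.contDiff (n := 1) (𝕜 := ℝ)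
        exact contDiff_const.add (this.mul contDiff_const)
      exact (hg.of_le (by simp)).comp h1
    have hcs : HasCompactSupport (fun s : ℝ => g (ζ + (s : ℂ) * dir φ)) := by
      refine HasCompactSupport.intro (isCompact_Icc (a := -R) (b := R)) (fun s hs => ?_)
      refine (hR ((s : ℂ) * dir φ) ?_).1
      rw [norm_mul, norm_dir, mul_one, Complex.norm_real, Real.norm_eq_abs]
      by_contra hlt
      push Not at hlt
      exact hs (abs_le.1 hlt)
    have h3 := hcs.integral_Ioi_deriv_eq hcd 0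
    have h4 : deriv (fun s : ℝ => g (ζ + (s : ℂ) * dir φ)) =
        fun s : ℝ => fderiv ℝ g (ζ + (s : ℂ) * dir φ) (dir φ) := by
      funext s
      exact (deriv_s hg ζ φ s).deriv
    rw [h4] at h3
    rw [h3]
    simp
  simp only [hin]
  rw [setIntegral_const]
  simp only [Measure.real, Real.volume_Ioo]
  rw [ENNReal.toReal_ofReal (by linarith [Real.pi_pos])]
  simp only [Complex.real_smul]
  push_cast
  ring

lemma int_B {g : ℂ → ℂ} (hg : ContDiff ℝ (⊤ : ℕ∞) g) (hc : HasCompactSupport g) (ζ : ℂ) :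
    ∫ p in Ioi (0 : ℝ) ×ˢ Ioo (-Real.pi) Real.pi,
      fderiv ℝ g (ζ + (p.1 : ℂ) * dir p.2) (I * dir p.2) = 0 := by
  obtain ⟨R, hR0, hR⟩ := bounded_supp hc ζ
  have hint := integrable_strip (cont_A hg ζ (v := fun p => I * dir p.2)
    (continuous_const.mul (cont_dir.comp continuous_snd))) (zero_A hR0 hR _)
  rw [Measure.volume_eq_prod] at hint ⊢
  rw [setIntegral_prod _ hint]
  have hpi := Real.pi_pos
  have hin : ∀ s ∈ Ioi (0 : ℝ), ∫ φ in Ioo (-Real.pi) Real.pi,
      fderiv ℝ g (ζ + (s : ℂ) * dir φ) (I * dir φ) = 0 := by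
    intro s hs
    have hs0 : (s : ℂ) ≠ 0 := by
      have : (0 : ℝ) < s := hs
      exact_mod_cast this.ne'
    have h1 : ∫ φ in (-Real.pi)..Real.pi,
        (s : ℂ) * fderiv ℝ g (ζ + (s : ℂ) * dir φ) (I * dir φ) = 0 := by
      rw [intervalIntegral.integral_eq_sub_of_hasDerivAt (fun φ _ => deriv_phi hg ζ s φ)]
      · have h2 : dir Real.pi = dir (-Real.pi) := by
          unfold dir
          rw [Complex.exp_pi_mul_I]
          push_cast
          rw [neg_mul, Complex.exp_neg, Complex.exp_pi_mul_I]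
          norm_num
        rw [h2, sub_self]
      · apply Continuous.intervalIntegrable
        have := cont_A hg ζ (v := fun p => I * dir p.2)
          (continuous_const.mul (cont_dir.comp continuous_snd))
        exact continuous_const.mul (this.comp (Continuous.prodMk continuous_const continuous_id))
    rw [intervalIntegral.integral_const_mul, mul_eq_zero] at h1
    rcases h1 with h1 | h1
    · exact absurd h1 hs0
    · rw [intervalIntegral.integral_of_le (by linarith), integral_Ioc_eq_integral_Ioo] at h1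
      exact h1
  rw [setIntegral_congr_fun measurableSet_Ioi hin]
  simp

/-- the kernel is locally integrable -/
lemma integrable_kernel {g : ℂ → ℂ} (hg : Continuous g) (hc : HasCompactSupport g) (ζ : ℂ) :
    Integrable (fun w => g w / (ζ - w)) := by
  have hb : ∃ R : ℝ, 0 < R ∧ ∀ w : ℂ, R < ‖w‖ → g (ζ + w) = 0 := by
    obtain ⟨R, hR⟩ := hc.isCompact.isBounded.exists_norm_le
    refine ⟨max 1 (R + ‖ζ‖), by positivity, fun w hw => ?_⟩
    refine image_eq_zero_of_notMem_tsupport fun hm => ?_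
    have h2 := hR _ hm
    have h3 : ‖w‖ ≤ ‖ζ + w‖ + ‖ζ‖ := by
      have : w = (ζ + w) - ζ := by ring
      calc ‖w‖ = ‖(ζ + w) - ζ‖ := by rw [← this]
        _ ≤ _ := norm_sub_le _ _
    have := le_max_right 1 (R + ‖ζ‖)
    linarith
  obtain ⟨R, hR0, hR⟩ := hb
  obtain ⟨M, hM⟩ := hg.bounded_above_of_compact_support hc
  have key : Integrable (fun w => g (ζ + w) / (ζ - (ζ + w))) := by
    refine ⟨?_, ?_⟩
    · refine Measurable.aestronglyMeasurable ?_
      have := hg.measurable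
      fun_prop
    · rw [hasFiniteIntegral_iff_enorm, ← Complex.lintegral_comp_polarCoord_symm]
      have hle : ∀ p ∈ polarCoord.target, ENNReal.ofReal p.1 •
          ‖g (ζ + Complex.polarCoord.symm p) / (ζ - (ζ + Complex.polarCoord.symm p))‖ₑ ≤
          (Ioc (0 : ℝ) R ×ˢ Ioo (-Real.pi) Real.pi).indicator
            (fun _ => ENNReal.ofReal M) p := by
        intro p hp
        have hp1 : 0 < p.1 := hp.1
        rw [polar_eq]
        by_cases h : p.1 ≤ R
        · rw [indicator_of_mem (show p ∈ Ioc (0 : ℝ) R ×ˢ Ioo (-Real.pi) Real.pi from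
            ⟨⟨hp1, h⟩, hp.2⟩)]
          have e : ‖g (ζ + (p.1 : ℂ) * dir p.2) / (ζ - (ζ + (p.1 : ℂ) * dir p.2))‖ =
              ‖g (ζ + (p.1 : ℂ) * dir p.2)‖ / p.1 := by
            rw [norm_div]
            congr 1
            have : ζ - (ζ + (p.1 : ℂ) * dir p.2) = -((p.1 : ℂ) * dir p.2) := by ring
            rw [this, norm_neg, norm_mul, norm_dir, mul_one, Complex.norm_real,
              Real.norm_eq_abs, abs_of_pos hp1]
          rw [smul_eq_mul, ← ofReal_norm_eq_enorm, e, ← ENNReal.ofReal_mul hp1.le]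
          apply ENNReal.ofReal_le_ofReal
          rw [mul_div_cancel₀ _ hp1.ne']
          exact hM _
        · push Not at h
          have : g (ζ + (p.1 : ℂ) * dir p.2) = 0 := by
            apply hR
            rw [norm_mul, norm_dir, mul_one, Complex.norm_real, Real.norm_eq_abs,
              abs_of_pos hp1]
            exact h
          rw [this]
          simp
      refine lt_of_le_of_lt (setLIntegral_mono' polarCoord.open_target.measurableSet hle) ?_
      refine lt_of_le_of_lt (lintegral_mono' Measure.restrict_le_self le_rfl) ?_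
      rw [lintegral_indicator (measurableSet_Ioc.prod measurableSet_Ioo), setLIntegral_const,
        Measure.volume_eq_prod, Measure.prod_prod, Real.volume_Ioc, Real.volume_Ioo]
      exact ENNReal.mul_lt_top ENNReal.ofReal_lt_top
        (ENNReal.mul_lt_top ENNReal.ofReal_lt_top ENNReal.ofReal_lt_top)
  have h2 := key.comp_add_left (-ζ)
  refine h2.congr (Filter.Eventually.of_forall fun w => ?_)
  simp only [add_neg_cancel_left]

end CTP_

theorem stmt_CTP : Stmt_CTP := by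
  intro g hg hc ζ
  refine ⟨?_, CTP_.integrable_kernel hg.continuous hc ζ⟩
  unfold cT
  have h1 : ∫ w, dbar g w / (ζ - w) = ∫ w, dbar g (ζ + w) / (ζ - (ζ + w)) :=
    (integral_add_left_eq_self (fun w => dbar g w / (ζ - w)) ζ).symm
  rw [h1, ← Complex.integral_comp_polarCoord_symm]
  have h2 : ∀ p ∈ polarCoord.target, p.1 • (dbar g (ζ + Complex.polarCoord.symm p) /
      (ζ - (ζ + Complex.polarCoord.symm p))) =
      -(1 / 2 : ℂ) * (fderiv ℝ g (ζ + (p.1 : ℂ) * CTP_.dir p.2) (CTP_.dir p.2) +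
        I * fderiv ℝ g (ζ + (p.1 : ℂ) * CTP_.dir p.2) (I * CTP_.dir p.2)) := by
    intro p hp
    have hp1 : 0 < p.1 := hp.1
    have hp2 : (p.1 : ℂ) ≠ 0 := by exact_mod_cast hp1.ne'
    rw [CTP_.polar_eq, CTP_.lin_alg, ← CTP_.dir_conj]
    have h3 := CTP_.dir_ne p.2
    unfold dbar
    rw [Complex.real_smul]
    have h4 : ζ - (ζ + (p.1 : ℂ) * CTP_.dir p.2) = -((p.1 : ℂ) * CTP_.dir p.2) := by ring
    rw [h4]
    field_simp
  rw [setIntegral_congr_fun polarCoord.open_target.measurableSet h2, integral_const_mul]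
  have ht : polarCoord.target = Ioi (0 : ℝ) ×ˢ Ioo (-Real.pi) Real.pi := rfl
  rw [ht, integral_add, integral_const_mul, CTP_.int_A hg hc ζ, CTP_.int_B hg hc ζ]
  · have hpi : (Real.pi : ℂ) ≠ 0 := by exact_mod_cast Real.pi_ne_zero
    push_cast
    field_simp
    ring
  · obtain ⟨R, hR0, hR⟩ := CTP_.bounded_supp hc ζ
    exact CTP_.integrable_strip (CTP_.cont_A hg ζ (v := fun p => CTP_.dir p.2)
      (CTP_.cont_dir.comp continuous_snd)) (CTP_.zero_A hR0 hR _)
  · obtain ⟨R, hR0, hR⟩ := CTP_.bounded_supp hc ζ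
    exact (CTP_.integrable_strip (CTP_.cont_A hg ζ (v := fun p => I * CTP_.dir p.2)
      (continuous_const.mul (CTP_.cont_dir.comp continuous_snd)))
      (CTP_.zero_A hR0 hR _)).const_mul I

end Pool.Mart
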