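import Pool.Agent.Work.MP_680515_an.IfaceH

/-!
# MP_680515_an, block CURV: the curve and the source frames
-/

open MeasureTheory Set Filter Topology Complex

namespace Pool.Mart

namespace CURV_

theorem act_eq (A : M3) (v : E3) : act A v = Matrix.toEuclideanLin A v := by
  simp [act, Matrix.toLpLin_apply]

theorem act_sub (A : M3) (v w : E3) : act A (v - w) = act A v - act A w := by
  simp only [act_eq, map_sub]

theorem act_smul (A : M3) (c : ℝ) (v : E3) : act A (c • v) = c • act A v := by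
  simp only [act_eq, map_smul]

theorem act_mul (A B : M3) (x : E3) : act (A * B) x = act A (act B x) := by
  unfold act
  simp [Matrix.mulVec_mulVec]

theorem act_one (x : E3) : act 1 x = x := by
  simp [act]

theorem norm_act {O : M3} (hO : O ∈ Matrix.specialOrthogonalGroup (Fin 3) ℝ) (v : E3) :
    ‖act O v‖ = ‖v‖ := by
  have hm : O.transpose * O = 1 :=
    (Matrix.mem_orthogonalGroup_iff' (Fin 3) ℝ).mp (Matrix.mem_specialOrthogonalGroup_iff.mp hO).1
  have h : ‖act O v‖ ^ 2 = ‖v‖ ^ 2 := by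
    rw [EuclideanSpace.real_norm_sq_eq, EuclideanSpace.real_norm_sq_eq]
    have h1 : ∑ i, (act O v) i ^ 2 = dotProduct (O.mulVec v.ofLp) (O.mulVec v.ofLp) := by
      simp only [dotProduct, act, sq]
    have h2 : ∑ i, v i ^ 2 = dotProduct v.ofLp v.ofLp := by
      simp only [dotProduct, sq]
    rw [h1, h2, Matrix.dotProduct_mulVec, Matrix.vecMul_mulVec, hm, Matrix.vecMul_one]
  exact (pow_left_inj₀ (norm_nonneg _) (norm_nonneg _) two_ne_zero).1 h

theorem norm_e3 : ‖e3‖ = 1 := by
  simp [e3]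

theorem sc_pos (n : ℕ) : 0 < sc n := by
  unfold sc; positivity

theorem sc_le (n : ℕ) : sc n ≤ 1 := by
  unfold sc
  exact pow_le_one₀ (by norm_num) (by norm_num)

theorem tr_mem {O : M3} (hO : O ∈ Matrix.specialOrthogonalGroup (Fin 3) ℝ) :
    O.transpose ∈ Matrix.specialOrthogonalGroup (Fin 3) ℝ := by
  have h := Matrix.mem_specialOrthogonalGroup_iff.mp hO
  have h1 := (Matrix.mem_orthogonalGroup_iff' (Fin 3) ℝ).mp h.1
  refine Matrix.mem_specialOrthogonalGroup_iff.mpr ⟨?_, ?_⟩
  · rw [Matrix.mem_orthogonalGroup_iff]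
    simpa [Matrix.star_eq_conjTranspose] using h1
  · rw [Matrix.det_transpose]
    exact h.2

theorem mul_tr {O : M3} (hO : O ∈ Matrix.specialOrthogonalGroup (Fin 3) ℝ) :
    O * O.transpose = 1 := by
  have h := Matrix.mem_specialOrthogonalGroup_iff.mp hO
  exact (Matrix.mem_orthogonalGroup_iff (Fin 3) ℝ).mp h.1

theorem tr_mul {O : M3} (hO : O ∈ Matrix.specialOrthogonalGroup (Fin 3) ℝ) :
    O.transpose * O = 1 := by
  have h := Matrix.mem_specialOrthogonalGroup_iff.mp hO
  exact (Matrix.mem_orthogonalGroup_iff' (Fin 3) ℝ).mp h.1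

/-- difference of two values of an approximated map -/
theorem diff {ε : ℝ} {g : E3 → E3} {y : E3} {r lam : ℝ} {O : M3} {b : E3}
    (h : SimAp ε g y r lam O b) {p q : E3} (hp : p ∈ Metric.ball y r)
    (hq : q ∈ Metric.ball y r) :
    ‖(g q - g p) - lam • act O (q - p)‖ ≤ 2 * (ε * (lam * r)) := by
  have h1 := h.ap p hp
  have h2 := h.ap q hq
  have h4 : (g q - g p) - lam • act O (q - p)
      = (g q - (lam • act O q + b)) - (g p - (lam • act O p + b)) := by
    rw [act_sub, smul_sub]
    abel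
  rw [h4]
  refine (norm_sub_le _ _).trans ?_
  linarith

end CURV_

open CURV_ in
theorem stmt_CURV (hSCMP : Stmt_SCMP) (hSURJ : Stmt_SURJ) (hINJS : Stmt_INJS)
    (hRADS : Stmt_RADS) : Stmt_CURV := by
  refine ⟨1800, by norm_num, ?_⟩
  intro ε Ω ψ xs hε0 hε hNS hxs
  obtain ⟨r0, hr0, hball, hns⟩ := hNS xs hxs
  have hns' : NS ε ψ xs r0 := by
    intro y hy r hr hr'
    obtain ⟨lam, O, b, h1, h2, h3⟩ := hns y hy r hr hr'
    exact ⟨lam, O, b, h1, h2, h3⟩
  -- the first radius
  set r1 : ℝ := r0 / 16 with hr1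
  have hr1p : 0 < r1 := by positivity
  have hr10 : r1 < r0 := by rw [hr1]; linarith
  have hxsb : xs ∈ Metric.ball xs r0 := Metric.mem_ball_self hr0
  obtain ⟨lam1, O1, b1, h1⟩ := hns' xs hxsb r1 hr1p hr10
  have hl1 := h1.pos
  refine ⟨lam1 * r1 / 1000, by positivity, ?_⟩
  intro κ hκ hκ0
  -- the curve
  have hcurve : ∀ t : ℝ, ∃ p : E3, t ∈ Icc (-21 : ℝ) 21 →
      p ∈ Metric.closedBall xs (r1 / 2) ∧ ψ p = ψ xs + (κ * t) • e3 := by
    intro t
    by_cases ht : t ∈ Icc (-21 : ℝ) 21
    · have hb : ‖(ψ xs + (κ * t) • e3) - ψ xs‖ ≤ lam1 * r1 / 4 := by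
        rw [add_sub_cancel_left, norm_smul, norm_e3, mul_one, Real.norm_eq_abs, abs_mul,
          abs_of_pos hκ]
        have h21 : |t| ≤ 21 := abs_le.mpr ⟨by linarith [ht.1], ht.2⟩
        have : κ * |t| ≤ κ * 21 := mul_le_mul_of_nonneg_left h21 hκ.le
        have h5 : 0 < lam1 * r1 := by positivity
        linarith
      obtain ⟨p, hp, hp'⟩ := hSURJ ε ψ xs xs r0 r1 lam1 O1 b1 hε0 hε hns'
        (Metric.mem_ball_self (by positivity)) hr1p (by rw [hr1]; linarith) h1 _ hb
      exact ⟨p, fun _ => ⟨hp, hp'⟩⟩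
    · exact ⟨0, fun h => absurd h ht⟩
  choose γ hγ using hcurve
  have hin : ∀ z : E3, dist z xs < 2 * r0 → z ∈ Ω := fun z hz => hball (Metric.mem_ball.mpr hz)
  refine ⟨γ, ?_, ?_⟩
  · intro t ht
    have h := hγ t ht
    refine ⟨hin _ ?_, h.2⟩
    have h2 := Metric.mem_closedBall.mp h.1
    rw [hr1] at h2
    linarith
  intro t ht n
  have ht21 : t ∈ Icc (-21 : ℝ) 21 := ⟨by linarith [ht.1], by linarith [ht.2]⟩
  set a : E3 := γ t with ha
  have hga := hγ t ht21
  have had : dist a xs ≤ r1 / 2 := Metric.mem_closedBall.mp hga.1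
  have hab0 : a ∈ Metric.ball xs r0 := Metric.mem_ball.mpr (by linarith)
  -- approximation at a
  obtain ⟨lama, Oa, ba, h2⟩ := hns' a hab0 (r1 / 2) (by positivity) (by linarith)
  have hsub : Metric.ball a (r1 / 2) ⊆ Metric.ball xs r1 := by
    intro z hz
    have hz' := Metric.mem_ball.mp hz
    refine Metric.mem_ball.mpr ?_
    have := dist_triangle z a xs
    linarith
  have hcmp := hSCMP ε ψ xs a r1 (r1 / 2) lam1 lama O1 Oa b1 ba hε0 hε h1 h2 (by positivity)
    (by linarith) (by linarith) hsub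
  have hlama : 9 / 10 * lam1 ≤ lama := by
    have h5 : 10 * ε * lam1 ≤ 1 / 10 * lam1 := by
      apply mul_le_mul_of_nonneg_right _ hl1.le
      linarith
    have := (abs_le.mp hcmp).1
    linarith
  have hs0 := sc_pos n
  have hs1 := sc_le n
  set μ : ℝ := κ * sc n with hμ
  have hμ0 : 0 < μ := by positivity
  have hμκ : μ ≤ κ := by
    calc μ = κ * sc n := hμ
      _ ≤ κ * 1 := mul_le_mul_of_nonneg_left hs1 hκ.le
      _ = κ := mul_one κ
  have hσ : 300 * μ ≤ lama * (r1 / 2) := by
    have h5 : 9 / 10 * lam1 * (r1 / 2) ≤ lama * (r1 / 2) :=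
      mul_le_mul_of_nonneg_right hlama (by positivity)
    have h6 : 0 < lam1 * r1 := by positivity
    nlinarith
  obtain ⟨r, lam, O, b, hr, hrr, h3, hσ1, hσ2⟩ := hRADS ε ψ xs a r0 (r1 / 2) lama Oa ba hε0 hε
    hns' hab0 (by positivity) (by linarith) h2 (300 * μ) (by positivity) hσ
  have hlam := h3.pos
  have hO := h3.so
  have hQ := tr_mem hO
  have hψa : ψ a = ψ xs + (κ * t) • e3 := hga.2
  have haa : a ∈ Metric.ball a r := Metric.mem_ball_self hr
  have hL : 0 < μ / lam := by positivity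
  have hLr : 300 * (μ / lam) ≤ r := by
    rw [← mul_div_assoc, div_le_iff₀ hlam]
    linarith
  have hrL : r ≤ 900 * (μ / lam) := by
    rw [← mul_div_assoc, le_div_iff₀ hlam]
    linarith
  refine ⟨μ / lam, O.transpose, hL, hQ, ?_, ?_⟩
  · intro s hs hts
    set c : E3 := γ (t + s * sc n) with hc
    have hgc := hγ (t + s * sc n) hts
    have hψc : ψ c = ψ xs + (κ * (t + s * sc n)) • e3 := hgc.2
    have hdiff : ψ c - ψ a = (s * μ) • e3 := by
      rw [hψc, hψa, add_sub_add_left_eq_sub, ← sub_smul]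
      congr 1
      rw [hμ]; ring
    have hbound : ‖ψ c - ψ a‖ ≤ lam * r / 4 := by
      rw [hdiff, norm_smul, norm_e3, mul_one, Real.norm_eq_abs, abs_mul, abs_of_pos hμ0]
      have : |s| * μ ≤ 64 * μ := mul_le_mul_of_nonneg_right hs hμ0.le
      linarith
    have hr2 : r < r0 / 2 := by rw [hr1] at hrr; linarith
    have hab2 : a ∈ Metric.ball xs (r0 / 2) := Metric.mem_ball.mpr (by rw [hr1] at had; linarith)
    obtain ⟨c', hc', hψc'⟩ := hSURJ ε ψ xs a r0 r lam O b hε0 hε hns' hab2 hr hr2 h3 _ hbound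
    have hc'd := Metric.mem_closedBall.mp hc'
    have hcd := Metric.mem_closedBall.mp hgc.1
    have hcc : c' = c := by
      refine hINJS ε ψ xs r0 hε0 hε hns' c' ?_ c ?_ hψc'
      · refine Metric.mem_ball.mpr ?_
        have := dist_triangle c' a xs
        rw [hr1] at hrr had
        linarith
      · refine Metric.mem_ball.mpr ?_
        rw [hr1] at hcd
        linarith
    rw [hcc] at hc'd
    have hcb : c ∈ Metric.ball a r := Metric.mem_ball.mpr (by linarith)
    have hd := diff h3 haa hcb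
    rw [hdiff] at hd
    -- apply the inverse of the similarity
    have hkey : (c - a) - (s * (μ / lam)) • act O.transpose e3
        = -(lam⁻¹ • act O.transpose ((s * μ) • e3 - lam • act O (c - a))) := by
      rw [act_sub, act_smul, act_smul, ← act_mul, tr_mul hO, act_one, smul_sub, smul_smul,
        smul_smul, inv_mul_cancel₀ hlam.ne', one_smul, neg_sub]
      congr 2
      field_simp
    rw [hkey, norm_neg, norm_smul, norm_act hQ, norm_inv, Real.norm_eq_abs, abs_of_pos hlam]
    calc lam⁻¹ * ‖(s * μ) • e3 - lam • act O (c - a)‖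
        ≤ lam⁻¹ * (2 * (ε * (lam * r))) := mul_le_mul_of_nonneg_left hd (by positivity)
      _ = 2 * ε * r := by field_simp
      _ ≤ 2 * ε * (900 * (μ / lam)) := mul_le_mul_of_nonneg_left hrL (by positivity)
      _ = 1800 * ε * (μ / lam) := by ring
  · intro X hX
    have hnorm : ‖(μ / lam) • act O.transpose X‖ ≤ 66 * (μ / lam) := by
      rw [norm_smul, norm_act hQ, Real.norm_eq_abs, abs_of_pos hL]
      nlinarith
    have hxb : a + (μ / lam) • act O.transpose X ∈ Metric.ball a r := by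
      rw [Metric.mem_ball, dist_eq_norm, add_sub_cancel_left]
      linarith
    refine ⟨?_, ?_⟩
    · apply hin
      have h5 := Metric.mem_ball.mp hxb
      have h6 := dist_triangle (a + (μ / lam) • act O.transpose X) a xs
      rw [hr1] at hrr had
      linarith
    · have hd := diff h3 haa hxb
      rw [add_sub_cancel_left, act_smul, ← act_mul, mul_tr hO, act_one, smul_smul,
        mul_div_cancel₀ _ hlam.ne', hψa] at hd
      have h7 : ψ (a + (μ / lam) • act O.transpose X) - (ψ xs + (κ * t) • e3 + μ • X)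
          = ψ (a + (μ / lam) • act O.transpose X) - (ψ xs + (κ * t) • e3) - μ • X := by abel
      rw [h7]
      refine hd.trans ?_
      have h8 : ε * (lam * r) ≤ ε * (3 * (300 * μ)) := mul_le_mul_of_nonneg_left hσ2 hε0
      linarith

end Pool.Mart
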