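import Pool.Agent.Work.MP_680515_an.IfaceS

/-! Block CUT: cut-off functions. -/

open MeasureTheory Set Filter Topology Complex

namespace Pool.Mart.CUT_

lemma st_bound : ∃ C1 : ℝ, 0 ≤ C1 ∧ ∀ u : ℝ, |deriv Real.smoothTransition u| ≤ C1 := by
  have hc : Continuous (deriv Real.smoothTransition) :=
    (Real.smoothTransition.contDiff (n := 1)).continuous_deriv le_rfl
  obtain ⟨C, hC⟩ := (isCompact_Icc (a := (0 : ℝ)) (b := 1)).exists_bound_of_continuousOn
    hc.continuousOn
  refine ⟨max C 0, le_max_right _ _, fun u => ?_⟩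
  by_cases h0 : u < 0
  · have : Real.smoothTransition =ᶠ[𝓝 u] fun _ => (0 : ℝ) := by
      filter_upwards [Iio_mem_nhds h0] with v hv
      exact Real.smoothTransition.zero_of_nonpos (le_of_lt hv)
    rw [this.deriv_eq]; simp
  · by_cases h1 : 1 < u
    · have : Real.smoothTransition =ᶠ[𝓝 u] fun _ => (1 : ℝ) := by
        filter_upwards [Ioi_mem_nhds h1] with v hv
        exact Real.smoothTransition.one_of_one_le (le_of_lt hv)
      rw [this.deriv_eq]; simp
    · have := hC u ⟨not_lt.mp h0, not_lt.mp h1⟩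
      rw [Real.norm_eq_abs] at this
      exact this.trans (le_max_left _ _)

lemma st_deriv_zero {u : ℝ} (h : u < 0 ∨ 1 < u) : deriv Real.smoothTransition u = 0 := by
  rcases h with h0 | h1
  · have : Real.smoothTransition =ᶠ[𝓝 u] fun _ => (0 : ℝ) := by
      filter_upwards [Iio_mem_nhds h0] with v hv
      exact Real.smoothTransition.zero_of_nonpos (le_of_lt hv)
    rw [this.deriv_eq]; simp
  · have : Real.smoothTransition =ᶠ[𝓝 u] fun _ => (1 : ℝ) := by
      filter_upwards [Ioi_mem_nhds h1] with v hv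
      exact Real.smoothTransition.one_of_one_le (le_of_lt hv)
    rw [this.deriv_eq]; simp

/-- inner cut-off, a function of the real part -/
noncomputable def c0 (ρ : ℝ) (ζ : ℂ) : ℝ := Real.smoothTransition ((ζ.re - 4 * ρ / 3) / (ρ / 3))

/-- outer cut-off -/
noncomputable def c1 (ζ : ℂ) : ℝ := Real.smoothTransition ((49 - ‖ζ‖ ^ 2) / 24)

lemma c0_smooth (ρ : ℝ) : ContDiff ℝ (⊤ : ℕ∞) (c0 ρ) := by
  unfold c0
  apply Real.smoothTransition.contDiff.comp
  apply ContDiff.div_const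
  apply ContDiff.sub _ contDiff_const
  exact Complex.reCLM.contDiff

lemma c1_smooth : ContDiff ℝ (⊤ : ℕ∞) c1 := by
  unfold c1
  apply Real.smoothTransition.contDiff.comp
  apply ContDiff.div_const
  exact contDiff_const.sub (contDiff_norm_sq ℝ)

lemma dbar_c0 {ρ : ℝ} (hρ : 0 < ρ) (ζ : ℂ) :
    dbar (fun ζ => (c0 ρ ζ : ℂ)) ζ =
      ((1 / 2 * (deriv Real.smoothTransition ((ζ.re - 4 * ρ / 3) / (ρ / 3)) * (3 / ρ)) : ℝ) : ℂ)
      := by
  have h1 : HasFDerivAt (fun ζ : ℂ => (ζ.re - 4 * ρ / 3) / (ρ / 3))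
      ((3 / ρ) • Complex.reCLM) ζ := by
    have ha : HasFDerivAt (fun ζ : ℂ => ζ.re) Complex.reCLM ζ := Complex.reCLM.hasFDerivAt
    have hb := (ha.sub_const (4 * ρ / 3)).mul_const (3 / ρ)
    have heq : (fun ζ : ℂ => (ζ.re - 4 * ρ / 3) / (ρ / 3))
        = fun ζ : ℂ => (ζ.re - 4 * ρ / 3) * (3 / ρ) := by
      funext z
      field_simp
    rw [heq]
    exact hb
  have hd : DifferentiableAt ℝ Real.smoothTransition ((ζ.re - 4 * ρ / 3) / (ρ / 3)) :=
    (Real.smoothTransition.contDiff (n := 1)).differentiable (by norm_num) _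
  have h2 : HasFDerivAt (c0 ρ)
      (deriv Real.smoothTransition ((ζ.re - 4 * ρ / 3) / (ρ / 3)) • ((3 / ρ) • Complex.reCLM))
      ζ := hd.hasDerivAt.comp_hasFDerivAt ζ h1
  have h3 : HasFDerivAt (fun ζ => (c0 ρ ζ : ℂ))
      (Complex.ofRealCLM.comp (deriv Real.smoothTransition ((ζ.re - 4 * ρ / 3) / (ρ / 3)) •
        ((3 / ρ) • Complex.reCLM))) ζ :=
    Complex.ofRealCLM.hasFDerivAt.comp ζ h2
  unfold dbar
  rw [h3.fderiv]
  simp

lemma c1_near_one {ζ : ℂ} (h : ‖ζ‖ ≤ 4) :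
    (fun ζ => (c1 ζ : ℂ)) =ᶠ[𝓝 ζ] fun _ => (1 : ℂ) := by
  have : Metric.ball (0 : ℂ) 5 ∈ 𝓝 ζ := by
    apply Metric.isOpen_ball.mem_nhds
    simp only [Metric.mem_ball, dist_zero_right]; linarith
  filter_upwards [this] with w hw
  simp only [Metric.mem_ball, dist_zero_right] at hw
  have : c1 w = 1 := by
    unfold c1
    apply Real.smoothTransition.one_of_one_le
    have := norm_nonneg w
    rw [le_div_iff₀ (by norm_num)]
    nlinarith
  simp [this]

lemma c1_zero {ζ : ℂ} (h : 7 ≤ ‖ζ‖) : c1 ζ = 0 := by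
  unfold c1
  apply Real.smoothTransition.zero_of_nonpos
  apply div_nonpos_of_nonpos_of_nonneg _ (by norm_num)
  nlinarith

lemma c1_near_zero {ζ : ℂ} (h : 8 ≤ ‖ζ‖) :
    (fun ζ => (c1 ζ : ℂ)) =ᶠ[𝓝 ζ] fun _ => (0 : ℂ) := by
  have : {w : ℂ | 7 < ‖w‖} ∈ 𝓝 ζ := by
    apply (isOpen_lt continuous_const continuous_norm).mem_nhds
    simp only [mem_ofPred_eq]; linarith
  filter_upwards [this] with w hw
  simp [c1_zero (le_of_lt hw)]

lemma dbar_congr_const {ψ : ℂ → ℂ} {ζ c : ℂ} (h : ψ =ᶠ[𝓝 ζ] fun _ => c) : dbar ψ ζ = 0 := by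
  unfold dbar
  rw [h.fderiv_eq]
  simp

lemma dbar_c1_bound : ∃ C2 : ℝ, 0 ≤ C2 ∧ ∀ ζ, ‖dbar (fun ζ => (c1 ζ : ℂ)) ζ‖ ≤ C2 := by
  have hs : ContDiff ℝ (⊤ : ℕ∞) (fun ζ => (c1 ζ : ℂ)) := Complex.ofRealCLM.contDiff.comp c1_smooth
  have hc : Continuous (fderiv ℝ (fun ζ => (c1 ζ : ℂ))) :=
    hs.continuous_fderiv (by simp)
  have hd : Continuous (dbar (fun ζ => (c1 ζ : ℂ))) := by
    unfold dbar
    exact continuous_const.mul ((hc.clm_apply continuous_const).add
      (continuous_const.mul (hc.clm_apply continuous_const)))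
  obtain ⟨C, hC⟩ := (isCompact_closedBall (0 : ℂ) 8).exists_bound_of_continuousOn hd.continuousOn
  refine ⟨max C 0, le_max_right _ _, fun ζ => ?_⟩
  by_cases h : ‖ζ‖ ≤ 8
  · exact (hC ζ (by simpa using h)).trans (le_max_left _ _)
  · rw [dbar_congr_const (c1_near_zero (le_of_lt (not_le.mp h)))]
    simp

end Pool.Mart.CUT_

namespace Pool.Mart

open CUT_

theorem stmt_CUT : Stmt_CUT := by
  obtain ⟨C1, hC1, hb1⟩ := st_bound
  obtain ⟨C2, hC2, hb2⟩ := dbar_c1_bound
  refine ⟨2 * C1 + C2 + 1, by positivity, ?_⟩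
  intro ρ hρ hρ1
  have hsub : Function.support (fun ζ => c0 ρ ζ * c1 ζ) ⊆
      {ζ : ℂ | 4 * ρ / 3 ≤ ζ.re} ∩ Metric.closedBall 0 7 := by
    intro ζ hζ
    simp only [Function.mem_support] at hζ
    have h0 : c0 ρ ζ ≠ 0 := left_ne_zero_of_mul hζ
    have h1 : c1 ζ ≠ 0 := right_ne_zero_of_mul hζ
    constructor
    · simp only [mem_ofPred_eq]
      by_contra hcon
      apply h0
      unfold c0
      apply Real.smoothTransition.zero_of_nonpos
      apply div_nonpos_of_nonpos_of_nonneg <;> linarith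
    · simp only [Metric.mem_closedBall, dist_zero_right]
      by_contra hcon
      exact h1 (c1_zero (le_of_lt (not_le.mp hcon)))
  have hclosed : IsClosed ({ζ : ℂ | 4 * ρ / 3 ≤ ζ.re} ∩ Metric.closedBall (0 : ℂ) 7) :=
    (isClosed_le continuous_const Complex.continuous_re).inter Metric.isClosed_closedBall
  have hts : tsupport (fun ζ => c0 ρ ζ * c1 ζ) ⊆
      {ζ : ℂ | 4 * ρ / 3 ≤ ζ.re} ∩ Metric.closedBall 0 7 :=
    closure_minimal hsub hclosed
  refine ⟨c0 ρ, c1, c0_smooth ρ, c1_smooth, ?_, ?_, ?_, ?_, ?_, ?_, ?_, ?_, ?_⟩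
  · intro ζ
    exact ⟨Real.smoothTransition.nonneg _, Real.smoothTransition.le_one _,
      Real.smoothTransition.nonneg _, Real.smoothTransition.le_one _⟩
  · intro ζ hζ
    unfold c0
    apply Real.smoothTransition.one_of_one_le
    rw [le_div_iff₀ (by positivity)]
    linarith
  · intro ζ hζ
    have := (c1_near_one hζ).eq_of_nhds
    exact_mod_cast this
  · exact HasCompactSupport.of_support_subset_isCompact (isCompact_closedBall (0 : ℂ) 7)
      (hsub.trans inter_subset_right)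
  · intro ζ hζ
    have := hts hζ
    simp only [mem_inter_iff, mem_ofPred_eq, Metric.mem_closedBall, dist_zero_right] at this
    exact ⟨by linarith [this.1], by linarith [this.2]⟩
  · intro ζ
    refine ⟨_, dbar_c0 hρ ζ, ?_, ?_⟩
    · rw [abs_mul, abs_mul, abs_of_pos (by norm_num : (0 : ℝ) < 1 / 2),
        abs_of_pos (by positivity : (0 : ℝ) < 3 / ρ)]
      have h1 := hb1 ((ζ.re - 4 * ρ / 3) / (ρ / 3))
      have h2 : 1 / 2 * (|deriv Real.smoothTransition ((ζ.re - 4 * ρ / 3) / (ρ / 3))| * (3 / ρ))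
          ≤ 1 / 2 * (C1 * (3 / ρ)) := by gcongr
      refine h2.trans ?_
      have : 1 / 2 * (C1 * (3 / ρ)) = (3 / 2 * C1) / ρ := by ring
      rw [this]
      gcongr
      linarith
    · intro hn
      have : deriv Real.smoothTransition ((ζ.re - 4 * ρ / 3) / (ρ / 3)) = 0 := by
        apply st_deriv_zero
        by_cases h : ρ < ζ.re
        · right
          have h2 : 2 * ρ ≤ ζ.re := by
            by_contra hcon
            exact hn ⟨h, not_le.mp hcon⟩
          rw [lt_div_iff₀ (by positivity)]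
          linarith
        · left
          apply div_neg_of_neg_of_pos _ (by positivity)
          linarith [not_lt.mp h]
      rw [this]; simp
  · intro ζ
    refine ⟨(hb2 ζ).trans (by linarith), ?_⟩
    intro hn
    by_cases h : 4 < ‖ζ‖
    · have h8 : 8 ≤ ‖ζ‖ := by
        by_contra hcon
        exact hn ⟨h, not_le.mp hcon⟩
      exact dbar_congr_const (c1_near_zero h8)
    · exact dbar_congr_const (c1_near_one (not_lt.mp h))
  · intro ζ hζ
    by_contra hcon
    exact hζ (c1_zero (by linarith [not_lt.mp hcon]))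
  · intro ζ hζ
    by_contra hcon
    apply hζ
    unfold c0
    apply Real.smoothTransition.zero_of_nonpos
    apply div_nonpos_of_nonpos_of_nonneg _ (by positivity)
    linarith [not_lt.mp hcon]

end Pool.Mart
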