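import Pool.Agent.Work.MP_680515_an.IfaceW

/-!
# MP_680515_an: block CYLI
-/

open MeasureTheory Set Filter Topology Complex

namespace Pool.Mart

theorem CYLI_continuous_rad : Continuous rad := by
  unfold rad
  fun_prop

theorem CYLI_continuous_hp : Continuous hp := by
  have h : hp = fun X : E3 => ((rad X : ℝ) : ℂ) + ((X 2 : ℝ) : ℂ) * I := by
    funext X
    apply Complex.ext <;> simp [hp]
  rw [h]
  have := CYLI_continuous_rad
  fun_prop

theorem CYLI_hp_cyl (ζ : ℂ) (θ : ℝ) (h : 0 ≤ ζ.re) : hp (cyl ζ θ) = ζ := by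
  have h1 : rad (cyl ζ θ) = ζ.re := by
    unfold rad cyl
    have h2 : ((!₂[ζ.re * Real.cos θ, ζ.re * Real.sin θ, ζ.im] : E3) 0) ^ 2
        + ((!₂[ζ.re * Real.cos θ, ζ.re * Real.sin θ, ζ.im] : E3) 1) ^ 2 = ζ.re ^ 2 := by
      have := Real.sin_sq_add_cos_sq θ
      simp
      linear_combination ζ.re ^ 2 * this
    rw [h2]
    exact Real.sqrt_sq h
  apply Complex.ext
  · simp [hp, h1]
  · simp [hp, cyl]

/-- The measure inequality on the half plane. -/
theorem CYLI_le (ρ : ℝ) (U : Set ℂ) (hρ : 0 < ρ) (hU : MeasurableSet U)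
    (hUρ : ∀ ζ ∈ U, ρ ≤ ζ.re) :
    (volume.restrict U : Measure ℂ) ≤ ENNReal.ofReal ρ⁻¹ •
      (((volume.restrict {ζ : ℂ | 0 < ζ.re}).withDensity fun ζ => ENNReal.ofReal ζ.re).restrict U) := by
  refine Measure.le_iff.2 fun s hs => ?_
  rw [Measure.smul_apply, Measure.restrict_apply hs, Measure.restrict_apply hs,
    withDensity_apply _ (hs.inter hU), smul_eq_mul]
  have hsub : s ∩ U ⊆ {ζ : ℂ | 0 < ζ.re} := fun ζ hζ => lt_of_lt_of_le hρ (hUρ ζ hζ.2)
  have h1 : (volume.restrict {ζ : ℂ | 0 < ζ.re}).restrict (s ∩ U) = volume.restrict (s ∩ U) := by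
    rw [Measure.restrict_restrict (hs.inter hU), inter_eq_self_of_subset_left hsub]
  rw [h1]
  have h2 : ENNReal.ofReal ρ * volume (s ∩ U) ≤ ∫⁻ ζ in s ∩ U, ENNReal.ofReal ζ.re := by
    rw [← setLIntegral_const]
    refine setLIntegral_mono' (hs.inter hU) fun ζ hζ => ?_
    exact ENNReal.ofReal_le_ofReal (hUρ ζ hζ.2)
  calc volume (s ∩ U) = ENNReal.ofReal ρ⁻¹ * (ENNReal.ofReal ρ * volume (s ∩ U)) := by
        rw [← mul_assoc, ← ENNReal.ofReal_mul (by positivity), inv_mul_cancel₀ hρ.ne',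
          ENNReal.ofReal_one, one_mul]
    _ ≤ _ := by gcongr

theorem CYLI_prod_mono {μ μ' : Measure ℂ} {τ : Measure ℝ} [SFinite τ] (h : μ ≤ μ') :
    μ.prod τ ≤ μ'.prod τ := by
  refine Measure.le_iff.2 fun s hs => ?_
  rw [Measure.prod_apply hs, Measure.prod_apply hs]
  exact lintegral_mono' h le_rfl

theorem stmt_CYLI (hCYLM : Stmt_CYLM) : Stmt_CYLI := by
  obtain ⟨hc, hm⟩ := hCYLM
  intro ρ U h hρ hU hUρ hint
  set Φ : ℂ × ℝ → E3 := fun p : ℂ × ℝ => cyl p.1 p.2 with hΦ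
  set ν : Measure ℂ :=
    (volume.restrict {ζ : ℂ | 0 < ζ.re}).withDensity fun ζ => ENNReal.ofReal ζ.re with hν
  set τ : Measure ℝ := volume.restrict (Ioo (0 : ℝ) (2 * Real.pi)) with hτ
  set S : Set E3 := {X | hp X ∈ U} with hS
  have hSm : MeasurableSet S := CYLI_continuous_hp.measurable hU
  have hΦm : Measurable Φ := hc.measurable
  set κ : Measure (ℂ × ℝ) := (ν.prod τ).restrict (Φ ⁻¹' S) with hκ
  have hmap : (volume : Measure E3).restrict S = Measure.map Φ κ := by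
    rw [← hm, Measure.restrict_map hΦm hSm]
  -- the inequality of measures
  have hle : (volume : Measure (ℂ × ℝ)).restrict (U ×ˢ Ioc (0 : ℝ) (2 * Real.pi))
      ≤ ENNReal.ofReal ρ⁻¹ • κ := by
    have e1 : (volume : Measure (ℂ × ℝ)).restrict (U ×ˢ Ioc (0 : ℝ) (2 * Real.pi))
        = (volume.restrict U : Measure ℂ).prod τ := by
      rw [Measure.volume_eq_prod, ← Measure.prod_restrict, hτ,
        Measure.restrict_congr_set (Ioo_ae_eq_Ioc (μ := (volume : Measure ℝ)))]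
    rw [e1]
    refine (CYLI_prod_mono (CYLI_le ρ U hρ hU hUρ)).trans ?_
    rw [Measure.prod_smul_left]
    have e2 : (ν.restrict U).prod τ = (ν.prod τ).restrict (U ×ˢ univ) := by
      rw [← Measure.prod_restrict, Measure.restrict_univ]
    rw [← hν, e2]
    have e3 : (ν.prod τ).restrict (U ×ˢ univ) ≤ κ := by
      refine Measure.restrict_mono ?_ le_rfl
      rintro ⟨ζ, θ⟩ hp'
      have hζ : ζ ∈ U := hp'.1
      show hp (cyl ζ θ) ∈ U
      rw [CYLI_hp_cyl ζ θ (hρ.le.trans (hUρ ζ hζ))]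
      exact hζ
    refine Measure.le_iff.2 fun s hs => ?_
    rw [Measure.smul_apply, Measure.smul_apply]
    exact mul_le_mul_right (e3 s) _
  have hint' : Integrable h (Measure.map Φ κ) := by
    rw [← hmap]; exact hint
  have hcomp : Integrable (h ∘ Φ) κ :=
    (integrable_map_measure hint'.aestronglyMeasurable hΦm.aemeasurable).1 hint'
  have hcne : ENNReal.ofReal ρ⁻¹ ≠ ⊤ := ENNReal.ofReal_ne_top
  have hcs : Integrable (h ∘ Φ) (ENNReal.ofReal ρ⁻¹ • κ) := hcomp.smul_measure hcne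
  refine ⟨hcs.mono_measure hle, ?_⟩
  calc ∫ p in U ×ˢ Ioc (0 : ℝ) (2 * Real.pi), ‖h (cyl p.1 p.2)‖
      ≤ ∫ p, ‖(h ∘ Φ) p‖ ∂(ENNReal.ofReal ρ⁻¹ • κ) := by
        refine integral_mono_measure hle ?_ hcs.norm
        exact Eventually.of_forall fun p => norm_nonneg _
    _ = ρ⁻¹ * ∫ p, ‖(h ∘ Φ) p‖ ∂κ := by
        rw [integral_smul_measure, ENNReal.toReal_ofReal (by positivity), smul_eq_mul]
    _ = ρ⁻¹ * ∫ X in S, ‖h X‖ := by
        rw [hmap, integral_map hΦm.aemeasurable hint'.norm.aestronglyMeasurable]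
        rfl

end Pool.Mart
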