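import Pool.Agent.Work.MP_680515_an.IfaceW

/-!
# MP_680515_an: block CYLM (helper9)

Cylindrical coordinates as a statement on measures.
-/

open MeasureTheory Set Filter Topology Complex

namespace Pool.Mart

namespace CYLM_

theorem continuous_cyl : Continuous (fun p : ℂ × ℝ => cyl p.1 p.2) := by
  unfold cyl
  refine (PiLp.continuous_toLp 2 _).comp (continuous_pi ?_)
  intro i
  fin_cases i
  · exact (Complex.continuous_re.comp continuous_fst).mul
      (Real.continuous_cos.comp continuous_snd)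
  · exact (Complex.continuous_re.comp continuous_fst).mul
      (Real.continuous_sin.comp continuous_snd)
  · exact Complex.continuous_im.comp continuous_fst

/-- Cartesian coordinates -/
noncomputable def car (q : ℝ × (ℝ × ℝ)) : E3 := !₂[q.2.1, q.2.2, q.1]

theorem mp_car : MeasurePreserving car (volume : Measure (ℝ × (ℝ × ℝ))) (volume : Measure E3) := by
  have h1 : MeasurePreserving (MeasurableEquiv.finTwoArrow (α := ℝ)).symm :=
    (volume_preserving_finTwoArrow ℝ).symm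
  have h2 : MeasurePreserving (MeasurableEquiv.piFinSuccAbove (fun _ : Fin 3 => ℝ) 2).symm :=
    (volume_preserving_piFinSuccAbove (fun _ : Fin 3 => ℝ) 2).symm
  have h3 : MeasurePreserving (Prod.map (id : ℝ → ℝ) (MeasurableEquiv.finTwoArrow (α := ℝ)).symm)
      ((volume : Measure ℝ).prod (volume : Measure (ℝ × ℝ)))
      ((volume : Measure ℝ).prod (volume : Measure (Fin 2 → ℝ))) :=
    (MeasurePreserving.id _).prod h1
  have h4 : MeasurePreserving (WithLp.toLp 2 : (Fin 3 → ℝ) → E3) :=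
    PiLp.volume_preserving_toLp (Fin 3)
  have h5 := h4.comp (h2.comp h3)
  have h6 : car = (WithLp.toLp 2 : (Fin 3 → ℝ) → E3) ∘
      ((MeasurableEquiv.piFinSuccAbove (fun _ : Fin 3 => ℝ) 2).symm ∘
        (Prod.map (id : ℝ → ℝ) (MeasurableEquiv.finTwoArrow (α := ℝ)).symm)) := by
    funext q
    ext i
    fin_cases i <;> rfl
  rw [h6]
  exact h5

/-- change of the interval of angles -/
theorem shift (F : ℝ → ENNReal) (hF : ∀ θ, F (θ + 2 * Real.pi) = F θ) :
    ∫⁻ θ in Ioo (0 : ℝ) (2 * Real.pi), F θ = ∫⁻ θ in Ioo (-Real.pi) Real.pi, F θ := by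
  have hT : (0 : ℝ) < 2 * Real.pi := by positivity
  have hper : Function.Periodic F (2 * Real.pi) := hF
  have h1 := IsAddFundamentalDomain.setLIntegral_eq
    (isAddFundamentalDomain_Ioc hT 0 (volume : Measure ℝ))
    (isAddFundamentalDomain_Ioc hT (-Real.pi) (volume : Measure ℝ)) F (by
      rintro ⟨g, hg⟩ x
      obtain ⟨n, rfl⟩ := AddSubgroup.mem_zmultiples_iff.mp hg
      show F (n • (2 * Real.pi) + x) = F x
      rw [add_comm]
      exact hper.zsmul n x)
  have e1 : (0 : ℝ) + 2 * Real.pi = 2 * Real.pi := by ring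
  have e2 : -Real.pi + 2 * Real.pi = Real.pi := by ring
  rw [e1, e2] at h1
  rw [setLIntegral_congr (Ioo_ae_eq_Ioc (a := (0 : ℝ)) (b := 2 * Real.pi) (μ := volume)),
    setLIntegral_congr (Ioo_ae_eq_Ioc (a := -Real.pi) (b := Real.pi) (μ := volume))]
  exact h1

end CYLM_

open CYLM_ in
theorem stmt_CYLM : Stmt_CYLM := by
  refine ⟨continuous_cyl, ?_⟩
  refine Measure.ext_of_lintegral _ ?_
  intro f hf
  rw [lintegral_map hf continuous_cyl.measurable]
  have hm : Measurable (fun p : ℂ × ℝ => f (cyl p.1 p.2)) := hf.comp continuous_cyl.measurable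
  rw [lintegral_prod (fun p : ℂ × ℝ => f (cyl p.1 p.2)) hm.aemeasurable]
  have hΨ : Measurable (fun ζ : ℂ => ∫⁻ θ in Ioo (0 : ℝ) (2 * Real.pi), f (cyl ζ θ)) :=
    hm.lintegral_prod_right'
  have hre : Measurable (fun ζ : ℂ => ENNReal.ofReal ζ.re) :=
    Complex.measurable_re.ennreal_ofReal
  rw [lintegral_withDensity_eq_lintegral_mul _ hre hΨ]
  -- the right hand side
  have hfc : Measurable (fun q => f (car q)) := hf.comp mp_car.measurable
  have hR : ∫⁻ X : E3, f X = ∫⁻ z : ℝ, ∫⁻ p : ℝ × ℝ, f (car (z, p)) := by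
    rw [← mp_car.lintegral_comp hf]
    rw [Measure.volume_eq_prod, lintegral_prod _ hfc.aemeasurable]
  -- the left hand side in real coordinates
  have hS : MeasurableSet {ζ : ℂ | 0 < ζ.re} := measurableSet_lt measurable_const Complex.measurable_re
  have hmul : Measurable (fun ζ : ℂ => ENNReal.ofReal ζ.re *
      ∫⁻ θ in Ioo (0 : ℝ) (2 * Real.pi), f (cyl ζ θ)) := hre.mul hΨ
  have hL1 := (Complex.volume_preserving_equiv_real_prod.symm).setLIntegral_comp_preimage hS hmul
  have hpre : Complex.measurableEquivRealProd.symm ⁻¹' {ζ : ℂ | 0 < ζ.re}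
      = Ioi (0 : ℝ) ×ˢ (univ : Set ℝ) := by
    ext q
    simp [Complex.measurableEquivRealProd_symm_apply]
  rw [hpre] at hL1
  have hL2 : ∫⁻ ζ in {ζ : ℂ | 0 < ζ.re}, ((fun ζ : ℂ => ENNReal.ofReal ζ.re) *
      fun ζ : ℂ => ∫⁻ θ in Ioo (0 : ℝ) (2 * Real.pi), f (cyl ζ θ)) ζ
      = ∫⁻ q in Ioi (0 : ℝ) ×ˢ (univ : Set ℝ), ENNReal.ofReal q.1 *
        ∫⁻ θ in Ioo (0 : ℝ) (2 * Real.pi), f (cyl ⟨q.1, q.2⟩ θ) := hL1.symm
  rw [hL2, hR, Measure.volume_eq_prod, ← Measure.prod_restrict, Measure.restrict_univ]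
  have hcoord : Measurable (fun q : ℝ × ℝ => (⟨q.1, q.2⟩ : ℂ)) :=
    Complex.measurableEquivRealProd.symm.measurable
  have hmq : Measurable (fun q : ℝ × ℝ => ENNReal.ofReal q.1 *
        ∫⁻ θ in Ioo (0 : ℝ) (2 * Real.pi), f (cyl ⟨q.1, q.2⟩ θ)) :=
    hmul.comp hcoord
  rw [lintegral_prod_symm _ hmq.aemeasurable]
  refine lintegral_congr fun z => ?_
  have hpol := lintegral_comp_polarCoord_symm (fun p : ℝ × ℝ => f (car (z, p)))
  rw [← Measure.volume_eq_prod, ← hpol, polarCoord_target, Measure.volume_eq_prod,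
    ← Measure.prod_restrict]
  have hmp : Measurable (fun p : ℝ × ℝ => ENNReal.ofReal p.1 •
      f (car (z, polarCoord.symm p))) := by
    have h1 : Measurable (fun p : ℝ × ℝ => car (z, polarCoord.symm p)) := by
      have h2 : Measurable (fun p : ℝ × ℝ => (z, (p.1 * Real.cos p.2, p.1 * Real.sin p.2))) := by
        fun_prop
      exact mp_car.measurable.comp h2
    exact (measurable_fst.ennreal_ofReal).mul (hf.comp h1)
  rw [lintegral_prod _ hmp.aemeasurable]
  refine lintegral_congr fun r => ?_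
  have hper : ∀ θ : ℝ, f (cyl ⟨r, z⟩ (θ + 2 * Real.pi)) = f (cyl ⟨r, z⟩ θ) := by
    intro θ
    unfold cyl
    rw [Real.cos_add_two_pi, Real.sin_add_two_pi]
  have hsh := shift (fun θ => f (cyl ⟨r, z⟩ θ)) hper
  show ENNReal.ofReal r * ∫⁻ θ in Ioo (0 : ℝ) (2 * Real.pi), f (cyl ⟨r, z⟩ θ)
    = ∫⁻ θ in Ioo (-Real.pi) Real.pi, ENNReal.ofReal r * f (cyl ⟨r, z⟩ θ)
  have hmθ : Measurable (fun θ : ℝ => f (cyl ⟨r, z⟩ θ)) :=
    hm.comp (measurable_const.prodMk measurable_id)
  rw [lintegral_const_mul _ hmθ, hsh]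

end Pool.Mart
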