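import Pool.Agent.Work.MP_680515_an.IfaceW

/-!
# MP_680515_an: block WDBS (weak Cauchy-Riemann inequality for the modes of a smooth map)
-/

open MeasureTheory Set Filter Topology Complex

namespace Pool.Mart

namespace WDBS_

theorem cont_rad : Continuous rad := by
  unfold rad
  exact Real.continuous_sqrt.comp (by fun_prop)

theorem contOn_er : ContinuousOn er {X | 0 < rad X} := by
  unfold er
  have h0 : ContinuousOn (fun X : E3 => X 0 / rad X) {X | 0 < rad X} :=
    ContinuousOn.div (by fun_prop) cont_rad.continuousOn (fun x hx => ne_of_gt hx)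
  have h1 : ContinuousOn (fun X : E3 => X 1 / rad X) {X | 0 < rad X} :=
    ContinuousOn.div (by fun_prop) cont_rad.continuousOn (fun x hx => ne_of_gt hx)
  refine (PiLp.continuous_toLp 2 _).comp_continuousOn (continuousOn_pi.2 ?_)
  intro i
  fin_cases i
  · exact h0
  · exact h1
  · exact continuousOn_const

theorem contOn_et : ContinuousOn et {X | 0 < rad X} := by
  unfold et
  have h0 : ContinuousOn (fun X : E3 => X 0 / rad X) {X | 0 < rad X} :=
    ContinuousOn.div (by fun_prop) cont_rad.continuousOn (fun x hx => ne_of_gt hx)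
  have h1 : ContinuousOn (fun X : E3 => -(X 1) / rad X) {X | 0 < rad X} :=
    ContinuousOn.div (by fun_prop) cont_rad.continuousOn (fun x hx => ne_of_gt hx)
  refine (PiLp.continuous_toLp 2 _).comp_continuousOn (continuousOn_pi.2 ?_)
  intro i
  fin_cases i
  · exact h1
  · exact h0
  · exact continuousOn_const

theorem cont_jac {g : E3 → E3} (hg : ContDiff ℝ (⊤ : ℕ∞) g) : Continuous (jac g) := by
  unfold jac
  refine continuous_matrix fun i j => ?_
  have h : Continuous (fun x => fderiv ℝ g x) :=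
    hg.continuous_fderiv (by simp)
  have h2 : Continuous (fun x => fderiv ℝ g x (EuclideanSpace.single j 1)) :=
    h.clm_apply continuous_const
  exact (PiLp.continuous_apply 2 _ i).comp h2

theorem cont_act : Continuous (fun p : M3 × E3 => act p.1 p.2) := by
  unfold act
  refine (PiLp.continuous_toLp 2 _).comp ?_
  exact continuous_fst.matrix_mulVec ((PiLp.continuous_ofLp 2 _).comp continuous_snd)

theorem contOn_gr {g : E3 → E3} (hg : ContDiff ℝ (⊤ : ℕ∞) g) :
    ContinuousOn (fun X => gr (jac g X) X (g X)) {X | 0 < rad X ∧ 0 < rad (g X)} := by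
  have he : ContinuousOn er {X | 0 < rad X ∧ 0 < rad (g X)} := contOn_er.mono fun X h => h.1
  have he' : ContinuousOn (fun X => er (g X)) {X | 0 < rad X ∧ 0 < rad (g X)} :=
    contOn_er.comp hg.continuous.continuousOn fun X h => h.2
  have ha : ContinuousOn (fun X => act (jac g X) (er X)) {X | 0 < rad X ∧ 0 < rad (g X)} :=
    cont_act.comp_continuousOn ((cont_jac hg).continuousOn.prodMk he)
  unfold gr
  refine ContinuousOn.add ?_ ?_
  · exact Complex.continuous_ofReal.comp_continuousOn ((he'.inner ha).sub continuousOn_const)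
  · exact (Complex.continuous_ofReal.comp_continuousOn (continuousOn_const.inner ha)).mul
      continuousOn_const

theorem contOn_gz {g : E3 → E3} (hg : ContDiff ℝ (⊤ : ℕ∞) g) :
    ContinuousOn (fun X => gz (jac g X) X (g X)) {X | 0 < rad X ∧ 0 < rad (g X)} := by
  have he' : ContinuousOn (fun X => er (g X)) {X | 0 < rad X ∧ 0 < rad (g X)} :=
    contOn_er.comp hg.continuous.continuousOn fun X h => h.2
  have ha : ContinuousOn (fun X => act (jac g X) e3) {X | 0 < rad X ∧ 0 < rad (g X)} :=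
    cont_act.comp_continuousOn ((cont_jac hg).continuousOn.prodMk continuousOn_const)
  unfold gz
  refine ContinuousOn.add ?_ ?_
  · exact Complex.continuous_ofReal.comp_continuousOn (he'.inner ha)
  · exact (Complex.continuous_ofReal.comp_continuousOn
      ((continuousOn_const.inner ha).sub continuousOn_const)).mul continuousOn_const

theorem contOn_gt {g : E3 → E3} (hg : ContDiff ℝ (⊤ : ℕ∞) g) :
    ContinuousOn (fun X => gt (jac g X) X (g X)) {X | 0 < rad X ∧ 0 < rad (g X)} := by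
  have he : ContinuousOn et {X | 0 < rad X ∧ 0 < rad (g X)} := contOn_et.mono fun X h => h.1
  have he' : ContinuousOn (fun X => er (g X)) {X | 0 < rad X ∧ 0 < rad (g X)} :=
    contOn_er.comp hg.continuous.continuousOn fun X h => h.2
  have ha : ContinuousOn (fun X => act (jac g X) (et X)) {X | 0 < rad X ∧ 0 < rad (g X)} :=
    cont_act.comp_continuousOn ((cont_jac hg).continuousOn.prodMk he)
  unfold gt
  refine ContinuousOn.add ?_ ?_
  · exact Complex.continuous_ofReal.comp_continuousOn (he'.inner ha)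
  · exact (Complex.continuous_ofReal.comp_continuousOn (continuousOn_const.inner ha)).mul
      continuousOn_const

theorem cont_gg {g : E3 → E3} (hg : Continuous g) : Continuous (fun X => gg X (g X)) := by
  unfold gg
  have h1 : Continuous (fun X => rad (g X) - rad X) := (cont_rad.comp hg).sub cont_rad
  have h2 : Continuous (fun X : E3 => (g X) 2 - X 2) := by
    have : Continuous (fun X : E3 => X 2) := PiLp.continuous_apply 2 _ 2
    exact (this.comp hg).sub this
  exact (Complex.continuous_ofReal.comp h1).add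
    ((Complex.continuous_ofReal.comp h2).mul continuous_const)

theorem cont_cyl : Continuous (fun p : ℂ × ℝ => cyl p.1 p.2) := by
  unfold cyl
  refine (PiLp.continuous_toLp 2 _).comp (continuous_pi ?_)
  intro i
  fin_cases i
  · show Continuous fun p : ℂ × ℝ => p.1.re * Real.cos p.2
    fun_prop
  · show Continuous fun p : ℂ × ℝ => p.1.re * Real.sin p.2
    fun_prop
  · show Continuous fun p : ℂ × ℝ => p.1.im
    fun_prop

theorem rad_cyl (ζ : ℂ) (θ : ℝ) (h : 0 ≤ ζ.re) : rad (cyl ζ θ) = ζ.re := by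
  unfold rad cyl
  have : (ζ.re * Real.cos θ) ^ 2 + (ζ.re * Real.sin θ) ^ 2 = ζ.re ^ 2 := by
    have := Real.cos_sq_add_sin_sq θ
    nlinarith
  simp only [PiLp.toLp_apply, Matrix.cons_val_zero, Matrix.cons_val_one]
  rw [this, Real.sqrt_sq h]

theorem hp_cyl (ζ : ℂ) (θ : ℝ) (h : 0 ≤ ζ.re) : hp (cyl ζ θ) = ζ := by
  unfold hp
  rw [rad_cyl ζ θ h]
  apply Complex.ext
  · rfl
  · simp [cyl]

theorem cont_hp : Continuous hp := by
  have : hp = fun X : E3 => ((rad X : ℝ) : ℂ) + ((X 2 : ℝ) : ℂ) * I := by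
    funext X
    apply Complex.ext <;> simp [hp]
  rw [this]
  have h2 : Continuous (fun X : E3 => X 2) := PiLp.continuous_apply 2 _ 2
  exact (Complex.continuous_ofReal.comp cont_rad).add
    ((Complex.continuous_ofReal.comp h2).mul continuous_const)

theorem norm_hp (X : E3) : ‖hp X‖ = ‖X‖ := by
  rw [EuclideanSpace.norm_eq, Complex.norm_def, Complex.normSq_apply]
  congr 1
  simp only [hp, Fin.sum_univ_three, Real.norm_eq_abs, sq_abs, rad]
  have : 0 ≤ X 0 ^ 2 + X 1 ^ 2 := by positivity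
  rw [Real.mul_self_sqrt this]
  ring

theorem cont_kap (k : Fin 5) : Continuous (fun θ : ℝ => kap k θ) := by
  fin_cases k
  · show Continuous fun θ : ℝ => (1 : ℝ)
    fun_prop
  · show Continuous fun θ : ℝ => Real.cos θ
    fun_prop
  · show Continuous fun θ : ℝ => Real.sin θ
    fun_prop
  · show Continuous fun θ : ℝ => Real.cos (2 * θ)
    fun_prop
  · show Continuous fun θ : ℝ => Real.sin (2 * θ)
    fun_prop

theorem kap_le (k : Fin 5) (θ : ℝ) : |kap k θ| ≤ 1 := by
  fin_cases k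
  · show |(1 : ℝ)| ≤ 1
    simp
  · exact Real.abs_cos_le_one _
  · exact Real.abs_sin_le_one _
  · exact Real.abs_cos_le_one _
  · exact Real.abs_sin_le_one _

theorem norm_cst (k : Fin 5) : ‖cst k‖ = 1 := by
  fin_cases k <;> simp [cst]

theorem cont_dbar {ψ : ℂ → ℂ} (hψ : ContDiff ℝ (⊤ : ℕ∞) ψ) : Continuous (dbar ψ) := by
  unfold dbar
  have h : Continuous (fun x => fderiv ℝ ψ x) := hψ.continuous_fderiv (by simp)
  have h1 : Continuous (fun x => fderiv ℝ ψ x 1) := h.clm_apply continuous_const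
  have h2 : Continuous (fun x => fderiv ℝ ψ x I) := h.clm_apply continuous_const
  exact continuous_const.mul (h1.add (continuous_const.mul h2))

theorem dbar_zero {ψ : ℂ → ℂ} {ζ : ℂ} (h : ζ ∉ tsupport ψ) : dbar ψ ζ = 0 := by
  have : fderiv ℝ ψ ζ = 0 := by
    by_contra hne
    exact h (support_fderiv_subset ℝ hne)
  simp [dbar, this]

end WDBS_

open WDBS_ in
theorem stmt_WDBS (hIBP2 : Stmt_IBP2) (hGDN : Stmt_GDN) (hCYLI : Stmt_CYLI) : Stmt_WDBS := by
  intro ρ B g ψ k hρ hg hψ hcs hts hB hrad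
  set T : Set ℂ := tsupport ψ with hT
  have hTc : IsCompact T := hcs
  have hTm : MeasurableSet T := hTc.isClosed.measurableSet
  have hB0 : 0 ≤ B := le_trans (norm_nonneg _) (hB 0)
  set K : Set ℝ := Ioc (0 : ℝ) (2 * Real.pi) with hK
  have hKm : MeasurableSet K := measurableSet_Ioc
  set G : E3 → ℂ := fun X => gg X (g X) with hG
  set h : E3 → ℂ := fun X => gr (jac g X) X (g X) + I * gz (jac g X) X (g X) with hh
  have hGc : Continuous G := cont_gg hg.continuous
  have hTre : ∀ ζ ∈ T, ρ < ζ.re := fun ζ hζ => (hts hζ).1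
  have hDc : IsCompact {X : E3 | hp X ∈ T} := by
    refine Metric.isCompact_of_isClosed_isBounded (hTc.isClosed.preimage cont_hp) ?_
    refine (Metric.isBounded_ball (x := (0 : E3)) (r := 20)).subset ?_
    intro X hX
    have := (hts hX).2
    rw [norm_hp] at this
    simpa using this
  have hDsub : {X : E3 | hp X ∈ T} ⊆ {X | 0 < rad X ∧ 0 < rad (g X)} := by
    intro X hX
    exact ⟨lt_trans hρ (hTre _ hX), hrad X hX⟩
  have hhc : ContinuousOn h {X | 0 < rad X ∧ 0 < rad (g X)} :=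
    (contOn_gr hg).add (continuousOn_const.mul (contOn_gz hg))
  have hint : IntegrableOn h {X | hp X ∈ T} := (hhc.mono hDsub).integrableOn_compact hDc
  obtain ⟨hI1, hI2⟩ := hCYLI ρ T h hρ hTm (fun ζ hζ => (hTre ζ hζ).le) hint
  -- the product measure
  have hprod : (volume : Measure (ℂ × ℝ)).restrict (T ×ˢ K)
      = (volume.restrict T).prod (volume.restrict K) := by
    rw [Measure.prod_restrict]; rfl
  -- the function
  set f : ℂ → ℝ → ℂ := fun ζ θ => (kap k θ : ℂ) * G (cyl ζ θ) * dbar ψ ζ with hf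
  have hfc : Continuous (Function.uncurry f) := by
    have h1 : Continuous fun p : ℂ × ℝ => (kap k p.2 : ℂ) :=
      Complex.continuous_ofReal.comp ((cont_kap k).comp continuous_snd)
    have h2 : Continuous fun p : ℂ × ℝ => G (cyl p.1 p.2) := hGc.comp cont_cyl
    have h3 : Continuous fun p : ℂ × ℝ => dbar ψ p.1 := (cont_dbar hψ).comp continuous_fst
    exact (h1.mul h2).mul h3
  have hf0 : ∀ ζ θ, ζ ∉ T → f ζ θ = 0 := by
    intro ζ θ hζ
    simp [hf, dbar_zero hζ]
  have hfint : Integrable (Function.uncurry f) ((volume : Measure ℂ).prod (volume.restrict K)) := by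
    have h1 : IntegrableOn (Function.uncurry f) (T ×ˢ Icc (0 : ℝ) (2 * Real.pi))
        (volume : Measure (ℂ × ℝ)) :=
      hfc.continuousOn.integrableOn_compact (hTc.prod isCompact_Icc)
    have h2 : IntegrableOn (Function.uncurry f) (T ×ˢ K) (volume : Measure (ℂ × ℝ)) :=
      h1.mono_set (prod_mono le_rfl Ioc_subset_Icc_self)
    have h3 : IntegrableOn (Function.uncurry f) (univ ×ˢ K) (volume : Measure (ℂ × ℝ)) := by
      refine h2.of_forall_diff_eq_zero (MeasurableSet.univ.prod hKm) ?_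
      rintro ⟨ζ, θ⟩ ⟨⟨-, hθ⟩, hn⟩
      apply hf0
      intro hζ
      exact hn ⟨hζ, hθ⟩
    have h4 : (volume : Measure (ℂ × ℝ)).restrict (univ ×ˢ K)
        = (volume : Measure ℂ).prod (volume.restrict K) := by
      have := Measure.prod_restrict (μ := (volume : Measure ℂ)) (ν := (volume : Measure ℝ)) univ K
      rw [Measure.restrict_univ] at this
      rw [this]; rfl
    rw [← h4]
    exact h3
  -- rewrite the modes
  have hmodes : ∫ ζ, modes G ζ k * dbar ψ ζ
      = cst k * (((2 * Real.pi)⁻¹ : ℝ) : ℂ) * ∫ ζ, ∫ θ in K, f ζ θ := by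
    rw [← integral_const_mul]
    refine integral_congr_ae (Eventually.of_forall fun ζ => ?_)
    have h1 : modes G ζ k = cst k * (((2 * Real.pi)⁻¹ : ℝ) : ℂ) *
        ∫ θ in (0 : ℝ)..(2 * Real.pi), (kap k θ : ℂ) * G (cyl ζ θ) := rfl
    have h2 : ∫ θ in K, f ζ θ = (∫ θ in K, (kap k θ : ℂ) * G (cyl ζ θ)) * dbar ψ ζ := by
      rw [← integral_mul_const]
    show modes G ζ k * dbar ψ ζ = cst k * (((2 * Real.pi)⁻¹ : ℝ) : ℂ) * ∫ θ in K, f ζ θ
    rw [h1, h2, intervalIntegral.integral_of_le (by positivity)]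
    ring
  have hswap : ∫ ζ, ∫ θ in K, f ζ θ = ∫ θ in K, ∫ ζ, f ζ θ := integral_integral_swap hfint
  -- for every angle
  have hangle : ∀ θ : ℝ, ‖∫ ζ, f ζ θ‖ ≤ ∫ ζ in T, (B / 2) * ‖h (cyl ζ θ)‖ := by
    intro θ
    set U : Set ℂ := {ζ | 0 < ζ.re ∧ 0 < rad (g (cyl ζ θ))} with hU
    have hcθ : Continuous fun ζ : ℂ => cyl ζ θ :=
      cont_cyl.comp (continuous_id.prodMk continuous_const)
    have hUo : IsOpen U := by
      refine IsOpen.inter ?_ ?_
      · exact isOpen_lt continuous_const Complex.continuous_re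
      · exact isOpen_lt continuous_const (cont_rad.comp (hg.continuous.comp hcθ))
    have hTU : T ⊆ U := by
      intro ζ hζ
      have h1 : 0 < ζ.re := lt_trans hρ (hTre ζ hζ)
      refine ⟨h1, hrad _ ?_⟩
      rw [hp_cyl ζ θ h1.le]
      exact hζ
    have hGU : ContDiffOn ℝ 1 (fun w => G (cyl w θ)) U := by
      intro ζ hζ
      exact ((hGDN.2 g ζ θ hg hζ.1 hζ.2).1).contDiffWithinAt
    have hdb : ∀ ζ ∈ U, dbar (fun w => G (cyl w θ)) ζ = (1 / 2) * h (cyl ζ θ) := by
      intro ζ hζ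
      exact (hGDN.2 g ζ θ hg hζ.1 hζ.2).2
    have hibp := hIBP2 U (fun w => G (cyl w θ)) ψ hUo hGU hψ hcs hTU
    have h1 : ∫ ζ, f ζ θ = (kap k θ : ℂ) * ∫ ζ, G (cyl ζ θ) * dbar ψ ζ := by
      rw [← integral_const_mul]
      refine integral_congr_ae (Eventually.of_forall fun ζ => ?_)
      simp only [hf]
      ring
    have h2 : ∫ ζ, dbar (fun w => G (cyl w θ)) ζ * ψ ζ
        = ∫ ζ in T, (1 / 2) * h (cyl ζ θ) * ψ ζ := by
      rw [← setIntegral_eq_integral_of_forall_compl_eq_zero (s := T)]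
      · refine setIntegral_congr_fun hTm ?_
        intro ζ hζ
        simp only [hdb ζ (hTU hζ)]
      · intro ζ hζ
        have : ψ ζ = 0 := image_eq_zero_of_notMem_tsupport hζ
        rw [this, mul_zero]
    have hcon : ContinuousOn (fun ζ : ℂ => h (cyl ζ θ)) T := by
      refine hhc.comp hcθ.continuousOn ?_
      intro ζ hζ
      have h3 := hTU hζ
      refine ⟨?_, h3.2⟩
      rw [rad_cyl ζ θ h3.1.le]
      exact h3.1
    have h4 : ‖∫ ζ in T, (1 / 2) * h (cyl ζ θ) * ψ ζ‖ ≤ ∫ ζ in T, (B / 2) * ‖h (cyl ζ θ)‖ := by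
      refine norm_integral_le_of_norm_le ?_ ?_
      · exact (continuousOn_const.mul hcon.norm).integrableOn_compact hTc
      · refine Eventually.of_forall fun ζ => ?_
        rw [norm_mul, norm_mul]
        have h5 : ‖(1 / 2 : ℂ)‖ = 1 / 2 := by simp
        rw [h5]
        have h6 := hB ζ
        have h7 := norm_nonneg (h (cyl ζ θ))
        nlinarith
    rw [h1, hibp, h2, norm_mul, norm_neg]
    have h8 : ‖(kap k θ : ℂ)‖ ≤ 1 := by
      rw [Complex.norm_real, Real.norm_eq_abs]
      exact kap_le k θ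
    calc ‖(kap k θ : ℂ)‖ * ‖∫ ζ in T, (1 / 2) * h (cyl ζ θ) * ψ ζ‖
        ≤ 1 * ‖∫ ζ in T, (1 / 2) * h (cyl ζ θ) * ψ ζ‖ :=
          mul_le_mul_of_nonneg_right h8 (norm_nonneg _)
      _ ≤ _ := by rw [one_mul]; exact h4
  -- put together
  have hI1' : Integrable (fun p : ℂ × ℝ => ‖h (cyl p.1 p.2)‖)
      ((volume.restrict T).prod (volume.restrict K)) := by
    rw [← hprod]
    exact hI1.norm
  have hfin : ‖∫ θ in K, ∫ ζ, f ζ θ‖ ≤ (B / 2) * ∫ p in T ×ˢ K, ‖h (cyl p.1 p.2)‖ := by
    have h1 : ‖∫ θ in K, ∫ ζ, f ζ θ‖ ≤ ∫ θ in K, ∫ ζ in T, (B / 2) * ‖h (cyl ζ θ)‖ := by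
      refine norm_integral_le_of_norm_le ?_ (Eventually.of_forall hangle)
      exact (hI1'.const_mul (B / 2)).integral_prod_right
    refine h1.trans (le_of_eq ?_)
    rw [hprod, integral_prod_symm _ hI1', ← integral_const_mul]
    refine integral_congr_ae (Eventually.of_forall fun θ => ?_)
    exact integral_const_mul _ _
  show ‖∫ ζ, modes G ζ k * dbar ψ ζ‖ ≤ _
  rw [hmodes, hswap, norm_mul, norm_mul, norm_cst, one_mul, Complex.norm_real, Real.norm_eq_abs]
  have hJ : 0 ≤ ∫ X in {X | hp X ∈ T}, ‖h X‖ := integral_nonneg fun _ => norm_nonneg _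
  have hpi : |(2 * Real.pi)⁻¹| ≤ 1 := by
    rw [abs_of_pos (by positivity)]
    apply inv_le_one_of_one_le₀
    nlinarith [Real.pi_gt_three]
  calc |(2 * Real.pi)⁻¹| * ‖∫ θ in K, ∫ ζ, f ζ θ‖
      ≤ 1 * ‖∫ θ in K, ∫ ζ, f ζ θ‖ := mul_le_mul_of_nonneg_right hpi (norm_nonneg _)
    _ ≤ (B / 2) * ∫ p in T ×ˢ K, ‖h (cyl p.1 p.2)‖ := by rw [one_mul]; exact hfin
    _ ≤ (B / 2) * (ρ⁻¹ * ∫ X in {X | hp X ∈ T}, ‖h X‖) :=
        mul_le_mul_of_nonneg_left hI2 (by positivity)
    _ ≤ ρ⁻¹ * B * ∫ X in {X | hp X ∈ T}, ‖h X‖ := by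
        have h1 : 0 ≤ ρ⁻¹ * B * ∫ X in {X | hp X ∈ T}, ‖h X‖ := by positivity
        nlinarith

end Pool.Mart
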