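import Pool.Agent.Work.MP_680515_an.B.VCO
import Pool.Agent.Work.MP_680515_an.B.WDBS

/-!
# MP_680515_an, block DISP: displacement inequality for normalised maps
-/

open MeasureTheory Set Filter Topology Complex

namespace Pool.Mart

namespace DISP_

open VCO_

theorem isCompact_KR (ρ R : ℝ) : IsCompact (KR ρ R) := by
  refine Metric.isCompact_of_isClosed_isBounded ?_ ?_
  · exact (isClosed_le continuous_const VCO_.cont_rad).inter
      (isClosed_le continuous_norm continuous_const)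
  · exact (Metric.isBounded_closedBall (x := (0 : E3)) (r := R)).subset fun X hX => by
      simpa using hX.2

theorem CY_open : IsOpen CY := by
  have h2 : Continuous (fun Y : E3 => |Y 2|) := by fun_prop
  exact (isOpen_lt continuous_const VCO_.cont_rad).inter
    ((isOpen_lt VCO_.cont_rad continuous_const).inter (isOpen_lt h2 continuous_const))

theorem norm_sq (Y : E3) : ‖Y‖ ^ 2 = rad Y ^ 2 + (Y 2) ^ 2 := by
  rw [EuclideanSpace.norm_sq_eq, Fin.sum_univ_three]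
  unfold rad
  rw [Real.sq_sqrt (by positivity)]
  simp only [Real.norm_eq_abs, sq_abs]

theorem rad_nonneg (Y : E3) : 0 ≤ rad Y := Real.sqrt_nonneg _

theorem CY_norm {Y : E3} (hY : Y ∈ CY) : ‖Y‖ ≤ 23 := by
  obtain ⟨h1, h2, h3⟩ := hY
  have h := norm_sq Y
  have h4 : (Y 2) ^ 2 ≤ 16 ^ 2 := by
    rw [← sq_abs (Y 2)]
    gcongr
  have h5 : rad Y ^ 2 ≤ 16 ^ 2 := by
    have := rad_nonneg Y
    gcongr
  nlinarith [norm_nonneg Y]

theorem act_rotz (α : ℝ) (Y : E3) : act (rotz α) Y =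
    !₂[Real.cos α * Y 0 - Real.sin α * Y 1, Real.sin α * Y 0 + Real.cos α * Y 1, Y 2] := by
  unfold act rotz
  ext i
  fin_cases i <;> simp [Matrix.mulVec, dotProduct, Fin.sum_univ_three]
  ring

theorem rad_rot (z0 lam α : ℝ) (hl : 0 ≤ lam) (Y : E3) :
    rad (z0 • e3 + lam • act (rotz α) Y) = lam * rad Y := by
  rw [act_rotz]
  unfold rad e3
  rw [← Real.sqrt_sq hl, ← Real.sqrt_mul (sq_nonneg _), Real.sqrt_sq hl]
  congr 1
  simp
  have := Real.sin_sq_add_cos_sq α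
  linear_combination lam ^ 2 * (Y 0 ^ 2 + Y 1 ^ 2) * this

theorem norm_rot (α : ℝ) (Y : E3) : ‖act (rotz α) Y‖ = ‖Y‖ := by
  have h1 := norm_sq (act (rotz α) Y)
  have h2 := norm_sq Y
  have h3 := rad_rot 0 1 α zero_le_one Y
  have h4 : act (rotz α) Y 2 = Y 2 := by rw [act_rotz]; simp
  simp at h3
  rw [h3, h4, ← h2] at h1
  exact (sq_eq_sq₀ (norm_nonneg _) (norm_nonneg _)).1 h1

theorem norm_e3 : ‖(e3 : E3)‖ = 1 := by
  unfold e3; simp

theorem mem_KR {lm lam m z0 α : ℝ} {S : M3} {x0 : E3} (h0 : 0 < lm) (h1 : lm ≤ lam)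
    (h2 : lam ≤ 7 / 10) (_ : 0 ≤ m) (hm : m ≤ 1 / 1000) (hz : |z0| ≤ 9)
    (hx : ‖x0 - z0 • e3‖ ≤ m * lam) (hS : ∀ Y : E3, ‖act S Y - act (rotz α) Y‖ ≤ m * ‖Y‖)
    {Y : E3} (hY : Y ∈ CY) :
    x0 + lam • act S Y ∈ KR (lm / 64) 40 ∧ z0 • e3 + lam • act (rotz α) Y ∈ KR (lm / 64) 40 := by
  have hl : 0 < lam := h0.trans_le h1
  have hn := CY_norm hY
  have hr := hY.1
  have e1 := rad_rot z0 lam α hl.le Y
  have e2 : ‖z0 • e3 + lam • act (rotz α) Y‖ ≤ 9 + lam * 23 := by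
    refine (norm_add_le _ _).trans ?_
    rw [norm_smul, norm_smul, norm_e3, norm_rot, Real.norm_eq_abs, Real.norm_eq_abs, abs_of_pos hl]
    have : lam * ‖Y‖ ≤ lam * 23 := by gcongr
    linarith
  have e3' : ‖(x0 + lam • act S Y) - (z0 • e3 + lam • act (rotz α) Y)‖ ≤ lam * (24 / 1000) := by
    have : (x0 + lam • act S Y) - (z0 • e3 + lam • act (rotz α) Y)
        = (x0 - z0 • e3) + lam • (act S Y - act (rotz α) Y) := by
      rw [smul_sub]; abel
    rw [this]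
    refine (norm_add_le _ _).trans ?_
    rw [norm_smul, Real.norm_eq_abs, abs_of_pos hl]
    have h5 : ‖act S Y - act (rotz α) Y‖ ≤ 1 / 1000 * 23 := by
      refine (hS Y).trans ?_
      gcongr
    have h6 : m * lam ≤ 1 / 1000 * lam := by gcongr
    have h7 : lam * ‖act S Y - act (rotz α) Y‖ ≤ lam * (1 / 1000 * 23) := by gcongr
    linarith
  have hlr : lam * (1 / 16) ≤ lam * rad Y := by gcongr
  refine ⟨⟨?_, ?_⟩, ⟨?_, ?_⟩⟩
  · have h8 := (abs_le.1 (rad_lip (x0 + lam • act S Y) (z0 • e3 + lam • act (rotz α) Y))).1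
    rw [e1] at h8
    linarith
  · have h9 : ‖x0 + lam • act S Y‖ ≤ ‖(x0 + lam • act S Y) - (z0 • e3 + lam • act (rotz α) Y)‖
        + ‖z0 • e3 + lam • act (rotz α) Y‖ := by
      have := norm_add_le ((x0 + lam • act S Y) - (z0 • e3 + lam • act (rotz α) Y))
        (z0 • e3 + lam • act (rotz α) Y)
      rwa [sub_add_cancel] at this
    linarith
  · rw [e1]; linarith
  · linarith

theorem cont_act (S : M3) : Continuous (act S) :=
  WDBS_.cont_act.comp (continuous_const.prodMk continuous_id)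

theorem CY_fin : (volume : Measure E3) CY < ⊤ := by
  refine lt_of_le_of_lt (measure_mono (t := Metric.closedBall (0 : E3) 23) fun Y hY => ?_)
    measure_closedBall_lt_top
  simpa using CY_norm hY

theorem int_CY {f : E3 → ℂ} (hf : ContinuousOn f CY) {M : ℝ} (hM : ∀ Y ∈ CY, ‖f Y‖ ≤ M) :
    IntegrableOn f CY := by
  refine IntegrableOn.of_bound CY_fin (hf.aestronglyMeasurable CY_open.measurableSet) M ?_
  exact (ae_restrict_iff' CY_open.measurableSet).2 (Eventually.of_forall hM)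

theorem RG_sub (ρ : ℝ) : RG ρ ⊆ KR ρ 40 := fun X hX => ⟨hX.1.le, by linarith [hX.2]⟩

theorem RG_meas (ρ : ℝ) : MeasurableSet (RG ρ) :=
  ((isOpen_lt continuous_const VCO_.cont_rad).inter
    (isOpen_lt continuous_norm continuous_const)).measurableSet

/-- one component of the comparison of the gradients -/
theorem comp_le {ρ : ℝ} {u v : E3 → ℂ} (hu : IntegrableOn u (KR ρ 40))
    (hv : IntegrableOn v (KR ρ 40)) :
    ∫ X in RG ρ, ‖u X‖ ≤ (∫ X in RG ρ, ‖v X‖) + ∫ X in KR ρ 40, ‖u X - v X‖ := by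
  have hw : IntegrableOn (fun X => ‖u X - v X‖) (KR ρ 40) := (hu.sub hv).norm
  have hw' : IntegrableOn (fun X => ‖u X - v X‖) (RG ρ) := hw.mono_set (RG_sub ρ)
  have hv' : IntegrableOn (fun X => ‖v X‖) (RG ρ) := (hv.mono_set (RG_sub ρ)).norm
  have h1 : ∫ X in RG ρ, ‖u X‖ ≤ ∫ X in RG ρ, (‖v X‖ + ‖u X - v X‖) := by
    refine setIntegral_mono_on (hu.mono_set (RG_sub ρ)).norm (hv'.add hw') (RG_meas ρ)
      fun X _ => ?_
    have := norm_add_le (v X) (u X - v X)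
    rwa [add_sub_cancel] at this
  rw [integral_add hv' hw'] at h1
  refine h1.trans ?_
  gcongr ?_ + ?_
  · exact le_rfl
  · exact setIntegral_mono_set hw (Eventually.of_forall fun X => norm_nonneg _)
      (RG_sub ρ).eventuallyLE

/-- sums of three norms -/
theorem int3 {ρ : ℝ} {u v w : E3 → ℂ} (hu : IntegrableOn u (KR ρ 40))
    (hv : IntegrableOn v (KR ρ 40)) (hw : IntegrableOn w (KR ρ 40)) :
    ∫ X in RG ρ, (‖u X‖ + ‖v X‖ + ‖w X‖)
      = (∫ X in RG ρ, ‖u X‖) + (∫ X in RG ρ, ‖v X‖) + ∫ X in RG ρ, ‖w X‖ := by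
  have hu' : IntegrableOn (fun X => ‖u X‖) (RG ρ) := (hu.mono_set (RG_sub ρ)).norm
  have hv' : IntegrableOn (fun X => ‖v X‖) (RG ρ) := (hv.mono_set (RG_sub ρ)).norm
  have hw' : IntegrableOn (fun X => ‖w X‖) (RG ρ) := (hw.mono_set (RG_sub ρ)).norm
  have huv : IntegrableOn (fun X => ‖u X‖ + ‖v X‖) (RG ρ) := hu'.add hv'
  rw [integral_add huv hw', integral_add hu' hv']

/-- comparison of the gradients -/
theorem grad_le {ρ : ℝ} (hρ : 0 < ρ) {g F : E3 → E3} {A : E3 → M3}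
    (hgs : ContDiff ℝ (⊤ : ℕ∞) g) (hgr : ∀ X ∈ KR ρ 40, ρ / 2 ≤ rad (g X))
    (ir : IntegrableOn (fun X => gr (A X) X (F X)) (KR ρ 40))
    (iz : IntegrableOn (fun X => gz (A X) X (F X)) (KR ρ 40))
    (it : IntegrableOn (fun X => gt (A X) X (F X)) (KR ρ 40)) :
    ∫ X in RG ρ, grd g (jac g) X ≤ (∫ X in RG ρ, grd F A X)
        + ((∫ X in KR ρ 40, ‖gr (jac g X) X (g X) - gr (A X) X (F X)‖)
        + (∫ X in KR ρ 40, ‖gz (jac g X) X (g X) - gz (A X) X (F X)‖)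
        + ∫ X in KR ρ 40, ‖gt (jac g X) X (g X) - gt (A X) X (F X)‖) := by
  have hsub : KR ρ 40 ⊆ {X | 0 < rad X ∧ 0 < rad (g X)} := fun X hX =>
    ⟨lt_of_lt_of_le hρ hX.1, lt_of_lt_of_le (by positivity) (hgr X hX)⟩
  have jr : IntegrableOn (fun X => gr (jac g X) X (g X)) (KR ρ 40) :=
    ((WDBS_.contOn_gr hgs).mono hsub).integrableOn_compact (isCompact_KR _ _)
  have jz : IntegrableOn (fun X => gz (jac g X) X (g X)) (KR ρ 40) :=
    ((WDBS_.contOn_gz hgs).mono hsub).integrableOn_compact (isCompact_KR _ _)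
  have jt : IntegrableOn (fun X => gt (jac g X) X (g X)) (KR ρ 40) :=
    ((WDBS_.contOn_gt hgs).mono hsub).integrableOn_compact (isCompact_KR _ _)
  have br := comp_le jr ir
  have bz := comp_le jz iz
  have bt := comp_le jt it
  have s1 := int3 jr jz jt
  have s2 := int3 ir iz it
  have t1 : ∫ X in RG ρ, grd g (jac g) X = ∫ X in RG ρ, (‖gr (jac g X) X (g X)‖
    + ‖gz (jac g X) X (g X)‖ + ‖gt (jac g X) X (g X)‖) := rfl
  have t2 : ∫ X in RG ρ, grd F A X = ∫ X in RG ρ, (‖gr (A X) X (F X)‖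
    + ‖gz (A X) X (F X)‖ + ‖gt (A X) X (F X)‖) := rfl
  rw [t1, t2, s1, s2]
  linarith

/-- the displacement integrand -/
noncomputable def dsp (F P Q : E3 → E3) (Y : E3) : ℂ := gg (P Y) (F (P Y)) - gg (Q Y) (F (Q Y))

theorem gg_cont {P G : E3 → E3} {s : Set E3}
    (hP : ContinuousOn P s) (c0 : ContinuousOn G s) :
    ContinuousOn (fun Y => gg (P Y) (G Y)) s := by
  have h : (fun Y => gg (P Y) (G Y))
      = (fun p : E3 × E3 => gg p.1 p.2) ∘ (fun Y => (P Y, G Y)) := rfl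
  rw [h]
  exact Continuous.comp_continuousOn VCO_.cont_gg (hP.prodMk c0)

theorem dsp_cont {ρ ε : ℝ} {F P : E3 → E3} {A : E3 → M3} (hF : Nm ε F A)
    (hP : Continuous P) (hK : ∀ Y ∈ CY, P Y ∈ KR ρ 40) :
    ContinuousOn (fun Y => gg (P Y) (F (P Y))) CY := by
  have hball : ∀ X ∈ KR ρ 40, X ∈ Metric.ball (0 : E3) 64 := fun X hX => by
    rw [mem_ball_zero_iff]; linarith [hX.2]
  have c0 : ContinuousOn (fun Y => F (P Y)) CY :=
    hF.cont.comp hP.continuousOn fun Y hY => hball _ (hK Y hY)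
  exact gg_cont hP.continuousOn c0

theorem dsp_int (h : Stmt_WIN1) {ρ ε : ℝ} {F P Q : E3 → E3} {A : E3 → M3} (hF : Nm ε F A)
    (hP : Continuous P) (hQ : Continuous Q)
    (hK : ∀ Y ∈ CY, P Y ∈ KR ρ 40 ∧ Q Y ∈ KR ρ 40) : IntegrableOn (dsp F P Q) CY := by
  have c1 := dsp_cont hF hP fun Y hY => (hK Y hY).1
  have c2 := dsp_cont hF hQ fun Y hY => (hK Y hY).2
  have hb : ∀ Y ∈ CY, ‖dsp F P Q Y‖ ≤ 4 * ε := by
    intro Y hY
    have a1 := norm_gg h hF (X := P Y) (lt_of_le_of_lt (hK Y hY).1.2 (by norm_num))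
    have a2 := norm_gg h hF (X := Q Y) (lt_of_le_of_lt (hK Y hY).2.2 (by norm_num))
    have := norm_sub_le (gg (P Y) (F (P Y))) (gg (Q Y) (F (Q Y)))
    unfold dsp
    linarith
  exact int_CY (c1.sub c2) hb

theorem dsp_int' {g P Q : E3 → E3} (hg : Continuous g)
    (hP : Continuous P) (hQ : Continuous Q) : IntegrableOn (dsp g P Q) CY := by
  have hc : Continuous (dsp g P Q) :=
    ((WDBS_.cont_gg hg).comp hP).sub ((WDBS_.cont_gg hg).comp hQ)
  exact (hc.continuousOn.integrableOn_compact (isCompact_closedBall (0 : E3) 23)).mono_set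
    fun Y hY => by simpa using CY_norm hY

theorem dsp_le {ρ δ : ℝ} {F g P Q : E3 → E3} (hF : IntegrableOn (dsp F P Q) CY)
    (hg : IntegrableOn (dsp g P Q) CY) (hK : ∀ Y ∈ CY, P Y ∈ KR ρ 40 ∧ Q Y ∈ KR ρ 40)
    (hn : ∀ X ∈ KR ρ 40, ‖gg X (F X) - gg X (g X)‖ < δ) :
    ∫ Y in CY, ‖dsp F P Q Y‖ ≤ (∫ Y in CY, ‖dsp g P Q Y‖)
      + 2 * δ * (volume : Measure E3).real CY := by
  have hc : IntegrableOn (fun _ : E3 => 2 * δ) CY := integrableOn_const CY_fin.ne
  have h1 : ∫ Y in CY, ‖dsp F P Q Y‖ ≤ ∫ Y in CY, (‖dsp g P Q Y‖ + 2 * δ) := by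
    refine setIntegral_mono_on hF.norm (hg.norm.add hc) CY_open.measurableSet ?_
    intro Y hY
    have a1 := hn _ (hK Y hY).1
    have a2 := hn _ (hK Y hY).2
    have e : dsp F P Q Y = dsp g P Q Y + ((gg (P Y) (F (P Y)) - gg (P Y) (g (P Y)))
        - (gg (Q Y) (F (Q Y)) - gg (Q Y) (g (Q Y)))) := by
      unfold dsp; ring
    rw [e]
    refine (norm_add_le _ _).trans ?_
    have := norm_sub_le (gg (P Y) (F (P Y)) - gg (P Y) (g (P Y)))
      (gg (Q Y) (F (Q Y)) - gg (Q Y) (g (Q Y)))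
    linarith
  rw [integral_add hg.norm hc, setIntegral_const, smul_eq_mul, mul_comm] at h1
  exact h1

end DISP_

open VCO_ DISP_ in
theorem stmt_DISP (hDSPS : Stmt_DSPS) (hAPX : Stmt_APX) (hWIN1 : Stmt_WIN1) : Stmt_DISP := by
  intro lm hlm0 hlm
  obtain ⟨C, hC, hD⟩ := hDSPS lm hlm0 hlm
  refine ⟨C, hC, ?_⟩
  intro ε F A lam m z0 α S x0 hε0 hε hF h1 h2 hm0 hm hz hx hS
  obtain ⟨ir, iz, it, g, hgs, hgr, hgu, hr, hz', ht⟩ := hAPX (lm / 64) ε F A (by positivity)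
    (by linarith) hε0 (by linarith) hF
  obtain ⟨P, hPd⟩ : ∃ P : E3 → E3, P = fun Y => x0 + lam • act S Y := ⟨_, rfl⟩
  obtain ⟨Q, hQd⟩ : ∃ Q : E3 → E3, Q = fun Y => z0 • e3 + lam • act (rotz α) Y := ⟨_, rfl⟩
  have hK : ∀ Y ∈ CY, P Y ∈ KR (lm / 64) 40 ∧ Q Y ∈ KR (lm / 64) 40 := by
    intro Y hY
    rw [hPd, hQd]
    exact mem_KR hlm0 h1 h2 hm0 hm hz hx hS hY
  have hcP : Continuous P := by
    rw [hPd]; exact continuous_const.add ((DISP_.cont_act S).const_smul lam)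
  have hcQ : Continuous Q := by
    rw [hQd]; exact continuous_const.add ((DISP_.cont_act _).const_smul lam)
  have hDn : ∀ n, ∫ Y in CY, ‖dsp (g n) P Q Y‖
      ≤ C * m * ∫ X in RG (lm / 64), grd (g n) (jac (g n)) X := by
    intro n
    have := hD (g n) lam m z0 α S x0 (hgs n) (fun X hX => lt_of_lt_of_le (by positivity)
      (hgr n X hX)) h1 h2 hm0 hm hz hx hS
    rw [hPd, hQd]
    exact this
  have hint : IntegrableOn (dsp F P Q) CY := dsp_int hWIN1 hF hcP hcQ hK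
  have goal : ∫ Y in CY, ‖dsp F P Q Y‖ ≤ C * m * ∫ X in RG (lm / 64), grd F A X := by
    have hlim : Tendsto (fun n => C * m * ((∫ X in RG (lm / 64), grd F A X)
        + ((∫ X in KR (lm / 64) 40, ‖gr (jac (g n) X) X (g n X) - gr (A X) X (F X)‖)
        + (∫ X in KR (lm / 64) 40, ‖gz (jac (g n) X) X (g n X) - gz (A X) X (F X)‖)
        + ∫ X in KR (lm / 64) 40, ‖gt (jac (g n) X) X (g n X) - gt (A X) X (F X)‖)))
        atTop (𝓝 (C * m * ((∫ X in RG (lm / 64), grd F A X) + (0 + 0 + 0)))) :=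
      ((tendsto_const_nhds.add ((hr.add hz').add ht))).const_mul _
    rw [add_zero, add_zero, add_zero] at hlim
    have hfin : ∀ δ : ℝ, 0 < δ → ∫ Y in CY, ‖dsp F P Q Y‖
        ≤ C * m * (∫ X in RG (lm / 64), grd F A X) + 2 * δ * (volume : Measure E3).real CY := by
      intro δ hδ
      refine ge_of_tendsto (hlim.add_const (2 * δ * (volume : Measure E3).real CY)) ?_
      filter_upwards [Metric.tendstoUniformlyOn_iff.1 hgu δ hδ] with n hn
      have b1 := dsp_le hint (dsp_int' (hgs n).continuous hcP hcQ) hK (δ := δ) (by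
        intro X hX
        have := hn X hX
        rwa [dist_eq_norm] at this)
      have b2 := hDn n
      have b3 := grad_le (by positivity) (hgs n) (hgr n) ir iz it
      have b4 := mul_le_mul_of_nonneg_left b3 (mul_nonneg hC.le hm0)
      linarith
    have hlim2 : Tendsto (fun δ : ℝ => C * m * (∫ X in RG (lm / 64), grd F A X)
        + 2 * δ * (volume : Measure E3).real CY) (𝓝[>] 0)
        (𝓝 (C * m * (∫ X in RG (lm / 64), grd F A X)
          + 2 * 0 * (volume : Measure E3).real CY)) := by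
      refine Tendsto.mono_left ?_ nhdsWithin_le_nhds
      exact Continuous.tendsto (by fun_prop) 0
    rw [mul_zero, zero_mul, add_zero] at hlim2
    refine ge_of_tendsto hlim2 ?_
    filter_upwards [self_mem_nhdsWithin] with δ hδ
    exact hfin δ hδ
  rw [hPd, hQd] at hint goal
  exact ⟨hint, goal⟩

end Pool.Mart
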