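import Pool.Agent.Work.MP_680515_an.IfaceW

/-!
# MP_680515_an, block DLI (helper46)
-/

open MeasureTheory Set Filter Topology Complex

namespace Pool.Mart

namespace DLI_

theorem rad_continuous : Continuous rad := by
  unfold rad
  fun_prop

theorem rad_le_norm (X : E3) : rad X ≤ ‖X‖ := by
  unfold rad
  rw [EuclideanSpace.norm_eq]
  refine Real.sqrt_le_sqrt ?_
  rw [Fin.sum_univ_three]
  simp only [Real.norm_eq_abs, sq_abs]
  nlinarith [sq_nonneg (X 2)]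

theorem rad_sub_e3 (X : E3) : rad (X - e3) = rad X := by
  unfold rad e3
  simp

theorem wind_sub_e3 (hWIN1 : Stmt_WIN1) (X : E3) : wind (X - e3) = wind X - e3 := by
  obtain ⟨-, -, -, -, -, h, -⟩ := hWIN1
  have := h (-1) X
  simpa [sub_eq_add_neg] using this

theorem KR_compact (ρ R : ℝ) : IsCompact (KR ρ R) := by
  refine Metric.isCompact_of_isClosed_isBounded ?_ ?_
  · exact (isClosed_le continuous_const rad_continuous).inter
      (isClosed_le continuous_norm continuous_const)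
  · refine (Metric.isBounded_closedBall (x := (0 : E3)) (r := R)).subset ?_
    intro X hX
    simpa using hX.2

theorem KR_sub (ρ R : ℝ) (hR : R < 64) : KR ρ R ⊆ Metric.ball 0 64 := by
  intro X hX
  simpa using lt_of_le_of_lt hX.2 hR

/-- comparison of the norms -/
theorem norms (hWIN1 : Stmt_WIN1) {ρ : ℝ} {X Y : E3} (hρ : 0 < ρ) (hX : ρ ≤ rad X)
    (hY : ‖Y - wind X‖ ≤ ρ / 16) :
    X ≠ 0 ∧ Y ≠ 0 ∧ 1 / 2 * ‖X‖ ≤ ‖Y‖ ∧ 1 / 2 * ‖Y‖ ≤ ‖X‖ := by
  have h1 : ρ ≤ ‖X‖ := hX.trans (rad_le_norm X)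
  have h2 : ‖wind X‖ = ‖X‖ := hWIN1.1 X
  have h3 : ‖Y‖ ≤ ‖Y - wind X‖ + ‖wind X‖ := by
    simpa using norm_add_le (Y - wind X) (wind X)
  have h4 : ‖wind X‖ ≤ ‖Y - wind X‖ + ‖Y‖ := by
    have := norm_add_le (wind X - Y) Y
    rw [sub_add_cancel, norm_sub_rev] at this
    exact this
  refine ⟨?_, ?_, by linarith, by linarith⟩
  · rw [← norm_pos_iff]
    linarith
  · rw [← norm_pos_iff]
    linarith

/-- the same for the other base point -/
theorem norms' (hWIN1 : Stmt_WIN1) {ρ : ℝ} {X Y : E3} (hρ : 0 < ρ) (hX : ρ ≤ rad X)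
    (hY : ‖Y - wind X‖ ≤ ρ / 16) :
    X - e3 ≠ 0 ∧ Y - e3 ≠ 0 ∧ 1 / 2 * ‖X - e3‖ ≤ ‖Y - e3‖ ∧ 1 / 2 * ‖Y - e3‖ ≤ ‖X - e3‖ := by
  refine norms hWIN1 hρ ?_ ?_
  · rw [rad_sub_e3]
    exact hX
  · rw [wind_sub_e3 hWIN1]
    simpa using hY

theorem integ (hPIOI : Stmt_PIOI) {ε : ℝ} {F : E3 → E3} {A : E3 → M3} (hN : Nm ε F A)
    {K : Set E3} (hK : IsCompact K) (hKs : K ⊆ Metric.ball 0 64) (q : E3)
    (hX : ∀ X ∈ K, X - q ≠ 0) (hY : ∀ X ∈ K, F X - q ≠ 0) :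
    IntegrableOn (fun X => dfc (A X) (X - q) (F X - q)) K := by
  obtain ⟨hdet, -, -, hcp⟩ := hPIOI (Metric.ball 0 64) F A Metric.isOpen_ball hN.cont hN.wg K hK hKs
  have cX : ContinuousOn (fun X : E3 => X - q) K := (continuous_id.sub continuous_const).continuousOn
  have cY : ContinuousOn (fun X : E3 => F X - q) K := (hN.cont.mono hKs).sub continuousOn_const
  have cr : ContinuousOn (fun X : E3 => ‖X - q‖ / ‖F X - q‖) K :=
    cX.norm.div cY.norm fun X hX' => norm_ne_zero_iff.2 (hY X hX')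
  have cH : ContinuousOn (fun X : E3 => ‖F X - q‖⁻¹ • (F X - q)) K :=
    (cY.norm.inv₀ fun X hX' => norm_ne_zero_iff.2 (hY X hX')).smul cY
  have cb : ContinuousOn (fun X : E3 => ‖X - q‖⁻¹ • (X - q)) K :=
    (cX.norm.inv₀ fun X hX' => norm_ne_zero_iff.2 (hX X hX')).smul cX
  have t1 := hdet.mul_continuousOn ((cr.pow 3).const_smul (2 / 3 : ℝ)) hK
  have t3 := (hcp _ _ cH cb).mul_continuousOn (cr.pow 2) hK
  have t2 : IntegrableOn (fun _ : E3 => (2 / 3 : ℝ)) K :=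
    integrableOn_const hK.measure_lt_top.ne
  refine ((t1.add t2).sub t3).congr_fun ?_ hK.measurableSet
  intro X _
  simp only [dfc, Pi.add_apply, Pi.sub_apply, Pi.smul_apply, Pi.pow_apply, smul_eq_mul]
  ring

end DLI_

open DLI_ in
theorem stmt_DLI (hPIOI : Stmt_PIOI) (hENB : Stmt_ENB) (hBAS : Stmt_BAS)
    (hWIN1 : Stmt_WIN1) : Stmt_DLI := by
  intro ρ ε F A hρ hρ1 hε hερ hN
  have hK := KR_compact ρ 32
  have hKs := KR_sub ρ 32 (by norm_num)
  have hsub : RG ρ ⊆ KR ρ 32 := fun X hX => ⟨hX.1.le, hX.2.le⟩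
  have hcl : ∀ X ∈ KR ρ 32, ‖F X - wind X‖ ≤ ρ / 16 := fun X hX =>
    (hN.close X (hKs hX)).trans hερ
  have i1 := integ hPIOI hN hK hKs 0
    (fun X hX => by simpa using (norms hWIN1 hρ hX.1 (hcl X hX)).1)
    (fun X hX => by simpa using (norms hWIN1 hρ hX.1 (hcl X hX)).2.1)
  have i2 := integ hPIOI hN hK hKs e3
    (fun X hX => (norms' hWIN1 hρ hX.1 (hcl X hX)).1)
    (fun X hX => (norms' hWIN1 hρ hX.1 (hcl X hX)).2.1)
  have hI : IntegrableOn (dl F A) (RG ρ) := by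
    refine (IntegrableOn.mono_set ?_ hsub)
    refine (i1.add i2).congr_fun ?_ hK.measurableSet
    intro X _
    simp [dl]
  obtain ⟨C, -, hC⟩ := hENB (1 / 2) (by norm_num)
  have hnn : ∀ᵐ X ∂(volume.restrict (RG ρ)), 0 ≤ dfc (A X) X (F X) ∧
      0 ≤ dfc (A X) (X - e3) (F X - e3) := by
    have hm : MeasurableSet (RG ρ) := by
      refine ((isOpen_lt continuous_const rad_continuous).inter
        (isOpen_lt continuous_norm continuous_const)).measurableSet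
    have hg : ∀ᵐ X ∂(volume.restrict (RG ρ)), Good (A X) :=
      ae_mono (Measure.restrict_mono (hsub.trans hKs) le_rfl) hN.good
    filter_upwards [hg, ae_restrict_mem hm] with X hX hXR
    have h1 := norms hWIN1 hρ (hsub hXR).1 (hcl X (hsub hXR))
    have h2 := norms' hWIN1 hρ (hsub hXR).1 (hcl X (hsub hXR))
    exact ⟨(hC (A X) X (F X) hX h1.1 h1.2.2.1 h1.2.2.2).1,
      (hC (A X) (X - e3) (F X - e3) hX h2.1 h2.2.2.1 h2.2.2.2).1⟩
  refine ⟨hI, ?_, hnn⟩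
  filter_upwards [hnn] with X hX
  exact add_nonneg hX.1 hX.2

end Pool.Mart
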