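import Pool.Agent.Work.MP_680515_an.IfaceA

open MeasureTheory Set Filter Topology Complex

namespace Pool.Mart

namespace DLO_

/-- The closed ring. -/
def RG (r R : ℝ) : Set E3 := {X : E3 | r ≤ ‖X‖ ∧ ‖X‖ ≤ R}

lemma RG_compact (r R : ℝ) : IsCompact (RG r R) := by
  have h1 : IsClosed (RG r R) :=
    (isClosed_le continuous_const continuous_norm).inter
      (isClosed_le continuous_norm continuous_const)
  refine Metric.isCompact_of_isClosed_isBounded h1 ?_
  refine (Metric.isBounded_closedBall (x := (0 : E3)) (r := R)).subset ?_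
  intro X hX
  rw [mem_closedBall_zero_iff]
  exact hX.2

lemma RG_sub (r R : ℝ) (hR : R < 64) : RG r R ⊆ Metric.ball (0 : E3) 64 := by
  intro X hX
  rw [mem_ball_zero_iff]
  exact lt_of_le_of_lt hX.2 hR

/-- The norm of a normalised map is close to the norm of the point. -/
lemma nrm (hW : Stmt_WIN1) (ε : ℝ) (F : E3 → E3) (A : E3 → M3) (hN : Nm ε F A) (X : E3)
    (hX : X ∈ Metric.ball (0 : E3) 64) : |‖F X‖ - ‖X‖| ≤ ε := by
  have h1 := hN.close X hX
  have h2 : ‖wind X‖ = ‖X‖ := hW.1 X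
  have h3 := abs_norm_sub_norm_le (F X) (wind X)
  rw [h2] at h3
  exact h3.trans h1

lemma cpair_smul (A : M3) (c : ℝ) (H b : E3) : cpair A (c • H) b = c * cpair A H b := by
  unfold cpair
  rw [Finset.mul_sum]
  refine Finset.sum_congr rfl (fun i _ => ?_)
  rw [Finset.mul_sum]
  refine Finset.sum_congr rfl (fun j _ => ?_)
  rw [PiLp.smul_apply, smul_eq_mul]
  ring

/-- Integrability of the defect on a closed ring. -/
lemma dfc_int (hP : Stmt_PIOI) (hW : Stmt_WIN1) (ε r R : ℝ) (F : E3 → E3) (A : E3 → M3)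
    (hr : 0 < r) (hR : R < 64) (hε : ε < r) (hN : Nm ε F A) :
    IntegrableOn (fun X => dfc (A X) X (F X)) (RG r R) := by
  have hK := RG_compact r R
  have hs := RG_sub r R hR
  obtain ⟨hd, -, -, hc⟩ := hP (Metric.ball 0 64) F A Metric.isOpen_ball hN.cont hN.wg
    (RG r R) hK hs
  have hF : ContinuousOn F (RG r R) := hN.cont.mono hs
  have hFn : ContinuousOn (fun X => ‖F X‖) (RG r R) := hF.norm
  have hXn : ContinuousOn (fun X : E3 => ‖X‖) (RG r R) := continuous_norm.continuousOn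
  have hF0 : ∀ X ∈ RG r R, ‖F X‖ ≠ 0 := by
    intro X hX h0
    have h1 := nrm hW ε F A hN X (hs hX)
    rw [h0, zero_sub, abs_neg, abs_of_nonneg (norm_nonneg _)] at h1
    linarith [hX.1]
  have hX0 : ∀ X ∈ RG r R, ‖X‖ ≠ 0 := by
    intro X hX h0
    have := hX.1
    rw [h0] at this
    linarith
  have hq : ContinuousOn (fun X : E3 => ‖X‖ / ‖F X‖) (RG r R) := hXn.div hFn hF0
  have i1 : IntegrableOn (fun X => (A X).det * ((2 / 3) * (‖X‖ / ‖F X‖) ^ 3)) (RG r R) :=
    hd.mul_continuousOn (continuousOn_const.mul (hq.pow 3)) hK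
  have i2 : IntegrableOn (fun _ : E3 => (2 / 3 : ℝ)) (RG r R) :=
    continuousOn_const.integrableOn_compact hK
  have i3 : IntegrableOn (fun X => cpair (A X)
      ((‖X‖ / ‖F X‖) ^ 2 • (‖F X‖⁻¹ • F X)) (‖X‖⁻¹ • X)) (RG r R) := by
    refine hc (fun X => (‖X‖ / ‖F X‖) ^ 2 • (‖F X‖⁻¹ • F X)) (fun X => ‖X‖⁻¹ • X) ?_ ?_
    · exact (hq.pow 2).smul ((hFn.inv₀ hF0).smul hF)
    · exact (hXn.inv₀ hX0).smul continuousOn_id
  have i4 := (i1.add i2).sub i3
  refine i4.congr (Eventually.of_forall (fun X => ?_))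
  simp only [Pi.add_apply, Pi.sub_apply]
  rw [cpair_smul]
  unfold dfc
  ring

end DLO_

open DLO_ in
theorem stmt_DLO (hDLOW : Stmt_DLOW) (hPIOI : Stmt_PIOI) (_hBAS : Stmt_BAS) (_hENB : Stmt_ENB)
    (hWIN1 : Stmt_WIN1) : Stmt_DLO := by
  intro K ρ hK1 hK2 hρ hρ1
  obtain ⟨c0, hc0, hlow⟩ := hDLOW K hK1 hK2
  set S : Set E3 := {X : E3 | ρ < ‖X‖ ∧ ‖X‖ < 40} with hS
  have hSo : IsOpen S :=
    (isOpen_lt continuous_const continuous_norm).inter
      (isOpen_lt continuous_norm continuous_const)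
  have hSR : S ⊆ RG ρ 40 := fun X hX => ⟨hX.1.le, hX.2.le⟩
  have hSfin : volume S ≠ ⊤ :=
    (lt_of_le_of_lt (measure_mono hSR) (RG_compact ρ 40).measure_lt_top).ne
  have hSne : S.Nonempty := by
    refine ⟨(2 : ℝ) • e3, ?_⟩
    have h1 : ‖(2 : ℝ) • e3‖ = 2 := by
      rw [norm_smul, Real.norm_of_nonneg (by norm_num : (0 : ℝ) ≤ 2)]
      simp [e3]
    constructor
    · rw [h1]
      linarith
    · rw [h1]
      norm_num
  have hSpos : 0 < volume.real S := by
    rw [measureReal_def]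
    exact ENNReal.toReal_pos (hSo.measure_pos volume hSne).ne' hSfin
  refine ⟨c0 * volume.real S, mul_pos hc0 hSpos, ?_⟩
  intro ε F A hε0 hε hN hI
  have hint : IntegrableOn (fun X => dfc (A X) X (F X)) S :=
    (dfc_int hPIOI hWIN1 ε ρ 40 F A hρ (by norm_num) (by linarith) hN).mono_set hSR
  have hS64 : S ⊆ Metric.ball (0 : E3) 64 := hSR.trans (RG_sub ρ 40 (by norm_num))
  have hgood := ae_restrict_of_ae_restrict_of_subset hS64 hN.good
  have hinn := ae_restrict_of_ae_restrict_of_subset hS64 hI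
  have hae : ∀ᵐ X ∂(volume.restrict S), c0 ≤ dfc (A X) X (F X) := by
    filter_upwards [hgood, hinn, ae_restrict_mem hSo.measurableSet] with X h1 h2 h3
    have hdet : 0 ≤ (A X).det := by
      have h4 := h1.2
      have h5 : 0 ≤ opn (A X) ^ 3 := pow_nonneg (norm_nonneg _) 3
      linarith
    refine hlow (A X) X (F X) hdet h2 ?_ ?_
    · intro h0
      have := h3.1
      rw [h0, norm_zero] at this
      linarith
    · intro h0
      have h4 := nrm hWIN1 ε F A hN X (hS64 h3)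
      rw [h0, norm_zero, zero_sub, abs_neg, abs_of_nonneg (norm_nonneg _)] at h4
      linarith [h3.1]
  have h6 : ∫ _ in S, c0 ≤ ∫ X in S, dfc (A X) X (F X) := by
    refine integral_mono_ae ?_ hint hae
    exact (integrableOn_const_iff (by finiteness)).2 (Or.inr (lt_top_iff_ne_top.2 hSfin))
  rw [setIntegral_const, smul_eq_mul, mul_comm] at h6
  exact h6

end Pool.Mart
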