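import Pool.Agent.Work.MP_680515_an.IfaceL

/-!
# MP_680515_an: block DLOW (helper59)
-/

open MeasureTheory Set Filter Topology Complex

namespace Pool.Mart

namespace DLOW_

lemma opn_nonneg (M : M3) : 0 ≤ opn M := norm_nonneg _

lemma unit_of_ne {v : E3} (h : v ≠ 0) : ‖(‖v‖⁻¹ • v)‖ = 1 := by
  rw [norm_smul, norm_inv, norm_norm]
  exact inv_mul_cancel₀ (norm_ne_zero_iff.mpr h)

lemma cpair_abs_le (hBAS : Stmt_BAS) (A : M3) {y b : E3} (hb : ‖b‖ = 1) (hy : ‖y‖ = 1) :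
    |cpair A y b| ≤ opn (cofm A) := by
  rw [hBAS.2.2.1 A y b]
  refine (abs_real_inner_le_norm _ _).trans ?_
  rw [hy, one_mul]
  have h := hBAS.1 (cofm A) b
  rwa [hb, mul_one] at h

/-- The cubic mean inequality. -/
lemma amgm {n d K a : ℝ} (hd : 0 ≤ d) (hK : 0 ≤ K) (ha : 0 < a)
    (h : n ^ 3 ≤ K * d ^ 2) : n ≤ (2 * (d * a) + K / a ^ 2) / 3 := by
  have hK' : 0 ≤ K / a ^ 2 := by positivity
  have h0 : 0 ≤ (2 * (d * a) + K / a ^ 2) / 3 := by positivity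
  have e : K * d ^ 2 = (K / a ^ 2) * (d * a) ^ 2 := by field_simp
  have key : n ^ 3 ≤ ((2 * (d * a) + K / a ^ 2) / 3) ^ 3 := by
    refine h.trans ?_
    rw [e]
    set x := d * a with hx
    set k := K / a ^ 2 with hk
    have hx0 : 0 ≤ x := by positivity
    have : ((2 * x + k) / 3) ^ 3 - k * x ^ 2 = (x - k) ^ 2 * (8 * x + k) / 27 := by ring
    have h2 : 0 ≤ (x - k) ^ 2 * (8 * x + k) / 27 := by positivity
    linarith
  exact le_of_pow_le_pow_left₀ (by norm_num) h0 key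

lemma core (hBAS : Stmt_BAS) (A : M3) (X Y : E3) (K : ℝ) (hK : 0 ≤ K) (hdet : 0 ≤ A.det)
    (hcof : opn (cofm A) ^ 3 ≤ K * A.det ^ 2) (hX : X ≠ 0) (hY : Y ≠ 0) (a : ℝ) (ha : 0 < a) :
    (2 / 3) * (A.det * (‖X‖ / ‖Y‖) ^ 3) + 2 / 3
      - (2 * (A.det * (‖X‖ / ‖Y‖) ^ 3 * a) + K / a ^ 2) / 3 ≤ dfc A X Y := by
  have hc := cpair_abs_le hBAS A (unit_of_ne hX) (unit_of_ne hY)
  have hx : 0 < ‖X‖ := norm_pos_iff.mpr hX
  have hy : 0 < ‖Y‖ := norm_pos_iff.mpr hY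
  set q := ‖X‖ / ‖Y‖ with hq
  have hq0 : 0 < q := by positivity
  have hd : 0 ≤ A.det * q ^ 3 := by positivity
  have hn : (opn (cofm A) * q ^ 2) ^ 3 ≤ K * (A.det * q ^ 3) ^ 2 := by
    calc (opn (cofm A) * q ^ 2) ^ 3 = opn (cofm A) ^ 3 * q ^ 6 := by ring
      _ ≤ (K * A.det ^ 2) * q ^ 6 := by gcongr
      _ = K * (A.det * q ^ 3) ^ 2 := by ring
  have h1 := amgm hd hK ha hn
  have h2 : q ^ 2 * cpair A (‖Y‖⁻¹ • Y) (‖X‖⁻¹ • X) ≤ opn (cofm A) * q ^ 2 := by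
    rw [mul_comm (opn (cofm A))]
    exact mul_le_mul_of_nonneg_left ((le_abs_self _).trans hc) (by positivity)
  unfold dfc
  rw [← hq]
  linarith

end DLOW_

open DLOW_ in
theorem stmt_DLOW (hBAS : Stmt_BAS) : Stmt_DLOW := by
  intro K hK1 hK2
  refine ⟨(2 - K) / 3, by linarith, ?_⟩
  intro A X Y hdet hcof hX hY
  have h := core hBAS A X Y K (by linarith) hdet hcof hX hY 1 one_pos
  have e : (2 / 3) * (A.det * (‖X‖ / ‖Y‖) ^ 3) + 2 / 3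
      - (2 * (A.det * (‖X‖ / ‖Y‖) ^ 3 * 1) + K / 1 ^ 2) / 3 = (2 - K) / 3 := by ring
  linarith

end Pool.Mart
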