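import Pool.Agent.Work.MP_680515_an.IfaceA

open MeasureTheory Set Filter Topology Complex

namespace Pool.Mart

namespace DSM_

/-- The closed ring. -/
def RG (r R : ℝ) : Set E3 := {X : E3 | r ≤ ‖X‖ ∧ ‖X‖ ≤ R}

lemma RG_compact (r R : ℝ) : IsCompact (RG r R) := by
  have h1 : IsClosed (RG r R) :=
    (isClosed_le continuous_const continuous_norm).inter
      (isClosed_le continuous_norm continuous_const)
  refine Metric.isCompact_of_isClosed_isBounded h1 ?_
  refine (Metric.isBounded_closedBall (x := (0 : E3)) (r := R)).subset ?_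
  intro X hX
  rw [mem_closedBall_zero_iff]
  exact hX.2

lemma RG_sub (r R : ℝ) (hR : R < 64) : RG r R ⊆ Metric.ball (0 : E3) 64 := by
  intro X hX
  rw [mem_ball_zero_iff]
  exact lt_of_le_of_lt hX.2 hR

/-- The norm of a normalised map is close to the norm of the point. -/
lemma nrm (hW : Stmt_WIN1) (ε : ℝ) (F : E3 → E3) (A : E3 → M3) (hN : Nm ε F A) (X : E3)
    (hX : X ∈ Metric.ball (0 : E3) 64) : |‖F X‖ - ‖X‖| ≤ ε := by
  have h1 := hN.close X hX
  have h2 : ‖wind X‖ = ‖X‖ := hW.1 X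
  have h3 := abs_norm_sub_norm_le (F X) (wind X)
  rw [h2] at h3
  exact h3.trans h1

lemma cpair_smul (A : M3) (c : ℝ) (H b : E3) : cpair A (c • H) b = c * cpair A H b := by
  unfold cpair
  rw [Finset.mul_sum]
  refine Finset.sum_congr rfl (fun i _ => ?_)
  rw [Finset.mul_sum]
  refine Finset.sum_congr rfl (fun j _ => ?_)
  rw [PiLp.smul_apply, smul_eq_mul]
  ring

/-- Integrability of the defect on a closed ring. -/
lemma dfc_int (hP : Stmt_PIOI) (hW : Stmt_WIN1) (ε r R : ℝ) (F : E3 → E3) (A : E3 → M3)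
    (hr : 0 < r) (hR : R < 64) (hε : ε < r) (hN : Nm ε F A) :
    IntegrableOn (fun X => dfc (A X) X (F X)) (RG r R) := by
  have hK := RG_compact r R
  have hs := RG_sub r R hR
  obtain ⟨hd, -, -, hc⟩ := hP (Metric.ball 0 64) F A Metric.isOpen_ball hN.cont hN.wg
    (RG r R) hK hs
  have hF : ContinuousOn F (RG r R) := hN.cont.mono hs
  have hFn : ContinuousOn (fun X => ‖F X‖) (RG r R) := hF.norm
  have hXn : ContinuousOn (fun X : E3 => ‖X‖) (RG r R) := continuous_norm.continuousOn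
  have hF0 : ∀ X ∈ RG r R, ‖F X‖ ≠ 0 := by
    intro X hX h0
    have h1 := nrm hW ε F A hN X (hs hX)
    rw [h0, zero_sub, abs_neg, abs_of_nonneg (norm_nonneg _)] at h1
    linarith [hX.1]
  have hX0 : ∀ X ∈ RG r R, ‖X‖ ≠ 0 := by
    intro X hX h0
    have := hX.1
    rw [h0] at this
    linarith
  have hq : ContinuousOn (fun X : E3 => ‖X‖ / ‖F X‖) (RG r R) := hXn.div hFn hF0
  have i1 : IntegrableOn (fun X => (A X).det * ((2 / 3) * (‖X‖ / ‖F X‖) ^ 3)) (RG r R) :=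
    hd.mul_continuousOn (continuousOn_const.mul (hq.pow 3)) hK
  have i2 : IntegrableOn (fun _ : E3 => (2 / 3 : ℝ)) (RG r R) :=
    continuousOn_const.integrableOn_compact hK
  have i3 : IntegrableOn (fun X => cpair (A X)
      ((‖X‖ / ‖F X‖) ^ 2 • (‖F X‖⁻¹ • F X)) (‖X‖⁻¹ • X)) (RG r R) := by
    refine hc (fun X => (‖X‖ / ‖F X‖) ^ 2 • (‖F X‖⁻¹ • F X)) (fun X => ‖X‖⁻¹ • X) ?_ ?_
    · exact (hq.pow 2).smul ((hFn.inv₀ hF0).smul hF)
    · exact (hXn.inv₀ hX0).smul continuousOn_id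
  have i4 := (i1.add i2).sub i3
  refine i4.congr (Eventually.of_forall (fun X => ?_))
  simp only [Pi.add_apply, Pi.sub_apply]
  rw [cpair_smul]
  unfold dfc
  ring

/-- Bound of the flux density. -/
lemma fx_bound (hB : Stmt_BAS) (A : M3) (X Y : E3) (a : ℝ) (ha : 0 < a) (hX : X ≠ 0)
    (hY : a ≤ ‖Y‖) : |fx A X Y| ≤ (a ^ 2)⁻¹ * opn A ^ 2 := by
  obtain ⟨h1, -, h3, -, -, h6, -⟩ := hB
  have hY0 : 0 < ‖Y‖ := ha.trans_le hY
  have hX0 : ‖X‖ ≠ 0 := norm_ne_zero_iff.2 hX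
  unfold fx
  rw [h3]
  have e1 : ‖(‖Y‖ ^ 3)⁻¹ • Y‖ = (‖Y‖ ^ 2)⁻¹ := by
    rw [norm_smul, norm_inv, norm_pow, norm_norm]
    field_simp
  have e2 : ‖‖X‖⁻¹ • X‖ = 1 := by
    rw [norm_smul, norm_inv, norm_norm, inv_mul_cancel₀ hX0]
  have e3 : ‖act (cofm A) (‖X‖⁻¹ • X)‖ ≤ opn A ^ 2 := by
    refine (h1 (cofm A) _).trans ?_
    rw [e2, mul_one]
    exact h6 A
  refine (abs_real_inner_le_norm _ _).trans ?_
  rw [e1]
  have e4 : (‖Y‖ ^ 2)⁻¹ ≤ (a ^ 2)⁻¹ := by
    gcongr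
  exact mul_le_mul e4 e3 (norm_nonneg _) (by positivity)

/-- The logarithm is small. -/
lemma log_bound (x y ε a : ℝ) (ha : 0 < a) (hx : a ≤ x) (hy : 0 < y) (h : |y - x| ≤ ε)
    (hε : ε ≤ a / 2) : |Real.log (y / x)| ≤ 2 * ε / a := by
  have hx0 : 0 < x := ha.trans_le hx
  have hε0 : 0 ≤ ε := (abs_nonneg _).trans h
  obtain ⟨h1, h2⟩ := abs_le.1 h
  have hq : 0 < y / x := div_pos hy hx0
  have k1 : Real.log (y / x) ≤ y / x - 1 := Real.log_le_sub_one_of_pos hq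
  have k2 : Real.log (x / y) ≤ x / y - 1 := Real.log_le_sub_one_of_pos (div_pos hx0 hy)
  have k3 : Real.log (x / y) = - Real.log (y / x) := by
    rw [← Real.log_inv, inv_div]
  rw [k3] at k2
  have b1 : y / x - 1 ≤ 2 * ε / a := by
    rw [div_sub_one hx0.ne', div_le_div_iff₀ hx0 ha]
    nlinarith
  have b2 : x / y - 1 ≤ 2 * ε / a := by
    have hy2 : a / 2 ≤ y := by linarith
    rw [div_sub_one hy.ne', div_le_div_iff₀ hy ha]
    nlinarith
  rw [abs_le]
  constructor <;> linarith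

/-- The cut-off. -/
lemma cutoff (ρ : ℝ) (h0 : 0 < ρ) (h1 : ρ ≤ 1) : ∃ (η : ℝ → ℝ) (M : ℝ), 0 < M ∧ ContDiff ℝ 1 η ∧
    HasCompactSupport η ∧ tsupport η ⊆ Ioo (ρ / 2) 60 ∧ (∀ r, 0 ≤ η r ∧ η r ≤ 1) ∧
    (∀ r, ρ ≤ r → r ≤ 40 → η r = 1) ∧ ∀ r, |deriv η r| ≤ M := by
  let φ : ContDiffBump ((ρ + 40) / 2 : ℝ) :=
    { rIn := (40 - ρ) / 2, rOut := (40 - ρ) / 2 + ρ / 4, rIn_pos := by linarith,
      rIn_lt_rOut := by linarith }
  have hc : ContDiff ℝ 1 (φ : ℝ → ℝ) := φ.contDiff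
  have hs : HasCompactSupport (φ : ℝ → ℝ) := φ.hasCompactSupport
  have hdc : Continuous (deriv (φ : ℝ → ℝ)) := hc.continuous_deriv le_rfl
  obtain ⟨M, hM⟩ := hdc.bounded_above_of_compact_support hs.deriv
  refine ⟨φ, |M| + 1, by positivity, hc, hs, ?_, ?_, ?_, ?_⟩
  · rw [φ.tsupport_eq, Real.closedBall_eq_Icc]
    intro x hx
    have e : φ.rOut = (40 - ρ) / 2 + ρ / 4 := rfl
    rw [e] at hx
    constructor
    · linarith [hx.1]
    · linarith [hx.2]
  · exact fun r => ⟨φ.nonneg, φ.le_one⟩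
  · intro r hr1 hr2
    refine φ.one_of_mem_closedBall ?_
    have e : φ.rIn = (40 - ρ) / 2 := rfl
    rw [Real.closedBall_eq_Icc, e]
    constructor <;> linarith
  · intro r
    rw [← Real.norm_eq_abs]
    linarith [hM r, le_abs_self M]

lemma wg_mono (Ω Ω' : Set E3) (h : Ω' ⊆ Ω) (F : E3 → E3) (A : E3 → M3) (hw : WeakGrad Ω F A) :
    WeakGrad Ω' F A where
  loc := fun K hK hs => hw.loc K hK (hs.trans h)
  ibp := fun φ h1 h2 h3 => hw.ibp φ h1 h2 (h3.trans h)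

end DSM_

open DSM_ in
theorem stmt_DSM (hFL8 : Stmt_FL8) (hIDT : Stmt_IDT) (hENER : Stmt_ENER) (hENB : Stmt_ENB)
    (hPIOI : Stmt_PIOI) (hBAS : Stmt_BAS) (hWIN1 : Stmt_WIN1) : Stmt_DSM := by
  intro ρ hρ hρ1
  obtain ⟨CE, hCE, hener⟩ := hENER
  obtain ⟨η, M, hM, hη1, hηc, hηs, hη01, hηone, hηd⟩ := cutoff ρ hρ hρ1
  obtain ⟨CB, hCB, henb⟩ := hENB (1 / 2) (by norm_num)
  set V : ℝ := volume.real (Metric.ball (0 : E3) 62) with hV
  have hV0 : 0 ≤ V := measureReal_nonneg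
  set C1 : ℝ := M * (((ρ / 4) ^ 2)⁻¹ * (2 / (ρ / 2))) with hC1
  have hC1p : 0 < C1 := by positivity
  refine ⟨40 ^ 3 * ((2 / 3) * (C1 * (V + CE))), by positivity, ?_⟩
  intro ε F A hε0 hε hN
  have hball : Metric.ball (0 : E3) 62 ⊆ Metric.ball (0 : E3) 64 :=
    Metric.ball_subset_ball (by norm_num)
  -- pointwise nonnegativity
  have hnn : ∀ X : E3, Good (A X) → ρ / 2 ≤ ‖X‖ → ‖X‖ < 64 → 0 ≤ dfc (A X) X (F X) := by
    intro X hg h1 h2
    have h3 := nrm hWIN1 ε F A hN X (by rw [mem_ball_zero_iff]; exact h2)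
    obtain ⟨h4, h5⟩ := abs_le.1 h3
    have hX0 : X ≠ 0 := by
      intro h0
      rw [h0, norm_zero] at h1
      linarith
    exact (henb (A X) X (F X) hg hX0 (by linarith) (by linarith)).1
  set S : Set E3 := {X : E3 | ρ < ‖X‖ ∧ ‖X‖ < 40} with hS
  have hSo : IsOpen S :=
    (isOpen_lt continuous_const continuous_norm).inter
      (isOpen_lt continuous_norm continuous_const)
  have hSR : S ⊆ RG (ρ / 2) 60 := fun X hX => ⟨by linarith [hX.1], by linarith [hX.2]⟩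
  have hR64 : RG (ρ / 2) 60 ⊆ Metric.ball (0 : E3) 64 := RG_sub (ρ / 2) 60 (by norm_num)
  have hintR : IntegrableOn (fun X => dfc (A X) X (F X)) (RG (ρ / 2) 60) :=
    dfc_int hPIOI hWIN1 ε (ρ / 2) 60 F A (by linarith) (by norm_num) (by linarith) hN
  have hgoodS := ae_restrict_of_ae_restrict_of_subset (hSR.trans hR64) hN.good
  have hgoodR := ae_restrict_of_ae_restrict_of_subset hR64 hN.good
  have hRm : MeasurableSet (RG (ρ / 2) 60) := (RG_compact _ _).isClosed.measurableSet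
  refine ⟨?_, ?_⟩
  · refine integral_nonneg_of_ae ?_
    filter_upwards [hgoodS, ae_restrict_mem hSo.measurableSet] with X h1 h2
    exact hnn X h1 (by linarith [h2.1]) (by linarith [h2.2])
  -- the identity
  have hFL := hFL8 (ρ / 2) ε F A (by linarith) (by linarith) (by linarith) hN
  have hid := hIDT (ρ / 2) 60 F A (by linarith) (by linarith)
    (hN.cont.mono (Metric.ball_subset_ball (by norm_num)))
    (wg_mono _ _ (Metric.ball_subset_ball (by norm_num)) F A hN.wg)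
    (by
      intro X h1 h2 h0
      have h3 := nrm hWIN1 ε F A hN X (by rw [mem_ball_zero_iff]; linarith)
      rw [h0, norm_zero, zero_sub, abs_neg, abs_of_nonneg (norm_nonneg _)] at h3
      linarith)
    hN.zero hFL η hη1 hηc hηs
  -- facts on the cut-off
  have hηz : ∀ X : E3, X ∉ RG (ρ / 2) 60 → η ‖X‖ = 0 := by
    intro X hX
    by_contra hne
    have h1 := hηs (subset_tsupport _ hne)
    exact hX ⟨h1.1.le, h1.2.le⟩
  have hdz : ∀ X : E3, ¬ (ρ / 2 < ‖X‖ ∧ ‖X‖ < 60) → deriv η ‖X‖ = 0 := by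
    intro X hX
    by_contra hne
    have h1 := hηs (support_deriv_subset hne)
    exact hX ⟨h1.1, h1.2⟩
  -- lower bound of the left side
  have hgR : IntegrableOn (fun X : E3 => η ‖X‖ * (dfc (A X) X (F X) / ‖X‖ ^ 3))
      (RG (ρ / 2) 60) := by
    have hcont : ContinuousOn (fun X : E3 => η ‖X‖ / ‖X‖ ^ 3) (RG (ρ / 2) 60) := by
      refine ContinuousOn.div (hη1.continuous.comp continuous_norm).continuousOn
        (continuous_norm.pow 3).continuousOn ?_
      intro X hX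
      have : 0 < ‖X‖ := lt_of_lt_of_le (by linarith) hX.1
      positivity
    refine (hintR.mul_continuousOn hcont (RG_compact _ _)).congr
      (Eventually.of_forall (fun X => ?_))
    simp only
    ring
  have e1 : ∫ X, η ‖X‖ * (dfc (A X) X (F X) / ‖X‖ ^ 3)
      = ∫ X in RG (ρ / 2) 60, η ‖X‖ * (dfc (A X) X (F X) / ‖X‖ ^ 3) := by
    refine (setIntegral_eq_integral_of_forall_compl_eq_zero ?_).symm
    intro X hX
    rw [hηz X hX, zero_mul]
  have hgnn : ∀ᵐ X ∂(volume.restrict (RG (ρ / 2) 60)),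
      0 ≤ η ‖X‖ * (dfc (A X) X (F X) / ‖X‖ ^ 3) := by
    filter_upwards [hgoodR, ae_restrict_mem hRm] with X h1 h2
    have h3 := hnn X h1 h2.1 (by linarith [h2.2])
    have h4 := (hη01 ‖X‖).1
    positivity
  have l1 : ∫ X in S, η ‖X‖ * (dfc (A X) X (F X) / ‖X‖ ^ 3)
      ≤ ∫ X in RG (ρ / 2) 60, η ‖X‖ * (dfc (A X) X (F X) / ‖X‖ ^ 3) :=
    setIntegral_mono_set hgR hgnn hSR.eventuallyLE
  have l2 : ∫ X in S, (40 ^ 3)⁻¹ * dfc (A X) X (F X)
      ≤ ∫ X in S, η ‖X‖ * (dfc (A X) X (F X) / ‖X‖ ^ 3) := by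
    refine integral_mono_ae ((hintR.mono_set hSR).const_mul _) (hgR.mono_set hSR) ?_
    filter_upwards [hgoodS, ae_restrict_mem hSo.measurableSet] with X h1 h2
    have h3 := hnn X h1 (by linarith [h2.1]) (by linarith [h2.2])
    rw [hηone ‖X‖ h2.1.le h2.2.le, one_mul, div_eq_inv_mul]
    refine mul_le_mul_of_nonneg_right ?_ h3
    have h5 : 0 < ‖X‖ := hρ.trans h2.1
    have h6 : ‖X‖ ≤ 40 := h2.2.le
    gcongr
  rw [integral_const_mul] at l2
  -- upper bound of the right side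
  obtain ⟨hEi, hEb⟩ := hener ε F A (by linarith) hN
  have e2 : ∫ X, deriv η ‖X‖ * fx (A X) X (F X) * Real.log (‖F X‖ / ‖X‖)
      = ∫ X in Metric.ball (0 : E3) 62,
        deriv η ‖X‖ * fx (A X) X (F X) * Real.log (‖F X‖ / ‖X‖) := by
    refine (setIntegral_eq_integral_of_forall_compl_eq_zero ?_).symm
    intro X hX
    rw [mem_ball_zero_iff] at hX
    rw [hdz X (fun h => hX (by linarith [h.2])), zero_mul, zero_mul]
  have hVfin : volume (Metric.ball (0 : E3) 62) ≠ ⊤ := measure_ball_lt_top.ne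
  have hci : IntegrableOn (fun _ : E3 => (1 : ℝ)) (Metric.ball (0 : E3) 62) :=
    (integrableOn_const_iff (by finiteness)).2 (Or.inr (lt_top_iff_ne_top.2 hVfin))
  have u1 : ‖∫ X in Metric.ball (0 : E3) 62,
        deriv η ‖X‖ * fx (A X) X (F X) * Real.log (‖F X‖ / ‖X‖)‖
      ≤ ∫ X in Metric.ball (0 : E3) 62, (C1 * ε) * (1 + opn (A X) ^ 3) := by
    refine norm_integral_le_of_norm_le ((hci.add hEi).const_mul _) ?_
    refine Eventually.of_forall (fun X => ?_)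
    have hop : 0 ≤ opn (A X) := norm_nonneg _
    by_cases hX : ρ / 2 < ‖X‖ ∧ ‖X‖ < 60
    · have hX0 : X ≠ 0 := by
        intro h0
        rw [h0, norm_zero] at hX
        linarith [hX.1]
      have h3 := nrm hWIN1 ε F A hN X (by rw [mem_ball_zero_iff]; linarith [hX.2])
      obtain ⟨h4, h5⟩ := abs_le.1 h3
      have hFX : ρ / 4 ≤ ‖F X‖ := by linarith [hX.1]
      have b1 := fx_bound hBAS (A X) X (F X) (ρ / 4) (by linarith) hX0 hFX
      have b2 := log_bound ‖X‖ ‖F X‖ ε (ρ / 2) (by linarith) hX.1.le (by linarith) h3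
        (by linarith)
      have b3 : opn (A X) ^ 2 ≤ 1 + opn (A X) ^ 3 := by
        rcases le_total (opn (A X)) 1 with h | h
        · have : opn (A X) ^ 2 ≤ 1 := pow_le_one₀ hop h
          have h7 : 0 ≤ opn (A X) ^ 3 := by positivity
          linarith
        · have : opn (A X) ^ 2 ≤ opn (A X) ^ 3 := pow_le_pow_right₀ h (by norm_num)
          linarith
      rw [norm_mul, norm_mul, Real.norm_eq_abs, Real.norm_eq_abs, Real.norm_eq_abs]
      calc |deriv η ‖X‖| * |fx (A X) X (F X)| * |Real.log (‖F X‖ / ‖X‖)|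
          ≤ M * (((ρ / 4) ^ 2)⁻¹ * opn (A X) ^ 2) * (2 * ε / (ρ / 2)) := by
            refine mul_le_mul (mul_le_mul (hηd _) b1 (abs_nonneg _) hM.le) b2 (abs_nonneg _) ?_
            positivity
        _ = (C1 * ε) * opn (A X) ^ 2 := by
            rw [hC1]
            ring
        _ ≤ (C1 * ε) * (1 + opn (A X) ^ 3) := by
            refine mul_le_mul_of_nonneg_left b3 ?_
            positivity
    · rw [hdz X hX, zero_mul, zero_mul, norm_zero]
      positivity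
  rw [integral_const_mul, integral_add hci hEi, setIntegral_const, smul_eq_mul, mul_one,
    ← hV] at u1
  have u2 : (C1 * ε) * (V + ∫ X in Metric.ball (0 : E3) 62, opn (A X) ^ 3)
      ≤ (C1 * ε) * (V + CE) := by
    refine mul_le_mul_of_nonneg_left (by linarith) ?_
    positivity
  rw [e1, e2] at hid
  have u3 := (abs_le.1 (Real.norm_eq_abs _ ▸ u1)).1
  have hfin : (40 ^ 3 : ℝ)⁻¹ * (∫ X in S, dfc (A X) X (F X)) ≤ (2 / 3) * ((C1 * ε) * (V + CE)) := by
    linarith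
  have hDD : DD ρ F A = ∫ X in S, dfc (A X) X (F X) := rfl
  rw [hDD]
  rw [inv_mul_le_iff₀ (by norm_num)] at hfin
  calc _ ≤ _ := hfin
    _ = _ := by ring

end Pool.Mart
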