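import Pool.Agent.Work.MP_680515_an.B.WDBS

/-!
# MP_680515_an: block DSPS (displacement inequality for smooth maps)
-/

open MeasureTheory Set Filter Topology Complex

namespace Pool.Mart

namespace DSPS_

open WDBS_

theorem act_eq (A : M3) (v : E3) : act A v = Matrix.toEuclideanLin A v := rfl

theorem act_add (A : M3) (v w : E3) : act A (v + w) = act A v + act A w := by
  rw [act_eq, act_eq, act_eq, map_add]

theorem act_smul (A : M3) (c : ℝ) (v : E3) : act A (c • v) = c • act A v := by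
  rw [act_eq, act_eq, map_smul]

theorem act_addM (A B : M3) (v : E3) : act (A + B) v = act A v + act B v := by
  rw [act_eq, act_eq, act_eq, map_add]; rfl

theorem act_smulM (c : ℝ) (A : M3) (v : E3) : act (c • A) v = c • act A v := by
  rw [act_eq, act_eq, map_smul]; rfl

theorem act_subM (A B : M3) (v : E3) : act (A - B) v = act A v - act B v := by
  rw [act_eq, act_eq, act_eq, map_sub]; rfl

theorem rotz_0 (α : ℝ) (v : E3) : act (rotz α) v 0 = Real.cos α * v 0 - Real.sin α * v 1 := by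
  simp [act, rotz, Matrix.mulVec, dotProduct, Fin.sum_univ_three]
  ring

theorem rotz_1 (α : ℝ) (v : E3) : act (rotz α) v 1 = Real.sin α * v 0 + Real.cos α * v 1 := by
  simp [act, rotz, Matrix.mulVec, dotProduct, Fin.sum_univ_three]

theorem rotz_2 (α : ℝ) (v : E3) : act (rotz α) v 2 = v 2 := by
  simp [act, rotz, Matrix.mulVec, dotProduct, Fin.sum_univ_three]

theorem norm_sq3 (v : E3) : ‖v‖ ^ 2 = v 0 ^ 2 + v 1 ^ 2 + v 2 ^ 2 := by
  rw [EuclideanSpace.norm_sq_eq]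
  simp [Fin.sum_univ_three]

theorem rad_sq (v : E3) : rad v ^ 2 = v 0 ^ 2 + v 1 ^ 2 := by
  unfold rad
  rw [Real.sq_sqrt (by positivity)]

theorem rad_nonneg (v : E3) : 0 ≤ rad v := Real.sqrt_nonneg _

theorem norm_rotz (α : ℝ) (v : E3) : ‖act (rotz α) v‖ = ‖v‖ := by
  rw [← sq_eq_sq₀ (norm_nonneg _) (norm_nonneg _), norm_sq3, norm_sq3, rotz_0, rotz_1, rotz_2]
  have := Real.cos_sq_add_sin_sq α
  linear_combination (v 0 ^ 2 + v 1 ^ 2) * this

theorem rad_rotz (α : ℝ) (v : E3) : rad (act (rotz α) v) = rad v := by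
  rw [← sq_eq_sq₀ (rad_nonneg _) (rad_nonneg _), rad_sq, rad_sq, rotz_0, rotz_1]
  have := Real.cos_sq_add_sin_sq α
  linear_combination (v 0 ^ 2 + v 1 ^ 2) * this

/-- Horizontal projection. -/
noncomputable def pr (v : E3) : E3 := !₂[v 0, v 1, 0]

theorem norm_pr (v : E3) : ‖pr v‖ = rad v := by
  rw [← sq_eq_sq₀ (norm_nonneg _) (rad_nonneg _), norm_sq3, rad_sq]
  simp [pr]

theorem rad_le_norm (v : E3) : rad v ≤ ‖v‖ := by
  rw [← abs_of_nonneg (rad_nonneg v), ← abs_of_nonneg (norm_nonneg v), ← sq_le_sq, rad_sq, norm_sq3]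
  nlinarith [sq_nonneg (v 2)]

theorem rad_add_le (v w : E3) : rad (v + w) ≤ rad v + rad w := by
  rw [← norm_pr, ← norm_pr, ← norm_pr]
  have : pr (v + w) = pr v + pr w := by
    ext i
    fin_cases i <;> simp [pr]
  rw [this]
  exact norm_add_le _ _

theorem rad_smul (c : ℝ) (v : E3) (hc : 0 ≤ c) : rad (c • v) = c * rad v := by
  rw [← sq_eq_sq₀ (rad_nonneg _) (mul_nonneg hc (rad_nonneg _)), rad_sq, mul_pow, rad_sq]
  simp only [PiLp.smul_apply, smul_eq_mul]
  ring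

theorem rad_lower (v w : E3) : rad v - ‖w - v‖ ≤ rad w := by
  have h1 : rad v ≤ rad w + rad (v - w) := by
    have := rad_add_le w (v - w)
    rwa [add_sub_cancel] at this
  have h2 := rad_le_norm (v - w)
  rw [norm_sub_rev] at h2
  linarith

theorem rad_e3_add (z : ℝ) (v : E3) : rad (z • e3 + v) = rad v := by
  rw [← sq_eq_sq₀ (rad_nonneg _) (rad_nonneg _), rad_sq, rad_sq]
  simp [e3]

theorem norm_e3 : ‖e3‖ = 1 := by simp [e3]

theorem abs_mul_le' {a b x y : ℝ} (hx : |x| ≤ a) (hy : |y| ≤ b) : |x * y| ≤ a * b := by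
  rw [abs_mul]
  exact mul_le_mul hx hy (abs_nonneg _) (le_trans (abs_nonneg _) hx)

theorem det_near (c s m : ℝ) (E : M3) (hm0 : 0 ≤ m) (hm : m ≤ 1 / 1000) (hcs : c ^ 2 + s ^ 2 = 1)
    (hE : ∀ i j, |E i j| ≤ m) :
    1 / 2 ≤ |((!![c, -s, 0; s, c, 0; 0, 0, 1] : M3) + E).det| := by
  have hc : |c| ≤ 1 := by
    rw [abs_le]; constructor <;> nlinarith [sq_nonneg s]
  have hs : |s| ≤ 1 := by
    rw [abs_le]; constructor <;> nlinarith [sq_nonneg c]
  have h00 := hE 0 0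
  have h01 := hE 0 1
  have h02 := hE 0 2
  have h10 := hE 1 0
  have h11 := hE 1 1
  have h12 := hE 1 2
  have h20 := hE 2 0
  have h21 := hE 2 1
  have h22 := hE 2 2
  have e1 := abs_le.1 (abs_mul_le' hc h00)
  have e2 := abs_le.1 (abs_mul_le' hc h11)
  have e3' := abs_le.1 (abs_mul_le' hs h10)
  have e4 := abs_le.1 (abs_mul_le' hs h01)
  have e5 := abs_le.1 (abs_mul_le' h00 h11)
  have e6 := abs_le.1 (abs_mul_le' h01 h10)
  have e7 := abs_le.1 (abs_mul_le' hc h12)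
  have e8 := abs_le.1 (abs_mul_le' hs h02)
  have e9 := abs_le.1 (abs_mul_le' h00 h12)
  have e10 := abs_le.1 (abs_mul_le' h02 h10)
  have e11 := abs_le.1 (abs_mul_le' hs h12)
  have e12 := abs_le.1 (abs_mul_le' hc h02)
  have e13 := abs_le.1 (abs_mul_le' h01 h12)
  have e14 := abs_le.1 (abs_mul_le' h02 h11)
  have hmm : m * m ≤ m * (1 / 1000) := mul_le_mul_of_nonneg_left hm hm0
  have hA : |(c + E 0 0) * (c + E 1 1) - (-s + E 0 1) * (s + E 1 0) - 1| ≤ 5 * m := by
    rw [abs_le]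
    constructor <;> nlinarith
  have hB1 : |(c + E 0 0) * E 1 2 - E 0 2 * (s + E 1 0)| ≤ 3 * m := by
    rw [abs_le]
    constructor <;> nlinarith
  have hB2 : |(-s + E 0 1) * E 1 2 - E 0 2 * (c + E 1 1)| ≤ 3 * m := by
    rw [abs_le]
    constructor <;> nlinarith
  have hA' : |(c + E 0 0) * (c + E 1 1) - (-s + E 0 1) * (s + E 1 0)| ≤ 2 := by
    have := abs_le.1 hA
    rw [abs_le]
    constructor <;> linarith
  have f1 := abs_le.1 (abs_mul_le' h22 hA')
  have f2 := abs_le.1 (abs_mul_le' h21 hB1)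
  have f3 := abs_le.1 (abs_mul_le' h20 hB2)
  have f4 := abs_le.1 hA
  have hdet : ((!![c, -s, 0; s, c, 0; 0, 0, 1] : M3) + E).det
      = ((c + E 0 0) * (c + E 1 1) - (-s + E 0 1) * (s + E 1 0))
        + E 2 2 * ((c + E 0 0) * (c + E 1 1) - (-s + E 0 1) * (s + E 1 0))
        - E 2 1 * ((c + E 0 0) * E 1 2 - E 0 2 * (s + E 1 0))
        + E 2 0 * ((-s + E 0 1) * E 1 2 - E 0 2 * (c + E 1 1)) := by
    rw [Matrix.det_fin_three]
    simp only [Matrix.add_apply, Matrix.of_apply, Matrix.cons_val', Matrix.cons_val_zero,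
      Matrix.cons_val_one, Matrix.cons_val]
    ring
  refine le_trans ?_ (le_abs_self _)
  rw [hdet]
  nlinarith

theorem cont_z : Continuous fun X : E3 => X 2 := PiLp.continuous_apply 2 _ 2

/-- Closed region. -/
def CYc : Set E3 := {Y | 1 / 16 ≤ rad Y ∧ rad Y ≤ 16 ∧ |Y 2| ≤ 16}

theorem norm_le_CYc {Y : E3} (h : Y ∈ CYc) : ‖Y‖ ≤ 23 := by
  have h1 := norm_sq3 Y
  have h2 := rad_sq Y
  have h3 := rad_nonneg Y
  have h4 := abs_le.1 h.2.2
  have h5 := h.2.1
  by_contra hc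
  push Not at hc
  nlinarith

theorem isCompact_CYc : IsCompact CYc := by
  refine Metric.isCompact_of_isClosed_isBounded ?_ ?_
  · refine (isClosed_le continuous_const cont_rad).inter
      ((isClosed_le cont_rad continuous_const).inter (isClosed_le cont_z.abs continuous_const))
  · refine (Metric.isBounded_closedBall (x := (0 : E3)) (r := 23)).subset ?_
    intro Y hY
    simpa using norm_le_CYc hY

theorem CY_sub : CY ⊆ CYc := fun _ h => ⟨h.1.le, h.2.1.le, h.2.2.le⟩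

theorem isOpen_CY : IsOpen CY :=
  (isOpen_lt continuous_const cont_rad).inter
    ((isOpen_lt cont_rad continuous_const).inter (isOpen_lt cont_z.abs continuous_const))

theorem isOpen_RG (ρ : ℝ) : IsOpen (RG ρ) :=
  (isOpen_lt continuous_const cont_rad).inter (isOpen_lt continuous_norm continuous_const)

theorem isCompact_KR (ρ R : ℝ) : IsCompact (KR ρ R) := by
  refine Metric.isCompact_of_isClosed_isBounded ?_ ?_
  · exact (isClosed_le continuous_const cont_rad).inter (isClosed_le continuous_norm continuous_const)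
  · refine (Metric.isBounded_closedBall (x := (0 : E3)) (r := R)).subset ?_
    intro Y hY
    simpa using hY.2

theorem contOn_grd {g : E3 → E3} (hg : ContDiff ℝ (⊤ : ℕ∞) g) :
    ContinuousOn (grd g (jac g)) {X | 0 < rad X ∧ 0 < rad (g X)} :=
  ((contOn_gr hg).norm.add (contOn_gz hg).norm).add (contOn_gt hg).norm

theorem grd_nonneg (g : E3 → E3) (A : E3 → M3) (X : E3) : 0 ≤ grd g A X := by
  unfold grd
  positivity

/-- Point of the segment. -/
noncomputable def Pt (z0 lam α : ℝ) (x0 : E3) (S : M3) (s : ℝ) (Y : E3) : E3 :=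
  (z0 • e3 + lam • act (rotz α) Y)
    + s • ((x0 + lam • act S Y) - (z0 • e3 + lam • act (rotz α) Y))

theorem diff_le {m lam z0 α : ℝ} {S : M3} {x0 : E3} (hlam : 0 ≤ lam) (hm0 : 0 ≤ m)
    (hx0 : ‖x0 - z0 • e3‖ ≤ m * lam)
    (hS : ∀ Y : E3, ‖act S Y - act (rotz α) Y‖ ≤ m * ‖Y‖) {Y : E3} (hY : ‖Y‖ ≤ 23) :
    ‖(x0 + lam • act S Y) - (z0 • e3 + lam • act (rotz α) Y)‖ ≤ 24 * m * lam := by
  have h1 : (x0 + lam • act S Y) - (z0 • e3 + lam • act (rotz α) Y)
      = (x0 - z0 • e3) + lam • (act S Y - act (rotz α) Y) := by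
    rw [smul_sub]; abel
  rw [h1]
  refine (norm_add_le _ _).trans ?_
  rw [norm_smul, Real.norm_eq_abs, abs_of_nonneg hlam]
  have h2 := mul_le_mul_of_nonneg_left (hS Y) hlam
  have h3 := mul_le_mul_of_nonneg_left hY (mul_nonneg hlam hm0)
  nlinarith

theorem Pt_mem {lm m lam z0 α : ℝ} {S : M3} {x0 : E3} (hlm : 0 < lm) (hl1 : lm ≤ lam)
    (hl2 : lam ≤ 7 / 10) (hm0 : 0 ≤ m) (hm1 : m ≤ 1 / 1000) (hz0 : |z0| ≤ 9)
    (hx0 : ‖x0 - z0 • e3‖ ≤ m * lam)
    (hS : ∀ Y : E3, ‖act S Y - act (rotz α) Y‖ ≤ m * ‖Y‖) {Y : E3} (hY : Y ∈ CYc) {s : ℝ}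
    (hs : s ∈ Icc (0 : ℝ) 1) : Pt z0 lam α x0 S s Y ∈ RG (lm / 64) := by
  have hlam : 0 < lam := lt_of_lt_of_le hlm hl1
  have hY23 := norm_le_CYc hY
  have hd := diff_le hlam.le hm0 hx0 hS hY23
  set V := (x0 + lam • act S Y) - (z0 • e3 + lam • act (rotz α) Y) with hV
  have hsV : ‖s • V‖ ≤ 24 * m * lam := by
    rw [norm_smul, Real.norm_eq_abs, abs_of_nonneg hs.1]
    have := norm_nonneg V
    nlinarith [hs.2, hs.1]
  have hml : 24 * m * lam ≤ 24 / 1000 * lam := by nlinarith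
  constructor
  · have h1 := rad_lower (z0 • e3 + lam • act (rotz α) Y) (Pt z0 lam α x0 S s Y)
    have h2 : Pt z0 lam α x0 S s Y - (z0 • e3 + lam • act (rotz α) Y) = s • V := by
      unfold Pt
      rw [← hV]; abel
    rw [h2, rad_e3_add, rad_smul _ _ hlam.le, rad_rotz] at h1
    have h3 := hY.1
    nlinarith
  · have h1 : ‖Pt z0 lam α x0 S s Y‖ ≤ ‖z0 • e3‖ + ‖lam • act (rotz α) Y‖ + ‖s • V‖ := by
      unfold Pt
      rw [← hV]
      exact (norm_add_le _ _).trans (add_le_add (norm_add_le _ _) le_rfl)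
    rw [norm_smul, norm_e3, norm_smul lam, norm_rotz, Real.norm_eq_abs, Real.norm_eq_abs,
      abs_of_pos hlam] at h1
    show ‖Pt z0 lam α x0 S s Y‖ < 32
    nlinarith [norm_nonneg Y]

theorem cont_Pt (z0 lam α : ℝ) (x0 : E3) (S : M3) :
    Continuous fun p : E3 × ℝ => Pt z0 lam α x0 S p.2 p.1 := by
  have h1 : Continuous fun p : E3 × ℝ => act (rotz α) p.1 :=
    cont_act.comp (continuous_const.prodMk continuous_fst)
  have h2 : Continuous fun p : E3 × ℝ => act S p.1 :=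
    cont_act.comp (continuous_const.prodMk continuous_fst)
  unfold Pt
  fun_prop

/-- The linear part. -/
noncomputable def Ls (α : ℝ) (S : M3) (s : ℝ) : E3 →L[ℝ] E3 :=
  (Matrix.toEuclideanLin (rotz α + s • (S - rotz α))).toContinuousLinearMap

theorem Ls_apply (α : ℝ) (S : M3) (s : ℝ) (Y : E3) :
    Ls α S s Y = act (rotz α) Y + s • (act S Y - act (rotz α) Y) := by
  have : Ls α S s Y = act (rotz α + s • (S - rotz α)) Y := rfl
  rw [this, act_addM, act_smulM, act_subM]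

theorem Pt_eq (z0 lam α : ℝ) (x0 : E3) (S : M3) (s : ℝ) (Y : E3) :
    Pt z0 lam α x0 S s Y = (z0 • e3 + s • (x0 - z0 • e3)) + (lam • Ls α S s) Y := by
  rw [ContinuousLinearMap.smul_apply, Ls_apply]
  unfold Pt
  simp only [smul_sub, smul_add, smul_smul, mul_comm s lam]
  abel

theorem Ls_det {m α : ℝ} {S : M3} (hm0 : 0 ≤ m) (hm1 : m ≤ 1 / 1000)
    (hS : ∀ Y : E3, ‖act S Y - act (rotz α) Y‖ ≤ m * ‖Y‖) {s : ℝ} (hs : s ∈ Icc (0 : ℝ) 1) :
    1 / 2 ≤ |(Ls α S s).det| := by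
  have h1 : (Ls α S s).det = (rotz α + s • (S - rotz α)).det := by
    unfold Ls
    exact LinearMap.det_toLpLin 2 _
  rw [h1]
  refine det_near (Real.cos α) (Real.sin α) m (s • (S - rotz α)) hm0 hm1
    (Real.cos_sq_add_sin_sq α) ?_
  intro i j
  have h2 := hS (EuclideanSpace.single j 1)
  rw [← act_subM, EuclideanSpace.norm_single, norm_one, mul_one] at h2
  have h3 : act (S - rotz α) (EuclideanSpace.single j 1) i = (S - rotz α) i j := by
    simp [act, Matrix.mulVec_single_one]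
  have h4 : |(S - rotz α) i j| ≤ m := by
    rw [← h3]
    refine le_trans ?_ h2
    exact PiLp.norm_apply_le (act (S - rotz α) (EuclideanSpace.single j 1)) i
  rw [Matrix.smul_apply, smul_eq_mul, abs_mul, abs_of_nonneg hs.1]
  nlinarith [hs.1, hs.2, abs_nonneg ((S - rotz α) i j)]

theorem Ls_inj {m α : ℝ} {S : M3} (hm0 : 0 ≤ m) (hm1 : m ≤ 1 / 1000)
    (hS : ∀ Y : E3, ‖act S Y - act (rotz α) Y‖ ≤ m * ‖Y‖) {s : ℝ} (hs : s ∈ Icc (0 : ℝ) 1)
    (Y : E3) (h : Ls α S s Y = 0) : Y = 0 := by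
  rw [Ls_apply] at h
  have h1 : act (rotz α) Y = -(s • (act S Y - act (rotz α) Y)) := eq_neg_of_add_eq_zero_left h
  have h2 : ‖Y‖ ≤ s * (m * ‖Y‖) := by
    have h0 := congrArg norm h1
    rw [norm_rotz, norm_neg, norm_smul, Real.norm_eq_abs, abs_of_nonneg hs.1] at h0
    calc ‖Y‖ = s * ‖act S Y - act (rotz α) Y‖ := h0
      _ ≤ s * (m * ‖Y‖) := mul_le_mul_of_nonneg_left (hS Y) hs.1
  have h3 := norm_nonneg Y
  have h4 : s * (m * ‖Y‖) ≤ 1 / 1000 * ‖Y‖ := by
    have : s * (m * ‖Y‖) ≤ 1 * (m * ‖Y‖) :=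
      mul_le_mul_of_nonneg_right hs.2 (mul_nonneg hm0 h3)
    nlinarith
  exact norm_le_zero_iff.1 (by linarith)

theorem ftc_est (hGDN : Stmt_GDN) {g : E3 → E3} (hg : ContDiff ℝ (⊤ : ℕ∞) g) {X0 V : E3} {M : ℝ}
    (hV : ‖V‖ ≤ M) (hseg : ∀ s ∈ Icc (0 : ℝ) 1, 0 < rad (X0 + s • V) ∧ 0 < rad (g (X0 + s • V))) :
    ‖gg (X0 + V) (g (X0 + V)) - gg X0 (g X0)‖
      ≤ M * ∫ s in Ioc (0 : ℝ) 1, grd g (jac g) (X0 + s • V) := by
  have hPd : ∀ s : ℝ, HasDerivAt (fun s : ℝ => X0 + s • V) V s := by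
    intro s
    have h1 : HasDerivAt (fun s : ℝ => s • V) ((1 : ℝ) • V) s := (hasDerivAt_id s).smul_const V
    rw [one_smul] at h1
    exact h1.const_add X0
  have hder : ∀ s ∈ uIcc (0 : ℝ) 1,
      HasDerivAt (fun s : ℝ => gg (X0 + s • V) (g (X0 + s • V)))
        (fderiv ℝ (fun X => gg X (g X)) (X0 + s • V) V) s := by
    intro s hs
    rw [uIcc_of_le zero_le_one] at hs
    have h2 : HasFDerivAt (fun X => gg X (g X)) (fderiv ℝ (fun X => gg X (g X)) (X0 + s • V))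
        (X0 + s • V) :=
      (((hGDN.1 g _ hg (hseg s hs).1 (hseg s hs).2).1).differentiableAt
        (by norm_num)).hasFDerivAt
    exact h2.comp_hasDerivAt s (hPd s)
  have hcd : ContinuousOn (fun s : ℝ => fderiv ℝ (fun X => gg X (g X)) (X0 + s • V) V)
      (uIcc (0 : ℝ) 1) := by
    intro s hs
    rw [uIcc_of_le zero_le_one] at hs
    have h2 : ContinuousAt (fderiv ℝ (fun X => gg X (g X))) (X0 + s • V) :=
      ((hGDN.1 g _ hg (hseg s hs).1 (hseg s hs).2).1).continuousAt_fderiv (by norm_num)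
    have h3 : ContinuousAt (fun s : ℝ => fderiv ℝ (fun X => gg X (g X)) (X0 + s • V)) s :=
      ContinuousAt.comp (g := fderiv ℝ (fun X => gg X (g X))) (f := fun s : ℝ => X0 + s • V)
        h2 (hPd s).continuousAt
    exact (h3.clm_apply continuousAt_const).continuousWithinAt
  have hftc := intervalIntegral.integral_eq_sub_of_hasDerivAt hder hcd.intervalIntegrable
  simp only [one_smul, zero_smul, add_zero] at hftc
  rw [← hftc, intervalIntegral.integral_of_le zero_le_one, ← integral_const_mul]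
  have hΦY : IntegrableOn (fun s : ℝ => grd g (jac g) (X0 + s • V)) (Ioc (0 : ℝ) 1) := by
    have h1 : ContinuousOn (fun s : ℝ => grd g (jac g) (X0 + s • V)) (Icc (0 : ℝ) 1) := by
      have h2 : ContinuousOn (fun s : ℝ => X0 + s • V) (Icc (0 : ℝ) 1) := by fun_prop
      exact (contOn_grd hg).comp h2 hseg
    exact (h1.integrableOn_compact isCompact_Icc).mono_set Ioc_subset_Icc_self
  refine norm_integral_le_of_norm_le (hΦY.const_mul M) ?_
  rw [ae_restrict_iff' measurableSet_Ioc]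
  refine Eventually.of_forall fun s hs => ?_
  have h1 := hseg s (Ioc_subset_Icc_self hs)
  have h2 := (hGDN.1 g (X0 + s • V) hg h1.1 h1.2).2.2 V
  have h3 := grd_nonneg g (jac g) (X0 + s • V)
  calc ‖fderiv ℝ (fun X => gg X (g X)) (X0 + s • V) V‖
      ≤ grd g (jac g) (X0 + s • V) * ‖V‖ := h2
    _ ≤ grd g (jac g) (X0 + s • V) * M := mul_le_mul_of_nonneg_left hV h3
    _ = M * grd g (jac g) (X0 + s • V) := by rw [mul_comm]

theorem cv_est {lm lam m α : ℝ} {S : M3} (c : E3) (hlm : 0 < lm) (hl1 : lm ≤ lam) (hm0 : 0 ≤ m)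
    (hm1 : m ≤ 1 / 1000)
    (hS : ∀ Y : E3, ‖act S Y - act (rotz α) Y‖ ≤ m * ‖Y‖) (f : E3 → ℝ) (hf0 : ∀ X, 0 ≤ f X)
    {R : Set E3} (hfR : IntegrableOn f R) {s : ℝ} (hs : s ∈ Icc (0 : ℝ) 1)
    (hmap : ∀ Y ∈ CY, c + (lam • Ls α S s) Y ∈ R) :
    ∫ Y in CY, f (c + (lam • Ls α S s) Y) ≤ (2 / lm ^ 3) * ∫ X in R, f X := by
  have hlam : 0 < lam := lt_of_lt_of_le hlm hl1
  have hder : ∀ Y ∈ CY, HasFDerivWithinAt (fun Y => c + (lam • Ls α S s) Y)
      (lam • Ls α S s) CY Y := by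
    intro Y _
    exact ((lam • Ls α S s).hasFDerivAt.const_add _).hasFDerivWithinAt
  have hinj : InjOn (fun Y => c + (lam • Ls α S s) Y) CY := by
    intro Y _ Y' _ h
    have h1 : (lam • Ls α S s) Y = (lam • Ls α S s) Y' := add_left_cancel h
    rw [ContinuousLinearMap.smul_apply, ContinuousLinearMap.smul_apply] at h1
    have h2 := smul_right_injective E3 hlam.ne' h1
    have h3 : Ls α S s (Y - Y') = 0 := by
      rw [map_sub, sub_eq_zero]; exact h2
    exact sub_eq_zero.1 (Ls_inj hm0 hm1 hS hs _ h3)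
  have h1 := integral_image_eq_integral_abs_det_fderiv_smul (volume : Measure E3)
    isOpen_CY.measurableSet hder hinj f
  have h2 : ∫ X in (fun Y => c + (lam • Ls α S s) Y) '' CY, f X ≤ ∫ X in R, f X := by
    refine setIntegral_mono_set hfR ?_ ?_
    · exact Eventually.of_forall hf0
    · refine HasSubset.Subset.eventuallyLE ?_
      rintro X ⟨Y, hY, rfl⟩
      exact hmap Y hY
  rw [h1] at h2
  have h3 : (lam • Ls α S s).det = lam ^ 3 * (Ls α S s).det := by
    have h4 : ((lam • Ls α S s : E3 →L[ℝ] E3) : E3 →ₗ[ℝ] E3)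
        = lam • ((Ls α S s : E3 →L[ℝ] E3) : E3 →ₗ[ℝ] E3) := rfl
    unfold ContinuousLinearMap.det
    rw [h4, LinearMap.det_smul]
    simp
  rw [h3, abs_mul, abs_of_pos (by positivity : (0 : ℝ) < lam ^ 3)] at h2
  have h5 : ∫ Y in CY, (lam ^ 3 * |(Ls α S s).det|) • f (c + (lam • Ls α S s) Y)
      = (lam ^ 3 * |(Ls α S s).det|) * ∫ Y in CY, f (c + (lam • Ls α S s) Y) := by
    simp only [smul_eq_mul]
    exact integral_const_mul _ _
  rw [h5] at h2
  have h6 := Ls_det hm0 hm1 hS hs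
  have h7 : 0 ≤ ∫ Y in CY, f (c + (lam • Ls α S s) Y) := integral_nonneg fun _ => hf0 _
  have h8 : lm ^ 3 * (1 / 2) ≤ lam ^ 3 * |(Ls α S s).det| := by
    have h10 : lm ^ 3 ≤ lam ^ 3 := pow_le_pow_left₀ hlm.le hl1 3
    have h9 : (0 : ℝ) < lm ^ 3 := by positivity
    nlinarith
  have h10 : lm ^ 3 * (1 / 2) * ∫ Y in CY, f (c + (lam • Ls α S s) Y) ≤ ∫ X in R, f X :=
    (mul_le_mul_of_nonneg_right h8 h7).trans h2
  rw [div_mul_eq_mul_div, le_div_iff₀ (by positivity)]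
  nlinarith

end DSPS_

open DSPS_ WDBS_ in
theorem stmt_DSPS (hGDN : Stmt_GDN) (_hBAS : Stmt_BAS) : Stmt_DSPS := by
  intro lm hlm hlm7
  refine ⟨48 / lm ^ 3, by positivity, ?_⟩
  intro g lam m z0 α S x0 hg hrad hl1 hl2 hm0 hm1 hz0 hx0 hS
  have hlam : 0 < lam := lt_of_lt_of_le hlm hl1
  have hRGKR : RG (lm / 64) ⊆ KR (lm / 64) 40 := by
    intro X hX
    exact ⟨hX.1.le, by have := hX.2; linarith⟩
  have hKRW : ∀ X ∈ KR (lm / 64) 40, 0 < rad X ∧ 0 < rad (g X) := by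
    intro X hX
    exact ⟨lt_of_lt_of_le (by positivity) hX.1, hrad X hX⟩
  have hPm : ∀ Y ∈ CYc, ∀ s ∈ Icc (0 : ℝ) 1, Pt z0 lam α x0 S s Y ∈ RG (lm / 64) := by
    intro Y hY s hs
    exact Pt_mem hlm hl1 hl2 hm0 hm1 hz0 hx0 hS hY hs
  have hgrdKR : IntegrableOn (grd g (jac g)) (KR (lm / 64) 40) :=
    ((contOn_grd hg).mono hKRW).integrableOn_compact (isCompact_KR _ _)
  have hgrdRG : IntegrableOn (grd g (jac g)) (RG (lm / 64)) := hgrdKR.mono_set hRGKR
  have hJ : 0 ≤ ∫ X in RG (lm / 64), grd g (jac g) X := integral_nonneg fun _ => grd_nonneg _ _ _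
  -- the product function
  have hΦc : ContinuousOn (fun p : E3 × ℝ => grd g (jac g) (Pt z0 lam α x0 S p.2 p.1))
      (CYc ×ˢ Icc (0 : ℝ) 1) := by
    refine (contOn_grd hg).comp (cont_Pt z0 lam α x0 S).continuousOn ?_
    rintro ⟨Y, s⟩ ⟨hY, hs⟩
    exact hKRW _ (hRGKR (hPm Y hY s hs))
  have hΦi : Integrable (fun p : E3 × ℝ => grd g (jac g) (Pt z0 lam α x0 S p.2 p.1))
      ((volume.restrict CY).prod (volume.restrict (Ioc (0 : ℝ) 1))) := by
    have h1 : IntegrableOn (fun p : E3 × ℝ => grd g (jac g) (Pt z0 lam α x0 S p.2 p.1))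
        (CYc ×ˢ Icc (0 : ℝ) 1) (volume : Measure (E3 × ℝ)) :=
      hΦc.integrableOn_compact (isCompact_CYc.prod isCompact_Icc)
    have h2 : IntegrableOn (fun p : E3 × ℝ => grd g (jac g) (Pt z0 lam α x0 S p.2 p.1))
        (CY ×ˢ Ioc (0 : ℝ) 1) (volume : Measure (E3 × ℝ)) :=
      h1.mono_set (prod_mono CY_sub Ioc_subset_Icc_self)
    rw [Measure.prod_restrict]
    exact h2
  -- pointwise estimate
  have hpt : ∀ Y ∈ CY, ‖gg (x0 + lam • act S Y) (g (x0 + lam • act S Y))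
        - gg (z0 • e3 + lam • act (rotz α) Y) (g (z0 • e3 + lam • act (rotz α) Y))‖
      ≤ (24 * m * lam) * ∫ s in Ioc (0 : ℝ) 1, grd g (jac g) (Pt z0 lam α x0 S s Y) := by
    intro Y hY
    have hYc := CY_sub hY
    have hd := diff_le hlam.le hm0 hx0 hS (norm_le_CYc hYc)
    have h1 := ftc_est hGDN hg (X0 := z0 • e3 + lam • act (rotz α) Y) hd ?_
    · rw [add_sub_cancel] at h1
      exact h1
    · intro s hs
      exact hKRW _ (hRGKR (hPm Y hYc s hs))
  -- change of variables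
  have hcv : ∀ s ∈ Ioc (0 : ℝ) 1, ∫ Y in CY, grd g (jac g) (Pt z0 lam α x0 S s Y)
      ≤ (2 / lm ^ 3) * ∫ X in RG (lm / 64), grd g (jac g) X := by
    intro s hs
    have hs' := Ioc_subset_Icc_self hs
    have h1 := cv_est (z0 • e3 + s • (x0 - z0 • e3)) hlm hl1 hm0 hm1 hS (grd g (jac g))
      (fun X => grd_nonneg _ _ _) hgrdRG hs' ?_
    · simp only [← Pt_eq] at h1
      exact h1
    · intro Y hY
      rw [← Pt_eq]
      exact hPm Y (CY_sub hY) s hs'
  -- put together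
  have hL : IntegrableOn (fun Y => ‖gg (x0 + lam • act S Y) (g (x0 + lam • act S Y))
        - gg (z0 • e3 + lam • act (rotz α) Y) (g (z0 • e3 + lam • act (rotz α) Y))‖) CY := by
    have h1 : Continuous fun Y : E3 => act (rotz α) Y :=
      cont_act.comp (continuous_const.prodMk continuous_id)
    have h2 : Continuous fun Y : E3 => act S Y :=
      cont_act.comp (continuous_const.prodMk continuous_id)
    have h3 : Continuous fun Y : E3 => gg (x0 + lam • act S Y) (g (x0 + lam • act S Y)) :=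
      (cont_gg hg.continuous).comp (f := fun Y : E3 => x0 + lam • act S Y) (by fun_prop)
    have h4 : Continuous fun Y : E3 => gg (z0 • e3 + lam • act (rotz α) Y)
        (g (z0 • e3 + lam • act (rotz α) Y)) :=
      (cont_gg hg.continuous).comp (f := fun Y : E3 => z0 • e3 + lam • act (rotz α) Y)
        (by fun_prop)
    exact ((h3.sub h4).norm.continuousOn.integrableOn_compact isCompact_CYc).mono_set CY_sub
  have hR : IntegrableOn (fun Y => (24 * m * lam) *
      ∫ s in Ioc (0 : ℝ) 1, grd g (jac g) (Pt z0 lam α x0 S s Y)) CY :=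
    (hΦi.integral_prod_left).const_mul _
  calc ∫ Y in CY, ‖gg (x0 + lam • act S Y) (g (x0 + lam • act S Y))
        - gg (z0 • e3 + lam • act (rotz α) Y) (g (z0 • e3 + lam • act (rotz α) Y))‖
      ≤ ∫ Y in CY, (24 * m * lam) *
          ∫ s in Ioc (0 : ℝ) 1, grd g (jac g) (Pt z0 lam α x0 S s Y) :=
        setIntegral_mono_on hL hR isOpen_CY.measurableSet hpt
    _ = (24 * m * lam) * ∫ s in Ioc (0 : ℝ) 1,
          ∫ Y in CY, grd g (jac g) (Pt z0 lam α x0 S s Y) := by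
        rw [integral_const_mul]
        congr 1
        exact integral_integral_swap hΦi
    _ ≤ (24 * m * lam) * ∫ _s in Ioc (0 : ℝ) 1,
          (2 / lm ^ 3) * ∫ X in RG (lm / 64), grd g (jac g) X := by
        refine mul_le_mul_of_nonneg_left ?_ (by positivity)
        have hc : IntegrableOn (fun _ : ℝ =>
            (2 / lm ^ 3) * ∫ X in RG (lm / 64), grd g (jac g) X) (Ioc (0 : ℝ) 1) :=
          (integrable_const _)
        exact setIntegral_mono_on hΦi.integral_prod_right hc measurableSet_Ioc hcv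
    _ = lam * (48 / lm ^ 3 * m * ∫ X in RG (lm / 64), grd g (jac g) X) := by
        rw [setIntegral_const]
        simp only [Real.volume_real_Ioc_of_le zero_le_one, sub_zero, one_smul]
        ring
    _ ≤ 48 / lm ^ 3 * m * ∫ X in RG (lm / 64), grd g (jac g) X := by
        have h1 : 0 ≤ 48 / lm ^ 3 * m * ∫ X in RG (lm / 64), grd g (jac g) X := by positivity
        nlinarith

end Pool.Mart
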