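import Pool.Agent.Work.MP_680515_an.B.GROW

/-!
# MP_680515_an: block DTR
-/

open MeasureTheory Set Filter Topology Complex

namespace Pool.Mart.DTR_

/-- Integrability of the defect on compact sets on which the two vectors do not vanish. -/
theorem dfc_int (hPIOI : Stmt_PIOI) (Ω : Set E3) (f : E3 → E3) (A : E3 → M3) (hΩ : IsOpen Ω)
    (hf : ContinuousOn f Ω) (hw : WeakGrad Ω f A) (p q : E3) (K : Set E3) (hK : IsCompact K)
    (hKΩ : K ⊆ Ω) (hp : ∀ x ∈ K, x ≠ p) (hq : ∀ x ∈ K, f x ≠ q) :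
    IntegrableOn (fun x => dfc (A x) (x - p) (f x - q)) K := by
  obtain ⟨h1, -, -, h4⟩ := hPIOI Ω f A hΩ hf hw K hK hKΩ
  have hfK : ContinuousOn f K := hf.mono hKΩ
  have hY : ContinuousOn (fun x => f x - q) K := hfK.sub continuousOn_const
  have hX : ContinuousOn (fun x : E3 => x - p) K := by fun_prop
  have hnY : ContinuousOn (fun x => ‖f x - q‖) K := hY.norm
  have hnX : ContinuousOn (fun x : E3 => ‖x - p‖) K := hX.norm
  have hY0 : ∀ x ∈ K, ‖f x - q‖ ≠ 0 := fun x hx => norm_ne_zero_iff.mpr (sub_ne_zero.mpr (hq x hx))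
  have hX0 : ∀ x ∈ K, ‖x - p‖ ≠ 0 := fun x hx => norm_ne_zero_iff.mpr (sub_ne_zero.mpr (hp x hx))
  have hrat : ContinuousOn (fun x => ‖x - p‖ / ‖f x - q‖) K := hnX.div hnY hY0
  have hH : ContinuousOn (fun x => (‖x - p‖ / ‖f x - q‖) ^ 2 • (‖f x - q‖⁻¹ • (f x - q))) K :=
    (hrat.pow 2).smul ((hnY.inv₀ hY0).smul hY)
  have hb : ContinuousOn (fun x : E3 => ‖x - p‖⁻¹ • (x - p)) K := (hnX.inv₀ hX0).smul hX
  have h5 := h4 _ _ hH hb
  have h1' : IntegrableOn (fun x => (2 / 3) * (A x).det) K := Integrable.const_mul h1 (2 / 3)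
  have h6 : IntegrableOn (fun x => (2 / 3) * (A x).det * (‖x - p‖ / ‖f x - q‖) ^ 3) K :=
    h1'.mul_continuousOn (hrat.pow 3) hK
  have h7 : IntegrableOn (fun _ : E3 => (2 / 3 : ℝ)) K :=
    continuousOn_const.integrableOn_compact hK
  have h8 := (h6.add h7).sub h5
  apply h8.congr_fun_ae
  filter_upwards with x
  simp only [Pi.sub_apply, Pi.add_apply, dfc]
  congr 1
  simp only [cpair, Finset.mul_sum]
  apply Finset.sum_congr rfl
  intro i _
  apply Finset.sum_congr rfl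
  intro j _
  simp only [PiLp.smul_apply, smul_eq_mul]
  ring

theorem rad_le_norm (X : E3) : rad X ≤ ‖X‖ := by
  unfold rad
  rw [EuclideanSpace.norm_eq]
  apply Real.sqrt_le_sqrt
  simp only [Fin.sum_univ_three, Real.norm_eq_abs, sq_abs]
  nlinarith [sq_nonneg (X 2)]

theorem rad_sub_e3 (X : E3) : rad (X - e3) = rad X := by
  simp [rad, e3]

theorem norm_e3 : ‖e3‖ = 1 := by
  simp [e3]

theorem closed_ring (a b : ℝ) (p : E3) : IsCompact {x : E3 | a ≤ ‖x - p‖ ∧ ‖x - p‖ ≤ b} := by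
  have hc : Continuous fun x : E3 => ‖x - p‖ := by fun_prop
  apply (isCompact_closedBall p b).of_isClosed_subset
  · exact (isClosed_le continuous_const hc).inter (isClosed_le hc continuous_const)
  · rintro x ⟨-, hx⟩
    rw [Metric.mem_closedBall, dist_eq_norm]
    exact hx

theorem int1 (hPIOI : Stmt_PIOI) (hWIN1 : Stmt_WIN1) (ε a b : ℝ) (F : E3 → E3) (B : E3 → M3)
    (hN : Nm ε F B) (hε : 0 ≤ ε) (ha : ε < a) (hb : b < 64) :
    IntegrableOn (fun X => dfc (B X) X (F X)) {X | a < ‖X‖ ∧ ‖X‖ < b} := by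
  have hK := closed_ring a b 0
  have h := dfc_int hPIOI (Metric.ball 0 64) F B Metric.isOpen_ball hN.cont hN.wg 0 0 _ hK
    (by
      rintro x ⟨-, hx⟩
      rw [mem_ball_zero_iff]
      rw [sub_zero] at hx
      linarith)
    (by
      rintro x ⟨hx, -⟩ h0
      rw [h0, sub_zero, norm_zero] at hx
      linarith)
    (by
      rintro x ⟨hx, hx2⟩ h0
      rw [sub_zero] at hx hx2
      have h1 := hN.close x (by rw [mem_ball_zero_iff]; linarith)
      rw [h0, zero_sub, norm_neg, hWIN1.1] at h1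
      linarith)
  have h2 := h.mono_set (t := {X : E3 | a ≤ ‖X - 0‖ ∧ ‖X - 0‖ ≤ b})
    (s := {X : E3 | a < ‖X‖ ∧ ‖X‖ < b}) (by
      rintro x ⟨h1, h2⟩
      simp only [sub_zero, mem_ofPred_eq]
      exact ⟨h1.le, h2.le⟩)
  simpa using h2

theorem int2 (hPIOI : Stmt_PIOI) (hWIN1 : Stmt_WIN1) (ε a b : ℝ) (F : E3 → E3) (B : E3 → M3)
    (hN : Nm ε F B) (hε : 0 ≤ ε) (ha : ε < a) (hb : b < 63) :
    IntegrableOn (fun X => dfc (B X) (X - e3) (F X - e3)) {X | a < ‖X - e3‖ ∧ ‖X - e3‖ < b} := by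
  have hK := closed_ring a b e3
  have hnorm : ∀ x : E3, ‖x‖ ≤ ‖x - e3‖ + 1 := by
    intro x
    have h1 : ‖x‖ = ‖(x - e3) + e3‖ := by rw [sub_add_cancel]
    rw [h1]
    have h2 := norm_add_le (x - e3) e3
    rwa [norm_e3] at h2
  have h := dfc_int hPIOI (Metric.ball 0 64) F B Metric.isOpen_ball hN.cont hN.wg e3 e3 _ hK
    (by
      rintro x ⟨-, hx⟩
      rw [mem_ball_zero_iff]
      linarith [hnorm x])
    (by
      rintro x ⟨hx, -⟩ h0
      rw [h0, sub_self, norm_zero] at hx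
      linarith)
    (by
      rintro x ⟨hx, hx2⟩ h0
      have h1 := hN.close x (by rw [mem_ball_zero_iff]; linarith [hnorm x])
      have h2 : wind x - e3 = wind (x - e3) := by
        have h3 := hWIN1.2.2.2.2.2.1 (-1) x
        simp only [neg_smul, one_smul] at h3
        rw [sub_eq_add_neg, ← h3, ← sub_eq_add_neg]
      rw [h0, norm_sub_rev, h2, hWIN1.1] at h1
      linarith)
  exact h.mono_set (by
      rintro x ⟨h1, h2⟩
      exact ⟨h1.le, h2.le⟩)

/-- The second defect in physical coordinates. -/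
theorem sec_eq (hCHV : Stmt_CHV) (hROT : Stmt_ROT) (a b ε : ℝ) (Ω : Set E3) (f : E3 → E3)
    (A : E3 → M3) (γ : ℝ → E3) (O O' : ℝ → ℕ → M3) (hP : Pack ε Ω f γ O O') (t : ℝ)
    (ht : t ∈ Icc (-20 : ℝ) 20) (n : ℕ) :
    ∫ X in {X : E3 | a < ‖X - e3‖ ∧ ‖X - e3‖ < b},
      dfc (nA f A γ O O' t n X) (X - e3) (nF f γ O O' t n X - e3)
      = ((len γ t n) ^ 3)⁻¹ * ∫ x in {x | a * len γ t n < ‖x - γ (t + sc n)‖ ∧
          ‖x - γ (t + sc n)‖ < b * len γ t n},
          dfc (A x) (x - γ (t + sc n)) (f x - f (γ (t + sc n))) := by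
  have hl := hP.pos t ht n
  have hl' := hP.pos' t ht n
  have hO := hP.so t ht n
  have hO' := hP.so' t ht n
  have hb1 := hP.base t ht n
  have hb2 := hP.base' t ht n
  set l := len γ t n with hldef
  set l' := len (f ∘ γ) t n with hl'def
  obtain ⟨-, hn, h1, h2, -⟩ := hCHV (fun _ => 0) (γ t) l (O t n) hl hO
  obtain ⟨-, hn', h1', h2', -⟩ := hCHV (fun _ => 0) (γ t) l (O' t n) hl hO'
  have hm1 := (GROW_.open_ring (a * l) (b * l) (γ (t + sc n))).measurableSet
  have hm2 := (GROW_.open_ring a b e3).measurableSet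
  have hch := (hCHV ({x : E3 | a * l < ‖x - γ (t + sc n)‖ ∧
          ‖x - γ (t + sc n)‖ < b * l}.indicator
    (fun x => dfc (A x) (x - γ (t + sc n)) (f x - f (γ (t + sc n))))) (γ t) l (O t n) hl hO).1
  rw [integral_indicator hm1] at hch
  rw [← hch, ← integral_indicator hm2]
  apply integral_congr_ae
  filter_upwards with X
  have hactsub : ∀ (M : M3) (u v : E3), act M (u - v) = act M u - act M v := by
    intro M u v
    simp [act, Matrix.mulVec_sub]
  have hactsmul : ∀ (M : M3) (c : ℝ) (v : E3), act M (c • v) = c • act M v := by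
    intro M c v
    simp [act, Matrix.mulVec_smul]
  have hX : γ t + l • act (O t n) X - γ (t + sc n) = l • act (O t n) (X - e3) := by
    rw [hactsub, smul_sub, ← hb1]
    abel
  have hnX : ‖γ t + l • act (O t n) X - γ (t + sc n)‖ = l * ‖X - e3‖ := by
    rw [hX, norm_smul, hn, Real.norm_of_nonneg hl.le]
  have hmem : (γ t + l • act (O t n) X ∈ {x : E3 | a * l < ‖x - γ (t + sc n)‖ ∧
          ‖x - γ (t + sc n)‖ < b * l}) ↔ X ∈ {X : E3 | a < ‖X - e3‖ ∧ ‖X - e3‖ < b} := by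
    simp only [mem_ofPred_eq, hnX]
    constructor
    · rintro ⟨h3, h4⟩
      exact ⟨by nlinarith, by nlinarith⟩
    · rintro ⟨h3, h4⟩
      exact ⟨by nlinarith, by nlinarith⟩
  by_cases hXm : X ∈ {X : E3 | a < ‖X - e3‖ ∧ ‖X - e3‖ < b}
  · rw [indicator_of_mem hXm, indicator_of_mem (hmem.2 hXm), hX]
    obtain ⟨-, hd, -⟩ := hROT (A (γ t + l • act (O t n) X)) (O t n) (O' t n) (l / l') l l'
      (by positivity) hl hl' rfl hO hO'
    have h3 := hd (l • act (O t n) (X - e3)) (f (γ t + l • act (O t n) X) - f (γ (t + sc n)))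
    rw [← h3]
    have h4 : l⁻¹ • act (O t n).transpose (l • act (O t n) (X - e3)) = X - e3 := by
      rw [hactsmul, h2, smul_smul, inv_mul_cancel₀ hl.ne', one_smul]
    have h5 : l'⁻¹ • act (O' t n).transpose (f (γ t + l • act (O t n) X) - f (γ (t + sc n)))
        = nF f γ O O' t n X - e3 := by
      have h6 : f (γ t + l • act (O t n) X) - f (γ (t + sc n))
          = (f (γ t + l • act (O t n) X) - f (γ t)) - l' • act (O' t n) e3 := by
        rw [← hb2]
        abel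
      rw [h6, hactsub, smul_sub, hactsmul, h2', smul_smul, inv_mul_cancel₀ hl'.ne', one_smul]
      rfl
    rw [h4, h5]
    rfl
  · rw [indicator_of_notMem hXm, indicator_of_notMem (fun h => hXm (hmem.1 h))]

end Pool.Mart.DTR_

namespace Pool.Mart

open DTR_

theorem stmt_DTR (hCHV : Stmt_CHV) (hROT : Stmt_ROT) (hSCL : Stmt_SCL) (hENB : Stmt_ENB)
    (hNRM : Stmt_NRM) (hPIOI : Stmt_PIOI) (hWIN1 : Stmt_WIN1) : Stmt_DTR := by
  intro ρ hρ hρ1
  refine ⟨2, by norm_num, ?_⟩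
  intro ε Ω f A γ O O' hε hε1 hΩ hq hi hP t ht n
  have hsc0 : 0 < sc n := by unfold sc; positivity
  have hsc1 : sc n ≤ 1 := by
    unfold sc
    exact pow_le_one₀ (by norm_num) (by norm_num)
  have ht20 : t ∈ Icc (-20 : ℝ) 20 := ⟨by linarith [ht.1], by linarith [ht.2]⟩
  have ht' : t + sc n ∈ Icc (-20 : ℝ) 20 := ⟨by linarith [ht.1], by linarith [ht.2]⟩
  have hε2 : ε ≤ 1 / 1024 := by linarith
  obtain ⟨hN, -⟩ := hNRM ε Ω f A γ O O' 2 hΩ hq hi le_rfl hP t ht20 n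
  set F := nF f γ O O' t n with hF
  set B := nA f A γ O O' t n with hB
  have hl := hP.pos t ht20 n
  have hl2 := hP.pos (t + sc n) ht' n
  set l := len γ t n with hldef
  set l2 := len γ (t + sc n) n with hl2def
  have hll : |l2 - l| ≤ 2 * ε * l := by
    have h := (hSCL ε Ω f γ O O' hε hε2 hP t ht20 n).1 1 0 (by norm_num) (by simpa using ht')
      (by norm_num)
    have h1 := h.1
    have h2 : sc 0 = 1 := by simp [sc]
    rw [h2, one_mul, one_mul, add_zero] at h1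
    exact h1
  obtain ⟨hll1, hll2⟩ := abs_le.mp hll
  set κ := l2 / l with hκ
  have hκl : κ * l = l2 := by rw [hκ]; field_simp
  have hκ1 : 511 / 512 ≤ κ := by
    rw [hκ, le_div_iff₀ hl]
    nlinarith
  have hκ2 : κ ≤ 513 / 512 := by
    rw [hκ, div_le_iff₀ hl]
    nlinarith
  have hI1 := int1 hPIOI hWIN1 ε (ρ / 2) 40 F B hN hε (by linarith) (by norm_num)
  have hI2 := int2 hPIOI hWIN1 ε (ρ / 2 * κ) (40 * κ) F B hN hε (by nlinarith) (by nlinarith)
  set Reg : Set E3 := {X | ρ < rad X ∧ ‖X‖ < 32} with hReg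
  have hS1 : Reg ⊆ {X : E3 | ρ / 2 < ‖X‖ ∧ ‖X‖ < 40} := by
    rintro X ⟨h1, h2⟩
    exact ⟨by linarith [rad_le_norm X], by linarith⟩
  have hS2 : Reg ⊆ {X : E3 | ρ / 2 * κ < ‖X - e3‖ ∧ ‖X - e3‖ < 40 * κ} := by
    rintro X ⟨h1, h2⟩
    constructor
    · have h3 := rad_le_norm (X - e3)
      rw [rad_sub_e3] at h3
      nlinarith
    · have h3 := norm_sub_le X e3
      rw [norm_e3] at h3
      nlinarith
  have hint : IntegrableOn (fun X => dl F B X) Reg :=
    (hI1.mono_set hS1).add (hI2.mono_set hS2)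
  refine ⟨hint, ?_⟩
  have hnn : ∀ (S : Set E3), S ⊆ Metric.ball 0 64 → ∀ (u v : E3 → E3),
      ∀ᵐ X ∂(volume.restrict S), 0 ≤ dfc (B X) (u X) (v X) := by
    intro S hS u v
    have h1 : ∀ᵐ X ∂(volume.restrict S), Good (B X) :=
      ae_mono (Measure.restrict_mono hS le_rfl) hN.good
    filter_upwards [h1] with X hX
    exact GROW_.dfc_nonneg hENB _ hX _ _
  have hA1 : ∫ X in Reg, dfc (B X) X (F X) ≤ DD (ρ / 2) F B := by
    unfold DD
    apply setIntegral_mono_set hI1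
    · apply hnn
      rintro X ⟨-, hX⟩
      rw [mem_ball_zero_iff]
      linarith
    · exact Filter.Eventually.of_forall hS1
  have hA2 : ∫ X in Reg, dfc (B X) (X - e3) (F X - e3)
      ≤ ∫ X in {X : E3 | ρ / 2 * κ < ‖X - e3‖ ∧ ‖X - e3‖ < 40 * κ},
        dfc (B X) (X - e3) (F X - e3) := by
    apply setIntegral_mono_set hI2
    · apply hnn
      rintro X ⟨-, hX⟩
      rw [mem_ball_zero_iff]
      have h1 : ‖X‖ = ‖(X - e3) + e3‖ := by rw [sub_add_cancel]
      have h2 := norm_add_le (X - e3) e3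
      rw [norm_e3] at h2
      rw [h1]
      nlinarith
    · exact Filter.Eventually.of_forall hS2
  have hA3 := sec_eq hCHV hROT (ρ / 2 * κ) (40 * κ) ε Ω f A γ O O' hP t ht20 n
  have hA4 := GROW_.DD_eq hCHV hROT (ρ / 2) ε Ω f A γ O O' hP (t + sc n) ht' n
  have hset : {x : E3 | ρ / 2 * κ * len γ t n < ‖x - γ (t + sc n)‖ ∧
          ‖x - γ (t + sc n)‖ < 40 * κ * len γ t n} = GROW_.rg (ρ / 2) γ (t + sc n) n := by
    unfold GROW_.rg
    rw [← hldef, ← hl2def, mul_assoc, mul_assoc, hκl]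
  rw [hset] at hA3
  have hDD0 : 0 ≤ DD (ρ / 2) (nF f γ O O' (t + sc n) n) (nA f A γ O O' (t + sc n) n) := by
    obtain ⟨hN2, -⟩ := hNRM ε Ω f A γ O O' 2 hΩ hq hi le_rfl hP (t + sc n) ht' n
    unfold DD
    apply integral_nonneg_of_ae
    have h1 : ∀ᵐ X ∂(volume.restrict {X : E3 | ρ / 2 < ‖X‖ ∧ ‖X‖ < 40}),
        Good (nA f A γ O O' (t + sc n) n X) :=
      ae_mono (Measure.restrict_mono (by
        rintro X ⟨-, hX⟩
        rw [mem_ball_zero_iff]
        linarith) le_rfl) hN2.good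
    filter_upwards [h1] with X hX
    exact GROW_.dfc_nonneg hENB _ hX _ _
  have hDD1 : 0 ≤ DD (ρ / 2) F B := by
    unfold DD
    apply integral_nonneg_of_ae
    apply hnn
    rintro X ⟨-, hX⟩
    rw [mem_ball_zero_iff]
    linarith
  have hA5 : ∫ X in {X : E3 | ρ / 2 * κ < ‖X - e3‖ ∧ ‖X - e3‖ < 40 * κ},
        dfc (B X) (X - e3) (F X - e3)
      ≤ 2 * DD (ρ / 2) (nF f γ O O' (t + sc n) n) (nA f A γ O O' (t + sc n) n) := by
    rw [hB, hF, hA3]
    have h1 : (len γ t n ^ 3)⁻¹ = κ ^ 3 * (len γ (t + sc n) n ^ 3)⁻¹ := by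
      rw [← hldef, ← hl2def, ← hκl]
      have hκ0 : 0 < κ := by linarith
      field_simp
    rw [h1, mul_assoc, ← hA4]
    apply mul_le_mul_of_nonneg_right _ hDD0
    have hκ0 : 0 ≤ κ := by linarith
    calc κ ^ 3 ≤ (513 / 512) ^ 3 := by gcongr
      _ ≤ 2 := by norm_num
  calc ∫ X in Reg, dl F B X
      = (∫ X in Reg, dfc (B X) X (F X)) + ∫ X in Reg, dfc (B X) (X - e3) (F X - e3) := by
        unfold dl
        exact integral_add (hI1.mono_set hS1) (hI2.mono_set hS2)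
    _ ≤ DD (ρ / 2) F B
        + 2 * DD (ρ / 2) (nF f γ O O' (t + sc n) n) (nA f A γ O O' (t + sc n) n) :=
        add_le_add hA1 (hA2.trans hA5)
    _ ≤ _ := by linarith

end Pool.Mart
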