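import Pool.Agent.Work.MP_680515_an.IfaceS

open MeasureTheory Set Filter Topology Complex

namespace Pool.Mart

namespace DUAL_

/-- Mollification inside an open set, up to the factor `1 + ε` of the norm. -/
lemma moll (U : Set ℂ) (hU : IsOpen U) (G : ℂ → ℂ) (hG : Continuous G)
    (hc : HasCompactSupport G) (hs : tsupport G ⊆ U) (ε : ℝ) (hε : 0 < ε) :
    ∃ g : ℂ → ℂ, ContDiff ℝ (⊤ : ℕ∞) g ∧ HasCompactSupport g ∧ tsupport g ⊆ U ∧
      ∀ ζ, ‖g ζ - G ζ‖ ≤ ε := by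
  have huc : UniformContinuous G := hc.uniformContinuous_of_continuous hG
  obtain ⟨δ1, hδ1, h1⟩ := Metric.uniformContinuous_iff.1 huc ε hε
  have hcK : IsCompact (tsupport G) := hc
  obtain ⟨δ2, hδ2, h2⟩ := hcK.exists_cthickening_subset_open hU hs
  have hδ : 0 < min δ1 δ2 := lt_min hδ1 hδ2
  obtain ⟨g, hg, hgd⟩ := hG.exists_contDiff_dist_le_of_forall_mem_ball_dist_le hδ
  have hz : ∀ x, x ∉ Metric.cthickening δ2 (tsupport G) → g x = 0 := by
    intro x hx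
    have hball : ∀ y ∈ Metric.ball x (min δ1 δ2), G y = 0 := by
      intro y hy
      by_contra hne
      apply hx
      have hyK : y ∈ tsupport G := subset_tsupport _ hne
      have hd : dist x y ≤ δ2 := by
        rw [dist_comm]
        exact (Metric.mem_ball.1 hy).le.trans (min_le_right _ _)
      exact Metric.mem_cthickening_of_dist_le x y δ2 _ hyK hd
    have hGx : G x = 0 := hball x (Metric.mem_ball_self hδ)
    have := hgd x 0 (fun y hy => by rw [hball y hy, hGx, dist_self])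
    rw [hGx] at this
    exact dist_le_zero.1 this
  have hsub : tsupport g ⊆ Metric.cthickening δ2 (tsupport G) := by
    refine closure_minimal ?_ Metric.isClosed_cthickening
    intro x hx
    by_contra hne
    exact hx (hz x hne)
  refine ⟨g, hg, ?_, hsub.trans h2, ?_⟩
  · exact HasCompactSupport.intro hcK.cthickening hz
  · intro ζ
    rw [← dist_eq_norm]
    refine hgd ζ ε (fun y hy => ?_)
    have hd : dist y ζ < δ1 := (Metric.mem_ball.1 hy).trans_le (min_le_left _ _)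
    exact (h1 hd).le

/-- The integral of `w g` over the plane is that over `U`. -/
lemma int_U (U : Set ℂ) (w g : ℂ → ℂ) (hs : tsupport g ⊆ U) :
    ∫ ζ, w ζ * g ζ = ∫ ζ in U, w ζ * g ζ := by
  refine (setIntegral_eq_integral_of_forall_compl_eq_zero ?_).symm
  intro ζ hζ
  have : g ζ = 0 := by
    by_contra hne
    exact hζ (hs (subset_tsupport _ hne))
  rw [this, mul_zero]

lemma int_mul (U : Set ℂ) (w g : ℂ → ℂ) (hw : IntegrableOn w U) (hg : Continuous g)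
    (C : ℝ) (hC : ∀ ζ, ‖g ζ‖ ≤ C) : IntegrableOn (fun ζ => w ζ * g ζ) U :=
  Integrable.mul_bdd (c := C) hw hg.aestronglyMeasurable (Eventually.of_forall hC)

/-- The bound for continuous test functions. -/
lemma cont_bound (U : Set ℂ) (w : ℂ → ℂ) (B : ℝ) (hU : IsOpen U) (hw : IntegrableOn w U)
    (hB : ∀ g : ℂ → ℂ, ContDiff ℝ (⊤ : ℕ∞) g → HasCompactSupport g → tsupport g ⊆ U →
      (∀ ζ, ‖g ζ‖ ≤ 1) → (∫ ζ, w ζ * g ζ).re ≤ B)
    (G : ℂ → ℂ) (hG : Continuous G) (hc : HasCompactSupport G) (hs : tsupport G ⊆ U)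
    (h1 : ∀ ζ, ‖G ζ‖ ≤ 1) : (∫ ζ in U, w ζ * G ζ).re ≤ B := by
  have hB0 : 0 ≤ B := by
    have := hB (fun _ => 0) contDiff_const HasCompactSupport.zero
      (by simp [tsupport]) (fun ζ => by simp)
    simpa using this
  set W : ℝ := ∫ ζ in U, ‖w ζ‖ with hW
  have hW0 : 0 ≤ W := integral_nonneg (fun _ => norm_nonneg _)
  refine le_of_forall_pos_le_add (fun η hη => ?_)
  set ε : ℝ := η / (B + W + 1) with hεd
  have hpos : 0 < B + W + 1 := by linarith
  have hε : 0 < ε := div_pos hη hpos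
  obtain ⟨g, hg, hgc, hgs, hgd⟩ := moll U hU G hG hc hs ε hε
  have hε1 : 0 < 1 + ε := by linarith
  have hgn : ∀ ζ, ‖g ζ‖ ≤ 1 + ε := by
    intro ζ
    have e : g ζ = (g ζ - G ζ) + G ζ := by ring
    rw [e]
    refine (norm_add_le _ _).trans ?_
    linarith [hgd ζ, h1 ζ]
  set k : ℂ := (((1 + ε)⁻¹ : ℝ) : ℂ) with hk
  have hkn : ‖k‖ = (1 + ε)⁻¹ := by
    rw [hk, Complex.norm_real, Real.norm_of_nonneg (inv_nonneg.2 hε1.le)]
  have hkg : ContDiff ℝ (⊤ : ℕ∞) (fun ζ => k * g ζ) := contDiff_const.mul hg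
  have hkc : HasCompactSupport (fun ζ => k * g ζ) := hgc.mul_left
  have hks : tsupport (fun ζ => k * g ζ) ⊆ U := by
    refine (closure_mono ?_).trans hgs
    intro x hx hx0
    exact hx (by simp only [hx0, mul_zero])
  have hk1 : ∀ ζ, ‖k * g ζ‖ ≤ 1 := by
    intro ζ
    rw [norm_mul, hkn, inv_mul_le_iff₀ hε1, mul_one]
    exact hgn ζ
  have h2 := hB _ hkg hkc hks hk1
  have e2 : ∫ ζ, w ζ * (k * g ζ) = k * ∫ ζ in U, w ζ * g ζ := by
    rw [← int_U U w g hgs, ← integral_const_mul]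
    refine integral_congr_ae (Eventually.of_forall (fun ζ => ?_))
    simp only
    ring
  rw [e2, hk, Complex.re_ofReal_mul, inv_mul_le_iff₀ hε1] at h2
  have hig : IntegrableOn (fun ζ => w ζ * g ζ) U := int_mul U w g hw hg.continuous _ hgn
  have hiG : IntegrableOn (fun ζ => w ζ * G ζ) U := int_mul U w G hw hG _ h1
  have h3 : ‖(∫ ζ in U, w ζ * G ζ) - ∫ ζ in U, w ζ * g ζ‖ ≤ ε * W := by
    rw [← integral_sub hiG hig, hW, ← integral_const_mul]
    refine norm_integral_le_of_norm_le (hw.norm.const_mul ε) (Eventually.of_forall (fun ζ => ?_))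
    have e : w ζ * G ζ - w ζ * g ζ = w ζ * (G ζ - g ζ) := by ring
    rw [e, norm_mul, mul_comm]
    refine mul_le_mul_of_nonneg_right ?_ (norm_nonneg _)
    rw [norm_sub_rev]
    exact hgd ζ
  have h4 : ((∫ ζ in U, w ζ * G ζ) - ∫ ζ in U, w ζ * g ζ).re ≤ ε * W :=
    (Complex.re_le_norm _).trans h3
  rw [Complex.sub_re] at h4
  have h5 : ε * (B + W + 1) = η := by
    rw [hεd]
    field_simp
  nlinarith

/-- The cut-off. -/
noncomputable def ch (U : Set ℂ) (n : ℕ) (ζ : ℂ) : ℝ :=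
  max 0 (min 1 (n * Metric.infDist ζ Uᶜ - 1))

lemma ch_nonneg (U : Set ℂ) (n : ℕ) (ζ : ℂ) : 0 ≤ ch U n ζ := le_max_left _ _

lemma ch_le (U : Set ℂ) (n : ℕ) (ζ : ℂ) : ch U n ζ ≤ 1 :=
  max_le zero_le_one (min_le_left _ _)

lemma ch_cont (U : Set ℂ) (n : ℕ) : Continuous (ch U n) := by
  unfold ch
  exact continuous_const.max
    (continuous_const.min ((continuous_const.mul (Metric.continuous_infDist_pt _)).sub
      continuous_const))

/-- The test function. -/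
noncomputable def Gn (U : Set ℂ) (w : ℂ → ℂ) (n : ℕ) (ζ : ℂ) : ℂ :=
  (ch U n ζ : ℂ) * ((starRingEnd ℂ) (w ζ) / ((‖w ζ‖ + 1 / ((n : ℝ) + 1) : ℝ) : ℂ))

lemma den_pos (w : ℂ → ℂ) (n : ℕ) (ζ : ℂ) : 0 < ‖w ζ‖ + 1 / ((n : ℝ) + 1) := by
  have : (0 : ℝ) < 1 / ((n : ℝ) + 1) := by positivity
  linarith [norm_nonneg (w ζ)]

lemma Gn_norm (U : Set ℂ) (w : ℂ → ℂ) (n : ℕ) (ζ : ℂ) : ‖Gn U w n ζ‖ ≤ 1 := by
  have hp := den_pos w n ζ
  unfold Gn
  rw [norm_mul, norm_div, Complex.norm_real, Complex.norm_real, RCLike.norm_conj,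
    Real.norm_of_nonneg (ch_nonneg U n ζ), Real.norm_of_nonneg hp.le]
  have h1 : ‖w ζ‖ / (‖w ζ‖ + 1 / ((n : ℝ) + 1)) ≤ 1 := by
    rw [div_le_one hp]
    have : (0 : ℝ) < 1 / ((n : ℝ) + 1) := by positivity
    linarith
  have h0 : 0 ≤ ‖w ζ‖ / (‖w ζ‖ + 1 / ((n : ℝ) + 1)) := by positivity
  exact mul_le_one₀ (ch_le U n ζ) h0 h1

/-- The closed set carrying the test function. -/
def Kn (U : Set ℂ) (n : ℕ) : Set ℂ := {ζ | 1 ≤ n * Metric.infDist ζ Uᶜ}

lemma Kn_closed (U : Set ℂ) (n : ℕ) : IsClosed (Kn U n) :=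
  isClosed_le continuous_const (continuous_const.mul (Metric.continuous_infDist_pt _))

lemma Kn_sub (U : Set ℂ) (n : ℕ) : Kn U n ⊆ U := by
  intro ζ hζ
  by_contra hne
  have h0 : Metric.infDist ζ Uᶜ = 0 := Metric.infDist_zero_of_mem hne
  have h1 : (1 : ℝ) ≤ n * Metric.infDist ζ Uᶜ := hζ
  rw [h0, mul_zero] at h1
  linarith

lemma Gn_zero (U : Set ℂ) (w : ℂ → ℂ) (n : ℕ) (ζ : ℂ) (h : ζ ∉ Kn U n) : Gn U w n ζ = 0 := by
  have h1 : (n : ℝ) * Metric.infDist ζ Uᶜ < 1 := not_le.1 h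
  have h2 : ch U n ζ = 0 := by
    unfold ch
    refine max_eq_left ?_
    exact (min_le_right _ _).trans (by linarith)
  unfold Gn
  rw [h2]
  simp

lemma Gn_tsupport (U : Set ℂ) (w : ℂ → ℂ) (n : ℕ) : tsupport (Gn U w n) ⊆ Kn U n := by
  refine closure_minimal ?_ (Kn_closed U n)
  intro x hx
  by_contra hne
  exact hx (Gn_zero U w n x hne)

lemma Gn_cont (U : Set ℂ) (hU : IsOpen U) (w : ℂ → ℂ) (hw : ContinuousOn w U) (n : ℕ) :
    Continuous (Gn U w n) := by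
  refine continuous_of_tsupport (fun x hx => ?_)
  have hxU : x ∈ U := Kn_sub U n (Gn_tsupport U w n hx)
  have hwx : ContinuousAt w x := hw.continuousAt (hU.mem_nhds hxU)
  have hd : ContinuousAt (fun ζ => ((‖w ζ‖ + 1 / ((n : ℝ) + 1) : ℝ) : ℂ)) x :=
    Complex.continuous_ofReal.continuousAt.comp (hwx.norm.add continuousAt_const)
  have hne : ((‖w x‖ + 1 / ((n : ℝ) + 1) : ℝ) : ℂ) ≠ 0 := by
    exact_mod_cast (den_pos w n x).ne'
  have hcj : ContinuousAt (fun ζ => (starRingEnd ℂ) (w ζ)) x :=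
    (Complex.continuous_conj.continuousAt).comp hwx
  have hch : ContinuousAt (fun ζ => (ch U n ζ : ℂ)) x :=
    (Complex.continuous_ofReal.comp (ch_cont U n)).continuousAt
  exact hch.mul (hcj.div hd hne)

lemma wG (U : Set ℂ) (w : ℂ → ℂ) (n : ℕ) (ζ : ℂ) : w ζ * Gn U w n ζ =
    ((ch U n ζ * (‖w ζ‖ ^ 2 / (‖w ζ‖ + 1 / ((n : ℝ) + 1))) : ℝ) : ℂ) := by
  have h : w ζ * (starRingEnd ℂ) (w ζ) = ((‖w ζ‖ ^ 2 : ℝ) : ℂ) := by
    rw [Complex.mul_conj, Complex.normSq_eq_norm_sq]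
  unfold Gn
  rw [Complex.ofReal_mul, Complex.ofReal_div, ← h]
  ring

lemma lim (U : Set ℂ) (hU : IsOpen U) (hne : Uᶜ.Nonempty) (w : ℂ → ℂ) (ζ : ℂ) (hζ : ζ ∈ U) :
    Tendsto (fun n : ℕ => w ζ * Gn U w n ζ) atTop (𝓝 ((‖w ζ‖ : ℝ) : ℂ)) := by
  have hd : 0 < Metric.infDist ζ Uᶜ :=
    (hU.isClosed_compl.notMem_iff_infDist_pos hne).1 (fun h => h hζ)
  have hch : Tendsto (fun n : ℕ => ch U n ζ) atTop (𝓝 1) := by
    refine tendsto_const_nhds.congr' ?_
    obtain ⟨N, hN⟩ := exists_nat_gt (2 / Metric.infDist ζ Uᶜ)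
    filter_upwards [eventually_ge_atTop N] with n hn
    have h1 : (2 : ℝ) ≤ n * Metric.infDist ζ Uᶜ := by
      have h2 : 2 / Metric.infDist ζ Uᶜ < (n : ℝ) := hN.trans_le (by exact_mod_cast hn)
      rw [div_lt_iff₀ hd] at h2
      exact h2.le
    unfold ch
    rw [min_eq_left (by linarith), max_eq_right zero_le_one]
  have hq : Tendsto (fun n : ℕ => ‖w ζ‖ ^ 2 / (‖w ζ‖ + 1 / ((n : ℝ) + 1))) atTop
      (𝓝 ‖w ζ‖) := by
    rcases eq_or_ne (‖w ζ‖) 0 with h0 | h0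
    · rw [h0]
      simp
    · have h1 : Tendsto (fun n : ℕ => ‖w ζ‖ + 1 / ((n : ℝ) + 1)) atTop (𝓝 (‖w ζ‖ + 0)) :=
        tendsto_const_nhds.add tendsto_one_div_add_atTop_nhds_zero_nat
      rw [add_zero] at h1
      have h2 := (tendsto_const_nhds (x := ‖w ζ‖ ^ 2)).div h1 h0
      have e : ‖w ζ‖ ^ 2 / ‖w ζ‖ = ‖w ζ‖ := by
        field_simp
      rw [e] at h2
      exact h2
  have h3 := hch.mul hq
  rw [one_mul] at h3
  have h4 := (Complex.continuous_ofReal.tendsto (‖w ζ‖)).comp h3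
  refine h4.congr (fun n => ?_)
  simp only [Function.comp_apply]
  exact (wG U w n ζ).symm

end DUAL_

open DUAL_ in
theorem stmt_DUAL : Stmt_DUAL := by
  intro U w B hU hb hw hi hB
  have hne : Uᶜ.Nonempty := by
    rw [Set.nonempty_compl]
    intro h
    rw [h] at hb
    exact NormedSpace.unbounded_univ ℝ ℂ hb
  have hbound : ∀ n : ℕ, (∫ ζ in U, w ζ * Gn U w n ζ).re ≤ B := by
    intro n
    have hK : IsCompact (Kn U n) :=
      Metric.isCompact_of_isClosed_isBounded (Kn_closed U n) (hb.subset (Kn_sub U n))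
    exact cont_bound U w B hU hi hB (Gn U w n) (Gn_cont U hU w hw n)
      (HasCompactSupport.intro hK (fun x hx => Gn_zero U w n x hx))
      ((Gn_tsupport U w n).trans (Kn_sub U n)) (Gn_norm U w n)
  have hlim : Tendsto (fun n : ℕ => ∫ ζ in U, w ζ * Gn U w n ζ) atTop
      (𝓝 (∫ ζ in U, ((‖w ζ‖ : ℝ) : ℂ))) := by
    refine tendsto_integral_of_dominated_convergence (fun ζ => ‖w ζ‖) ?_ hi.norm ?_ ?_
    · intro n
      exact (int_mul U w _ hi (Gn_cont U hU w hw n) 1 (Gn_norm U w n)).aestronglyMeasurable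
    · intro n
      refine Eventually.of_forall (fun ζ => ?_)
      rw [norm_mul]
      exact mul_le_of_le_one_right (norm_nonneg _) (Gn_norm U w n ζ)
    · refine (ae_restrict_iff' hU.measurableSet).2 (Eventually.of_forall (fun ζ hζ => ?_))
      exact lim U hU hne w ζ hζ
  have hre := (Complex.continuous_re.tendsto _).comp hlim
  have e : (∫ ζ in U, ((‖w ζ‖ : ℝ) : ℂ)).re = ∫ ζ in U, ‖w ζ‖ := by
    rw [integral_complex_ofReal, Complex.ofReal_re]
  rw [← e]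
  exact le_of_tendsto' hre hbound

end Pool.Mart
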