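import Pool.Agent.Work.MP_680515_an.IfaceU

/-!
# MP_680515_an: block EAV
-/

open MeasureTheory Set Filter Topology Complex

namespace Pool.Mart.EAV_

theorem avg_mono (N : ℕ) (g h : ℝ → ℝ) (H : ∀ t ∈ Icc (0 : ℝ) 1, g t ≤ h t) :
    avg N g ≤ avg N h := by
  unfold avg
  apply mul_le_mul_of_nonneg_left _ (by positivity)
  apply Finset.sum_le_sum
  intro j hj
  apply H
  have hj' : (j : ℝ) < 2 ^ N := by exact_mod_cast Finset.mem_range.mp hj
  have h1 : sc N = 1 / 2 ^ N := by unfold sc; rw [inv_pow]; ring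
  constructor
  · unfold sc; positivity
  · rw [h1, mul_one_div, div_le_one (by positivity)]
    exact hj'.le

theorem avg_add (N : ℕ) (g h : ℝ → ℝ) : avg N (fun t => g t + h t) = avg N g + avg N h := by
  unfold avg
  rw [Finset.sum_add_distrib, mul_add]

theorem avg_smul (N : ℕ) (c : ℝ) (g : ℝ → ℝ) : avg N (fun t => c * g t) = c * avg N g := by
  unfold avg
  rw [← Finset.mul_sum]
  ring

theorem avg_const (N : ℕ) (c : ℝ) : avg N (fun _ => c) = c := by
  unfold avg
  rw [Finset.sum_const, Finset.card_range, nsmul_eq_mul]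
  push_cast
  rw [← mul_assoc, ← mul_pow]
  norm_num

theorem avg_sum (N M : ℕ) (g : ℕ → ℝ → ℝ) :
    avg N (fun t => ∑ n ∈ Finset.range M, g n t) = ∑ n ∈ Finset.range M, avg N (g n) := by
  unfold avg
  rw [Finset.sum_comm, Finset.mul_sum]

theorem avg_nonneg (N : ℕ) (g : ℝ → ℝ) (H : ∀ t ∈ Icc (0 : ℝ) 1, 0 ≤ g t) : 0 ≤ avg N g := by
  have h := avg_mono N (fun _ => 0) g H
  rwa [avg_const] at h

theorem edge_sum (N : ℕ) : ∑ n ∈ Finset.range N, sc (n + 1) * (n + 2) = 3 - (N + 3) * sc N := by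
  induction N with
  | zero => simp [sc]
  | succ N ih =>
    rw [Finset.sum_range_succ, ih]
    have h : sc (N + 1) = sc N / 2 := by
      unfold sc
      rw [pow_succ]
      ring
    rw [h]
    push_cast
    ring

end Pool.Mart.EAV_

namespace Pool.Mart

open EAV_

theorem stmt_EAV (hGROW : Stmt_GROW) (hCH1 : Stmt_CH1) (hSCL : Stmt_SCL) (hSHF : Stmt_SHF) :
    Stmt_EAV := by
  intro ρ hρ hρ1
  obtain ⟨CG, CG', hCG, hCG', hG⟩ := hGROW ρ hρ hρ1
  obtain ⟨CH, hCH, hH⟩ := hCH1
  refine ⟨CG * CH + 600 * CG + CG', ρ / 1024, by positivity, by positivity, ?_⟩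
  intro ε Ω f A γ O O' hε hε1 hΩ hq hi hP N N' hNN
  have hε2 : ε ≤ 1 / 1024 := by linarith
  set a : ℕ → ℝ := fun n => avg N' (fun t => FF f γ t n) with ha
  set x : ℕ → ℝ := fun n => avg N' (fun t => XX f γ O O' t n) with hx
  have hstep : ∀ n, n < N → a (n + 1) - a n ≤ CH * ε * x n + 200 * ε * (sc (n + 1) * (n + 2)) := by
    intro n hn
    have hsc0 : 0 < sc (n + 1) := by unfold sc; positivity
    -- the shift
    set G : ℝ := 400 * ε * (n + 2) with hGdef
    have hg : ∀ t ∈ Icc (-9 : ℝ) 10,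
        0 ≤ FF f γ t (n + 1) - FF f γ 0 (n + 1) + 200 * ε * (n + 2) ∧
        FF f γ t (n + 1) - FF f γ 0 (n + 1) + 200 * ε * (n + 2) ≤ G := by
      intro t ht
      have h := (hSCL ε Ω f γ O O' hε hε2 hP t ⟨by linarith [ht.1], by linarith [ht.2]⟩
        (n + 1)).2.2
      push_cast at h
      obtain ⟨h1, h2⟩ := abs_le.mp h
      constructor
      · nlinarith
      · rw [hGdef]; nlinarith
    have hsc1 : sc (n + 1) ≤ 1 := by
      unfold sc
      exact pow_le_one₀ (by norm_num) (by norm_num)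
    have hs := (hSHF N' (n + 1) 1
      (fun t => FF f γ t (n + 1) - FF f γ 0 (n + 1) + 200 * ε * (n + 2)) G (by omega)
      (by
        rw [Int.cast_one, one_mul, abs_of_pos hsc0]
        linarith) hg).2
    rw [Int.cast_one, one_mul, abs_of_pos hsc0] at hs
    have e1 : avg N' (fun t => FF f γ t (n + 1) - FF f γ 0 (n + 1) + 200 * ε * (n + 2))
        = a (n + 1) + (- FF f γ 0 (n + 1) + 200 * ε * (n + 2)) := by
      have h1 : (fun t => FF f γ t (n + 1) - FF f γ 0 (n + 1) + 200 * ε * (n + 2))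
          = fun t => FF f γ t (n + 1) + (fun _ : ℝ => (- FF f γ 0 (n + 1) + 200 * ε * (n + 2))) t := by
        funext t; ring
      rw [h1, avg_add, avg_const]
    have e2 : avg N' (fun t => FF f γ (t + sc (n + 1)) (n + 1) - FF f γ 0 (n + 1)
          + 200 * ε * (n + 2))
        = avg N' (fun t => FF f γ (t + sc (n + 1)) (n + 1))
          + (- FF f γ 0 (n + 1) + 200 * ε * (n + 2)) := by
      have h1 : (fun t => FF f γ (t + sc (n + 1)) (n + 1) - FF f γ 0 (n + 1) + 200 * ε * (n + 2))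
          = fun t => FF f γ (t + sc (n + 1)) (n + 1)
            + (fun _ : ℝ => (- FF f γ 0 (n + 1) + 200 * ε * (n + 2))) t := by
        funext t; ring
      rw [h1, avg_add, avg_const]
    rw [e1, e2] at hs
    -- the one step inequality, averaged
    have hm : avg N' (fun t => 1 / 2 * FF f γ t (n + 1) + (1 / 2 * FF f γ (t + sc (n + 1)) (n + 1)
        + (-1) * FF f γ t n)) ≤ avg N' (fun t => CH * ε * XX f γ O O' t n) := by
      apply avg_mono
      intro t ht
      have h := hH ε Ω f γ O O' hε hε2 hP t ⟨by linarith [ht.1], by linarith [ht.2]⟩ n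
      linarith
    rw [avg_add, avg_add, avg_smul, avg_smul, avg_smul, avg_smul] at hm
    have hm' : 1 / 2 * a (n + 1) + (1 / 2 * avg N' (fun t => FF f γ (t + sc (n + 1)) (n + 1))
        + (-1) * a n) ≤ CH * ε * x n := hm
    have hs' : a (n + 1) ≤ avg N' (fun t => FF f γ (t + sc (n + 1)) (n + 1))
        + sc (n + 1) * (400 * ε * (n + 2)) := by
      rw [hGdef] at hs
      linarith
    nlinarith
  have htel : a N - a 0 ≤ CH * ε * (∑ n ∈ Finset.range N, x n) + 600 * ε := by
    have h1 : a N - a 0 = ∑ n ∈ Finset.range N, (a (n + 1) - a n) := by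
      rw [Finset.sum_range_sub]
    have h2 : ∑ n ∈ Finset.range N, (a (n + 1) - a n)
        ≤ ∑ n ∈ Finset.range N, (CH * ε * x n + 200 * ε * (sc (n + 1) * (n + 2))) :=
      Finset.sum_le_sum fun n hn => hstep n (Finset.mem_range.mp hn)
    rw [Finset.sum_add_distrib, ← Finset.mul_sum, ← Finset.mul_sum, edge_sum] at h2
    have h3 : 0 ≤ ((N : ℝ) + 3) * sc N := by unfold sc; positivity
    rw [h1]
    nlinarith
  have hmain : avg N' (fun t => ∑ n ∈ Finset.range N,
      DD ρ (nF f γ O O' t n) (nA f A γ O O' t n))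
      ≤ avg N' (fun t => CG * FF f γ t N + (-CG * FF f γ t 0 + (fun _ : ℝ => CG') t)) := by
    apply avg_mono
    intro t ht
    have h := hG ε Ω f A γ O O' hε hε1 hΩ hq hi hP t ⟨by linarith [ht.1], by linarith [ht.2]⟩ N
    simp only
    linarith
  rw [avg_sum, avg_add, avg_add, avg_smul, avg_smul, avg_const] at hmain
  have hmain' : ∑ n ∈ Finset.range N,
      avg N' (fun t => DD ρ (nF f γ O O' t n) (nA f A γ O O' t n))
      ≤ CG * a N + (-CG * a 0 + CG') := hmain
  have hx0 : 0 ≤ ∑ n ∈ Finset.range N, x n := by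
    apply Finset.sum_nonneg
    intro n _
    apply avg_nonneg
    intro t _
    unfold XX Dv dev rad
    positivity
  have hex : 0 ≤ ε * ∑ n ∈ Finset.range N, x n := mul_nonneg hε hx0
  calc ∑ n ∈ Finset.range N, avg N' (fun t => DD ρ (nF f γ O O' t n) (nA f A γ O O' t n))
      ≤ CG * (a N - a 0) + CG' := by linarith
    _ ≤ CG * (CH * ε * (∑ n ∈ Finset.range N, x n) + 600 * ε) + CG' := by gcongr
    _ ≤ (CG * CH + 600 * CG + CG') * (1 + ε * ∑ n ∈ Finset.range N, x n) := by
        have h1 : 0 ≤ (600 * CG + CG') * (ε * ∑ n ∈ Finset.range N, x n) := by positivity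
        have h2 : 0 < CG * CH := by positivity
        nlinarith

end Pool.Mart
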