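import Pool.Agent.Work.MP_680515_an.IfaceL

/-!
# MP_680515_an: block ENB (helper72)

The defect controls the size of the matrix and conversely.
-/

open MeasureTheory Set Filter Topology Complex

namespace Pool.Mart

theorem stmt_ENB (hBAS : Stmt_BAS) (_hTHREE : Stmt_THREE) : Stmt_ENB := by
  obtain ⟨b1, -, b3, b4, -, b6, -⟩ := hBAS
  intro c hc
  refine ⟨24 * (1 / c) ^ 3 + (1 / c) ^ 2 + 1, by positivity, ?_⟩
  intro A X Y hA hX0 hXY hYX
  have hX : 0 < ‖X‖ := norm_pos_iff.mpr hX0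
  have hY : 0 < ‖Y‖ := lt_of_lt_of_le (mul_pos hc hX) hXY
  have hb : ‖‖X‖⁻¹ • X‖ = 1 := by
    rw [norm_smul, norm_inv, norm_norm]
    exact inv_mul_cancel₀ hX.ne'
  have hy : ‖‖Y‖⁻¹ • Y‖ = 1 := by
    rw [norm_smul, norm_inv, norm_norm]
    exact inv_mul_cancel₀ hY.ne'
  have he3 : ‖e3‖ = 1 := by
    unfold e3
    simp
  set N := opn (cofm A) with hN
  set D := A.det with hD
  set a := opn A with ha
  set P := cpair A (‖Y‖⁻¹ • Y) (‖X‖⁻¹ • X) with hP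
  set r := ‖X‖ / ‖Y‖ with hr
  have hN0 : 0 ≤ N := norm_nonneg _
  have ha0 : 0 ≤ a := norm_nonneg _
  have hr0 : 0 < r := div_pos hX hY
  have hcr : c ≤ r := by
    rw [hr, le_div_iff₀ hY]
    exact hYX
  have hr1 : r ≤ 1 / c := by
    rw [hr, div_le_div_iff₀ hY hc]
    linarith
  have hPN : |P| ≤ N := by
    rw [hP, b3]
    refine (abs_real_inner_le_norm _ _).trans ?_
    rw [hy, one_mul]
    have h := b1 (cofm A) (‖X‖⁻¹ • X)
    rwa [hb, mul_one] at h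
  have hNa : N ≤ a ^ 2 := b6 A
  have hDa : D ≤ a ^ 3 := by
    have h := b4 A e3 e3
    rw [real_inner_self_eq_norm_sq, he3, one_pow, mul_one] at h
    rw [hD, ← h]
    refine (real_inner_le_norm _ _).trans ?_
    have h1 := b1 A e3
    have h2 := b1 (cofm A) e3
    rw [he3, mul_one] at h1 h2
    calc ‖act A e3‖ * ‖act (cofm A) e3‖ ≤ a * N := mul_le_mul h1 h2 (norm_nonneg _) ha0
      _ ≤ a * a ^ 2 := by gcongr
      _ = a ^ 3 := by ring
  obtain ⟨hA1, hA2⟩ := hA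
  have hD0 : 0 ≤ D := by
    have : 0 ≤ a ^ 3 := by positivity
    linarith
  have hδ : dfc A X Y = (2 / 3) * D * r ^ 3 + 2 / 3 - r ^ 2 * P := rfl
  set δ := dfc A X Y with hδd
  set t := Real.sqrt (N * r ^ 2 / 2) with ht
  have ht0 : 0 ≤ t := Real.sqrt_nonneg _
  have ht2 : t ^ 2 = N * r ^ 2 / 2 := Real.sq_sqrt (by positivity)
  have hjt : t ^ 3 ≤ D * r ^ 3 / 2 := by
    have h1 : (t ^ 3) ^ 2 ≤ (D * r ^ 3 / 2) ^ 2 := by
      calc (t ^ 3) ^ 2 = (t ^ 2) ^ 3 := by ring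
        _ = N ^ 3 * r ^ 6 / 8 := by rw [ht2]; ring
        _ ≤ 2 * D ^ 2 * r ^ 6 / 8 := by gcongr
        _ = (D * r ^ 3 / 2) ^ 2 := by ring
    exact le_of_sq_le_sq h1 (by positivity)
  have hr2 : 0 ≤ r ^ 2 := by positivity
  have hPt : r ^ 2 * P ≤ 2 * t ^ 2 := by
    rw [ht2]
    have := mul_le_mul_of_nonneg_left ((le_abs_self P).trans hPN) hr2
    linarith
  have hPt' : -(r ^ 2 * P) ≤ r ^ 2 * N := by
    have := mul_le_mul_of_nonneg_left ((neg_le_abs P).trans hPN) hr2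
    linarith
  have hδ0 : 0 ≤ δ := by
    have : 0 ≤ (t - 1) ^ 2 * (2 * t + 1) := by positivity
    nlinarith
  have hj : D * r ^ 3 ≤ 6 * (1 + δ) := by
    have h1 : 0 ≤ (t - 2) ^ 2 * (t + 1) := by positivity
    nlinarith
  have hc3 : D * c ^ 3 ≤ 6 * (1 + δ) := by
    have : D * c ^ 3 ≤ D * r ^ 3 := by gcongr
    linarith
  refine ⟨hδ0, ?_, ?_⟩
  · have hc1 : D ≤ 6 * (1 / c) ^ 3 * (1 + δ) := by
      have h : D = (1 / c) ^ 3 * (D * c ^ 3) := by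
        field_simp
      rw [h]
      have := mul_le_mul_of_nonneg_left hc3 (show (0 : ℝ) ≤ (1 / c) ^ 3 by positivity)
      linarith
    have h0 : 0 ≤ ((1 / c) ^ 2 + 1) * (1 + δ) := by positivity
    have h4 : a ^ 3 ≤ 24 * (1 / c) ^ 3 * (1 + δ) := by linarith
    calc a ^ 3 ≤ 24 * (1 / c) ^ 3 * (1 + δ) := h4
      _ ≤ 24 * (1 / c) ^ 3 * (1 + δ) + ((1 / c) ^ 2 + 1) * (1 + δ) := by linarith
      _ = (24 * (1 / c) ^ 3 + (1 / c) ^ 2 + 1) * (1 + δ) := by ring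
  · have ha3 : 0 ≤ a ^ 3 := by positivity
    have ha23 : a ^ 2 ≤ 1 + a ^ 3 := by
      rcases le_total a 1 with h | h
      · have : a ^ 2 ≤ 1 := pow_le_one₀ ha0 h
        linarith
      · have : a ^ 2 ≤ a ^ 3 := pow_le_pow_right₀ h (by norm_num)
        linarith
    have h1 : D * r ^ 3 ≤ a ^ 3 * (1 / c) ^ 3 := by gcongr
    have h2 : r ^ 2 * N ≤ (1 / c) ^ 2 * (1 + a ^ 3) := by
      have : r ^ 2 ≤ (1 / c) ^ 2 := by gcongr
      calc r ^ 2 * N ≤ (1 / c) ^ 2 * (a ^ 2) := by gcongr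
        _ ≤ (1 / c) ^ 2 * (1 + a ^ 3) := by gcongr
    have h3 : 0 ≤ (1 / c) ^ 3 := by positivity
    have h4 : 0 ≤ (1 / c) ^ 3 * a ^ 3 := by positivity
    rw [hδ]
    calc (2 / 3) * D * r ^ 3 + 2 / 3 - r ^ 2 * P
        ≤ a ^ 3 * (1 / c) ^ 3 + 1 + (1 / c) ^ 2 * (1 + a ^ 3) := by
          have : (2 / 3) * D * r ^ 3 = (2 / 3) * (D * r ^ 3) := by ring
          have h5 : 0 ≤ D * r ^ 3 := by positivity
          rw [this]
          linarith
      _ ≤ (24 * (1 / c) ^ 3 + (1 / c) ^ 2 + 1) * (1 + a ^ 3) := by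
          nlinarith

end Pool.Mart
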