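import Pool.Agent.Work.MP_680515_an.IfaceU

open MeasureTheory Set Filter Topology Complex

namespace Pool.Mart

namespace END_

theorem sc_pos (n : ℕ) : 0 < sc n := by unfold sc; positivity

theorem sc_le_one (n : ℕ) : sc n ≤ 1 := pow_le_one₀ (by norm_num) (by norm_num)

theorem sc_anti {m n : ℕ} (h : m ≤ n) : sc n ≤ sc m :=
  pow_le_pow_of_le_one (by norm_num) (by norm_num) h

theorem sc_add (m n : ℕ) : sc (m + n) = sc m * sc n := pow_add _ _ _

theorem two_pow_sc (k : ℕ) : (2 : ℝ) ^ k * sc k = 1 := by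
  unfold sc; rw [← mul_pow]; norm_num

theorem XX_nonneg (f : E3 → E3) (γ : ℝ → E3) (O O' : ℝ → ℕ → M3) (t : ℝ) (n : ℕ) :
    0 ≤ XX f γ O O' t n := by
  unfold XX Dv dev rad; positivity

theorem en_nonneg (a : Fin 5 → ℝ) : 0 ≤ en a := norm_nonneg _

theorem en_add_le (a b : Fin 5 → ℝ) : en (a + b) ≤ en a + en b := by
  unfold en
  have : (WithLp.toLp 2 (a + b) : EuclideanSpace ℝ (Fin 5)) = WithLp.toLp 2 a + WithLp.toLp 2 b := rfl
  rw [this]; exact norm_add_le _ _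

theorem shift_mem {t : ℝ} (ht : t ∈ Icc (0 : ℝ) 1) (n k : ℕ) {i : ℤ} (hi : i ∈ IX k) :
    t + i * sc (n + k) ∈ Icc (-9 : ℝ) 10 := by
  have h := Finset.mem_Icc.1 hi
  have h1 : -(8 * (2 : ℝ) ^ k) ≤ (i : ℝ) := by exact_mod_cast h.1
  have h2 : (i : ℝ) ≤ 8 * (2 : ℝ) ^ k := by exact_mod_cast h.2
  have s0 := sc_pos k
  have e : (2 : ℝ) ^ k * sc k = 1 := two_pow_sc k
  have sn := sc_pos n
  have sn1 := sc_le_one n
  have a1 : -8 ≤ (i : ℝ) * sc k := by
    have := mul_le_mul_of_nonneg_right h1 s0.le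
    nlinarith
  have a2 : (i : ℝ) * sc k ≤ 8 := by
    have := mul_le_mul_of_nonneg_right h2 s0.le
    nlinarith
  have e2 : (i : ℝ) * sc (n + k) = ((i : ℝ) * sc k) * sc n := by rw [sc_add]; ring
  rw [e2]
  constructor
  · nlinarith [ht.1, mul_nonneg (by linarith : (0:ℝ) ≤ (i : ℝ) * sc k + 8) sn.le]
  · nlinarith [ht.2, mul_nonneg (by linarith : (0:ℝ) ≤ 8 - (i : ℝ) * sc k) sn.le]

end END_

open END_

theorem stmt_END (hIMP : Stmt_IMP) (hCHA : Stmt_CHA) (hUABS : Stmt_UABS) (hEAV : Stmt_EAV)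
    (hDSM : Stmt_DSM) (hDLO : Stmt_DLO) (hNRM : Stmt_NRM) (hVBD : Stmt_VBD) (hGEO2 : Stmt_GEO2) :
    Stmt_END := by
  obtain ⟨Ca, hCa, hIMP⟩ := hIMP
  obtain ⟨Cb, κb, hCb, hκb, hCHA⟩ := hCHA
  obtain ⟨k0, k1, hk0, hk01, hk1, hU⟩ := hUABS (max Ca Cb) (lt_max_of_lt_left hCa)
  obtain ⟨C2a, κa, hC2a, hκa, hIMP⟩ := hIMP k0 k1 hk0 hk01 hk1
  have hrs0 : 0 < rs k0 := by unfold rs; positivity
  have hrs1 : rs k0 ≤ 1 := pow_le_one₀ (by norm_num) (by norm_num)
  obtain ⟨Ce, κe, hCe, hκe, hEAV⟩ := hEAV (rs k0) hrs0 hrs1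
  obtain ⟨e0, he0, hU⟩ := hU (max C2a Ce) (lt_max_of_lt_left hC2a)
  obtain ⟨Cd, hCd, hDSM⟩ := hDSM (rs k0) hrs0 hrs1
  obtain ⟨Cv, κv, hCv, hκv, hVBD⟩ := hVBD
  obtain ⟨Cg, hCg, hGEO2⟩ := hGEO2
  -- choice of ε
  set C0 : ℝ := Cd + 2 * Cv + 21 with hC0
  have hC0p : 0 < C0 := by positivity
  set ε : ℝ := min (min (min κa κb) (min κe κv)) (min (min (e0 ^ 2) (rs k0 / 64))
    (min (1 / 1024) (1 / C0))) with hε
  have hεp : 0 < ε := by
    rw [hε]
    refine lt_min (lt_min (lt_min hκa hκb) (lt_min hκe hκv)) (lt_min (lt_min (by positivity)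
      (by positivity)) (lt_min (by norm_num) (by positivity)))
  have h1 : ε ≤ κa := (min_le_left _ _).trans ((min_le_left _ _).trans (min_le_left _ _))
  have h2 : ε ≤ κb := (min_le_left _ _).trans ((min_le_left _ _).trans (min_le_right _ _))
  have h3 : ε ≤ κe := (min_le_left _ _).trans ((min_le_right _ _).trans (min_le_left _ _))
  have h4 : ε ≤ κv := (min_le_left _ _).trans ((min_le_right _ _).trans (min_le_right _ _))
  have h5 : ε ≤ e0 ^ 2 := (min_le_right _ _).trans ((min_le_left _ _).trans (min_le_left _ _))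
  have h6 : ε ≤ rs k0 / 64 := (min_le_right _ _).trans ((min_le_left _ _).trans (min_le_right _ _))
  have h7 : ε ≤ 1 / 1024 := (min_le_right _ _).trans ((min_le_right _ _).trans (min_le_left _ _))
  have h8 : ε ≤ 1 / C0 := (min_le_right _ _).trans ((min_le_right _ _).trans (min_le_right _ _))
  have h8' : C0 * ε ≤ 1 := by
    have := mul_le_mul_of_nonneg_left h8 hC0p.le
    rwa [mul_one_div_cancel hC0p.ne'] at this
  refine ⟨ε, hεp, ?_⟩
  intro Ω f A γ O O' K hΩ hQ hID hP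
  by_contra hK
  rw [not_le] at hK
  -- reduce to 1 ≤ K
  set K' : ℝ := max K 1 with hK'
  have hK'1 : 1 ≤ K' := le_max_right _ _
  have hK'2 : K' < 2 := max_lt hK (by norm_num)
  have hmono : ∀ L : ℝ, K ≤ L → InnerDist Ω A L := by
    intro L hL
    unfold InnerDist at *
    filter_upwards [hID] with x hx
    exact hx.trans (mul_le_mul_of_nonneg_right hL (sq_nonneg _))
  have hID' : InnerDist Ω A K' := hmono K' (le_max_left _ _)
  have hID2 : InnerDist Ω A 2 := hmono 2 hK.le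
  obtain ⟨c, hc, hDLO⟩ := hDLO K' (rs k0) hK'1 hK'2 hrs0 hrs1
  have hN := hNRM ε Ω f A γ O O' K' hΩ hQ hID' hK'2.le hP
  have hε0 : 0 ≤ ε := hεp.le
  have hbig : ∀ t ∈ Icc (-9 : ℝ) 10, t ∈ Icc (-20 : ℝ) 20 := fun t ht =>
    ⟨by linarith [ht.1], by linarith [ht.2]⟩
  have h01 : ∀ t ∈ Icc (0 : ℝ) 1, t ∈ Icc (-9 : ℝ) 10 := fun t ht =>
    ⟨by linarith [ht.1], by linarith [ht.2]⟩
  have hex : ∀ (t : ℝ) (n : ℕ), ∃ a b : Fin 5 → ℝ, t ∈ Icc (-9 : ℝ) 10 →
      (∫ ζ in QQ, ‖vv (nF f γ O O' t n) ζ - aff a b ζ‖) ≤ dd (nF f γ O O' t n) + min (sc n) ε ∧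
      en a ≤ Cv * ε ∧ en b ≤ Cv * ε := by
    intro t n
    by_cases ht : t ∈ Icc (-9 : ℝ) 10
    · obtain ⟨a, b, h⟩ := (hVBD ε (nF f γ O O' t n) (nA f A γ O O' t n) hε0 h4
        (hN t (hbig t ht) n).1).2.2.2 (min (sc n) ε) (lt_min (sc_pos n) hεp) (min_le_right _ _)
      exact ⟨a, b, fun _ => h⟩
    · exact ⟨0, 0, fun h => absurd h ht⟩
  choose pa pb hp using hex
  set dt : ℝ → ℕ → ℝ := fun t n => dd (nF f γ O O' t n) + min (sc n) ε with hdt
  have hdd : ∀ t ∈ Icc (-9 : ℝ) 10, ∀ n, 0 ≤ dd (nF f γ O O' t n) ∧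
      dd (nF f γ O O' t n) ≤ Cv * ε := fun t ht n =>
    ⟨(hVBD ε _ _ hε0 h4 (hN t (hbig t ht) n).1).2.1, (hVBD ε _ _ hε0 h4 (hN t (hbig t ht) n).1).2.2.1⟩
  have hdt0 : ∀ t ∈ Icc (-9 : ℝ) 10, ∀ n, 0 ≤ dt t n := fun t ht n =>
    add_nonneg (hdd t ht n).1 (le_min (sc_pos n).le hε0)
  have hD : ∀ t ∈ Icc (-9 : ℝ) 10, ∀ n, 0 ≤ DD (rs k0) (nF f γ O O' t n) (nA f A γ O O' t n) ∧
      DD (rs k0) (nF f γ O O' t n) (nA f A γ O O' t n) ≤ Cd * ε := fun t ht n =>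
    hDSM ε _ _ hε0 h6 (hN t (hbig t ht) n).1
  have hX20 : ∀ t ∈ Icc (-9 : ℝ) 10, ∀ n, XX f γ O O' t n ≤ 20 * ε := fun t ht n =>
    (hGEO2 ε Ω f γ O O' hε0 h7 hP t ⟨by linarith [ht.1], by linarith [ht.2]⟩ n).2.2.2.2
  have hs0 : 0 ≤ Real.sqrt ε := Real.sqrt_nonneg _
  have hse : Real.sqrt ε ≤ e0 := by
    rw [← Real.sqrt_sq he0.le]; exact Real.sqrt_le_sqrt h5
  have hεs : ε ≤ Real.sqrt ε := by
    have h9 : ε ≤ 1 := by linarith
    have h10 : Real.sqrt ε ≤ 1 := by simpa using Real.sqrt_le_sqrt h9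
    have h11 := Real.mul_self_sqrt hε0
    nlinarith
  have hIMP := hIMP ε Ω f A γ O O' pa pb dt hεp h1 hΩ hQ hID2 hP (fun t ht n => (hp t n ht).1)
  have hCHA := hCHA ε Ω f A γ O O' pa pb dt hεp h2 hΩ hQ hID2 hP (fun t ht n =>
    ⟨by
      have := (hp t n ht).2.2
      have h9 : Cv * ε ≤ C0 * ε := mul_le_mul_of_nonneg_right (by rw [hC0]; linarith) hε0
      linarith, (hp t n ht).1⟩)
  have hEAV := hEAV ε Ω f A γ O O' hε0 h3 hΩ hQ hID2 hP
  refine hU (Real.sqrt ε) c (fun t n => DD (rs k0) (nF f γ O O' t n) (nA f A γ O O' t n)) dt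
    (fun t n => XX f γ O O' t n) (fun t n => en (pa t n)) (fun t n => en (pa t n + pb t n))
    hs0 hse hc ?_
  refine ⟨?_, ?_, ?_, ?_, ?_, ?_, ?_⟩
  · -- bounds
    intro t ht n
    have b1 : Cd * ε ≤ C0 * ε := mul_le_mul_of_nonneg_right (by rw [hC0]; linarith) hε0
    have b2 : (Cv + 1) * ε ≤ C0 * ε := mul_le_mul_of_nonneg_right (by rw [hC0]; linarith) hε0
    have b3 : 20 * ε ≤ C0 * ε := mul_le_mul_of_nonneg_right (by rw [hC0]; linarith) hε0
    have b4 : 2 * Cv * ε ≤ C0 * ε := mul_le_mul_of_nonneg_right (by rw [hC0]; linarith) hε0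
    have hv := hp t n ht
    have cv : 0 ≤ Cv * ε := mul_nonneg hCv.le hε0
    refine ⟨⟨(hD t ht n).1, by linarith [(hD t ht n).2]⟩, ⟨hdt0 t ht n, ?_⟩,
      ⟨XX_nonneg _ _ _ _ _ _, by linarith [hX20 t ht n]⟩, ⟨en_nonneg _, by linarith [hv.2.1]⟩,
      ⟨en_nonneg _, by linarith [en_add_le (pa t n) (pb t n), hv.2.1, hv.2.2]⟩⟩
    have : min (sc n) ε ≤ ε := min_le_right _ _
    have h9 := (hdd t ht n).2
    simp only [hdt]
    linarith
  · -- e1
    intro N N' hNN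
    refine (hEAV N N' hNN).trans ?_
    have hS : 0 ≤ ∑ n ∈ Finset.range N, avg N' (fun t => XX f γ O O' t n) := by
      refine Finset.sum_nonneg fun n _ => ?_
      unfold avg
      exact mul_nonneg (by positivity) (Finset.sum_nonneg fun j _ => XX_nonneg _ _ _ _ _ _)
    have a1 : 1 + ε * ∑ n ∈ Finset.range N, avg N' (fun t => XX f γ O O' t n)
        ≤ 1 + Real.sqrt ε * ∑ n ∈ Finset.range N, avg N' (fun t => XX f γ O O' t n) := by
      have := mul_le_mul_of_nonneg_right hεs hS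
      linarith
    have a2 : 0 ≤ 1 + Real.sqrt ε * ∑ n ∈ Finset.range N, avg N' (fun t => XX f γ O O' t n) := by
      have := mul_nonneg hs0 hS
      linarith
    calc _ ≤ Ce * (1 + Real.sqrt ε * ∑ n ∈ Finset.range N, avg N' (fun t => XX f γ O O' t n)) :=
          mul_le_mul_of_nonneg_left a1 hCe.le
      _ ≤ _ := mul_le_mul_of_nonneg_right (le_max_right _ _) a2
  · -- e2
    intro t ht n hn
    have hI := hIMP t ht n hn
    have ht9 := h01 t ht
    have hsum : ∀ g : ℕ → ℝ, (∀ k, 0 ≤ g k) → 0 ≤ dt t n + ∑ k ∈ Finset.Icc 3 k0, g k *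
        ∑ i ∈ IX k, dt (t + i * sc (n + k)) (n + k) := by
      intro g hg
      refine add_nonneg (hdt0 t ht9 n) (Finset.sum_nonneg fun k _ => mul_nonneg (hg k)
        (Finset.sum_nonneg fun i hi => hdt0 _ (shift_mem ht n k hi) _))
    have q1 := hsum (fun k => (8 : ℝ)⁻¹ ^ k) (fun k => by positivity)
    have q2 := hsum (fun k => (2 : ℝ)⁻¹ ^ k) (fun k => by positivity)
    have hD1 := (hD t ht9 n).1
    have ht9' : t + sc n ∈ Icc (-9 : ℝ) 10 := by
      have := sc_pos n; have := sc_le_one n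
      exact ⟨by linarith [ht.1], by linarith [ht.2]⟩
    have hD2 := (hD (t + sc n) ht9' n).1
    have hSS : 0 ≤ SS f γ O O' k0 t n := by
      unfold SS
      exact Finset.sum_nonneg fun j _ => Finset.sum_nonneg fun i _ => XX_nonneg _ _ _ _ _ _
    have hmin : min (sc (n + k1)) ε ≤ sc n := (min_le_left _ _).trans (sc_anti (Nat.le_add_right _ _))
    have hA : 0 ≤ (2 : ℝ)⁻¹ ^ k1 * (dt t n + ∑ k ∈ Finset.Icc 3 k0, (8 : ℝ)⁻¹ ^ k *
          ∑ i ∈ IX k, dt (t + i * sc (n + k)) (n + k))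
        + 8 ^ k1 * (2 : ℝ)⁻¹ ^ k0 * (dt t n + ∑ k ∈ Finset.Icc 3 k0, (2 : ℝ)⁻¹ ^ k *
          ∑ i ∈ IX k, dt (t + i * sc (n + k)) (n + k)) :=
      add_nonneg (mul_nonneg (by positivity) q1) (mul_nonneg (by positivity) q2)
    have m1 := mul_le_mul_of_nonneg_right (le_max_left Ca Cb) hA
    have m2 := mul_le_mul_of_nonneg_right (le_max_left C2a Ce) (add_nonneg hD1 hD2)
    have m3 := mul_le_mul_of_nonneg_right (le_max_left C2a Ce) (mul_nonneg hs0 hSS)
    have e : dt t (n + k1) = dd (nF f γ O O' t (n + k1)) + min (sc (n + k1)) ε := rfl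
    rw [e]
    have m3' : C2a * Real.sqrt ε * SS f γ O O' k0 t n
        ≤ max C2a Ce * Real.sqrt ε * SS f γ O O' k0 t n := by
      rw [mul_assoc, mul_assoc]; exact m3
    have goal := add_le_add (add_le_add (add_le_add m1 m2) m3') hmin
    refine le_trans ?_ goal
    have := hI
    linarith
  · intro t ht n
    have h := (hCHA t ht n).1
    have ht9 := h01 t ht
    have m1 := mul_le_mul_of_nonneg_right (le_max_right Ca Cb)
      (add_nonneg (hdt0 t ht9 n) (hdt0 t ht9 (n + 1)))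
    have m2 := mul_le_mul_of_nonneg_right (le_max_right Ca Cb)
      (mul_nonneg hs0 (XX_nonneg f γ O O' t n))
    have m2' : Cb * Real.sqrt ε * XX f γ O O' t n
        ≤ max Ca Cb * Real.sqrt ε * XX f γ O O' t n := by
      rw [mul_assoc, mul_assoc]; exact m2
    linarith
  · intro t ht n
    have h := (hCHA t ht n).2.1
    have ht9 := h01 t ht
    have ht9' : t + sc (n + 1) ∈ Icc (-9 : ℝ) 10 := by
      have := sc_pos (n + 1); have := sc_le_one (n + 1)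
      exact ⟨by linarith [ht.1], by linarith [ht.2]⟩
    have m1 := mul_le_mul_of_nonneg_right (le_max_right Ca Cb)
      (add_nonneg (hdt0 t ht9 n) (hdt0 _ ht9' (n + 1)))
    have m2 := mul_le_mul_of_nonneg_right (le_max_right Ca Cb)
      (mul_nonneg hs0 (XX_nonneg f γ O O' t n))
    have m2' : Cb * Real.sqrt ε * XX f γ O O' t n
        ≤ max Ca Cb * Real.sqrt ε * XX f γ O O' t n := by
      rw [mul_assoc, mul_assoc]; exact m2
    linarith
  · intro t ht n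
    have h := (hCHA t ht n).2.2
    have ht9 := h01 t ht
    have hnn : 0 ≤ en (pa t n) + en (pa t n + pb t n) + en (pa t (n + 1))
        + en (pa t (n + 1) + pb t (n + 1)) + dt t n + dt t (n + 1) := by
      have := hdt0 t ht9 n; have := hdt0 t ht9 (n + 1)
      have := en_nonneg (pa t n); have := en_nonneg (pa t n + pb t n)
      have := en_nonneg (pa t (n + 1)); have := en_nonneg (pa t (n + 1) + pb t (n + 1))
      linarith
    exact h.trans (mul_le_mul_of_nonneg_right (le_max_right Ca Cb) hnn)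
  · intro t ht n
    have ht9 := h01 t ht
    exact hDLO ε _ _ hε0 h6 (hN t (hbig t ht9) n).1 (hN t (hbig t ht9) n).2

end Pool.Mart
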