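import Pool.Agent.Work.MP_680515_an.IfaceA

/-!
# MP_680515_an, block ENER: Caccioppoli estimate for normalised maps
-/

open MeasureTheory Set Filter Topology Complex

namespace Pool.Mart

theorem ENER_.norm_gradv_le (φ : E3 → ℝ) (x : E3) (M : ℝ) (hM : 0 ≤ M)
    (h : ‖fderiv ℝ φ x‖ ≤ M) : ‖gradv φ x‖ ≤ 2 * M := by
  have h1 : ∀ j : Fin 3, |gradv φ x j| ≤ M := by
    intro j
    have h2 : gradv φ x j = fderiv ℝ φ x (EuclideanSpace.single j 1) := rfl
    rw [h2, ← Real.norm_eq_abs]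
    refine (ContinuousLinearMap.le_opNorm _ _).trans ?_
    have h3 : ‖(EuclideanSpace.single j 1 : E3)‖ = 1 := by simp
    rw [h3, mul_one]
    exact h
  have h2 : ∀ j : Fin 3, ‖gradv φ x j‖ ^ 2 ≤ M ^ 2 := fun j => by
    rw [Real.norm_eq_abs]
    exact pow_le_pow_left₀ (abs_nonneg _) (h1 j) 2
  rw [EuclideanSpace.norm_eq]
  refine Real.sqrt_le_iff.mpr ⟨by positivity, ?_⟩
  rw [Fin.sum_univ_three]
  nlinarith [h2 0, h2 1, h2 2, sq_nonneg M]

theorem ENER_.gradv_pow (η : E3 → ℝ) (hη : Differentiable ℝ η) (x : E3) :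
    gradv (fun x => η x ^ 3) x = (3 * η x ^ 2) • gradv η x := by
  have h : fderiv ℝ (fun x => η x ^ 3) x = (3 * η x ^ 2) • fderiv ℝ η x := by
    have h1 := ((hη x).hasFDerivAt.pow 3).fderiv
    simpa using h1
  unfold gradv
  ext j
  simp [h]

theorem ENER_.divv_id (y : E3) : divv (fun y => y) y = 3 := by
  unfold divv
  have h : fderiv ℝ (fun y : E3 => y) y = ContinuousLinearMap.id ℝ E3 := fderiv_fun_id
  rw [h]
  simp

theorem ENER_.cpair_le (hBAS : Stmt_BAS) (A : M3) (H b : E3) :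
    |cpair A H b| ≤ ‖H‖ * (opn A ^ 2 * ‖b‖) := by
  obtain ⟨h1, -, h3, -, -, h6, -⟩ := hBAS
  rw [h3]
  refine (abs_real_inner_le_norm _ _).trans ?_
  refine mul_le_mul_of_nonneg_left ?_ (norm_nonneg _)
  exact (h1 _ _).trans (mul_le_mul_of_nonneg_right (h6 A) (norm_nonneg _))

theorem ENER_.young (K u : ℝ) (hK : 0 ≤ K) (hu : 0 ≤ u) :
    K * u ^ 2 ≤ (2 / 3) * u ^ 3 + K ^ 3 / 3 := by
  have h : 0 ≤ (u - K) ^ 2 * (2 * u + K) := by positivity
  nlinarith [h]

theorem ENER_.cutoff : ∃ η : E3 → ℝ, ContDiff ℝ 1 η ∧ HasCompactSupport η ∧ (∀ x, 0 ≤ η x) ∧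
    (∀ x, η x ≤ 1) ∧ (tsupport η ⊆ Metric.closedBall 0 63) ∧
    (∀ x ∈ Metric.closedBall (0 : E3) 62, η x = 1) := by
  let b : ContDiffBump (0 : E3) := ⟨62, 63, by norm_num, by norm_num⟩
  exact ⟨b, b.contDiff, b.hasCompactSupport, fun x => b.nonneg, fun x => b.le_one,
    b.tsupport_eq.le, fun x hx => b.one_of_mem_closedBall hx⟩

theorem stmt_ENER (hPIOW : Stmt_PIOW) (hPIOI : Stmt_PIOI) (hBAS : Stmt_BAS)
    (hWIN1 : Stmt_WIN1) : Stmt_ENER := by
  obtain ⟨η, hη, hηc, hη0, hη1, hηs, hηin⟩ := ENER_.cutoff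
  obtain ⟨M0, hM0⟩ : ∃ C, ∀ x, ‖fderiv ℝ η x‖ ≤ C :=
    (hη.continuous_fderiv (by norm_num)).bounded_above_of_compact_support (hηc.fderiv ℝ)
  have hM00 : 0 ≤ M0 := (norm_nonneg _).trans (hM0 0)
  set S : Set E3 := Metric.closedBall (0 : E3) 63 with hS
  have hSc : IsCompact S := isCompact_closedBall _ _
  have hSm : MeasurableSet S := measurableSet_closedBall
  have hSb : S ⊆ Metric.ball (0 : E3) 64 := Metric.closedBall_subset_ball (by norm_num)
  have hηd : Differentiable ℝ η := hη.differentiable (by norm_num)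
  have hηcont : Continuous η := hη.continuous
  have hη00 : ∀ x, x ∉ S → η x = 0 := fun x hx =>
    image_eq_zero_of_notMem_tsupport (fun h => hx (hηs h))
  set K : ℝ := 520 * M0 with hK
  have hK0 : 0 ≤ K := by positivity
  have hv0 : 0 ≤ volume.real S := measureReal_nonneg
  refine ⟨K ^ 3 * volume.real S + 1, by positivity, ?_⟩
  intro ε F A hε hN
  obtain ⟨hd, h3, h2, hcp⟩ := hPIOI _ F A Metric.isOpen_ball hN.cont hN.wg S hSc hSb
  have hInt62 : IntegrableOn (fun X => opn (A X) ^ 3) (Metric.ball (0 : E3) 62) :=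
    h3.mono_set (Metric.ball_subset_closedBall.trans
      (Metric.closedBall_subset_closedBall (by norm_num)))
  refine ⟨hInt62, ?_⟩
  have hF : ∀ x ∈ S, ‖F x‖ ≤ 65 := by
    intro x hx
    have e1 := hN.close x (hSb hx)
    have e2 := hWIN1.1 x
    have e3 : ‖x‖ ≤ 63 := by simpa [hS] using hx
    calc ‖F x‖ = ‖(F x - wind x) + wind x‖ := by rw [sub_add_cancel]
      _ ≤ ‖F x - wind x‖ + ‖wind x‖ := norm_add_le _ _
      _ ≤ 1 + 63 := by rw [e2]; linarith
      _ ≤ 65 := by norm_num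
  -- the cubic cut-off
  have hφ : ContDiff ℝ 1 (fun x => η x ^ 3) := hη.pow 3
  have hφs : tsupport (fun x => η x ^ 3) ⊆ S := by
    refine closure_minimal ?_ hSc.isClosed
    intro x hx
    by_contra h
    exact hx (by simp [hη00 x h])
  have hφc : HasCompactSupport (fun x => η x ^ 3) :=
    HasCompactSupport.of_support_subset_isCompact hSc ((subset_tsupport _).trans hφs)
  have hP := hPIOW _ F A Metric.isOpen_ball hN.cont hN.wg (fun y => y) (fun x => η x ^ 3) univ
    isOpen_univ contDiffOn_id hφ hφc (hφs.trans hSb) (fun x _ => mem_univ _)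
  simp only [ENER_.divv_id] at hP
  have hcS : ContinuousOn (fun x => η x ^ 3) S := (hηcont.pow 3).continuousOn
  have hcS2 : ContinuousOn (fun x => η x ^ 2) S := (hηcont.pow 2).continuousOn
  have i1 : IntegrableOn (fun x => η x ^ 3 * (A x).det) S := hd.continuousOn_mul hcS hSc
  have i2 : IntegrableOn (fun x => η x ^ 3 * opn (A x) ^ 3) S := h3.continuousOn_mul hcS hSc
  have i3 : IntegrableOn (fun x => η x ^ 2 * opn (A x) ^ 2) S := h2.continuousOn_mul hcS2 hSc
  have hopn : ∀ x, 0 ≤ opn (A x) := fun x => norm_nonneg _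
  -- left side
  have hL : ∫ x, cpair (A x) (F x) (gradv (fun x => η x ^ 3) x)
      = ∫ x in S, cpair (A x) (F x) (gradv (fun x => η x ^ 3) x) := by
    refine (setIntegral_eq_integral_of_forall_compl_eq_zero fun x hx => ?_).symm
    rw [ENER_.gradv_pow η hηd, hη00 x hx]
    simp [cpair]
  have hR : ∫ x, η x ^ 3 * ((A x).det * 3) = 3 * ∫ x in S, η x ^ 3 * (A x).det := by
    rw [← integral_const_mul, ← setIntegral_eq_integral_of_forall_compl_eq_zero (s := S)]
    · refine setIntegral_congr_fun hSm fun x _ => ?_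
      ring
    · intro x hx
      rw [hη00 x hx]
      simp
  rw [hL, hR] at hP
  have hbd : ∀ x ∈ S, ‖cpair (A x) (F x) (gradv (fun x => η x ^ 3) x)‖
      ≤ 390 * M0 * (η x ^ 2 * opn (A x) ^ 2) := by
    intro x hx
    rw [Real.norm_eq_abs]
    refine (ENER_.cpair_le hBAS _ _ _).trans ?_
    rw [ENER_.gradv_pow η hηd, norm_smul, Real.norm_eq_abs,
      abs_of_nonneg (by positivity : (0 : ℝ) ≤ 3 * η x ^ 2)]
    have g1 := ENER_.norm_gradv_le η x M0 hM00 (hM0 x)
    have g2 : opn (A x) ^ 2 * (3 * η x ^ 2 * ‖gradv η x‖)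
        ≤ opn (A x) ^ 2 * (3 * η x ^ 2 * (2 * M0)) := by gcongr
    calc ‖F x‖ * (opn (A x) ^ 2 * (3 * η x ^ 2 * ‖gradv η x‖))
        ≤ 65 * (opn (A x) ^ 2 * (3 * η x ^ 2 * (2 * M0))) :=
          mul_le_mul (hF x hx) g2 (by positivity) (by norm_num)
      _ = 390 * M0 * (η x ^ 2 * opn (A x) ^ 2) := by ring
  have hb2 : ‖∫ x in S, cpair (A x) (F x) (gradv (fun x => η x ^ 3) x)‖
      ≤ ∫ x in S, 390 * M0 * (η x ^ 2 * opn (A x) ^ 2) := by
    refine norm_integral_le_of_norm_le (i3.const_mul _) ?_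
    exact (ae_restrict_iff' hSm).mpr (Eventually.of_forall hbd)
  rw [integral_const_mul, Real.norm_eq_abs] at hb2
  -- first inequality
  have hgood : ∀ᵐ x ∂(volume.restrict S), Good (A x) :=
    ae_restrict_of_ae_restrict_of_subset hSb hN.good
  have hA1 : ∫ x in S, η x ^ 3 * opn (A x) ^ 3 ≤ ∫ x in S, 4 * (η x ^ 3 * (A x).det) := by
    refine integral_mono_ae i2 (i1.const_mul 4) ?_
    filter_upwards [hgood] with x hx
    have := hx.2
    have h0 : 0 ≤ η x ^ 3 := pow_nonneg (hη0 x) 3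
    nlinarith [mul_le_mul_of_nonneg_left this h0]
  rw [integral_const_mul] at hA1
  -- Young
  have hY : ∫ x in S, K * (η x ^ 2 * opn (A x) ^ 2)
      ≤ ∫ x in S, ((2 / 3) * (η x ^ 3 * opn (A x) ^ 3) + K ^ 3 / 3) := by
    have i4 : IntegrableOn (fun _ : E3 => K ^ 3 / 3) S :=
      integrableOn_const hSc.measure_lt_top.ne
    refine integral_mono (i3.const_mul K) ((i2.const_mul _).add i4) fun x => ?_
    have := ENER_.young K (η x * opn (A x)) hK0 (mul_nonneg (hη0 x) (hopn x))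
    simp only [mul_pow] at this
    exact this
  have hY2 : ∫ x in S, ((2 / 3) * (η x ^ 3 * opn (A x) ^ 3) + K ^ 3 / 3)
      = (2 / 3) * (∫ x in S, η x ^ 3 * opn (A x) ^ 3) + volume.real S * (K ^ 3 / 3) := by
    have i4 : IntegrableOn (fun _ : E3 => K ^ 3 / 3) S :=
      integrableOn_const hSc.measure_lt_top.ne
    rw [integral_add (i2.const_mul _) i4, integral_const_mul, setIntegral_const, smul_eq_mul]
  rw [hY2, integral_const_mul] at hY
  -- conclusion
  have hfin : ∫ x in S, η x ^ 3 * opn (A x) ^ 3 ≤ K ^ 3 * volume.real S := by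
    have e1 : -(∫ x in S, cpair (A x) (F x) (gradv (fun x => η x ^ 3) x))
        ≤ 390 * M0 * ∫ x in S, η x ^ 2 * opn (A x) ^ 2 := (neg_le_abs _).trans hb2
    have e2 : K * ∫ x in S, η x ^ 2 * opn (A x) ^ 2
        = (4 / 3) * (390 * M0 * ∫ x in S, η x ^ 2 * opn (A x) ^ 2) := by rw [hK]; ring
    linarith
  have hball : ∫ X in Metric.ball (0 : E3) 62, opn (A X) ^ 3
      ≤ ∫ x in S, η x ^ 3 * opn (A x) ^ 3 := by
    have hsub : Metric.ball (0 : E3) 62 ⊆ S := Metric.ball_subset_closedBall.trans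
      (Metric.closedBall_subset_closedBall (by norm_num))
    have q1 : ∫ X in Metric.ball (0 : E3) 62, opn (A X) ^ 3
        = ∫ X in Metric.ball (0 : E3) 62, η X ^ 3 * opn (A X) ^ 3 := by
      refine setIntegral_congr_fun measurableSet_ball fun x hx => ?_
      have := hηin x (Metric.ball_subset_closedBall hx)
      simp only [this]
      ring
    rw [q1]
    refine setIntegral_mono_set i2 ?_ hsub.eventuallyLE
    exact Eventually.of_forall fun x =>
      mul_nonneg (pow_nonneg (hη0 x) 3) (pow_nonneg (hopn x) 3)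
  linarith

end Pool.Mart
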