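import Pool.Agent.Work.MP_680515_an.IfaceU

/-!
# MP_680515_an, block ETA: the gradient of `G` of the systems of a package is small
-/

open MeasureTheory Set Filter Topology Complex

namespace Pool.Mart

theorem stmt_ETA (hGRD : Stmt_GRD) (hDTR : Stmt_DTR) (hDSM : Stmt_DSM) (hNRM : Stmt_NRM)
    (hDLI : Stmt_DLI) : Stmt_ETA := by
  intro ρ hρ hρ1
  obtain ⟨CG, hCG, hG⟩ := hGRD ρ hρ hρ1
  obtain ⟨CD, hCD, hD⟩ := hDTR ρ hρ hρ1
  obtain ⟨CS, hCS, hS⟩ := hDSM (ρ / 2) (by linarith) (by linarith)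
  refine ⟨CG * Real.sqrt (2 * CD * CS), ρ / 1024, by positivity, by positivity, ?_⟩
  intro ε Ω f A γ O O' hε0 hε hΩ hQ hI hP t ht n
  have hsc0 : 0 ≤ sc n := by unfold sc; positivity
  have hsc1 : sc n ≤ 1 := by
    unfold sc
    exact pow_le_one₀ (by norm_num) (by norm_num)
  have ht1 : t ∈ Icc (-20 : ℝ) 20 := ⟨by linarith [ht.1], by linarith [ht.2]⟩
  have ht2 : t + sc n ∈ Icc (-20 : ℝ) 20 := ⟨by linarith [ht.1], by linarith [ht.2]⟩
  have hN1 := (hNRM ε Ω f A γ O O' 2 hΩ hQ hI le_rfl hP t ht1 n).1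
  have hN2 := (hNRM ε Ω f A γ O O' 2 hΩ hQ hI le_rfl hP (t + sc n) ht2 n).1
  have h1 := (hG ε _ _ hε0 (by linarith) hN1).2
  have h2 := (hD ε Ω f A γ O O' hε0 hε hΩ hQ hI hP t ht n).2
  have h3 := (hS ε _ _ hε0 (by linarith) hN1).2
  have h4 := (hS ε _ _ hε0 (by linarith) hN2).2
  have h5 : ∫ X in RG ρ, dl (nF f γ O O' t n) (nA f A γ O O' t n) X ≤ 2 * CD * CS * ε := by
    refine le_trans h2 ?_
    have : CD * (DD (ρ / 2) (nF f γ O O' t n) (nA f A γ O O' t n)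
        + DD (ρ / 2) (nF f γ O O' (t + sc n) n) (nA f A γ O O' (t + sc n) n))
        ≤ CD * (CS * ε + CS * ε) := mul_le_mul_of_nonneg_left (by linarith) hCD.le
    linarith
  calc ∫ X in RG ρ, grd (nF f γ O O' t n) (nA f A γ O O' t n) X
      ≤ CG * Real.sqrt (∫ X in RG ρ, dl (nF f γ O O' t n) (nA f A γ O O' t n) X) := h1
    _ ≤ CG * Real.sqrt (2 * CD * CS * ε) :=
        mul_le_mul_of_nonneg_left (Real.sqrt_le_sqrt h5) hCG.le
    _ = CG * Real.sqrt (2 * CD * CS) * Real.sqrt ε := by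
        rw [Real.sqrt_mul (by positivity) ε, ← mul_assoc]

end Pool.Mart
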