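import Pool.Agent.Work.MP_680515_an.IfaceU
import Pool.Agent.Work.MP_680515_an.IfaceH

/-!
# MP_680515_an: the final theorem from `PACK` and `END`
-/

open MeasureTheory Set Filter Topology Complex

namespace Pool.Mart

namespace FIN_

lemma pack_mono {ε ε' : ℝ} {Ω : Set E3} {f : E3 → E3} {γ : ℝ → E3} {O O' : ℝ → ℕ → M3}
    (hε : ε ≤ ε') (h : Pack ε Ω f γ O O') : Pack ε' Ω f γ O O' where
  pos := h.pos
  pos' := h.pos'
  so := h.so
  so' := h.so'
  base := h.base
  base' := h.base'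
  sub := h.sub
  close := fun t ht n X hX => (h.close t ht n X hX).trans
    (mul_le_mul_of_nonneg_right hε (h.pos' t ht n).le)
  line := fun t ht n s hs hts => (h.line t ht n s hs hts).trans
    (mul_le_mul_of_nonneg_right hε (h.pos t ht n).le)

end FIN_

theorem stmt_Final (hPACK : Stmt_PACK) (hEND : Stmt_END) : Stmt_Final := by
  obtain ⟨C, ε1, hC, hε1, hP⟩ := hPACK
  obtain ⟨ε0, hε0, hE⟩ := hEND
  refine ⟨min ε1 (ε0 / C), lt_min hε1 (div_pos hε0 hC), ?_⟩
  intro Ω V φ ψ A K hΩ _ hmaps hψ hφ hax hq hK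
  obtain ⟨γ, O, O', hpk⟩ := hP (min ε1 (ε0 / C)) Ω V φ ψ
    (le_min hε1.le (div_pos hε0 hC).le) (min_le_left _ _) hmaps hψ hφ hax
  have hle : C * min ε1 (ε0 / C) ≤ ε0 := by
    calc C * min ε1 (ε0 / C) ≤ C * (ε0 / C) := by
          exact mul_le_mul_of_nonneg_left (min_le_right _ _) hC.le
      _ = ε0 := by field_simp
  exact hE Ω _ A γ O O' K hΩ hq hK (FIN_.pack_mono hle hpk)

end Pool.Mart
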