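import Pool.Agent.Work.MP_680515_an.IfaceH

/-!
# MP_680515_an, block FIXF: frame correction
-/

open MeasureTheory Set Filter Topology Complex

namespace Pool.Mart

theorem FIXF_.act_mul (A B : M3) (x : E3) : act (A * B) x = act A (act B x) := by
  unfold act
  simp [Matrix.mulVec_mulVec]

theorem FIXF_.norm_act (Q : M3) (hQ : Q ∈ Matrix.specialOrthogonalGroup (Fin 3) ℝ) (x : E3) :
    ‖act Q x‖ = ‖x‖ := by
  have h1 : Q.transpose * Q = 1 := by
    have h2 := (Matrix.mem_specialOrthogonalGroup_iff.mp hQ).1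
    exact (Matrix.mem_orthogonalGroup_iff' (Fin 3) ℝ).mp h2
  have h4 : ∀ v : E3, ‖v‖ ^ 2 = v.ofLp ⬝ᵥ v.ofLp := by
    intro v
    rw [EuclideanSpace.norm_sq_eq, dotProduct]
    refine Finset.sum_congr rfl fun i _ => ?_
    rw [Real.norm_eq_abs, sq_abs, sq]
  have h5 : ‖act Q x‖ ^ 2 = ‖x‖ ^ 2 := by
    rw [h4, h4]
    have h6 : (act Q x).ofLp = Q.mulVec x.ofLp := rfl
    rw [h6, Matrix.dotProduct_mulVec, Matrix.vecMul_mulVec, h1, Matrix.vecMul_one]
  exact (sq_eq_sq₀ (norm_nonneg _) (norm_nonneg _)).mp h5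

theorem FIXF_.norm_e3 : ‖e3‖ = 1 := by
  unfold e3
  simp

theorem stmt_FIXF (hROTF : Stmt_ROTF) : Stmt_FIXF := by
  intro Q L δ w hQ hL hδ hδ4 hw
  have hQn := FIXF_.norm_act Q hQ
  set u : E3 := act Q e3 with hu
  have hu1 : ‖u‖ = 1 := by rw [hu, hQn, FIXF_.norm_e3]
  have hLu : ‖L • u‖ = L := by
    rw [norm_smul, hu1, Real.norm_eq_abs, abs_of_pos hL, mul_one]
  have hwL : |‖w‖ - L| ≤ δ * L := by
    have h1 := abs_norm_sub_norm_le w (L • u)
    rw [hLu] at h1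
    exact h1.trans hw
  have hδL : δ * L ≤ 1 / 4 * L := by gcongr
  have hw0 : 0 < ‖w‖ := by
    have := (abs_le.mp hwL).1
    linarith
  set v : E3 := ‖w‖⁻¹ • w with hv
  have hv1 : ‖v‖ = 1 := by
    rw [hv, norm_smul, norm_inv, norm_norm]
    exact inv_mul_cancel₀ hw0.ne'
  have hwv : ‖w‖ • v = w := by
    rw [hv, smul_smul, mul_inv_cancel₀ hw0.ne', one_smul]
  have huv : ‖u - v‖ ≤ 2 * δ := by
    have e1 : L • (u - v) = (L • u - w) + (‖w‖ - L) • v := by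
      have : w = ‖w‖ • v := hwv.symm
      calc L • (u - v) = L • u - ‖w‖ • v + (‖w‖ - L) • v := by module
        _ = (L • u - w) + (‖w‖ - L) • v := by rw [hwv]
    have e2 : L * ‖u - v‖ ≤ L * (2 * δ) := by
      have e3 : ‖L • (u - v)‖ = L * ‖u - v‖ := by
        rw [norm_smul, Real.norm_eq_abs, abs_of_pos hL]
      rw [← e3, e1]
      calc ‖(L • u - w) + (‖w‖ - L) • v‖ ≤ ‖L • u - w‖ + ‖(‖w‖ - L) • v‖ := norm_add_le _ _
        _ ≤ δ * L + δ * L := by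
            refine add_le_add ?_ ?_
            · rw [norm_sub_rev]; exact hw
            · rw [norm_smul, hv1, mul_one, Real.norm_eq_abs]; exact hwL
        _ = L * (2 * δ) := by ring
    exact le_of_mul_le_mul_left e2 hL
  obtain ⟨R, hR, hRu, hRx⟩ := hROTF u v hu1 hv1 (huv.trans (by linarith))
  have hRQ : ∀ X : E3, act (R * Q) X = act R (act Q X) := FIXF_.act_mul R Q
  have hclose : ∀ X : E3, ‖act (R * Q) X - act Q X‖ ≤ 8 * δ * ‖X‖ := by
    intro X
    rw [hRQ]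
    calc ‖act R (act Q X) - act Q X‖ ≤ 4 * ‖u - v‖ * ‖act Q X‖ := hRx _
      _ ≤ 4 * (2 * δ) * ‖act Q X‖ := by gcongr
      _ = 8 * δ * ‖X‖ := by rw [hQn]; ring
  refine ⟨R * Q, mul_mem hR hQ, ?_, hwL, hw0, fun X => ⟨hclose X, ?_⟩⟩
  · rw [hRQ, ← hu, hRu, hwv]
  · have e1 : ‖w‖ • act (R * Q) X - L • act Q X
        = (‖w‖ - L) • act (R * Q) X + L • (act (R * Q) X - act Q X) := by module
    rw [e1]
    have e2 : ‖act (R * Q) X‖ = ‖X‖ := FIXF_.norm_act _ (mul_mem hR hQ) X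
    calc ‖(‖w‖ - L) • act (R * Q) X + L • (act (R * Q) X - act Q X)‖
        ≤ ‖(‖w‖ - L) • act (R * Q) X‖ + ‖L • (act (R * Q) X - act Q X)‖ := norm_add_le _ _
      _ = |‖w‖ - L| * ‖X‖ + L * ‖act (R * Q) X - act Q X‖ := by
          rw [norm_smul, norm_smul, e2, Real.norm_eq_abs, Real.norm_eq_abs, abs_of_pos hL]
      _ ≤ (δ * L) * ‖X‖ + L * (8 * δ * ‖X‖) := by
          gcongr
          exact hclose X
      _ ≤ 12 * δ * L * ‖X‖ := by
          have : 0 ≤ δ * L * ‖X‖ := by positivity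
          nlinarith

end Pool.Mart
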