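import Pool.Agent.Work.MP_680515_an.IfaceA

open MeasureTheory Set Filter Topology Complex

namespace Pool.Mart

namespace FL8_

lemma intg {Ω : Set E3} (u : E3 → ℝ) (hu : ContinuousOn u Ω) (v : E3 → ℝ) (hv : Continuous v)
    (hc : HasCompactSupport v) (hs : tsupport v ⊆ Ω) : Integrable (fun x => u x * v x) := by
  have hK : IsCompact (tsupport v) := hc
  have h1 : IntegrableOn (fun x => u x * v x) (tsupport v) :=
    ((hu.mono hs).mul hv.continuousOn).integrableOn_compact hK
  refine (integrableOn_iff_integrable_of_support_subset ?_).mp h1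
  intro x hx
  apply subset_tsupport v
  intro h0
  apply hx
  simp [h0]

lemma intg2 (u : E3 → ℝ) (v : E3 → ℝ) (hv : Continuous v)
    (hc : HasCompactSupport v) (hu : IntegrableOn u (tsupport v)) :
    Integrable (fun x => u x * v x) := by
  have hK : IsCompact (tsupport v) := hc
  obtain ⟨C, hC⟩ := hv.bounded_above_of_compact_support hc
  have h1 : IntegrableOn (fun x => u x * v x) (tsupport v) :=
    Integrable.mul_bdd (c := C) hu hv.aestronglyMeasurable (Eventually.of_forall hC)
  refine (integrableOn_iff_integrable_of_support_subset ?_).mp h1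
  intro x hx
  apply subset_tsupport v
  intro h0
  apply hx
  simp [h0]

lemma intA {Ω : Set E3} {f : E3 → E3} {A : E3 → M3} (hw : WeakGrad Ω f A) (K : Set E3)
    (hK : IsCompact K) (hs : K ⊆ Ω) (i j : Fin 3) : IntegrableOn (fun x => A x i j) K := by
  have h := hw.loc K hK hs i j
  have : IsFiniteMeasure (volume.restrict K) := ⟨by
    rw [Measure.restrict_apply_univ]
    exact hK.measure_lt_top⟩
  exact h.integrable (by norm_num)

lemma wg_mono {Ω Ω' : Set E3} {f : E3 → E3} {A : E3 → M3} (h : Ω' ⊆ Ω) (hw : WeakGrad Ω f A) :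
    WeakGrad Ω' f A :=
  ⟨fun K hK hs => hw.loc K hK (hs.trans h), fun φ h1 h2 h3 => hw.ibp φ h1 h2 (h3.trans h)⟩

/-- glued map -/
noncomputable def gF (ψ : E3 → ℝ) (F G : E3 → E3) (x : E3) : E3 := ψ x • F x + (1 - ψ x) • G x

/-- glued gradient -/
noncomputable def gA (ψ : E3 → ℝ) (F G : E3 → E3) (A B : E3 → M3) (x : E3) : M3 :=
  Matrix.of fun i j => ψ x * A x i j + (1 - ψ x) * B x i j
    + (F x i - G x i) * fderiv ℝ ψ x (EuclideanSpace.single j 1)

lemma gF_app (ψ : E3 → ℝ) (F G : E3 → E3) (x : E3) (i : Fin 3) :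
    gF ψ F G x i = ψ x * F x i + (1 - ψ x) * G x i := rfl

lemma gA_app (ψ : E3 → ℝ) (F G : E3 → E3) (A B : E3 → M3) (x : E3) (i j : Fin 3) :
    gA ψ F G A B x i j = ψ x * A x i j + (1 - ψ x) * B x i j
    + (F x i - G x i) * fderiv ℝ ψ x (EuclideanSpace.single j 1) := rfl

lemma coord_cont {Ω : Set E3} {F : E3 → E3} (hF : ContinuousOn F Ω) (i : Fin 3) :
    ContinuousOn (fun x => F x i) Ω := by
  have h : Continuous (fun v : E3 => v i) := by fun_prop
  exact h.comp_continuousOn hF

lemma memLp_bdd_mul {K : Set E3} (a ψ : E3 → ℝ) (C : ℝ)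
    (ha : MemLp a 3 (volume.restrict K)) (hψ : Continuous ψ) (hb : ∀ x ∈ K, ‖ψ x‖ ≤ C)
    (hK : MeasurableSet K) : MemLp (fun x => ψ x * a x) 3 (volume.restrict K) := by
  refine MemLp.of_le_mul (c := C) ha (hψ.aestronglyMeasurable.mul ha.1) ?_
  rw [ae_restrict_iff' hK]
  refine Eventually.of_forall fun x hx => ?_
  rw [norm_mul]
  exact mul_le_mul_of_nonneg_right (hb x hx) (norm_nonneg _)

lemma int_comb (a b c d r p q : E3 → ℝ) (ia : Integrable a) (ib : Integrable b)
    (ic : Integrable c) (id' : Integrable d) (ir : Integrable r)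
    (hp : ∀ x, p x = a x + b x - r x) (hq : ∀ x, q x = c x + d x + r x)
    (h1 : ∫ x, a x = - ∫ x, c x) (h2 : ∫ x, b x = - ∫ x, d x) : ∫ x, p x = - ∫ x, q x := by
  have e1 : ∫ x, p x = (∫ x, a x) + (∫ x, b x) - ∫ x, r x := by
    have hab : Integrable (fun x => a x + b x) := ia.add ib
    rw [← integral_add ia ib, ← integral_sub hab ir]
    exact integral_congr_ae (Eventually.of_forall hp)
  have e2 : ∫ x, q x = (∫ x, c x) + (∫ x, d x) + ∫ x, r x := by
    have hcd : Integrable (fun x => c x + d x) := ic.add id'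
    rw [← integral_add ic id', ← integral_add hcd ir]
    exact integral_congr_ae (Eventually.of_forall hq)
  rw [e1, e2, h1, h2]
  ring

lemma glue {Ω : Set E3} (F G : E3 → E3) (A B : E3 → M3)
    (hF : ContinuousOn F Ω) (hG : ContinuousOn G Ω) (hA : WeakGrad Ω F A) (hB : WeakGrad Ω G B)
    (ψ : E3 → ℝ) (hψ : ContDiff ℝ (⊤ : ℕ∞) ψ) : WeakGrad Ω (gF ψ F G) (gA ψ F G A B) := by
  have hψ1 : Differentiable ℝ ψ := hψ.differentiable (by simp)
  have hdc : ∀ j : Fin 3, Continuous (fun x => fderiv ℝ ψ x (EuclideanSpace.single j 1)) := by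
    intro j
    exact (hψ.continuous_fderiv (by simp)).clm_apply continuous_const
  refine ⟨?_, ?_⟩
  · intro K hK hs i j
    have : IsFiniteMeasure (volume.restrict K) := ⟨by
      rw [Measure.restrict_apply_univ]
      exact hK.measure_lt_top⟩
    obtain ⟨C1, hC1⟩ := hK.exists_bound_of_continuousOn (f := ψ) hψ.continuous.continuousOn
    obtain ⟨C2, hC2⟩ := hK.exists_bound_of_continuousOn (f := fun x => 1 - ψ x)
      (continuous_const.sub hψ.continuous).continuousOn
    have e1 := memLp_bdd_mul (fun x => A x i j) ψ C1 (hA.loc K hK hs i j) hψ.continuous hC1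
      hK.measurableSet
    have e2 := memLp_bdd_mul (fun x => B x i j) (fun x => 1 - ψ x) C2 (hB.loc K hK hs i j)
      (continuous_const.sub hψ.continuous) hC2 hK.measurableSet
    have hc3 : ContinuousOn (fun x => (F x i - G x i)
        * fderiv ℝ ψ x (EuclideanSpace.single j 1)) K :=
      (((coord_cont hF i).mono hs).sub ((coord_cont hG i).mono hs)).mul (hdc j).continuousOn
    obtain ⟨C3, hC3⟩ := hK.exists_bound_of_continuousOn hc3
    have e3' : MemLp (fun x => (F x i - G x i)
        * fderiv ℝ ψ x (EuclideanSpace.single j 1)) 3 (volume.restrict K) := by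
      refine MemLp.of_bound (hc3.aestronglyMeasurable hK.measurableSet) C3 ?_
      rw [ae_restrict_iff' hK.measurableSet]
      exact Eventually.of_forall hC3
    exact (e1.add e2).add e3'
  · intro φ h1 h2 h3 i j
    set e := (EuclideanSpace.single j (1:ℝ) : E3) with he
    have hφ1 : Differentiable ℝ φ := h1.differentiable (by simp)
    have hψc := hψ.continuous
    have hφc := h1.continuous
    -- test functions
    have t1 : ContDiff ℝ (⊤ : ℕ∞) (fun x => ψ x * φ x) := hψ.mul h1
    have t2 : ContDiff ℝ (⊤ : ℕ∞) (fun x => (1 - ψ x) * φ x) := (contDiff_const.sub hψ).mul h1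
    have s1 : tsupport (fun x => ψ x * φ x) ⊆ tsupport φ := tsupport_mul_subset_right
    have s2 : tsupport (fun x => (1 - ψ x) * φ x) ⊆ tsupport φ := tsupport_mul_subset_right
    have c1 : HasCompactSupport (fun x => ψ x * φ x) := h2.mul_left
    have c2 : HasCompactSupport (fun x => (1 - ψ x) * φ x) := h2.mul_left
    have b1 := hA.ibp _ t1 c1 (s1.trans h3) i j
    have b2 := hB.ibp _ t2 c2 (s2.trans h3) i j
    rw [← he] at b1 b2
    have d1 : ∀ x, fderiv ℝ (fun x => ψ x * φ x) x e = ψ x * fderiv ℝ φ x e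
        + φ x * fderiv ℝ ψ x e := by
      intro x
      rw [fderiv_fun_mul (hψ1 x) (hφ1 x)]
      rfl
    have d2 : ∀ x, fderiv ℝ (fun x => (1 - ψ x) * φ x) x e = (1 - ψ x) * fderiv ℝ φ x e
        - φ x * fderiv ℝ ψ x e := by
      intro x
      have hd : DifferentiableAt ℝ (fun x => 1 - ψ x) x :=
        (differentiableAt_const (1 : ℝ)).sub (hψ1 x)
      rw [fderiv_fun_mul hd (hφ1 x), fderiv_const_sub]
      simp [sub_eq_add_neg]
    -- integrability
    have i1 : Integrable (fun x => F x i * fderiv ℝ (fun x => ψ x * φ x) x e) := by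
      refine intg (Ω := Ω) _ (coord_cont hF i) _ ?_ ?_ ?_
      · exact (t1.continuous_fderiv (by simp)).clm_apply continuous_const
      · exact c1.fderiv_apply (𝕜 := ℝ) e
      · exact (tsupport_fderiv_apply_subset ℝ e).trans (s1.trans h3)
    have i2 : Integrable (fun x => G x i * fderiv ℝ (fun x => (1 - ψ x) * φ x) x e) := by
      refine intg (Ω := Ω) _ (coord_cont hG i) _ ?_ ?_ ?_
      · exact (t2.continuous_fderiv (by simp)).clm_apply continuous_const
      · exact c2.fderiv_apply (𝕜 := ℝ) e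
      · exact (tsupport_fderiv_apply_subset ℝ e).trans (s2.trans h3)
    have i3 : Integrable (fun x => A x i j * (ψ x * φ x)) :=
      intg2 _ _ (hψc.mul hφc) c1 (intA hA _ c1 (s1.trans h3) i j)
    have i4 : Integrable (fun x => B x i j * ((1 - ψ x) * φ x)) :=
      intg2 _ _ ((continuous_const.sub hψc).mul hφc) c2 (intA hB _ c2 (s2.trans h3) i j)
    have i5 : Integrable (fun x => (F x i - G x i) * (fderiv ℝ ψ x e * φ x)) := by
      refine intg (Ω := Ω) _ ((coord_cont hF i).sub (coord_cont hG i)) _ ?_ ?_ ?_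
      · exact ((hψ.continuous_fderiv (by simp)).clm_apply continuous_const).mul hφc
      · exact h2.mul_left
      · exact (tsupport_mul_subset_right).trans h3
    refine int_comb _ _ _ _ _ _ _ i1 i2 i3 i4 i5 (fun x => ?_) (fun x => ?_) b1 b2
    · rw [d1, d2, gF_app]
      ring
    · rw [gA_app]
      ring

/-- The flux functional of a map without zeros in the ring is a multiple of the integral. -/
lemma flux_const (hFLC : Stmt_FLC) (hFLK : Stmt_FLK) (hPIOI : Stmt_PIOI) (ρ : ℝ) (hρ : 0 < ρ)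
    (hρ1 : ρ ≤ 1) (F : E3 → E3) (A : E3 → M3) (hF : ContinuousOn F (Metric.ball 0 64))
    (hA : WeakGrad (Metric.ball 0 64) F A) (h0 : F 0 = 0)
    (hn : ∀ x : E3, ρ < ‖x‖ → ‖x‖ < 60 → F x ≠ 0) :
    ∃ Φ : ℝ, ∀ h : ℝ → ℝ, Continuous h → HasCompactSupport h → tsupport h ⊆ Ioo ρ 60 →
      ∫ X, h ‖X‖ * fx (A X) X (F X) = Φ * ∫ r, h r := by
  have hint : ∀ h : ℝ → ℝ, Continuous h → HasCompactSupport h → tsupport h ⊆ Ioo ρ 60 →
      Integrable (fun X => h ‖X‖ * fx (A X) X (F X)) := by
    intro h hc hcs hts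
    set K : Set E3 := norm ⁻¹' (tsupport h) with hK
    have hKr : ∀ x ∈ K, ρ < ‖x‖ ∧ ‖x‖ < 60 := fun x hx => hts hx
    have hKc : IsCompact K := by
      refine Metric.isCompact_of_isClosed_isBounded
        ((isClosed_tsupport h).preimage continuous_norm) ?_
      refine (Metric.isBounded_ball (x := (0 : E3)) (r := 60)).subset ?_
      intro x hx
      rw [mem_ball_zero_iff]
      exact (hKr x hx).2
    have hKs : K ⊆ Metric.ball 0 64 := by
      intro x hx
      rw [mem_ball_zero_iff]
      linarith [(hKr x hx).2]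
    have hFK : ContinuousOn F K := hF.mono hKs
    have hH : ContinuousOn (fun X => (‖F X‖ ^ 3)⁻¹ • F X) K := by
      refine ContinuousOn.smul (ContinuousOn.inv₀ (hFK.norm.pow 3) ?_) hFK
      intro x hx
      have := norm_pos_iff.mpr (hn x (hKr x hx).1 (hKr x hx).2)
      exact pow_ne_zero 3 this.ne'
    have hb : ContinuousOn (fun X : E3 => ‖X‖⁻¹ • X) K := by
      refine ContinuousOn.smul (ContinuousOn.inv₀ continuous_norm.continuousOn ?_) continuousOn_id
      intro x hx
      have := (hKr x hx).1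
      linarith
    have h1 : IntegrableOn (fun X => fx (A X) X (F X)) K :=
      (hPIOI _ F A Metric.isOpen_ball hF hA K hKc hKs).2.2.2 _ _ hH hb
    obtain ⟨C, hC⟩ := hc.bounded_above_of_compact_support hcs
    have h2 : IntegrableOn (fun X => h ‖X‖ * fx (A X) X (F X)) K :=
      Integrable.bdd_mul (c := C) h1 (hc.comp continuous_norm).aestronglyMeasurable
        (Eventually.of_forall fun x => hC _)
    refine (integrableOn_iff_integrable_of_support_subset ?_).mp h2
    intro x hx
    apply subset_tsupport h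
    intro h0
    apply hx
    simp [h0]
  refine hFLK ρ 60 (fun h => ∫ X, h ‖X‖ * fx (A X) X (F X)) hρ.le (by linarith) ?_ ?_
  · intro h k hh hk th tk ch ck c
    have e1 : (fun X : E3 => (h ‖X‖ + c * k ‖X‖) * fx (A X) X (F X))
        = fun X => h ‖X‖ * fx (A X) X (F X) + c * (k ‖X‖ * fx (A X) X (F X)) := by
      funext X
      ring
    show ∫ X : E3, (h ‖X‖ + c * k ‖X‖) * fx (A X) X (F X) = _
    rw [e1, integral_add (hint h hh ch th) ((hint k hk ck tk).const_mul c), integral_const_mul]
  · intro η h1 h2 h3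
    have := hFLC (Metric.ball 0 64) F A 0 ρ 60 Metric.isOpen_ball hF hA hρ.le ?_ ?_ η h1 h2 h3
    · simpa [h0] using this
    · intro x hx
      have hx2 : ‖x - 0‖ < 60 := hx.2
      rw [sub_zero] at hx2
      rw [mem_ball_zero_iff]
      linarith
    · intro x hx1 hx2
      rw [sub_zero] at hx1 hx2
      rw [h0]
      exact hn x hx1 hx2

lemma axis_null : volume {X : E3 | rad X = 0} = 0 := by
  set S : Submodule ℝ E3 := LinearMap.ker (EuclideanSpace.proj (0 : Fin 3) : E3 →L[ℝ] ℝ).toLinearMap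
    with hS
  have hne : S ≠ ⊤ := by
    intro htop
    have : (EuclideanSpace.single (0 : Fin 3) (1 : ℝ) : E3) ∈ S := by
      rw [htop]
      trivial
    rw [hS, LinearMap.mem_ker] at this
    simp at this
  have h0 := Measure.addHaar_submodule volume S hne
  refine measure_mono_null ?_ h0
  intro X hX
  have hX' : Real.sqrt (X 0 ^ 2 + X 1 ^ 2) = 0 := hX
  have h1 : X 0 ^ 2 + X 1 ^ 2 = 0 := (Real.sqrt_eq_zero (by positivity)).mp hX'
  have h2 : X 0 = 0 := by nlinarith [sq_nonneg (X 0), sq_nonneg (X 1)]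
  show X ∈ S
  rw [hS, LinearMap.mem_ker]
  exact h2

end FL8_

open FL8_ in
theorem stmt_FL8 (hFLC : Stmt_FLC) (hFLK : Stmt_FLK) (hWIN1 : Stmt_WIN1) (hWIN2 : Stmt_WIN2)
    (hRINT : Stmt_RINT) (hPIOI : Stmt_PIOI) (_hBAS : Stmt_BAS) (_hRADF : Stmt_RADF) :
    Stmt_FL8 := by
  intro ρ ε F A hρ hρ1 hε hN
  obtain ⟨hF, hA, -, hcl, hz, -⟩ := hN
  obtain ⟨w1, -, -, w4, -⟩ := hWIN1
  have hwc : Continuous wind := by
    have : LipschitzWith 2 wind := LipschitzWith.of_dist_le_mul fun x y => by
      rw [dist_eq_norm, dist_eq_norm]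
      exact w4 x y
    exact this.continuous
  have hw0 : wind 0 = 0 := by
    rw [← norm_eq_zero, w1, norm_zero]
  -- bump function
  let b : ContDiffBump (0 : E3) := ⟨20, 30, by norm_num, by norm_num⟩
  set ψ : E3 → ℝ := fun x => b x with hψd
  have hψ : ContDiff ℝ (⊤ : ℕ∞) ψ := b.contDiff
  have hψ01 : ∀ x, 0 ≤ ψ x ∧ ψ x ≤ 1 := fun x => ⟨b.nonneg, b.le_one⟩
  have hψ1 : ∀ x : E3, ‖x‖ < 20 → ψ x = 1 := fun x hx =>
    b.one_of_mem_closedBall (by rw [mem_closedBall_zero_iff]; exact hx.le)
  have hψ0 : ∀ x : E3, 30 < ‖x‖ → ψ x = 0 := fun x hx =>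
    b.zero_of_le_dist (by rw [dist_zero_right]; exact hx.le)
  have hd1 : ∀ x : E3, ‖x‖ < 20 → fderiv ℝ ψ x = 0 := by
    intro x hx
    have : ψ =ᶠ[𝓝 x] fun _ => (1 : ℝ) := by
      filter_upwards [(isOpen_lt continuous_norm continuous_const).mem_nhds hx] with y hy
      exact hψ1 y hy
    rw [this.fderiv_eq]
    simp
  have hd0 : ∀ x : E3, 30 < ‖x‖ → fderiv ℝ ψ x = 0 := by
    intro x hx
    have : ψ =ᶠ[𝓝 x] fun _ => (0 : ℝ) := by
      filter_upwards [(isOpen_lt continuous_const continuous_norm).mem_nhds hx] with y hy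
      exact hψ0 y hy
    rw [this.fderiv_eq]
    simp
  set F1 := gF ψ F wind with hF1
  set A1 := gA ψ F wind A (jac wind) with hA1
  have hF1c : ContinuousOn F1 (Metric.ball 0 64) :=
    (hψ.continuous.continuousOn.smul hF).add
      ((continuousOn_const.sub hψ.continuous.continuousOn).smul hwc.continuousOn)
  have hA1w : WeakGrad (Metric.ball 0 64) F1 A1 :=
    glue F wind A (jac wind) hF hwc.continuousOn hA (wg_mono (subset_univ _) hWIN2.1) ψ hψ
  have hF10 : F1 0 = 0 := by
    rw [hF1]
    unfold gF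
    rw [hz, hw0]
    simp
  have hFn : ∀ x : E3, ρ < ‖x‖ → ‖x‖ < 60 → F x ≠ 0 := by
    intro x h1 h2 h3
    have := hcl x (by rw [mem_ball_zero_iff]; linarith)
    rw [h3, zero_sub, norm_neg, w1] at this
    linarith
  have hF1n : ∀ x : E3, ρ < ‖x‖ → ‖x‖ < 60 → F1 x ≠ 0 := by
    intro x h1 h2 h3
    have h4 := hcl x (by rw [mem_ball_zero_iff]; linarith)
    have h5 : F1 x = ψ x • (F x - wind x) + wind x := by
      rw [hF1]
      unfold gF
      module
    have h6 : wind x = -(ψ x • (F x - wind x)) := by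
      rw [h5] at h3
      exact (neg_eq_of_add_eq_zero_right h3).symm
    have h7 : ‖x‖ = ‖ψ x • (F x - wind x)‖ := by
      rw [← w1 x]
      conv_lhs => rw [h6]
      rw [norm_neg]
    rw [norm_smul, Real.norm_eq_abs, abs_of_nonneg (hψ01 x).1] at h7
    have h8 := norm_nonneg (F x - wind x)
    nlinarith [(hψ01 x).2, (hψ01 x).1]
  obtain ⟨Φ, hΦ⟩ := flux_const hFLC hFLK hPIOI ρ hρ hρ1 F A hF hA hz hFn
  obtain ⟨Φ1, hΦ1⟩ := flux_const hFLC hFLK hPIOI ρ hρ hρ1 F1 A1 hF1c hA1w hF10 hF1n
  -- first radius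
  have hsupp : ∀ (c : ℝ) (B : ContDiffBump c), B.rOut = 2 → ∀ r, B r ≠ 0 → c - 2 < r ∧ r < c + 2 := by
    intro c B hB r hr
    have : r ∈ Function.support B := hr
    rw [B.support_eq, hB, Real.ball_eq_Ioo] at this
    exact this
  have htsupp : ∀ (c : ℝ) (B : ContDiffBump c), B.rOut = 2 → 5 ≤ c → c ≤ 55 →
      tsupport B ⊆ Ioo ρ 60 := by
    intro c B hB h5 h55
    rw [B.tsupport_eq, hB, Real.closedBall_eq_Icc]
    intro r hr
    exact ⟨by linarith [hr.1], by linarith [hr.2]⟩
  have eq1 : Φ = Φ1 := by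
    let B : ContDiffBump (10 : ℝ) := ⟨1, 2, by norm_num, by norm_num⟩
    have hB : B.rOut = 2 := rfl
    have hc : Continuous (B : ℝ → ℝ) := B.continuous
    have h1 := hΦ B hc B.hasCompactSupport (htsupp 10 B hB (by norm_num) (by norm_num))
    have h2 := hΦ1 B hc B.hasCompactSupport (htsupp 10 B hB (by norm_num) (by norm_num))
    have h3 : ∀ X : E3, B ‖X‖ * fx (A1 X) X (F1 X) = B ‖X‖ * fx (A X) X (F X) := by
      intro X
      by_cases hX : B ‖X‖ = 0
      · rw [hX, zero_mul, zero_mul]
      · have h4 := hsupp 10 B hB _ hX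
        have h5 : ‖X‖ < 20 := by linarith [h4.2]
        have h6 : F1 X = F X := by
          rw [hF1]
          unfold gF
          rw [hψ1 X h5]
          simp
        have h7 : A1 X = A X := by
          ext i j
          rw [hA1, gA_app, hψ1 X h5, hd1 X h5]
          simp
        rw [h6, h7]
    have h8 : ∫ X : E3, B ‖X‖ * fx (A1 X) X (F1 X) = ∫ X : E3, B ‖X‖ * fx (A X) X (F X) :=
      integral_congr_ae (Eventually.of_forall h3)
    have hpos : 0 < ∫ r, B r := B.integral_pos
    rw [h8, h1] at h2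
    exact mul_right_cancel₀ hpos.ne' h2
  have eq2 : Φ1 = 8 * Real.pi := by
    let B : ContDiffBump (50 : ℝ) := ⟨1, 2, by norm_num, by norm_num⟩
    have hB : B.rOut = 2 := rfl
    have hc : Continuous (B : ℝ → ℝ) := B.continuous
    have h2 := hΦ1 B hc B.hasCompactSupport (htsupp 50 B hB (by norm_num) (by norm_num))
    set h' : ℝ → ℝ := fun r => B r * (2 / (max r 1) ^ 2) with hh'
    have hh'c : Continuous h' := by
      refine hc.mul (continuous_const.div ((continuous_id.max continuous_const).pow 2) ?_)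
      intro r
      have : (1 : ℝ) ≤ max (id r) 1 := le_max_right _ _
      positivity
    have hval : ∀ r, B r ≠ 0 → h' r = B r * (2 / r ^ 2) := by
      intro r hr
      have h4 := hsupp 50 B hB _ hr
      have : max r 1 = r := max_eq_left (by linarith [h4.1])
      rw [hh']
      simp only
      rw [this]
    have h3 : ∀ᵐ X : E3, B ‖X‖ * fx (A1 X) X (F1 X) = h' ‖X‖ := by
      have hax : ∀ᵐ X : E3, rad X ≠ 0 := by
        rw [ae_iff]
        simpa using axis_null
      filter_upwards [hax] with X hX0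
      by_cases hX : B ‖X‖ = 0
      · rw [hh']
        simp only
        rw [hX, zero_mul, zero_mul]
      · have h4 := hsupp 50 B hB _ hX
        have h5 : 30 < ‖X‖ := by linarith [h4.1]
        have h6 : F1 X = wind X := by
          rw [hF1]
          unfold gF
          rw [hψ0 X h5]
          simp
        have h7 : A1 X = jac wind X := by
          ext i j
          rw [hA1, gA_app, hψ0 X h5, hd0 X h5]
          simp
        have hpos : 0 < rad X := lt_of_le_of_ne (Real.sqrt_nonneg _) (Ne.symm hX0)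
        rw [h6, h7, hWIN2.2.2 X hpos, hval _ hX]
    rw [integral_congr_ae h3] at h2
    have h9 : HasCompactSupport h' := B.hasCompactSupport.mul_right
    have h10 : tsupport h' ⊆ Ioo 0 60 := by
      refine (tsupport_mul_subset_left).trans ?_
      refine (htsupp 50 B hB (by norm_num) (by norm_num)).trans ?_
      intro r hr
      exact ⟨hρ.trans hr.1, hr.2⟩
    rw [hRINT h' 0 60 le_rfl hh'c h9 h10] at h2
    have h11 : ∫ r, h' r * r ^ 2 = 2 * ∫ r, B r := by
      rw [← integral_const_mul]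
      refine integral_congr_ae (Eventually.of_forall fun r => ?_)
      by_cases hr : B r = 0
      · rw [hh']
        simp [hr]
      · have h4 := hsupp 50 B hB _ hr
        have hr0 : r ≠ 0 := by linarith [h4.1]
        simp only
        rw [hval r hr]
        field_simp
    rw [h11] at h2
    have hpos : 0 < ∫ r, B r := B.integral_pos
    have h12 : (8 * Real.pi) * ∫ r, B r = Φ1 * ∫ r, B r := by
      rw [← h2]
      ring
    exact (mul_right_cancel₀ hpos.ne' h12).symm
  intro h h1 h2 h3
  rw [hΦ h h1 h2 h3, eq1, eq2]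

end Pool.Mart
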