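import Pool.Agent.Work.MP_680515_an.IfaceA

/-!
# MP_680515_an, block FLC: the flux does not depend on the radius
-/

open MeasureTheory Set Filter Topology Complex

namespace Pool.Mart

theorem FLC_.cpair_smul (A : M3) (H b : E3) (c : ℝ) :
    cpair A H (c • b) = c * cpair A H b := by
  unfold cpair
  rw [Finset.mul_sum]
  refine Finset.sum_congr rfl fun i _ => ?_
  rw [Finset.mul_sum]
  refine Finset.sum_congr rfl fun j _ => ?_
  have : (c • b) j = c * b j := by simp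
  rw [this]
  ring

theorem stmt_FLC (hPIOW : Stmt_PIOW) (hRADF : Stmt_RADF) : Stmt_FLC := by
  intro Ω f A p r1 R hΩ hf hW hr1 hring hne η hη hηc hηs
  obtain ⟨hφ, hφc, hφs, hφg⟩ := hRADF.1 η p r1 R hr1 hη hηc hηs
  obtain ⟨hH1, -, hH2⟩ := hRADF.2.1 (f p)
  have hsub : tsupport (fun x : E3 => η ‖x - p‖) ⊆ Ω := fun x hx => hring (hφs hx)
  have h := hPIOW Ω f A hΩ hf hW (fun y : E3 => (‖y - f p‖ ^ 3)⁻¹ • (y - f p))
    (fun x : E3 => η ‖x - p‖) {f p}ᶜ isOpen_compl_singleton hH1 hφ hφc hsub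
    (fun x hx => hne x (hφs hx).1 (hφs hx).2)
  have h1 : ∀ x, cpair (A x) ((‖f x - f p‖ ^ 3)⁻¹ • (f x - f p))
      (gradv (fun x : E3 => η ‖x - p‖) x)
        = deriv η ‖x - p‖ * fx (A x) (x - p) (f x - f p) := by
    intro x
    rw [hφg x, FLC_.cpair_smul]
    rfl
  have h2 : ∀ x, η ‖x - p‖ * ((A x).det
      * divv (fun y : E3 => (‖y - f p‖ ^ 3)⁻¹ • (y - f p)) (f x)) = 0 := by
    intro x
    by_cases hx : x ∈ tsupport (fun x : E3 => η ‖x - p‖)
    · have h3 := hφs hx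
      have h4 : f x ≠ f p := hne x h3.1 h3.2
      rw [(hH2 (f x) h4).1]
      simp
    · have h4 : η ‖x - p‖ = 0 :=
        image_eq_zero_of_notMem_tsupport (f := fun x : E3 => η ‖x - p‖) hx
      rw [h4, zero_mul]
  simp only [h1, h2] at h
  rw [h]
  simp

end Pool.Mart
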