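import Pool.Agent.Work.MP_680515_an.IfaceA

/-! Block FLK: a functional which vanishes on derivatives is a multiple of the integral. -/

open MeasureTheory Set Filter Topology Complex

namespace Pool.Mart.FLK_

lemma exists_bump {r1 R : ℝ} (h : r1 < R) : ∃ b : ℝ → ℝ, Continuous b ∧ HasCompactSupport b ∧
    tsupport b ⊆ Ioo r1 R ∧ ∫ t, b t = 1 := by
  let f : ContDiffBump ((r1 + R) / 2) :=
    { rIn := (R - r1) / 8, rOut := (R - r1) / 4, rIn_pos := by linarith,
      rIn_lt_rOut := by linarith }
  refine ⟨f.normed volume, ?_, f.hasCompactSupport_normed, ?_, f.integral_normed⟩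
  · exact (f.contDiff_normed (n := 0)).continuous
  · rw [f.tsupport_normed_eq, Real.closedBall_eq_Icc]
    intro x hx
    simp only [mem_Icc] at hx
    have hr : f.rOut = (R - r1) / 4 := rfl
    rw [hr] at hx
    exact ⟨by linarith [hx.1], by linarith [hx.2]⟩

lemma exists_Icc {r1 R : ℝ} (h : r1 < R) {K : Set ℝ} (hK : IsCompact K) (hs : K ⊆ Ioo r1 R) :
    ∃ a b : ℝ, r1 < a ∧ a ≤ b ∧ b < R ∧ K ⊆ Icc a b := by
  have hK' : IsCompact (insert ((r1 + R) / 2) K) := hK.insert _
  have hs' : insert ((r1 + R) / 2) K ⊆ Ioo r1 R := by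
    intro x hx
    rcases hx with rfl | hx
    · exact ⟨by linarith, by linarith⟩
    · exact hs hx
  obtain ⟨a, ha⟩ := hK'.exists_isLeast (insert_nonempty _ _)
  obtain ⟨b, hb⟩ := hK'.exists_isGreatest (insert_nonempty _ _)
  refine ⟨a, b, (hs' ha.1).1, ha.2 hb.1, (hs' hb.1).2, ?_⟩
  intro x hx
  exact ⟨ha.2 (mem_insert_of_mem _ hx), hb.2 (mem_insert_of_mem _ hx)⟩

end Pool.Mart.FLK_

namespace Pool.Mart

open FLK_

theorem stmt_FLK : Stmt_FLK := by
  intro r1 R L hr1 hR hlin hder
  obtain ⟨b, hbc, hbs, hbt, hbi⟩ := exists_bump hR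
  refine ⟨L b, ?_⟩
  intro h hhc hhs hht
  set c : ℝ := ∫ r, h r with hc
  have hzero : L (fun r => h r + (-c) * b r) = 0 := by
    set g : ℝ → ℝ := fun r => h r + (-c) * b r with hg
    have hgc : Continuous g := hhc.add (continuous_const.mul hbc)
    have hint_h : Integrable h := hhc.integrable_of_hasCompactSupport hhs
    have hint_b : Integrable b := hbc.integrable_of_hasCompactSupport hbs
    have hgi : ∫ r, g r = 0 := by
      rw [hg]
      rw [integral_add hint_h (hint_b.const_mul _), integral_const_mul, hbi, ← hc]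
      ring
    obtain ⟨α, β, h1, h2, h3, h4⟩ := exists_Icc hR (hhs.isCompact.union hbs.isCompact)
      (union_subset hht hbt)
    have hgz : ∀ t, t ∉ Icc α β → g t = 0 := by
      intro t ht
      have hh : h t = 0 := by
        by_contra hne
        exact ht (h4 (Or.inl (subset_tsupport _ hne)))
      have hb : b t = 0 := by
        by_contra hne
        exact ht (h4 (Or.inr (subset_tsupport _ hne)))
      simp [hg, hh, hb]
    set α' : ℝ := (r1 + α) / 2 with hα'
    have hα1 : r1 < α' := by rw [hα']; linarith
    have hα2 : α' < α := by rw [hα']; linarith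
    have hsup : ∀ x, β ≤ x → Function.support g ⊆ Ioc α' x := by
      intro x hx t ht
      have : t ∈ Icc α β := by
        by_contra hcon
        exact ht (hgz t hcon)
      exact ⟨lt_of_lt_of_le hα2 this.1, this.2.trans hx⟩
    set η : ℝ → ℝ := fun x => ∫ t in α'..x, g t with hη
    have hderiv : ∀ x, HasDerivAt η (g x) x := fun x =>
      intervalIntegral.integral_hasDerivAt_right (hgc.intervalIntegrable _ _)
        (hgc.stronglyMeasurableAtFilter _ _) hgc.continuousAt
    have hd : deriv η = g := funext fun x => (hderiv x).deriv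
    have hη1 : ContDiff ℝ 1 η := by
      rw [contDiff_one_iff_deriv]
      exact ⟨fun x => (hderiv x).differentiableAt, by rw [hd]; exact hgc⟩
    have hηz : Function.support η ⊆ Icc α' β := by
      intro x hx
      by_contra hcon
      apply hx
      simp only [mem_Icc, not_and_or, not_le] at hcon
      rcases hcon with hlt | hgt
      · have : ∫ t in α'..x, g t = ∫ t in α'..x, (0 : ℝ) := by
          apply intervalIntegral.integral_congr
          intro t ht
          rw [uIcc_of_ge (le_of_lt hlt)] at ht
          apply hgz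
          intro hcon
          linarith [ht.2, hcon.1]
        simp only [hη, this, intervalIntegral.integral_zero]
      · simp only [hη]
        rw [intervalIntegral.integral_eq_integral_of_support_subset (hsup x (le_of_lt hgt))]
        exact hgi
    have hηt : tsupport η ⊆ Ioo r1 R := by
      refine (closure_minimal hηz isClosed_Icc).trans ?_
      intro x hx
      exact ⟨lt_of_lt_of_le hα1 hx.1, lt_of_le_of_lt hx.2 h3⟩
    have hηc : HasCompactSupport η := HasCompactSupport.of_support_subset_isCompact isCompact_Icc hηz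
    have := hder η hη1 hηc hηt
    rwa [hd] at this
  have h5 := hlin h b hhc hbc hht hbt hhs hbs (-c)
  rw [hzero] at h5
  linarith

end Pool.Mart
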