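import Pool.Agent.Work.MP_680515_an.IfaceW

/-!
# MP_680515_an: block GDN (helper9)

Chain rule for `G X = gg X (g X)`.
-/

open MeasureTheory Set Filter Topology Complex

namespace Pool.Mart

namespace GDN_

theorem inner3 (v w : E3) : inner ℝ v w = v 0 * w 0 + v 1 * w 1 + v 2 * w 2 := by
  rw [PiLp.inner_apply, Fin.sum_univ_three]
  simp only [RCLike.inner_apply, conj_trivial]
  ring

theorem er0 (X : E3) : er X 0 = X 0 / rad X := by simp [er]
theorem er1 (X : E3) : er X 1 = X 1 / rad X := by simp [er]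
theorem er2 (X : E3) : er X 2 = 0 := by simp [er]
theorem et0 (X : E3) : et X 0 = -(X 1) / rad X := by simp [et]
theorem et1 (X : E3) : et X 1 = X 0 / rad X := by simp [et]
theorem et2 (X : E3) : et X 2 = 0 := by simp [et]
theorem e30 : e3 0 = 0 := by simp [e3]
theorem e31 : e3 1 = 0 := by simp [e3]
theorem e32 : e3 2 = 1 := by simp [e3]

theorem rad_sq (X : E3) : rad X ^ 2 = X 0 ^ 2 + X 1 ^ 2 :=
  Real.sq_sqrt (by positivity)

theorem hasFDerivAt_rad {Y : E3} (h : 0 < rad Y) :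
    HasFDerivAt rad (innerSL ℝ (er Y)) Y := by
  have h0 : HasFDerivAt (fun x : E3 => x 0) (EuclideanSpace.proj 0 : E3 →L[ℝ] ℝ) Y :=
    (EuclideanSpace.proj 0 : E3 →L[ℝ] ℝ).hasFDerivAt
  have h1 : HasFDerivAt (fun x : E3 => x 1) (EuclideanSpace.proj 1 : E3 →L[ℝ] ℝ) Y :=
    (EuclideanSpace.proj 1 : E3 →L[ℝ] ℝ).hasFDerivAt
  have h2 := (h0.pow 2).add (h1.pow 2)
  have hne : (Y 0) ^ 2 + (Y 1) ^ 2 ≠ 0 := by
    have h3 := rad_sq Y
    have h4 : 0 < rad Y ^ 2 := by positivity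
    rw [h3] at h4
    exact h4.ne'
  have h3 := h2.sqrt hne
  refine h3.congr_fderiv ?_
  ext v
  simp only [innerSL_apply_apply]
  rw [inner3, er0, er1, er2]
  simp
  have hr : Real.sqrt ((Y 0) ^ 2 + (Y 1) ^ 2) = rad Y := rfl
  rw [hr]
  field_simp

theorem contDiffAt_rad {Y : E3} (h : 0 < rad Y) : ContDiffAt ℝ 1 rad Y := by
  have h0 : ContDiffAt ℝ 1 (fun x : E3 => x 0) Y :=
    (EuclideanSpace.proj 0 : E3 →L[ℝ] ℝ).contDiff.contDiffAt
  have h1 : ContDiffAt ℝ 1 (fun x : E3 => x 1) Y :=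
    (EuclideanSpace.proj 1 : E3 →L[ℝ] ℝ).contDiff.contDiffAt
  have hne : (Y 0) ^ 2 + (Y 1) ^ 2 ≠ 0 := by
    have h3 := rad_sq Y
    have h4 : 0 < rad Y ^ 2 := by positivity
    rw [h3] at h4
    exact h4.ne'
  exact ((h0.pow 2).add (h1.pow 2)).sqrt hne

theorem act_jac (g : E3 → E3) (X w : E3) : act (jac g X) w = fderiv ℝ g X w := by
  have hw : w = ∑ j, w j • (EuclideanSpace.single j (1 : ℝ) : E3) := by
    ext i
    simp [Pi.single_apply]
  ext i
  conv_rhs => rw [hw, map_sum]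
  simp only [map_smul]
  simp only [act, jac, Matrix.mulVec, dotProduct, Matrix.of_apply]
  simp [Finset.sum_apply, mul_comm]

theorem decomp {X : E3} (h : 0 < rad X) (v : E3) :
    v = (inner ℝ (er X) v : ℝ) • er X + (v 2) • e3 + (inner ℝ (et X) v : ℝ) • et X := by
  have hs := rad_sq X
  have hne := h.ne'
  ext i
  fin_cases i
  · simp only [Fin.zero_eta, PiLp.add_apply, PiLp.smul_apply, smul_eq_mul, inner3, er0, er1, er2,
      et0, et1, et2, e30]
    field_simp
    rw [hs]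
    ring
  · simp only [Fin.mk_one, PiLp.add_apply, PiLp.smul_apply, smul_eq_mul, inner3, er0, er1, er2,
      et0, et1, et2, e31]
    field_simp
    rw [hs]
    ring
  · simp only [Fin.reduceFinMk, PiLp.add_apply, PiLp.smul_apply, smul_eq_mul, inner3, er0, er1, er2,
      et0, et1, et2, e32]
    ring

theorem inner_er_er {X : E3} (h : 0 < rad X) : inner ℝ (er X) (er X) = 1 := by
  have hs := rad_sq X
  have hne := h.ne'
  rw [inner3, er0, er1, er2]
  field_simp
  rw [hs]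
  ring

theorem inner_et_et {X : E3} (h : 0 < rad X) : inner ℝ (et X) (et X) = 1 := by
  have hs := rad_sq X
  have hne := h.ne'
  rw [inner3, et0, et1, et2]
  field_simp
  rw [hs]
  ring

theorem inner_et_er (X : E3) : inner ℝ (et X) (er X) = 0 := by
  rw [inner3, er0, er1, er2, et0, et1, et2]
  ring

theorem norm_er {X : E3} (h : 0 < rad X) : ‖er X‖ = 1 := by
  have h1 := inner_er_er h
  rw [real_inner_self_eq_norm_sq] at h1
  have h2 : 0 ≤ ‖er X‖ := norm_nonneg _
  nlinarith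

theorem norm_et {X : E3} (h : 0 < rad X) : ‖et X‖ = 1 := by
  have h1 := inner_et_et h
  rw [real_inner_self_eq_norm_sq] at h1
  have h2 : 0 ≤ ‖et X‖ := norm_nonneg _
  nlinarith

theorem inner_e3 (v : E3) : inner ℝ e3 v = v 2 := by
  rw [inner3, e30, e31, e32]
  ring

theorem norm_e3 : ‖e3‖ = 1 := by
  simp [e3]

theorem fderiv_G {g : E3 → E3} {X : E3} (hg : DifferentiableAt ℝ g X) (hX : 0 < rad X)
    (hgX : 0 < rad (g X)) (v : E3) :
    fderiv ℝ (fun X => gg X (g X)) X v =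
      ((inner ℝ (er X) v : ℝ) : ℂ) * gr (jac g X) X (g X) + ((v 2 : ℝ) : ℂ) * gz (jac g X) X (g X)
        + ((inner ℝ (et X) v : ℝ) : ℂ) * gt (jac g X) X (g X) := by
  have h1 : HasFDerivAt (fun x => rad (g x)) ((innerSL ℝ (er (g X))).comp (fderiv ℝ g X)) X :=
    (hasFDerivAt_rad hgX).comp X hg.hasFDerivAt
  have h2 := hasFDerivAt_rad hX
  have h3 : HasFDerivAt (fun x => (g x) 2)
      ((EuclideanSpace.proj 2 : E3 →L[ℝ] ℝ).comp (fderiv ℝ g X)) X :=
    (EuclideanSpace.proj 2 : E3 →L[ℝ] ℝ).hasFDerivAt.comp X hg.hasFDerivAt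
  have h4 : HasFDerivAt (fun x : E3 => x 2) (EuclideanSpace.proj 2 : E3 →L[ℝ] ℝ) X :=
    (EuclideanSpace.proj 2 : E3 →L[ℝ] ℝ).hasFDerivAt
  have h5 : HasFDerivAt (fun x => ((rad (g x) - rad x : ℝ) : ℂ))
      (Complex.ofRealCLM.comp (((innerSL ℝ (er (g X))).comp (fderiv ℝ g X))
        - innerSL ℝ (er X))) X :=
    Complex.ofRealCLM.hasFDerivAt.comp X (h1.sub h2)
  have h6 : HasFDerivAt (fun x => (((g x) 2 - x 2 : ℝ) : ℂ))
      (Complex.ofRealCLM.comp (((EuclideanSpace.proj 2 : E3 →L[ℝ] ℝ).comp (fderiv ℝ g X))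
        - (EuclideanSpace.proj 2 : E3 →L[ℝ] ℝ))) X :=
    Complex.ofRealCLM.hasFDerivAt.comp X (h3.sub h4)
  have h7 := h5.add (h6.mul_const I)
  have h8 : fderiv ℝ (fun X => gg X (g X)) X = _ := h7.fderiv
  rw [h8]
  have hA : fderiv ℝ g X v = (inner ℝ (er X) v : ℝ) • act (jac g X) (er X)
      + (v 2) • act (jac g X) e3 + (inner ℝ (et X) v : ℝ) • act (jac g X) (et X) := by
    rw [act_jac, act_jac, act_jac, ← map_smul, ← map_smul, ← map_smul, ← map_add, ← map_add,
      ← decomp hX v]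
  have hb : inner ℝ (er (g X)) (fderiv ℝ g X v)
      = inner ℝ (er X) v * inner ℝ (er (g X)) (act (jac g X) (er X))
        + v 2 * inner ℝ (er (g X)) (act (jac g X) e3)
        + inner ℝ (et X) v * inner ℝ (er (g X)) (act (jac g X) (et X)) := by
    rw [hA, inner_add_right, inner_add_right, inner_smul_right, inner_smul_right,
      inner_smul_right]
  have hc : (fderiv ℝ g X v) 2
      = inner ℝ (er X) v * inner ℝ e3 (act (jac g X) (er X))
        + v 2 * inner ℝ e3 (act (jac g X) e3)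
        + inner ℝ (et X) v * inner ℝ e3 (act (jac g X) (et X)) := by
    rw [← inner_e3, hA, inner_add_right, inner_add_right, inner_smul_right, inner_smul_right,
      inner_smul_right]
  have hp : ∀ w : E3, (EuclideanSpace.proj 2 : E3 →L[ℝ] ℝ) w = w 2 := fun w => rfl
  simp only [add_apply, ContinuousLinearMap.comp_apply, sub_apply, innerSL_apply_apply,
    Complex.ofRealCLM_apply, smul_apply, smul_eq_mul, hp]
  unfold gr gz gt
  rw [hb, hc]
  push_cast
  ring

theorem contDiffAt_G {g : E3 → E3} {X : E3} (hg : ContDiff ℝ (⊤ : ℕ∞) g) (hX : 0 < rad X)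
    (hgX : 0 < rad (g X)) : ContDiffAt ℝ 1 (fun X => gg X (g X)) X := by
  have hg1 : ContDiffAt ℝ 1 g X := (hg.of_le (by exact_mod_cast le_top)).contDiffAt
  have h1 : ContDiffAt ℝ 1 (fun x => rad (g x)) X := (contDiffAt_rad hgX).comp X hg1
  have h2 := contDiffAt_rad hX
  have h3 : ContDiffAt ℝ 1 (fun x => (g x) 2) X :=
    (EuclideanSpace.proj 2 : E3 →L[ℝ] ℝ).contDiff.contDiffAt.comp X hg1
  have h4 : ContDiffAt ℝ 1 (fun x : E3 => x 2) X :=
    (EuclideanSpace.proj 2 : E3 →L[ℝ] ℝ).contDiff.contDiffAt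
  have h5 : ContDiffAt ℝ 1 (fun x => ((rad (g x) - rad x : ℝ) : ℂ)) X :=
    Complex.ofRealCLM.contDiff.contDiffAt.comp X (h1.sub h2)
  have h6 : ContDiffAt ℝ 1 (fun x => (((g x) 2 - x 2 : ℝ) : ℂ)) X :=
    Complex.ofRealCLM.contDiff.contDiffAt.comp X (h3.sub h4)
  exact h5.add (h6.mul contDiffAt_const)

/-- the linear map `w ↦ cyl w θ` -/
noncomputable def cylL (θ : ℝ) : ℂ →L[ℝ] E3 :=
  LinearMap.toContinuousLinearMap
    { toFun := fun w => cyl w θ
      map_add' := by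
        intro a b
        ext i
        fin_cases i <;> simp [cyl] <;> ring
      map_smul' := by
        intro c a
        ext i
        fin_cases i <;> simp [cyl] <;> ring }

theorem cylL_apply (θ : ℝ) (w : ℂ) : cylL θ w = cyl w θ := rfl

theorem rad_cyl {ζ : ℂ} (h : 0 < ζ.re) (θ : ℝ) : rad (cyl ζ θ) = ζ.re := by
  unfold rad cyl
  have h1 : (ζ.re * Real.cos θ) ^ 2 + (ζ.re * Real.sin θ) ^ 2 = ζ.re ^ 2 := by
    have h2 := Real.sin_sq_add_cos_sq θ
    nlinarith [h2]
  simp only [Matrix.cons_val_zero, Matrix.cons_val_one]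
  rw [h1]
  exact Real.sqrt_sq h.le

theorem er_cyl {ζ : ℂ} (h : 0 < ζ.re) (θ : ℝ) : er (cyl ζ θ) = cyl 1 θ := by
  have hr := rad_cyl h θ
  have hne := h.ne'
  ext i
  fin_cases i
  · show er (cyl ζ θ) 0 = cyl 1 θ 0
    rw [er0, hr]
    simp [cyl]
    field_simp
  · show er (cyl ζ θ) 1 = cyl 1 θ 1
    rw [er1, hr]
    simp [cyl]
    field_simp
  · show er (cyl ζ θ) 2 = cyl 1 θ 2
    rw [er2]
    simp [cyl]

theorem e3_cyl (θ : ℝ) : e3 = cyl I θ := by
  ext i
  fin_cases i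
  · show e3 0 = cyl I θ 0
    rw [e30]
    simp [cyl]
  · show e3 1 = cyl I θ 1
    rw [e31]
    simp [cyl]
  · show e3 2 = cyl I θ 2
    rw [e32]
    simp [cyl]

end GDN_

open GDN_ in
theorem stmt_GDN (hBAS : Stmt_BAS) : Stmt_GDN := by
  refine ⟨?_, ?_⟩
  · intro g X hg hX hgX
    have hd : DifferentiableAt ℝ g X := (hg.differentiable (by simp)).differentiableAt
    refine ⟨contDiffAt_G hg hX hgX, fun v => fderiv_G hd hX hgX v, ?_⟩
    intro v
    rw [fderiv_G hd hX hgX v]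
    have h1 : |(inner ℝ (er X) v : ℝ)| ≤ ‖v‖ := by
      have h := abs_real_inner_le_norm (er X) v
      rw [norm_er hX, one_mul] at h
      exact h
    have h2 : |(inner ℝ (et X) v : ℝ)| ≤ ‖v‖ := by
      have h := abs_real_inner_le_norm (et X) v
      rw [norm_et hX, one_mul] at h
      exact h
    have h3 : |v 2| ≤ ‖v‖ := by
      have h := abs_real_inner_le_norm e3 v
      rw [norm_e3, one_mul, inner_e3] at h
      exact h
    have h4 : ‖((inner ℝ (er X) v : ℝ) : ℂ) * gr (jac g X) X (g X)‖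
        ≤ ‖v‖ * ‖gr (jac g X) X (g X)‖ := by
      rw [norm_mul, Complex.norm_real, Real.norm_eq_abs]
      exact mul_le_mul_of_nonneg_right h1 (norm_nonneg _)
    have h5 : ‖((v 2 : ℝ) : ℂ) * gz (jac g X) X (g X)‖ ≤ ‖v‖ * ‖gz (jac g X) X (g X)‖ := by
      rw [norm_mul, Complex.norm_real, Real.norm_eq_abs]
      exact mul_le_mul_of_nonneg_right h3 (norm_nonneg _)
    have h6 : ‖((inner ℝ (et X) v : ℝ) : ℂ) * gt (jac g X) X (g X)‖
        ≤ ‖v‖ * ‖gt (jac g X) X (g X)‖ := by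
      rw [norm_mul, Complex.norm_real, Real.norm_eq_abs]
      exact mul_le_mul_of_nonneg_right h2 (norm_nonneg _)
    have h7 := norm_add₃_le (a := ((inner ℝ (er X) v : ℝ) : ℂ) * gr (jac g X) X (g X))
      (b := ((v 2 : ℝ) : ℂ) * gz (jac g X) X (g X))
      (c := ((inner ℝ (et X) v : ℝ) : ℂ) * gt (jac g X) X (g X))
    unfold grd
    nlinarith [h4, h5, h6, h7]
  · intro g ζ θ hg hζ hgX
    have hX : 0 < rad (cyl ζ θ) := by
      rw [rad_cyl hζ θ]
      exact hζ
    have hd : DifferentiableAt ℝ g (cyl ζ θ) := (hg.differentiable (by simp)).differentiableAt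
    have hG := contDiffAt_G hg hX hgX
    have hcomp : (fun w => gg (cyl w θ) (g (cyl w θ)))
        = (fun X => gg X (g X)) ∘ (cylL θ) := by
      funext w
      rfl
    refine ⟨?_, ?_⟩
    · rw [hcomp]
      exact ContDiffAt.comp ζ (g := fun X => gg X (g X)) (f := cylL θ) hG
        (cylL θ).contDiff.contDiffAt
    · have hGd : DifferentiableAt ℝ (fun X => gg X (g X)) (cylL θ ζ) :=
        hG.differentiableAt (by simp)
      have h1 : fderiv ℝ (fun w => gg (cyl w θ) (g (cyl w θ))) ζ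
          = (fderiv ℝ (fun X => gg X (g X)) (cyl ζ θ)).comp (cylL θ) := by
        rw [hcomp, fderiv_comp ζ hGd (cylL θ).differentiableAt, (cylL θ).fderiv]
        rfl
      unfold dbar
      rw [h1]
      simp only [ContinuousLinearMap.comp_apply, cylL_apply]
      rw [← er_cyl hζ θ, ← e3_cyl θ, fderiv_G hd hX hgX, fderiv_G hd hX hgX, inner_er_er hX,
        inner_et_er, er2, e32]
      have h5 : inner ℝ (er (cyl ζ θ)) e3 = 0 := by
        rw [inner3, er2, e30, e31]
        ring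
      have h6 : inner ℝ (et (cyl ζ θ)) e3 = 0 := by
        rw [inner3, et2, e30, e31]
        ring
      rw [h5, h6]
      push_cast
      ring

end Pool.Mart
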