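import Pool.Agent.Work.MP_680515_an.IfaceM

/-!
# MP_680515_an: block GEO1
-/

open MeasureTheory Set Filter Topology Complex

namespace Pool.Mart

theorem GEO1_act_add (M : M3) (a b : E3) : act M (a + b) = act M a + act M b := by
  simp [act, Matrix.mulVec_add]

theorem GEO1_act_smul (M : M3) (c : ℝ) (a : E3) : act M (c • a) = c • act M a := by
  simp [act, Matrix.mulVec_smul]

theorem GEO1_act_act (M N : M3) (v : E3) : act M (act N v) = act (M * N) v := by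
  simp [act, Matrix.mulVec_mulVec]

theorem GEO1_act_one (v : E3) : act 1 v = v := by
  simp [act]

theorem GEO1_act_inv (S : M3) (hS : S ∈ Matrix.specialOrthogonalGroup (Fin 3) ℝ) (v : E3) :
    act S (act S.transpose v) = v := by
  have h1 : S * S.transpose = 1 := by
    have := (Matrix.mem_orthogonalGroup_iff (A := S)).1 ((Matrix.mem_specialOrthogonalGroup_iff).1 hS).1
    simpa [Matrix.star_eq_conjTranspose] using this
  rw [GEO1_act_act, h1, GEO1_act_one]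

theorem GEO1_rad_eq (x : E3) : rad x = ‖((x 0 : ℝ) : ℂ) + ((x 1 : ℝ) : ℂ) * I‖ := by
  rw [Complex.norm_add_mul_I]
  rfl

theorem GEO1_rad_add (x y : E3) : rad (x + y) ≤ rad x + rad y := by
  rw [GEO1_rad_eq, GEO1_rad_eq, GEO1_rad_eq]
  have h : (((x + y) 0 : ℝ) : ℂ) + (((x + y) 1 : ℝ) : ℂ) * I
      = (((x 0 : ℝ) : ℂ) + ((x 1 : ℝ) : ℂ) * I) + (((y 0 : ℝ) : ℂ) + ((y 1 : ℝ) : ℂ) * I) := by
    simp only [PiLp.add_apply]
    push_cast
    ring
  rw [h]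
  exact norm_add_le _ _

theorem GEO1_rad_smul (c : ℝ) (x : E3) : rad (c • x) = |c| * rad x := by
  unfold rad
  have h : (c • x) 0 ^ 2 + (c • x) 1 ^ 2 = c ^ 2 * (x 0 ^ 2 + x 1 ^ 2) := by
    simp only [PiLp.smul_apply, smul_eq_mul]
    ring
  rw [h, Real.sqrt_mul (sq_nonneg c), Real.sqrt_sq_eq_abs]

theorem GEO1_rad_sub (x y : E3) : rad (x - y) ≤ rad x + rad y := by
  have h : x - y = x + (-1 : ℝ) • y := by simp [sub_eq_add_neg]
  rw [h]
  refine (GEO1_rad_add _ _).trans ?_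
  rw [GEO1_rad_smul]
  simp

theorem GEO1_rad_nonneg (x : E3) : 0 ≤ rad x := Real.sqrt_nonneg _

theorem GEO1_rad_le (x : E3) : rad x ≤ ‖x‖ := by
  unfold rad
  rw [EuclideanSpace.norm_eq]
  refine Real.sqrt_le_sqrt ?_
  simp only [Fin.sum_univ_three, Real.norm_eq_abs, sq_abs]
  nlinarith [sq_nonneg (x 2)]

theorem GEO1_apply_le (x : E3) (i : Fin 3) : |x i| ≤ ‖x‖ := by
  rw [← Real.norm_eq_abs]
  exact PiLp.norm_apply_le x i

/-- Position of a point of the subsystem: radius and height. -/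
theorem GEO1_pos (hRENC : Stmt_RENC) (y0 y1 Y : E3) (S : M3)
    (hS : S ∈ Matrix.specialOrthogonalGroup (Fin 3) ℝ) (l : ℝ) (hl : 0 ≤ l)
    (h : y1 - y0 = l • act S e3) :
    rad (y0 + l • act S Y) ≤ rad y0 + ‖Y‖ * (rad y0 + rad y1) + l * rad Y ∧
    |(y0 + l • act S Y) 2 - (y0 2 + (y1 2 - y0 2) * Y 2)| ≤ ‖Y‖ * (rad y0 + rad y1) := by
  obtain ⟨-, -, -, h4, h5⟩ := hRENC S Y hS
  have hr : l * rad (act S e3) ≤ rad y0 + rad y1 := by
    have e : rad (y1 - y0) = l * rad (act S e3) := by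
      rw [h, GEO1_rad_smul, abs_of_nonneg hl]
    rw [← e]
    linarith [GEO1_rad_sub y1 y0]
  have hr0 : 0 ≤ rad y0 + rad y1 := add_nonneg (GEO1_rad_nonneg _) (GEO1_rad_nonneg _)
  have hl2 : l * act S e3 2 = y1 2 - y0 2 := by
    have := congrArg (fun v : E3 => v 2) h
    simp only [PiLp.sub_apply, PiLp.smul_apply, smul_eq_mul] at this
    exact this.symm
  constructor
  · calc rad (y0 + l • act S Y) ≤ rad y0 + rad (l • act S Y) := GEO1_rad_add _ _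
      _ = rad y0 + l * rad (act S Y) := by rw [GEO1_rad_smul, abs_of_nonneg hl]
      _ ≤ rad y0 + l * (|Y 2| * rad (act S e3) + rad Y) := by gcongr
      _ = rad y0 + |Y 2| * (l * rad (act S e3)) + l * rad Y := by ring
      _ ≤ rad y0 + ‖Y‖ * (rad y0 + rad y1) + l * rad Y := by
          have := mul_le_mul (GEO1_apply_le Y 2) hr
            (mul_nonneg hl (GEO1_rad_nonneg _)) (norm_nonneg _)
          linarith
  · have e : (y0 + l • act S Y) 2 - (y0 2 + (y1 2 - y0 2) * Y 2)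
        = l * (act S Y 2 - act S e3 2 * Y 2) := by
      simp only [PiLp.add_apply, PiLp.smul_apply, smul_eq_mul]
      rw [← hl2]
      ring
    rw [e, abs_mul, abs_of_nonneg hl]
    calc l * |act S Y 2 - act S e3 2 * Y 2| ≤ l * (rad (act S e3) * rad Y) := by gcongr
      _ = (l * rad (act S e3)) * rad Y := by ring
      _ ≤ (rad y0 + rad y1) * ‖Y‖ :=
          mul_le_mul hr (GEO1_rad_le Y) (GEO1_rad_nonneg _) hr0
      _ = ‖Y‖ * (rad y0 + rad y1) := by ring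

theorem stmt_GEO1 (hRENC : Stmt_RENC) : Stmt_GEO1 := by
  intro F x0 x1 Y S S' hS hS' hb hb' hpos hle
  set l : ℝ := ‖x1 - x0‖ with hl
  set l' : ℝ := ‖F x1 - F x0‖ with hl'
  set X : E3 := x0 + l • act S Y with hX
  set Y' : E3 := ren F x0 x1 S S' Y with hY'
  have hl0 : 0 ≤ l := norm_nonneg _
  have hW : F X = F x0 + l' • act S' Y' := by
    have e : Y' = l'⁻¹ • act S'.transpose (F X - F x0) := rfl
    rw [e, GEO1_act_smul, GEO1_act_inv S' hS', smul_smul, mul_inv_cancel₀ hpos.ne', one_smul]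
    abel
  obtain ⟨a1, a2⟩ := GEO1_pos hRENC x0 x1 Y S hS l hl0 hb
  obtain ⟨b1, b2⟩ := GEO1_pos hRENC (F x0) (F x1) Y' S' hS' l' hpos.le hb'
  rw [← hX] at a1 a2
  rw [← hW] at b1 b2
  have r0 := GEO1_rad_nonneg x0
  have r1 := GEO1_rad_nonneg x1
  have s0 := GEO1_rad_nonneg (F x0)
  have s1 := GEO1_rad_nonneg (F x1)
  have rY := GEO1_rad_nonneg Y
  have rY' := GEO1_rad_nonneg Y'
  have nY := norm_nonneg Y
  have nY' := norm_nonneg Y'
  have k1 : |(x1 - x0) 2| ≤ l := GEO1_apply_le _ 2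
  have k2 : |Y' 2| ≤ ‖Y'‖ := GEO1_apply_le _ 2
  have d0 := abs_nonneg (F x0 2 - x0 2)
  have d1 := abs_nonneg (F x1 2 - x1 2)
  -- height difference
  have hz : |F X 2 - X 2| ≤ |F x0 2 - x0 2|
      + ‖Y'‖ * (|F x1 2 - x1 2| + |F x0 2 - x0 2|) + l * |Y' 2 - Y 2|
      + ‖Y'‖ * (rad (F x0) + rad (F x1)) + ‖Y‖ * (rad x0 + rad x1) := by
    have e : F X 2 - X 2 = (F x0 2 - x0 2)
        + ((F x1 2 - x1 2) - (F x0 2 - x0 2)) * Y' 2 + (x1 - x0) 2 * (Y' 2 - Y 2)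
        + (F X 2 - (F x0 2 + (F x1 2 - F x0 2) * Y' 2))
        - (X 2 - (x0 2 + (x1 2 - x0 2) * Y 2)) := by
      simp only [PiLp.sub_apply]
      ring
    have m1 : |((F x1 2 - x1 2) - (F x0 2 - x0 2)) * Y' 2|
        ≤ ‖Y'‖ * (|F x1 2 - x1 2| + |F x0 2 - x0 2|) := by
      rw [abs_mul, mul_comm]
      exact mul_le_mul k2 (abs_sub _ _) (abs_nonneg _) nY'
    have m2 : |(x1 - x0) 2 * (Y' 2 - Y 2)| ≤ l * |Y' 2 - Y 2| := by
      rw [abs_mul]
      exact mul_le_mul_of_nonneg_right k1 (abs_nonneg _)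
    rw [e]
    have t1 := abs_sub ((F x0 2 - x0 2)
        + ((F x1 2 - x1 2) - (F x0 2 - x0 2)) * Y' 2 + (x1 - x0) 2 * (Y' 2 - Y 2)
        + (F X 2 - (F x0 2 + (F x1 2 - F x0 2) * Y' 2))) (X 2 - (x0 2 + (x1 2 - x0 2) * Y 2))
    have t2 := abs_add_le ((F x0 2 - x0 2)
        + ((F x1 2 - x1 2) - (F x0 2 - x0 2)) * Y' 2 + (x1 - x0) 2 * (Y' 2 - Y 2))
        (F X 2 - (F x0 2 + (F x1 2 - F x0 2) * Y' 2))
    have t3 := abs_add_le ((F x0 2 - x0 2)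
        + ((F x1 2 - x1 2) - (F x0 2 - x0 2)) * Y' 2) ((x1 - x0) 2 * (Y' 2 - Y 2))
    have t4 := abs_add_le (F x0 2 - x0 2) (((F x1 2 - x1 2) - (F x0 2 - x0 2)) * Y' 2)
    linarith
  have hlr : l' * rad Y' ≤ 2 * l * rad Y' := mul_le_mul_of_nonneg_right hle rY'
  have lr : 0 ≤ l * rad Y := mul_nonneg hl0 rY
  have lr' : 0 ≤ l * rad Y' := mul_nonneg hl0 rY'
  have lz : 0 ≤ l * |Y' 2 - Y 2| := mul_nonneg hl0 (abs_nonneg _)
  set D : ℝ := dev x0 (F x0) + dev x1 (F x1) with hD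
  have eD : D = rad x0 + rad (F x0) + |F x0 2 - x0 2| + (rad x1 + rad (F x1) + |F x1 2 - x1 2|) := rfl
  have p1 : ‖Y‖ * (rad x0 + rad x1) ≤ ‖Y‖ * D := by
    refine mul_le_mul_of_nonneg_left ?_ nY
    rw [eD]
    linarith
  have p2 : ‖Y'‖ * (rad (F x0) + rad (F x1)) ≤ ‖Y'‖ * D := by
    refine mul_le_mul_of_nonneg_left ?_ nY'
    rw [eD]
    linarith
  have p3 : ‖Y'‖ * (|F x1 2 - x1 2| + |F x0 2 - x0 2|) ≤ ‖Y'‖ * D := by
    refine mul_le_mul_of_nonneg_left ?_ nY'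
    rw [eD]
    linarith
  have D0 : 0 ≤ D := by rw [eD]; linarith
  have q1 : 0 ≤ ‖Y‖ * D := mul_nonneg nY D0
  have q2 : 0 ≤ ‖Y'‖ * D := mul_nonneg nY' D0
  have g1 : dev X (F X) = rad X + rad (F X) + |F X 2 - X 2| := rfl
  have g2 : dev Y Y' = rad Y + rad Y' + |Y' 2 - Y 2| := rfl
  have g3 : 10 * (1 + ‖Y‖ + ‖Y'‖) * D + 10 * l * dev Y Y'
      = 10 * D + 10 * (‖Y‖ * D) + 10 * (‖Y'‖ * D) + 10 * (l * rad Y) + 10 * (l * rad Y')
        + 10 * (l * |Y' 2 - Y 2|) := by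
    rw [g2]
    ring
  rw [g1, g3]
  linarith

end Pool.Mart
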