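import Pool.Agent.Work.MP_680515_an.IfaceA
import Pool.Agent.Work.MP_680515_an.IfaceM

open MeasureTheory Set Filter Topology Complex

namespace Pool.Mart

namespace GEO2_

theorem rad_smul (c : ℝ) (z : E3) : rad (c • z) = |c| * rad z := by
  unfold rad
  have : (c • z) 0 ^ 2 + (c • z) 1 ^ 2 = c ^ 2 * (z 0 ^ 2 + z 1 ^ 2) := by
    simp only [PiLp.smul_apply, smul_eq_mul]; ring
  rw [this, Real.sqrt_mul (sq_nonneg c), Real.sqrt_sq_eq_abs]

theorem rad_sq (z : E3) : rad z ^ 2 = z 0 ^ 2 + z 1 ^ 2 := by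
  unfold rad
  rw [Real.sq_sqrt (by positivity)]

theorem rad_nonneg (z : E3) : 0 ≤ rad z := Real.sqrt_nonneg _

theorem norm_sq3 (z : E3) : ‖z‖ ^ 2 = z 0 ^ 2 + z 1 ^ 2 + z 2 ^ 2 := by
  rw [EuclideanSpace.norm_sq_eq]
  simp [Fin.sum_univ_three]

theorem rad_le (z : E3) : rad z ≤ ‖z‖ := by
  apply le_of_sq_le_sq _ (norm_nonneg _)
  rw [rad_sq, norm_sq3]
  nlinarith [sq_nonneg (z 2)]

theorem abs2_le (z : E3) : |z 2| ≤ ‖z‖ := by
  apply abs_le_of_sq_le_sq' _ (norm_nonneg _) |> abs_le.mpr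
  rw [norm_sq3]
  nlinarith [sq_nonneg (z 0), sq_nonneg (z 1)]

theorem rad_sub_e3 (z : E3) (s : ℝ) : rad z ≤ ‖z - s • e3‖ := by
  have h := rad_le (z - s • e3)
  have : rad (z - s • e3) = rad z := by
    unfold rad e3
    simp
  rwa [this] at h

theorem two_sub_e3 (z : E3) (s : ℝ) : |z 2 - s| ≤ ‖z - s • e3‖ := by
  have h := abs2_le (z - s • e3)
  have : (z - s • e3) 2 = z 2 - s := by
    unfold e3
    simp
  rwa [this] at h

theorem norm_e3 : ‖e3‖ = 1 := by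
  unfold e3
  simp

/-- coordinates in a frame -/
theorem coords (hRENC : Stmt_RENC) (S : M3) (hS : S ∈ Matrix.specialOrthogonalGroup (Fin 3) ℝ)
    (hn : ‖act S e3‖ = 1) (w v : E3) (L : ℝ) (hL : 0 < L) (hw : w = L • act S e3) :
    L ^ 2 = ‖w‖ ^ 2 ∧
    rad (L⁻¹ • act S.transpose v) ^ 2 = (‖v‖ ^ 2 * ‖w‖ ^ 2 - (inner ℝ v w) ^ 2) / (‖w‖ ^ 2) ^ 2 ∧
    (L⁻¹ • act S.transpose v) 2 = inner ℝ v w / ‖w‖ ^ 2 := by
  obtain ⟨h1, h2, -⟩ := hRENC S v hS
  have hLw : ‖w‖ = L := by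
    rw [hw, norm_smul, hn, mul_one, Real.norm_eq_abs, abs_of_pos hL]
  have hin : inner ℝ v w = L * inner ℝ v (act S e3) := by
    rw [hw, inner_smul_right]
  have hL0 : L ≠ 0 := hL.ne'
  refine ⟨by rw [hLw], ?_, ?_⟩
  · rw [rad_smul, h1, mul_pow, sq_abs]
    have h3 : ‖v - (inner ℝ v (act S e3)) • act S e3‖ ^ 2
        = ‖v‖ ^ 2 - (inner ℝ v (act S e3)) ^ 2 := by
      rw [@norm_sub_sq_real, inner_smul_right, norm_smul, hn, mul_one, Real.norm_eq_abs, sq_abs]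
      ring
    rw [h3, hin, hLw]
    field_simp
  · rw [hLw, hin]
    simp only [PiLp.smul_apply, smul_eq_mul]
    rw [h2]
    field_simp

/-- three points: algebra in one space -/
theorem tri (a b p X0 X1 X2 : E3) (hab : 0 < ‖b - a‖ ^ 2)
    (h0 : rad X0 ^ 2 = (‖p - a‖ ^ 2 * ‖b - a‖ ^ 2 - (inner ℝ (p - a) (b - a)) ^ 2) / (‖b - a‖ ^ 2) ^ 2)
    (h0' : X0 2 = inner ℝ (p - a) (b - a) / ‖b - a‖ ^ 2)
    (h1 : rad X1 ^ 2 = (‖b - a‖ ^ 2 * ‖p - a‖ ^ 2 - (inner ℝ (b - a) (p - a)) ^ 2) / (‖p - a‖ ^ 2) ^ 2)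
    (h1' : X1 2 = inner ℝ (b - a) (p - a) / ‖p - a‖ ^ 2)
    (h2 : rad X2 ^ 2 = (‖a - p‖ ^ 2 * ‖b - p‖ ^ 2 - (inner ℝ (a - p) (b - p)) ^ 2) / (‖b - p‖ ^ 2) ^ 2)
    (h2' : X2 2 = inner ℝ (a - p) (b - p) / ‖b - p‖ ^ 2)
    (hh : |X0 2 - 1 / 2| ≤ 1 / 100) :
    rad X1 = rad X0 / (X0 2 ^ 2 + rad X0 ^ 2) ∧
    rad X2 = rad X0 / ((1 - X0 2) ^ 2 + rad X0 ^ 2) ∧
    X1 2 = X0 2 / (X0 2 ^ 2 + rad X0 ^ 2) ∧
    X2 2 = 1 - (1 - X0 2) / ((1 - X0 2) ^ 2 + rad X0 ^ 2) := by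
  set al : ℝ := ‖p - a‖ ^ 2 with hal
  set be : ℝ := ‖b - a‖ ^ 2 with hbe
  set c : ℝ := inner ℝ (p - a) (b - a) with hc
  have e1 : inner ℝ (b - a) (p - a) = c := real_inner_comm _ _
  have e2 : ‖a - p‖ ^ 2 = al := by rw [hal, norm_sub_rev]
  have ebp : b - p = (b - a) - (p - a) := by abel
  have e3' : ‖b - p‖ ^ 2 = be + al - 2 * c := by
    rw [ebp, @norm_sub_sq_real, e1]; ring
  have e4 : inner ℝ (a - p) (b - p) = al - c := by
    have : a - p = -(p - a) := by abel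
    rw [ebp, this, inner_neg_left, inner_sub_right, real_inner_self_eq_norm_sq]
    ring
  rw [e1] at h1 h1'
  rw [e2, e3', e4] at h2
  rw [e3', e4] at h2'
  obtain ⟨hh1, hh2⟩ := abs_le.mp hh
  set h : ℝ := X0 2 with hh0
  set d : ℝ := rad X0 with hd
  have hd0 : 0 ≤ d := rad_nonneg _
  have hbe0 : be ≠ 0 := hab.ne'
  have hN : al / be = h ^ 2 + d ^ 2 := by
    rw [h0, h0']; field_simp; ring
  have hNp : 0 < h ^ 2 + d ^ 2 := by nlinarith
  have hMp : 0 < (1 - h) ^ 2 + d ^ 2 := by nlinarith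
  have halv : al = be * (h ^ 2 + d ^ 2) := by rw [← hN]; field_simp
  have hcv : c = be * h := by rw [h0']; field_simp
  have halp : 0 < al := by rw [halv]; positivity
  refine ⟨?_, ?_, ?_, ?_⟩
  · have : rad X1 ^ 2 = (d / (h ^ 2 + d ^ 2)) ^ 2 := by
      rw [h1, halv, hcv]; field_simp; ring
    exact (pow_left_inj₀ (rad_nonneg _) (by positivity) two_ne_zero).mp this
  · have hM' : be + al - 2 * c = be * ((1 - h) ^ 2 + d ^ 2) := by rw [halv, hcv]; ring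
    have : rad X2 ^ 2 = (d / ((1 - h) ^ 2 + d ^ 2)) ^ 2 := by
      rw [h2, hM', halv, hcv]; field_simp; ring
    exact (pow_left_inj₀ (rad_nonneg _) (by positivity) two_ne_zero).mp this
  · rw [h1', halv, hcv]; field_simp
  · have hM' : be + al - 2 * c = be * ((1 - h) ^ 2 + d ^ 2) := by rw [halv, hcv]; ring
    rw [h2', hM', halv, hcv]; field_simp; ring

theorem frac (h h' d d' : ℝ) (h1 : |h - 1 / 2| ≤ 1 / 100) (h2 : |h' - 1 / 2| ≤ 1 / 100)
    (hd : 0 ≤ d) (hd1 : d ≤ 1 / 100) (hd' : 0 ≤ d') (hd1' : d' ≤ 1 / 100) :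
    d / (h ^ 2 + d ^ 2) + d' / (h' ^ 2 + d' ^ 2)
      + |h' / (h' ^ 2 + d' ^ 2) - h / (h ^ 2 + d ^ 2)| ≤ 50 * (d + d' + |h' - h|) := by
  obtain ⟨a1, a2⟩ := abs_le.mp h1
  obtain ⟨b1, b2⟩ := abs_le.mp h2
  have hN : (6 / 25 : ℝ) ≤ h ^ 2 + d ^ 2 := by nlinarith
  have hN' : (6 / 25 : ℝ) ≤ h' ^ 2 + d' ^ 2 := by nlinarith
  have c1 : d / (h ^ 2 + d ^ 2) ≤ 5 * d := by
    rw [div_le_iff₀ (by linarith)]; nlinarith
  have c2 : d' / (h' ^ 2 + d' ^ 2) ≤ 5 * d' := by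
    rw [div_le_iff₀ (by linarith)]; nlinarith
  have c3 : |h' / (h' ^ 2 + d' ^ 2) - h / (h ^ 2 + d ^ 2)| ≤ 20 * (d + d' + |h' - h|) := by
    have hN0 : 0 < h ^ 2 + d ^ 2 := by linarith
    have hN0' : 0 < h' ^ 2 + d' ^ 2 := by linarith
    rw [div_sub_div _ _ hN0'.ne' hN0.ne', abs_div, abs_of_pos (by positivity : 0 <
      (h' ^ 2 + d' ^ 2) * (h ^ 2 + d ^ 2)), div_le_iff₀ (by positivity)]
    have hnum : |h' * (h ^ 2 + d ^ 2) - (h' ^ 2 + d' ^ 2) * h| ≤ |h' - h| + d + d' := by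
      have e : h' * (h ^ 2 + d ^ 2) - (h' ^ 2 + d' ^ 2) * h
          = -(h * h') * (h' - h) + h' * d ^ 2 - h * d' ^ 2 := by ring
      have hhh : |(-(h * h')) * (h' - h)| ≤ |h' - h| := by
        rw [abs_mul]
        have : |(-(h * h'))| ≤ 1 := by
          rw [abs_neg, abs_of_nonneg (by nlinarith)]; nlinarith
        nlinarith [abs_nonneg (h' - h)]
      rw [e]
      have t1 : |h' * d ^ 2| ≤ d := by
        rw [abs_of_nonneg (by nlinarith [sq_nonneg d])]; nlinarith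
      have t2 : |h * d' ^ 2| ≤ d' := by
        rw [abs_of_nonneg (by nlinarith [sq_nonneg d'])]; nlinarith
      calc |(-(h * h')) * (h' - h) + h' * d ^ 2 - h * d' ^ 2|
          ≤ |(-(h * h')) * (h' - h) + h' * d ^ 2| + |h * d' ^ 2| := abs_sub _ _
        _ ≤ |(-(h * h')) * (h' - h)| + |h' * d ^ 2| + |h * d' ^ 2| := by
            linarith [abs_add_le ((-(h * h')) * (h' - h)) (h' * d ^ 2)]
        _ ≤ |h' - h| + d + d' := by linarith
    have hprod : (1 / 20 : ℝ) ≤ (h' ^ 2 + d' ^ 2) * (h ^ 2 + d ^ 2) := by nlinarith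
    have hx : 0 ≤ d + d' + |h' - h| := by positivity
    calc |h' * (h ^ 2 + d ^ 2) - (h' ^ 2 + d' ^ 2) * h| ≤ d + d' + |h' - h| := by linarith
      _ ≤ 20 * (d + d' + |h' - h|) * ((h' ^ 2 + d' ^ 2) * (h ^ 2 + d ^ 2)) := by nlinarith
  have hx : 0 ≤ |h' - h| := abs_nonneg _
  linarith

end GEO2_

open GEO2_

theorem stmt_GEO2 (hRENC : Stmt_RENC) (hCHV : Stmt_CHV) (hWIN1 : Stmt_WIN1) : Stmt_GEO2 := by
  refine ⟨50, by norm_num, ?_⟩
  intro ε Ω f γ O O' hε0 hε hP t ht n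
  obtain ⟨-, -, -, hwl, -, -, -, -, hws⟩ := hWIN1
  have hsc : ∀ k : ℕ, 0 < sc k := fun k => by unfold sc; positivity
  have hsc1 : ∀ k : ℕ, sc k ≤ 1 := fun k => by
    unfold sc; exact pow_le_one₀ (by norm_num) (by norm_num)
  have hscs : ∀ k : ℕ, sc (k + 1) = (1 / 2) * sc k := fun k => by
    unfold sc; rw [pow_succ]; ring
  -- isometry facts
  have hact : ∀ S : M3, S ∈ Matrix.specialOrthogonalGroup (Fin 3) ℝ → ∀ v, ‖act S v‖ = ‖v‖ := by
    intro S hS v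
    exact (hCHV (fun _ => 0) 0 1 S one_pos hS).2.1 v
  have hactT : ∀ S : M3, S ∈ Matrix.specialOrthogonalGroup (Fin 3) ℝ → ∀ v,
      act S (act S.transpose v) = v := by
    intro S hS v
    exact (hCHV (fun _ => 0) 0 1 S one_pos hS).2.2.1 v
  have hsm : ∀ (S : M3) (c : ℝ) (v : E3), act S (c • v) = c • act S v := by
    intro S c v
    unfold act
    ext i
    simp [Matrix.mulVec_smul]
  -- the value of the normalised map at a curve point
  have hFX : ∀ t ∈ Icc (-20 : ℝ) 20, ∀ n : ℕ, ∀ s : ℝ,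
      nF f γ O O' t n (nX γ O t n (γ s))
        = (len (f ∘ γ) t n)⁻¹ • act (O' t n).transpose (f (γ s) - f (γ t)) := by
    intro t ht n s
    unfold nF nX
    rw [hsm, hactT _ (hP.so t ht n), smul_smul, mul_inv_cancel₀ (hP.pos t ht n).ne', one_smul,
      add_sub_cancel]
  -- coordinates
  have hcs : ∀ t ∈ Icc (-20 : ℝ) 20, ∀ n : ℕ, ∀ s : ℝ,
      0 < ‖γ (t + sc n) - γ t‖ ^ 2 ∧
      rad (nX γ O t n (γ s)) ^ 2 = (‖γ s - γ t‖ ^ 2 * ‖γ (t + sc n) - γ t‖ ^ 2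
        - (inner ℝ (γ s - γ t) (γ (t + sc n) - γ t)) ^ 2) / (‖γ (t + sc n) - γ t‖ ^ 2) ^ 2 ∧
      nX γ O t n (γ s) 2
        = inner ℝ (γ s - γ t) (γ (t + sc n) - γ t) / ‖γ (t + sc n) - γ t‖ ^ 2 := by
    intro t ht n s
    have hp := hP.pos t ht n
    have := coords hRENC (O t n) (hP.so t ht n) (by rw [hact _ (hP.so t ht n), norm_e3])
      (γ (t + sc n) - γ t) (γ s - γ t) (len γ t n) hp (hP.base t ht n)
    refine ⟨?_, this.2.1, this.2.2⟩
    rw [← this.1]; positivity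
  have hct : ∀ t ∈ Icc (-20 : ℝ) 20, ∀ n : ℕ, ∀ s : ℝ,
      0 < ‖f (γ (t + sc n)) - f (γ t)‖ ^ 2 ∧
      rad (nF f γ O O' t n (nX γ O t n (γ s))) ^ 2
        = (‖f (γ s) - f (γ t)‖ ^ 2 * ‖f (γ (t + sc n)) - f (γ t)‖ ^ 2
        - (inner ℝ (f (γ s) - f (γ t)) (f (γ (t + sc n)) - f (γ t))) ^ 2)
          / (‖f (γ (t + sc n)) - f (γ t)‖ ^ 2) ^ 2 ∧
      nF f γ O O' t n (nX γ O t n (γ s)) 2
        = inner ℝ (f (γ s) - f (γ t)) (f (γ (t + sc n)) - f (γ t))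
          / ‖f (γ (t + sc n)) - f (γ t)‖ ^ 2 := by
    intro t ht n s
    rw [hFX t ht n s]
    have hp := hP.pos' t ht n
    have := coords hRENC (O' t n) (hP.so' t ht n) (by rw [hact _ (hP.so' t ht n), norm_e3])
      (f (γ (t + sc n)) - f (γ t)) (f (γ s) - f (γ t)) (len (f ∘ γ) t n) hp (hP.base' t ht n)
    refine ⟨?_, this.2.1, this.2.2⟩
    rw [← this.1]; positivity
  have ht20 : t ∈ Icc (-20 : ℝ) 20 := ⟨by linarith [ht.1], by linarith [ht.2]⟩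
  set tm : ℝ := t + sc (n + 1) with htm
  have htm20 : tm ∈ Icc (-20 : ℝ) 20 :=
    ⟨by linarith [ht.1, hsc (n + 1)], by linarith [ht.2, hsc1 (n + 1)]⟩
  have htmn : tm + sc (n + 1) = t + sc n := by rw [htm, hscs]; ring
  -- closeness at the midpoint
  have hX0 : ‖nX γ O t n (γ tm) - (1 / 2 : ℝ) • e3‖ ≤ ε := by
    have hl := hP.line t ht20 n (1 / 2) (by norm_num [abs_of_pos])
      ⟨by nlinarith [ht.1, hsc n], by nlinarith [ht.2, hsc1 n]⟩
    have hp := hP.pos t ht20 n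
    have e : t + 1 / 2 * sc n = tm := by rw [htm, hscs]
    rw [e] at hl
    have hS := hP.so t ht20 n
    have : act (O t n) (nX γ O t n (γ tm) - (1 / 2 : ℝ) • e3)
        = (len γ t n)⁻¹ • (γ tm - γ t - (1 / 2 * len γ t n) • act (O t n) e3) := by
      have hsub : ∀ (S : M3) (v w : E3), act S (v - w) = act S v - act S w := by
        intro S v w
        unfold act
        ext i
        simp [Matrix.mulVec_sub]
      have e1 : act (O t n) (nX γ O t n (γ tm)) = (len γ t n)⁻¹ • (γ tm - γ t) := by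
        unfold nX
        rw [hsm, hactT _ hS]
      have e2 : (len γ t n)⁻¹ * (1 / 2 * len γ t n) = 1 / 2 := by
        field_simp
      rw [hsub, hsm, e1, smul_sub _ (γ tm - γ t), smul_smul, e2]
    rw [← hact _ hS, this, norm_smul, norm_inv, Real.norm_eq_abs, abs_of_pos hp,
      inv_mul_le_iff₀ hp]
    linarith
  have hX0n : ‖nX γ O t n (γ tm)‖ ≤ 1 := by
    have h1 : ‖(1 / 2 : ℝ) • e3‖ = 1 / 2 := by
      rw [norm_smul, norm_e3]; norm_num
    have := norm_add_le (nX γ O t n (γ tm) - (1 / 2 : ℝ) • e3) ((1 / 2 : ℝ) • e3)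
    rw [sub_add_cancel, h1] at this
    linarith
  have hY0 : ‖nF f γ O O' t n (nX γ O t n (γ tm)) - (1 / 2 : ℝ) • e3‖ ≤ 3 * ε := by
    have hcl := hP.close t ht20 n (nX γ O t n (γ tm))
      (by rw [mem_ball_zero_iff]; linarith)
    have hp := hP.pos' t ht20 n
    have hS := hP.so' t ht20 n
    have hw : ‖wind (nX γ O t n (γ tm)) - (1 / 2 : ℝ) • e3‖ ≤ 2 * ε := by
      have := hwl (nX γ O t n (γ tm)) ((1 / 2 : ℝ) • e3)
      rw [hws] at this
      linarith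
    have hF : ‖nF f γ O O' t n (nX γ O t n (γ tm)) - wind (nX γ O t n (γ tm))‖ ≤ ε := by
      have : act (O' t n) (nF f γ O O' t n (nX γ O t n (γ tm)) - wind (nX γ O t n (γ tm)))
          = (len (f ∘ γ) t n)⁻¹ • (f (γ t + len γ t n • act (O t n) (nX γ O t n (γ tm))) - f (γ t)
            - len (f ∘ γ) t n • act (O' t n) (wind (nX γ O t n (γ tm)))) := by
        have hsub : ∀ (S : M3) (v w : E3), act S (v - w) = act S v - act S w := by
          intro S v w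
          unfold act
          ext i
          simp [Matrix.mulVec_sub]
        rw [hsub]
        conv_lhs => unfold nF
        rw [hsm, hactT _ hS, smul_sub _ (f _ - f _), smul_smul, inv_mul_cancel₀ hp.ne', one_smul]
      rw [← hact _ hS, this, norm_smul, norm_inv, Real.norm_eq_abs, abs_of_pos hp,
        inv_mul_le_iff₀ hp]
      linarith
    calc ‖nF f γ O O' t n (nX γ O t n (γ tm)) - (1 / 2 : ℝ) • e3‖
        = ‖(nF f γ O O' t n (nX γ O t n (γ tm)) - wind (nX γ O t n (γ tm)))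
            + (wind (nX γ O t n (γ tm)) - (1 / 2 : ℝ) • e3)‖ := by congr 1; abel
      _ ≤ _ := norm_add_le _ _
      _ ≤ 3 * ε := by linarith
  have hr0 := (rad_sub_e3 (nX γ O t n (γ tm)) (1 / 2)).trans hX0
  have hz0 := (two_sub_e3 (nX γ O t n (γ tm)) (1 / 2)).trans hX0
  have hr0' := (rad_sub_e3 (nF f γ O O' t n (nX γ O t n (γ tm))) (1 / 2)).trans hY0
  have hz0' := (two_sub_e3 (nF f γ O O' t n (nX γ O t n (γ tm))) (1 / 2)).trans hY0
  -- the three systems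
  obtain ⟨g1, g2, g3⟩ := hcs t ht20 n tm
  obtain ⟨-, g4, g5⟩ := hcs t ht20 (n + 1) (t + sc n)
  obtain ⟨-, g6, g7⟩ := hcs tm htm20 (n + 1) t
  obtain ⟨k1, k2, k3⟩ := hct t ht20 n tm
  obtain ⟨-, k4, k5⟩ := hct t ht20 (n + 1) (t + sc n)
  obtain ⟨-, k6, k7⟩ := hct tm htm20 (n + 1) t
  rw [← htm] at g4 g5 k4 k5
  rw [htmn] at g6 g7 k6 k7
  have T := tri (γ t) (γ (t + sc n)) (γ tm) _ _ _ g1 g2 g3 g4 g5 g6 g7 (by linarith)
  have T' := tri (f (γ t)) (f (γ (t + sc n))) (f (γ tm)) _ _ _ k1 k2 k3 k4 k5 k6 k7 (by linarith)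
  obtain ⟨T1, T2, T3, T4⟩ := T
  obtain ⟨T1', T2', T3', T4'⟩ := T'
  refine ⟨?_, ?_, ?_, ?_, ?_⟩
  · unfold XX Dv dev
    rw [T1, T1', T3, T3', ← htm]
    exact frac _ _ _ _ (by linarith) (by linarith) (rad_nonneg _) (by linarith) (rad_nonneg _)
      (by linarith)
  · unfold XX Dv dev
    rw [T2, T2', T4, T4', ← htm]
    have hA : |(1 - nX γ O t n (γ tm) 2) - 1 / 2| ≤ 1 / 100 := by
      rw [show (1 - nX γ O t n (γ tm) 2) - 1 / 2 = -(nX γ O t n (γ tm) 2 - 1 / 2) by ring,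
        abs_neg]; linarith
    have hA' : |(1 - nF f γ O O' t n (nX γ O t n (γ tm)) 2) - 1 / 2| ≤ 1 / 100 := by
      rw [show (1 - nF f γ O O' t n (nX γ O t n (γ tm)) 2) - 1 / 2
        = -(nF f γ O O' t n (nX γ O t n (γ tm)) 2 - 1 / 2) by ring, abs_neg]; linarith
    have := frac _ _ _ _ hA hA' (rad_nonneg (nX γ O t n (γ tm))) (by linarith)
      (rad_nonneg (nF f γ O O' t n (nX γ O t n (γ tm)))) (by linarith)
    have e1 : |(1 - nF f γ O O' t n (nX γ O t n (γ tm)) 2) - (1 - nX γ O t n (γ tm) 2)|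
        = |nF f γ O O' t n (nX γ O t n (γ tm)) 2 - nX γ O t n (γ tm) 2| := by
      rw [show (1 - nF f γ O O' t n (nX γ O t n (γ tm)) 2) - (1 - nX γ O t n (γ tm) 2)
        = -(nF f γ O O' t n (nX γ O t n (γ tm)) 2 - nX γ O t n (γ tm) 2) by ring, abs_neg]
    rw [e1] at this
    refine le_trans (le_of_eq ?_) this
    congr 1
    rw [abs_sub_comm]
    congr 1
    ring
  · unfold Dv dev
    obtain ⟨-, a1, a2⟩ := hcs t ht20 n t
    obtain ⟨-, b1, b2⟩ := hct t ht20 n t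
    have a1' : rad (nX γ O t n (γ t)) = 0 := by
      apply pow_eq_zero_iff two_ne_zero |>.mp
      rw [a1]; simp
    have b1' : rad (nF f γ O O' t n (nX γ O t n (γ t))) = 0 := by
      apply pow_eq_zero_iff two_ne_zero |>.mp
      rw [b1]; simp
    rw [a1', b1', a2, b2]; simp
  · unfold Dv dev
    obtain ⟨a0, a1, a2⟩ := hcs t ht20 n (t + sc n)
    obtain ⟨b0, b1, b2⟩ := hct t ht20 n (t + sc n)
    have a1' : rad (nX γ O t n (γ (t + sc n))) = 0 := by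
      apply pow_eq_zero_iff two_ne_zero |>.mp
      rw [a1, real_inner_self_eq_norm_sq]; ring
    have b1' : rad (nF f γ O O' t n (nX γ O t n (γ (t + sc n)))) = 0 := by
      apply pow_eq_zero_iff two_ne_zero |>.mp
      rw [b1, real_inner_self_eq_norm_sq]; ring
    rw [a1', b1', a2, b2, real_inner_self_eq_norm_sq, real_inner_self_eq_norm_sq,
      div_self a0.ne', div_self b0.ne']
    simp
  · unfold XX Dv dev
    rw [← htm]
    have : |nF f γ O O' t n (nX γ O t n (γ tm)) 2 - nX γ O t n (γ tm) 2| ≤ 4 * ε := by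
      rw [show nF f γ O O' t n (nX γ O t n (γ tm)) 2 - nX γ O t n (γ tm) 2
        = (nF f γ O O' t n (nX γ O t n (γ tm)) 2 - 1 / 2) - (nX γ O t n (γ tm) 2 - 1 / 2) by ring]
      refine (abs_sub _ _).trans ?_
      linarith
    linarith

end Pool.Mart
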