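import Pool.Agent.Work.MP_680515_an.IfaceM

/-!
# MP_680515_an: block GEO3 (deviations of all dyadic points near the system)
-/

open MeasureTheory Set Filter Topology Complex

namespace Pool.Mart

namespace GEO3_

theorem act_eq (A : M3) (v : E3) : act A v = Matrix.toEuclideanLin A v := rfl

theorem act_sub (A : M3) (v w : E3) : act A (v - w) = act A v - act A w := by
  rw [act_eq, act_eq, act_eq, map_sub]

theorem act_smul (A : M3) (c : ℝ) (v : E3) : act A (c • v) = c • act A v := by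
  rw [act_eq, act_eq, map_smul]

theorem norm_e3 : ‖e3‖ = 1 := by simp [e3]

theorem sc_pos (n : ℕ) : 0 < sc n := by unfold sc; positivity

theorem sc_add (n k : ℕ) : sc (n + k) = sc n * sc k := by unfold sc; rw [pow_add]

theorem sc_succ (n : ℕ) : sc (n + 1) = sc n / 2 := by
  unfold sc; rw [pow_succ]; ring

theorem sc_le_one (n : ℕ) : sc n ≤ 1 := by
  unfold sc
  exact pow_le_one₀ (by norm_num) (by norm_num)

theorem sc_anti {m n : ℕ} (h : m ≤ n) : sc n ≤ sc m := by
  unfold sc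
  exact pow_le_pow_of_le_one (by norm_num) (by norm_num) h

theorem rad_nonneg (v : E3) : 0 ≤ rad v := Real.sqrt_nonneg _

theorem dev_nonneg (X Y : E3) : 0 ≤ dev X Y := by
  unfold dev
  have := rad_nonneg X
  have := rad_nonneg Y
  positivity

theorem Dv_nonneg (f : E3 → E3) (γ : ℝ → E3) (O O' : ℝ → ℕ → M3) (t : ℝ) (n : ℕ) (s : ℝ) :
    0 ≤ Dv f γ O O' t n s := dev_nonneg _ _

/-- Orthogonal action. -/
theorem orth (hCHV : Stmt_CHV) {Q : M3} (hQ : Q ∈ Matrix.specialOrthogonalGroup (Fin 3) ℝ) :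
    (∀ v : E3, ‖act Q v‖ = ‖v‖) ∧ (∀ v : E3, act Q (act Q.transpose v) = v) ∧
    (∀ v : E3, act Q.transpose (act Q v) = v) := by
  obtain ⟨_, h1, h2, h3, _⟩ := hCHV (fun _ => 0) 0 1 Q one_pos hQ
  exact ⟨h1, h2, h3⟩

theorem line_est (hCHV : Stmt_CHV) {ε : ℝ} {Ω : Set E3} {f : E3 → E3} {γ : ℝ → E3}
    {O O' : ℝ → ℕ → M3} (hP : Pack ε Ω f γ O O') {t : ℝ} (ht : t ∈ Icc (-20 : ℝ) 20) (n : ℕ)
    {σ : ℝ} (hσ : |σ| ≤ 64) (hr : t + σ * sc n ∈ Icc (-21 : ℝ) 21) :
    ‖nX γ O t n (γ (t + σ * sc n)) - σ • e3‖ ≤ ε := by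
  have hpos := hP.pos t ht n
  obtain ⟨h1, h2, h3⟩ := orth hCHV (hP.so t ht n)
  have hl := hP.line t ht n σ hσ hr
  rw [← h1, act_sub, act_smul]
  unfold nX
  rw [act_smul, h2]
  have h4 : (len γ t n)⁻¹ • (γ (t + σ * sc n) - γ t) - σ • act (O t n) e3
      = (len γ t n)⁻¹ • (γ (t + σ * sc n) - γ t - (σ * len γ t n) • act (O t n) e3) := by
    have h5 : (len γ t n)⁻¹ * (σ * len γ t n) = σ := by field_simp
    rw [smul_sub _ (γ (t + σ * sc n) - γ t) ((σ * len γ t n) • act (O t n) e3), smul_smul, h5]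
  rw [h4, norm_smul, Real.norm_eq_abs, abs_of_pos (inv_pos.2 hpos), inv_mul_le_iff₀ hpos]
  linarith

theorem close_est (hCHV : Stmt_CHV) {ε : ℝ} {Ω : Set E3} {f : E3 → E3} {γ : ℝ → E3}
    {O O' : ℝ → ℕ → M3} (hP : Pack ε Ω f γ O O') {t : ℝ} (ht : t ∈ Icc (-20 : ℝ) 20) (n : ℕ)
    {X : E3} (hX : ‖X‖ < 64) : ‖nF f γ O O' t n X - wind X‖ ≤ ε := by
  have hpos := hP.pos' t ht n
  obtain ⟨h1, h2, h3⟩ := orth hCHV (hP.so' t ht n)
  have hl := hP.close t ht n X (by simpa using hX)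
  rw [← h1, act_sub]
  unfold nF
  rw [act_smul, h2]
  have h4 : (len (f ∘ γ) t n)⁻¹ • (f (γ t + len γ t n • act (O t n) X) - f (γ t))
        - act (O' t n) (wind X)
      = (len (f ∘ γ) t n)⁻¹ • (f (γ t + len γ t n • act (O t n) X) - f (γ t)
        - len (f ∘ γ) t n • act (O' t n) (wind X)) := by
    rw [smul_sub _ (f (γ t + len γ t n • act (O t n) X) - f (γ t)), smul_smul,
      inv_mul_cancel₀ hpos.ne', one_smul]
  rw [h4, norm_smul, Real.norm_eq_abs, abs_of_pos (inv_pos.2 hpos), inv_mul_le_iff₀ hpos]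
  linarith

/-- One step: deviation of a point through a subsystem. -/
theorem step (hGEO1 : Stmt_GEO1) (hRENS : Stmt_RENS) (hCHV : Stmt_CHV) (hWIN1 : Stmt_WIN1)
    {ε : ℝ} {Ω : Set E3} {f : E3 → E3} {γ : ℝ → E3} {O O' : ℝ → ℕ → M3} (hε0 : 0 ≤ ε)
    (hε1 : ε ≤ 1 / 1024) (hP : Pack ε Ω f γ O O') {t : ℝ} (ht : t ∈ Icc (-20 : ℝ) 20) (n k : ℕ)
    (hk : 10 * ε ≤ sc k) {σ : ℝ} (hσ : |σ| ≤ 40) (ht' : t + σ * sc n ∈ Icc (-20 : ℝ) 20)
    {τ : ℝ} (hτ : |τ| ≤ 2) (hs : t + σ * sc n + τ * sc (n + k) ∈ Icc (-21 : ℝ) 21) :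
    Dv f γ O O' t n (t + σ * sc n + τ * sc (n + k))
      ≤ 80 * (Dv f γ O O' t n (t + σ * sc n) + Dv f γ O O' t n (t + σ * sc n + sc (n + k)))
        + 20 * Dv f γ O O' (t + σ * sc n) (n + k) (t + σ * sc n + τ * sc (n + k)) := by
  set t' := t + σ * sc n with ht'def
  set s := t' + τ * sc (n + k) with hsdef
  obtain ⟨hlx, hly, hren, hS, hS', hb, hb', hpt⟩ :=
    hRENS ε Ω f γ O O' hε0 hε1 hP t ht n t' ht' (n + k)
  set x0 := nX γ O t n (γ t') with hx0
  set x1 := nX γ O t n (γ (t' + sc (n + k))) with hx1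
  obtain ⟨wnorm, -, -, wlip, -, -, -, -, wz⟩ := hWIN1
  have hsk := sc_pos k
  have hsk1 := sc_le_one k
  have hσk : |σ + sc k| ≤ 64 := by
    have := abs_le.1 hσ
    rw [abs_le]
    constructor <;> linarith
  -- the base points
  have hx0e : ‖x0 - σ • e3‖ ≤ ε := by
    refine line_est hCHV hP ht n (hσ.trans (by norm_num)) ?_
    exact ⟨by have := ht'.1; linarith, by have := ht'.2; linarith⟩
  have hte : t' + sc (n + k) = t + (σ + sc k) * sc n := by
    rw [ht'def, sc_add]; ring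
  have hscnk := sc_pos (n + k)
  have hscnk1 := sc_le_one (n + k)
  have hx1e : ‖x1 - (σ + sc k) • e3‖ ≤ ε := by
    rw [hx1, hte]
    refine line_est hCHV hP ht n hσk ?_
    rw [← hte]
    exact ⟨by have := ht'.1; linarith, by have := ht'.2; linarith⟩
  have hx0n : ‖x0‖ < 64 := by
    have h1 : ‖x0‖ ≤ ‖x0 - σ • e3‖ + ‖σ • e3‖ := by
      have := norm_add_le (x0 - σ • e3) (σ • e3)
      rwa [sub_add_cancel] at this
    rw [norm_smul, norm_e3, Real.norm_eq_abs] at h1
    linarith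
  have hx1n : ‖x1‖ < 64 := by
    have h1 : ‖x1‖ ≤ ‖x1 - (σ + sc k) • e3‖ + ‖(σ + sc k) • e3‖ := by
      have := norm_add_le (x1 - (σ + sc k) • e3) ((σ + sc k) • e3)
      rwa [sub_add_cancel] at this
    rw [norm_smul, norm_e3, Real.norm_eq_abs] at h1
    have h2 := abs_le.1 hσ
    have h3 : |σ + sc k| ≤ 41 := by
      rw [abs_le]; constructor <;> linarith
    linarith
  have hlow : sc k - 2 * ε ≤ ‖x1 - x0‖ := by
    have h1 : sc k • e3 = (x1 - x0) - (x1 - (σ + sc k) • e3) + (x0 - σ • e3) := by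
      rw [add_smul]; abel
    have h2 : ‖sc k • e3‖ ≤ ‖x1 - x0‖ + ‖x1 - (σ + sc k) • e3‖ + ‖x0 - σ • e3‖ := by
      calc ‖sc k • e3‖ = ‖(x1 - x0) - (x1 - (σ + sc k) • e3) + (x0 - σ • e3)‖ := by rw [← h1]
        _ ≤ ‖(x1 - x0) - (x1 - (σ + sc k) • e3)‖ + ‖x0 - σ • e3‖ := norm_add_le _ _
        _ ≤ _ := by
          have := norm_sub_le (x1 - x0) (x1 - (σ + sc k) • e3)
          linarith
    rw [norm_smul, norm_e3, Real.norm_eq_abs, abs_of_pos hsk] at h2
    linarith
  have hup : ‖x1 - x0‖ ≤ sc k + 2 * ε := by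
    have h1 : x1 - x0 = sc k • e3 + (x1 - (σ + sc k) • e3) - (x0 - σ • e3) := by
      rw [add_smul]; abel
    have h2 : ‖x1 - x0‖ ≤ ‖sc k • e3‖ + ‖x1 - (σ + sc k) • e3‖ + ‖x0 - σ • e3‖ := by
      calc ‖x1 - x0‖ = ‖sc k • e3 + (x1 - (σ + sc k) • e3) - (x0 - σ • e3)‖ := by rw [← h1]
        _ ≤ ‖sc k • e3 + (x1 - (σ + sc k) • e3)‖ + ‖x0 - σ • e3‖ := norm_sub_le _ _
        _ ≤ _ := by
          have := norm_add_le (sc k • e3) (x1 - (σ + sc k) • e3)
          linarith
    rw [norm_smul, norm_e3, Real.norm_eq_abs, abs_of_pos hsk] at h2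
    linarith
  have hF : ∀ (x : E3) (c : ℝ), ‖x‖ < 64 → ‖x - c • e3‖ ≤ ε →
      ‖nF f γ O O' t n x - c • e3‖ ≤ 3 * ε := by
    intro x c hx hc
    have h1 := close_est hCHV hP ht n hx
    have h2 := wlip x (c • e3)
    rw [wz] at h2
    have h3 : nF f γ O O' t n x - c • e3
        = (nF f γ O O' t n x - wind x) + (wind x - c • e3) := by abel
    rw [h3]
    have := norm_add_le (nF f γ O O' t n x - wind x) (wind x - c • e3)
    linarith
  have hF0 := hF x0 σ hx0n hx0e
  have hF1 := hF x1 (σ + sc k) hx1n hx1e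
  have hFup : ‖nF f γ O O' t n x1 - nF f γ O O' t n x0‖ ≤ sc k + 6 * ε := by
    set y1 := nF f γ O O' t n x1
    set y0 := nF f γ O O' t n x0
    have h1 : y1 - y0 = sc k • e3 + (y1 - (σ + sc k) • e3) - (y0 - σ • e3) := by
      rw [add_smul]; abel
    have h2 : ‖y1 - y0‖ ≤ ‖sc k • e3‖ + ‖y1 - (σ + sc k) • e3‖ + ‖y0 - σ • e3‖ := by
      calc ‖y1 - y0‖ = ‖sc k • e3 + (y1 - (σ + sc k) • e3) - (y0 - σ • e3)‖ := by rw [← h1]
        _ ≤ ‖sc k • e3 + (y1 - (σ + sc k) • e3)‖ + ‖y0 - σ • e3‖ := norm_sub_le _ _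
        _ ≤ _ := by
          have := norm_add_le (sc k • e3) (y1 - (σ + sc k) • e3)
          linarith
    rw [norm_smul, norm_e3, Real.norm_eq_abs, abs_of_pos hsk] at h2
    linarith
  have hFpos : 0 < ‖nF f γ O O' t n x1 - nF f γ O O' t n x0‖ := by
    rw [hly]
    exact div_pos (hP.pos' t' ht' (n + k)) (hP.pos' t ht n)
  have hratio : ‖nF f γ O O' t n x1 - nF f γ O O' t n x0‖ ≤ 2 * ‖x1 - x0‖ := by linarith
  -- the point in the subsystem
  set Y := nX γ O t' (n + k) (γ s) with hY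
  have hYe : ‖Y - τ • e3‖ ≤ ε := by
    rw [hY, hsdef]
    exact line_est hCHV hP ht' (n + k) (hτ.trans (by norm_num)) hs
  have hYn : ‖Y‖ ≤ 3 := by
    have h1 : ‖Y‖ ≤ ‖Y - τ • e3‖ + ‖τ • e3‖ := by
      have := norm_add_le (Y - τ • e3) (τ • e3)
      rwa [sub_add_cancel] at this
    rw [norm_smul, norm_e3, Real.norm_eq_abs] at h1
    linarith
  have hFY : ‖nF f γ O O' t' (n + k) Y‖ ≤ 4 := by
    have h1 := close_est hCHV hP ht' (n + k) (X := Y) (by linarith)
    have h2 : ‖nF f γ O O' t' (n + k) Y‖ ≤ ‖nF f γ O O' t' (n + k) Y - wind Y‖ + ‖wind Y‖ := by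
      have := norm_add_le (nF f γ O O' t' (n + k) Y - wind Y) (wind Y)
      rwa [sub_add_cancel] at this
    rw [wnorm] at h2
    linarith
  -- inversion of the coordinates
  have hinv : ∀ (r : ℝ) (hr : r ∈ Icc (-20 : ℝ) 20) (j : ℕ) (x : E3),
      γ r + len γ r j • act (O r j) (nX γ O r j x) = x := by
    intro r hr j x
    obtain ⟨-, h2, -⟩ := orth hCHV (hP.so r hr j)
    unfold nX
    rw [act_smul, h2, smul_smul, mul_inv_cancel₀ (hP.pos r hr j).ne', one_smul]
    abel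
  have hinv2 : ∀ X : E3, nX γ O t n (γ t + len γ t n • act (O t n) X) = X := by
    intro X
    obtain ⟨-, -, h3⟩ := orth hCHV (hP.so t ht n)
    unfold nX
    rw [add_sub_cancel_left, act_smul, h3, smul_smul, inv_mul_cancel₀ (hP.pos t ht n).ne',
      one_smul]
  have hpt' : nX γ O t n (γ s) = x0 + ‖x1 - x0‖ • act ((O t n).transpose * O t' (n + k)) Y := by
    have h1 := hpt Y
    rw [hinv t' ht' (n + k) (γ s)] at h1
    rw [h1, hinv2]
  have hmain := hGEO1 (nF f γ O O' t n) x0 x1 Y ((O t n).transpose * O t' (n + k))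
    ((O' t n).transpose * O' t' (n + k)) hS hS' hb hb' hFpos hratio
  rw [hren Y, ← hpt'] at hmain
  have hD1 : Dv f γ O O' t n s = dev (nX γ O t n (γ s)) (nF f γ O O' t n (nX γ O t n (γ s))) := rfl
  have hD2 : Dv f γ O O' t' (n + k) s = dev Y (nF f γ O O' t' (n + k) Y) := rfl
  have hD3 : Dv f γ O O' t n t' = dev x0 (nF f γ O O' t n x0) := rfl
  have hD4 : Dv f γ O O' t n (t' + sc (n + k)) = dev x1 (nF f γ O O' t n x1) := rfl
  rw [hD1, hD2, hD3, hD4]
  have n3 := dev_nonneg x0 (nF f γ O O' t n x0)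
  have n4 := dev_nonneg x1 (nF f γ O O' t n x1)
  have n5 := dev_nonneg Y (nF f γ O O' t' (n + k) Y)
  have n6 : 10 * (1 + ‖Y‖ + ‖nF f γ O O' t' (n + k) Y‖) ≤ 80 := by linarith
  have n7 : 10 * ‖x1 - x0‖ ≤ 20 := by linarith
  have n8 := mul_le_mul_of_nonneg_right n6 (add_nonneg n3 n4)
  have n9 := mul_le_mul_of_nonneg_right n7 n5
  linarith

/-- Constants of the refinement. -/
noncomputable def DK (D0 : ℝ) : ℕ → ℝ
  | 0 => D0
  | k + 1 => 160 * DK D0 k + 20

theorem DK_pos {D0 : ℝ} (h : 0 < D0) : ∀ k, 0 < DK D0 k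
  | 0 => h
  | k + 1 => by
    have := DK_pos h k
    simp only [DK]
    linarith

theorem DK_mono {D0 : ℝ} (h : 0 < D0) {k l : ℕ} (hkl : k ≤ l) : DK D0 k ≤ DK D0 l := by
  induction hkl with
  | refl => exact le_rfl
  | step _ ih =>
    refine ih.trans ?_
    have := DK_pos h ‹ℕ›
    simp only [DK]
    linarith

theorem XX_le_SS (f : E3 → E3) (γ : ℝ → E3) (O O' : ℝ → ℕ → M3) (k0 : ℕ) (t : ℝ) (n : ℕ) (j : ℕ)
    (i : ℤ) (hj : j < k0 + 2) (hi : |i| ≤ 12 * 2 ^ j) :
    XX f γ O O' (t + i * sc (n + j)) (n - 1 + j) ≤ SS f γ O O' k0 t n := by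
  have h0 : ∀ (s : ℝ) (m : ℕ), 0 ≤ XX f γ O O' s m := fun s m => Dv_nonneg _ _ _ _ _ _ _
  have h1 : XX f γ O O' (t + i * sc (n + j)) (n - 1 + j)
      ≤ ∑ i ∈ Finset.Icc (-(12 * 2 ^ j) : ℤ) (12 * 2 ^ j),
        XX f γ O O' (t + i * sc (n + j)) (n - 1 + j) := by
    refine Finset.single_le_sum (f := fun i : ℤ => XX f γ O O' (t + i * sc (n + j)) (n - 1 + j))
      (fun i _ => h0 _ _) ?_
    rw [Finset.mem_Icc]
    exact abs_le.1 hi
  refine h1.trans ?_
  unfold SS
  refine Finset.single_le_sum (f := fun j : ℕ =>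
    ∑ i ∈ Finset.Icc (-(12 * 2 ^ j) : ℤ) (12 * 2 ^ j),
      XX f γ O O' (t + i * sc (n + j)) (n - 1 + j))
    (fun j _ => Finset.sum_nonneg fun i _ => h0 _ _) ?_
  rw [Finset.mem_range]
  exact hj

end GEO3_

open GEO3_ in
theorem stmt_GEO3 (hGEO1 : Stmt_GEO1) (hGEO2 : Stmt_GEO2) (hRENS : Stmt_RENS)
    (_hSCL : Stmt_SCL) (hCHV : Stmt_CHV) (hWIN1 : Stmt_WIN1) : Stmt_GEO3 := by
  intro k0
  obtain ⟨C2, hC2, hG2⟩ := hGEO2
  set M : ℝ := 160 + 20 * C2 with hM
  have hM1 : 1 ≤ M := by linarith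
  have hM0 : 0 < M := by linarith
  refine ⟨DK (M ^ 9) k0, DK_pos (by positivity) k0, ?_⟩
  intro ε Ω f γ O O' hε0 hε hP t ht n hn
  have hsmall : ε ≤ 1 / 1024 := by
    refine hε.trans ?_
    calc (2 : ℝ)⁻¹ ^ (k0 + 20) ≤ (2 : ℝ)⁻¹ ^ 10 :=
          pow_le_pow_of_le_one (by norm_num) (by norm_num) (by omega)
      _ = 1 / 1024 := by norm_num
  have hkk : ∀ k ≤ k0, 10 * ε ≤ sc k := by
    intro k hk
    have h1 : (2 : ℝ)⁻¹ ^ (k0 + 20) = sc k0 * (2 : ℝ)⁻¹ ^ 20 := by
      unfold sc; rw [pow_add]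
    have h2 := sc_anti hk
    have h3 := sc_pos k0
    have h4 : (2 : ℝ)⁻¹ ^ 20 ≤ 1 / 10 := by norm_num
    rw [h1] at hε
    nlinarith
  have ht20 : t ∈ Icc (-20 : ℝ) 20 := ⟨by linarith [ht.1], by linarith [ht.2]⟩
  set B := SS f γ O O' k0 t n with hB
  have hB0 : 0 ≤ B := by
    have := XX_le_SS f γ O O' k0 t n 0 0 (by omega) (by simp)
    exact (Dv_nonneg _ _ _ _ _ _ _).trans this
  have hscn : sc n ≤ 1 / 2 := by
    have h1 := sc_anti hn
    have h2 : sc 1 = 1 / 2 := by unfold sc; norm_num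
    linarith
  have hscn0 := sc_pos n
  -- positions
  have hpos : ∀ σ : ℝ, |σ| ≤ 12 → t + σ * sc n ∈ Icc (-9 : ℝ) 9 := by
    intro σ hσ
    have h1 : |σ * sc n| ≤ 6 := by
      rw [abs_mul, abs_of_pos hscn0]
      nlinarith [abs_nonneg σ]
    have h2 := abs_le.1 h1
    exact ⟨by linarith [ht.1], by linarith [ht.2]⟩
  have hbase0 : Dv f γ O O' t n t = 0 :=
    (hG2 ε Ω f γ O O' hε0 hsmall hP t ⟨by linarith [ht.1], by linarith [ht.2]⟩ n).2.2.1
  have hbase1 : Dv f γ O O' t n (t + sc n) = 0 :=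
    (hG2 ε Ω f γ O O' hε0 hsmall hP t ⟨by linarith [ht.1], by linarith [ht.2]⟩ n).2.2.2.1
  obtain ⟨n', rfl⟩ : ∃ n', n = n' + 1 := ⟨n - 1, by omega⟩
  have hscs : sc n' = 2 * sc (n' + 1) := by rw [sc_succ]; ring
  -- right
  have hright : ∀ i : ℕ, i ≤ 8 →
      Dv f γ O O' t (n' + 1) (t + i * sc (n' + 1)) ≤ M ^ i * B ∧
      Dv f γ O O' t (n' + 1) (t + (i + 1 : ℕ) * sc (n' + 1)) ≤ M ^ (i + 1) * B := by
    intro i
    induction i with
    | zero =>
      intro _
      simp only [Nat.cast_zero, zero_mul, add_zero, zero_add, Nat.cast_one, one_mul, pow_zero,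
        pow_one]
      rw [hbase0, hbase1]
      exact ⟨hB0, by positivity⟩
    | succ i ih =>
      intro hi
      obtain ⟨ih1, ih2⟩ := ih (by omega)
      refine ⟨ih2, ?_⟩
      have hi8 : (i : ℝ) ≤ 7 := by exact_mod_cast (by omega : i ≤ 7)
      have hi0 : (0 : ℝ) ≤ i := Nat.cast_nonneg i
      have hst := step hGEO1 hRENS hCHV hWIN1 hε0 hsmall hP ht20 (n' + 1) 0
        (hkk 0 (Nat.zero_le _)) (σ := i) (by rw [abs_of_nonneg hi0]; linarith)
        (by have := hpos i (by rw [abs_of_nonneg hi0]; linarith)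
            exact ⟨by linarith [this.1], by linarith [this.2]⟩)
        (τ := 2) (by norm_num)
        (by have := hpos (i + 2) (by rw [abs_of_nonneg (by linarith)]; linarith)
            have h1 : t + (i : ℝ) * sc (n' + 1) + 2 * sc (n' + 1 + 0)
              = t + ((i : ℝ) + 2) * sc (n' + 1) := by rw [add_zero]; ring
            rw [h1]
            exact ⟨by linarith [this.1], by linarith [this.2]⟩)
      rw [add_zero] at hst
      have e1 : t + (i : ℝ) * sc (n' + 1) + sc (n' + 1) = t + (i + 1 : ℕ) * sc (n' + 1) := by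
        push_cast; ring
      have e2 : t + (i : ℝ) * sc (n' + 1) + 2 * sc (n' + 1)
          = t + (i + 1 + 1 : ℕ) * sc (n' + 1) := by
        push_cast; ring
      rw [e1, e2] at hst
      -- the third point in the subsystem
      have hg := (hG2 ε Ω f γ O O' hε0 hsmall hP (t + i * sc (n' + 1))
        (by have := hpos i (by rw [abs_of_nonneg hi0]; linarith)
            exact ⟨by linarith [this.1], by linarith [this.2]⟩) n').1
      have e3' : t + (i : ℝ) * sc (n' + 1) + sc n' = t + (i + 1 + 1 : ℕ) * sc (n' + 1) := by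
        rw [hscs]; push_cast; ring
      rw [e3'] at hg
      have hx := XX_le_SS f γ O O' k0 t (n' + 1) 0 (i : ℤ) (by omega) (by
        rw [abs_of_nonneg (by positivity)]; norm_num; omega)
      simp only [add_zero, Nat.add_sub_cancel, Int.cast_natCast] at hx
      have hp1 : M ^ (i + 1) = M ^ i * M := pow_succ _ _
      have hp2 : M ^ (i + 1 + 1) = M ^ i * M * M := by rw [pow_succ, pow_succ]
      have hMi : 1 ≤ M ^ i := one_le_pow₀ hM1
      have hMB : B ≤ M ^ i * B := by nlinarith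
      have hMB2 : M ^ i * B ≤ M ^ (i + 1) * B := by
        rw [hp1]
        have : 0 ≤ M ^ i * B := by positivity
        nlinarith
      have hfin : M ^ (i + 1 + 1) * B = (160 + 20 * C2) * (M ^ (i + 1) * B) := by
        rw [hp2, hp1, ← hM]; ring
      rw [hfin]
      have h9 : C2 * XX f γ O O' (t + (i : ℝ) * sc (n' + 1)) n' ≤ C2 * (M ^ (i + 1) * B) :=
        mul_le_mul_of_nonneg_left (by linarith) hC2.le
      linarith
  -- left
  have hleft : ∀ i : ℕ, i ≤ 8 →
      Dv f γ O O' t (n' + 1) (t - i * sc (n' + 1)) ≤ M ^ i * B ∧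
      Dv f γ O O' t (n' + 1) (t - (i + 1 : ℕ) * sc (n' + 1)) ≤ M ^ (i + 1) * B := by
    have key : ∀ i : ℕ, i ≤ 8 →
        Dv f γ O O' t (n' + 1) (t - (i + 1 : ℕ) * sc (n' + 1))
          ≤ 80 * (Dv f γ O O' t (n' + 1) (t - i * sc (n' + 1))
            + Dv f γ O O' t (n' + 1) (t - i * sc (n' + 1) + sc (n' + 1))) + 20 * (C2 * B) := by
      intro i hi
      have hi8 : (i : ℝ) ≤ 8 := by exact_mod_cast hi
      have hi0 : (0 : ℝ) ≤ i := Nat.cast_nonneg i
      have hst := step hGEO1 hRENS hCHV hWIN1 hε0 hsmall hP ht20 (n' + 1) 0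
        (hkk 0 (Nat.zero_le _)) (σ := -i) (by rw [abs_neg, abs_of_nonneg hi0]; linarith)
        (by have := hpos (-i) (by rw [abs_neg, abs_of_nonneg hi0]; linarith)
            exact ⟨by linarith [this.1], by linarith [this.2]⟩)
        (τ := -1) (by norm_num)
        (by have := hpos (-i - 1) (by
              rw [abs_le]; constructor <;> linarith)
            have h1 : t + -(i : ℝ) * sc (n' + 1) + -1 * sc (n' + 1 + 0)
              = t + (-(i : ℝ) - 1) * sc (n' + 1) := by rw [add_zero]; ring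
            rw [h1]
            exact ⟨by linarith [this.1], by linarith [this.2]⟩)
      rw [add_zero] at hst
      have e0 : t + -(i : ℝ) * sc (n' + 1) = t - i * sc (n' + 1) := by ring
      have e2 : t - (i : ℝ) * sc (n' + 1) + -1 * sc (n' + 1)
          = t - (i + 1 : ℕ) * sc (n' + 1) := by
        push_cast; ring
      rw [e0, e2] at hst
      have hg := (hG2 ε Ω f γ O O' hε0 hsmall hP (t - (i + 1 : ℕ) * sc (n' + 1))
        (by have := hpos (-i - 1) (by rw [abs_le]; constructor <;> linarith)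
            have h1 : t - ((i + 1 : ℕ) : ℝ) * sc (n' + 1) = t + (-(i : ℝ) - 1) * sc (n' + 1) := by
              push_cast; ring
            rw [h1]
            exact ⟨by linarith [this.1], by linarith [this.2]⟩) n').2.1
      have e3' : t - ((i + 1 : ℕ) : ℝ) * sc (n' + 1) + sc (n' + 1) = t - i * sc (n' + 1) := by
        push_cast; ring
      rw [e3'] at hg
      have hx := XX_le_SS f γ O O' k0 t (n' + 1) 0 (-((i + 1 : ℕ) : ℤ)) (by omega) (by
        rw [abs_neg, abs_of_nonneg (by positivity)]; push_cast; norm_num; omega)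
      simp only [add_zero, Nat.add_sub_cancel] at hx
      have e4 : t + ((-((i + 1 : ℕ) : ℤ) : ℤ) : ℝ) * sc (n' + 1)
          = t - ((i + 1 : ℕ) : ℝ) * sc (n' + 1) := by
        push_cast; ring
      rw [e4] at hx
      have h9 : C2 * XX f γ O O' (t - ((i + 1 : ℕ) : ℝ) * sc (n' + 1)) n' ≤ C2 * B :=
        mul_le_mul_of_nonneg_left hx hC2.le
      linarith
    intro i
    induction i with
    | zero =>
      intro _
      have h1 := key 0 (by omega)
      simp only [Nat.cast_zero, zero_mul, sub_zero, zero_add, Nat.cast_one, one_mul, pow_zero,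
        pow_one] at h1 ⊢
      rw [hbase0, hbase1] at h1
      rw [hbase0]
      refine ⟨hB0, h1.trans ?_⟩
      rw [hM]
      nlinarith
    | succ i ih =>
      intro hi
      obtain ⟨ih1, ih2⟩ := ih (by omega)
      refine ⟨ih2, ?_⟩
      have h1 := key (i + 1) hi
      have e1 : t - ((i + 1 : ℕ) : ℝ) * sc (n' + 1) + sc (n' + 1) = t - i * sc (n' + 1) := by
        push_cast; ring
      rw [e1] at h1
      have hp1 : M ^ (i + 1) = M ^ i * M := pow_succ _ _
      have hp2 : M ^ (i + 1 + 1) = M ^ i * M * M := by rw [pow_succ, pow_succ]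
      have hMi : 1 ≤ M ^ i := one_le_pow₀ hM1
      have hMB : B ≤ M ^ i * B := by nlinarith
      have hMB2 : M ^ i * B ≤ M ^ (i + 1) * B := by
        rw [hp1]
        have : 0 ≤ M ^ i * B := by positivity
        nlinarith
      have hfin : M ^ (i + 1 + 1) * B = (160 + 20 * C2) * (M ^ (i + 1) * B) := by
        rw [hp2, hp1, ← hM]; ring
      rw [hfin]
      have h9 : C2 * B ≤ C2 * (M ^ (i + 1) * B) :=
        mul_le_mul_of_nonneg_left (by linarith) hC2.le
      linarith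
  -- all integers
  have hint : ∀ i : ℤ, |i| ≤ 9 →
      Dv f γ O O' t (n' + 1) (t + i * sc (n' + 1)) ≤ M ^ 9 * B := by
    have hpw : ∀ j : ℕ, j ≤ 9 → M ^ j * B ≤ M ^ 9 * B := fun j hj =>
      mul_le_mul_of_nonneg_right (pow_le_pow_right₀ hM1 hj) hB0
    have hr : ∀ j : ℕ, j ≤ 9 → Dv f γ O O' t (n' + 1) (t + j * sc (n' + 1)) ≤ M ^ 9 * B := by
      intro j hj
      rcases Nat.lt_or_ge j 9 with h | h
      · exact (hright j (by omega)).1.trans (hpw j hj)
      · obtain rfl : j = 9 := by omega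
        exact (hright 8 le_rfl).2
    have hl : ∀ j : ℕ, j ≤ 9 → Dv f γ O O' t (n' + 1) (t - j * sc (n' + 1)) ≤ M ^ 9 * B := by
      intro j hj
      rcases Nat.lt_or_ge j 9 with h | h
      · exact (hleft j (by omega)).1.trans (hpw j hj)
      · obtain rfl : j = 9 := by omega
        exact (hleft 8 le_rfl).2
    intro i hi
    rcases le_total 0 i with h | h
    · obtain ⟨j, rfl⟩ := Int.eq_ofNat_of_zero_le h
      rw [abs_of_nonneg h] at hi
      have := hr j (by omega)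
      simpa using this
    · obtain ⟨j, hj⟩ := Int.eq_ofNat_of_zero_le (neg_nonneg.2 h)
      obtain rfl : i = -(j : ℤ) := by omega
      rw [abs_neg, abs_of_nonneg (by positivity)] at hi
      have := hl j (by omega)
      have e : t + ((-(j : ℤ) : ℤ) : ℝ) * sc (n' + 1) = t - j * sc (n' + 1) := by
        push_cast; ring
      rw [e]
      exact this
  -- refinement
  have hall : ∀ k : ℕ, k ≤ k0 → ∀ i : ℤ, |i| ≤ 9 * 2 ^ k →
      Dv f γ O O' t (n' + 1) (t + i * sc (n' + 1 + k)) ≤ DK (M ^ 9) k * B := by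
    intro k
    induction k with
    | zero =>
      intro _ i hi
      simpa [DK] using hint i (by simpa using hi)
    | succ k ih =>
      intro hk i hi
      have ih' := ih (by omega)
      have hD := DK_pos (D0 := M ^ 9) (by positivity) k
      have hDk : DK (M ^ 9) (k + 1) = 160 * DK (M ^ 9) k + 20 := rfl
      have hsck : sc (n' + 1 + k) = 2 * sc (n' + 1 + (k + 1)) := by
        rw [← add_assoc, sc_succ]; ring
      have h2k : (2 : ℤ) ^ (k + 1) = 2 * 2 ^ k := by rw [pow_succ]; ring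
      have hpow : (0 : ℤ) < 2 ^ k := by positivity
      rcases Int.even_or_odd' i with ⟨l, rfl | rfl⟩
      · have hl : |l| ≤ 9 * 2 ^ k := by
          rw [abs_mul, h2k] at hi
          norm_num at hi
          linarith
        have h1 := ih' l hl
        have e : t + ((2 * l : ℤ) : ℝ) * sc (n' + 1 + (k + 1)) = t + l * sc (n' + 1 + k) := by
          rw [hsck]; push_cast; ring
        rw [e, hDk]
        refine h1.trans ?_
        have : 0 ≤ DK (M ^ 9) k * B := mul_nonneg hD.le hB0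
        nlinarith
      · have hi' := abs_le.1 hi
        rw [h2k] at hi'
        have hl1 : |l| ≤ 9 * 2 ^ k := by
          rw [abs_le]; constructor <;> omega
        have hl2 : |l + 1| ≤ 9 * 2 ^ k := by
          rw [abs_le]; constructor <;> omega
        have h1 := ih' l hl1
        have h2 := ih' (l + 1) hl2
        have hsk := sc_pos k
        have hscmul : sc (n' + 1 + k) = sc k * sc (n' + 1) := by rw [sc_add]; ring
        have hσ9 : |(l : ℝ) * sc k| ≤ 9 := by
          rw [abs_mul, abs_of_pos hsk]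
          have h3 : |(l : ℝ)| ≤ 9 * 2 ^ k := by exact_mod_cast hl1
          have h4 : sc k * 2 ^ k = 1 := by
            unfold sc; rw [← mul_pow]; norm_num
          calc |(l : ℝ)| * sc k ≤ (9 * 2 ^ k) * sc k := mul_le_mul_of_nonneg_right h3 hsk.le
            _ = 9 * (sc k * 2 ^ k) := by ring
            _ = 9 := by rw [h4]; ring
        have ep : t + ((l : ℝ) * sc k) * sc (n' + 1) = t + l * sc (n' + 1 + k) := by
          rw [hscmul]; ring
        have hp9 := hpos ((l : ℝ) * sc k) (by linarith)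
        have hsc1 := sc_le_one (n' + 1 + k)
        have hsc0 := sc_pos (n' + 1 + k)
        have hst := step hGEO1 hRENS hCHV hWIN1 hε0 hsmall hP ht20 (n' + 1) k
          (hkk k (by omega)) (σ := (l : ℝ) * sc k) (by linarith)
          ⟨by linarith [hp9.1], by linarith [hp9.2]⟩
          (τ := 1 / 2) (by rw [abs_of_pos] <;> norm_num)
          ⟨by linarith [hp9.1], by linarith [hp9.2]⟩
        rw [ep] at hst
        have e1 : t + (l : ℝ) * sc (n' + 1 + k) + sc (n' + 1 + k)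
            = t + ((l + 1 : ℤ) : ℝ) * sc (n' + 1 + k) := by push_cast; ring
        have e2 : t + (l : ℝ) * sc (n' + 1 + k) + 1 / 2 * sc (n' + 1 + k)
            = t + ((2 * l + 1 : ℤ) : ℝ) * sc (n' + 1 + (k + 1)) := by
          rw [hsck]; push_cast; ring
        have e3' : t + (l : ℝ) * sc (n' + 1 + k) + 1 / 2 * sc (n' + 1 + k)
            = t + (l : ℝ) * sc (n' + 1 + k) + sc (n' + 1 + k + 1) := by
          rw [sc_succ (n' + 1 + k)]; ring
        have hxx : Dv f γ O O' (t + (l : ℝ) * sc (n' + 1 + k)) (n' + 1 + k)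
            (t + (l : ℝ) * sc (n' + 1 + k) + 1 / 2 * sc (n' + 1 + k))
            = XX f γ O O' (t + (l : ℝ) * sc (n' + 1 + k)) (n' + 1 + k) := by
          rw [e3']; rfl
        rw [hxx, e1, e2] at hst
        have hx := XX_le_SS f γ O O' k0 t (n' + 1) (k + 1) (2 * l) (by omega) (by
          rw [abs_mul, h2k]
          norm_num
          linarith)
        have e4 : t + ((2 * l : ℤ) : ℝ) * sc (n' + 1 + (k + 1)) = t + l * sc (n' + 1 + k) := by
          rw [hsck]; push_cast; ring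
        have e5 : n' + 1 - 1 + (k + 1) = n' + 1 + k := by omega
        rw [e4, e5] at hx
        rw [hDk]
        nlinarith
  intro k hk i hi
  refine (hall k hk i hi).trans ?_
  exact mul_le_mul_of_nonneg_right (DK_mono (by positivity) hk) hB0

end Pool.Mart
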