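import Pool.Agent.Work.MP_680515_an.IfaceW

/-!
# MP_680515_an, block GRD (helper46)
-/

open MeasureTheory Set Filter Topology Complex

namespace Pool.Mart

namespace GRD_

theorem rad_continuous : Continuous rad := by
  unfold rad
  fun_prop

theorem RG_meas (ρ : ℝ) : MeasurableSet (RG ρ) :=
  ((isOpen_lt continuous_const rad_continuous).inter
    (isOpen_lt continuous_norm continuous_const)).measurableSet

theorem RG_finite (ρ : ℝ) : volume (RG ρ) ≠ ⊤ := by
  have h : RG ρ ⊆ Metric.ball (0 : E3) 32 := fun X hX => by simpa using hX.2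
  exact ((measure_mono h).trans_lt measure_ball_lt_top).ne

end GRD_

open GRD_ in
theorem stmt_GRD (hPW : Stmt_PW) (hDLI : Stmt_DLI) (hAPX : Stmt_APX) (_hWIN1 : Stmt_WIN1) :
    Stmt_GRD := by
  intro ρ hρ hρ1
  obtain ⟨C0, hC0, hPC⟩ := hPW ρ hρ hρ1
  set V : ℝ := (volume (RG ρ)).toReal with hV
  have hV0 : 0 ≤ V := ENNReal.toReal_nonneg
  refine ⟨V / 2 + 3 * C0 / 2 + 1, by positivity, ?_⟩
  intro ε F A hε hερ hN
  obtain ⟨g1, g2, g3, -⟩ := hAPX ρ ε F A hρ hρ1 hε hερ hN
  obtain ⟨hI, hnn, -⟩ := hDLI ρ ε F A hρ hρ1 hε hερ hN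
  have hsub : RG ρ ⊆ KR ρ 40 := fun X hX => ⟨hX.1.le, by
    have := hX.2
    linarith⟩
  have hball : RG ρ ⊆ Metric.ball 0 64 := fun X hX => by
    have := hX.2
    simp only [Metric.mem_ball, dist_zero_right]
    linarith
  have hgrd : IntegrableOn (grd F A) (RG ρ) :=
    ((g1.mono_set hsub).norm.add (g2.mono_set hsub).norm).add (g3.mono_set hsub).norm
  refine ⟨hgrd, ?_⟩
  have hpt : ∀ᵐ X ∂(volume.restrict (RG ρ)), grd F A X ^ 2 ≤ 3 * C0 * dl F A X := by
    have hg : ∀ᵐ X ∂(volume.restrict (RG ρ)), Good (A X) :=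
      ae_mono (Measure.restrict_mono hball le_rfl) hN.good
    filter_upwards [hg, ae_restrict_mem (RG_meas ρ)] with X hX hXR
    have h := (hPC (A X) X (F X) hX hXR.1 hXR.2 ((hN.close X (hball hXR)).trans hερ)).2.2.2
    have h' : ‖gr (A X) X (F X)‖ ^ 2 + ‖gz (A X) X (F X)‖ ^ 2 + ‖gt (A X) X (F X)‖ ^ 2
      ≤ C0 * dl F A X := h
    unfold grd
    nlinarith [sq_nonneg (‖gr (A X) X (F X)‖ - ‖gz (A X) X (F X)‖),
      sq_nonneg (‖gr (A X) X (F X)‖ - ‖gt (A X) X (F X)‖),
      sq_nonneg (‖gz (A X) X (F X)‖ - ‖gt (A X) X (F X)‖)]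
  set D : ℝ := ∫ X in RG ρ, dl F A X with hD
  have hD0 : 0 ≤ D := integral_nonneg_of_ae hnn
  have hc : IntegrableOn (fun _ : E3 => (1 : ℝ)) (RG ρ) := integrableOn_const (RG_finite ρ)
  have hcV : ∫ _X in RG ρ, (1 : ℝ) = V := by
    simp [hV, Measure.real]
  have key : ∀ l : ℝ, 0 < l →
      ∫ X in RG ρ, grd F A X ≤ l / 2 * V + 3 * C0 / (2 * l) * D := by
    intro l hl
    have h1 : ∫ X in RG ρ, grd F A X
        ≤ ∫ X in RG ρ, (l / 2 * 1 + 3 * C0 / (2 * l) * dl F A X) := by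
      refine integral_mono_ae hgrd ((hc.const_mul _).add (hI.const_mul _)) ?_
      filter_upwards [hpt] with X hX
      have h2 : 3 * C0 / (2 * l) * dl F A X = (3 * C0 * dl F A X) / (2 * l) := by ring
      have h3 : grd F A X ^ 2 / (2 * l) ≤ (3 * C0 * dl F A X) / (2 * l) :=
        div_le_div_of_nonneg_right hX (by positivity)
      have h4 : grd F A X ≤ l / 2 + grd F A X ^ 2 / (2 * l) := by
        have h5 : l / 2 + grd F A X ^ 2 / (2 * l) - grd F A X
            = (grd F A X - l) ^ 2 / (2 * l) := by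
          field_simp
          ring
        have h6 : 0 ≤ (grd F A X - l) ^ 2 / (2 * l) := by positivity
        linarith
      show grd F A X ≤ l / 2 * 1 + 3 * C0 / (2 * l) * dl F A X
      rw [h2]
      linarith
    rw [integral_add (hc.const_mul _) (hI.const_mul _), integral_const_mul, integral_const_mul,
      hcV] at h1
    exact h1
  rcases hD0.eq_or_lt with h0 | h0
  · rw [← h0] at key ⊢
    rw [Real.sqrt_zero, mul_zero]
    by_contra hlt
    push Not at hlt
    have h1 := key ((∫ X in RG ρ, grd F A X) / (V + 1)) (by positivity)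
    have h2 : (∫ X in RG ρ, grd F A X) / (V + 1) * V ≤ ∫ X in RG ρ, grd F A X := by
      rw [div_mul_eq_mul_div, div_le_iff₀ (by positivity)]
      nlinarith
    have h3 : (∫ X in RG ρ, grd F A X) / (V + 1) / 2 * V
        = ((∫ X in RG ρ, grd F A X) / (V + 1) * V) / 2 := by ring
    rw [mul_zero, add_zero, h3] at h1
    linarith
  · have hs : 0 < Real.sqrt D := Real.sqrt_pos.2 h0
    have h1 := key (Real.sqrt D) hs
    have h2 : 3 * C0 / (2 * Real.sqrt D) * D = 3 * C0 / 2 * Real.sqrt D := by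
      have h3 : Real.sqrt D * Real.sqrt D = D := Real.mul_self_sqrt hD0
      field_simp
      rw [sq, h3]
    rw [h2] at h1
    nlinarith
end Pool.Mart
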