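import Pool.Agent.Work.MP_680515_an.IfaceA

/-!
# MP_680515_an: block GROW
-/

open MeasureTheory Set Filter Topology Complex

namespace Pool.Mart.GROW_

/-- The defect of a good matrix is nonnegative, for all vectors. -/
theorem dfc_nonneg (hENB : Stmt_ENB) (A : M3) (hA : Good A) (X Y : E3) : 0 ≤ dfc A X Y := by
  rcases eq_or_ne X 0 with hX | hX
  · subst hX
    simp [dfc]
    norm_num
  rcases eq_or_ne Y 0 with hY | hY
  · subst hY
    simp [dfc]
    norm_num
  · have hx : 0 < ‖X‖ := norm_pos_iff.mpr hX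
    have hy : 0 < ‖Y‖ := norm_pos_iff.mpr hY
    set c : ℝ := min (‖Y‖ / ‖X‖) (‖X‖ / ‖Y‖) with hc
    have hc0 : 0 < c := lt_min (by positivity) (by positivity)
    obtain ⟨C, -, hC⟩ := hENB c hc0
    have h1 : c * ‖X‖ ≤ ‖Y‖ := by
      have : c ≤ ‖Y‖ / ‖X‖ := min_le_left _ _
      calc c * ‖X‖ ≤ ‖Y‖ / ‖X‖ * ‖X‖ := by gcongr
        _ = ‖Y‖ := by field_simp
    have h2 : c * ‖Y‖ ≤ ‖X‖ := by
      have : c ≤ ‖X‖ / ‖Y‖ := min_le_right _ _
      calc c * ‖Y‖ ≤ ‖X‖ / ‖Y‖ * ‖Y‖ := by gcongr
        _ = ‖X‖ := by field_simp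
    exact (hC A X Y hA hX h1 h2).1

/-- Good matrices almost everywhere. -/
theorem good_ae (hLIN4 : Stmt_LIN4) (Ω : Set E3) (f : E3 → E3) (A : E3 → M3)
    (hq : QReg Ω f A) (hi : InnerDist Ω A 2) : ∀ᵐ x ∂(volume.restrict Ω), Good (A x) := by
  obtain ⟨K, hK, hKq⟩ := hq.qr
  filter_upwards [hKq, hi] with x h1 h2
  exact hLIN4 (A x) K hK h1 h2

theorem open_ring (a b : ℝ) (p : E3) : IsOpen {x : E3 | a < ‖x - p‖ ∧ ‖x - p‖ < b} := by
  have hc : Continuous fun x : E3 => ‖x - p‖ := by fun_prop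
  exact (isOpen_lt continuous_const hc).inter (isOpen_lt hc continuous_const)

theorem open_ring0 (a b : ℝ) : IsOpen {x : E3 | a < ‖x‖ ∧ ‖x‖ < b} := by
  have hc : Continuous fun x : E3 => ‖x‖ := by fun_prop
  exact (isOpen_lt continuous_const hc).inter (isOpen_lt hc continuous_const)

/-- The ring of the system `n`. -/
def rg (ρ : ℝ) (γ : ℝ → E3) (t : ℝ) (n : ℕ) : Set E3 :=
  {x | ρ * len γ t n < ‖x - γ t‖ ∧ ‖x - γ t‖ < 40 * len γ t n}

theorem rg_open (ρ : ℝ) (γ : ℝ → E3) (t : ℝ) (n : ℕ) : IsOpen (rg ρ γ t n) :=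
  open_ring _ _ _

/-- The defect in physical coordinates. -/
theorem DD_eq (hCHV : Stmt_CHV) (hROT : Stmt_ROT) (ρ ε : ℝ) (Ω : Set E3) (f : E3 → E3)
    (A : E3 → M3) (γ : ℝ → E3) (O O' : ℝ → ℕ → M3) (hP : Pack ε Ω f γ O O') (t : ℝ)
    (ht : t ∈ Icc (-20 : ℝ) 20) (n : ℕ) :
    DD ρ (nF f γ O O' t n) (nA f A γ O O' t n)
      = ((len γ t n) ^ 3)⁻¹ * ∫ x in rg ρ γ t n, dfc (A x) (x - γ t) (f x - f (γ t)) := by
  have hl := hP.pos t ht n
  have hl' := hP.pos' t ht n
  have hO := hP.so t ht n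
  have hO' := hP.so' t ht n
  set l := len γ t n with hldef
  set l' := len (f ∘ γ) t n with hl'def
  obtain ⟨-, hn, h1, h2, -⟩ := hCHV (fun _ => 0) (γ t) l (O t n) hl hO
  have hch := (hCHV ((rg ρ γ t n).indicator
    (fun x => dfc (A x) (x - γ t) (f x - f (γ t)))) (γ t) l (O t n) hl hO).1
  rw [integral_indicator (rg_open ρ γ t n).measurableSet] at hch
  rw [← hch]
  unfold DD
  have hm : MeasurableSet {X : E3 | ρ < ‖X‖ ∧ ‖X‖ < 40} := (open_ring0 _ _).measurableSet
  rw [← integral_indicator hm]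
  apply integral_congr_ae
  filter_upwards with X
  have hX : γ t + l • act (O t n) X - γ t = l • act (O t n) X := by abel
  have hnX : ‖γ t + l • act (O t n) X - γ t‖ = l * ‖X‖ := by
    rw [hX, norm_smul, hn X, Real.norm_of_nonneg hl.le]
  have hmem : (γ t + l • act (O t n) X ∈ rg ρ γ t n) ↔ X ∈ {X : E3 | ρ < ‖X‖ ∧ ‖X‖ < 40} := by
    simp only [rg, mem_ofPred_eq, hnX, ← hldef]
    constructor
    · rintro ⟨h3, h4⟩
      exact ⟨by nlinarith, by nlinarith⟩
    · rintro ⟨h3, h4⟩
      exact ⟨by nlinarith, by nlinarith⟩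
  by_cases hXm : X ∈ {X : E3 | ρ < ‖X‖ ∧ ‖X‖ < 40}
  · rw [indicator_of_mem hXm, indicator_of_mem (hmem.2 hXm), hX]
    obtain ⟨-, hd, -⟩ := hROT (A (γ t + l • act (O t n) X)) (O t n) (O' t n) (l / l') l l'
      (by positivity) hl hl' rfl hO hO'
    have h3 := hd (l • act (O t n) X) (f (γ t + l • act (O t n) X) - f (γ t))
    rw [← h3]
    have h4 : l⁻¹ • act (O t n).transpose (l • act (O t n) X) = X := by
      have : act (O t n).transpose (l • act (O t n) X)
          = l • act (O t n).transpose (act (O t n) X) := by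
        simp [act, Matrix.mulVec_smul]
      rw [this, h2 X, smul_smul, inv_mul_cancel₀ hl.ne', one_smul]
    rw [h4]
    rfl
  · rw [indicator_of_notMem hXm, indicator_of_notMem (fun h => hXm (hmem.1 h))]

end Pool.Mart.GROW_

namespace Pool.Mart

open GROW_

theorem stmt_GROW (hRING : Stmt_RING) (hSCL : Stmt_SCL) (hCHV : Stmt_CHV) (hROT : Stmt_ROT)
    (hENB : Stmt_ENB) (hLIN4 : Stmt_LIN4) : Stmt_GROW := by
  intro ρ hρ hρ1
  obtain ⟨CR, hCR, hR⟩ := hRING
  obtain ⟨m, hm⟩ : ∃ m : ℕ, (13 / 25 : ℝ) ^ m * 40 < ρ := by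
    obtain ⟨m, hm⟩ := exists_pow_lt_of_lt_one (show (0 : ℝ) < ρ / 40 by positivity)
      (show (13 / 25 : ℝ) < 1 by norm_num)
    exact ⟨m, by linarith [mul_lt_mul_of_pos_right hm (show (0 : ℝ) < 40 by norm_num)]⟩
  have hm0 : 0 < m := by
    rcases Nat.eq_zero_or_pos m with h | h
    · subst h; norm_num at hm; linarith
    · exact h
  have hmR : (0 : ℝ) < m := by exact_mod_cast hm0
  refine ⟨40 ^ 3 * m * (16 * Real.pi / 3), 40 ^ 3 * m * ((16 * Real.pi / 3) * m + CR),
    by positivity, by positivity, ?_⟩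
  intro ε Ω f A γ O O' hε hε1 hΩ hq hi hP t ht N
  have hε2 : ε ≤ 1 / 1024 := by linarith
  obtain ⟨hint, hle⟩ := hR ε Ω f A γ O O' hε hε2 hΩ hq hi hP t ht (N + m)
  set g : E3 → ℝ := fun x => dfc (A x) (x - γ t) (f x - f (γ t)) / ‖x - γ t‖ ^ 3 with hg
  set R : Set E3 := {x | len γ t (N + m) < ‖x - γ t‖ ∧ ‖x - γ t‖ < 40 * len γ t 0} with hRdef
  -- lengths
  have hsucc : ∀ n, len γ t (n + 1) ≤ 13 / 25 * len γ t n := by
    intro n
    have h := (hSCL ε Ω f γ O O' hε hε2 hP t ht n).1 0 1 (by norm_num) (by simpa using ht)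
      (by norm_num)
    have h1 := h.1
    simp only [zero_mul, add_zero] at h1
    have h2 := (abs_le.mp h1).2
    have h3 := hP.pos t ht n
    have h4 : sc 1 = 1 / 2 := by norm_num [sc]
    rw [h4] at h2
    nlinarith
  have hpow : ∀ n k, len γ t (n + k) ≤ (13 / 25) ^ k * len γ t n := by
    intro n k
    induction k with
    | zero => simp
    | succ k ih =>
      have := hsucc (n + k)
      calc len γ t (n + (k + 1)) = len γ t (n + k + 1) := by rw [add_assoc]
        _ ≤ 13 / 25 * len γ t (n + k) := this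
        _ ≤ 13 / 25 * ((13 / 25) ^ k * len γ t n) := by gcongr
        _ = (13 / 25) ^ (k + 1) * len γ t n := by ring
  have hanti : ∀ n k, len γ t (n + k) ≤ len γ t n := by
    intro n k
    have h1 := hpow n k
    have h2 : (13 / 25 : ℝ) ^ k ≤ 1 := pow_le_one₀ (by norm_num) (by norm_num)
    have h3 := hP.pos t ht n
    nlinarith
  have hfar : ∀ n k, m ≤ k → 40 * len γ t (n + k) < ρ * len γ t n := by
    intro n k hk
    have h1 := hpow n m
    have h2 : len γ t (n + k) ≤ len γ t (n + m) := by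
      obtain ⟨j, rfl⟩ := Nat.exists_eq_add_of_le hk
      have := hanti (n + m) j
      rwa [add_assoc] at this
    have h3 := hP.pos t ht n
    nlinarith
  -- the rings
  have hsub : ∀ n ∈ Finset.range N, rg ρ γ t n ⊆ R := by
    intro n hn x hx
    have hn' : n < N := Finset.mem_range.mp hn
    obtain ⟨h1, h2⟩ := hx
    constructor
    · have h3 : 40 * len γ t (n + (N + m - n)) < ρ * len γ t n := hfar n (N + m - n) (by omega)
      have h4 : n + (N + m - n) = N + m := by omega
      rw [h4] at h3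
      have h5 := hP.pos t ht (N + m)
      linarith
    · have h3 := hanti 0 n
      rw [zero_add] at h3
      linarith
  have hRΩ : R ⊆ Ω := by
    intro x hx
    apply hP.sub t ht 0
    rw [Metric.mem_ball, dist_eq_norm]
    have := hP.pos t ht 0
    linarith [hx.2]
  have hgood := good_ae hLIN4 Ω f A hq hi
  have hgood' : ∀ᵐ x ∂(volume.restrict R), Good (A x) :=
    ae_mono (Measure.restrict_mono hRΩ le_rfl) hgood
  have hg0 : ∀ᵐ x ∂(volume.restrict R), 0 ≤ g x := by
    filter_upwards [hgood'] with x hx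
    exact div_nonneg (dfc_nonneg hENB _ hx _ _) (by positivity)
  -- each term
  have hterm : ∀ n ∈ Finset.range N, DD ρ (nF f γ O O' t n) (nA f A γ O O' t n)
      ≤ 40 ^ 3 * ∫ x in R, (rg ρ γ t n).indicator g x := by
    intro n hn
    have hl := hP.pos t ht n
    rw [DD_eq hCHV hROT ρ ε Ω f A γ O O' hP t ht n,
      setIntegral_indicator (rg_open ρ γ t n).measurableSet,
      inter_eq_self_of_subset_right (hsub n hn), ← integral_const_mul, ← integral_const_mul]
    have hgr : ∀ᵐ x ∂(volume.restrict (rg ρ γ t n)), Good (A x) :=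
      ae_mono (Measure.restrict_mono (hsub n hn) le_rfl) hgood'
    apply integral_mono_of_nonneg
    · filter_upwards [hgr] with x hx
      exact mul_nonneg (by positivity) (dfc_nonneg hENB _ hx _ _)
    · exact (hint.mono_set (hsub n hn)).const_mul _
    · filter_upwards [hgr, ae_restrict_mem (rg_open ρ γ t n).measurableSet] with x hx hxr
      have h0 := dfc_nonneg hENB _ hx (x - γ t) (f x - f (γ t))
      have hx1 : 0 < ‖x - γ t‖ := lt_trans (by positivity) hxr.1
      have hx2 := hxr.2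
      show (len γ t n ^ 3)⁻¹ * dfc (A x) (x - γ t) (f x - f (γ t))
        ≤ 40 ^ 3 * (dfc (A x) (x - γ t) (f x - f (γ t)) / ‖x - γ t‖ ^ 3)
      have h3 : (len γ t n ^ 3)⁻¹ ≤ 40 ^ 3 / ‖x - γ t‖ ^ 3 := by
        rw [← one_div, div_le_div_iff₀ (by positivity) (by positivity), one_mul, ← mul_pow]
        gcongr
      calc (len γ t n ^ 3)⁻¹ * dfc (A x) (x - γ t) (f x - f (γ t))
          ≤ 40 ^ 3 / ‖x - γ t‖ ^ 3 * dfc (A x) (x - γ t) (f x - f (γ t)) := by gcongr
        _ = _ := by ring
  -- the number of rings containing a point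
  have hcount : ∀ x, ∑ n ∈ Finset.range N, (rg ρ γ t n).indicator (fun _ => (1 : ℝ)) x ≤ m := by
    intro x
    classical
    set S := (Finset.range N).filter (fun n => x ∈ rg ρ γ t n) with hS
    have h1 : ∑ n ∈ Finset.range N, (rg ρ γ t n).indicator (fun _ => (1 : ℝ)) x = S.card := by
      rw [Finset.card_filter]
      push_cast
      apply Finset.sum_congr rfl
      intro n _
      by_cases h : x ∈ rg ρ γ t n
      · simp [h]
      · simp [h]
    rw [h1]
    rcases S.eq_empty_or_nonempty with he | hne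
    · rw [he]; simp
    · set a := S.min' hne with ha
      have hsubS : S ⊆ Finset.Ico a (a + m) := by
        intro n hn
        have han : a ≤ n := Finset.min'_le _ _ hn
        have haS : a ∈ S := Finset.min'_mem _ _
        have hax : x ∈ rg ρ γ t a := (Finset.mem_filter.mp haS).2
        have hnx : x ∈ rg ρ γ t n := (Finset.mem_filter.mp hn).2
        rw [Finset.mem_Ico]
        refine ⟨han, ?_⟩
        by_contra hcon
        push Not at hcon
        have h2 := hfar a (n - a) (by omega)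
        have h3 : a + (n - a) = n := by omega
        rw [h3] at h2
        have h4 := hax.1
        have h5 := hnx.2
        linarith
      have h2 := Finset.card_le_card hsubS
      rw [Nat.card_Ico] at h2
      have h3 : a + m - a = m := by omega
      rw [h3] at h2
      exact_mod_cast h2
  have hsum : ∑ n ∈ Finset.range N, ∫ x in R, (rg ρ γ t n).indicator g x ≤ m * ∫ x in R, g x := by
    rw [← integral_finsetSum, ← integral_const_mul]
    · apply integral_mono_ae
      · apply integrable_finsetSum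
        intro n _
        exact hint.indicator (rg_open ρ γ t n).measurableSet
      · exact hint.const_mul _
      · filter_upwards [hg0] with x hx
        have h1 : ∑ n ∈ Finset.range N, (rg ρ γ t n).indicator g x
            = (∑ n ∈ Finset.range N, (rg ρ γ t n).indicator (fun _ => (1 : ℝ)) x) * g x := by
          rw [Finset.sum_mul]
          apply Finset.sum_congr rfl
          intro n _
          by_cases h : x ∈ rg ρ γ t n
          · simp [h]
          · simp [h]
        show ∑ n ∈ Finset.range N, (rg ρ γ t n).indicator g x ≤ m * g x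
        rw [h1]
        exact mul_le_mul_of_nonneg_right (hcount x) hx
    · intro n _
      exact hint.indicator (rg_open ρ γ t n).measurableSet
  have hFF : FF f γ t (N + m) ≤ FF f γ t N + m := by
    have : ∀ k : ℕ, FF f γ t (N + k) ≤ FF f γ t N + k := by
      intro k
      induction k with
      | zero => simp
      | succ k ih =>
        have h := (hSCL ε Ω f γ O O' hε hε2 hP t ht (N + k)).2.1
        have h1 := (abs_le.mp h).2
        have h2 : N + (k + 1) = N + k + 1 := by ring
        rw [h2]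
        push_cast
        linarith
    exact this m
  calc ∑ n ∈ Finset.range N, DD ρ (nF f γ O O' t n) (nA f A γ O O' t n)
      ≤ ∑ n ∈ Finset.range N, 40 ^ 3 * ∫ x in R, (rg ρ γ t n).indicator g x :=
        Finset.sum_le_sum hterm
    _ = 40 ^ 3 * ∑ n ∈ Finset.range N, ∫ x in R, (rg ρ γ t n).indicator g x := by
        rw [Finset.mul_sum]
    _ ≤ 40 ^ 3 * (m * ∫ x in R, g x) := by gcongr
    _ ≤ 40 ^ 3 * (m * ((16 * Real.pi / 3) * (FF f γ t (N + m) - FF f γ t 0) + CR)) := by
        gcongr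
    _ ≤ 40 ^ 3 * (m * ((16 * Real.pi / 3) * (FF f γ t N + m - FF f γ t 0) + CR)) := by
        gcongr
    _ = _ := by ring

end Pool.Mart
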