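import Pool.Agent.Work.MP_680515_an.IfaceW

/-!
# MP_680515_an, block IBP2 (helper46)
-/

open MeasureTheory Set Filter Topology Complex

namespace Pool.Mart

namespace IBP2_

theorem integ {U : Set ℂ} (hU : IsOpen U) {a b : ℂ → ℂ} (ha : ContinuousOn a U)
    (hb : Continuous b) (hK : HasCompactSupport b) (hs : tsupport b ⊆ U) :
    Integrable (fun x => a x * b x) := by
  have hc : Continuous (fun x => a x * b x) := by
    rw [continuous_iff_continuousAt]
    intro x
    by_cases hx : x ∈ U
    · exact (ha.continuousAt (hU.mem_nhds hx)).mul hb.continuousAt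
    · have h1 : b =ᶠ[𝓝 x] 0 := notMem_tsupport_iff_eventuallyEq.1 fun h => hx (hs h)
      have h2 : (fun x => a x * b x) =ᶠ[𝓝 x] fun _ => 0 := by
        filter_upwards [h1] with y hy
        rw [hy]
        simp
      exact continuousAt_const.congr h2.symm
  exact hc.integrable_of_hasCompactSupport hK.mul_left

end IBP2_

open IBP2_ in
theorem stmt_IBP2 : Stmt_IBP2 := by
  intro U h ψ hU hh hψ hK hs
  have hψc : Continuous ψ := hψ.continuous
  have hψd : Differentiable ℝ ψ := hψ.differentiable (by simp)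
  have hhd : ∀ x ∈ tsupport ψ, DifferentiableAt ℝ h x := fun x hx =>
    (hh.differentiableOn one_ne_zero).differentiableAt (hU.mem_nhds (hs hx))
  have hh' : ∀ v : ℂ, ContinuousOn (fun x => fderiv ℝ h x v) U := fun v =>
    (hh.continuousOn_fderiv_of_isOpen hU le_rfl).clm_apply continuousOn_const
  have hψ' : ∀ v : ℂ, Continuous (fun x => fderiv ℝ ψ x v) := fun v =>
    (hψ.continuous_fderiv (by simp)).clm_apply continuous_const
  have hK' : ∀ v : ℂ, HasCompactSupport (fun x => fderiv ℝ ψ x v) := fun v =>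
    hK.fderiv_apply ℝ v
  have hs' : ∀ v : ℂ, tsupport (fun x => fderiv ℝ ψ x v) ⊆ U := fun v =>
    (tsupport_fderiv_apply_subset ℝ v).trans hs
  have i1 : ∀ v : ℂ, Integrable (fun x => fderiv ℝ h x v * ψ x) := fun v =>
    integ hU (hh' v) hψc hK hs
  have i2 : ∀ v : ℂ, Integrable (fun x => h x * fderiv ℝ ψ x v) := fun v =>
    integ hU hh.continuousOn (hψ' v) (hK' v) (hs' v)
  have i3 : Integrable (fun x => h x * ψ x) := integ hU hh.continuousOn hψc hK hs
  have key : ∀ v : ℂ, ∫ x, h x * fderiv ℝ ψ x v = - ∫ x, fderiv ℝ h x v * ψ x := fun v =>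
    integral_mul_fderiv_eq_neg_fderiv_mul_of_integrable (i1 v) (i2 v) i3 hhd
      (fun x _ => hψd x)
  have e1 : ∫ ζ, h ζ * dbar ψ ζ
      = (1 / 2) * (∫ x, h x * fderiv ℝ ψ x 1) + (I / 2) * ∫ x, h x * fderiv ℝ ψ x I := by
    rw [← integral_const_mul, ← integral_const_mul, ← integral_add ((i2 1).const_mul _)
      ((i2 I).const_mul _)]
    refine integral_congr_ae (Eventually.of_forall fun x => ?_)
    unfold dbar
    ring
  have e2 : ∫ ζ, dbar h ζ * ψ ζ
      = (1 / 2) * (∫ x, fderiv ℝ h x 1 * ψ x) + (I / 2) * ∫ x, fderiv ℝ h x I * ψ x := by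
    rw [← integral_const_mul, ← integral_const_mul, ← integral_add ((i1 1).const_mul _)
      ((i1 I).const_mul _)]
    refine integral_congr_ae (Eventually.of_forall fun x => ?_)
    unfold dbar
    ring
  rw [e1, e2, key 1, key I]
  ring

end Pool.Mart
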