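import Pool.Agent.Work.MP_680515_an.IfaceA

/-!
# Block IDT of MP_680515_an: the exact identity

Paper proof.  Let `Y = F X`, `K = {X : |X| in tsupport η}`; it is a compact subset of the ring, on
which `X` and `F X` do not vanish.  For `X` in `K`

`dfc / |X|^3 = (2/3) det A / |Y|^3 + (2/3) / |X|^3 - fx / |X|`.

* `PIOW` with `φ = η(|X|)` and the field `H y = (log |y| / |y|^3) y` (divergence `1 / |y|^3`) gives
  `∫ η' fx log |Y| = - ∫ η det A / |Y|^3`.
* `RINT` gives `∫ η(|X|) / |X|^3 = 4 π J` with `J = ∫ η(r) / r dr`.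
* The flux hypothesis with `h = η(r) / r` gives `∫ (η / |X|) fx = 8 π J`, and with
  `h = η'(r) log r` it gives `∫ η' log |X| fx = 8 π ∫ η' log r = - 8 π J` (by parts).

So the left side is `- (2/3) ∫ η' fx log |Y| + (8 π / 3) J - 8 π J`, and this is the right side.
-/

open MeasureTheory Set Filter Topology Complex

namespace Pool.Mart

namespace IDT_

theorem cpair_smul_left (A : M3) (c : ℝ) (H b : E3) : cpair A (c • H) b = c * cpair A H b := by
  unfold cpair
  simp only [Finset.mul_sum, PiLp.smul_apply, smul_eq_mul]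
  refine Finset.sum_congr rfl fun i _ => Finset.sum_congr rfl fun j _ => by ring

theorem cpair_smul_right (A : M3) (c : ℝ) (H b : E3) : cpair A H (c • b) = c * cpair A H b := by
  unfold cpair
  simp only [Finset.mul_sum, PiLp.smul_apply, smul_eq_mul]
  refine Finset.sum_congr rfl fun i _ => Finset.sum_congr rfl fun j _ => by ring

/-- The pointwise formula for the defect density. -/
theorem dfc_formula (A : M3) (X Y : E3) (hX : X ≠ 0) (hY : Y ≠ 0) :
    dfc A X Y / ‖X‖ ^ 3 = (2 / 3) * (A.det * (‖Y‖ ^ 3)⁻¹) + (2 / 3) * (‖X‖ ^ 3)⁻¹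
      - ‖X‖⁻¹ * fx A X Y := by
  have hx : ‖X‖ ≠ 0 := norm_ne_zero_iff.2 hX
  have hy : ‖Y‖ ≠ 0 := norm_ne_zero_iff.2 hY
  unfold dfc fx
  rw [cpair_smul_left, cpair_smul_left]
  field_simp

/-- Products of a compactly supported function with a function continuous on the half line. -/
theorem mul_w (r1 R : ℝ) (hr1 : 0 ≤ r1) (e w : ℝ → ℝ) (he : Continuous e)
    (hec : HasCompactSupport e) (hes : tsupport e ⊆ Ioo r1 R)
    (hw : ∀ r, 0 < r → ContinuousAt w r) :
    Continuous (fun r => e r * w r) ∧ HasCompactSupport (fun r => e r * w r) ∧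
      tsupport (fun r => e r * w r) ⊆ Ioo r1 R := by
  have hs : tsupport (fun r => e r * w r) ⊆ tsupport e := tsupport_mul_subset_left
  refine ⟨continuous_of_tsupport fun x hx => ?_, hec.mul_right, hs.trans hes⟩
  have := hes (hs hx)
  exact he.continuousAt.mul (hw x (lt_of_le_of_lt hr1 this.1))

/-- Integration by parts against the logarithm. -/
theorem ibp_log (r1 R : ℝ) (hr1 : 0 ≤ r1) (η : ℝ → ℝ) (hη : ContDiff ℝ 1 η)
    (hc : HasCompactSupport η) (hs : tsupport η ⊆ Ioo r1 R) :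
    ∫ r, deriv η r * Real.log r = - ∫ r, η r * r⁻¹ := by
  have hd : tsupport (deriv η) ⊆ tsupport η :=
    closure_minimal support_deriv_subset (isClosed_tsupport η)
  have hlog : ∀ r : ℝ, 0 < r → ContinuousAt Real.log r := fun r hr =>
    Real.continuousAt_log hr.ne'
  have hinv : ∀ r : ℝ, 0 < r → ContinuousAt (fun r : ℝ => r⁻¹) r := fun r hr =>
    continuousAt_inv₀ hr.ne'
  obtain ⟨a1, a2, _⟩ := mul_w r1 R hr1 η Real.log hη.continuous hc hs hlog
  obtain ⟨b1, b2, _⟩ := mul_w r1 R hr1 η (fun r => r⁻¹) hη.continuous hc hs hinv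
  obtain ⟨c1, c2, _⟩ := mul_w r1 R hr1 (deriv η) Real.log (hη.continuous_deriv le_rfl) hc.deriv
    (hd.trans hs) hlog
  have hb := b1.integrable_of_hasCompactSupport (μ := volume) b2
  have hcc := c1.integrable_of_hasCompactSupport (μ := volume) c2
  have key := integral_eq_zero_of_hasDerivAt_of_integrable
    (f := fun r => η r * Real.log r) (f' := fun r => deriv η r * Real.log r + η r * r⁻¹)
    (fun r => by
      by_cases hr : r ∈ tsupport η
      · have hr0 : 0 < r := lt_of_le_of_lt hr1 (hs hr).1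
        exact ((hη.differentiable (by norm_num)) r).hasDerivAt.mul
          (Real.hasDerivAt_log hr0.ne')
      · have h0 : η r = 0 := image_eq_zero_of_notMem_tsupport hr
        have h1 : deriv η r = 0 := image_eq_zero_of_notMem_tsupport fun h => hr (hd h)
        have hev : (fun r => η r * Real.log r) =ᶠ[𝓝 r] fun _ => (0 : ℝ) := by
          have : (tsupport η)ᶜ ∈ 𝓝 r := (isClosed_tsupport η).isOpen_compl.mem_nhds hr
          filter_upwards [this] with s hs'
          rw [image_eq_zero_of_notMem_tsupport hs', zero_mul]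
        rw [h0, h1, zero_mul, zero_mul, add_zero]
        exact (hasDerivAt_const r (0 : ℝ)).congr_of_eventuallyEq hev)
    (hcc.add hb) (a1.integrable_of_hasCompactSupport a2)
  rw [integral_add hcc hb] at key
  linarith

end IDT_

theorem stmt_IDT (hPIOW : Stmt_PIOW) (hRADF : Stmt_RADF) (hRINT : Stmt_RINT)
    (hPIOI : Stmt_PIOI) : Stmt_IDT := by
  intro r1 R F A hr1 _ hFc hW hFne _ hflux η hη hηc hηs
  have hdη : tsupport (deriv η) ⊆ tsupport η :=
    closure_minimal support_deriv_subset (isClosed_tsupport η)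
  -- the compact set
  set K : Set E3 := {X | ‖X‖ ∈ tsupport η} with hK
  have hKr : ∀ X ∈ K, r1 < ‖X‖ ∧ ‖X‖ < R := fun X hX => hηs hX
  have hKball : K ⊆ Metric.ball 0 R := fun X hX => by
    rw [mem_ball_zero_iff]; exact (hKr X hX).2
  have hKc : IsCompact K :=
    Metric.isCompact_of_isClosed_isBounded ((isClosed_tsupport η).preimage continuous_norm)
      (Metric.isBounded_ball.subset hKball)
  have hX0 : ∀ X ∈ K, X ≠ 0 := fun X hX h => by
    have := (hKr X hX).1
    rw [h, norm_zero] at this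
    linarith
  have hF0 : ∀ X ∈ K, F X ≠ 0 := fun X hX => hFne X (hKr X hX).1 (hKr X hX).2
  have hη0 : ∀ X, X ∉ K → η ‖X‖ = 0 := fun X hX => image_eq_zero_of_notMem_tsupport hX
  have hη1 : ∀ X, X ∉ K → deriv η ‖X‖ = 0 := fun X hX =>
    image_eq_zero_of_notMem_tsupport fun h => hX (hdη h)
  have hFK : ContinuousOn F K := hFc.mono hKball
  have hnK : ContinuousOn (fun X : E3 => ‖X‖) K := continuous_norm.continuousOn
  have hnF : ContinuousOn (fun X : E3 => ‖F X‖) K := hFK.norm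
  have hnx : ∀ X ∈ K, ‖X‖ ≠ 0 := fun X hX => norm_ne_zero_iff.2 (hX0 X hX)
  have hny : ∀ X ∈ K, ‖F X‖ ≠ 0 := fun X hX => norm_ne_zero_iff.2 (hF0 X hX)
  have hc0 : ContinuousOn (fun X : E3 => η ‖X‖) K :=
    (hη.continuous.comp continuous_norm).continuousOn
  have hc1 : ContinuousOn (fun X : E3 => deriv η ‖X‖) K :=
    ((hη.continuous_deriv le_rfl).comp continuous_norm).continuousOn
  have hix : ContinuousOn (fun X : E3 => ‖X‖⁻¹) K := hnK.inv₀ hnx
  have hlx : ContinuousOn (fun X : E3 => Real.log ‖X‖) K := hnK.log hnx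
  have hly : ContinuousOn (fun X : E3 => Real.log ‖F X‖) K := hnF.log hny
  have hi3y : ContinuousOn (fun X : E3 => (‖F X‖ ^ 3)⁻¹) K :=
    (hnF.pow 3).inv₀ fun X hX => pow_ne_zero 3 (hny X hX)
  have hi3x : ContinuousOn (fun X : E3 => (‖X‖ ^ 3)⁻¹) K :=
    (hnK.pow 3).inv₀ fun X hX => pow_ne_zero 3 (hnx X hX)
  obtain ⟨p1, _, _, p4⟩ := hPIOI (Metric.ball 0 R) F A Metric.isOpen_ball hFc hW K hKc hKball
  have hfxK : IntegrableOn (fun X => fx (A X) X (F X)) K :=
    p4 (fun X => (‖F X‖ ^ 3)⁻¹ • F X) (fun X => ‖X‖⁻¹ • X) (hi3y.smul hFK)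
      (hix.smul continuousOn_id)
  -- passing from `K` to the whole space
  have glob : ∀ g : E3 → ℝ, IntegrableOn g K → (∀ X, X ∉ K → g X = 0) → Integrable g :=
    fun g h1 h2 => h1.integrable_of_forall_notMem_eq_zero h2
  have I1 : Integrable (fun X => η ‖X‖ * ((A X).det * (‖F X‖ ^ 3)⁻¹)) := by
    refine glob _ ?_ fun X hX => by rw [hη0 X hX, zero_mul]
    have := p1.continuousOn_mul (hc0.mul hi3y) hKc
    refine this.congr_fun (fun X _ => ?_) hKc.measurableSet
    simp only [Pi.mul_apply]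
    ring
  have I2 : Integrable (fun X : E3 => η ‖X‖ * (‖X‖ ^ 3)⁻¹) := by
    refine glob _ ((hc0.mul hi3x).integrableOn_compact hKc) fun X hX => by
      rw [hη0 X hX, zero_mul]
  have I3 : Integrable (fun X : E3 => (η ‖X‖ * ‖X‖⁻¹) * fx (A X) X (F X)) := by
    refine glob _ (hfxK.continuousOn_mul (hc0.mul hix) hKc) fun X hX => by
      rw [hη0 X hX, zero_mul, zero_mul]
  have I4 : Integrable (fun X : E3 => (deriv η ‖X‖ * Real.log ‖F X‖) * fx (A X) X (F X)) := by
    refine glob _ (hfxK.continuousOn_mul (hc1.mul hly) hKc) fun X hX => by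
      rw [hη1 X hX, zero_mul, zero_mul]
  have I5 : Integrable (fun X : E3 => (deriv η ‖X‖ * Real.log ‖X‖) * fx (A X) X (F X)) := by
    refine glob _ (hfxK.continuousOn_mul (hc1.mul hlx) hKc) fun X hX => by
      rw [hη1 X hX, zero_mul, zero_mul]
  -- the three formulas
  have hinv : ∀ r : ℝ, 0 < r → ContinuousAt (fun r : ℝ => r⁻¹) r := fun r hr =>
    continuousAt_inv₀ hr.ne'
  have hinv3 : ∀ r : ℝ, 0 < r → ContinuousAt (fun r : ℝ => (r ^ 3)⁻¹) r := fun r hr =>
    (continuousAt_id.pow 3).inv₀ (pow_ne_zero 3 hr.ne')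
  have hlog : ∀ r : ℝ, 0 < r → ContinuousAt Real.log r := fun r hr =>
    Real.continuousAt_log hr.ne'
  obtain ⟨u1, u2, u3⟩ := IDT_.mul_w r1 R hr1 η (fun r => r⁻¹) hη.continuous hηc hηs hinv
  obtain ⟨v1, v2, v3⟩ := IDT_.mul_w r1 R hr1 η (fun r => (r ^ 3)⁻¹) hη.continuous hηc hηs hinv3
  obtain ⟨w1, w2, w3⟩ := IDT_.mul_w r1 R hr1 (deriv η) Real.log (hη.continuous_deriv le_rfl)
    hηc.deriv (hdη.trans hηs) hlog
  have E3' := hflux _ u1 u2 u3
  have E5' := hflux _ w1 w2 w3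
  have E2' := hRINT _ r1 R hr1 v1 v2 v3
  have E2'' : (∫ r : ℝ, η r * (r ^ 3)⁻¹ * r ^ 2) = ∫ r : ℝ, η r * r⁻¹ := by
    refine integral_congr_ae (Eventually.of_forall fun r => ?_)
    by_cases hr : r = 0
    · simp [hr]
    · field_simp
  have hlogJ := IDT_.ibp_log r1 R hr1 η hη hηc hηs
  -- Piola identity
  obtain ⟨q1, q2, q3, q4⟩ := hRADF.1 η 0 r1 R hr1 hη hηc hηs
  obtain ⟨_, s2, s3⟩ := hRADF.2.1 0
  have hts : ∀ x ∈ tsupport (fun x : E3 => η ‖x - 0‖), r1 < ‖x‖ ∧ ‖x‖ < R := by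
    intro x hx
    have := q3 hx
    simpa using this
  have P := hPIOW (Metric.ball 0 R) F A Metric.isOpen_ball hFc hW
    (fun y : E3 => (Real.log ‖y - 0‖ * (‖y - 0‖ ^ 3)⁻¹) • (y - 0)) (fun x : E3 => η ‖x - 0‖)
    {0}ᶜ isOpen_compl_singleton s2 q1 q2
    (fun x hx => by rw [mem_ball_zero_iff]; exact (hts x hx).2)
    (fun x hx => hFne x (hts x hx).1 (hts x hx).2)
  have P1 : (∫ x, cpair (A x) ((fun y : E3 => (Real.log ‖y - 0‖ * (‖y - 0‖ ^ 3)⁻¹) • (y - 0)) (F x))
      (gradv (fun x : E3 => η ‖x - 0‖) x))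
      = ∫ X : E3, (deriv η ‖X‖ * Real.log ‖F X‖) * fx (A X) X (F X) := by
    refine integral_congr_ae (Eventually.of_forall fun X => ?_)
    simp only [q4]
    simp only [sub_zero]
    unfold fx
    rw [IDT_.cpair_smul_right, mul_smul, IDT_.cpair_smul_left]
    ring
  have P2 : (∫ x, (fun x : E3 => η ‖x - 0‖) x * ((A x).det
      * divv (fun y : E3 => (Real.log ‖y - 0‖ * (‖y - 0‖ ^ 3)⁻¹) • (y - 0)) (F x)))
      = ∫ X : E3, η ‖X‖ * ((A X).det * (‖F X‖ ^ 3)⁻¹) := by
    refine integral_congr_ae (Eventually.of_forall fun X => ?_)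
    by_cases hX : X ∈ K
    · simp only [(s3 (F X) (hF0 X hX)).2]
      simp only [sub_zero]
    · have h0 := hη0 X hX
      simp only [sub_zero, h0, zero_mul]
  rw [P1, P2] at P
  -- left side
  have L1 : (∫ X, η ‖X‖ * (dfc (A X) X (F X) / ‖X‖ ^ 3))
      = (2 / 3) * (∫ X : E3, η ‖X‖ * ((A X).det * (‖F X‖ ^ 3)⁻¹))
        + (2 / 3) * (∫ X : E3, η ‖X‖ * (‖X‖ ^ 3)⁻¹)
        - ∫ X : E3, (η ‖X‖ * ‖X‖⁻¹) * fx (A X) X (F X) := by
    have I12 : Integrable (fun X : E3 => (2 / 3) * (η ‖X‖ * ((A X).det * (‖F X‖ ^ 3)⁻¹))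
        + (2 / 3) * (η ‖X‖ * (‖X‖ ^ 3)⁻¹)) := (I1.const_mul _).add (I2.const_mul _)
    rw [← integral_const_mul, ← integral_const_mul, ← integral_add (I1.const_mul _)
      (I2.const_mul _), ← integral_sub I12 I3]
    refine integral_congr_ae (Eventually.of_forall fun X => ?_)
    by_cases hX : X ∈ K
    · simp only
      rw [IDT_.dfc_formula _ _ _ (hX0 X hX) (hF0 X hX)]
      ring
    · have h0 := hη0 X hX
      simp only [h0, zero_mul, mul_zero, add_zero, sub_zero]
  have R1 : (∫ X, deriv η ‖X‖ * fx (A X) X (F X) * Real.log (‖F X‖ / ‖X‖))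
      = (∫ X : E3, (deriv η ‖X‖ * Real.log ‖F X‖) * fx (A X) X (F X))
        - ∫ X : E3, (deriv η ‖X‖ * Real.log ‖X‖) * fx (A X) X (F X) := by
    rw [← integral_sub I4 I5]
    refine integral_congr_ae (Eventually.of_forall fun X => ?_)
    by_cases hX : X ∈ K
    · simp only
      rw [Real.log_div (hny X hX) (hnx X hX)]
      ring
    · have h0 := hη1 X hX
      simp only [h0, zero_mul, sub_zero]
  rw [L1, R1, E2', E2'', E3', E5', hlogJ, P]
  ring

end Pool.Mart
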