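import Pool.Agent.Work.MP_680515_an.IfaceU

/-!
# MP_680515_an: block IMP
-/

open MeasureTheory Set Filter Topology Complex

namespace Pool.Mart.IMP_

/-- The shifted parameter stays in the range. -/
theorem range_ok (t : ℝ) (ht : t ∈ Icc (0 : ℝ) 1) (n k : ℕ) (i : ℤ)
    (hi : i ∈ IX k) : t + i * sc (n + k) ∈ Icc (-9 : ℝ) 10 := by
  unfold IX at hi
  rw [Finset.mem_Icc] at hi
  have h1 : (-(8 * 2 ^ k) : ℝ) ≤ i := by exact_mod_cast hi.1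
  have h2 : (i : ℝ) ≤ 8 * 2 ^ k := by exact_mod_cast hi.2
  have hs : sc (n + k) * 2 ^ k ≤ 1 := by
    have h3 : sc (n + k) * 2 ^ k = sc n := by
      unfold sc
      rw [pow_add, mul_assoc, ← mul_pow]
      norm_num
    rw [h3]
    unfold sc
    exact pow_le_one₀ (by norm_num) (by norm_num)
  have hs0 : 0 < sc (n + k) := by unfold sc; positivity
  constructor
  · have : (-(8 * 2 ^ k) : ℝ) * sc (n + k) ≤ i * sc (n + k) := by gcongr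
    nlinarith [ht.1]
  · have : (i : ℝ) * sc (n + k) ≤ 8 * 2 ^ k * sc (n + k) := by gcongr
    nlinarith [ht.2]

end Pool.Mart.IMP_

namespace Pool.Mart

open IMP_

theorem stmt_IMP (hSPV : Stmt_SPV) (hIMP1 : Stmt_IMP1) (hIMP2 : Stmt_IMP2) (hIMP3 : Stmt_IMP3) :
    Stmt_IMP := by
  obtain ⟨C, hC, hS⟩ := hSPV
  refine ⟨4 * C, by positivity, ?_⟩
  intro k0 k1 hk0 hk01 hk1
  have hk1a : 1 ≤ k1 := by
    rcases Nat.eq_zero_or_pos k1 with h | h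
    · subst h; norm_num at hk1
    · exact h
  have hk1b : k1 ≤ k0 := by
    by_contra hcon
    push Not at hcon
    have h1 : (2 : ℝ)⁻¹ ^ k1 ≤ (2 : ℝ)⁻¹ ^ (k0 + 1) :=
      pow_le_pow_of_le_one (by norm_num) (by norm_num) hcon
    have h2 : 0 < (2 : ℝ)⁻¹ ^ (k0 + 1) := by positivity
    linarith
  obtain ⟨D1, κ1, hD1, hκ1, h1⟩ := hIMP1 k0
  obtain ⟨D2, κ2, hD2, hκ2, h2⟩ := hIMP2 k0 k1 hk1a hk1b
  obtain ⟨D3, κ3, hD3, hκ3, h3⟩ := hIMP3 k0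
  obtain ⟨h, hh⟩ : ∃ h : ℝ, h = (2 : ℝ)⁻¹ ^ k1 := ⟨_, rfl⟩
  rw [← hh] at hk01 hk1
  have hh0 : 0 < h := by rw [hh]; positivity
  obtain ⟨E8, hE8⟩ : ∃ E8 : ℝ, E8 = ∑ k ∈ Finset.Icc 3 k0, (8 : ℝ)⁻¹ ^ k * ∑ _i ∈ IX k, (1 : ℝ) :=
    ⟨_, rfl⟩
  obtain ⟨E2, hE2⟩ : ∃ E2 : ℝ, E2 = ∑ k ∈ Finset.Icc 3 k0, (2 : ℝ)⁻¹ ^ k * ∑ _i ∈ IX k, (1 : ℝ) :=
    ⟨_, rfl⟩
  obtain ⟨w, hw⟩ : ∃ w : ℝ, w = (2 : ℝ)⁻¹ ^ k0 := ⟨_, rfl⟩
  obtain ⟨v8, hv8⟩ : ∃ v8 : ℝ, v8 = (8 : ℝ) ^ k1 := ⟨_, rfl⟩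
  have hw0 : 0 < w := by rw [hw]; positivity
  have hv80 : 0 < v8 := by rw [hv8]; positivity
  have hE80 : 0 ≤ E8 := by
    rw [hE8]
    apply Finset.sum_nonneg
    intro k _
    have : 0 ≤ ∑ _i ∈ IX k, (1 : ℝ) := Finset.sum_nonneg fun _ _ => zero_le_one
    positivity
  have hE20 : 0 ≤ E2 := by
    rw [hE2]
    apply Finset.sum_nonneg
    intro k _
    have : 0 ≤ ∑ _i ∈ IX k, (1 : ℝ) := Finset.sum_nonneg fun _ _ => zero_le_one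
    positivity
  have hA : 0 ≤ 2 * v8 * C * (h ^ 4 * D1 * E8 + w * D1 * E2) := by positivity
  have hB : 0 ≤ 2 * v8 * C * h * D3 := by positivity
  refine ⟨2 * v8 * C * (h ^ 4 * D1 * E8 + w * D1 * E2) + D2 + 2 * v8 * C * h * D3,
    min κ1 (min κ2 κ3), by linarith, lt_min hκ1 (lt_min hκ2 hκ3), ?_⟩
  intro ε Ω f A γ O O' pa pb dt hε hεκ hΩ hq hi hP hdt t ht n hn
  have hε1 : ε ≤ κ1 := hεκ.trans (min_le_left _ _)
  have hε2 : ε ≤ κ2 := hεκ.trans ((min_le_right _ _).trans (min_le_left _ _))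
  have hε3 : ε ≤ κ3 := hεκ.trans ((min_le_right _ _).trans (min_le_right _ _))
  have H1 := h1 ε Ω f A γ O O' hε.le hε1 hΩ hq hi hP t ht n hn
  have H2 := h2 ε Ω f A γ O O' hε.le hε2 hΩ hq hi hP t ht n hn
  obtain ⟨hcont, hint, hDD0, hDD1, hWB⟩ := h3 ε Ω f A γ O O' hε.le hε3 hΩ hq hi hP t ht n
  set V := vv (nF f γ O O' t n) with hV
  set DDs : ℝ := DD (rs k0) (nF f γ O O' t n) (nA f A γ O O' t n)
          + DD (rs k0) (nF f γ O O' (t + sc n) n) (nA f A γ O O' (t + sc n) n) with hDDs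
  have hDDs0 : 0 ≤ DDs := add_nonneg hDD0 hDD1
  set S : ℝ := Real.sqrt ε * SS f γ O O' k0 t n with hSdef
  have hS0 : 0 ≤ S := by
    rw [hSdef]
    apply mul_nonneg (Real.sqrt_nonneg _)
    unfold SS
    apply Finset.sum_nonneg
    intro j _
    apply Finset.sum_nonneg
    intro i _
    unfold XX Dv dev rad
    positivity
  have hch : ∀ (k : ℕ) (i : ℤ), ∃ a1 b1 : Fin 5 → ℝ, k ∈ Finset.Icc 3 k0 → i ∈ IX k →
      8 ^ k * (∫ ζ in BB k i, ‖V ζ - aff a1 b1 ζ‖)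
        ≤ 2 * dt (t + i * sc (n + k)) (n + k) + D1 * S := by
    intro k i
    by_cases hk : k ∈ Finset.Icc 3 k0
    · by_cases hi' : i ∈ IX k
      · obtain ⟨a1, b1, hab⟩ := H1 k hk i hi' (pa (t + i * sc (n + k)) (n + k))
          (pb (t + i * sc (n + k)) (n + k)) (dt (t + i * sc (n + k)) (n + k))
          (hdt _ (range_ok t ht n k i hi') _)
        refine ⟨a1, b1, fun _ _ => ?_⟩
        rw [hSdef, ← mul_assoc]
        exact hab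
      · exact ⟨0, 0, fun _ h => absurd h hi'⟩
    · exact ⟨0, 0, fun h => absurd h hk⟩
  choose a b hab using hch
  have ht9 : t ∈ Icc (-9 : ℝ) 10 := ⟨by linarith [ht.1], by linarith [ht.2]⟩
  have hdt0 : 0 ≤ dt t n :=
    (integral_nonneg fun ζ => norm_nonneg _).trans (hdt t ht9 n)
  obtain ⟨a1, b1, hab1⟩ := hS k0 h (D3 * DDs) V a b
    (fun k i => 2 * dt (t + i * sc (n + k)) (n + k) + D1 * S) (pa t n) (pb t n) (dt t n)
    hk0 hk01 hk1 (by positivity) hcont hint hWB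
    (fun k hk i hi' => hab k i hk hi') (hdt t ht9 n)
  have H3 := H2 a1 b1
  rw [← hh, ← hv8] at H3
  rw [mul_assoc D2, ← hSdef] at H3
  -- the sums
  have hsum : ∀ r : ℝ, ∑ k ∈ Finset.Icc 3 k0, r ^ k * ∑ i ∈ IX k,
      (2 * dt (t + i * sc (n + k)) (n + k) + D1 * S)
      = 2 * (∑ k ∈ Finset.Icc 3 k0, r ^ k * ∑ i ∈ IX k, dt (t + i * sc (n + k)) (n + k))
        + D1 * S * ∑ k ∈ Finset.Icc 3 k0, r ^ k * ∑ _i ∈ IX k, (1 : ℝ) := by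
    intro r
    rw [Finset.mul_sum, Finset.mul_sum, ← Finset.sum_add_distrib]
    apply Finset.sum_congr rfl
    intro k _
    rw [Finset.sum_add_distrib, ← Finset.mul_sum, Finset.sum_const, Finset.sum_const]
    simp only [nsmul_eq_mul]
    ring
  rw [hsum, hsum, ← hE8, ← hE2, ← hw] at hab1
  set S8 : ℝ := ∑ k ∈ Finset.Icc 3 k0, (8 : ℝ)⁻¹ ^ k *
    ∑ i ∈ IX k, dt (t + i * sc (n + k)) (n + k) with hS8
  set S2 : ℝ := ∑ k ∈ Finset.Icc 3 k0, (2 : ℝ)⁻¹ ^ k *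
    ∑ i ∈ IX k, dt (t + i * sc (n + k)) (n + k) with hS2
  have h8 : v8 * h ^ 4 = h := by
    rw [hv8, hh, ← pow_mul, mul_comm k1 4, pow_mul, ← mul_pow]
    norm_num
  have h4 : 2 * v8 * (∫ ζ in Qh h, ‖V ζ - aff a1 b1 ζ‖) ≤ 2 * v8 * (C * (
      h ^ 4 * (dt t n + (2 * S8 + D1 * S * E8))
      + w * (dt t n + (2 * S2 + D1 * S * E2)) + h * (D3 * DDs))) := by
    gcongr
  have h5 : dd (nF f γ O O' t (n + k1)) ≤ 2 * v8 * (C * (
      h ^ 4 * (dt t n + (2 * S8 + D1 * S * E8))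
      + w * (dt t n + (2 * S2 + D1 * S * E2)) + h * (D3 * DDs))) + D2 * S := by
    linarith
  have h6 : 2 * v8 * (C * (
      h ^ 4 * (dt t n + (2 * S8 + D1 * S * E8))
      + w * (dt t n + (2 * S2 + D1 * S * E2)) + h * (D3 * DDs)))
      = 2 * C * (v8 * h ^ 4) * (dt t n + 2 * S8)
        + 2 * C * (v8 * w) * (dt t n + 2 * S2)
        + 2 * v8 * C * (h ^ 4 * D1 * E8 + w * D1 * E2) * S
        + 2 * v8 * C * h * D3 * DDs := by ring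
  rw [h6, h8] at h5
  have h7 : 2 * C * h * (dt t n + 2 * S8) ≤ 4 * C * (h * (dt t n + S8)) := by
    have : 0 ≤ C * h * dt t n := by positivity
    nlinarith
  have h9 : 2 * C * (v8 * w) * (dt t n + 2 * S2)
      ≤ 4 * C * (v8 * w * (dt t n + S2)) := by
    have : 0 ≤ C * (v8 * w) * dt t n := by positivity
    nlinarith
  rw [← hh, ← hv8, ← hw]
  rw [mul_assoc (2 * v8 * C * (h ^ 4 * D1 * E8 + w * D1 * E2) + D2
    + 2 * v8 * C * h * D3) (Real.sqrt ε), ← hSdef]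
  have h10 : 0 ≤ 2 * v8 * C * (h ^ 4 * D1 * E8 + w * D1 * E2) * DDs :=
    mul_nonneg hA hDDs0
  have h11 : 0 ≤ 2 * v8 * C * h * D3 * S := mul_nonneg hB hS0
  have h12 : 0 ≤ D2 * DDs := by positivity
  linarith

end Pool.Mart
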