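import Pool.Agent.Work.MP_680515_an.IfaceU

open MeasureTheory Set Filter Topology Complex

namespace Pool.Mart

namespace IMP1_

theorem QQ_open : IsOpen QQ := by
  have : QQ = {ζ : ℂ | 1 / 8 < ζ.re} ∩ ({ζ : ℂ | ζ.re < 9} ∩ {ζ : ℂ | |ζ.im| < 9}) := rfl
  rw [this]
  exact (isOpen_lt continuous_const continuous_re).inter
    ((isOpen_lt continuous_re continuous_const).inter
      (isOpen_lt (continuous_abs.comp continuous_im) continuous_const))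

theorem QQ_sub_EE : QQ ⊆ EE := by
  intro ζ hζ
  exact ⟨by linarith [hζ.1], by linarith [hζ.2.1], by linarith [hζ.2.2]⟩

/-- common preparation for the two transfers -/
theorem prep (hTRF : Stmt_TRF) (hSUBP : Stmt_SUBP) (hRENS : Stmt_RENS) (hETA : Stmt_ETA)
    (hNRM : Stmt_NRM) (k0 : ℕ) : ∃ C κ : ℝ, 0 < C ∧ 0 < κ ∧
    ∀ (ε : ℝ) (Ω : Set E3) (f : E3 → E3) (A : E3 → M3) (γ : ℝ → E3) (O O' : ℝ → ℕ → M3),
      0 ≤ ε → ε ≤ κ → IsOpen Ω → QReg Ω f A → InnerDist Ω A 2 → Pack ε Ω f γ O O' →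
    ∀ t ∈ Icc (0 : ℝ) 1, ∀ n : ℕ, 1 ≤ n → ∀ k ∈ Finset.Icc 1 k0, ∀ i : ℤ, |i| ≤ 8 * 2 ^ k →
      0 ≤ SS f γ O O' k0 t n ∧
      Nm ε (nF f γ O O' t n) (nA f A γ O O' t n) ∧
      Nm ε (nF f γ O O' (t + i * sc (n + k)) (n + k)) (nA f A γ O O' (t + i * sc (n + k)) (n + k)) ∧
      ∃ z lam : ℝ, |z - i * (2 : ℝ)⁻¹ ^ k| ≤ (2 : ℝ)⁻¹ ^ k / 8 ∧
        |lam - (2 : ℝ)⁻¹ ^ k| ≤ (2 : ℝ)⁻¹ ^ k / 8 ∧
        (∀ a2 b2 : Fin 5 → ℝ, ∃ a1 b1 : Fin 5 → ℝ,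
          ∫ ζ in (fun ζ : ℂ => (z : ℂ) * I + (lam : ℂ) * ζ) '' QQ,
            ‖vv (nF f γ O O' t n) ζ - aff a1 b1 ζ‖
          ≤ lam ^ 3 * (∫ ζ in QQ, ‖vv (nF f γ O O' (t + i * sc (n + k)) (n + k)) ζ - aff a2 b2 ζ‖)
            + C * Real.sqrt ε * SS f γ O O' k0 t n) ∧
        (∀ a1 b1 : Fin 5 → ℝ, ∃ a2 b2 : Fin 5 → ℝ,
          lam ^ 3 * (∫ ζ in QQ, ‖vv (nF f γ O O' (t + i * sc (n + k)) (n + k)) ζ - aff a2 b2 ζ‖)
          ≤ (∫ ζ in (fun ζ : ℂ => (z : ℂ) * I + (lam : ℂ) * ζ) '' QQ,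
              ‖vv (nF f γ O O' t n) ζ - aff a1 b1 ζ‖) + C * Real.sqrt ε * SS f γ O O' k0 t n) := by
  have hlm0 : (0 : ℝ) < (2 : ℝ)⁻¹ ^ (k0 + 1) := by positivity
  have hlm1 : (2 : ℝ)⁻¹ ^ (k0 + 1) ≤ 1 / 2 := by
    rw [pow_succ]
    have : (2 : ℝ)⁻¹ ^ k0 ≤ 1 := pow_le_one₀ (by norm_num) (by norm_num)
    linarith
  obtain ⟨CT, κT, hCT, hκT, hTRF⟩ := hTRF _ hlm0 hlm1
  obtain ⟨Cs, κs, hCs, hκs, hSUBP⟩ := hSUBP k0
  have hρ0 : (0 : ℝ) < (2 : ℝ)⁻¹ ^ (k0 + 1) / 64 := by positivity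
  have hρ1 : (2 : ℝ)⁻¹ ^ (k0 + 1) / 64 ≤ 1 := by linarith
  obtain ⟨Cη, κη, hCη, hκη, hETA⟩ := hETA _ hρ0 hρ1
  have hp0 : (0 : ℝ) < (2 : ℝ)⁻¹ ^ k0 := by positivity
  set κ : ℝ := min (min (min κT κs) (min κη (κT / Cs ^ 2)))
    (min ((2 : ℝ)⁻¹ ^ k0 / (8 * Cs)) (1 / 1024)) with hκ
  have hκp : 0 < κ := by
    rw [hκ]
    exact lt_min (lt_min (lt_min hκT hκs) (lt_min hκη (by positivity)))
      (lt_min (by positivity) (by norm_num))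
  refine ⟨CT * (1 + Cs ^ 2 + Cη) * Cs, κ, by positivity, hκp, ?_⟩
  intro ε Ω f A γ O O' hε0 hε hΩ hQ hID hP t ht n hn k hk i hi
  have l1 : ε ≤ κT := hε.trans ((min_le_left _ _).trans ((min_le_left _ _).trans (min_le_left _ _)))
  have l2 : ε ≤ κs := hε.trans ((min_le_left _ _).trans ((min_le_left _ _).trans (min_le_right _ _)))
  have l3 : ε ≤ κη := hε.trans ((min_le_left _ _).trans ((min_le_right _ _).trans (min_le_left _ _)))
  have l4 : ε ≤ κT / Cs ^ 2 :=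
    hε.trans ((min_le_left _ _).trans ((min_le_right _ _).trans (min_le_right _ _)))
  have l5 : ε ≤ (2 : ℝ)⁻¹ ^ k0 / (8 * Cs) := hε.trans ((min_le_right _ _).trans (min_le_left _ _))
  have l6 : ε ≤ 1 / 1024 := hε.trans ((min_le_right _ _).trans (min_le_right _ _))
  have l5' : Cs * ε ≤ (2 : ℝ)⁻¹ ^ k0 / 8 := by
    rw [le_div_iff₀ (by positivity)] at l5
    linarith
  have l4' : Cs ^ 2 * ε ≤ κT := by
    rw [le_div_iff₀ (by positivity)] at l4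
    linarith
  have hkk := Finset.mem_Icc.1 hk
  have hpk : (2 : ℝ)⁻¹ ^ k0 ≤ (2 : ℝ)⁻¹ ^ k :=
    pow_le_pow_of_le_one (by norm_num) (by norm_num) hkk.2
  -- positions of the parameters
  have hscp : ∀ m : ℕ, 0 < sc m := fun m => by unfold sc; positivity
  have hsc1 : ∀ m : ℕ, sc m ≤ 1 := fun m => pow_le_one₀ (by norm_num) (by norm_num)
  have ht20 : t ∈ Icc (-20 : ℝ) 20 := ⟨by linarith [ht.1], by linarith [ht.2]⟩
  have hisc : |(i : ℝ) * sc (n + k)| ≤ 8 := by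
    have e1 : (2 : ℝ) ^ k * sc k = 1 := by unfold sc; rw [← mul_pow]; norm_num
    have e2 : sc (n + k) = sc n * sc k := pow_add _ _ _
    have hi' : |(i : ℝ)| ≤ 8 * 2 ^ k := by exact_mod_cast hi
    rw [abs_mul, abs_of_pos (hscp _), e2]
    have h1 : |(i : ℝ)| * (sc n * sc k) ≤ (8 * 2 ^ k) * (sc n * sc k) :=
      mul_le_mul_of_nonneg_right hi' (mul_nonneg (hscp _).le (hscp _).le)
    have h2 : (8 * 2 ^ k) * (sc n * sc k) = 8 * sc n := by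
      calc (8 * 2 ^ k) * (sc n * sc k) = 8 * sc n * ((2 : ℝ) ^ k * sc k) := by ring
        _ = 8 * sc n := by rw [e1, mul_one]
    linarith [hsc1 n]
  have hab := abs_le.1 hisc
  have ht' : t + i * sc (n + k) ∈ Icc (-20 : ℝ) 20 :=
    ⟨by linarith [ht.1, hab.1], by linarith [ht.2, hab.2]⟩
  obtain ⟨hSub, hx0, hlam, hSS0, hSS1, -⟩ := hSUBP ε Ω f γ O O' hε0 l2 hP t ht n hn k hk i hi
  have hN1 := (hNRM ε Ω f A γ O O' 2 hΩ hQ hID le_rfl hP t ht20 n).1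
  have hN2 := (hNRM ε Ω f A γ O O' 2 hΩ hQ hID le_rfl hP (t + i * sc (n + k)) ht' (n + k)).1
  have hη := hETA ε Ω f A γ O O' hε0 l3 hΩ hQ hID hP t
    ⟨by linarith [ht.1], by linarith [ht.2]⟩ n
  have hR := hRENS ε Ω f γ O O' hε0 l6 hP t ht20 n (t + i * sc (n + k)) ht' (n + k)
  simp only at hR
  have hren := hR.2.2.1
  refine ⟨hSS0, hN1, hN2, ?_⟩
  set x0 := nX γ O t n (γ (t + i * sc (n + k))) with hx0d
  set x1 := nX γ O t n (γ (t + i * sc (n + k) + sc (n + k))) with hx1d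
  have hm0 : 0 ≤ Cs * SS f γ O O' k0 t n := mul_nonneg hCs.le hSS0
  have hmε : Cs * SS f γ O O' k0 t n ≤ Cs ^ 2 * ε := by
    have := mul_le_mul_of_nonneg_left hSS1 hCs.le
    nlinarith
  have hT := hTRF ε (Cs * SS f γ O O' k0 t n) (Cη * Real.sqrt ε) (nF f γ O O' t n)
    (nA f A γ O O' t n) x0 x1 _ _ hε0 l1 hm0 (hmε.trans l4') hN1 hSub hη QQ
    QQ_open.measurableSet QQ_sub_EE
  have hfun : vv (ren (nF f γ O O' t n) x0 x1 ((O t n).transpose * O (t + i * sc (n + k)) (n + k))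
      ((O' t n).transpose * O' (t + i * sc (n + k)) (n + k)))
      = vv (nF f γ O O' (t + i * sc (n + k)) (n + k)) := by
    congr 1; funext Y; exact hren Y
  rw [hfun] at hT
  have hs0 : 0 ≤ Real.sqrt ε := Real.sqrt_nonneg _
  have hεs : ε ≤ Real.sqrt ε := by
    have h9 : ε ≤ 1 := by linarith
    have h10 : Real.sqrt ε ≤ 1 := by simpa using Real.sqrt_le_sqrt h9
    have h11 := Real.mul_self_sqrt hε0
    nlinarith
  have herr : CT * (ε + Cs * SS f γ O O' k0 t n + Cη * Real.sqrt ε) * (Cs * SS f γ O O' k0 t n)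
      ≤ CT * (1 + Cs ^ 2 + Cη) * Cs * Real.sqrt ε * SS f γ O O' k0 t n := by
    have h1 : ε + Cs * SS f γ O O' k0 t n + Cη * Real.sqrt ε
        ≤ (1 + Cs ^ 2 + Cη) * Real.sqrt ε := by
      have := mul_le_mul_of_nonneg_left hεs (sq_nonneg Cs)
      nlinarith
    calc CT * (ε + Cs * SS f γ O O' k0 t n + Cη * Real.sqrt ε) * (Cs * SS f γ O O' k0 t n)
        ≤ CT * ((1 + Cs ^ 2 + Cη) * Real.sqrt ε) * (Cs * SS f γ O O' k0 t n) :=
          mul_le_mul_of_nonneg_right (mul_le_mul_of_nonneg_left h1 hCT.le) hm0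
      _ = _ := by ring
  refine ⟨x0 2, ‖x1 - x0‖, ?_, ?_, ?_, ?_⟩
  · have h1 : |(x0 - (i * (2 : ℝ)⁻¹ ^ k) • e3) 2| ≤ ‖x0 - (i * (2 : ℝ)⁻¹ ^ k) • e3‖ := by
      have := PiLp.norm_apply_le (x0 - (i * (2 : ℝ)⁻¹ ^ k) • e3) 2
      simpa using this
    have h2 : (x0 - (i * (2 : ℝ)⁻¹ ^ k) • e3) 2 = x0 2 - i * (2 : ℝ)⁻¹ ^ k := by
      simp [e3]
    rw [h2] at h1
    linarith
  · linarith
  · intro a2 b2
    obtain ⟨a1, b1, h⟩ := hT.1 a2 b2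
    exact ⟨a1, b1, h.trans (by linarith)⟩
  · intro a1 b1
    obtain ⟨a2, b2, h⟩ := hT.2 a1 b1
    exact ⟨a2, b2, h.trans (by linarith)⟩

/-- integrability of the difference on a bounded region away from the axis -/
theorem diff_int (hVCO : Stmt_VCO) {ε ρ : ℝ} {F : E3 → E3} {A : E3 → M3} (hε : 0 ≤ ε)
    (hN : Nm ε F A) (hρ : 0 < ρ) {E : Set ℂ} (hE : E ⊆ HD ρ) (a b : Fin 5 → ℝ) :
    IntegrableOn (fun ζ => vv F ζ - aff a b ζ) E := by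
  obtain ⟨-, -, hI, -⟩ := hVCO ε F A hε hN
  have h1 : IntegrableOn (vv F) E := (hI ρ hρ).mono_set hE
  have hc : Continuous (aff a b) := by
    unfold aff
    refine (PiLp.continuous_toLp 2 (fun _ : Fin 5 => ℂ)).comp (continuous_pi fun k => ?_)
    exact continuous_const.add (continuous_const.mul (continuous_const.mul continuous_id))
  have h2 : IntegrableOn (aff a b) E := by
    have : IntegrableOn (aff a b) (Metric.closedBall (0 : ℂ) 20) :=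
      hc.continuousOn.integrableOn_compact (isCompact_closedBall _ _)
    refine this.mono_set fun ζ hζ => ?_
    have := (hE hζ).2
    rw [mem_closedBall_zero_iff]; exact this.le
  exact h1.sub h2

theorem norm_le_of {ζ : ℂ} {a b : ℝ} (h1 : |ζ.re| ≤ a) (h2 : |ζ.im| ≤ b) : ‖ζ‖ ≤ a + b :=
  (Complex.norm_le_abs_re_add_abs_im ζ).trans (add_le_add h1 h2)

end IMP1_

open IMP1_

theorem stmt_IMP1 (hTRF : Stmt_TRF) (hSUBP : Stmt_SUBP) (hRENS : Stmt_RENS) (hETA : Stmt_ETA)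
    (hNRM : Stmt_NRM) (hVCO : Stmt_VCO) : Stmt_IMP1 := by
  intro k0
  obtain ⟨C, κ, hC, hκ, hprep⟩ := prep hTRF hSUBP hRENS hETA hNRM k0
  refine ⟨8 ^ k0 * C, κ, by positivity, hκ, ?_⟩
  intro ε Ω f A γ O O' hε0 hε hΩ hQ hID hP t ht n hn k hk i hi a2 b2 δ hδ
  have hkk := Finset.mem_Icc.1 hk
  have hi' : |i| ≤ 8 * 2 ^ k := by
    have := Finset.mem_Icc.1 hi
    exact abs_le.2 ⟨this.1, this.2⟩
  obtain ⟨hSS, hN1, hN2, z, lam, hz, hlam, h1, -⟩ := hprep ε Ω f A γ O O' hε0 hε hΩ hQ hID hP t ht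
    n hn k (Finset.mem_Icc.2 ⟨by omega, hkk.2⟩) i hi'
  obtain ⟨a1, b1, h1⟩ := h1 a2 b2
  refine ⟨a1, b1, ?_⟩
  set p : ℝ := (2 : ℝ)⁻¹ ^ k with hp
  have hp0 : 0 < p := by positivity
  have hp8 : p ≤ 1 / 8 := by
    have : p ≤ (2 : ℝ)⁻¹ ^ 3 := pow_le_pow_of_le_one (by norm_num) (by norm_num) hkk.1
    norm_num at this; linarith
  have hz' := abs_le.1 hz
  have hl' := abs_le.1 hlam
  have hlam0 : 0 < lam := by linarith [hl'.1]
  have hip : |(i : ℝ) * p| ≤ 8 := by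
    have h2 : |(i : ℝ)| ≤ 8 * 2 ^ k := by exact_mod_cast hi'
    have h3 : (2 : ℝ) ^ k * p = 1 := by rw [hp, ← mul_pow]; norm_num
    rw [abs_mul, abs_of_pos hp0]
    have := mul_le_mul_of_nonneg_right h2 hp0.le
    nlinarith
  have hip' := abs_le.1 hip
  -- inclusions
  have hBB : BB k i ⊆ (fun ζ : ℂ => (z : ℂ) * I + (lam : ℂ) * ζ) '' QQ := by
    intro ζ hζ
    obtain ⟨c1, c2, c3⟩ := hζ
    rw [← hp] at c2 c3
    have c1' : p / 4 < ζ.re := by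
      have : (2 : ℝ)⁻¹ ^ (k + 2) = p / 4 := by rw [pow_add, hp]; norm_num; ring
      linarith
    have c3' := abs_lt.1 c3
    refine ⟨((ζ.re / lam : ℝ) : ℂ) + (((ζ.im - z) / lam : ℝ) : ℂ) * I, ⟨?_, ?_, ?_⟩, ?_⟩
    · have : ((((ζ.re / lam : ℝ) : ℂ) + (((ζ.im - z) / lam : ℝ) : ℂ) * I)).re = ζ.re / lam := by simp
      rw [this, lt_div_iff₀ hlam0]; linarith [hl'.2]
    · have : ((((ζ.re / lam : ℝ) : ℂ) + (((ζ.im - z) / lam : ℝ) : ℂ) * I)).re = ζ.re / lam := by simp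
      rw [this, div_lt_iff₀ hlam0]; linarith [hl'.1]
    · have : ((((ζ.re / lam : ℝ) : ℂ) + (((ζ.im - z) / lam : ℝ) : ℂ) * I)).im = (ζ.im - z) / lam := by
        simp
      rw [this, abs_lt]
      constructor
      · rw [lt_div_iff₀ hlam0]; linarith [hl'.1, hz'.1, hz'.2, c3'.1]
      · rw [div_lt_iff₀ hlam0]; linarith [hl'.1, hz'.1, hz'.2, c3'.2]
    · apply Complex.ext
      · simp; field_simp
      · simp; field_simp; ring
  have himg : (fun ζ : ℂ => (z : ℂ) * I + (lam : ℂ) * ζ) '' QQ ⊆ HD (lam / 8) := by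
    rintro _ ⟨ζ, ⟨c1, c2, c3⟩, rfl⟩
    have c3' := abs_lt.1 c3
    have er : ((z : ℂ) * I + (lam : ℂ) * ζ).re = lam * ζ.re := by simp
    have ei : ((z : ℂ) * I + (lam : ℂ) * ζ).im = z + lam * ζ.im := by simp
    refine ⟨?_, ?_⟩
    · rw [er]; nlinarith
    · have b1' : |((z : ℂ) * I + (lam : ℂ) * ζ).re| ≤ 2 := by
        rw [er, abs_of_pos (mul_pos hlam0 (by linarith))]
        nlinarith [hl'.2]
      have b2' : |((z : ℂ) * I + (lam : ℂ) * ζ).im| ≤ 12 := by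
        rw [ei, abs_le]
        constructor <;> nlinarith [hl'.2, hz'.1, hz'.2, hip'.1, hip'.2,
          mul_pos hlam0 (by linarith : (0:ℝ) < ζ.im + 9), mul_pos hlam0 (by linarith : (0:ℝ) < 9 - ζ.im)]
      have := norm_le_of b1' b2'
      show ‖(z : ℂ) * I + (lam : ℂ) * ζ‖ < 20
      linarith
  have hint := diff_int hVCO hε0 hN1 (by positivity : 0 < lam / 8) himg a1 b1
  have hmono : ∫ ζ in BB k i, ‖vv (nF f γ O O' t n) ζ - aff a1 b1 ζ‖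
      ≤ ∫ ζ in (fun ζ : ℂ => (z : ℂ) * I + (lam : ℂ) * ζ) '' QQ,
        ‖vv (nF f γ O O' t n) ζ - aff a1 b1 ζ‖ :=
    setIntegral_mono_set hint.norm (Eventually.of_forall fun _ => norm_nonneg _)
      (show BB k i ≤ᵐ[(volume : Measure ℂ)] _ from ae_of_all _ hBB)
  have hδ0 : 0 ≤ δ := (integral_nonneg fun _ => norm_nonneg _).trans hδ
  have h8p : (8 : ℝ) ^ k * lam ^ 3 ≤ 2 := by
    have e1 : (8 : ℝ) ^ k * p ^ 3 = 1 := by
      rw [hp, ← pow_mul, mul_comm k 3, pow_mul, ← mul_pow]; norm_num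
    have e2 : lam ^ 3 ≤ (9 / 8 * p) ^ 3 := pow_le_pow_left₀ hlam0.le (by linarith [hl'.2]) 3
    have e3' : (0 : ℝ) < 8 ^ k := by positivity
    calc (8 : ℝ) ^ k * lam ^ 3 ≤ 8 ^ k * (9 / 8 * p) ^ 3 := mul_le_mul_of_nonneg_left e2 e3'.le
      _ = (9 / 8) ^ 3 * (8 ^ k * p ^ 3) := by ring
      _ ≤ 2 := by rw [e1]; norm_num
  have h8k : (8 : ℝ) ^ k ≤ 8 ^ k0 := pow_le_pow_right₀ (by norm_num) hkk.2
  have hE0 : 0 ≤ C * Real.sqrt ε * SS f γ O O' k0 t n :=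
    mul_nonneg (mul_nonneg hC.le (Real.sqrt_nonneg _)) hSS
  have hl3 : 0 ≤ lam ^ 3 := by positivity
  calc 8 ^ k * (∫ ζ in BB k i, ‖vv (nF f γ O O' t n) ζ - aff a1 b1 ζ‖)
      ≤ 8 ^ k * (lam ^ 3 * δ + C * Real.sqrt ε * SS f γ O O' k0 t n) := by
        refine mul_le_mul_of_nonneg_left (hmono.trans (h1.trans ?_)) (by positivity)
        have := mul_le_mul_of_nonneg_left hδ hl3
        linarith
    _ = (8 ^ k * lam ^ 3) * δ + 8 ^ k * (C * Real.sqrt ε * SS f γ O O' k0 t n) := by ring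
    _ ≤ 2 * δ + 8 ^ k0 * (C * Real.sqrt ε * SS f γ O O' k0 t n) :=
        add_le_add (mul_le_mul_of_nonneg_right h8p hδ0) (mul_le_mul_of_nonneg_right h8k hE0)
    _ = _ := by ring

end Pool.Mart
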