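import Pool.Agent.Work.MP_680515_an.B.IMP1

open MeasureTheory Set Filter Topology Complex

namespace Pool.Mart

open IMP1_

theorem stmt_IMP2 (hTRF : Stmt_TRF) (hSUBP : Stmt_SUBP) (hRENS : Stmt_RENS) (hETA : Stmt_ETA)
    (hNRM : Stmt_NRM) (hVCO : Stmt_VCO) (hVBD : Stmt_VBD) : Stmt_IMP2 := by
  intro k0 k1 hk1 hk10
  obtain ⟨C, κ, hC, hκ, hprep⟩ := prep hTRF hSUBP hRENS hETA hNRM k0
  obtain ⟨Cv, κv, hCv, hκv, hVBD⟩ := hVBD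
  refine ⟨2 * 8 ^ k1 * C, min κ κv, by positivity, lt_min hκ hκv, ?_⟩
  intro ε Ω f A γ O O' hε0 hε hΩ hQ hID hP t ht n hn a1 b1
  obtain ⟨hSS, hN1, hN2, z, lam, hz, hlam, -, h2⟩ := hprep ε Ω f A γ O O' hε0
    (hε.trans (min_le_left _ _)) hΩ hQ hID hP t ht n hn k1 (Finset.mem_Icc.2 ⟨hk1, hk10⟩) 0
    (by simp)
  simp only [Int.cast_zero, zero_mul, add_zero, sub_zero] at hN2 hz h2
  obtain ⟨a2, b2, h2⟩ := h2 a1 b1
  set p : ℝ := (2 : ℝ)⁻¹ ^ k1 with hp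
  have hp0 : 0 < p := by positivity
  have hp2 : p ≤ 1 / 2 := by
    have : p ≤ (2 : ℝ)⁻¹ ^ 1 := pow_le_pow_of_le_one (by norm_num) (by norm_num) hk1
    norm_num at this; linarith
  have hz' := abs_le.1 hz
  have hl' := abs_le.1 hlam
  have hlam0 : 0 < lam := by linarith [hl'.1]
  have hD := ((hVBD ε _ _ hε0 (hε.trans (min_le_right _ _)) hN2).1 a2 b2).2
  -- inclusions
  have himg : (fun ζ : ℂ => (z : ℂ) * I + (lam : ℂ) * ζ) '' QQ ⊆ Qh p := by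
    rintro _ ⟨ζ, ⟨c1, c2, c3⟩, rfl⟩
    have c3' := abs_lt.1 c3
    have er : ((z : ℂ) * I + (lam : ℂ) * ζ).re = lam * ζ.re := by simp
    have ei : ((z : ℂ) * I + (lam : ℂ) * ζ).im = z + lam * ζ.im := by simp
    refine ⟨?_, ?_, ?_⟩
    · rw [er]; nlinarith [hl'.1]
    · rw [er]; nlinarith [hl'.2]
    · rw [ei, abs_lt]
      constructor <;> nlinarith [hl'.2, hz'.1, hz'.2,
          mul_pos hlam0 (by linarith : (0:ℝ) < ζ.im + 9), mul_pos hlam0 (by linarith : (0:ℝ) < 9 - ζ.im)]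
  have hQh : Qh p ⊆ HD (p / 16) := by
    rintro ζ ⟨c1, c2, c3⟩
    refine ⟨c1, ?_⟩
    have h3 : ‖ζ‖ ^ 2 < 20 ^ 2 := by
      rw [Complex.sq_norm, Complex.normSq_apply]
      have c3' := abs_lt.1 c3
      have e1 : ζ.re * ζ.re ≤ 8 * 8 := by nlinarith
      have e2 : ζ.im * ζ.im ≤ 8 * 8 := by nlinarith
      linarith
    exact lt_of_pow_lt_pow_left₀ 2 (by norm_num) h3
  have hint := diff_int hVCO hε0 hN1 (by positivity : 0 < p / 16) hQh a1 b1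
  have hmono : ∫ ζ in (fun ζ : ℂ => (z : ℂ) * I + (lam : ℂ) * ζ) '' QQ,
        ‖vv (nF f γ O O' t n) ζ - aff a1 b1 ζ‖
      ≤ ∫ ζ in Qh p, ‖vv (nF f γ O O' t n) ζ - aff a1 b1 ζ‖ :=
    setIntegral_mono_set hint.norm (Eventually.of_forall fun _ => norm_nonneg _)
      (show (fun ζ : ℂ => (z : ℂ) * I + (lam : ℂ) * ζ) '' QQ ≤ᵐ[(volume : Measure ℂ)] Qh p
        from ae_of_all _ himg)
  have h8p : 1 ≤ 2 * (8 : ℝ) ^ k1 * lam ^ 3 := by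
    have e1 : (8 : ℝ) ^ k1 * p ^ 3 = 1 := by
      rw [hp, ← pow_mul, mul_comm k1 3, pow_mul, ← mul_pow]; norm_num
    have e2 : (7 / 8 * p) ^ 3 ≤ lam ^ 3 := pow_le_pow_left₀ (by positivity) (by linarith [hl'.1]) 3
    have e3' : (0 : ℝ) < 8 ^ k1 := by positivity
    calc (1 : ℝ) ≤ 2 * (7 / 8) ^ 3 * ((8 : ℝ) ^ k1 * p ^ 3) := by rw [e1]; norm_num
      _ = 2 * 8 ^ k1 * (7 / 8 * p) ^ 3 := by ring
      _ ≤ 2 * 8 ^ k1 * lam ^ 3 := mul_le_mul_of_nonneg_left e2 (by positivity)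
  set J : ℝ := ∫ ζ in QQ, ‖vv (nF f γ O O' t (n + k1)) ζ - aff a2 b2 ζ‖ with hJ
  have hJ0 : 0 ≤ J := integral_nonneg fun _ => norm_nonneg _
  have h8k : (0 : ℝ) < 8 ^ k1 := by positivity
  calc dd (nF f γ O O' t (n + k1)) ≤ J := hD
    _ ≤ (2 * (8 : ℝ) ^ k1 * lam ^ 3) * J := by nlinarith
    _ = 2 * (8 : ℝ) ^ k1 * (lam ^ 3 * J) := by ring
    _ ≤ 2 * (8 : ℝ) ^ k1 * ((∫ ζ in Qh p, ‖vv (nF f γ O O' t n) ζ - aff a1 b1 ζ‖)
        + C * Real.sqrt ε * SS f γ O O' k0 t n) :=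
        mul_le_mul_of_nonneg_left (h2.trans (by linarith)) (by positivity)
    _ = _ := by ring

end Pool.Mart
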