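import Pool.Agent.Work.MP_680515_an.IfaceU

/-!
# MP_680515_an, block IMP3: weak Cauchy-Riemann inequality for the systems of a package
-/

open MeasureTheory Set Filter Topology Complex

namespace Pool.Mart

theorem stmt_IMP3 (hWDB : Stmt_WDB) (hDTR : Stmt_DTR) (hDLI : Stmt_DLI) (hVCO : Stmt_VCO)
    (hNRM : Stmt_NRM) (hDSM : Stmt_DSM) : Stmt_IMP3 := by
  intro k0
  have hrs : 0 < rs k0 := by unfold rs; positivity
  have hρ : (0 : ℝ) < (2 : ℝ)⁻¹ ^ (k0 + 3) := by positivity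
  have hρ1 : (2 : ℝ)⁻¹ ^ (k0 + 3) ≤ 1 := pow_le_one₀ (by norm_num) (by norm_num)
  have hrel : rs k0 = (2 : ℝ)⁻¹ ^ (k0 + 3) / 64 := by
    unfold rs
    rw [show k0 + 9 = (k0 + 3) + 6 by ring, pow_add]
    norm_num
    ring
  set ρ := (2 : ℝ)⁻¹ ^ (k0 + 3) with hρdef
  have hrs1 : rs k0 ≤ 1 / 64 := by rw [hrel]; linarith
  obtain ⟨CW, hCW, hW⟩ := hWDB ρ hρ hρ1
  obtain ⟨CD, hCD, hD⟩ := hDTR (2 * rs k0) (by linarith) (by linarith)
  obtain ⟨CS, hCS, hS⟩ := hDSM (rs k0) hrs (by linarith)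
  refine ⟨CW * CD, rs k0 / 1024, by positivity, by positivity, ?_⟩
  intro ε Ω f A γ O O' hε0 hε hΩ hQ hI hP t ht n
  have hsc0 : 0 ≤ sc n := by unfold sc; positivity
  have hsc1 : sc n ≤ 1 := by
    unfold sc
    exact pow_le_one₀ (by norm_num) (by norm_num)
  have ht1 : t ∈ Icc (-20 : ℝ) 20 := ⟨by linarith [ht.1], by linarith [ht.2]⟩
  have ht19 : t ∈ Icc (-19 : ℝ) 19 := ⟨by linarith [ht.1], by linarith [ht.2]⟩
  have ht2 : t + sc n ∈ Icc (-20 : ℝ) 20 := ⟨by linarith [ht.1], by linarith [ht.2]⟩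
  have hN1 := (hNRM ε Ω f A γ O O' 2 hΩ hQ hI le_rfl hP t ht1 n).1
  have hN2 := (hNRM ε Ω f A γ O O' 2 hΩ hQ hI le_rfl hP (t + sc n) ht2 n).1
  have hV := hVCO ε _ _ hε0 hN1
  have h3 := (hS ε _ _ hε0 (by linarith) hN1).1
  have h4 := (hS ε _ _ hε0 (by linarith) hN2).1
  refine ⟨hV.1.mono ?_, hV.2.2.1 ρ hρ, h3, h4, ?_⟩
  · intro ζ hζ
    exact ⟨le_trans hρ.le hζ.1.le, lt_trans hζ.2 (by norm_num)⟩
  intro k ψ hψ1 hψ2 hψ3 B hB
  have hB0 : 0 ≤ B := le_trans (norm_nonneg _) (hB 0)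
  have h1 := hW ε _ _ hε0 (by linarith) hN1 k ψ hψ1 hψ2 hψ3 B hB
  refine le_trans h1 (mul_le_mul_of_nonneg_right ?_ hB0)
  rw [mul_assoc]
  refine mul_le_mul_of_nonneg_left ?_ hCW.le
  have h2 := (hD ε Ω f A γ O O' hε0 (by linarith) hΩ hQ hI hP t ht19 n).2
  have h5 := hDLI (2 * rs k0) ε _ _ (by linarith) (by linarith) hε0 (by linarith) hN1
  have hmono : ∫ X in RG ρ, dl (nF f γ O O' t n) (nA f A γ O O' t n) X
      ≤ ∫ X in RG (2 * rs k0), dl (nF f γ O O' t n) (nA f A γ O O' t n) X := by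
    refine setIntegral_mono_set h5.1 h5.2.1 (Eventually.of_forall ?_)
    intro X hX
    exact ⟨by have := hX.1; rw [hrel]; linarith, hX.2⟩
  refine le_trans hmono (le_trans h2 (le_of_eq ?_))
  rw [show 2 * rs k0 / 2 = rs k0 by ring]

end Pool.Mart
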