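import Pool.Agent.Work.MP_680515_an.IfaceH

open MeasureTheory Set Filter Topology Complex

namespace Pool.Mart

namespace INJS_

theorem act_eq (A : M3) (v : E3) : act A v = Matrix.toEuclideanLin A v := by
  simp [act, Matrix.toLpLin_apply]

theorem act_sub (A : M3) (v w : E3) : act A (v - w) = act A v - act A w := by
  simp only [act_eq, map_sub]

theorem norm_act {O : M3} (hO : O ∈ Matrix.specialOrthogonalGroup (Fin 3) ℝ) (v : E3) :
    ‖act O v‖ = ‖v‖ := by
  have h : ‖act O v‖ ^ 2 = ‖v‖ ^ 2 := by
    rw [EuclideanSpace.real_norm_sq_eq, EuclideanSpace.real_norm_sq_eq]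
    have h1 : ∑ i, (act O v) i ^ 2 = dotProduct (O.mulVec v.ofLp) (O.mulVec v.ofLp) := by
      simp only [dotProduct, act, sq]
    have h2 : ∑ i, v i ^ 2 = dotProduct v.ofLp v.ofLp := by
      simp only [dotProduct, sq]
    have h3 := (Matrix.mem_orthogonalGroup_iff' (Fin 3) ℝ).mp
      (Matrix.mem_specialOrthogonalGroup_iff.mp hO).1
    have h4 : O.transpose * O = 1 := h3
    rw [h1, h2, Matrix.dotProduct_mulVec, Matrix.vecMul_mulVec, h4, Matrix.vecMul_one]
  exact (pow_left_inj₀ (norm_nonneg _) (norm_nonneg _) two_ne_zero).1 h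

end INJS_

open INJS_ in
theorem stmt_INJS : Stmt_INJS := by
  intro ε g x r0 he0 he1 hNS p hp q hq hpq
  by_contra hne
  rw [Metric.mem_ball] at hp hq
  have hr0 : 0 < r0 := by
    have := dist_nonneg (x := p) (y := x)
    linarith
  have hd0 : 0 < dist p q := dist_pos.mpr hne
  have hd1 : dist p q < r0 / 2 := by
    have := dist_triangle_right p q x
    linarith
  obtain ⟨lam, O, b, hS⟩ := hNS p (Metric.mem_ball.mpr (by linarith)) (2 * dist p q)
    (by linarith) (by linarith)
  have h1 := hS.ap p (Metric.mem_ball_self (by linarith))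
  have h2 := hS.ap q (Metric.mem_ball.mpr (by rw [dist_comm]; linarith))
  have h3 : ‖lam • act O (p - q)‖ = lam * dist p q := by
    rw [norm_smul, norm_act hS.so, Real.norm_eq_abs, abs_of_pos hS.pos, dist_eq_norm]
  have h4 : lam • act O (p - q)
      = (g q - (lam • act O q + b)) - (g p - (lam • act O p + b)) := by
    rw [act_sub, smul_sub, hpq]
    abel
  have h5 : lam * dist p q ≤ ε * lam * (2 * dist p q) + ε * lam * (2 * dist p q) := by
    rw [← h3, h4]
    exact (norm_sub_le _ _).trans (add_le_add h2 h1)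
  have h6 : 0 < lam * dist p q := mul_pos hS.pos hd0
  nlinarith

end Pool.Mart
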