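import Pool.Agent.Work.MP_680515_an.IfaceS

/-! MP_680515_an, part S, block KB1 (helper50): bounds of the kernel `k = C g + C g*`. -/

open MeasureTheory Set Filter Topology Complex

namespace Pool.Mart

namespace KB1_

theorem lint_ball (R : ℝ) (hR : 0 < R) :
    ∫⁻ w in Metric.ball (0:ℂ) R, ENNReal.ofReal (1 / ‖w‖) ≤ ENNReal.ofReal (2 * Real.pi * R) := by
  rw [← lintegral_indicator Metric.isOpen_ball.measurableSet,
    ← Complex.lintegral_comp_polarCoord_symm]
  have h1 : ∀ p ∈ polarCoord.target, ENNReal.ofReal p.1 • (Metric.ball (0:ℂ) R).indicator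
      (fun w => ENNReal.ofReal (1 / ‖w‖)) (Complex.polarCoord.symm p) ≤
      (Ioo (0:ℝ) R ×ˢ Ioo (-Real.pi) Real.pi).indicator (fun _ => 1) p := by
    intro p hp
    rw [polarCoord_target] at hp
    have hp1 : 0 < p.1 := hp.1
    have hn : ‖Complex.polarCoord.symm p‖ = p.1 := by
      rw [Complex.norm_polarCoord_symm, abs_of_pos hp1]
    by_cases hpR : p.1 < R
    · rw [indicator_of_mem (show p ∈ Ioo (0:ℝ) R ×ˢ Ioo (-Real.pi) Real.pi from
        ⟨⟨hp1, hpR⟩, hp.2⟩)]
      rw [indicator_of_mem (by rw [mem_ball_zero_iff, hn]; exact hpR), hn, smul_eq_mul,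
        ← ENNReal.ofReal_mul hp1.le, mul_one_div_cancel hp1.ne', ENNReal.ofReal_one]
    · rw [indicator_of_notMem (by rw [mem_ball_zero_iff, hn]; exact hpR), smul_zero]
      exact zero_le
  have hm : MeasurableSet (Ioo (0:ℝ) R ×ˢ Ioo (-Real.pi) Real.pi) :=
    measurableSet_Ioo.prod measurableSet_Ioo
  calc ∫⁻ p in polarCoord.target, ENNReal.ofReal p.1 • (Metric.ball (0:ℂ) R).indicator
          (fun w => ENNReal.ofReal (1 / ‖w‖)) (Complex.polarCoord.symm p)
      ≤ ∫⁻ p in polarCoord.target,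
        (Ioo (0:ℝ) R ×ˢ Ioo (-Real.pi) Real.pi).indicator (fun _ => (1 : ENNReal)) p :=
        setLIntegral_mono' polarCoord.open_target.measurableSet h1
    _ ≤ ∫⁻ p, (Ioo (0:ℝ) R ×ˢ Ioo (-Real.pi) Real.pi).indicator (fun _ => (1 : ENNReal)) p :=
        setLIntegral_le_lintegral _ _
    _ = volume (Ioo (0:ℝ) R ×ˢ Ioo (-Real.pi) Real.pi) := by
        rw [lintegral_indicator hm]
        simp
    _ ≤ ENNReal.ofReal (2 * Real.pi * R) := by
        rw [Measure.volume_eq_prod, Measure.prod_prod, Real.volume_Ioo, Real.volume_Ioo,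
          ← ENNReal.ofReal_mul (by linarith)]
        apply ENNReal.ofReal_le_ofReal
        linarith

theorem lint_shift (ζ : ℂ) (R : ℝ) (hR : 0 < R) :
    ∫⁻ w, (Metric.ball ζ R).indicator (fun w => ENNReal.ofReal (1 / ‖ζ - w‖)) w ≤
      ENNReal.ofReal (2 * Real.pi * R) := by
  have h1 : ∀ w, (Metric.ball ζ R).indicator (fun w => ENNReal.ofReal (1 / ‖ζ - w‖)) w =
      (Metric.ball (0:ℂ) R).indicator (fun w => ENNReal.ofReal (1 / ‖w‖)) (ζ - w) := by
    intro w
    by_cases hw : w ∈ Metric.ball ζ R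
    · rw [indicator_of_mem hw, indicator_of_mem]
      rw [mem_ball_zero_iff]
      rwa [mem_ball_iff_norm'] at hw
    · rw [indicator_of_notMem hw, indicator_of_notMem]
      rw [mem_ball_zero_iff]
      rwa [mem_ball_iff_norm'] at hw
  simp_rw [h1]
  rw [lintegral_sub_left_eq_self
    (fun w => (Metric.ball (0:ℂ) R).indicator (fun w => ENNReal.ofReal (1 / ‖w‖)) w) ζ,
    lintegral_indicator Metric.isOpen_ball.measurableSet]
  exact lint_ball R hR

theorem Qh_sub {h : ℝ} (hh : 0 < h) : Qh h ⊆ Metric.closedBall 0 (32 * h) := by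
  intro w hw
  obtain ⟨h1, h2, h3⟩ := hw
  rw [mem_closedBall_zero_iff]
  refine (Complex.norm_le_abs_re_add_abs_im w).trans ?_
  rw [abs_of_pos (by linarith)]
  linarith

theorem vol_ball {h : ℝ} (hh : 0 < h) :
    volume (Metric.closedBall (0:ℂ) (32 * h)) = ENNReal.ofReal (1024 * Real.pi * h ^ 2) := by
  rw [Complex.volume_closedBall, ← ENNReal.ofReal_pow (by linarith)]
  have h1 : (NNReal.pi : ENNReal) = ENNReal.ofReal Real.pi := by
    rw [← ENNReal.ofReal_coe_nnreal, NNReal.coe_real_pi]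
  rw [h1, ← ENNReal.ofReal_mul (by positivity)]
  congr 1
  ring

theorem supp_mem {h : ℝ} {g : ℂ → ℂ} (hT : TF h g) {w : ℂ} (hw : w ∉ Qh h) : g w = 0 := by
  by_contra h0
  exact hw (hT.2.2.1 (subset_tsupport g h0))

theorem lint_cT {h : ℝ} (hh : 0 < h) {g : ℂ → ℂ} (hT : TF h g) (ζ : ℂ) :
    ∫⁻ w, ENNReal.ofReal ‖g w / (ζ - w)‖ ≤ ENNReal.ofReal (1026 * Real.pi * h) := by
  have h1 : ∀ w, ENNReal.ofReal ‖g w / (ζ - w)‖ ≤
      (Metric.ball ζ h).indicator (fun w => ENNReal.ofReal (1 / ‖ζ - w‖)) w +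
      (Metric.closedBall (0:ℂ) (32 * h)).indicator (fun _ => ENNReal.ofReal (1 / h)) w := by
    intro w
    by_cases hw : w ∈ Qh h
    · have h2 : ‖g w / (ζ - w)‖ ≤ 1 / ‖ζ - w‖ := by
        rw [norm_div]
        exact div_le_div_of_nonneg_right (hT.2.2.2 w) (norm_nonneg _)
      rw [indicator_of_mem (Qh_sub hh hw)]
      by_cases hb : w ∈ Metric.ball ζ h
      · rw [indicator_of_mem hb]
        exact (ENNReal.ofReal_le_ofReal h2).trans le_self_add
      · rw [indicator_of_notMem hb, zero_add]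
        refine ENNReal.ofReal_le_ofReal (h2.trans ?_)
        rw [mem_ball_iff_norm', not_lt] at hb
        exact one_div_le_one_div_of_le hh hb
    · rw [supp_mem hT hw, zero_div, norm_zero, ENNReal.ofReal_zero]
      exact zero_le
  calc ∫⁻ w, ENNReal.ofReal ‖g w / (ζ - w)‖
      ≤ ∫⁻ w, ((Metric.ball ζ h).indicator (fun w => ENNReal.ofReal (1 / ‖ζ - w‖)) w +
      (Metric.closedBall (0:ℂ) (32 * h)).indicator (fun _ => ENNReal.ofReal (1 / h)) w) :=
        lintegral_mono h1
    _ = (∫⁻ w, (Metric.ball ζ h).indicator (fun w => ENNReal.ofReal (1 / ‖ζ - w‖)) w) +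
      ∫⁻ w, (Metric.closedBall (0:ℂ) (32 * h)).indicator (fun _ => ENNReal.ofReal (1 / h)) w :=
        lintegral_add_right _ (measurable_const.indicator Metric.isClosed_closedBall.measurableSet)
    _ ≤ ENNReal.ofReal (2 * Real.pi * h) + ENNReal.ofReal (1024 * Real.pi * h) := by
        refine add_le_add (lint_shift ζ h hh) ?_
        rw [lintegral_indicator Metric.isClosed_closedBall.measurableSet, setLIntegral_const,
          vol_ball hh, ← ENNReal.ofReal_mul (by positivity)]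
        apply ENNReal.ofReal_le_ofReal
        have : 1 / h * (1024 * Real.pi * h ^ 2) = 1024 * Real.pi * h := by
          field_simp
        rw [this]
    _ = ENNReal.ofReal (1026 * Real.pi * h) := by
        rw [← ENNReal.ofReal_add (by positivity) (by positivity)]
        congr 1
        ring

theorem integrable_cT {h : ℝ} (hh : 0 < h) {g : ℂ → ℂ} (hT : TF h g) (ζ : ℂ) :
    Integrable (fun w => g w / (ζ - w)) := by
  have hm : Measurable (fun w => g w / (ζ - w)) :=
    (hT.1.continuous.measurable).div (measurable_const.sub measurable_id)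
  refine ⟨hm.aestronglyMeasurable, ?_⟩
  rw [hasFiniteIntegral_iff_norm]
  exact (lint_cT hh hT ζ).trans_lt ENNReal.ofReal_lt_top

theorem norm_cT {h : ℝ} (hh : 0 < h) {g : ℂ → ℂ} (hT : TF h g) (ζ : ℂ) :
    ‖cT g ζ‖ ≤ 1026 * h := by
  have h1 : ‖∫ w, g w / (ζ - w)‖ ≤ 1026 * Real.pi * h := by
    refine (norm_integral_le_lintegral_norm _).trans ?_
    refine ENNReal.toReal_le_of_le_ofReal (by positivity) (lint_cT hh hT ζ)
  rw [cT, norm_mul]
  have h2 : ‖((Real.pi⁻¹ : ℝ) : ℂ)‖ = Real.pi⁻¹ := by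
    rw [Complex.norm_real, Real.norm_of_nonneg (by positivity)]
  rw [h2]
  calc Real.pi⁻¹ * ‖∫ w, g w / (ζ - w)‖ ≤ Real.pi⁻¹ * (1026 * Real.pi * h) :=
        mul_le_mul_of_nonneg_left h1 (by positivity)
    _ = 1026 * h := by
        field_simp

/-- integral of a function supported in `Qh h` -/
theorem norm_int_le {f : ℂ → ℂ} {h B : ℝ} (hh : 0 < h) (hB : 0 ≤ B)
    (hf : ∀ w, w ∉ Qh h → f w = 0) (hb : ∀ w ∈ Qh h, ‖f w‖ ≤ B) :
    ‖∫ w, f w‖ ≤ B * (1024 * Real.pi * h ^ 2) := by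
  have h1 : ∫ w, f w = ∫ w in Metric.closedBall (0:ℂ) (32 * h), f w := by
    refine (setIntegral_eq_integral_of_forall_compl_eq_zero fun w hw => ?_).symm
    exact hf w fun h' => hw (Qh_sub hh h')
  rw [h1]
  refine (norm_setIntegral_le_of_norm_le_const (C := B) ?_ fun w _ => ?_).trans ?_
  · rw [vol_ball hh]; exact ENNReal.ofReal_lt_top
  · by_cases hw : w ∈ Qh h
    · exact hb w hw
    · rw [hf w hw, norm_zero]; exact hB
  · rw [Measure.real, vol_ball hh, ENNReal.toReal_ofReal (by positivity)]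

end KB1_

open KB1_ in
theorem stmt_KB1 (hRFL : Stmt_RFL) : Stmt_KB1 := by
  refine ⟨2 * 1024 ^ 2, by norm_num, fun h g hh _ hT => ⟨fun ζ => ?_, fun ζ h0 h1 => ?_⟩⟩
  · obtain ⟨-, -, -, hr, -⟩ := hRFL g hT.1 hT.2.1
    rw [kk, hr]
    have h2 := norm_cT hh hT ζ
    have h3 := norm_cT hh hT (-(starRingEnd ℂ) ζ)
    refine (norm_add_le _ _).trans ?_
    rw [norm_neg, RCLike.norm_conj]
    linarith
  · obtain ⟨-, -, -, hr, -⟩ := hRFL g hT.1 hT.2.1
    rw [kk, hr]
    set ζ' := -(starRingEnd ℂ) ζ with hζ'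
    have hre : (cT g ζ + -(starRingEnd ℂ) (cT g ζ')).re = (cT g ζ - cT g ζ').re := by
      simp [sub_eq_add_neg]
    rw [hre]
    refine (Complex.abs_re_le_norm _).trans ?_
    have hz : ζ' - ζ = -((2 * ζ.re : ℝ) : ℂ) := by
      rw [hζ']
      apply Complex.ext
      · simp; ring
      · simp
    have hz're : ζ'.re = -ζ.re := by rw [hζ']; simp
    have hd : cT g ζ - cT g ζ' = ((Real.pi)⁻¹ : ℝ) *
        ∫ w, (g w / (ζ - w) - g w / (ζ' - w)) := by
      rw [integral_sub (integrable_cT hh hT ζ) (integrable_cT hh hT ζ'), cT, cT]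
      ring
    have hdist : ∀ w ∈ Qh h, h / 32 ≤ ‖ζ - w‖ ∧ h / 32 ≤ ‖ζ' - w‖ := by
      intro w hw
      have h2 : h / 16 < w.re := hw.1
      constructor
      · refine le_trans ?_ (Complex.abs_re_le_norm _)
        rw [Complex.sub_re, abs_sub_comm, abs_of_nonneg (by linarith)]
        linarith
      · refine le_trans ?_ (Complex.abs_re_le_norm _)
        rw [Complex.sub_re, hz're, abs_sub_comm, abs_of_nonneg (by linarith)]
        linarith
    have hint := norm_int_le (f := fun w => g w / (ζ - w) - g w / (ζ' - w))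
      (B := 2 * ζ.re * (1024 / h ^ 2)) hh (by positivity)
      (fun w hw => by simp [supp_mem hT hw]) (fun w hw => by
        obtain ⟨h2, h3⟩ := hdist w hw
        have hp1 : 0 < ‖ζ - w‖ := by linarith [div_pos hh (by norm_num : (0:ℝ) < 32)]
        have hp2 : 0 < ‖ζ' - w‖ := by linarith [div_pos hh (by norm_num : (0:ℝ) < 32)]
        have hn1 : ζ - w ≠ 0 := norm_pos_iff.1 hp1
        have hn2 : ζ' - w ≠ 0 := norm_pos_iff.1 hp2
        have h4 : g w / (ζ - w) - g w / (ζ' - w) = g w * (ζ' - ζ) * (1 / ((ζ - w) * (ζ' - w))) := by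
          field_simp
          ring
        have h5 : ‖ζ' - ζ‖ = 2 * ζ.re := by
          rw [hz, norm_neg, Complex.norm_real, Real.norm_of_nonneg (by linarith)]
        rw [h4, norm_mul, norm_mul, h5, norm_div, norm_one, norm_mul]
        have h6 : ‖g w‖ * (2 * ζ.re) ≤ 1 * (2 * ζ.re) :=
          mul_le_mul_of_nonneg_right (hT.2.2.2 w) (by linarith)
        have h7 : 1 / (‖ζ - w‖ * ‖ζ' - w‖) ≤ 1 / ((h / 32) * (h / 32)) := by
          apply one_div_le_one_div_of_le (by positivity)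
          exact mul_le_mul h2 h3 (by positivity) hp1.le
        have h8 : 1 / ((h / 32) * (h / 32)) = 1024 / h ^ 2 := by
          field_simp
          norm_num
        rw [h8] at h7
        rw [one_mul] at h6
        exact mul_le_mul h6 h7 (by positivity) (by linarith))
    rw [hd, norm_mul, Complex.norm_real, Real.norm_of_nonneg (by positivity)]
    calc Real.pi⁻¹ * ‖∫ w, (g w / (ζ - w) - g w / (ζ' - w))‖
        ≤ Real.pi⁻¹ * (2 * ζ.re * (1024 / h ^ 2) * (1024 * Real.pi * h ^ 2)) :=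
          mul_le_mul_of_nonneg_left hint (by positivity)
      _ = 2 * 1024 ^ 2 * ζ.re := by
          field_simp

end Pool.Mart
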