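import Pool.Agent.Work.MP_680515_an.B.KB1

/-! MP_680515_an, part S, block KB2 (helper50): far field of the kernel `k = C g + C g*`. -/

open MeasureTheory Set Filter Topology Complex

namespace Pool.Mart

namespace KB2_

open KB1_

theorem far {h : ℝ} (hh : 0 < h) (hh' : h ≤ 1 / 128) {g : ℂ → ℂ} (hT : TF h g) (ζ : ℂ)
    (hζ : 4 ≤ ‖ζ‖) :
    ‖(∫ w, g w / (ζ - w)) - ((∫ w, g w) / ζ + (∫ w, w * g w) / ζ ^ 2)‖ ≤
      65536 * Real.pi * h ^ 4 := by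
  have hζ0 : ζ ≠ 0 := by
    rintro rfl
    rw [norm_zero] at hζ
    linarith
  have hi0 : Integrable g := hT.1.continuous.integrable_of_hasCompactSupport hT.2.1
  have hi1 : Integrable (fun w => w * g w) :=
    (continuous_id.mul hT.1.continuous).integrable_of_hasCompactSupport (hT.2.1.mul_left)
  have h1 : (∫ w, g w / (ζ - w)) - ((∫ w, g w) / ζ + (∫ w, w * g w) / ζ ^ 2) =
      ∫ w, (g w / (ζ - w) - (g w / ζ + w * g w / ζ ^ 2)) := by
    have hi2 : Integrable (fun w => g w / ζ + w * g w / ζ ^ 2) :=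
      (hi0.div_const ζ).add (hi1.div_const (ζ ^ 2))
    rw [integral_sub (integrable_cT hh hT ζ) hi2,
      integral_add (hi0.div_const ζ) (hi1.div_const (ζ ^ 2)), integral_div, integral_div]
  rw [h1]
  refine (norm_int_le (B := 64 * h ^ 2) hh (by positivity) (fun w hw => ?_)
    (fun w hw => ?_)).trans ?_
  · simp [supp_mem hT hw]
  · have hw1 : ‖w‖ ≤ 32 * h := by
      have := Qh_sub hh hw
      rwa [mem_closedBall_zero_iff] at this
    have hw2 : 1 ≤ ‖ζ - w‖ := by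
      have := norm_sub_norm_le ζ w
      linarith
    have hn : ζ - w ≠ 0 := norm_pos_iff.1 (by linarith)
    have h2 : g w / (ζ - w) - (g w / ζ + w * g w / ζ ^ 2) = g w * w ^ 2 / (ζ ^ 2 * (ζ - w)) := by
      field_simp
      ring
    rw [h2, norm_div, norm_mul, norm_mul, norm_pow, norm_pow]
    have h3 : ‖g w‖ * ‖w‖ ^ 2 ≤ 1 * (32 * h) ^ 2 :=
      mul_le_mul (hT.2.2.2 w) (pow_le_pow_left₀ (norm_nonneg _) hw1 2) (by positivity) zero_le_one
    have h4 : 16 ≤ ‖ζ‖ ^ 2 * ‖ζ - w‖ := by nlinarith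
    rw [div_le_iff₀ (by linarith)]
    nlinarith [sq_nonneg h]
  · apply le_of_eq
    ring

end KB2_

open KB1_ KB2_ in
theorem stmt_KB2 (hRFL : Stmt_RFL) : Stmt_KB2 := by
  refine ⟨131072, by norm_num, fun h g hh hh' hT ζ hζ => ?_⟩
  obtain ⟨-, -, -, hr, -⟩ := hRFL g hT.1 hT.2.1
  rw [kk, hr]
  set ζ' := -(starRingEnd ℂ) ζ with hζ'
  have hζ0 : ζ ≠ 0 := by
    rintro rfl
    rw [norm_zero] at hζ
    linarith
  have hn' : ‖ζ'‖ = ‖ζ‖ := by rw [hζ', norm_neg, RCLike.norm_conj]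
  have hc : (starRingEnd ℂ) ζ' = -ζ := by rw [hζ']; simp
  set m0 := ∫ w, g w with hm0
  set m1 := ∫ w, w * g w with hm1
  have hE := far hh hh' hT ζ hζ
  have hE' := far hh hh' hT ζ' (by rw [hn']; exact hζ)
  rw [← hm0, ← hm1] at hE hE'
  set E := (∫ w, g w / (ζ - w)) - (m0 / ζ + m1 / ζ ^ 2) with hEd
  set E' := (∫ w, g w / (ζ' - w)) - (m0 / ζ' + m1 / ζ' ^ 2) with hEd'
  have h1 : cT g ζ = ((Real.pi)⁻¹ : ℝ) * (m0 / ζ + m1 / ζ ^ 2 + E) := by
    rw [cT, hEd]; ring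
  have h2 : cT g ζ' = ((Real.pi)⁻¹ : ℝ) * (m0 / ζ' + m1 / ζ' ^ 2 + E') := by
    rw [cT, hEd']; ring
  have h3 : (starRingEnd ℂ) (cT g ζ') = ((Real.pi)⁻¹ : ℝ) *
      (-((starRingEnd ℂ) m0 / ζ) + (starRingEnd ℂ) m1 / ζ ^ 2 + (starRingEnd ℂ) E') := by
    rw [h2, map_mul, map_add, map_add, map_div₀, map_div₀, map_pow, hc, Complex.conj_ofReal,
      neg_sq, div_neg]
  have h4 : m0 + (starRingEnd ℂ) m0 = 2 * (m0.re : ℂ) := by
    rw [Complex.add_conj]; push_cast; ring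
  have h5 : m1 - (starRingEnd ℂ) m1 = 2 * (I * (m1.im : ℂ)) := by
    rw [Complex.sub_conj]; push_cast; ring
  have h6 : cT g ζ + -(starRingEnd ℂ) (cT g ζ') - ((2 / Real.pi : ℝ) : ℂ) *
      ((m0.re : ℂ) / ζ + I * (m1.im : ℂ) / ζ ^ 2) =
      ((Real.pi)⁻¹ : ℝ) * (E - (starRingEnd ℂ) E') := by
    have h7 : ((2 / Real.pi : ℝ) : ℂ) * ((m0.re : ℂ) / ζ + I * (m1.im : ℂ) / ζ ^ 2) =
        ((Real.pi)⁻¹ : ℝ) * ((m0 + (starRingEnd ℂ) m0) / ζ +
          (m1 - (starRingEnd ℂ) m1) / ζ ^ 2) := by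
      rw [h4, h5]
      push_cast
      ring
    rw [h7, h1, h3]
    ring
  rw [h6, norm_mul, Complex.norm_real, Real.norm_of_nonneg (by positivity)]
  have h8 : ‖E - (starRingEnd ℂ) E'‖ ≤ 65536 * Real.pi * h ^ 4 + 65536 * Real.pi * h ^ 4 := by
    refine (norm_sub_le _ _).trans ?_
    rw [RCLike.norm_conj]
    exact add_le_add hE hE'
  calc Real.pi⁻¹ * ‖E - (starRingEnd ℂ) E'‖
      ≤ Real.pi⁻¹ * (65536 * Real.pi * h ^ 4 + 65536 * Real.pi * h ^ 4) :=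
        mul_le_mul_of_nonneg_left h8 (by positivity)
    _ = 131072 * h ^ 4 := by
        field_simp
        norm_num

end Pool.Mart
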