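import Pool.Agent.Work.MP_680515_an.IfaceL

/-!
# MP_680515_an, block LIN4 (helper46)
-/

open MeasureTheory Set Filter Topology Complex

namespace Pool.Mart

namespace LIN4_

theorem act_smul (d : ℝ) (A : M3) (v : E3) : act (d • A) v = d • act A v := by
  unfold act
  rw [Matrix.smul_mulVec]
  rfl

theorem opn_nonneg (A : M3) : 0 ≤ opn A := norm_nonneg _

end LIN4_

open LIN4_ in
theorem stmt_LIN4 (hBAS : Stmt_BAS) : Stmt_LIN4 := by
  obtain ⟨h1, h2, -, -, -, h6, h7⟩ := hBAS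
  intro A K hK hA hN
  refine ⟨hN, ?_⟩
  have ha : 0 ≤ opn A := opn_nonneg A
  have hN0 : 0 ≤ opn (cofm A) := opn_nonneg _
  have hd0 : 0 ≤ A.det := by
    by_contra hlt
    push Not at hlt
    have h3 : 0 ≤ opn A ^ 3 := pow_nonneg ha 3
    have h4 : K * A.det < 0 := mul_neg_of_pos_of_neg (by linarith) hlt
    linarith
  rcases hd0.eq_or_lt with hd | hd
  · rw [← hd] at hA ⊢
    simpa using hA
  · have h8 : opn (A.det • A) ≤ opn (cofm A) ^ 2 := by
      rw [← h7]
      exact h6 (cofm A)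
    have h9 : opn A ≤ opn (A.det • A) / A.det := by
      refine h2 A _ (div_nonneg (opn_nonneg _) hd.le) ?_
      intro v
      have h10 := h1 (A.det • A) v
      rw [act_smul, norm_smul, Real.norm_of_nonneg hd.le] at h10
      rw [div_mul_eq_mul_div, le_div_iff₀ hd]
      linarith
    have h11 : A.det * opn A ≤ opn (cofm A) ^ 2 := by
      rw [le_div_iff₀ hd] at h9
      linarith
    have h12 : (A.det * opn A) ^ 3 ≤ (opn (cofm A) ^ 2) ^ 3 :=
      pow_le_pow_left₀ (mul_nonneg hd.le ha) h11 3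
    have h13 : (opn (cofm A) ^ 3) ^ 2 ≤ (2 * A.det ^ 2) ^ 2 :=
      pow_le_pow_left₀ (pow_nonneg hN0 3) hN 2
    have h14 : A.det ^ 3 * opn A ^ 3 ≤ A.det ^ 3 * (4 * A.det) := by
      calc A.det ^ 3 * opn A ^ 3 = (A.det * opn A) ^ 3 := by ring
        _ ≤ (opn (cofm A) ^ 2) ^ 3 := h12
        _ = (opn (cofm A) ^ 3) ^ 2 := by ring
        _ ≤ (2 * A.det ^ 2) ^ 2 := h13
        _ = A.det ^ 3 * (4 * A.det) := by ring
    exact le_of_mul_le_mul_left h14 (pow_pos hd 3)

end Pool.Mart
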