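import Pool.Agent.Work.MP_680515_an.IfaceM

open MeasureTheory Set Filter Topology Complex

namespace Pool.Mart

namespace LINE_

lemma nsq (v : E3) : ‖v‖ ^ 2 = v 0 ^ 2 + v 1 ^ 2 + v 2 ^ 2 := by
  rw [EuclideanSpace.norm_sq_eq, Fin.sum_univ_three]
  simp only [Real.norm_eq_abs, sq_abs]

lemma inn (v w : E3) : inner ℝ v w = v 0 * w 0 + v 1 * w 1 + v 2 * w 2 := by
  rw [PiLp.inner_apply, Fin.sum_univ_three]
  simp only [RCLike.inner_apply, conj_trivial]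
  ring

lemma coord2_le (v : E3) : |v 2| ≤ ‖v‖ := by
  refine abs_le_of_sq_le_sq ?_ (norm_nonneg v)
  rw [nsq]
  nlinarith [sq_nonneg (v 0), sq_nonneg (v 1)]

lemma rad_sq (v : E3) : rad v ^ 2 = v 0 ^ 2 + v 1 ^ 2 := by
  unfold rad
  rw [Real.sq_sqrt (by positivity)]

lemma rad_nonneg (v : E3) : 0 ≤ rad v := Real.sqrt_nonneg _

lemma rad_le (v : E3) : rad v ≤ ‖v‖ := by
  refine abs_le_of_sq_le_sq ?_ (norm_nonneg v) |> le_of_abs_le
  rw [nsq, rad_sq]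
  nlinarith [sq_nonneg (v 2)]

lemma rad0 (v : E3) : |v 0| ≤ rad v := by
  refine abs_le_of_sq_le_sq ?_ (rad_nonneg v)
  rw [rad_sq]
  nlinarith [sq_nonneg (v 1)]

lemma rad1 (v : E3) : |v 1| ≤ rad v := by
  refine abs_le_of_sq_le_sq ?_ (rad_nonneg v)
  rw [rad_sq]
  nlinarith [sq_nonneg (v 0)]

lemma mulb (a b x y : ℝ) (ha : |a| ≤ x) (hb : |b| ≤ y) : |a * b| ≤ x * y := by
  rw [abs_mul]
  exact mul_le_mul ha hb (abs_nonneg _) ((abs_nonneg _).trans ha)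

lemma core (ρ m q0 q1 q2 u0 u1 u2 W0 W1 W2 r T D : ℝ) (hρ : 0 < ρ) (hρ1 : ρ ≤ 1)
    (hm : 0 ≤ m) (hmκ : m ≤ ρ / 1000)
    (hu : u0 ^ 2 + u1 ^ 2 + u2 ^ 2 = 1) (hu2 : 0 < u2) (hu0 : |u0| ≤ m) (hu1 : |u1| ≤ m)
    (huu : u0 ^ 2 + u1 ^ 2 ≤ m ^ 2) (hq0 : |q0| ≤ m) (hq1 : |q1| ≤ m)
    (hW0 : |W0| ≤ r) (hW1 : |W1| ≤ r) (hr : ρ ≤ r) (hr2 : r ^ 2 = W0 ^ 2 + W1 ^ 2)
    (hr64 : r ≤ 64) (hh : |W2 - q2| ≤ 128)
    (hT : T = (W0 - q0) * u0 + (W1 - q1) * u1 + (W2 - q2) * u2) (hD0 : 0 ≤ D)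
    (hD : D ^ 2 = (W0 - q0 - T * u0) ^ 2 + (W1 - q1 - T * u1) ^ 2 + (W2 - q2 - T * u2) ^ 2) :
    |D - (r - ((W0 / r) * (q0 + (W2 - q2) * u0) + (W1 / r) * (q1 + (W2 - q2) * u1)))|
      ≤ 640000 / ρ * m ^ 2 ∧
    |T - ((W2 - q2) + (W0 * u0 + W1 * u1))| ≤ 640000 / ρ * m ^ 2 := by
  have hm1 : m ≤ 1 := by linarith
  have hmm : 0 ≤ m ^ 2 := sq_nonneg m
  have hr0 : 0 < r := hρ.trans_le hr
  set h : ℝ := W2 - q2 with hhd
  set s : ℝ := W0 * u0 + W1 * u1 with hs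
  set e : ℝ := T - (h + s) with he
  set L : ℝ := (W0 / r) * (q0 + h * u0) + (W1 / r) * (q1 + h * u1) with hL
  have hC : (640000 : ℝ) ≤ 640000 / ρ := by
    rw [le_div_iff₀ hρ]
    nlinarith
  have hu21 : u2 ≤ 1 := by
    by_contra hc
    push Not at hc
    nlinarith [sq_nonneg u0, sq_nonneg u1]
  have hu2'' : 0 ≤ 1 - u2 := by linarith
  have hu2' : 1 - u2 ≤ m ^ 2 := by
    have := mul_nonneg hu2.le hu2''
    linarith
  -- e
  have he1 : e = -(q0 * u0) - q1 * u1 - h * (1 - u2) := by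
    rw [he, hT, hs]
    ring
  have b1 : |q0 * u0| ≤ m * m := mulb _ _ _ _ hq0 hu0
  have b2 : |q1 * u1| ≤ m * m := mulb _ _ _ _ hq1 hu1
  have b3 : |h * (1 - u2)| ≤ 128 * m ^ 2 := by
    refine mulb _ _ _ _ hh ?_
    rw [abs_of_nonneg hu2'']
    exact hu2'
  have hee : |e| ≤ 130 * m ^ 2 := by
    rw [he1]
    have d1 := abs_le.1 b1
    have d2 := abs_le.1 b2
    have d3 := abs_le.1 b3
    have d4 : m * m = m ^ 2 := (sq m).symm
    rw [abs_le]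
    constructor <;> linarith [d1.1, d1.2, d2.1, d2.2, d3.1, d3.2]
  have hm2 : m ^ 2 ≤ m := by
    rw [sq]
    exact mul_le_of_le_one_left hm hm1
  have hee' : |e| ≤ 130 * m := by
    refine hee.trans ?_
    linarith
  have hs1 : |s| ≤ 128 * m := by
    have c1 := abs_le.1 (mulb _ _ _ _ (hW0.trans hr64) hu0)
    have c2 := abs_le.1 (mulb _ _ _ _ (hW1.trans hr64) hu1)
    rw [hs, abs_le]
    constructor <;> linarith [c1.1, c1.2, c2.1, c2.2]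
  have hLb : |L| ≤ 258 * m := by
    have k1 : |W0 / r| ≤ 1 := by
      rw [abs_div, abs_of_pos hr0, div_le_one hr0]
      exact hW0
    have k2 : |W1 / r| ≤ 1 := by
      rw [abs_div, abs_of_pos hr0, div_le_one hr0]
      exact hW1
    have k3 : |q0 + h * u0| ≤ 129 * m := by
      have c1 := abs_le.1 (mulb _ _ _ _ hh hu0)
      have c2 := abs_le.1 hq0
      rw [abs_le]
      constructor <;> linarith [c1.1, c1.2, c2.1, c2.2]
    have k4 : |q1 + h * u1| ≤ 129 * m := by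
      have c1 := abs_le.1 (mulb _ _ _ _ hh hu1)
      have c2 := abs_le.1 hq1
      rw [abs_le]
      constructor <;> linarith [c1.1, c1.2, c2.1, c2.2]
    have c1 := abs_le.1 (mulb _ _ _ _ k1 k3)
    have c2 := abs_le.1 (mulb _ _ _ _ k2 k4)
    rw [hL, abs_le]
    constructor <;> linarith [c1.1, c1.2, c2.1, c2.2]
  have hrL : r * L = W0 * (q0 + h * u0) + W1 * (q1 + h * u1) := by
    rw [hL]
    field_simp
  have hD2 : D ^ 2 = (W0 - q0) ^ 2 + (W1 - q1) ^ 2 + h ^ 2 - T ^ 2 := by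
    rw [hD]
    have e2 : (W0 - q0 - T * u0) ^ 2 + (W1 - q1 - T * u1) ^ 2 + (h - T * u2) ^ 2
        = (W0 - q0) ^ 2 + (W1 - q1) ^ 2 + h ^ 2
          - 2 * T * ((W0 - q0) * u0 + (W1 - q1) * u1 + h * u2)
          + T ^ 2 * (u0 ^ 2 + u1 ^ 2 + u2 ^ 2) := by ring
    rw [e2, hu, ← hT]
    ring
  have hTe : T = h + s + e := by
    rw [he]
    ring
  have hdiff : D ^ 2 - (r - L) ^ 2 = q0 ^ 2 + q1 ^ 2 - s ^ 2 - 2 * (h + s) * e - e ^ 2 - L ^ 2 := by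
    have e3 : (r - L) ^ 2 = W0 ^ 2 + W1 ^ 2 - 2 * (W0 * (q0 + h * u0) + W1 * (q1 + h * u1))
        + L ^ 2 := by
      rw [← hrL, ← hr2]
      ring
    rw [hD2, e3, hTe, hs]
    ring
  have hq0' : q0 ^ 2 ≤ m ^ 2 := by
    rw [← sq_abs q0]
    exact pow_le_pow_left₀ (abs_nonneg _) hq0 2
  have hq1' : q1 ^ 2 ≤ m ^ 2 := by
    rw [← sq_abs q1]
    exact pow_le_pow_left₀ (abs_nonneg _) hq1 2
  have hs2 : s ^ 2 ≤ (128 * m) ^ 2 := by
    rw [← sq_abs s]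
    exact pow_le_pow_left₀ (abs_nonneg _) hs1 2
  have he2 : e ^ 2 ≤ (130 * m) ^ 2 := by
    rw [← sq_abs e]
    exact pow_le_pow_left₀ (abs_nonneg _) hee' 2
  have hL2 : L ^ 2 ≤ (258 * m) ^ 2 := by
    rw [← sq_abs L]
    exact pow_le_pow_left₀ (abs_nonneg _) hLb 2
  have hse : |2 * (h + s) * e| ≤ 512 * (130 * m ^ 2) := by
    refine mulb _ _ _ _ ?_ hee
    have c1 := abs_le.1 hh
    have c2 := abs_le.1 hs1
    rw [abs_le]
    constructor <;> linarith [c1.1, c1.2, c2.1, c2.2]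
  have hdb : |D ^ 2 - (r - L) ^ 2| ≤ 320000 * m ^ 2 := by
    rw [hdiff]
    have c1 := abs_le.1 hse
    rw [abs_le]
    constructor
    · linarith [c1.1, c1.2, sq_nonneg q0, sq_nonneg q1]
    · linarith [c1.1, c1.2, sq_nonneg s, sq_nonneg e, sq_nonneg L]
  have hrLp : ρ / 2 ≤ r - L := by
    have c1 := (abs_le.1 hLb).2
    linarith
  constructor
  · have e4 : (D - (r - L)) * (D + (r - L)) = D ^ 2 - (r - L) ^ 2 := by ring
    have hpos : 0 < D + (r - L) := by linarith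
    have h5 : |D - (r - L)| * (D + (r - L)) ≤ 320000 * m ^ 2 := by
      have h6 : |D - (r - L)| * (D + (r - L)) = |D ^ 2 - (r - L) ^ 2| := by
        rw [← e4, abs_mul, abs_of_pos hpos]
      rw [h6]
      exact hdb
    have h7 : |D - (r - L)| * (ρ / 2) ≤ 320000 * m ^ 2 := by
      refine le_trans ?_ h5
      exact mul_le_mul_of_nonneg_left (by linarith) (abs_nonneg _)
    rw [div_mul_eq_mul_div, le_div_iff₀ hρ]
    linarith
  · refine hee.trans ?_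
    exact mul_le_mul_of_nonneg_right (by linarith) hmm

end LINE_

open LINE_ in
theorem stmt_LINE : Stmt_LINE := by
  intro ρ hρ hρ1
  refine ⟨640000 / ρ, ρ / 1000, by positivity, by positivity, ?_⟩
  intro q u W m hu hm hmκ hq hru hu2 hrW hW hq64
  have hu' : u 0 ^ 2 + u 1 ^ 2 + u 2 ^ 2 = 1 := by
    rw [← nsq, hu, one_pow]
  have huu : u 0 ^ 2 + u 1 ^ 2 ≤ m ^ 2 := by
    rw [← rad_sq]
    exact pow_le_pow_left₀ (rad_nonneg u) hru 2
  have hh : |W 2 - q 2| ≤ 128 := by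
    have c1 := abs_le.1 ((coord2_le W).trans hW)
    have c2 := abs_le.1 ((coord2_le q).trans hq64)
    rw [abs_le]
    constructor <;> linarith [c1.1, c1.2, c2.1, c2.2]
  have hT : inner ℝ (W - q) u = (W 0 - q 0) * u 0 + (W 1 - q 1) * u 1 + (W 2 - q 2) * u 2 := by
    rw [inn]
    simp only [PiLp.sub_apply]
  refine core ρ m (q 0) (q 1) (q 2) (u 0) (u 1) (u 2) (W 0) (W 1) (W 2) (rad W)
    (inner ℝ (W - q) u) ‖W - q - (inner ℝ (W - q) u) • u‖ hρ hρ1 hm hmκ hu' hu2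
    ((rad0 u).trans hru) ((rad1 u).trans hru) huu ((rad0 q).trans hq) ((rad1 q).trans hq)
    (rad0 W) (rad1 W) hrW (rad_sq W) ((rad_le W).trans hW) hh hT (norm_nonneg _) ?_
  rw [nsq]
  simp only [PiLp.sub_apply, PiLp.smul_apply, smul_eq_mul]

end Pool.Mart
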