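import Pool.Agent.Work.MP_680515_an.IfaceM

/-!
# MP_680515_an, block MCB: facts about the base points of a subsystem
-/

open MeasureTheory Set Filter Topology Complex

namespace Pool.Mart

namespace MCB_

theorem rad_nonneg (x : E3) : 0 ≤ rad x := Real.sqrt_nonneg _

theorem rad_sq (x : E3) : rad x ^ 2 = x 0 ^ 2 + x 1 ^ 2 := Real.sq_sqrt (by positivity)

theorem le_of_sq {a b : ℝ} (hb : 0 ≤ b) (h : a ^ 2 ≤ b ^ 2) : a ≤ b := by
  exact le_of_sq_le_sq hb h
where
  le_of_sq_le_sq {a b : ℝ} (hb : 0 ≤ b) (h : a ^ 2 ≤ b ^ 2) : a ≤ b := by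
    by_contra hc
    rw [not_le] at hc
    nlinarith

theorem rad_sub_le (x y : E3) : rad (x - y) ≤ rad x + rad y := by
  apply le_of_sq (add_nonneg (rad_nonneg x) (rad_nonneg y))
  have h1 := rad_sq (x - y)
  have h2 := rad_sq x
  have h3 := rad_sq y
  have e0 : (x - y) 0 = x 0 - y 0 := rfl
  have e1 : (x - y) 1 = x 1 - y 1 := rfl
  rw [e0, e1] at h1
  have h4 : -(x 0 * y 0 + x 1 * y 1) ≤ rad x * rad y := by
    apply le_of_sq (mul_nonneg (rad_nonneg x) (rad_nonneg y))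
    rw [mul_pow, h2, h3]
    nlinarith [sq_nonneg (x 0 * y 1 - x 1 * y 0)]
  nlinarith

theorem norm_sq3 (v : E3) : ‖v‖ ^ 2 = v 0 ^ 2 + v 1 ^ 2 + v 2 ^ 2 := by
  rw [EuclideanSpace.real_norm_sq_eq, Fin.sum_univ_three]

theorem norm_le_rad (v : E3) : ‖v‖ ≤ rad v + |v 2| := by
  apply le_of_sq (add_nonneg (rad_nonneg v) (abs_nonneg _))
  rw [norm_sq3]
  have h1 := rad_sq v
  have h2 := sq_abs (v 2)
  nlinarith [mul_nonneg (rad_nonneg v) (abs_nonneg (v 2))]

theorem abs_le_rad0 (v : E3) : |v 0| ≤ rad v := by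
  apply le_of_sq (rad_nonneg v)
  rw [sq_abs, rad_sq]
  nlinarith [sq_nonneg (v 1)]

theorem abs_le_rad1 (v : E3) : |v 1| ≤ rad v := by
  apply le_of_sq (rad_nonneg v)
  rw [sq_abs, rad_sq]
  nlinarith [sq_nonneg (v 0)]

theorem rad_smul (c : ℝ) (v : E3) : rad (c • v) = |c| * rad v := by
  have e0 : (c • v) 0 = c * v 0 := rfl
  have e1 : (c • v) 1 = c * v 1 := rfl
  unfold rad
  rw [e0, e1, ← Real.sqrt_sq_eq_abs, ← Real.sqrt_mul (sq_nonneg c)]
  congr 1
  ring

/-- third coordinate of a nearly vertical unit vector -/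
theorem vert {v : E3} {δ : ℝ} (h1 : ‖v‖ = 1) (h2 : rad v ≤ δ) (h3 : 0 ≤ v 2) (hδ : δ ≤ 1 / 2) :
    1 - δ ^ 2 ≤ v 2 ∧ v 2 ≤ 1 := by
  have e := norm_sq3 v
  have r := rad_sq v
  rw [h1] at e
  have hr := rad_nonneg v
  have h4 : v 2 ≤ 1 := by
    apply le_of_sq (by norm_num)
    nlinarith [sq_nonneg (v 0), sq_nonneg (v 1)]
  refine ⟨?_, h4⟩
  have h5 : rad v ^ 2 ≤ δ ^ 2 := pow_le_pow_left₀ hr h2 2
  nlinarith

/-- the real inequalities -/
theorem b0_bound {q c c' m : ℝ} (hm : 0 ≤ m) (hm2 : m ≤ 1 / 8) (hq : |q - 1| ≤ m)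
    (hc : 1 - m ^ 2 ≤ c) (hc1 : c ≤ 1) (hc' : 1 - (2 * m) ^ 2 ≤ c') (hc'1 : c' ≤ 1) :
    |(1 - q * c' / c) - (1 / q - 1)| ≤ 40 * m ^ 2 := by
  rw [abs_le] at hq
  have hq0 : 1 / 2 ≤ q := by linarith [hq.1]
  have hq1 : q ≤ 2 := by linarith [hq.2]
  have hc0 : 1 / 2 ≤ c := by nlinarith
  have hcp : 0 < c := by linarith
  have hqp : 0 < q := by linarith
  have e : (1 - q * c' / c) - (1 / q - 1) = (q * (c - c') / c) - (1 - q) ^ 2 / q := by
    field_simp
    ring
  rw [e]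
  have h1 : |q * (c - c') / c| ≤ 20 * m ^ 2 := by
    rw [abs_div, abs_of_pos hcp, div_le_iff₀ hcp, abs_mul, abs_of_pos hqp]
    have h3 : |c - c'| ≤ 4 * m ^ 2 := by
      rw [abs_le]; constructor <;> nlinarith
    calc q * |c - c'| ≤ 2 * (4 * m ^ 2) := mul_le_mul hq1 h3 (abs_nonneg _) (by norm_num)
      _ ≤ 20 * m ^ 2 * c := by nlinarith [sq_nonneg m]
  have h2 : |(1 - q) ^ 2 / q| ≤ 2 * m ^ 2 := by
    rw [abs_div, abs_of_pos hqp, div_le_iff₀ hqp, abs_of_nonneg (sq_nonneg _)]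
    have h4 : (1 - q) ^ 2 ≤ m ^ 2 := by nlinarith [hq.1, hq.2]
    nlinarith [sq_nonneg m]
  calc |q * (c - c') / c - (1 - q) ^ 2 / q| ≤ |q * (c - c') / c| + |(1 - q) ^ 2 / q| := abs_sub _ _
    _ ≤ _ := by nlinarith [sq_nonneg m]

theorem bk_bound {r c w m : ℝ} (hm : 0 ≤ m) (hm2 : m ≤ 1 / 8) (hr : |r - 1| ≤ m)
    (hc : 1 - m ^ 2 ≤ c) (hc1 : c ≤ 1) (hw : |w| ≤ 2 * m) :
    |r * w / (2 * c) - w / 2| ≤ 40 * m ^ 2 := by
  rw [abs_le] at hr
  have hc0 : 1 / 2 ≤ c := by nlinarith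
  have hcp : 0 < c := by linarith
  have e : r * w / (2 * c) - w / 2 = w * ((r - c) / (2 * c)) := by
    field_simp
  rw [e, abs_mul]
  have h1 : |(r - c) / (2 * c)| ≤ 2 * m := by
    rw [abs_div, abs_of_pos (by linarith : 0 < 2 * c), div_le_iff₀ (by linarith)]
    rw [abs_le]
    constructor <;> nlinarith [hr.1, hr.2]
  calc |w| * |(r - c) / (2 * c)| ≤ (2 * m) * (2 * m) :=
        mul_le_mul hw h1 (abs_nonneg _) (by linarith)
    _ ≤ 40 * m ^ 2 := by nlinarith [sq_nonneg m]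

end MCB_

open MCB_ in
theorem stmt_MCB : Stmt_MCB := by
  intro lm hlm _
  refine ⟨500, 1 / 8, by norm_num, by norm_num, ?_⟩
  intro ε m F x0 x1 S S' hm0 hmκ hS
  obtain ⟨-, -, hb, hb', hlow, hup, hpos', hord, hloc, hdv⟩ := hS
  set lam := ‖x1 - x0‖ with hlam
  set lam' := ‖F x1 - F x0‖ with hlam'
  set u := act S e3 with hu
  set u' := act S' e3 with hu'
  have hl0 : 0 < lam := by linarith
  have hu1 : ‖u‖ = 1 := by
    have h := congrArg norm hb
    rw [norm_smul, Real.norm_eq_abs, abs_of_pos hl0, ← hlam] at h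
    have : lam * ‖u‖ = lam * 1 := by linarith
    exact mul_left_cancel₀ hl0.ne' this
  have hu1' : ‖u'‖ = 1 := by
    have h := congrArg norm hb'
    rw [norm_smul, Real.norm_eq_abs, abs_of_pos hpos', ← hlam'] at h
    have : lam' * ‖u'‖ = lam' * 1 := by linarith
    exact mul_left_cancel₀ hpos'.ne' this
  unfold dev at hdv
  have r0 := rad_nonneg x0
  have r1 := rad_nonneg x1
  have R0 := rad_nonneg (F x0)
  have R1 := rad_nonneg (F x1)
  have z0 := abs_nonneg (F x0 2 - x0 2)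
  have z1 := abs_nonneg (F x1 2 - x1 2)
  have hml : m * lam ≤ m := by
    have h1 : m * lam ≤ m * 1 := mul_le_mul_of_nonneg_left (by linarith only [hup]) hm0
    linarith only [h1]
  -- components
  have c : ∀ i : Fin 3, x1 i - x0 i = lam * u i := by
    intro i
    have := congrArg (fun v : E3 => v i) hb
    exact this
  have c' : ∀ i : Fin 3, F x1 i - F x0 i = lam' * u' i := by
    intro i
    have := congrArg (fun v : E3 => v i) hb'
    exact this
  have hru : rad u ≤ m := by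
    have h1 := rad_sub_le x1 x0
    rw [hb, rad_smul, abs_of_pos hl0] at h1
    have h2 : lam * rad u ≤ lam * m := by linarith
    exact le_of_mul_le_mul_left h2 hl0
  have hll : |lam' - lam| ≤ m * lam := by
    have h1 : |lam' - lam| ≤ ‖(F x1 - F x0) - (x1 - x0)‖ := abs_norm_sub_norm_le _ _
    have h2 := norm_le_rad ((F x1 - F x0) - (x1 - x0))
    have h3 := rad_sub_le (F x1 - F x0) (x1 - x0)
    have h4 := rad_sub_le (F x1) (F x0)
    have h5 := rad_sub_le x1 x0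
    have h6 : |((F x1 - F x0) - (x1 - x0)) 2| ≤ |F x1 2 - x1 2| + |F x0 2 - x0 2| := by
      have e : ((F x1 - F x0) - (x1 - x0)) 2 = (F x1 2 - x1 2) - (F x0 2 - x0 2) := by
        show (F x1 2 - F x0 2) - (x1 2 - x0 2) = _
        ring
      rw [e]
      exact abs_sub _ _
    linarith
  have hml8 : m * lam ≤ lam / 8 := by
    have h1 : m * lam ≤ 1 / 8 * lam := mul_le_mul_of_nonneg_right hmκ hl0.le
    linarith only [h1]
  have hlam2 : lam / 2 ≤ lam' := by
    have h1 := (abs_le.1 hll).1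
    linarith only [h1, hml8, hl0]
  have hru' : rad u' ≤ 2 * m := by
    have h1 := rad_sub_le (F x1) (F x0)
    rw [hb', rad_smul, abs_of_pos hpos'] at h1
    have h3 : lam / 2 * (2 * m) ≤ lam' * (2 * m) :=
      mul_le_mul_of_nonneg_right hlam2 (by linarith only [hm0])
    have h2 : lam' * rad u' ≤ lam' * (2 * m) := by
      linarith only [h1, h3, hdv, r0, r1, z0, z1]
    exact le_of_mul_le_mul_left h2 hpos'
  have hu2 : 0 < u 2 := by
    have := c 2
    have h2 : 0 < lam * u 2 := by linarith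
    exact (mul_pos_iff_of_pos_left hl0).1 h2
  obtain ⟨v1, v2⟩ := vert hu1 hru hu2.le (by linarith)
  have hu2' : 0 < u' 2 := by
    have h1 := c 2
    have h2 := c' 2
    have h3 : |(F x1 2 - F x0 2) - (x1 2 - x0 2)| ≤ |F x1 2 - x1 2| + |F x0 2 - x0 2| := by
      have e : (F x1 2 - F x0 2) - (x1 2 - x0 2) = (F x1 2 - x1 2) - (F x0 2 - x0 2) := by ring
      rw [e]
      exact abs_sub _ _
    have h4 := (abs_le.1 h3).1
    have h5 : lam * (1 - m ^ 2) ≤ lam * u 2 := mul_le_mul_of_nonneg_left v1 hl0.le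
    have h6 : m ^ 2 ≤ (1 / 8) ^ 2 := pow_le_pow_left₀ hm0 hmκ 2
    have h8 : lam * m ^ 2 ≤ lam * (1 / 8) ^ 2 := mul_le_mul_of_nonneg_left h6 hl0.le
    have h9 : 0 < lam' * u' 2 := by
      linarith only [h1, h2, h4, h5, h8, hml8, hdv, r0, r1, R0, R1, hl0]
    exact (mul_pos_iff_of_pos_left hpos').1 h9
  obtain ⟨w1, w2⟩ := vert hu1' hru' hu2'.le (by linarith)
  -- the ratio
  have hq : |lam' / lam - 1| ≤ m := by
    have e : lam' / lam - 1 = (lam' - lam) / lam := by field_simp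
    rw [e, abs_div, abs_of_pos hl0, div_le_iff₀ hl0]
    exact hll
  set h := x1 2 - x0 2 with hh
  have hh1 : h = lam * u 2 := c 2
  have hhp : 0 < h := by linarith
  set b : Fin 5 → ℝ := fun k => (da F x1 k - da F x0 k) / h with hbdef
  set a : Fin 5 → ℝ := fun k => da F x0 k - x0 2 * b k with hadef
  have B0 : b 0 = 1 - lam' / lam * u' 2 / u 2 := by
    have e : b 0 = (-(F x1 2 - x1 2) - -(F x0 2 - x0 2)) / h := rfl
    have e2 : -(F x1 2 - x1 2) - -(F x0 2 - x0 2) = h - (F x1 2 - F x0 2) := by rw [hh]; ring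
    rw [e, e2, c' 2, hh1]
    field_simp
  have B1 : b 1 = -(1 * u 0 / (2 * u 2)) := by
    have e : b 1 = (-(x1 0) / 2 - -(x0 0) / 2) / h := rfl
    have e2 : -(x1 0) / 2 - -(x0 0) / 2 = -(x1 0 - x0 0) / 2 := by ring
    rw [e, e2, c 0, hh1]
    field_simp
  have B2 : b 2 = -(1 * u 1 / (2 * u 2)) := by
    have e : b 2 = (-(x1 1) / 2 - -(x0 1) / 2) / h := rfl
    have e2 : -(x1 1) / 2 - -(x0 1) / 2 = -(x1 1 - x0 1) / 2 := by ring
    rw [e, e2, c 1, hh1]
    field_simp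
  have B3 : b 3 = lam' / lam * u' 0 / (2 * u 2) := by
    have e : b 3 = (F x1 0 / 2 - F x0 0 / 2) / h := rfl
    have e2 : F x1 0 / 2 - F x0 0 / 2 = (F x1 0 - F x0 0) / 2 := by ring
    rw [e, e2, c' 0, hh1]
    field_simp
  have B4 : b 4 = lam' / lam * u' 1 / (2 * u 2) := by
    have e : b 4 = (F x1 1 / 2 - F x0 1 / 2) / h := rfl
    have e2 : F x1 1 / 2 - F x0 1 / 2 = (F x1 1 - F x0 1) / 2 := by ring
    rw [e, e2, c' 1, hh1]
    field_simp
  have K0 : |b 0 - (lam / lam' - 1)| ≤ 40 * m ^ 2 := by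
    have h1 := b0_bound hm0 hmκ hq v1 v2 w1 w2
    rw [B0]
    have e : 1 / (lam' / lam) = lam / lam' := by field_simp
    rw [e] at h1
    exact h1
  have hone : |(1 : ℝ) - 1| ≤ m := by simpa using hm0
  have K1 : |b 1 + u 0 / 2| ≤ 40 * m ^ 2 := by
    have h1 := bk_bound hm0 hmκ hone v1 v2 (w := u 0) (by
      have := abs_le_rad0 u
      linarith)
    rw [B1, ← abs_neg]
    have e : -(-(1 * u 0 / (2 * u 2)) + u 0 / 2) = 1 * u 0 / (2 * u 2) - u 0 / 2 := by ring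
    rw [e]
    exact h1
  have K2 : |b 2 + u 1 / 2| ≤ 40 * m ^ 2 := by
    have h1 := bk_bound hm0 hmκ hone v1 v2 (w := u 1) (by
      have := abs_le_rad1 u
      linarith)
    rw [B2, ← abs_neg]
    have e : -(-(1 * u 1 / (2 * u 2)) + u 1 / 2) = 1 * u 1 / (2 * u 2) - u 1 / 2 := by ring
    rw [e]
    exact h1
  have K3 : |b 3 - u' 0 / 2| ≤ 40 * m ^ 2 := by
    rw [B3]
    exact bk_bound hm0 hmκ hq v1 v2 ((abs_le_rad0 u').trans hru')
  have K4 : |b 4 - u' 1 / 2| ≤ 40 * m ^ 2 := by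
    rw [B4]
    exact bk_bound hm0 hmκ hq v1 v2 ((abs_le_rad1 u').trans hru')
  have hmm : m ^ 2 ≤ m / 8 := by
    have h1 : m * m ≤ m * (1 / 8) := mul_le_mul_of_nonneg_left hmκ hm0
    rw [sq]; linarith only [h1]
  have L0 : |lam / lam' - 1| ≤ 2 * m := by
    have e : lam / lam' - 1 = -(lam' - lam) / lam' := by field_simp; ring
    rw [e, abs_div, abs_neg, abs_of_pos hpos', div_le_iff₀ hpos']
    have h3 : lam / 2 * (2 * m) ≤ lam' * (2 * m) :=
      mul_le_mul_of_nonneg_right hlam2 (by linarith only [hm0])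
    linarith only [h3, hll]
  have U0 := (abs_le_rad0 u).trans hru
  have U1 := (abs_le_rad1 u).trans hru
  have U0' := (abs_le_rad0 u').trans hru'
  have U1' := (abs_le_rad1 u').trans hru'
  have hbk : ∀ k, |b k| ≤ 8 * m := by
    intro k
    fin_cases k
    · show |b 0| ≤ 8 * m
      rw [abs_le] at K0 L0 ⊢
      constructor <;> linarith only [K0.1, K0.2, L0.1, L0.2, hmm, hm0]
    · show |b 1| ≤ 8 * m
      rw [abs_le] at K1 U0 ⊢
      constructor <;> linarith only [K1.1, K1.2, U0.1, U0.2, hmm, hm0]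
    · show |b 2| ≤ 8 * m
      rw [abs_le] at K2 U1 ⊢
      constructor <;> linarith only [K2.1, K2.2, U1.1, U1.2, hmm, hm0]
    · show |b 3| ≤ 8 * m
      rw [abs_le] at K3 U0' ⊢
      constructor <;> linarith only [K3.1, K3.2, U0'.1, U0'.2, hmm, hm0]
    · show |b 4| ≤ 8 * m
      rw [abs_le] at K4 U1' ⊢
      constructor <;> linarith only [K4.1, K4.2, U1'.1, U1'.2, hmm, hm0]
  have hx02 : |x0 2| ≤ 17 / 2 := by
    have h1 : |x0 2| ≤ ‖x0‖ := by
      apply le_of_sq (norm_nonneg _)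
      rw [sq_abs, norm_sq3]
      nlinarith [sq_nonneg (x0 0), sq_nonneg (x0 1)]
    linarith
  have hda : ∀ k, |da F x0 k| ≤ m := by
    have X0 := abs_le_rad0 x0
    have X1 := abs_le_rad1 x0
    have Y0 := abs_le_rad0 (F x0)
    have Y1 := abs_le_rad1 (F x0)
    intro k
    fin_cases k
    · show |-(F x0 2 - x0 2)| ≤ m
      rw [abs_neg]; linarith
    · show |-(x0 0) / 2| ≤ m
      rw [abs_div, abs_neg, abs_two]; linarith
    · show |-(x0 1) / 2| ≤ m
      rw [abs_div, abs_neg, abs_two]; linarith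
    · show |F x0 0 / 2| ≤ m
      rw [abs_div, abs_two]; linarith
    · show |F x0 1 / 2| ≤ m
      rw [abs_div, abs_two]; linarith
  have hm2 : 0 ≤ m ^ 2 := sq_nonneg m
  have h40 : 40 * m ^ 2 ≤ 500 * m ^ 2 := by linarith only [hm2]
  refine ⟨hru, hru', hu2, hu2', by linarith only [hll, hml, hm0],
    by linarith only [hdv, hml, r1, R0, R1, z0, z1],
    by linarith only [hdv, hml, r0, r1, R1, z0, z1],
    by linarith only [hdv, hml, r0, r1, R0, R1, z1], ?_, a, b,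
    ?_, ?_, K0.trans h40, K1.trans h40, K2.trans h40, K3.trans h40, K4.trans h40, ?_⟩
  · -- distance of `x0` to the axis
    have e : ‖x0 - (x0 2) • e3‖ = rad x0 := by
      have h1 : ‖x0 - (x0 2) • e3‖ ^ 2 = rad x0 ^ 2 := by
        rw [norm_sq3, rad_sq]
        have e0 : (x0 - (x0 2) • e3) 0 = x0 0 := by simp [e3]
        have e1 : (x0 - (x0 2) • e3) 1 = x0 1 := by simp [e3]
        have e2 : (x0 - (x0 2) • e3) 2 = 0 := by simp [e3]
        rw [e0, e1, e2]
        ring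
      exact (pow_left_inj₀ (norm_nonneg _) (rad_nonneg _) two_ne_zero).1 h1
    rw [e]
    linarith only [hdv, r1, R0, R1, z0, z1]
  · funext k
    show da F x0 k - x0 2 * b k + x0 2 * b k = da F x0 k
    ring
  · funext k
    show da F x0 k - x0 2 * b k + x1 2 * b k = da F x1 k
    have e : (da F x1 k - da F x0 k) / h * h = da F x1 k - da F x0 k := div_mul_cancel₀ _ hhp.ne'
    have e2 : b k * h = da F x1 k - da F x0 k := e
    rw [hh] at e2
    linarith only [e2]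
  · intro k
    have h1 := hbk k
    have h2 := hda k
    refine ⟨?_, by linarith only [h1, hm0]⟩
    show |da F x0 k - x0 2 * b k| ≤ 500 * m
    have h3 : |x0 2 * b k| ≤ 17 / 2 * (8 * m) := by
      rw [abs_mul]
      exact mul_le_mul hx02 h1 (abs_nonneg _) (by norm_num)
    have h4 := abs_sub (da F x0 k) (x0 2 * b k)
    linarith only [h2, h3, h4, hm0]

end Pool.Mart
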