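import Pool.Agent.Work.MP_680515_an.IfaceM

/-!
# MP_680515_an: block MCI (integrated comparison of the modes of two models)
-/

open MeasureTheory Set Filter Topology Complex

namespace Pool.Mart

theorem MCI_kap_le (k : Fin 5) (θ : ℝ) : |kap k θ| ≤ 1 := by
  fin_cases k
  · simp [kap]
  · simpa [kap] using Real.abs_cos_le_one θ
  · simpa [kap] using Real.abs_sin_le_one θ
  · simpa [kap] using Real.abs_cos_le_one (2 * θ)
  · simpa [kap] using Real.abs_sin_le_one (2 * θ)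

theorem MCI_kap_cont (k : Fin 5) : Continuous (kap k) := by
  have h0 : kap 0 = fun _ => 1 := by funext θ; simp [kap]
  have h1 : kap 1 = fun θ => Real.cos θ := by funext θ; simp [kap]
  have h2 : kap 2 = fun θ => Real.sin θ := by funext θ; simp [kap]
  have h3 : kap 3 = fun θ => Real.cos (2 * θ) := by funext θ; simp [kap]
  have h4 : kap 4 = fun θ => Real.sin (2 * θ) := by funext θ; simp [kap]
  fin_cases k
  · change Continuous (kap 0)
    rw [h0]
    fun_prop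
  · change Continuous (kap 1)
    rw [h1]
    fun_prop
  · change Continuous (kap 2)
    rw [h2]
    fun_prop
  · change Continuous (kap 3)
    rw [h3]
    fun_prop
  · change Continuous (kap 4)
    rw [h4]
    fun_prop

theorem MCI_cst_norm (k : Fin 5) : ‖cst k‖ = 1 := by
  fin_cases k <;> simp [cst]

/-- The mode functional. -/
noncomputable def MCI_L (k : Fin 5) (f : ℝ → ℂ) : ℂ :=
  cst k * ((2 * Real.pi)⁻¹ : ℝ) * ∫ θ in (0 : ℝ)..(2 * Real.pi), (kap k θ : ℂ) * f θ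

theorem MCI_modes (g : E3 → ℂ) (ζ : ℂ) (k : Fin 5) :
    modes g ζ k = MCI_L k (fun θ => g (cyl ζ θ)) := rfl

theorem MCI_II (k : Fin 5) (f : ℝ → ℂ) (hf : Continuous f) :
    IntervalIntegrable (fun θ => (kap k θ : ℂ) * f θ) volume (0 : ℝ) (2 * Real.pi) := by
  have := MCI_kap_cont k
  apply Continuous.intervalIntegrable
  fun_prop

theorem MCI_L_add (k : Fin 5) (f g : ℝ → ℂ) (hf : Continuous f) (hg : Continuous g) :
    MCI_L k (fun θ => f θ + g θ) = MCI_L k f + MCI_L k g := by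
  unfold MCI_L
  rw [← mul_add, ← intervalIntegral.integral_add (MCI_II k f hf) (MCI_II k g hg)]
  simp only [mul_add]

theorem MCI_L_sub (k : Fin 5) (f g : ℝ → ℂ) (hf : Continuous f) (hg : Continuous g) :
    MCI_L k (fun θ => f θ - g θ) = MCI_L k f - MCI_L k g := by
  unfold MCI_L
  rw [← mul_sub, ← intervalIntegral.integral_sub (MCI_II k f hf) (MCI_II k g hg)]
  simp only [mul_sub]

theorem MCI_L_smul (k : Fin 5) (c : ℂ) (f : ℝ → ℂ) :
    MCI_L k (fun θ => c * f θ) = c * MCI_L k f := by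
  unfold MCI_L
  have h : (fun θ => (kap k θ : ℂ) * (c * f θ)) = fun θ => c * ((kap k θ : ℂ) * f θ) := by
    funext θ
    ring
  show cst k * ((2 * Real.pi)⁻¹ : ℝ) * ∫ θ in (0 : ℝ)..(2 * Real.pi), (kap k θ : ℂ) * (c * f θ) = _
  rw [h, intervalIntegral.integral_const_mul]
  ring

theorem MCI_L_bd (k : Fin 5) (f : ℝ → ℂ) (c : ℝ) (h : ∀ θ, ‖f θ‖ ≤ c) : ‖MCI_L k f‖ ≤ c := by
  have hpi : (0 : ℝ) < 2 * Real.pi := by positivity
  have h1 : ‖∫ θ in (0 : ℝ)..(2 * Real.pi), (kap k θ : ℂ) * f θ‖ ≤ c * |2 * Real.pi - 0| := by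
    apply intervalIntegral.norm_integral_le_of_norm_le_const
    intro θ _
    rw [norm_mul, Complex.norm_real, Real.norm_eq_abs]
    calc |kap k θ| * ‖f θ‖ ≤ 1 * ‖f θ‖ :=
          mul_le_mul_of_nonneg_right (MCI_kap_le k θ) (norm_nonneg _)
      _ ≤ c := by rw [one_mul]; exact h θ
  unfold MCI_L
  rw [norm_mul, norm_mul, MCI_cst_norm, one_mul, Complex.norm_real, Real.norm_eq_abs,
    abs_of_pos (inv_pos.mpr hpi)]
  rw [sub_zero, abs_of_pos hpi] at h1
  calc (2 * Real.pi)⁻¹ * _ ≤ (2 * Real.pi)⁻¹ * (c * (2 * Real.pi)) :=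
        mul_le_mul_of_nonneg_left h1 (inv_pos.mpr hpi).le
    _ = c := by field_simp

theorem MCI_norm5 (v : C5) (c : ℝ) (h : ∀ k, ‖v k‖ ≤ c) : ‖v‖ ≤ 5 * c := by
  have h0 : v = ∑ k : Fin 5, v k • EuclideanSpace.single k (1 : ℂ) := by
    ext j
    simp [Pi.single_apply]
  calc ‖v‖ = ‖∑ k : Fin 5, v k • EuclideanSpace.single k (1 : ℂ)‖ := by rw [← h0]
    _ ≤ ∑ k : Fin 5, ‖v k • EuclideanSpace.single k (1 : ℂ)‖ := norm_sum_le _ _
    _ = ∑ k : Fin 5, ‖v k‖ := by simp [norm_smul]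
    _ ≤ ∑ _k : Fin 5, c := Finset.sum_le_sum fun k _ => h k
    _ = 5 * c := by simp

theorem MCI_coord_cont (i : Fin 3) : Continuous (fun X : E3 => X i) := by fun_prop

theorem MCI_rad_cont : Continuous rad := by
  unfold rad
  fun_prop

theorem MCI_cyl_cont : Continuous (fun p : ℂ × ℝ => cyl p.1 p.2) := by
  unfold cyl
  refine (PiLp.continuous_toLp 2 _).comp (continuous_pi fun i => ?_)
  fin_cases i
  · show Continuous fun p : ℂ × ℝ => p.1.re * Real.cos p.2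
    fun_prop
  · show Continuous fun p : ℂ × ℝ => p.1.re * Real.sin p.2
    fun_prop
  · show Continuous fun p : ℂ × ℝ => p.1.im
    fun_prop

theorem MCI_act_cont (M : M3) : Continuous (act M) := by
  unfold act
  refine (PiLp.continuous_toLp 2 _).comp (continuous_pi fun i => ?_)
  show Continuous fun v : E3 => M.mulVec v.ofLp i
  unfold Matrix.mulVec dotProduct
  fun_prop

theorem MCI_gg_cont {T : Type*} [TopologicalSpace T] {s : Set T} {p q : T → E3}
    (hp : ContinuousOn p s) (hq : ContinuousOn q s) :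
    ContinuousOn (fun t => gg (p t) (q t)) s := by
  unfold gg
  have h1 : ContinuousOn (fun t => rad (q t)) s := MCI_rad_cont.comp_continuousOn hq
  have h2 : ContinuousOn (fun t => rad (p t)) s := MCI_rad_cont.comp_continuousOn hp
  have h3 : ContinuousOn (fun t => q t 2) s := (MCI_coord_cont 2).comp_continuousOn hq
  have h4 : ContinuousOn (fun t => p t 2) s := (MCI_coord_cont 2).comp_continuousOn hp
  exact (Complex.continuous_ofReal.comp_continuousOn (h1.sub h2)).add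
    ((Complex.continuous_ofReal.comp_continuousOn (h3.sub h4)).mul continuousOn_const)

theorem MCI_modes_cont (g : E3 → ℂ) (U : Set ℂ) (V : Set E3) (hg : ContinuousOn g V)
    (hUV : ∀ ζ ∈ U, ∀ θ, cyl ζ θ ∈ V) : ContinuousOn (modes g) U := by
  rw [continuousOn_iff_continuous_domRestrict]
  show Continuous fun ζ : U => modes g ζ
  unfold modes
  refine (PiLp.continuous_toLp 2 _).comp (continuous_pi fun k => ?_)
  refine continuous_const.mul ?_
  apply intervalIntegral.continuous_parametric_intervalIntegral_of_continuous'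
  have h1 : Continuous fun p : U × ℝ => g (cyl p.1 p.2) := by
    refine hg.comp_continuous ?_ fun p => hUV p.1 p.1.2 p.2
    exact MCI_cyl_cont.comp ((continuous_subtype_val.comp continuous_fst).prodMk continuous_snd)
  have h2 : Continuous fun p : U × ℝ => ((kap k p.2 : ℝ) : ℂ) :=
    Complex.continuous_ofReal.comp ((MCI_kap_cont k).comp continuous_snd)
  exact h2.mul h1

/-! ## Geometry -/

theorem MCI_rotz (ζ : ℂ) (α θ : ℝ) : act (rotz α) (cyl ζ θ) = cyl ζ (θ + α) := by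
  ext i
  fin_cases i
  · simp [act, rotz, cyl, Real.cos_add]
    ring
  · simp [act, rotz, cyl, Real.sin_add]
    ring
  · simp [act, rotz, cyl]

theorem MCI_shift (z0 lam : ℝ) (ζ : ℂ) (θ : ℝ) :
    z0 • e3 + lam • cyl ζ θ = cyl ((z0 : ℂ) * I + (lam : ℂ) * ζ) θ := by
  ext i
  fin_cases i
  · simp [cyl, e3]
    ring
  · simp [cyl, e3]
    ring
  · simp [cyl, e3]

/-- The closure of the region. -/
def MCI_EEc : Set ℂ := {ζ | 1 / 16 ≤ ζ.re ∧ ζ.re ≤ 16 ∧ |ζ.im| ≤ 16}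

theorem MCI_sub : EE ⊆ MCI_EEc := fun _ h => ⟨h.1.le, h.2.1.le, h.2.2.le⟩

theorem MCI_norm_le (ζ : ℂ) (h : ζ ∈ MCI_EEc) : ‖ζ‖ ≤ 32 := by
  have h1 := Complex.norm_le_abs_re_add_abs_im ζ
  have h2 : |ζ.re| ≤ 16 := by
    rw [abs_le]
    constructor <;> linarith [h.1, h.2.1]
  linarith [h.2.2]

theorem MCI_compact : IsCompact MCI_EEc := by
  refine Metric.isCompact_of_isClosed_isBounded ?_ ?_
  · unfold MCI_EEc
    refine (isClosed_le continuous_const Complex.continuous_re).inter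
      ((isClosed_le Complex.continuous_re continuous_const).inter
        (isClosed_le (Complex.continuous_im.abs) continuous_const))
  · refine (Metric.isBounded_iff_subset_closedBall 0).2 ⟨32, fun ζ h => ?_⟩
    rw [mem_closedBall_zero_iff]
    exact MCI_norm_le ζ h

theorem MCI_EE_meas : MeasurableSet EE := by
  unfold EE
  refine ((isOpen_lt continuous_const Complex.continuous_re).inter
      ((isOpen_lt Complex.continuous_re continuous_const).inter
        (isOpen_lt (Complex.continuous_im.abs) continuous_const))).measurableSet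

theorem MCI_hp : {X : E3 | hp X ∈ EE} = CY := by
  ext X
  rfl

/-! ## The function with affine modes -/

/-- A function on three space with the values of `pt` on a circle. -/
noncomputable def MCI_g (a b : Fin 5 → ℝ) (w : ℂ) (X : E3) : ℂ :=
  -I * ((a 0 : ℂ) + (b 0 : ℂ) * (-I * w))
    + 2 * ∑ k ∈ ({1, 2, 3, 4} : Finset (Fin 5)),
      ((![1, X 0 / w.re, X 1 / w.re, 2 * (X 0 / w.re) ^ 2 - 1,
        2 * (X 1 / w.re) * (X 0 / w.re)] k : ℝ) : ℂ) * ((a k : ℂ) + (b k : ℂ) * (-I * w))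

theorem MCI_g_cyl (a b : Fin 5 → ℝ) (w : ℂ) (hw : 0 < w.re) (θ : ℝ) :
    MCI_g a b w (cyl w θ) = pt a b w θ := by
  have h0 : cyl w θ 0 = w.re * Real.cos θ := rfl
  have h1 : cyl w θ 1 = w.re * Real.sin θ := rfl
  have e0 : w.re * Real.cos θ / w.re = Real.cos θ := by field_simp
  have e1 : w.re * Real.sin θ / w.re = Real.sin θ := by field_simp
  unfold MCI_g pt
  congr 2
  refine Finset.sum_congr rfl fun k _ => ?_
  congr 2
  rw [h0, h1, e0, e1]
  fin_cases k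
  · simp [kap]
  · simp [kap]
  · simp [kap]
  · simp [kap, Real.cos_two_mul]
  · simp [kap, Real.sin_two_mul]

theorem MCI_kap_per (k : Fin 5) : Function.Periodic (kap k) (2 * Real.pi) := by
  intro θ
  have h2 : 2 * (θ + 2 * Real.pi) = 2 * θ + 2 * Real.pi + 2 * Real.pi := by ring
  fin_cases k
  · simp [kap]
  · simp [kap]
  · simp [kap]
  · simp [kap, h2]
  · simp [kap, h2]

theorem MCI_pt_cont (a b : Fin 5 → ℝ) (w : ℂ) : Continuous (pt a b w) := by
  unfold pt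
  refine continuous_const.add (continuous_const.mul ?_)
  refine continuous_finsetSum _ fun k _ => ?_
  exact (Complex.continuous_ofReal.comp (MCI_kap_cont k)).mul continuous_const

theorem MCI_pt_per (a b : Fin 5 → ℝ) (w : ℂ) : Function.Periodic (pt a b w) (2 * Real.pi) := by
  intro θ
  unfold pt
  congr 2
  refine Finset.sum_congr rfl fun k _ => ?_
  rw [MCI_kap_per k θ]

theorem MCI_cyl_per (w : ℂ) : Function.Periodic (cyl w) (2 * Real.pi) := by
  intro θ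
  ext i
  fin_cases i <;> simp [cyl]

theorem MCI_aff (hMODP : Stmt_MODP) (a b : Fin 5 → ℝ) (w : ℂ) (hw : 0 < w.re) (α : ℝ)
    (k : Fin 5) : MCI_L k (fun θ => pt a b w (θ + α)) = actC (Rm α) (aff a b w) k := by
  have h1 := hMODP.2.1 α (pt a b w) (MCI_pt_cont a b w) (MCI_pt_per a b w) k
  have h2 := hMODP.1 a b w (MCI_g a b w) (MCI_g_cyl a b w hw)
  show cst k * ((2 * Real.pi)⁻¹ : ℝ) *
    ∫ θ in (0 : ℝ)..(2 * Real.pi), (kap k θ : ℂ) * pt a b w (θ + α) = _
  rw [h1]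
  unfold actC
  show _ = ∑ j, (Rm α k j : ℂ) * (aff a b w) j
  refine Finset.sum_congr rfl fun j _ => ?_
  rw [← h2, MCI_modes]
  unfold MCI_L
  congr 3
  funext θ
  show _ = (kap j θ : ℂ) * MCI_g a b w (cyl w θ)
  rw [MCI_g_cyl a b w hw]

theorem MCI_vv (hMODP : Stmt_MODP) (G : E3 → ℂ) (w : ℂ) (hG : Continuous fun θ => G (cyl w θ))
    (α : ℝ) (k : Fin 5) :
    MCI_L k (fun θ => G (cyl w (θ + α))) = actC (Rm α) (modes G w) k := by
  have hper : Function.Periodic (fun θ => G (cyl w θ)) (2 * Real.pi) := by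
    intro θ
    show G (cyl w (θ + 2 * Real.pi)) = G (cyl w θ)
    rw [MCI_cyl_per w θ]
  exact hMODP.2.1 α (fun θ => G (cyl w θ)) hG hper k

theorem MCI_ball (hWIN1 : Stmt_WIN1) (S : M3) (x0 : E3) (lam m α : ℝ) (hx0 : ‖x0‖ ≤ 17 / 2)
    (hlam : 0 ≤ lam) (hlam' : lam ≤ 7 / 10) (hm' : m ≤ 1 / 1000)
    (hS : ∀ Y : E3, ‖act S Y - act (rotz α) Y‖ ≤ m * ‖Y‖) (ζ : ℂ) (hζ : ζ ∈ MCI_EEc) (θ : ℝ) :
    x0 + lam • act S (cyl ζ θ) ∈ Metric.ball (0 : E3) 64 := by
  rw [mem_ball_zero_iff]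
  have hre : 0 ≤ ζ.re := by linarith [hζ.1]
  have hn : ‖ζ‖ ≤ 32 := MCI_norm_le ζ hζ
  have h1 : ‖cyl ζ θ‖ = ‖ζ‖ := (hWIN1.2.2.2.2.2.2.2.1 ζ θ hre).2
  have h2 : ‖act (rotz α) (cyl ζ θ)‖ = ‖ζ‖ := by
    rw [MCI_rotz]
    exact (hWIN1.2.2.2.2.2.2.2.1 ζ (θ + α) hre).2
  have h3 := hS (cyl ζ θ)
  rw [h1] at h3
  have h4 : m * ‖ζ‖ ≤ 1 / 1000 * 32 := by
    calc m * ‖ζ‖ ≤ 1 / 1000 * ‖ζ‖ := mul_le_mul_of_nonneg_right hm' (norm_nonneg _)
      _ ≤ 1 / 1000 * 32 := mul_le_mul_of_nonneg_left hn (by norm_num)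
  have h5 : ‖act S (cyl ζ θ)‖ ≤ 33 := by
    have : act S (cyl ζ θ) = act (rotz α) (cyl ζ θ) + (act S (cyl ζ θ) - act (rotz α) (cyl ζ θ)) := by
      abel
    rw [this]
    refine (norm_add_le _ _).trans ?_
    rw [h2]
    linarith
  calc ‖x0 + lam • act S (cyl ζ θ)‖ ≤ ‖x0‖ + ‖lam • act S (cyl ζ θ)‖ := norm_add_le _ _
    _ = ‖x0‖ + lam * ‖act S (cyl ζ θ)‖ := by
        rw [norm_smul, Real.norm_eq_abs, abs_of_nonneg hlam]
    _ ≤ 17 / 2 + 7 / 10 * 33 := by
        refine add_le_add hx0 ?_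
        exact mul_le_mul hlam' h5 (norm_nonneg _) (by norm_num)
    _ < 64 := by norm_num

theorem MCI_G_cont (F : E3 → E3) (hF : ContinuousOn F (Metric.ball 0 64)) :
    ContinuousOn (fun X => gg X (F X)) (Metric.ball 0 64) :=
  MCI_gg_cont (p := fun X => X) (q := F) continuousOn_id hF

theorem MCI_X_cont (S : M3) (x0 : E3) (lam : ℝ) : Continuous (fun Y => x0 + lam • act S Y) :=
  continuous_const.add ((MCI_act_cont S).const_smul lam)

theorem MCI_ren_cont (F : E3 → E3) (hF : ContinuousOn F (Metric.ball 0 64)) (x0 x1 : E3)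
    (S S' : M3) : ContinuousOn (ren F x0 x1 S S')
      {Y | x0 + ‖x1 - x0‖ • act S Y ∈ Metric.ball (0 : E3) 64} := by
  have h : ContinuousOn (fun Y => F (x0 + ‖x1 - x0‖ • act S Y) - F x0)
      {Y | x0 + ‖x1 - x0‖ • act S Y ∈ Metric.ball (0 : E3) 64} := by
    refine ContinuousOn.sub ?_ continuousOn_const
    exact ContinuousOn.comp (g := F) (f := fun Y => x0 + ‖x1 - x0‖ • act S Y) hF
      (MCI_X_cont S x0 ‖x1 - x0‖).continuousOn fun Y hY => hY
  have h2 := (MCI_act_cont S'.transpose).comp_continuousOn h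
  exact h2.const_smul (‖F x1 - F x0‖⁻¹)

/-- Pointwise bound. -/
theorem MCI_point (hMODP : Stmt_MODP) (F : E3 → E3) (R : E3 → E3) (D2 : E3 → ℂ) (a b : Fin 5 → ℝ)
    (ζ w : ℂ) (α lam c : ℝ) (hlam : 0 < lam) (f2 : ℝ → ℂ) (hw : 0 < w.re)
    (h1 : Continuous fun θ => gg (cyl ζ θ) (R (cyl ζ θ)))
    (h2 : Continuous f2)
    (h3 : Continuous fun θ => gg (cyl w θ) (F (cyl w θ)))
    (hD2 : ∀ θ, D2 (cyl ζ θ) = f2 θ - gg (cyl w (θ + α)) (F (cyl w (θ + α))))
    (hD : ∀ θ, ‖(lam : ℂ) * gg (cyl ζ θ) (R (cyl ζ θ)) - (f2 θ - pt a b w (θ + α))‖ ≤ c) :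
    ‖vv R ζ - ((lam⁻¹ : ℝ) : ℂ) • actC (Rm α) (vv F w - aff a b w)‖
      ≤ lam⁻¹ * (5 * c + ‖modes D2 ζ‖) := by
  have hne : (lam : ℂ) ≠ 0 := by exact_mod_cast hlam.ne'
  have h3' : Continuous fun θ => gg (cyl w (θ + α)) (F (cyl w (θ + α))) :=
    h3.comp (continuous_id.add continuous_const)
  have h4' : Continuous fun θ => pt a b w (θ + α) :=
    (MCI_pt_cont a b w).comp (continuous_id.add continuous_const)
  -- linearity of the action
  have hact : actC (Rm α) (vv F w - aff a b w)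
      = actC (Rm α) (vv F w) - actC (Rm α) (aff a b w) := by
    have := hMODP.2.2.2.2.2.1 α (vv F w - aff a b w) (aff a b w)
    rw [sub_add_cancel] at this
    rw [this, add_sub_cancel_right]
  set v : C5 := (lam : ℂ) • (vv R ζ - ((lam⁻¹ : ℝ) : ℂ) • actC (Rm α) (vv F w - aff a b w))
    - modes D2 ζ with hv
  have hcomp : ∀ k, v k = MCI_L k (fun θ => (lam : ℂ) * gg (cyl ζ θ) (R (cyl ζ θ))
      - (f2 θ - pt a b w (θ + α))) := by
    intro k
    have e1 : vv R ζ k = MCI_L k (fun θ => gg (cyl ζ θ) (R (cyl ζ θ))) := rfl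
    have e2 : actC (Rm α) (vv F w) k = MCI_L k (fun θ => gg (cyl w (θ + α)) (F (cyl w (θ + α)))) :=
      (MCI_vv hMODP (fun X => gg X (F X)) w h3 α k).symm
    have e3 : actC (Rm α) (aff a b w) k = MCI_L k (fun θ => pt a b w (θ + α)) :=
      (MCI_aff hMODP a b w hw α k).symm
    have e4 : modes D2 ζ k = MCI_L k (fun θ => f2 θ - gg (cyl w (θ + α)) (F (cyl w (θ + α)))) := by
      rw [MCI_modes]
      congr 1
      funext θ
      exact hD2 θ
    have e5 : v k = (lam : ℂ) * (vv R ζ k - ((lam⁻¹ : ℝ) : ℂ) *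
        (actC (Rm α) (vv F w) k - actC (Rm α) (aff a b w) k)) - modes D2 ζ k := by
      rw [hv, hact]
      simp
    have h1' : Continuous fun θ => (lam : ℂ) * gg (cyl ζ θ) (R (cyl ζ θ)) :=
      continuous_const.mul h1
    have h24 : Continuous fun θ => f2 θ - pt a b w (θ + α) := h2.sub h4'
    rw [e5, e1, e2, e3, e4, MCI_L_sub k f2 _ h2 h3',
      MCI_L_sub k (fun θ => (lam : ℂ) * gg (cyl ζ θ) (R (cyl ζ θ)))
        (fun θ => f2 θ - pt a b w (θ + α)) h1' h24,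
      MCI_L_sub k f2 (fun θ => pt a b w (θ + α)) h2 h4', MCI_L_smul]
    push_cast
    field_simp
    ring
  have hvn : ‖v‖ ≤ 5 * c := by
    refine MCI_norm5 v c fun k => ?_
    rw [hcomp k]
    exact MCI_L_bd k _ c hD
  have hE : ‖(lam : ℂ) • (vv R ζ - ((lam⁻¹ : ℝ) : ℂ) • actC (Rm α) (vv F w - aff a b w))‖
      ≤ 5 * c + ‖modes D2 ζ‖ := by
    have : (lam : ℂ) • (vv R ζ - ((lam⁻¹ : ℝ) : ℂ) • actC (Rm α) (vv F w - aff a b w))
        = v + modes D2 ζ := by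
      rw [hv]
      abel
    rw [this]
    exact (norm_add_le _ _).trans (add_le_add_left hvn _)
  rw [norm_smul, Complex.norm_real, Real.norm_eq_abs, abs_of_pos hlam] at hE
  rw [inv_mul_eq_div, le_div_iff₀ hlam, mul_comm]
  exact hE

theorem stmt_MCI (hMCP : Stmt_MCP) (hMCB : Stmt_MCB) (hDISP : Stmt_DISP) (hMODP : Stmt_MODP)
    (_hCYLI : Stmt_CYLI) (hMODB : Stmt_MODB) (hVCO : Stmt_VCO) (hWIN1 : Stmt_WIN1) :
    Stmt_MCI := by
  intro lm hlm hlm2
  obtain ⟨C1, κ1, hC1, hκ1, hP⟩ := hMCP lm hlm hlm2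
  obtain ⟨C2, κ2, hC2, hκ2, hB⟩ := hMCB lm hlm hlm2
  obtain ⟨C3, hC3, hDI⟩ := hDISP lm hlm (by linarith)
  have hM3 : 0 < C1 + 1 := by linarith
  set vE : ℝ := (volume EE).toReal with hvE
  have hvE0 : 0 ≤ vE := ENNReal.toReal_nonneg
  have hEEfin : volume EE < ⊤ :=
    lt_of_le_of_lt (measure_mono MCI_sub) MCI_compact.measure_lt_top
  refine ⟨lm⁻¹ * (5 * C1 * vE + 80 * (C3 * (C1 + 1))) + 1,
    min (min κ1 κ2) (min (1 / (1000 * (C1 + 1))) (lm / 1024)), by positivity, by positivity, ?_⟩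
  intro ε m η F A x0 x1 S S' hε hεκ hm hmκ hN hsub hη
  have hε1 : ε ≤ κ1 := hεκ.trans ((min_le_left _ _).trans (min_le_left _ _))
  have hε3 : ε ≤ lm / 1024 := hεκ.trans ((min_le_right _ _).trans (min_le_right _ _))
  have hm1 : m ≤ κ1 := hmκ.trans ((min_le_left _ _).trans (min_le_left _ _))
  have hm2 : m ≤ κ2 := hmκ.trans ((min_le_left _ _).trans (min_le_right _ _))
  have hm3 : m ≤ 1 / (1000 * (C1 + 1)) :=
    hmκ.trans ((min_le_right _ _).trans (min_le_left _ _))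
  obtain ⟨α, a, b, ha, hb, hrot, hpt⟩ := hP ε m F A x0 x1 S S' hε hε1 hm hm1 hN hsub
  obtain ⟨-, -, -, -, -, -, -, -, hx0z, -⟩ := hB ε m F x0 x1 S S' hm hm2 hsub
  set lam : ℝ := ‖x1 - x0‖ with hlam_def
  have hlamlow : lm ≤ lam := hsub.low
  have hlamup : lam ≤ 7 / 10 := hsub.up
  have hlam : 0 < lam := hlm.trans_le hlamlow
  set z0 : ℝ := x0 2 with hz0
  have hz0' : |z0| ≤ 17 / 2 := by
    have h1 : |z0| ≤ ‖x0‖ := by
      rw [hz0, ← Real.norm_eq_abs]
      exact PiLp.norm_apply_le x0 2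
    exact h1.trans hsub.loc
  -- the constant for the displacement
  set m' : ℝ := (C1 + 1) * m with hm'def
  have hm'0 : 0 ≤ m' := by positivity
  have hm'1 : m' ≤ 1 / 1000 := by
    have := mul_le_mul_of_nonneg_left hm3 hM3.le
    calc m' ≤ (C1 + 1) * (1 / (1000 * (C1 + 1))) := this
      _ = 1 / 1000 := by field_simp
  have hmm' : m ≤ m' := by
    rw [hm'def]
    nlinarith
  have hrot' : ∀ Y : E3, ‖act S Y - act (rotz α) Y‖ ≤ m' * ‖Y‖ := by
    intro Y
    refine (hrot Y).trans (mul_le_mul_of_nonneg_right ?_ (norm_nonneg _))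
    rw [hm'def]
    nlinarith
  have hx0z' : ‖x0 - z0 • e3‖ ≤ m' * lam :=
    hx0z.trans (mul_le_mul_of_nonneg_right hmm' hlam.le)
  obtain ⟨hDint, hDle⟩ := hDI ε F A lam m' z0 α S x0 hε hε3 hN hlamlow hlamup hm'0 hm'1
    (by linarith) hx0z' hrot'
  set D2 : E3 → ℂ := fun Y => gg (x0 + lam • act S Y) (F (x0 + lam • act S Y))
        - gg (z0 • e3 + lam • act (rotz α) Y) (F (z0 • e3 + lam • act (rotz α) Y)) with hD2
  -- geometry of the second point
  set wf : ℂ → ℂ := fun ζ => (z0 : ℂ) * I + (lam : ℂ) * ζ with hwf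
  have hwre : ∀ ζ, (wf ζ).re = lam * ζ.re := by
    intro ζ
    simp [hwf]
  have hwnorm : ∀ ζ ∈ MCI_EEc, ‖wf ζ‖ < 64 := by
    intro ζ hζ
    have h1 : ‖wf ζ‖ ≤ |z0| + lam * ‖ζ‖ := by
      refine (norm_add_le _ _).trans ?_
      rw [norm_mul, norm_mul, Complex.norm_I, mul_one, Complex.norm_real, Complex.norm_real,
        Real.norm_eq_abs, Real.norm_eq_abs, abs_of_pos hlam]
    have h2 : lam * ‖ζ‖ ≤ 7 / 10 * 32 :=
      mul_le_mul hlamup (MCI_norm_le ζ hζ) (norm_nonneg _) (by norm_num)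
    linarith
  have hwcont : Continuous wf := by
    rw [hwf]
    fun_prop
  have hwpos : ∀ ζ ∈ MCI_EEc, 0 < (wf ζ).re := by
    intro ζ hζ
    rw [hwre]
    have : 0 < ζ.re := by linarith [hζ.1]
    positivity
  have hwball : ∀ ζ ∈ MCI_EEc, ∀ θ, cyl (wf ζ) θ ∈ Metric.ball (0 : E3) 64 := by
    intro ζ hζ θ
    rw [mem_ball_zero_iff, (hWIN1.2.2.2.2.2.2.2.1 (wf ζ) θ (hwpos ζ hζ).le).2]
    exact hwnorm ζ hζ
  have hXball : ∀ ζ ∈ MCI_EEc, ∀ θ, x0 + lam • act S (cyl ζ θ) ∈ Metric.ball (0 : E3) 64 :=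
    fun ζ hζ θ => MCI_ball hWIN1 S x0 lam m' α hsub.loc hlam.le hlamup hm'1 hrot' ζ hζ θ
  -- continuity and integrability of the modes
  have hGcont := MCI_G_cont F hN.cont
  have hRcont : ContinuousOn (fun Y => gg Y (ren F x0 x1 S S' Y))
      {Y | x0 + lam • act S Y ∈ Metric.ball (0 : E3) 64} :=
    MCI_gg_cont (p := fun Y => Y) (q := ren F x0 x1 S S') continuousOn_id
      (MCI_ren_cont F hN.cont x0 x1 S S')
  have hvR : ContinuousOn (vv (ren F x0 x1 S S')) MCI_EEc := by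
    have h := MCI_modes_cont (fun Y => gg Y (ren F x0 x1 S S' Y)) MCI_EEc
      {Y | x0 + lam • act S Y ∈ Metric.ball (0 : E3) 64} hRcont (fun ζ hζ θ => hXball ζ hζ θ)
    have e : vv (ren F x0 x1 S S') = modes (fun Y => gg Y (ren F x0 x1 S S' Y)) := rfl
    rw [e]
    exact h
  have hvF : ContinuousOn (fun ζ : ℂ => vv F (wf ζ)) MCI_EEc := by
    refine ContinuousOn.comp (g := vv F) (f := wf) (hVCO ε F A hε hN).1 hwcont.continuousOn ?_
    intro ζ hζ
    exact ⟨(hwpos ζ hζ).le, hwnorm ζ hζ⟩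
  refine ⟨α, a, b, ha, hb, hvR.mono MCI_sub,
    (hvR.integrableOn_compact MCI_compact).mono_set MCI_sub, hvF.mono MCI_sub,
    (hvF.integrableOn_compact MCI_compact).mono_set MCI_sub, ?_⟩
  -- the integral
  have hCYeq := MCI_hp
  have hDint' : IntegrableOn D2 {X : E3 | hp X ∈ EE} := by
    rw [hCYeq]
    exact hDint
  obtain ⟨hMi, hMle⟩ := hMODB (1 / 16) EE D2 (by norm_num) MCI_EE_meas
    (fun ζ hζ => hζ.1.le) hDint'
  rw [hCYeq] at hMle
  have hpoint : ∀ ζ ∈ EE, ‖vv (ren F x0 x1 S S') ζ - ((lam⁻¹ : ℝ) : ℂ) • actC (Rm α)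
        (vv F (wf ζ) - aff a b (wf ζ))‖ ≤ lam⁻¹ * (5 * (C1 * (ε + m) * m) + ‖modes D2 ζ‖) := by
    intro ζ hζ
    have hζc := MCI_sub hζ
    refine MCI_point hMODP F (ren F x0 x1 S S') D2 a b ζ (wf ζ) α lam (C1 * (ε + m) * m) hlam
      (fun θ => gg (x0 + lam • act S (cyl ζ θ)) (F (x0 + lam • act S (cyl ζ θ))))
      (hwpos ζ hζc) ?_ ?_ ?_ ?_ ?_
    · refine hRcont.comp_continuous ?_ fun θ => hXball ζ hζc θ
      exact MCI_cyl_cont.comp (continuous_const.prodMk continuous_id)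
    · refine hGcont.comp_continuous ?_ fun θ => hXball ζ hζc θ
      exact (MCI_X_cont S x0 lam).comp
        (MCI_cyl_cont.comp (continuous_const.prodMk continuous_id))
    · refine hGcont.comp_continuous ?_ fun θ => hwball ζ hζc θ
      exact MCI_cyl_cont.comp (continuous_const.prodMk continuous_id)
    · intro θ
      rw [hD2]
      show _ - gg (z0 • e3 + lam • act (rotz α) (cyl ζ θ))
        (F (z0 • e3 + lam • act (rotz α) (cyl ζ θ))) = _
      rw [MCI_rotz, MCI_shift]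
    · intro θ
      exact hpt ζ hζ θ
  have hcst : IntegrableOn (fun _ : ℂ => (5 * (C1 * (ε + m) * m) : ℝ)) EE :=
    integrableOn_const hEEfin.ne
  have hdom : IntegrableOn (fun ζ => lam⁻¹ * (5 * (C1 * (ε + m) * m) + ‖modes D2 ζ‖)) EE :=
    (hcst.add hMi.norm).const_mul _
  have hle1 : ∫ ζ in EE, ‖vv (ren F x0 x1 S S') ζ - ((lam⁻¹ : ℝ) : ℂ) • actC (Rm α)
        (vv F (wf ζ) - aff a b (wf ζ))‖
      ≤ ∫ ζ in EE, lam⁻¹ * (5 * (C1 * (ε + m) * m) + ‖modes D2 ζ‖) := by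
    refine integral_mono_of_nonneg (Eventually.of_forall fun ζ => norm_nonneg _) hdom ?_
    filter_upwards [ae_restrict_mem MCI_EE_meas] with ζ hζ
    exact hpoint ζ hζ
  have hle2 : ∫ ζ in EE, lam⁻¹ * (5 * (C1 * (ε + m) * m) + ‖modes D2 ζ‖)
      = lam⁻¹ * (5 * (C1 * (ε + m) * m) * vE + ∫ ζ in EE, ‖modes D2 ζ‖) := by
    rw [integral_const_mul]
    congr 1
    rw [integral_add hcst hMi.norm]
    congr 1
    rw [setIntegral_const, smul_eq_mul, Measure.real, hvE]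
    ring
  have hη0 : 0 ≤ η := by
    refine le_trans ?_ hη
    refine integral_nonneg fun X => ?_
    unfold grd
    positivity
  have hCYint : ∫ Y in CY, ‖D2 Y‖ ≤ C3 * m' * η := by
    refine hDle.trans ?_
    exact mul_le_mul_of_nonneg_left hη (by positivity)
  have hmod : ∫ ζ in EE, ‖modes D2 ζ‖ ≤ 80 * (C3 * m' * η) := by
    refine hMle.trans ?_
    have : (5 : ℝ) * (1 / 16)⁻¹ = 80 := by norm_num
    rw [this]
    exact mul_le_mul_of_nonneg_left hCYint (by norm_num)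
  refine hle1.trans ?_
  rw [hle2]
  have hinv : lam⁻¹ ≤ lm⁻¹ := inv_anti₀ hlm hlamlow
  have hX0 : 0 ≤ 5 * (C1 * (ε + m) * m) * vE + ∫ ζ in EE, ‖modes D2 ζ‖ := by
    have : 0 ≤ ∫ ζ in EE, ‖modes D2 ζ‖ := integral_nonneg fun _ => norm_nonneg _
    positivity
  calc lam⁻¹ * (5 * (C1 * (ε + m) * m) * vE + ∫ ζ in EE, ‖modes D2 ζ‖)
      ≤ lm⁻¹ * (5 * (C1 * (ε + m) * m) * vE + ∫ ζ in EE, ‖modes D2 ζ‖) :=
        mul_le_mul_of_nonneg_right hinv hX0
    _ ≤ lm⁻¹ * (5 * (C1 * (ε + m) * m) * vE + 80 * (C3 * m' * η)) := by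
        refine mul_le_mul_of_nonneg_left ?_ (inv_pos.mpr hlm).le
        exact add_le_add_right hmod _
    _ ≤ lm⁻¹ * ((5 * C1 * vE + 80 * (C3 * (C1 + 1))) * (ε + m + η) * m) := by
        refine mul_le_mul_of_nonneg_left ?_ (inv_pos.mpr hlm).le
        rw [hm'def]
        have t1 : 0 ≤ 5 * C1 * vE * η * m := by positivity
        have t2 : 0 ≤ 80 * (C3 * (C1 + 1)) * (ε + m) * m := by positivity
        nlinarith [t1, t2]
    _ ≤ (lm⁻¹ * (5 * C1 * vE + 80 * (C3 * (C1 + 1))) + 1) * (ε + m + η) * m := by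
        have t3 : 0 ≤ (ε + m + η) * m := by positivity
        nlinarith [t3]

end Pool.Mart
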