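import Pool.Agent.Work.MP_680515_an.B.RENC

/-!
# MP_680515_an: block MCP (helper2)

Pointwise comparison of two models.
-/

open MeasureTheory Set Filter Topology Complex

namespace Pool.Mart.MCP_

open RENC_

lemma mul_bd {x y p q : ℝ} (hx : |x| ≤ p) (hy : |y| ≤ q) : |x * y| ≤ p * q := by
  rw [abs_mul]
  exact mul_le_mul hx hy (abs_nonneg _) (le_trans (abs_nonneg _) hx)

lemma one_bd {x y q : ℝ} (hx : |x| ≤ 1) (hy : |y| ≤ q) : |x * y| ≤ q := by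
  have := mul_bd hx hy
  rwa [one_mul] at this

/-- real part -/
lemma re_bd {B s m ν δ δ' η b0 rW rX P Z w0 w1 q0 q1 Wz v0 v1 c2 s2 f0 f1 x0 x1 Xz u0 u1 c1 s1
    b1 b2 b3 b4 : ℝ} (hB : 1 ≤ B) (hs : 0 ≤ s) (hm : 0 ≤ m) (hν : ν = 1 + b0 + η)
    (h1 : |ν| ≤ B) (h2 : |δ'| ≤ B * (s * m)) (h3 : |δ| ≤ B * (s * m)) (h4 : |η| ≤ B * (s * m))
    (h5 : |rW| ≤ B) (h6 : |b0| ≤ B * m) (h7 : |rW - P| ≤ B * s) (h8 : |b0 + η| ≤ B * m)
    (h9 : |w0 * (q0 + Wz * v0) + w1 * (q1 + Wz * v1)| ≤ B * s)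
    (h10 : |w0 - c2| ≤ B * s) (h11 : |w1 - s2| ≤ B * s)
    (h12 : |q0 + Wz * v0| ≤ B * m) (h13 : |q1 + Wz * v1| ≤ B * m)
    (h14 : |c2| ≤ 1) (h15 : |s2| ≤ 1) (h16 : |c1| ≤ 1) (h17 : |s1| ≤ 1)
    (h18 : |Wz - Z| ≤ B * s) (h19 : |v0| ≤ B * m) (h20 : |v1| ≤ B * m)
    (h21 : |f0 - c1| ≤ B * s) (h22 : |f1 - s1| ≤ B * s)
    (h23 : |x0 + Xz * u0| ≤ B * m) (h24 : |x1 + Xz * u1| ≤ B * m)
    (h25 : |Xz - Z| ≤ B * s) (h26 : |u0| ≤ B * m) (h27 : |u1| ≤ B * m)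
    (h28 : |b1 + u0 / 2| ≤ B * (s * m)) (h29 : |b2 + u1 / 2| ≤ B * (s * m))
    (h30 : |b3 - v0 / 2| ≤ B * (s * m)) (h31 : |b4 - v1 / 2| ≤ B * (s * m)) (h32 : |Z| ≤ B) :
    |(ν * (rW - (w0 * (q0 + Wz * v0) + w1 * (q1 + Wz * v1)) + δ')
        - (rX - (f0 * (x0 + Xz * u0) + f1 * (x1 + Xz * u1)) + δ)) - (rW - rX)
      + (-(b0 * P) + 2 * c1 * (-x0 / 2 + b1 * Z) + 2 * s1 * (-x1 / 2 + b2 * Z)
        + 2 * c2 * (q0 / 2 + b3 * Z) + 2 * s2 * (q1 / 2 + b4 * Z))| ≤ 21 * B ^ 2 * (s * m) := by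
  have t1 := mul_bd h1 h2
  have t3 := mul_bd h4 h5
  have t4 := mul_bd h6 h7
  have t5 := mul_bd h8 h9
  have t6 := mul_bd h10 h12
  have t7 := mul_bd h11 h13
  have t8 := one_bd h14 (mul_bd h18 h19)
  have t9 := one_bd h15 (mul_bd h18 h20)
  have t10 := mul_bd h21 h23
  have t11 := mul_bd h22 h24
  have t12 := one_bd h16 (mul_bd h25 h26)
  have t13 := one_bd h17 (mul_bd h25 h27)
  have t14 := one_bd h16 (mul_bd h28 h32)
  have t15 := one_bd h17 (mul_bd h29 h32)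
  have t16 := one_bd h14 (mul_bd h30 h32)
  have t17 := one_bd h15 (mul_bd h31 h32)
  have hsm : 0 ≤ s * m := mul_nonneg hs hm
  have hBB : B * (s * m) ≤ B ^ 2 * (s * m) := by
    refine mul_le_mul_of_nonneg_right ?_ hsm
    nlinarith
  have key : (ν * (rW - (w0 * (q0 + Wz * v0) + w1 * (q1 + Wz * v1)) + δ')
        - (rX - (f0 * (x0 + Xz * u0) + f1 * (x1 + Xz * u1)) + δ)) - (rW - rX)
      + (-(b0 * P) + 2 * c1 * (-x0 / 2 + b1 * Z) + 2 * s1 * (-x1 / 2 + b2 * Z)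
        + 2 * c2 * (q0 / 2 + b3 * Z) + 2 * s2 * (q1 / 2 + b4 * Z))
      = ν * δ' - δ + η * rW + b0 * (rW - P)
        - (b0 + η) * (w0 * (q0 + Wz * v0) + w1 * (q1 + Wz * v1))
        - (w0 - c2) * (q0 + Wz * v0) - (w1 - s2) * (q1 + Wz * v1)
        - c2 * ((Wz - Z) * v0) - s2 * ((Wz - Z) * v1)
        + (f0 - c1) * (x0 + Xz * u0) + (f1 - s1) * (x1 + Xz * u1)
        + c1 * ((Xz - Z) * u0) + s1 * ((Xz - Z) * u1)
        + 2 * (c1 * ((b1 + u0 / 2) * Z)) + 2 * (s1 * ((b2 + u1 / 2) * Z))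
        + 2 * (c2 * ((b3 - v0 / 2) * Z)) + 2 * (s2 * ((b4 - v1 / 2) * Z)) := by
    subst hν
    ring
  rw [key]
  have e1 : B * (B * (s * m)) = B ^ 2 * (s * m) := by ring
  have e2 : B * (s * m) * B = B ^ 2 * (s * m) := by ring
  have e3 : B * m * (B * s) = B ^ 2 * (s * m) := by ring
  have e4 : B * s * (B * m) = B ^ 2 * (s * m) := by ring
  rw [e1] at t1
  rw [e2] at t3 t14 t15 t16 t17
  rw [e3] at t4 t5
  rw [e4] at t6 t7 t8 t9 t10 t11 t12 t13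
  have a1 := abs_le.mp t1
  have a2 := abs_le.mp h3
  have a3 := abs_le.mp t3
  have a4 := abs_le.mp t4
  have a5 := abs_le.mp t5
  have a6 := abs_le.mp t6
  have a7 := abs_le.mp t7
  have a8 := abs_le.mp t8
  have a9 := abs_le.mp t9
  have a10 := abs_le.mp t10
  have a11 := abs_le.mp t11
  have a12 := abs_le.mp t12
  have a13 := abs_le.mp t13
  have a14 := abs_le.mp t14
  have a15 := abs_le.mp t15
  have a16 := abs_le.mp t16
  have a17 := abs_le.mp t17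
  rw [abs_le]
  constructor
  · linarith only [hBB, a1.1, a2.2, a3.1, a4.1, a5.2, a6.2, a7.2, a8.2, a9.2, a10.1, a11.1, a12.1,
      a13.1, a14.1, a15.1, a16.1, a17.1]
  · linarith only [hBB, a1.2, a2.1, a3.2, a4.2, a5.1, a6.1, a7.1, a8.1, a9.1, a10.2, a11.2, a12.2,
      a13.2, a14.2, a15.2, a16.2, a17.2]

/-- imaginary part -/
lemma im_bd {B s m ν τ τ' η b0 P Z W0 W1 dq Wz v0 v1 c2 s2 X0 X1 Xz u0 u1 c1 s1
    b1 b2 b3 b4 : ℝ} (hB : 1 ≤ B) (hs : 0 ≤ s) (hm : 0 ≤ m) (hν : ν = 1 + b0 + η)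
    (h1 : |ν| ≤ B) (h2 : |τ'| ≤ B * (s * m)) (h3 : |τ| ≤ B * (s * m)) (h4 : |η| ≤ B * (s * m))
    (h5 : |Wz| ≤ B) (h6 : |b0| ≤ B * m) (h7 : |Wz - Z| ≤ B * s) (h8 : |b0 + η| ≤ B * m)
    (h9 : |W0 * v0 + W1 * v1| ≤ B * s)
    (h10 : |W0 - P * c2| ≤ B * s) (h11 : |W1 - P * s2| ≤ B * s)
    (h14 : |c2| ≤ 1) (h15 : |s2| ≤ 1) (h16 : |c1| ≤ 1) (h17 : |s1| ≤ 1)
    (h19 : |v0| ≤ B * m) (h20 : |v1| ≤ B * m)
    (h21 : |X0 - P * c1| ≤ B * s) (h22 : |X1 - P * s1| ≤ B * s)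
    (h26 : |u0| ≤ B * m) (h27 : |u1| ≤ B * m)
    (h28 : |b1 + u0 / 2| ≤ B * (s * m)) (h29 : |b2 + u1 / 2| ≤ B * (s * m))
    (h30 : |b3 - v0 / 2| ≤ B * (s * m)) (h31 : |b4 - v1 / 2| ≤ B * (s * m)) (h32 : |P| ≤ B) :
    |(ν * (Wz + (W0 * v0 + W1 * v1) + τ') - (Xz + (X0 * u0 + X1 * u1) + τ)) - (Wz - Xz + dq)
      + (dq - b0 * Z - 2 * P * (c1 * b1 + s1 * b2 + c2 * b3 + s2 * b4))|
      ≤ 17 * B ^ 2 * (s * m) := by
  have t1 := mul_bd h1 h2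
  have t3 := mul_bd h4 h5
  have t4 := mul_bd h6 h7
  have t5 := mul_bd h8 h9
  have t6 := mul_bd h10 h19
  have t7 := mul_bd h11 h20
  have t10 := mul_bd h21 h26
  have t11 := mul_bd h22 h27
  have t14 := one_bd h16 (mul_bd h28 h32)
  have t15 := one_bd h17 (mul_bd h29 h32)
  have t16 := one_bd h14 (mul_bd h30 h32)
  have t17 := one_bd h15 (mul_bd h31 h32)
  have hsm : 0 ≤ s * m := mul_nonneg hs hm
  have hBB : B * (s * m) ≤ B ^ 2 * (s * m) := by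
    refine mul_le_mul_of_nonneg_right ?_ hsm
    nlinarith
  have key : (ν * (Wz + (W0 * v0 + W1 * v1) + τ') - (Xz + (X0 * u0 + X1 * u1) + τ))
      - (Wz - Xz + dq)
      + (dq - b0 * Z - 2 * P * (c1 * b1 + s1 * b2 + c2 * b3 + s2 * b4))
      = ν * τ' - τ + η * Wz + b0 * (Wz - Z) + (b0 + η) * (W0 * v0 + W1 * v1)
        + (W0 - P * c2) * v0 + (W1 - P * s2) * v1 - (X0 - P * c1) * u0 - (X1 - P * s1) * u1
        - 2 * (c1 * ((b1 + u0 / 2) * P)) - 2 * (s1 * ((b2 + u1 / 2) * P))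
        - 2 * (c2 * ((b3 - v0 / 2) * P)) - 2 * (s2 * ((b4 - v1 / 2) * P)) := by
    subst hν
    ring
  rw [key]
  have e1 : B * (B * (s * m)) = B ^ 2 * (s * m) := by ring
  have e2 : B * (s * m) * B = B ^ 2 * (s * m) := by ring
  have e3 : B * m * (B * s) = B ^ 2 * (s * m) := by ring
  have e4 : B * s * (B * m) = B ^ 2 * (s * m) := by ring
  rw [e1] at t1
  rw [e2] at t3 t14 t15 t16 t17
  rw [e3] at t4 t5
  rw [e4] at t6 t7 t10 t11
  have a1 := abs_le.mp t1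
  have a2 := abs_le.mp h3
  have a3 := abs_le.mp t3
  have a4 := abs_le.mp t4
  have a5 := abs_le.mp t5
  have a6 := abs_le.mp t6
  have a7 := abs_le.mp t7
  have a10 := abs_le.mp t10
  have a11 := abs_le.mp t11
  have a14 := abs_le.mp t14
  have a15 := abs_le.mp t15
  have a16 := abs_le.mp t16
  have a17 := abs_le.mp t17
  rw [abs_le]
  constructor
  · linarith only [hBB, a1.1, a2.2, a3.1, a4.1, a5.1, a6.1, a7.1, a10.2, a11.2,
      a14.2, a15.2, a16.2, a17.2]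
  · linarith only [hBB, a1.2, a2.1, a3.2, a4.2, a5.2, a6.2, a7.2, a10.1, a11.1,
      a14.1, a15.1, a16.1, a17.1]

lemma apply_le (x : E3) (i : Fin 3) : |x i| ≤ ‖x‖ := by
  rw [← Real.norm_eq_abs]
  exact PiLp.norm_apply_le x i

lemma ext3 {X Y : E3} (h0 : X 0 = Y 0) (h1 : X 1 = Y 1) (h2 : X 2 = Y 2) : X = Y := by
  ext i
  fin_cases i
  · exact h0
  · exact h1
  · exact h2

lemma abs0_le_rad (x : E3) : |x 0| ≤ rad x := by
  unfold rad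
  exact Real.abs_le_sqrt (by nlinarith [sq_nonneg (x 1)])

lemma abs1_le_rad (x : E3) : |x 1| ≤ rad x := by
  unfold rad
  exact Real.abs_le_sqrt (by nlinarith [sq_nonneg (x 0)])

lemma rad_sub_le (x y : E3) : |rad x - rad y| ≤ ‖x - y‖ := by
  have h1 : rad x ≤ rad y + ‖x - y‖ := by
    have h : x = y + (x - y) := by abel
    have := rad_add y (x - y)
    rw [← h] at this
    linarith [rad_le_norm (x - y)]
  have h2 : rad y ≤ rad x + ‖x - y‖ := by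
    have h : y = x + (y - x) := by abel
    have := rad_add x (y - x)
    rw [← h] at this
    have h3 := rad_le_norm (y - x)
    rw [norm_sub_rev] at h3
    linarith
  rw [abs_le]
  constructor <;> linarith

/-- unit vector comparison -/
lemma er_bd {x r c P d ρ : ℝ} (hc : |c| ≤ 1) (h1 : |x - P * c| ≤ d) (h2 : |r - P| ≤ d) (hρ : 0 < ρ)
    (hr : ρ ≤ r) : |x / r - c| ≤ 2 * d / ρ := by
  have hr0 : 0 < r := lt_of_lt_of_le hρ hr
  have h3 : x / r - c = ((x - P * c) - c * (r - P)) / r := by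
    field_simp
    ring
  have h4 : |(x - P * c) - c * (r - P)| ≤ 2 * d := by
    have h5 := one_bd hc h2
    rw [abs_le] at *
    constructor <;> linarith
  rw [h3, abs_div, abs_of_pos hr0]
  have hd : 0 ≤ 2 * d := le_trans (abs_nonneg _) h4
  exact div_le_div₀ hd h4 hρ hr

lemma div_rad_le {x : E3} (h : 0 < rad x) : |x 0 / rad x| ≤ 1 ∧ |x 1 / rad x| ≤ 1 := by
  constructor
  · rw [abs_div, abs_of_pos h, div_le_one h]
    exact abs0_le_rad x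
  · rw [abs_div, abs_of_pos h, div_le_one h]
    exact abs1_le_rad x

lemma sum4 (f : Fin 5 → ℂ) : ∑ k ∈ ({1, 2, 3, 4} : Finset (Fin 5)), f k = f 1 + f 2 + f 3 + f 4 := by
  rw [Finset.sum_insert (by decide), Finset.sum_insert (by decide), Finset.sum_insert (by decide),
    Finset.sum_singleton]
  ring

lemma pt_eq (a b : Fin 5 → ℝ) (ζ : ℂ) (θ : ℝ) :
    pt a b ζ θ = ((-(b 0 * ζ.re) + 2 * Real.cos θ * (a 1 + b 1 * ζ.im)
      + 2 * Real.sin θ * (a 2 + b 2 * ζ.im) + 2 * Real.cos (2 * θ) * (a 3 + b 3 * ζ.im)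
      + 2 * Real.sin (2 * θ) * (a 4 + b 4 * ζ.im) : ℝ) : ℂ)
      + ((-(a 0 + b 0 * ζ.im) - 2 * ζ.re * (Real.cos θ * b 1 + Real.sin θ * b 2
        + Real.cos (2 * θ) * b 3 + Real.sin (2 * θ) * b 4) : ℝ) : ℂ) * I := by
  have hζ : -I * ζ = (ζ.im : ℂ) - (ζ.re : ℂ) * I := by
    apply Complex.ext <;> simp
  have k1 : kap 1 θ = Real.cos θ := rfl
  have k2 : kap 2 θ = Real.sin θ := rfl
  have k3 : kap 3 θ = Real.cos (2 * θ) := rfl
  have k4 : kap 4 θ = Real.sin (2 * θ) := rfl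
  unfold pt
  rw [sum4, hζ, k1, k2, k3, k4]
  push_cast
  linear_combination (b 0 * ζ.re : ℂ) * Complex.I_sq

lemma rz (α : ℝ) (ζ : ℂ) (θ : ℝ) (l z0 : ℝ) :
    z0 • e3 + l • act (rotz α) (cyl ζ θ) = cyl ((z0 : ℂ) * I + (l : ℂ) * ζ) (θ + α) := by
  have hre : ((z0 : ℂ) * I + (l : ℂ) * ζ).re = l * ζ.re := by simp
  have him : ((z0 : ℂ) * I + (l : ℂ) * ζ).im = z0 + l * ζ.im := by simp
  have c0 : cyl ζ θ 0 = ζ.re * Real.cos θ := rfl
  have c1 : cyl ζ θ 1 = ζ.re * Real.sin θ := rfl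
  have c2 : cyl ζ θ 2 = ζ.im := rfl
  apply ext3
  · have h1 : (z0 • e3 + l • act (rotz α) (cyl ζ θ)) 0
        = z0 * e3 0 + l * act (rotz α) (cyl ζ θ) 0 := rfl
    have h2 : cyl ((z0 : ℂ) * I + (l : ℂ) * ζ) (θ + α) 0
        = ((z0 : ℂ) * I + (l : ℂ) * ζ).re * Real.cos (θ + α) := rfl
    have r0 : rotz α 0 0 = Real.cos α := rfl
    have r1 : rotz α 0 1 = -Real.sin α := rfl
    have r2 : rotz α 0 2 = 0 := rfl
    rw [h1, h2, hre, act_apply, c0, c1, c2, r0, r1, r2, e3_0, Real.cos_add]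
    ring
  · have h1 : (z0 • e3 + l • act (rotz α) (cyl ζ θ)) 1
        = z0 * e3 1 + l * act (rotz α) (cyl ζ θ) 1 := rfl
    have h2 : cyl ((z0 : ℂ) * I + (l : ℂ) * ζ) (θ + α) 1
        = ((z0 : ℂ) * I + (l : ℂ) * ζ).re * Real.sin (θ + α) := rfl
    have r0 : rotz α 1 0 = Real.sin α := rfl
    have r1 : rotz α 1 1 = Real.cos α := rfl
    have r2 : rotz α 1 2 = 0 := rfl
    rw [h1, h2, hre, act_apply, c0, c1, c2, r0, r1, r2, e3_1, Real.sin_add]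
    ring
  · have h1 : (z0 • e3 + l • act (rotz α) (cyl ζ θ)) 2
        = z0 * e3 2 + l * act (rotz α) (cyl ζ θ) 2 := rfl
    have h2 : cyl ((z0 : ℂ) * I + (l : ℂ) * ζ) (θ + α) 2
        = ((z0 : ℂ) * I + (l : ℂ) * ζ).im := rfl
    have r0 : rotz α 2 0 = 0 := rfl
    have r1 : rotz α 2 1 = 0 := rfl
    have r2 : rotz α 2 2 = 1 := rfl
    rw [h1, h2, him, act_apply, c0, c1, c2, r0, r1, r2, e3_2]
    ring


lemma add_bd {x y p q : ℝ} (hx : |x| ≤ p) (hy : |y| ≤ q) : |x + y| ≤ p + q :=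
  (abs_add_le x y).trans (add_le_add hx hy)

lemma sub_bd {x y p q : ℝ} (hx : |x| ≤ p) (hy : |y| ≤ q) : |x - y| ≤ p + q :=
  (abs_sub x y).trans (add_le_add hx hy)

/-- constants -/
lemma consts {CM CL C1 ρ : ℝ} (hCM : 0 < CM) (hCL : 0 < CL) (hC1 : 1 ≤ C1) (hρ : 0 < ρ)
    (hρ1 : ρ ≤ 1) : ∃ B : ℝ, 500 ≤ B ∧ 4 * CM ≤ B ∧ 4 * CL ≤ B ∧ 2 * (1 + 2 * C1) / ρ ≤ B ∧
      2 * (1 + 2 * C1) ≤ B := by
  have h0 : 0 ≤ 2 * (1 + 2 * C1) := by linarith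
  have h1 : 2 * (1 + 2 * C1) ≤ 2 * (1 + 2 * C1) / ρ := by
    rw [le_div_iff₀ hρ]
    nlinarith
  exact ⟨500 + 4 * CM + 4 * CL + 2 * (1 + 2 * C1) / ρ, by linarith, by linarith, by linarith,
    by linarith, by linarith⟩

/-- position of the source point -/
lemma src {x0 : E3} {S : M3} {α CR m l : ℝ} {ζ : ℂ} {θ : ℝ} (hm : 0 ≤ m) (hCR : 0 ≤ CR)
    (hl0 : 0 ≤ l) (hl1 : l ≤ 1) (hx0 : ‖x0 - (x0 2) • e3‖ ≤ m * l)
    (hα : ‖act S (cyl ζ θ) - act (rotz α) (cyl ζ θ)‖ ≤ CR * m * ‖cyl ζ θ‖)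
    (hY : ‖cyl ζ θ‖ ≤ 32) :
    ‖(x0 + l • act S (cyl ζ θ)) - cyl ((x0 2 : ℂ) * I + (l : ℂ) * ζ) (θ + α)‖
      ≤ (1 + 32 * CR) * m := by
  have h2 : (x0 + l • act S (cyl ζ θ)) - cyl ((x0 2 : ℂ) * I + (l : ℂ) * ζ) (θ + α)
      = (x0 - (x0 2) • e3) + l • (act S (cyl ζ θ) - act (rotz α) (cyl ζ θ)) := by
    rw [← rz α ζ θ l (x0 2), smul_sub]
    abel
  rw [h2]
  refine (norm_add_le _ _).trans ?_
  rw [norm_smul, Real.norm_eq_abs, abs_of_nonneg hl0]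
  have h4 : CR * m * ‖cyl ζ θ‖ ≤ CR * m * 32 :=
    mul_le_mul_of_nonneg_left hY (mul_nonneg hCR hm)
  have h5 : l * ‖act S (cyl ζ θ) - act (rotz α) (cyl ζ θ)‖ ≤ 1 * (CR * m * 32) :=
    mul_le_mul hl1 (hα.trans h4) (norm_nonneg _) (by norm_num)
  have h6 : m * l ≤ m * 1 := mul_le_mul_of_nonneg_left hl1 hm
  linarith

/-- position of the target point -/
lemma tgt {X Xh W : E3} {ε m s C1 : ℝ} (hε : 0 ≤ ε) (hm : 0 ≤ m) (hs : s = ε + m) (hC1 : 1 ≤ C1)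
    (wlip : ∀ X Y : E3, ‖wind X - wind Y‖ ≤ 2 * ‖X - Y‖) (hX : ‖X - Xh‖ ≤ C1 * m)
    (hW : ‖W - wind X‖ ≤ ε) : ‖W - wind Xh‖ ≤ (1 + 2 * C1) * s := by
  have h1 : W - wind Xh = (W - wind X) + (wind X - wind Xh) := by abel
  rw [h1]
  refine (norm_add_le _ _).trans ?_
  have h2 := wlip X Xh
  subst hs
  nlinarith

lemma nrm_bd {x0 : E3} {S : M3} {l : ℝ} {Y : E3} (hS : S ∈ Matrix.specialOrthogonalGroup (Fin 3) ℝ)
    (hl0 : 0 ≤ l) (hl1 : l ≤ 7 / 10) (hx0 : ‖x0‖ ≤ 17 / 2) (hY : ‖Y‖ ≤ 32) :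
    ‖x0 + l • act S Y‖ ≤ 31 := by
  refine (norm_add_le _ _).trans ?_
  rw [norm_smul, Real.norm_eq_abs, abs_of_nonneg hl0, norm_act hS]
  nlinarith [norm_nonneg Y]

/-- unit vector bounds with the constant `B` -/
lemma er_bd' {x r c P s C1 ρ B : ℝ} (hs : 0 ≤ s) (hB : 2 * (1 + 2 * C1) / ρ ≤ B) (hc : |c| ≤ 1)
    (h1 : |x - P * c| ≤ (1 + 2 * C1) * s) (h2 : |r - P| ≤ (1 + 2 * C1) * s) (hρ : 0 < ρ)
    (hr : ρ ≤ r) : |x / r - c| ≤ B * s := by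
  refine (er_bd hc h1 h2 hρ hr).trans ?_
  have : 2 * ((1 + 2 * C1) * s) / ρ = (2 * (1 + 2 * C1) / ρ) * s := by ring
  rw [this]
  exact mul_le_mul_of_nonneg_right hB hs

lemma gg_eq (X Y : E3) : gg X Y = ((rad Y - rad X : ℝ) : ℂ) + ((Y 2 - X 2 : ℝ) : ℂ) * I := rfl

/-- final step: complex from real -/
lemma cpl {z : ℂ} {R J K : ℝ} (hz : z = (R : ℂ) + (J : ℂ) * I) (hR : |R| ≤ K) (hJ : |J| ≤ K) :
    ‖z‖ ≤ K + K := by
  rw [hz]
  refine (norm_add_le _ _).trans ?_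
  rw [norm_mul, Complex.norm_I, mul_one, Complex.norm_real, Complex.norm_real, Real.norm_eq_abs,
    Real.norm_eq_abs]
  exact add_le_add hR hJ


/-- real core -/
lemma core {B CM CL C1 ρ ε m s ν b0 b1 b2 b3 b4 W0 W1 W2 rW X0 X1 X2 rX q0 q1 q2 y0 y1 y2
    v0 v1 u0 u1 c1 s1 c2 s2 P Z D' T' : ℝ}
    (hB500 : 500 ≤ B) (hBM : 4 * CM ≤ B) (hBL : 4 * CL ≤ B) (hBq : 2 * (1 + 2 * C1) / ρ ≤ B)
    (hBr : 2 * (1 + 2 * C1) ≤ B) (hCM : 0 < CM) (hCL : 0 < CL) (hC1 : 1 ≤ C1) (hρ : 0 < ρ)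
    (hε : 0 ≤ ε) (hm : 0 ≤ m) (hm1 : m ≤ 1) (hs : s = ε + m)
    (hη : |b0 - (ν - 1)| ≤ CM * m ^ 2) (hb0 : |b0| ≤ CM * m)
    (hb1 : |b1 + u0 / 2| ≤ CM * m ^ 2) (hb2 : |b2 + u1 / 2| ≤ CM * m ^ 2)
    (hb3 : |b3 - v0 / 2| ≤ CM * m ^ 2) (hb4 : |b4 - v1 / 2| ≤ CM * m ^ 2)
    (hu0 : |u0| ≤ m) (hu1 : |u1| ≤ m) (hv0 : |v0| ≤ 2 * m) (hv1 : |v1| ≤ 2 * m)
    (hq0 : |q0| ≤ m) (hq1 : |q1| ≤ m) (hq2 : |q2 - y2| ≤ m) (hy0 : |y0| ≤ m) (hy1 : |y1| ≤ m)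
    (hy2 : |y2| ≤ 17 / 2) (hW0 : |W0| ≤ 32) (hW1 : |W1| ≤ 32) (hW2 : |W2| ≤ 32)
    (hX2 : |X2| ≤ 31) (hrW : |rW| ≤ 32) (hρX : ρ ≤ rX) (hρW : ρ ≤ rW)
    (hc1 : |c1| ≤ 1) (hs1 : |s1| ≤ 1) (hc2 : |c2| ≤ 1) (hs2 : |s2| ≤ 1)
    (e0 : |W0 / rW| ≤ 1) (e1 : |W1 / rW| ≤ 1)
    (bX0 : |X0 - P * c1| ≤ C1 * m) (bX1 : |X1 - P * s1| ≤ C1 * m)
    (bX2 : |X2 - (y2 + Z)| ≤ C1 * m) (bXr : |rX - P| ≤ C1 * m)
    (bW0 : |W0 - P * c2| ≤ (1 + 2 * C1) * s) (bW1 : |W1 - P * s2| ≤ (1 + 2 * C1) * s)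
    (bW2 : |W2 - (y2 + Z)| ≤ (1 + 2 * C1) * s) (bWr : |rW - P| ≤ (1 + 2 * C1) * s)
    (hP : |P| ≤ 16) (hZ : |Z| ≤ 16)
    (L1 : |P - (rX - (X0 / rX * (y0 + (X2 - y2) * u0) + X1 / rX * (y1 + (X2 - y2) * u1)))|
      ≤ CL * m ^ 2)
    (L2 : |Z - ((X2 - y2) + (X0 * u0 + X1 * u1))| ≤ CL * m ^ 2)
    (L3 : |D' - (rW - (W0 / rW * (q0 + (W2 - q2) * v0) + W1 / rW * (q1 + (W2 - q2) * v1)))|
      ≤ CL * (2 * m) ^ 2)
    (L4 : |T' - ((W2 - q2) + (W0 * v0 + W1 * v1))| ≤ CL * (2 * m) ^ 2) :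
    |(ν * D' - P) - (rW - rX) + (-(b0 * P) + 2 * c1 * (-y0 / 2 + b1 * Z)
        + 2 * s1 * (-y1 / 2 + b2 * Z) + 2 * c2 * (q0 / 2 + b3 * Z)
        + 2 * s2 * (q1 / 2 + b4 * Z))| ≤ 21 * B ^ 2 * (s * m) ∧
    |(ν * T' - Z) - (W2 - X2) + ((q2 - y2) - b0 * Z
        - 2 * P * (c1 * b1 + s1 * b2 + c2 * b3 + s2 * b4))| ≤ 17 * B ^ 2 * (s * m) := by
  have hB0 : 0 ≤ B := by linarith only [hB500]
  have hB1 : 1 ≤ B := by linarith only [hB500]
  have hs0 : 0 ≤ s := by linarith only [hs, hε, hm]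
  have hms : m ≤ s := by linarith only [hs, hε, hm]
  have hsm : 0 ≤ s * m := mul_nonneg hs0 hm
  have hmm : m ^ 2 ≤ s * m := by
    have := mul_le_mul_of_nonneg_right hms hm
    linarith only [this, show m ^ 2 = m * m by ring]
  have hm2 : m ^ 2 ≤ m := by
    have := mul_le_mul_of_nonneg_right hm1 hm
    linarith only [this, show m ^ 2 = m * m by ring]
  have hMs : CM * m ^ 2 ≤ B * (s * m) := by
    have h1 : CM * m ^ 2 ≤ B * m ^ 2 :=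
      mul_le_mul_of_nonneg_right (by linarith only [hBM, hCM]) (sq_nonneg m)
    have h2 := mul_le_mul_of_nonneg_left hmm hB0
    linarith only [h1, h2]
  have hLs : CL * m ^ 2 ≤ B * (s * m) := by
    have h1 : CL * m ^ 2 ≤ B * m ^ 2 :=
      mul_le_mul_of_nonneg_right (by linarith only [hBL, hCL]) (sq_nonneg m)
    have h2 := mul_le_mul_of_nonneg_left hmm hB0
    linarith only [h1, h2]
  have hLs' : CL * (2 * m) ^ 2 ≤ B * (s * m) := by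
    have h1 : 4 * CL * m ^ 2 ≤ B * m ^ 2 := mul_le_mul_of_nonneg_right hBL (sq_nonneg m)
    have h2 := mul_le_mul_of_nonneg_left hmm hB0
    linarith only [h1, h2, show CL * (2 * m) ^ 2 = 4 * CL * m ^ 2 by ring]
  have hBm0 : 0 ≤ B * m := mul_nonneg hB0 hm
  have hBms : B * m ≤ B * s := mul_le_mul_of_nonneg_left hms hB0
  have h500 : 500 * m ≤ B * m := mul_le_mul_of_nonneg_right hB500 hm
  have hMm : CM * m ^ 2 ≤ CM * m := mul_le_mul_of_nonneg_left hm2 hCM.le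
  have hMB : 4 * CM * m ≤ B * m := mul_le_mul_of_nonneg_right hBM hm
  have hCMm0 : 0 ≤ CM * m := mul_nonneg hCM.le hm
  have hCr : (1 + 2 * C1) * s ≤ B * s :=
    mul_le_mul_of_nonneg_right (by linarith only [hBr, hC1]) hs0
  have hCrs : 0 ≤ (1 + 2 * C1) * s := mul_nonneg (by linarith only [hC1]) hs0
  have hC1m : C1 * m ≤ (1 + 2 * C1) * s := by
    have h1 := mul_le_mul_of_nonneg_left hms (show 0 ≤ C1 by linarith only [hC1])
    have h2 : 0 ≤ C1 * s := mul_nonneg (by linarith only [hC1]) hs0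
    linarith only [h1, h2, hs0]
  have hC1B : C1 * m ≤ B * s := hC1m.trans hCr
  -- ν
  have hη1 : |(ν - 1 - b0)| ≤ B * (s * m) := by
    have : ν - 1 - b0 = -(b0 - (ν - 1)) := by ring
    rw [this, abs_neg]
    exact hη.trans hMs
  have hν8 : |b0 + (ν - 1 - b0)| ≤ B * m := by
    have h1 := sub_bd hb0 hη
    have : b0 - (b0 - (ν - 1)) = b0 + (ν - 1 - b0) := by ring
    rw [this] at h1
    linarith only [h1, hMm, hMB, hCMm0]
  have hνB : |ν| ≤ B := by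
    have h1 := add_bd (show |(1 : ℝ)| ≤ 1 by simp) hν8
    have : 1 + (b0 + (ν - 1 - b0)) = ν := by ring
    rw [this] at h1
    have h2 := sub_bd hb0 hη
    have h3 : b0 - (b0 - (ν - 1)) = ν - 1 := by ring
    rw [h3] at h2
    have h4 := add_bd (show |(1 : ℝ)| ≤ 1 by simp) h2
    have h5 : 1 + (ν - 1) = ν := by ring
    rw [h5] at h4
    have h6 : CM * m ≤ CM * 1 := mul_le_mul_of_nonneg_left hm1 hCM.le
    linarith only [h4, hMm, h6, hBM, hB500, hCM]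
  -- heights
  have Wz : |W2 - q2| ≤ 42 := by
    have h1 := sub_bd (sub_bd hW2 hq2) hy2
    have : W2 - (q2 - y2) - y2 = W2 - q2 := by ring
    rw [this] at h1
    linarith only [h1, hm1]
  have Xz : |X2 - y2| ≤ 40 := by
    have h1 := sub_bd hX2 hy2
    linarith only [h1]
  have WzZ : |W2 - q2 - Z| ≤ B * s := by
    have h1 := sub_bd bW2 hq2
    have : W2 - (y2 + Z) - (q2 - y2) = W2 - q2 - Z := by ring
    rw [this] at h1
    have h2 : 2 * (1 + 2 * C1) * s ≤ B * s := mul_le_mul_of_nonneg_right hBr hs0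
    have h3 : s ≤ (1 + 2 * C1) * s := by
      have := mul_le_mul_of_nonneg_right (show 1 ≤ 1 + 2 * C1 by linarith only [hC1]) hs0
      linarith only [this]
    linarith only [h1, h2, h3, hms]
  have XzZ : |X2 - y2 - Z| ≤ B * s := by
    have : X2 - y2 - Z = X2 - (y2 + Z) := by ring
    rw [this]
    exact bX2.trans hC1B
  have A0 : |q0 + (W2 - q2) * v0| ≤ 100 * m := by
    have h1 := add_bd hq0 (mul_bd Wz hv0)
    linarith only [h1, hm]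
  have A1 : |q1 + (W2 - q2) * v1| ≤ 100 * m := by
    have h1 := add_bd hq1 (mul_bd Wz hv1)
    linarith only [h1, hm]
  have A2 : |y0 + (X2 - y2) * u0| ≤ 100 * m := by
    have h1 := add_bd hy0 (mul_bd Xz hu0)
    linarith only [h1, hm]
  have A3 : |y1 + (X2 - y2) * u1| ≤ 100 * m := by
    have h1 := add_bd hy1 (mul_bd Xz hu1)
    linarith only [h1, hm]
  have A4 : |W0 / rW * (q0 + (W2 - q2) * v0) + W1 / rW * (q1 + (W2 - q2) * v1)| ≤ B * s := by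
    have h1 := add_bd (one_bd e0 A0) (one_bd e1 A1)
    linarith only [h1, h500, hBms, hm]
  have A5 : |W0 * v0 + W1 * v1| ≤ B * s := by
    have h1 := add_bd (mul_bd hW0 hv0) (mul_bd hW1 hv1)
    linarith only [h1, h500, hBms, hm]
  have hA : 100 * m ≤ B * m := by linarith only [h500, hm]
  have E0 := er_bd' hs0 hBq hc2 bW0 bWr hρ hρW
  have E1 := er_bd' hs0 hBq hs2 bW1 bWr hρ hρW
  have E2 := er_bd' hs0 hBq hc1 (bX0.trans hC1m) (bXr.trans hC1m) hρ hρX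
  have E3 := er_bd' hs0 hBq hs1 (bX1.trans hC1m) (bXr.trans hC1m) hρ hρX
  have v0' : |v0| ≤ B * m := by linarith only [hv0, h500, hm]
  have v1' : |v1| ≤ B * m := by linarith only [hv1, h500, hm]
  have u0' : |u0| ≤ B * m := by linarith only [hu0, h500, hm]
  have u1' : |u1| ≤ B * m := by linarith only [hu1, h500, hm]
  have b0' : |b0| ≤ B * m := by linarith only [hb0, hMB, hCMm0]
  have rWB : |rW| ≤ B := by linarith only [hrW, hB500]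
  have PB : |P| ≤ B := by linarith only [hP, hB500]
  have ZB : |Z| ≤ B := by linarith only [hZ, hB500]
  have WzB : |W2 - q2| ≤ B := by linarith only [Wz, hB500]
  have hνe : ν = 1 + b0 + (ν - 1 - b0) := by ring
  constructor
  · have h := re_bd (rX := rX) hB1 hs0 hm hνe hνB (L3.trans hLs') (L1.trans hLs) hη1 rWB b0'
      (bWr.trans hCr) hν8 A4 E0 E1 (A0.trans hA) (A1.trans hA) hc2 hs2 hc1 hs1 WzZ v0' v1' E2 E3
      (A2.trans hA) (A3.trans hA) XzZ u0' u1' (hb1.trans hMs) (hb2.trans hMs) (hb3.trans hMs)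
      (hb4.trans hMs) ZB
    refine le_trans (le_of_eq ?_) h
    congr 1
    ring
  · have h := im_bd (dq := q2 - y2) (Xz := X2 - y2) hB1 hs0 hm hνe hνB (L4.trans hLs') (L2.trans hLs) hη1 WzB b0'
      WzZ hν8 A5 (bW0.trans hCr) (bW1.trans hCr) hc2 hs2 hc1 hs1 v0' v1' (bX0.trans hC1B)
      (bX1.trans hC1B) u0' u1' (hb1.trans hMs) (hb2.trans hMs) (hb3.trans hMs)
      (hb4.trans hMs) PB
    refine le_trans (le_of_eq ?_) h
    congr 1
    ring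


end Pool.Mart.MCP_

namespace Pool.Mart

open RENC_ MCP_ in
theorem stmt_MCP (hMCB : Stmt_MCB) (hROTZ : Stmt_ROTZ) (hLINE : Stmt_LINE) (hRENC : Stmt_RENC)
    (hWIN1 : Stmt_WIN1) : Stmt_MCP := by
  intro lm hlm hlm2
  obtain ⟨CM, κM, hCM, hκM, hM⟩ := hMCB lm hlm hlm2
  obtain ⟨CR, hCR, hR⟩ := hROTZ
  obtain ⟨CL, κL, hCL, hκL, hL⟩ := hLINE (lm / 64) (by positivity) (by linarith only [hlm2])
  obtain ⟨wnorm, wrad, w2, wlip, -, -, wcyl, rcyl, -⟩ := hWIN1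
  have hρ : 0 < lm / 64 := by positivity
  have hρ1 : lm / 64 ≤ 1 := by linarith only [hlm2]
  have hρ128 : lm / 64 ≤ 1 / 128 := by linarith only [hlm2]
  have hC1 : 1 ≤ 1 + 32 * CR := by linarith only [hCR]
  obtain ⟨B, hB500, hBM, hBL, hBq, hBr⟩ := consts hCM hCL hC1 hρ hρ1
  have hC1p : 0 < 1 + 32 * CR := by linarith only [hCR]
  refine ⟨50 * B ^ 2 + CR, min κM (min (κL / 2) (lm / 64 / (1 + 32 * CR))), by positivity,
    by positivity, ?_⟩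
  intro ε m F A x0 x1 S S' hε hεκ hm hmκ hNm hSub
  have hmM : m ≤ κM := hmκ.trans (min_le_left _ _)
  have hmL : 2 * m ≤ κL := by
    have := hmκ.trans ((min_le_right _ _).trans (min_le_left _ _))
    linarith only [this]
  have hmρ : (1 + 32 * CR) * m ≤ lm / 64 := by
    have := hmκ.trans ((min_le_right _ _).trans (min_le_right _ _))
    rw [le_div_iff₀ hC1p] at this
    linarith only [this]
  have hερ : ε ≤ lm / 64 := by
    have := hεκ.trans ((min_le_right _ _).trans (min_le_right _ _))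
    refine this.trans ?_
    exact div_le_self hρ.le hC1
  have hmρ' : m ≤ lm / 64 := by
    have h1 := mul_le_mul_of_nonneg_right hC1 hm
    linarith only [hmρ, h1]
  have hm1 : m ≤ 1 / 128 := hmρ'.trans hρ128
  obtain ⟨ru, rv, up, vp, hll, rx0, rq, hqx, hx0, a, b, hab0, hab1, hb0, hb1, hb2, hb3, hb4, hab⟩ :=
    hM ε m F x0 x1 S S' hm hmM hSub
  obtain ⟨α, hα⟩ := hR S m hSub.so ru (by linarith only [hm1]) up
  refine ⟨α, a, b, hab0, hab1, ?_, ?_⟩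
  · intro Y
    refine (hα Y).trans ?_
    have h1 : 0 ≤ m * ‖Y‖ := mul_nonneg hm (norm_nonneg _)
    have h2 : 0 ≤ 50 * B ^ 2 * (m * ‖Y‖) := mul_nonneg (by positivity) h1
    linarith only [h2, show (50 * B ^ 2 + CR) * m * ‖Y‖ = 50 * B ^ 2 * (m * ‖Y‖) + CR * m * ‖Y‖ by
      ring]
  intro ζ hζ θ
  obtain ⟨hz1, hz2, hz3⟩ := hζ
  have hl0 : 0 < ‖x1 - x0‖ := lt_of_lt_of_le hlm hSub.low
  have hl1 : ‖x1 - x0‖ ≤ 7 / 10 := hSub.up
  have hlow := hSub.low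
  have hl'0 : 0 < ‖F x1 - F x0‖ := hSub.pos'
  have hso := hSub.so
  have hso' := hSub.so'
  have hloc := hSub.loc
  have hζr0 : 0 ≤ ζ.re := by linarith only [hz1]
  obtain ⟨hYr, hYn⟩ := rcyl ζ θ hζr0
  have hYn32 : ‖cyl ζ θ‖ ≤ 32 := by
    rw [hYn]
    refine (Complex.norm_le_abs_re_add_abs_im ζ).trans ?_
    rw [abs_of_nonneg hζr0]
    linarith only [hz2, hz3]
  set l : ℝ := ‖x1 - x0‖ with hl
  set X : E3 := x0 + l • act S (cyl ζ θ) with hX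
  have hP0 : 0 ≤ l * ζ.re := mul_nonneg hl0.le hζr0
  have hP16 : |l * ζ.re| ≤ 16 := by
    rw [abs_of_nonneg hP0]
    have := mul_le_mul hl1 hz2.le hζr0 (by norm_num)
    linarith only [this]
  have hZ16 : |l * ζ.im| ≤ 16 := by
    rw [abs_mul, abs_of_pos hl0]
    have := mul_le_mul hl1 hz3.le (abs_nonneg _) (by norm_num)
    linarith only [this]
  have hPlow : 4 * (lm / 64) ≤ l * ζ.re := by
    have h1 : lm * (1 / 16) ≤ l * ζ.re := mul_le_mul hlow hz1.le (by norm_num) hl0.le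
    linarith only [h1]
  have hPre : ((x0 2 : ℂ) * I + (l : ℂ) * ζ).re = l * ζ.re := by simp
  have hZim : ((x0 2 : ℂ) * I + (l : ℂ) * ζ).im = x0 2 + l * ζ.im := by simp
  have hXX := src hm hCR.le hl0.le (by linarith only [hl1]) hx0 (hα (cyl ζ θ)) hYn32
  rw [← hX] at hXX
  have hXn : ‖X‖ ≤ 31 := nrm_bd hso hl0.le hl1 hloc hYn32
  have hWw : ‖F X - wind X‖ ≤ ε := by
    refine hNm.close X ?_
    rw [mem_ball_zero_iff]
    linarith only [hXn]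
  set W : E3 := F X with hW
  have hWn : ‖W‖ ≤ 32 := by
    have h1 : W = wind X + (W - wind X) := by abel
    rw [h1]
    refine (norm_add_le _ _).trans ?_
    rw [wnorm]
    linarith only [hXn, hWw, hερ, hρ1]
  have hs0 : 0 ≤ ε + m := add_nonneg hε hm
  have hWW := tgt hε hm rfl hC1 wlip hXX hWw
  rw [wcyl _ (θ + α) (by rw [hPre]; exact hP0)] at hWW
  set ζ' : ℂ := (x0 2 : ℂ) * I + (l : ℂ) * ζ with hζ'
  have bX0 : |X 0 - l * ζ.re * Real.cos (θ + α)| ≤ (1 + 32 * CR) * m := by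
    rw [← hPre]; exact (apply_le (X - cyl ζ' (θ + α)) 0).trans hXX
  have bX1 : |X 1 - l * ζ.re * Real.sin (θ + α)| ≤ (1 + 32 * CR) * m := by
    rw [← hPre]; exact (apply_le (X - cyl ζ' (θ + α)) 1).trans hXX
  have bX2 : |X 2 - (x0 2 + l * ζ.im)| ≤ (1 + 32 * CR) * m := by
    rw [← hZim]; exact (apply_le (X - cyl ζ' (θ + α)) 2).trans hXX
  have bW0 : |W 0 - l * ζ.re * Real.cos (2 * (θ + α))| ≤ (1 + 2 * (1 + 32 * CR)) * (ε + m) := by
    rw [← hPre]; exact (apply_le (W - cyl ζ' (2 * (θ + α))) 0).trans hWW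
  have bW1 : |W 1 - l * ζ.re * Real.sin (2 * (θ + α))| ≤ (1 + 2 * (1 + 32 * CR)) * (ε + m) := by
    rw [← hPre]; exact (apply_le (W - cyl ζ' (2 * (θ + α))) 1).trans hWW
  have bW2 : |W 2 - (x0 2 + l * ζ.im)| ≤ (1 + 2 * (1 + 32 * CR)) * (ε + m) := by
    rw [← hZim]; exact (apply_le (W - cyl ζ' (2 * (θ + α))) 2).trans hWW
  have rX : |rad X - l * ζ.re| ≤ (1 + 32 * CR) * m := by
    have h1 := rad_sub_le X (cyl ζ' (θ + α))
    rw [(rcyl ζ' (θ + α) (by rw [hPre]; exact hP0)).1, hPre] at h1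
    exact h1.trans hXX
  have rWP : |rad W - l * ζ.re| ≤ (1 + 2 * (1 + 32 * CR)) * (ε + m) := by
    have h1 := rad_sub_le W (cyl ζ' (2 * (θ + α)))
    rw [(rcyl ζ' (2 * (θ + α)) (by rw [hPre]; exact hP0)).1, hPre] at h1
    exact h1.trans hWW
  have rWX : |rad W - rad X| ≤ ε := by
    have h1 := rad_sub_le W (wind X)
    rw [wrad] at h1
    exact h1.trans hWw
  have rXlow : 2 * (lm / 64) ≤ rad X := by
    have := (abs_le.mp rX).1
    linarith only [this, hPlow, hmρ, hρ]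
  have rWlow : lm / 64 ≤ rad W := by
    have := (abs_le.mp rWX).1
    linarith only [this, rXlow, hερ]
  have rX1 : lm / 64 ≤ rad X := by linarith only [rXlow, hρ]
  have rW0 : 0 < rad W := lt_of_lt_of_le hρ rWlow
  have rWn : |rad W| ≤ 32 := by
    rw [abs_of_pos rW0]
    exact (rad_le_norm W).trans hWn
  -- lines
  have nu : ‖act S e3‖ = 1 := by
    rw [norm_act hso, norm_eq, e3_0, e3_1, e3_2]; simp
  have nv : ‖act S' e3‖ = 1 := by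
    rw [norm_act hso', norm_eq, e3_0, e3_1, e3_2]; simp
  have x02 : |x0 2| ≤ 17 / 2 := (apply_le x0 2).trans hloc
  have qn : ‖F x0‖ ≤ 64 := by
    have h0 : x0 ∈ Metric.ball (0 : E3) 64 := by
      rw [mem_ball_zero_iff]
      linarith only [hloc]
    have h1 := hNm.close x0 h0
    have h2 : F x0 = wind x0 + (F x0 - wind x0) := by abel
    rw [h2]
    refine (norm_add_le _ _).trans ?_
    rw [wnorm]
    linarith only [h1, hloc, hερ, hρ1]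
  obtain ⟨L1, L2⟩ := hL x0 (act S e3) X m nu hm (by linarith only [hmL, hm]) rx0 ru up rX1
    (by linarith only [hXn]) (by linarith only [hloc])
  obtain ⟨L3, L4⟩ := hL (F x0) (act S' e3) W (2 * m) nv (by linarith only [hm]) hmL
    (by linarith only [rq, hm]) rv vp rWlow (by linarith only [hWn]) qn
  obtain ⟨R1, R2, -⟩ := hRENC S (X - x0) hso
  obtain ⟨R3, R4, -⟩ := hRENC S' (W - F x0) hso'
  have hXY : act S.transpose (X - x0) = l • cyl ζ θ := by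
    have : X - x0 = l • act S (cyl ζ θ) := by rw [hX]; abel
    rw [this, act_smul, act_tr hso]
  have eD : ‖X - x0 - (inner ℝ (X - x0) (act S e3)) • act S e3‖ = l * ζ.re := by
    rw [← R1, hXY, rad_smul, abs_of_pos hl0, hYr]
  have eT : inner ℝ (X - x0) (act S e3) = l * ζ.im := by
    rw [← R2, hXY]
    rfl
  rw [eD] at L1
  rw [eT] at L2
  obtain ⟨e0, e1⟩ := div_rad_le rW0
  have hc := core hB500 hBM hBL hBq hBr hCM hCL hC1 hρ hε hm (by linarith only [hm1])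
    (rfl : ε + m = ε + m) hb0 (hab 0).2 hb1 hb2 hb3 hb4 ((abs0_le_rad _).trans ru)
    ((abs1_le_rad _).trans ru) ((abs0_le_rad _).trans rv) ((abs1_le_rad _).trans rv)
    ((abs0_le_rad _).trans rq) ((abs1_le_rad _).trans rq) hqx ((abs0_le_rad _).trans rx0)
    ((abs1_le_rad _).trans rx0) x02 ((apply_le W 0).trans hWn) ((apply_le W 1).trans hWn)
    ((apply_le W 2).trans hWn) ((apply_le X 2).trans hXn) rWn rX1 rWlow
    (Real.abs_cos_le_one _) (Real.abs_sin_le_one _) (Real.abs_cos_le_one _)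
    (Real.abs_sin_le_one _) e0 e1 bX0 bX1 bX2 rX bW0 bW1 bW2 rWP hP16 hZ16 L1 L2 L3 L4
  obtain ⟨cR, cJ⟩ := hc
  set Yt : E3 := ren F x0 x1 S S' (cyl ζ θ) with hYt
  have hYt' : Yt = ‖F x1 - F x0‖⁻¹ • act S'.transpose (W - F x0) := rfl
  have eYr : l * rad Yt = l / ‖F x1 - F x0‖
      * ‖W - F x0 - (inner ℝ (W - F x0) (act S' e3)) • act S' e3‖ := by
    rw [hYt', rad_smul, abs_of_pos (inv_pos.mpr hl'0), R3, div_eq_mul_inv]
    ring
  have eY2 : l * Yt 2 = l / ‖F x1 - F x0‖ * inner ℝ (W - F x0) (act S' e3) := by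
    have : Yt 2 = ‖F x1 - F x0‖⁻¹ * act S'.transpose (W - F x0) 2 := rfl
    rw [this, R4, div_eq_mul_inv]
    ring
  have d0 : a 0 + x0 2 * b 0 = -(F x0 2 - x0 2) := congrFun hab0 0
  have d1 : a 1 + x0 2 * b 1 = -(x0 0) / 2 := congrFun hab0 1
  have d2 : a 2 + x0 2 * b 2 = -(x0 1) / 2 := congrFun hab0 2
  have d3 : a 3 + x0 2 * b 3 = F x0 0 / 2 := congrFun hab0 3
  have d4 : a 4 + x0 2 * b 4 = F x0 1 / 2 := congrFun hab0 4
  have hC2 : cyl ζ θ 2 = ζ.im := rfl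
  have key := cpl (z := (l : ℂ) * gg (cyl ζ θ) Yt - (gg X W - pt a b ζ' (θ + α)))
    (K := 21 * B ^ 2 * ((ε + m) * m)) ?_ cR (cJ.trans ?_)
  · refine key.trans ?_
    have h0 : 0 ≤ (ε + m) * m := mul_nonneg hs0 hm
    have h1 : 0 ≤ B ^ 2 * ((ε + m) * m) := mul_nonneg (sq_nonneg B) h0
    have h2 : 0 ≤ CR * ((ε + m) * m) := mul_nonneg hCR.le h0
    linarith only [h1, h2, show (50 * B ^ 2 + CR) * (ε + m) * m
      = 50 * (B ^ 2 * ((ε + m) * m)) + CR * ((ε + m) * m) by ring]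
  · rw [gg_eq, gg_eq, pt_eq, hPre, hZim, hC2, hYr]
    rw [← eYr, ← eY2]
    apply Complex.ext
    · simp only [Complex.add_re, Complex.sub_re, Complex.mul_re, Complex.ofReal_re,
        Complex.ofReal_im, Complex.I_re, Complex.I_im, Complex.add_im, Complex.mul_im]
      linear_combination 2 * Real.cos (θ + α) * d1 + 2 * Real.sin (θ + α) * d2
        + 2 * Real.cos (2 * (θ + α)) * d3 + 2 * Real.sin (2 * (θ + α)) * d4
    · simp only [Complex.add_re, Complex.sub_re, Complex.mul_re, Complex.ofReal_re,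
        Complex.ofReal_im, Complex.I_re, Complex.I_im, Complex.add_im, Complex.mul_im,
        Complex.sub_im]
      linear_combination -d0
  · have h0 : 0 ≤ (ε + m) * m := mul_nonneg hs0 hm
    have h1 : 0 ≤ B ^ 2 * ((ε + m) * m) := mul_nonneg (sq_nonneg B) h0
    linarith only [h1]

end Pool.Mart
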