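import Pool.Agent.Work.MP_680515_an.IfaceW

/-!
# MP_680515_an: block MODB
-/

open MeasureTheory Set Filter Topology Complex

namespace Pool.Mart

theorem MODB_kap_le (k : Fin 5) (θ : ℝ) : |kap k θ| ≤ 1 := by
  fin_cases k
  · simp [kap]
  · simpa [kap] using Real.abs_cos_le_one θ
  · simpa [kap] using Real.abs_sin_le_one θ
  · simpa [kap] using Real.abs_cos_le_one (2 * θ)
  · simpa [kap] using Real.abs_sin_le_one (2 * θ)

theorem MODB_kap_cont (k : Fin 5) : Continuous (kap k) := by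
  have h0 : kap 0 = fun _ => 1 := by funext θ; simp [kap]
  have h1 : kap 1 = fun θ => Real.cos θ := by funext θ; simp [kap]
  have h2 : kap 2 = fun θ => Real.sin θ := by funext θ; simp [kap]
  have h3 : kap 3 = fun θ => Real.cos (2 * θ) := by funext θ; simp [kap]
  have h4 : kap 4 = fun θ => Real.sin (2 * θ) := by funext θ; simp [kap]
  fin_cases k
  · change Continuous (kap 0)
    rw [h0]
    fun_prop
  · change Continuous (kap 1)
    rw [h1]
    fun_prop
  · change Continuous (kap 2)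
    rw [h2]
    fun_prop
  · change Continuous (kap 3)
    rw [h3]
    fun_prop
  · change Continuous (kap 4)
    rw [h4]
    fun_prop

theorem MODB_cst_norm (k : Fin 5) : ‖cst k‖ = 1 := by
  fin_cases k <;> simp [cst]

theorem MODB_sum_norm (v : C5) : ‖v‖ ≤ ∑ k : Fin 5, ‖v k‖ := by
  have h : v = ∑ k : Fin 5, v k • EuclideanSpace.single k (1 : ℂ) := by
    ext j
    simp [Pi.single_apply]
  calc ‖v‖ = ‖∑ k : Fin 5, v k • EuclideanSpace.single k (1 : ℂ)‖ := by rw [← h]
    _ ≤ ∑ k : Fin 5, ‖v k • EuclideanSpace.single k (1 : ℂ)‖ := norm_sum_le _ _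
    _ = ∑ k : Fin 5, ‖v k‖ := by simp [norm_smul]

theorem stmt_MODB (hCYLI : Stmt_CYLI) : Stmt_MODB := by
  intro ρ U h hρ hU hUρ hint
  obtain ⟨hI, hB⟩ := hCYLI ρ U h hρ hU hUρ hint
  set T : Measure ℝ := volume.restrict (Ioc (0 : ℝ) (2 * Real.pi)) with hT
  have hpi : (0 : ℝ) ≤ 2 * Real.pi := by positivity
  -- integrability on the product
  have hI' : Integrable (fun p : ℂ × ℝ => h (cyl p.1 p.2)) ((volume.restrict U).prod T) := by
    rw [hT, Measure.prod_restrict, ← Measure.volume_eq_prod]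
    exact hI
  have hIk : ∀ k : Fin 5, Integrable (fun p : ℂ × ℝ => (kap k p.2 : ℂ) * h (cyl p.1 p.2))
      ((volume.restrict U).prod T) := by
    intro k
    refine Integrable.bdd_mul (c := 1) hI' ?_ ?_
    · have hc : Continuous fun p : ℂ × ℝ => (kap k p.2 : ℂ) := by
        have := MODB_kap_cont k
        fun_prop
      exact hc.aestronglyMeasurable
    · refine Eventually.of_forall fun p => ?_
      rw [Complex.norm_real, Real.norm_eq_abs]
      exact MODB_kap_le k p.2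
  have hmk : ∀ (ζ : ℂ) (k : Fin 5), modes h ζ k = cst k * (((2 * Real.pi)⁻¹ : ℝ) : ℂ) *
      ∫ θ, (kap k θ : ℂ) * h (cyl ζ θ) ∂T := by
    intro ζ k
    simp only [modes, hT]
    rw [intervalIntegral.integral_of_le hpi]
  have hint_k : ∀ k : Fin 5, Integrable (fun ζ => modes h ζ k) (volume.restrict U) := by
    intro k
    simp only [hmk]
    exact ((hIk k).integral_prod_left).const_mul _
  have hmodes : Integrable (modes h) (volume.restrict U) := by
    have e : modes h = fun ζ => ∑ k : Fin 5, modes h ζ k • EuclideanSpace.single k (1 : ℂ) := by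
      funext ζ
      ext j
      simp [Pi.single_apply]
    rw [e]
    refine integrable_finsetSum _ fun k _ => ?_
    exact (hint_k k).smul_const _
  refine ⟨hmodes, ?_⟩
  -- pointwise bound
  have hpt : ∀ ζ : ℂ, Integrable (fun θ => h (cyl ζ θ)) T →
      ‖modes h ζ‖ ≤ 5 * (2 * Real.pi)⁻¹ * ∫ θ, ‖h (cyl ζ θ)‖ ∂T := by
    intro ζ hζ
    have hk : ∀ k : Fin 5, ‖modes h ζ k‖ ≤ (2 * Real.pi)⁻¹ * ∫ θ, ‖h (cyl ζ θ)‖ ∂T := by
      intro k
      rw [hmk, norm_mul, norm_mul, MODB_cst_norm, one_mul, Complex.norm_real, Real.norm_eq_abs,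
        abs_of_nonneg (by positivity)]
      refine mul_le_mul_of_nonneg_left ?_ (by positivity)
      refine (norm_integral_le_integral_norm _).trans ?_
      refine integral_mono_of_nonneg (Eventually.of_forall fun θ => norm_nonneg _) hζ.norm
        (Eventually.of_forall fun θ => ?_)
      simp only [norm_mul, Complex.norm_real, Real.norm_eq_abs]
      exact mul_le_of_le_one_left (norm_nonneg _) (MODB_kap_le k θ)
    calc ‖modes h ζ‖ ≤ ∑ k : Fin 5, ‖modes h ζ k‖ := MODB_sum_norm _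
      _ ≤ ∑ _k : Fin 5, (2 * Real.pi)⁻¹ * ∫ θ, ‖h (cyl ζ θ)‖ ∂T :=
          Finset.sum_le_sum fun k _ => hk k
      _ = 5 * (2 * Real.pi)⁻¹ * ∫ θ, ‖h (cyl ζ θ)‖ ∂T := by
          simp [mul_assoc]
  have hJ : Integrable (fun ζ => 5 * (2 * Real.pi)⁻¹ * ∫ θ, ‖h (cyl ζ θ)‖ ∂T)
      (volume.restrict U) := (hI'.norm.integral_prod_left).const_mul _
  have hae : ∀ᵐ ζ ∂(volume.restrict U), Integrable (fun θ => h (cyl ζ θ)) T :=
    hI'.prod_right_ae
  calc ∫ ζ in U, ‖modes h ζ‖
      ≤ ∫ ζ in U, 5 * (2 * Real.pi)⁻¹ * ∫ θ, ‖h (cyl ζ θ)‖ ∂T := by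
        refine integral_mono_ae hmodes.norm hJ ?_
        filter_upwards [hae] with ζ hζ
        exact hpt ζ hζ
    _ = 5 * (2 * Real.pi)⁻¹ * ∫ p in U ×ˢ Ioc (0 : ℝ) (2 * Real.pi), ‖h (cyl p.1 p.2)‖ := by
        rw [integral_const_mul]
        congr 1
        have e2 : (volume : Measure (ℂ × ℝ)).restrict (U ×ˢ Ioc (0 : ℝ) (2 * Real.pi))
            = (volume.restrict U : Measure ℂ).prod T := by
          rw [hT, Measure.prod_restrict, ← Measure.volume_eq_prod]
        rw [e2]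
        exact (integral_prod _ hI'.norm).symm
    _ ≤ 5 * (2 * Real.pi)⁻¹ * (ρ⁻¹ * ∫ X in {X | hp X ∈ U}, ‖h X‖) :=
        mul_le_mul_of_nonneg_left hB (by positivity)
    _ ≤ 5 * 1 * (ρ⁻¹ * ∫ X in {X | hp X ∈ U}, ‖h X‖) := by
        have h1 : (2 * Real.pi)⁻¹ ≤ 1 := by
          have := Real.pi_gt_three
          exact inv_le_one_of_one_le₀ (by linarith)
        have h2 : 0 ≤ ρ⁻¹ * ∫ X in {X | hp X ∈ U}, ‖h X‖ :=
          mul_nonneg (by positivity) (integral_nonneg fun X => norm_nonneg _)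
        gcongr
    _ = 5 * ρ⁻¹ * ∫ X in {X | hp X ∈ U}, ‖h X‖ := by ring

end Pool.Mart
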