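import Pool.Agent.Work.MP_680515_an.IfaceM

/-!
# MP_680515_an, block MODP (helper45)
-/

set_option autoImplicit false

open MeasureTheory Set Filter Topology Complex

namespace Pool.Mart

namespace MODP_

lemma icos (c : ℤ) : ∫ θ in (0 : ℝ)..(2 * Real.pi), Real.cos (c * θ) =
    if c = 0 then 2 * Real.pi else 0 := by
  by_cases hc : c = 0
  · simp [hc]
  · have hc' : (c : ℝ) ≠ 0 := by exact_mod_cast hc
    rw [if_neg hc, intervalIntegral.integral_comp_mul_left Real.cos hc', integral_cos]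
    have h1 : Real.sin ((c : ℝ) * (2 * Real.pi)) = 0 := by
      have h2 : (c : ℝ) * (2 * Real.pi) = ((2 * c : ℤ) : ℝ) * Real.pi := by push_cast; ring
      rw [h2, Real.sin_int_mul_pi]
    rw [h1]
    simp

lemma isin (c : ℤ) : ∫ θ in (0 : ℝ)..(2 * Real.pi), Real.sin (c * θ) = 0 := by
  by_cases hc : c = 0
  · simp [hc]
  · have hc' : (c : ℝ) ≠ 0 := by exact_mod_cast hc
    rw [intervalIntegral.integral_comp_mul_left Real.sin hc', integral_sin]
    have h1 : Real.cos ((c : ℝ) * (2 * Real.pi)) = 1 := Real.cos_int_mul_two_pi c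
    rw [h1]
    simp

lemma ii (f : ℝ → ℝ) (hf : Continuous f) : IntervalIntegrable f volume 0 (2 * Real.pi) :=
  hf.intervalIntegrable _ _

lemma icc (p q : ℤ) : ∫ θ in (0 : ℝ)..(2 * Real.pi), Real.cos (p * θ) * Real.cos (q * θ) =
    ((if p - q = 0 then 2 * Real.pi else 0) + (if p + q = 0 then 2 * Real.pi else 0)) / 2 := by
  have h : (fun θ : ℝ => Real.cos (p * θ) * Real.cos (q * θ)) =
      fun θ : ℝ => (Real.cos (((p - q : ℤ) : ℝ) * θ) + Real.cos (((p + q : ℤ) : ℝ) * θ)) / 2 := by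
    funext θ
    push_cast
    rw [sub_mul, add_mul, Real.cos_sub, Real.cos_add]
    ring
  rw [h, intervalIntegral.integral_div, intervalIntegral.integral_add
    (ii _ (by fun_prop)) (ii _ (by fun_prop)), icos, icos]

lemma iss (p q : ℤ) : ∫ θ in (0 : ℝ)..(2 * Real.pi), Real.sin (p * θ) * Real.sin (q * θ) =
    ((if p - q = 0 then 2 * Real.pi else 0) - (if p + q = 0 then 2 * Real.pi else 0)) / 2 := by
  have h : (fun θ : ℝ => Real.sin (p * θ) * Real.sin (q * θ)) =
      fun θ : ℝ => (Real.cos (((p - q : ℤ) : ℝ) * θ) - Real.cos (((p + q : ℤ) : ℝ) * θ)) / 2 := by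
    funext θ
    push_cast
    rw [sub_mul, add_mul, Real.cos_sub, Real.cos_add]
    ring
  rw [h, intervalIntegral.integral_div, intervalIntegral.integral_sub
    (ii _ (by fun_prop)) (ii _ (by fun_prop)), icos, icos]

lemma isc (p q : ℤ) : ∫ θ in (0 : ℝ)..(2 * Real.pi), Real.sin (p * θ) * Real.cos (q * θ) = 0 := by
  have h : (fun θ : ℝ => Real.sin (p * θ) * Real.cos (q * θ)) =
      fun θ : ℝ => (Real.sin (((p + q : ℤ) : ℝ) * θ) + Real.sin (((p - q : ℤ) : ℝ) * θ)) / 2 := by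
    funext θ
    push_cast
    rw [sub_mul, add_mul, Real.sin_sub, Real.sin_add]
    ring
  rw [h, intervalIntegral.integral_div, intervalIntegral.integral_add
    (ii _ (by fun_prop)) (ii _ (by fun_prop)), isin, isin]
  simp

/-- Frequencies. -/
def fr : Fin 5 → ℤ := ![0, 1, 1, 2, 2]

/-- Is the weight a sine? -/
def sn : Fin 5 → Bool := ![false, false, true, false, true]

lemma kap_eq (k : Fin 5) (θ : ℝ) :
    kap k θ = if sn k then Real.sin (fr k * θ) else Real.cos (fr k * θ) := by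
  fin_cases k <;> simp [kap, sn, fr]

lemma kap_cont (k : Fin 5) : Continuous (kap k) := by
  have h : kap k = fun θ => if sn k then Real.sin (fr k * θ) else Real.cos (fr k * θ) := by
    funext θ
    exact kap_eq k θ
  rw [h]
  by_cases hs : sn k
  · simp only [hs, if_true]
    fun_prop
  · simp only [hs]
    simp only [Bool.false_eq_true, if_false]
    fun_prop

/-- Orthogonality of the angular weights. -/
lemma orth (k j : Fin 5) : ∫ θ in (0 : ℝ)..(2 * Real.pi), kap k θ * kap j θ =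
    if k = j then (if k = 0 then 2 * Real.pi else Real.pi) else 0 := by
  have h0 : ∀ θ : ℝ, kap k θ * kap j θ =
      (if sn k then Real.sin (fr k * θ) else Real.cos (fr k * θ)) *
        (if sn j then Real.sin (fr j * θ) else Real.cos (fr j * θ)) := by
    intro θ
    rw [kap_eq, kap_eq]
  simp only [h0]
  by_cases hk : sn k = true <;> by_cases hj : sn j = true
  · simp only [hk, hj, if_true]
    rw [iss]
    fin_cases k <;> fin_cases j <;> simp_all [sn, fr]
  · have hj' : sn j = false := by simpa using hj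
    simp only [hk, hj', if_true, Bool.false_eq_true, if_false]
    rw [isc]
    fin_cases k <;> fin_cases j <;> simp_all [sn, fr]
  · have hk' : sn k = false := by simpa using hk
    simp only [hk', hj, if_true, Bool.false_eq_true, if_false]
    have hcomm : ∀ θ : ℝ, Real.cos (fr k * θ) * Real.sin (fr j * θ) =
        Real.sin (fr j * θ) * Real.cos (fr k * θ) := fun θ => mul_comm _ _
    simp only [hcomm]
    rw [isc]
    fin_cases k <;> fin_cases j <;> simp_all [sn, fr]
  · have hk' : sn k = false := by simpa using hk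
    have hj' : sn j = false := by simpa using hj
    simp only [hk', hj', Bool.false_eq_true, if_false]
    rw [icc]
    fin_cases k <;> fin_cases j <;> simp_all [sn, fr]

lemma orthC (k : Fin 5) (d : Fin 5 → ℂ) :
    ∫ θ in (0 : ℝ)..(2 * Real.pi), (kap k θ : ℂ) * ∑ j, (kap j θ : ℂ) * d j =
      ((if k = 0 then 2 * Real.pi else Real.pi : ℝ) : ℂ) * d k := by
  have h1 : ∀ θ : ℝ, (kap k θ : ℂ) * ∑ j, (kap j θ : ℂ) * d j =
      ∑ j, ((kap k θ * kap j θ : ℝ) : ℂ) * d j := by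
    intro θ
    rw [Finset.mul_sum]
    refine Finset.sum_congr rfl fun j _ => ?_
    push_cast
    ring
  simp only [h1]
  rw [intervalIntegral.integral_finsetSum]
  · have h2 : ∀ j : Fin 5, ∫ θ in (0 : ℝ)..(2 * Real.pi), ((kap k θ * kap j θ : ℝ) : ℂ) * d j =
        ((if k = j then (if k = 0 then 2 * Real.pi else Real.pi) else 0 : ℝ) : ℂ) * d j := by
      intro j
      rw [intervalIntegral.integral_mul_const, intervalIntegral.integral_ofReal, orth]
    simp only [h2]
    rw [Finset.sum_eq_single k]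
    · simp
    · intro j _ hj
      simp [Ne.symm hj]
    · intro h
      exact absurd (Finset.mem_univ k) h
  · intro j _
    apply Continuous.intervalIntegrable
    have := kap_cont k
    have := kap_cont j
    fun_prop

/-- Coefficients of `pt`. -/
noncomputable def dco (a b : Fin 5 → ℝ) (ζ : ℂ) (j : Fin 5) : ℂ :=
  if j = 0 then -I * ((a 0 : ℂ) + (b 0 : ℂ) * (-I * ζ)) else
    2 * ((a j : ℂ) + (b j : ℂ) * (-I * ζ))

lemma pt_eq (a b : Fin 5 → ℝ) (ζ : ℂ) (θ : ℝ) :
    pt a b ζ θ = ∑ j, (kap j θ : ℂ) * dco a b ζ j := by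
  unfold pt
  have h : (Finset.univ : Finset (Fin 5)) = insert 0 {1, 2, 3, 4} := by decide
  have h' : ∑ j, (kap j θ : ℂ) * dco a b ζ j = (kap 0 θ : ℂ) * dco a b ζ 0 +
      ∑ j ∈ ({1, 2, 3, 4} : Finset (Fin 5)), (kap j θ : ℂ) * dco a b ζ j := by
    rw [h, Finset.sum_insert (by decide)]
  rw [h', Finset.mul_sum]
  congr 1
  · simp [kap, dco]
  · refine Finset.sum_congr rfl fun j hj => ?_
    have hj0 : j ≠ 0 := by
      rintro rfl
      revert hj
      decide
    simp only [dco, if_neg hj0]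
    ring

lemma part1 (a b : Fin 5 → ℝ) (ζ : ℂ) (g : E3 → ℂ) (hg : ∀ θ, g (cyl ζ θ) = pt a b ζ θ) :
    modes g ζ = aff a b ζ := by
  ext k
  have hpi : (Real.pi : ℂ) ≠ 0 := by exact_mod_cast Real.pi_ne_zero
  show cst k * ((2 * Real.pi)⁻¹ : ℝ) * (∫ θ in (0 : ℝ)..(2 * Real.pi),
    (kap k θ : ℂ) * g (cyl ζ θ)) = (a k : ℂ) + (b k : ℂ) * (-I * ζ)
  simp only [hg, pt_eq]
  rw [orthC]
  by_cases hk : k = 0
  · subst hk
    simp only [if_true, dco, cst]
    simp only [Matrix.cons_val_zero]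
    push_cast
    field_simp
    have hI3 : (I : ℂ) ^ 3 = -I := by
      rw [pow_succ, I_sq]
      ring
    ring_nf
    rw [I_sq, hI3]
    ring
  · simp only [dco, if_neg hk]
    have hc : cst k = 1 := by
      fin_cases k <;> simp_all [cst]
    rw [hc]
    push_cast
    field_simp

lemma kap_sub (k : Fin 5) (θ α : ℝ) : kap k (θ - α) = ∑ j, Rm α k j * kap j θ := by
  rw [Fin.sum_univ_five]
  fin_cases k
  · simp [kap, Rm]
  · simp [kap, Rm, Real.cos_sub]
    ring
  · simp [kap, Rm, Real.sin_sub]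
    ring
  · simp [kap, Rm, mul_sub, Real.cos_sub]
    ring
  · simp [kap, Rm, mul_sub, Real.sin_sub]
    ring

lemma cst_Rm (α : ℝ) (k j : Fin 5) : cst k * (Rm α k j : ℂ) = (Rm α k j : ℂ) * cst j := by
  fin_cases k <;> fin_cases j <;> simp [cst, Rm]

lemma kap_per (k : Fin 5) : Function.Periodic (kap k) (2 * Real.pi) := by
  intro θ
  fin_cases k
  · simp [kap]
  · simp [kap]
  · simp [kap]
  · simp [kap, mul_add]
    have : 2 * θ + 2 * (2 * Real.pi) = 2 * θ + 2 * Real.pi + 2 * Real.pi := by ring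
    rw [this]
    simp
  · simp [kap, mul_add]
    have : 2 * θ + 2 * (2 * Real.pi) = 2 * θ + 2 * Real.pi + 2 * Real.pi := by ring
    rw [this]
    simp

lemma part2 (α : ℝ) (h : ℝ → ℂ) (hc : Continuous h) (hp : Function.Periodic h (2 * Real.pi))
    (k : Fin 5) :
    cst k * ((2 * Real.pi)⁻¹ : ℝ) * ∫ θ in (0 : ℝ)..(2 * Real.pi), (kap k θ : ℂ) * h (θ + α)
      = ∑ j, (Rm α k j : ℂ) * (cst j * ((2 * Real.pi)⁻¹ : ℝ) *
        ∫ θ in (0 : ℝ)..(2 * Real.pi), (kap j θ : ℂ) * h θ) := by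
  have h1 : ∫ θ in (0 : ℝ)..(2 * Real.pi), (kap k θ : ℂ) * h (θ + α) =
      ∫ θ in (0 : ℝ)..(2 * Real.pi), (kap k (θ - α) : ℂ) * h θ := by
    have h2 : ∀ θ : ℝ, (kap k θ : ℂ) * h (θ + α) =
        (fun u : ℝ => (kap k (u - α) : ℂ) * h u) (θ + α) := by
      intro θ
      simp
    simp only [h2]
    rw [intervalIntegral.integral_comp_add_right (fun u : ℝ => (kap k (u - α) : ℂ) * h u)]
    have hper : Function.Periodic (fun u : ℝ => (kap k (u - α) : ℂ) * h u) (2 * Real.pi) := by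
      intro u
      have e1 : u + 2 * Real.pi - α = (u - α) + 2 * Real.pi := by ring
      show (kap k (u + 2 * Real.pi - α) : ℂ) * h (u + 2 * Real.pi) = (kap k (u - α) : ℂ) * h u
      rw [e1, kap_per k, hp]
    have h3 := hper.intervalIntegral_add_eq α 0
    rw [zero_add] at h3
    rw [zero_add, add_comm (2 * Real.pi) α]
    exact h3
  rw [h1]
  have h4 : ∀ θ : ℝ, (kap k (θ - α) : ℂ) * h θ =
      ∑ j, (Rm α k j : ℂ) * ((kap j θ : ℂ) * h θ) := by
    intro θ
    rw [kap_sub]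
    push_cast
    rw [Finset.sum_mul]
    refine Finset.sum_congr rfl fun j _ => ?_
    ring
  simp only [h4]
  rw [intervalIntegral.integral_finsetSum]
  · simp only [intervalIntegral.integral_const_mul]
    rw [Finset.mul_sum]
    refine Finset.sum_congr rfl fun j _ => ?_
    have h5 := cst_Rm α k j
    calc cst k * (((2 * Real.pi)⁻¹ : ℝ) : ℂ) * ((Rm α k j : ℂ) *
          ∫ θ in (0 : ℝ)..(2 * Real.pi), (kap j θ : ℂ) * h θ)
        = (cst k * (Rm α k j : ℂ)) * (((2 * Real.pi)⁻¹ : ℝ) : ℂ) *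
          ∫ θ in (0 : ℝ)..(2 * Real.pi), (kap j θ : ℂ) * h θ := by ring
      _ = _ := by rw [h5]; ring
  · intro j _
    apply Continuous.intervalIntegrable
    have := kap_cont j
    fun_prop

lemma actC_apply (R : Matrix (Fin 5) (Fin 5) ℝ) (w : C5) (k : Fin 5) :
    actC R w k = ∑ j, (R k j : ℂ) * w j := rfl

lemma rot_norm (c s : ℝ) (hcs : s ^ 2 + c ^ 2 = 1) (x y : ℂ) :
    ‖(c : ℂ) * x + (s : ℂ) * y‖ ^ 2 + ‖-(s : ℂ) * x + (c : ℂ) * y‖ ^ 2 = ‖x‖ ^ 2 + ‖y‖ ^ 2 := by
  simp only [← normSq_eq_norm_sq, normSq_apply, add_re, add_im, mul_re, mul_im, neg_re, neg_im,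
    ofReal_re, ofReal_im]
  have : c ^ 2 = 1 - s ^ 2 := by linarith
  ring_nf
  rw [this]
  ring

lemma part3 (α : ℝ) (w : C5) : ‖actC (Rm α) w‖ = ‖w‖ := by
  rw [EuclideanSpace.norm_eq, EuclideanSpace.norm_eq]
  congr 1
  rw [Fin.sum_univ_five, Fin.sum_univ_five]
  simp only [actC_apply, Fin.sum_univ_five]
  have h1 := rot_norm (Real.cos α) (Real.sin α) (Real.sin_sq_add_cos_sq α) (w 1) (w 2)
  have h2 := rot_norm (Real.cos (2 * α)) (Real.sin (2 * α)) (Real.sin_sq_add_cos_sq (2 * α))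
    (w 3) (w 4)
  simp only [Rm, Matrix.of_apply, Matrix.cons_val', Matrix.cons_val_zero, Matrix.cons_val_one,
    Matrix.cons_val, ofReal_zero, ofReal_one, zero_mul, one_mul, add_zero, zero_add, ofReal_neg]
  linarith

lemma part4 (α : ℝ) (a : Fin 5 → ℝ) : en ((Rm α).mulVec a) = en a := by
  unfold en
  rw [EuclideanSpace.norm_eq, EuclideanSpace.norm_eq]
  congr 1
  simp only [Real.norm_eq_abs, sq_abs]
  simp only [Fin.sum_univ_five, Matrix.mulVec, dotProduct]
  have h1 := Real.sin_sq_add_cos_sq α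
  have h2 := Real.sin_sq_add_cos_sq (2 * α)
  simp only [Rm, Matrix.of_apply, Matrix.cons_val', Matrix.cons_val_zero, Matrix.cons_val_one,
    Matrix.cons_val, zero_mul, one_mul, add_zero, zero_add]
  have e1 : Real.cos α ^ 2 = 1 - Real.sin α ^ 2 := by linarith
  have e2 : Real.cos (2 * α) ^ 2 = 1 - Real.sin (2 * α) ^ 2 := by linarith
  ring_nf
  ring_nf at e1 e2
  nlinarith [e1, e2]

lemma part5 (α : ℝ) (a b : Fin 5 → ℝ) (ζ : ℂ) :
    actC (Rm α) (aff a b ζ) = aff ((Rm α).mulVec a) ((Rm α).mulVec b) ζ := by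
  ext k
  show ∑ j, (Rm α k j : ℂ) * ((a j : ℂ) + (b j : ℂ) * (-I * ζ)) =
    (((Rm α).mulVec a k : ℝ) : ℂ) + (((Rm α).mulVec b k : ℝ) : ℂ) * (-I * ζ)
  simp only [Matrix.mulVec, dotProduct]
  push_cast
  rw [Finset.sum_mul, ← Finset.sum_add_distrib]
  refine Finset.sum_congr rfl fun j _ => ?_
  ring

lemma part6 (α : ℝ) (w w' : C5) :
    actC (Rm α) (w + w') = actC (Rm α) w + actC (Rm α) w' := by
  ext k
  show ∑ j, (Rm α k j : ℂ) * (w j + w' j) =
    (∑ j, (Rm α k j : ℂ) * w j) + ∑ j, (Rm α k j : ℂ) * w' j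
  rw [← Finset.sum_add_distrib]
  refine Finset.sum_congr rfl fun j _ => ?_
  ring

lemma Rm_neg_mul (α : ℝ) : Rm (-α) * Rm α = 1 := by
  have h1 := Real.sin_sq_add_cos_sq α
  have h2 := Real.sin_sq_add_cos_sq (2 * α)
  ext k j
  rw [Matrix.mul_apply, Fin.sum_univ_five]
  fin_cases k <;> fin_cases j <;>
    simp [Rm, Real.cos_neg, Real.sin_neg, mul_neg] <;> nlinarith

lemma part8 (α : ℝ) (a : Fin 5 → ℝ) : (Rm (-α)).mulVec ((Rm α).mulVec a) = a := by
  rw [Matrix.mulVec_mulVec, Rm_neg_mul, Matrix.one_mulVec]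

lemma part7 (α : ℝ) (w : C5) : actC (Rm (-α)) (actC (Rm α) w) = w := by
  ext k
  show ∑ i, (Rm (-α) k i : ℂ) * ∑ j, (Rm α i j : ℂ) * w j = w k
  have h : ∀ j, ∑ i, (Rm (-α) k i : ℂ) * (Rm α i j : ℂ) = if k = j then 1 else 0 := by
    intro j
    have h1 := congrFun (congrFun (Rm_neg_mul α) k) j
    rw [Matrix.mul_apply, Matrix.one_apply] at h1
    have h2 : ((∑ i, Rm (-α) k i * Rm α i j : ℝ) : ℂ) = ((if k = j then 1 else 0 : ℝ) : ℂ) := by
      rw [h1]
    rw [ofReal_sum] at h2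
    simp only [ofReal_mul] at h2
    rw [h2]
    split_ifs <;> simp
  simp only [Finset.mul_sum]
  rw [Finset.sum_comm]
  have h3 : ∀ j, ∑ i, (Rm (-α) k i : ℂ) * ((Rm α i j : ℂ) * w j) =
      (if k = j then 1 else 0) * w j := by
    intro j
    rw [← h j, Finset.sum_mul]
    refine Finset.sum_congr rfl fun i _ => ?_
    ring
  simp only [h3]
  simp

end MODP_

theorem stmt_MODP : Stmt_MODP :=
  ⟨MODP_.part1, MODP_.part2, MODP_.part3, MODP_.part4, MODP_.part5, MODP_.part6, MODP_.part7,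
    MODP_.part8⟩

end Pool.Mart
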