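import Pool.Agent.Work.MP_680515_an.IfaceA

/-!
# MP_680515_an, block MOLL: mollification of a continuous `W^{1,3}_loc` map
-/

set_option autoImplicit false
open MeasureTheory Set Filter Topology
open scoped ContDiff ENNReal

namespace Pool.Mart.MOLL_

/-- convolution with kernel `φ` -/
noncomputable def cv (φ f : E3 → ℝ) (x : E3) : ℝ := ∫ y, φ (x - y) * f y

theorem cv_eq (φ f : E3 → ℝ) :
    cv φ f = MeasureTheory.convolution f φ (ContinuousLinearMap.mul ℝ ℝ).flip volume := by
  rw [MeasureTheory.convolution_flip]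
  funext x
  rw [MeasureTheory.convolution_mul_swap]
  rfl

theorem fderiv_cv {φ f : E3 → ℝ} (hφ : ContDiff ℝ 1 φ) (hc : HasCompactSupport φ)
    (hf : LocallyIntegrable f volume) (v : E3) (x : E3) :
    fderiv ℝ (cv φ f) x v = cv (fun z => fderiv ℝ φ z v) f x := by
  have h := hc.hasFDerivAt_convolution_right (ContinuousLinearMap.mul ℝ ℝ).flip hf hφ x
  rw [← cv_eq] at h
  rw [h.fderiv, convolution_precompR_apply _ hf (hc.fderiv ℝ) (hφ.continuous_fderiv one_ne_zero)]
  rw [cv_eq]

/-- the mollifier -/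
noncomputable def bmp (δ : ℝ) (hδ : 0 < δ) (n : ℕ) : ContDiffBump (0 : E3) where
  rIn := δ / (2 * (n + 2))
  rOut := δ / (n + 2)
  rIn_pos := by positivity
  rIn_lt_rOut := by
    have h : (0 : ℝ) < n + 2 := by positivity
    rw [div_lt_div_iff₀ (by positivity) h]
    nlinarith

theorem bmp_rOut (δ : ℝ) (hδ : 0 < δ) (n : ℕ) : (bmp δ hδ n).rOut = δ / (n + 2) := rfl

theorem bmp_rOut_lt (δ : ℝ) (hδ : 0 < δ) (n : ℕ) : (bmp δ hδ n).rOut < δ := by
  rw [bmp_rOut, div_lt_iff₀ (by positivity)]
  have : (0 : ℝ) ≤ n := by positivity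
  nlinarith

theorem bmp_tendsto (δ : ℝ) (hδ : 0 < δ) :
    Tendsto (fun n => (bmp δ hδ n).rOut) atTop (𝓝 0) := by
  simp only [bmp_rOut]
  refine Tendsto.div_atTop tendsto_const_nhds ?_
  exact tendsto_atTop_add_const_right _ _ tendsto_natCast_atTop_atTop

/-- component of the derivative -/
theorem fderiv_comp {g : E3 → E3} {x : E3} (hg : DifferentiableAt ℝ g x) (v : E3) (i : Fin 3) :
    fderiv ℝ g x v i = fderiv ℝ (fun z => g z i) x v := by
  have h1 : HasFDerivAt (fun z => g z i)
      ((EuclideanSpace.proj i : EuclideanSpace ℝ (Fin 3) →L[ℝ] ℝ).comp (fderiv ℝ g x)) x :=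
    ((EuclideanSpace.proj i : EuclideanSpace ℝ (Fin 3) →L[ℝ] ℝ).hasFDerivAt).comp x hg.hasFDerivAt
  rw [h1.fderiv]
  rfl

theorem conv_comp {ρ : E3 → ℝ} {F : E3 → E3} (hρ : Continuous ρ) (hc : HasCompactSupport ρ)
    (hF : LocallyIntegrable F volume) (x : E3) (i : Fin 3) :
    (MeasureTheory.convolution ρ F (ContinuousLinearMap.lsmul ℝ ℝ) volume) x i =
      cv ρ (fun y => F y i) x := by
  have hex := hc.convolutionExists_left (ContinuousLinearMap.lsmul ℝ ℝ) hρ hF x
  have h := (EuclideanSpace.proj i : EuclideanSpace ℝ (Fin 3) →L[ℝ] ℝ).integral_comp_comm hex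
  have h2 : (MeasureTheory.convolution ρ F (ContinuousLinearMap.lsmul ℝ ℝ) volume) x i =
      ∫ t, ρ t * F (x - t) i := by
    rw [show (MeasureTheory.convolution ρ F (ContinuousLinearMap.lsmul ℝ ℝ) volume) x i =
      (EuclideanSpace.proj i : EuclideanSpace ℝ (Fin 3) →L[ℝ] ℝ)
        (∫ t, (ContinuousLinearMap.lsmul ℝ ℝ) (ρ t) (F (x - t))) from rfl]
    rw [← h]
    refine integral_congr_ae (Eventually.of_forall fun t => ?_)
    simp
  rw [h2, cv, ← integral_sub_left_eq_self (fun t => ρ t * F (x - t) i) volume x]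
  refine integral_congr_ae (Eventually.of_forall fun y => ?_)
  simp

/-- the jacobian of the mollified map is the mollified weak gradient -/
theorem jac_conv {Ω K' : Set E3} {f : E3 → E3} {A : E3 → M3} (hW : WeakGrad Ω f A)
    (hK' : IsCompact K') (hKΩ : K' ⊆ Ω) (hf : ContinuousOn f K')
    (φ : ContDiffBump (0 : E3)) (x : E3) (hx : Metric.closedBall x φ.rOut ⊆ K') (i j : Fin 3) :
    jac (MeasureTheory.convolution (φ.normed volume) (K'.indicator f)
      (ContinuousLinearMap.lsmul ℝ ℝ) volume) x i j =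
      cv (φ.normed volume) (K'.indicator (fun y => A y i j)) x := by
  set ρ := φ.normed volume with hρ
  have hρs : ContDiff ℝ (⊤ : ℕ∞) ρ := φ.contDiff_normed
  have hρc : HasCompactSupport ρ := φ.hasCompactSupport_normed
  have hF : Integrable (K'.indicator f) volume :=
    (hf.integrableOn_compact hK').integrable_indicator hK'.measurableSet
  have hFi : Integrable (K'.indicator (fun y => f y i)) volume := by
    have h1 : ContinuousOn (fun y => f y i) K' :=
      (EuclideanSpace.proj i : EuclideanSpace ℝ (Fin 3) →L[ℝ] ℝ).continuous.comp_continuousOn hf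
    exact (h1.integrableOn_compact hK').integrable_indicator hK'.measurableSet
  have hdiff : Differentiable ℝ (MeasureTheory.convolution ρ (K'.indicator f)
      (ContinuousLinearMap.lsmul ℝ ℝ) volume) :=
    (hρc.contDiff_convolution_left _ hρs hF.locallyIntegrable).differentiable (by simp)
  have hcomp : (fun z => (MeasureTheory.convolution ρ (K'.indicator f)
      (ContinuousLinearMap.lsmul ℝ ℝ) volume) z i) = cv ρ (K'.indicator (fun y => f y i)) := by
    funext z
    rw [conv_comp hρs.continuous hρc hF.locallyIntegrable z i]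
    congr 1
    funext y
    by_cases hy : y ∈ K'
    · simp [hy]
    · simp [hy]
  rw [jac, Matrix.of_apply, fderiv_comp (hdiff x), hcomp,
    fderiv_cv (hρs.of_le (by simp)) hρc hFi.locallyIntegrable]
  -- the test function
  set ψ : E3 → ℝ := fun y => ρ (x - y) with hψ
  have hsm : ContDiff ℝ (⊤ : ℕ∞) (fun y : E3 => x - y) := contDiff_const.sub contDiff_id
  have hψs : ContDiff ℝ (⊤ : ℕ∞) ψ := hρs.comp hsm
  have hsupp : Function.support ψ ⊆ Metric.closedBall x φ.rOut := by
    intro y hy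
    have h1 : x - y ∈ Function.support ρ := hy
    rw [hρ, φ.support_normed_eq] at h1
    rw [Metric.mem_ball, dist_zero_right] at h1
    rw [Metric.mem_closedBall, dist_eq_norm, norm_sub_rev]
    exact h1.le
  have hts : tsupport ψ ⊆ Metric.closedBall x φ.rOut :=
    closure_minimal hsupp Metric.isClosed_closedBall
  have hψc : HasCompactSupport ψ :=
    (isCompact_closedBall x φ.rOut).of_isClosed_subset (isClosed_tsupport ψ) hts
  have hibp := hW.ibp ψ hψs hψc (hts.trans (hx.trans hKΩ)) i j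
  have hder : ∀ y, fderiv ℝ ψ y (EuclideanSpace.single j 1) =
      - fderiv ℝ ρ (x - y) (EuclideanSpace.single j 1) := by
    intro y
    have h1 : HasFDerivAt (fun y : E3 => x - y) (-(ContinuousLinearMap.id ℝ E3)) y := by
      have h0 : HasFDerivAt (fun y : E3 => x - y)
          ((0 : E3 →L[ℝ] E3) - ContinuousLinearMap.id ℝ E3) y :=
        (hasFDerivAt_const (𝕜 := ℝ) x y).sub (hasFDerivAt_id (𝕜 := ℝ) y)
      simpa using h0
    have h2 : HasFDerivAt ψ ((fderiv ℝ ρ (x - y)).comp (-(ContinuousLinearMap.id ℝ E3))) y :=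
      ((hρs.differentiable (by simp)) (x - y)).hasFDerivAt.comp y h1
    rw [h2.fderiv]
    simp
  have e1 : cv (fun z => fderiv ℝ ρ z (EuclideanSpace.single j 1))
      (K'.indicator (fun y => f y i)) x =
      - ∫ y, f y i * fderiv ℝ ψ y (EuclideanSpace.single j 1) := by
    rw [cv, ← integral_neg]
    refine integral_congr_ae (Eventually.of_forall fun y => ?_)
    simp only
    by_cases hy : y ∈ K'
    · rw [indicator_of_mem hy, hder y]
      ring
    · have h0 : fderiv ℝ ψ y = 0 := by
        have : y ∉ tsupport ψ := fun h => hy (hx (hts h))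
        have h3 : y ∉ tsupport (fderiv ℝ ψ) := fun h => this (tsupport_fderiv_subset ℝ h)
        exact image_eq_zero_of_notMem_tsupport h3
      rw [indicator_of_notMem hy, h0]
      simp
  rw [e1, hibp, neg_neg, cv]
  refine integral_congr_ae (Eventually.of_forall fun y => ?_)
  simp only
  by_cases hy : y ∈ K'
  · rw [indicator_of_mem hy]
    ring
  · have h0 : ψ y = 0 := by
      by_contra h
      exact hy (hx (hsupp h))
    rw [indicator_of_notMem hy, h0]
    simp

theorem cv_cont {φ f : E3 → ℝ} (hφ : Continuous φ) (hc : HasCompactSupport φ)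
    (hf : LocallyIntegrable f volume) : Continuous (cv φ f) := by
  rw [cv_eq]
  exact hc.continuous_convolution_right _ hf hφ

theorem lint_norm (φ : ContDiffBump (0 : E3)) :
    ∫⁻ y, ENNReal.ofReal (φ.normed volume y) = 1 := by
  rw [← ofReal_integral_eq_lintegral_ofReal φ.integrable_normed
    (Eventually.of_forall fun y => φ.nonneg_normed y), φ.integral_normed]
  simp

theorem holder3 {α : Type*} [MeasurableSpace α] (μ : Measure α) (R U : α → ℝ≥0∞)
    (hR : AEMeasurable R μ) (hU : AEMeasurable U μ) (h1 : ∫⁻ a, R a ∂μ = 1) :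
    (∫⁻ a, R a * U a ∂μ) ^ (3 : ℝ) ≤ ∫⁻ a, R a * U a ^ (3 : ℝ) ∂μ := by
  have hpq : Real.HolderConjugate (3 : ℝ) (3 / 2) := by
    rw [Real.holderConjugate_iff]
    norm_num
  have h := ENNReal.lintegral_mul_le_Lp_mul_Lq μ hpq
    (f := fun a => R a ^ (1 / 3 : ℝ) * U a) (g := fun a => R a ^ (2 / 3 : ℝ))
    ((hR.pow_const _).mul hU) (hR.pow_const _)
  have e1 : (∫⁻ a, ((fun a => R a ^ (1 / 3 : ℝ) * U a) * fun a => R a ^ (2 / 3 : ℝ)) a ∂μ)
      = ∫⁻ a, R a * U a ∂μ := by
    refine lintegral_congr fun a => ?_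
    simp only [Pi.mul_apply]
    rw [mul_right_comm, ← ENNReal.rpow_add_of_nonneg _ _ (by norm_num) (by norm_num)]
    norm_num
  have e2 : (∫⁻ a, (R a ^ (1 / 3 : ℝ) * U a) ^ (3 : ℝ) ∂μ) = ∫⁻ a, R a * U a ^ (3 : ℝ) ∂μ := by
    refine lintegral_congr fun a => ?_
    rw [ENNReal.mul_rpow_of_nonneg _ _ (by norm_num), ← ENNReal.rpow_mul]
    norm_num
  have e3 : (∫⁻ a, (R a ^ (2 / 3 : ℝ)) ^ (3 / 2 : ℝ) ∂μ) = 1 := by
    rw [← h1]
    refine lintegral_congr fun a => ?_
    rw [← ENNReal.rpow_mul]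
    norm_num
  rw [e1, e2, e3, ENNReal.one_rpow, mul_one] at h
  calc (∫⁻ a, R a * U a ∂μ) ^ (3 : ℝ)
      ≤ ((∫⁻ a, R a * U a ^ (3 : ℝ) ∂μ) ^ (1 / 3 : ℝ)) ^ (3 : ℝ) :=
        ENNReal.rpow_le_rpow h (by norm_num)
    _ = _ := by
        rw [← ENNReal.rpow_mul]
        norm_num

/-- Young inequality with exponent three -/
theorem young (φ : ContDiffBump (0 : E3)) (u : E3 → ℝ) (hu : AEStronglyMeasurable u volume) :
    ∫⁻ x, ‖cv (φ.normed volume) u x‖ₑ ^ (3 : ℝ) ≤ ∫⁻ y, ‖u y‖ₑ ^ (3 : ℝ) := by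
  set R : E3 → ℝ≥0∞ := fun z => ENNReal.ofReal (φ.normed volume z) with hR
  have hRc : Continuous R := ENNReal.continuous_ofReal.comp φ.continuous_normed
  have hU : AEMeasurable (fun y => ‖u y‖ₑ) volume := hu.enorm
  have h1 : ∀ x, ∫⁻ y, R (x - y) = 1 := by
    intro x
    rw [lintegral_sub_left_eq_self R x]
    exact lint_norm φ
  have h1' : ∀ y, ∫⁻ x, R (x - y) = 1 := by
    intro y
    rw [lintegral_sub_right_eq_self R y]
    exact lint_norm φ
  have h2 : ∀ x, ‖cv (φ.normed volume) u x‖ₑ ^ (3 : ℝ) ≤ ∫⁻ y, R (x - y) * ‖u y‖ₑ ^ (3 : ℝ) := by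
    intro x
    refine le_trans (ENNReal.rpow_le_rpow ?_ (by norm_num))
      (holder3 volume (fun y => R (x - y)) (fun y => ‖u y‖ₑ)
        (hRc.comp (continuous_const.sub continuous_id)).measurable.aemeasurable hU (h1 x))
    refine (enorm_integral_le_lintegral_enorm _).trans (le_of_eq ?_)
    refine lintegral_congr fun y => ?_
    rw [enorm_mul, hR, Real.enorm_eq_ofReal (φ.nonneg_normed _)]
  calc ∫⁻ x, ‖cv (φ.normed volume) u x‖ₑ ^ (3 : ℝ)
      ≤ ∫⁻ x, ∫⁻ y, R (x - y) * ‖u y‖ₑ ^ (3 : ℝ) := lintegral_mono h2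
    _ = ∫⁻ y, ∫⁻ x, R (x - y) * ‖u y‖ₑ ^ (3 : ℝ) := by
        refine lintegral_lintegral_swap ?_
        refine AEMeasurable.mul ?_ ?_
        · exact (hRc.comp (continuous_fst.sub continuous_snd)).measurable.aemeasurable
        · exact (hU.pow_const (3 : ℝ)).comp_snd
    _ = ∫⁻ y, ‖u y‖ₑ ^ (3 : ℝ) := by
        refine lintegral_congr fun y => ?_
        have hmm : Measurable (fun x => R (x - y)) :=
          (hRc.comp (continuous_id.sub continuous_const)).measurable
        rw [lintegral_mul_const _ hmm, h1' y, one_mul]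

theorem young_eLp (φ : ContDiffBump (0 : E3)) (u : E3 → ℝ) (hu : AEStronglyMeasurable u volume) :
    eLpNorm (cv (φ.normed volume) u) 3 volume ≤ eLpNorm u 3 volume := by
  rw [eLpNorm_eq_lintegral_rpow_enorm_toReal (by norm_num) (by norm_num),
    eLpNorm_eq_lintegral_rpow_enorm_toReal (by norm_num) (by norm_num)]
  simp only [ENNReal.toReal_ofNat]
  exact ENNReal.rpow_le_rpow (young φ u hu) (by norm_num)

theorem cv_sub (φ : ContDiffBump (0 : E3)) (u v : E3 → ℝ) (hu : LocallyIntegrable u volume)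
    (hv : LocallyIntegrable v volume) (x : E3) :
    cv (φ.normed volume) (u - v) x = cv (φ.normed volume) u x - cv (φ.normed volume) v x := by
  have hI : ∀ w : E3 → ℝ, LocallyIntegrable w volume →
      Integrable (fun y => φ.normed volume (x - y) * w y) := by
    intro w hw
    have hc : HasCompactSupport (fun y => φ.normed volume (x - y)) :=
      φ.hasCompactSupport_normed.comp_homeomorph (Homeomorph.subLeft x)
    exact hw.integrable_smul_left_of_hasCompactSupport
      (φ.continuous_normed.comp (continuous_const.sub continuous_id)) hc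
  unfold cv
  rw [← integral_sub (hI u hu) (hI v hv)]
  refine integral_congr_ae (Eventually.of_forall fun y => ?_)
  simp only [Pi.sub_apply]
  ring

theorem locInt {u : E3 → ℝ} (hu : MemLp u 3 volume) : LocallyIntegrable u volume :=
  hu.locallyIntegrable (by norm_num)

theorem cv_memLp (φ : ContDiffBump (0 : E3)) (u : E3 → ℝ) (hu : MemLp u 3 volume) :
    MemLp (cv (φ.normed volume) u) 3 volume :=
  ⟨(cv_cont φ.continuous_normed φ.hasCompactSupport_normed (locInt hu)).aestronglyMeasurable,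
    (young_eLp φ u hu.1).trans_lt hu.2⟩

theorem cv_eq_conv (φ : ContDiffBump (0 : E3)) (u : E3 → ℝ) (x : E3) :
    cv (φ.normed volume) u x =
      (MeasureTheory.convolution (φ.normed volume) u (ContinuousLinearMap.lsmul ℝ ℝ) volume) x := by
  rw [MeasureTheory.convolution, cv,
    ← integral_sub_left_eq_self (fun t => (ContinuousLinearMap.lsmul ℝ ℝ)
      (φ.normed volume t) (u (x - t))) volume x]
  refine integral_congr_ae (Eventually.of_forall fun y => ?_)
  simp

theorem cont_case (φ : ℕ → ContDiffBump (0 : E3)) (hφ : Tendsto (fun n => (φ n).rOut) atTop (𝓝 0))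
    (g : E3 → ℝ) (hg : Continuous g) (hc : HasCompactSupport g) (ε : ℝ≥0∞) (hε : 0 < ε) :
    ∀ᶠ n in atTop, eLpNorm (cv ((φ n).normed volume) g - g) 3 volume ≤ ε := by
  set S := Metric.cthickening 1 (tsupport g) with hS
  have hSc : IsCompact S := IsCompact.cthickening hc
  set M := (volume S) ^ (1 / (3 : ℝ≥0∞).toReal) with hM
  have hMt : M ≠ ⊤ := ENNReal.rpow_ne_top_of_nonneg (by positivity) hSc.measure_ne_top
  obtain ⟨w, hw, hw2⟩ : ∃ w : ℝ, 0 < w ∧ ‖w‖ₑ * M ≤ ε := by
    have h1 : Tendsto (fun k : ℕ => ENNReal.ofReal (1 / ((k : ℝ) + 1)) * M) atTop (𝓝 0) := by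
      have h2 : Tendsto (fun k : ℕ => ENNReal.ofReal (1 / ((k : ℝ) + 1))) atTop (𝓝 0) := by
        have := ENNReal.tendsto_ofReal tendsto_one_div_add_atTop_nhds_zero_nat
        rwa [ENNReal.ofReal_zero] at this
      have h3 := ENNReal.Tendsto.mul_const h2 (Or.inr hMt)
      rwa [zero_mul] at h3
    obtain ⟨k, hk⟩ := (ENNReal.tendsto_nhds_zero.1 h1 ε hε).exists
    refine ⟨1 / ((k : ℝ) + 1), by positivity, ?_⟩
    rw [Real.enorm_eq_ofReal (by positivity)]
    exact hk
  have huc : UniformContinuous g := hc.uniformContinuous_of_continuous hg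
  obtain ⟨η, hη, hη2⟩ := Metric.uniformContinuous_iff.1 huc w hw
  filter_upwards [hφ.eventually (gt_mem_nhds hη), hφ.eventually (gt_mem_nhds one_pos)] with n hn hn1
  have hpt : ∀ x, ‖(cv ((φ n).normed volume) g - g) x‖ ≤ ‖S.indicator (fun _ => w) x‖ := by
    intro x
    rw [Pi.sub_apply, cv_eq_conv]
    by_cases hx : x ∈ S
    · rw [indicator_of_mem hx, ← dist_eq_norm, Real.norm_of_nonneg hw.le]
      refine (φ n).dist_normed_convolution_le hg.aestronglyMeasurable fun y hy => ?_
      exact (hη2 ((Metric.mem_ball.1 hy).trans hn)).le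
    · rw [indicator_of_notMem hx, norm_zero]
      have hgx : ∀ y ∈ Metric.ball x (φ n).rOut, g y = 0 := by
        intro y hy
        by_contra h
        apply hx
        refine Metric.mem_cthickening_of_dist_le x y 1 _ (subset_tsupport g h) ?_
        rw [dist_comm]
        exact ((Metric.mem_ball.1 hy).trans hn1).le
      have h0 : g x = 0 := hgx x (Metric.mem_ball_self (φ n).rOut_pos)
      rw [(φ n).normed_convolution_eq_right (fun y hy => by rw [hgx y hy, h0]), sub_self, norm_zero]
  calc eLpNorm (cv ((φ n).normed volume) g - g) 3 volume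
      ≤ eLpNorm (S.indicator (fun _ => w)) 3 volume := eLpNorm_mono hpt
    _ = ‖w‖ₑ * M := by
        rw [eLpNorm_indicator_const hSc.measurableSet (by norm_num) (by norm_num)]
    _ ≤ ε := hw2

theorem tendsto_eLp (φ : ℕ → ContDiffBump (0 : E3))
    (hφ : Tendsto (fun n => (φ n).rOut) atTop (𝓝 0)) (h : E3 → ℝ) (hh : MemLp h 3 volume) :
    Tendsto (fun n => eLpNorm (cv ((φ n).normed volume) h - h) 3 volume) atTop (𝓝 0) := by
  rw [ENNReal.tendsto_nhds_zero]
  intro ε hε
  have hε3 : (0 : ℝ≥0∞) < ε / 3 := ENNReal.div_pos hε.ne' (by norm_num)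
  obtain ⟨g, hgc, hg1, hg2, hg3⟩ :=
    hh.exists_hasCompactSupport_eLpNorm_sub_le (by norm_num) hε3.ne'
  filter_upwards [cont_case φ hφ g hg2 hgc (ε / 3) hε3] with n hn
  have e : cv ((φ n).normed volume) h - h =
      cv ((φ n).normed volume) (h - g) + (cv ((φ n).normed volume) g - g) + (g - h) := by
    funext x
    simp only [Pi.add_apply, Pi.sub_apply]
    rw [cv_sub (φ n) h g (locInt hh) (locInt hg3) x]
    ring
  have m1 : AEStronglyMeasurable (cv ((φ n).normed volume) (h - g)) volume :=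
    (cv_memLp (φ n) _ (hh.sub hg3)).1
  have m2 : AEStronglyMeasurable (cv ((φ n).normed volume) g - g) volume :=
    ((cv_memLp (φ n) _ hg3).sub hg3).1
  have m3 : AEStronglyMeasurable (g - h) volume := (hg3.sub hh).1
  rw [e]
  refine (eLpNorm_add_le (m1.add m2) m3 (by norm_num)).trans ?_
  have s1 := eLpNorm_add_le m1 m2 (p := (3 : ℝ≥0∞)) (by norm_num)
  have s2 := (young_eLp (φ n) (h - g) (hh.sub hg3).1).trans hg1
  have s3 : eLpNorm (g - h) 3 volume ≤ ε / 3 := by
    rw [eLpNorm_sub_comm]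
    exact hg1
  calc eLpNorm (cv ((φ n).normed volume) (h - g) + (cv ((φ n).normed volume) g - g)) 3 volume
        + eLpNorm (g - h) 3 volume
      ≤ (ε / 3 + ε / 3) + ε / 3 := add_le_add (s1.trans (add_le_add s2 hn)) s3
    _ = ε := ENNReal.add_thirds ε

theorem conv_L3 (φ : ℕ → ContDiffBump (0 : E3))
    (hφ : Tendsto (fun n => (φ n).rOut) atTop (𝓝 0)) (h : E3 → ℝ) (hh : MemLp h 3 volume) :
    (∀ n, Integrable (fun x => |(∫ y, (φ n).normed volume (x - y) * h y) - h x| ^ 3)) ∧
    Tendsto (fun n => ∫ x, |(∫ y, (φ n).normed volume (x - y) * h y) - h x| ^ 3) atTop (𝓝 0) := by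
  have hm : ∀ n, MemLp (cv ((φ n).normed volume) h - h) ((3 : ℕ) : ℝ≥0∞) volume := fun n => by
    have := (cv_memLp (φ n) h hh).sub hh
    exact_mod_cast this
  have hI : ∀ n, Integrable (fun x => |(∫ y, (φ n).normed volume (x - y) * h y) - h x| ^ 3) :=
    fun n => (hm n).integrable_norm_pow (by norm_num)
  refine ⟨hI, ?_⟩
  have h2 := tendsto_eLp φ hφ h hh
  have h3 : ∀ n, ∫ x, |(∫ y, (φ n).normed volume (x - y) * h y) - h x| ^ 3 =
      ((eLpNorm (cv ((φ n).normed volume) h - h) 3 volume) ^ (3 : ℝ)).toReal := by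
    intro n
    rw [integral_eq_lintegral_of_nonneg_ae (Eventually.of_forall fun x => by positivity)
      (hI n).aestronglyMeasurable]
    congr 1
    rw [eLpNorm_eq_lintegral_rpow_enorm_toReal (by norm_num) (by norm_num), ← ENNReal.rpow_mul]
    simp only [ENNReal.toReal_ofNat]
    norm_num
    refine lintegral_congr fun x => ?_
    rw [← Real.norm_eq_abs, ← ofReal_norm]
    rfl
  simp only [h3]
  have h4 : Tendsto (fun n => (eLpNorm (cv ((φ n).normed volume) h - h) 3 volume) ^ (3 : ℝ)) atTop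
      (𝓝 0) := by
    have := (ENNReal.continuous_rpow_const (y := (3 : ℝ))).tendsto (0 : ℝ≥0∞)
    rw [ENNReal.zero_rpow_of_pos (by norm_num)] at this
    exact this.comp h2
  have h5 := (ENNReal.tendsto_toReal ENNReal.zero_ne_top).comp h4
  rw [ENNReal.toReal_zero] at h5
  exact h5

/-- `L^3` convergence of mollifications (hypothesis form) -/
def ConvL3 : Prop :=
  ∀ (φ : ℕ → ContDiffBump (0 : E3)) (_ : Tendsto (fun n => (φ n).rOut) atTop (𝓝 0))
    (h : E3 → ℝ) (_ : MemLp h 3 volume),
    (∀ n, Integrable (fun x => |(∫ y, (φ n).normed volume (x - y) * h y) - h x| ^ 3)) ∧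
    Tendsto (fun n => ∫ x, |(∫ y, (φ n).normed volume (x - y) * h y) - h x| ^ 3) atTop (𝓝 0)

theorem moll_of (hL : ConvL3) : Stmt_MOLL := by
  intro Ω f A hΩ hf hW K hK hKΩ
  obtain ⟨δ, hδ, hδΩ⟩ := hK.exists_cthickening_subset_open hΩ hKΩ
  set K' := Metric.cthickening δ K with hK'
  have hK'c : IsCompact K' := hK.cthickening
  have hfK' : ContinuousOn f K' := hf.mono hδΩ
  have hKK' : K ⊆ K' := Metric.self_subset_cthickening K
  have hF : Integrable (K'.indicator f) volume :=
    (hfK'.integrableOn_compact hK'c).integrable_indicator hK'c.measurableSet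
  have hball : ∀ n, ∀ x ∈ K, Metric.closedBall x (bmp δ hδ n).rOut ⊆ K' := by
    intro n x hx y hy
    refine Metric.mem_cthickening_of_dist_le y x δ K hx ?_
    exact (Metric.mem_closedBall.1 hy).trans (bmp_rOut_lt δ hδ n).le
  refine ⟨fun n => MeasureTheory.convolution ((bmp δ hδ n).normed volume) (K'.indicator f)
      (ContinuousLinearMap.lsmul ℝ ℝ) volume, fun n => ?_, ?_, fun i j => ?_⟩
  · exact (bmp δ hδ n).hasCompactSupport_normed.contDiff_convolution_left _
      (bmp δ hδ n).contDiff_normed hF.locallyIntegrable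
  · have huc : UniformContinuousOn f K' := hK'c.uniformContinuousOn_of_continuous hfK'
    rw [Metric.tendstoUniformlyOn_iff]
    intro ε hε
    obtain ⟨η, hη, hη2⟩ := Metric.uniformContinuousOn_iff.1 huc (ε / 2) (by positivity)
    have hev : ∀ᶠ n in atTop, (bmp δ hδ n).rOut < η :=
      (bmp_tendsto δ hδ).eventually (gt_mem_nhds hη)
    filter_upwards [hev] with n hn x hx
    rw [dist_comm]
    have hxK' := hKK' hx
    have hfx : f x = K'.indicator f x := by rw [indicator_of_mem hxK']
    rw [hfx]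
    refine lt_of_le_of_lt ((bmp δ hδ n).dist_normed_convolution_le hF.aestronglyMeasurable
      (ε := ε / 2) ?_) (by linarith)
    intro y hy
    have hyK' : y ∈ K' := hball n x hx (Metric.ball_subset_closedBall hy)
    rw [indicator_of_mem hyK', indicator_of_mem hxK']
    exact (hη2 y hyK' x hxK' ((Metric.mem_ball.1 hy).trans hn)).le
  · have hA : MemLp (K'.indicator (fun y => A y i j)) 3 volume :=
      (memLp_indicator_iff_restrict hK'c.measurableSet).2 (hW.loc K' hK'c hδΩ i j)
    obtain ⟨hI, hT⟩ := hL (bmp δ hδ) (bmp_tendsto δ hδ) _ hA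
    refine squeeze_zero (fun n => integral_nonneg fun x => by positivity) (fun n => ?_) hT
    calc ∫ x in K, |jac (MeasureTheory.convolution ((bmp δ hδ n).normed volume) (K'.indicator f)
          (ContinuousLinearMap.lsmul ℝ ℝ) volume) x i j - A x i j| ^ 3
        = ∫ x in K, |(∫ y, (bmp δ hδ n).normed volume (x - y) *
            K'.indicator (fun y => A y i j) y) - K'.indicator (fun y => A y i j) x| ^ 3 := by
          refine setIntegral_congr_fun hK.measurableSet fun x hx => ?_
          simp only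
          rw [jac_conv hW hK'c hδΩ hfK' (bmp δ hδ n) x (hball n x hx) i j, cv,
            indicator_of_mem (hKK' hx) (fun y => A y i j)]
      _ ≤ _ := setIntegral_le_integral (hI n) (Eventually.of_forall fun x => by positivity)

end Pool.Mart.MOLL_

namespace Pool.Mart

theorem stmt_MOLL : Stmt_MOLL :=
  MOLL_.moll_of fun φ hφ h hh => MOLL_.conv_L3 φ hφ h hh

end Pool.Mart
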