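import Pool.Agent.Work.MP_680515_an.IfaceA
import Pool.Agent.Work.MP_680515_an.B.CHV

/-!
# MP_680515_an: block WGT (weak gradients under similarities)

`Stmt_WGT` of `IfaceA` is not correct without local integrability of `f` (the structure
`WeakGrad` does not contain it); `Stmt_WGTc` is the same for continuous `f`.
-/

open MeasureTheory Set Filter Topology

namespace Pool.Mart

/-- WGT.  Weak gradients under similarities: `F X = c' • O'ᵀ (f (p + l • O X) - q)`, for
continuous `f`. -/
def Stmt_WGTc : Prop :=
  ∀ (Ω : Set E3) (f : E3 → E3) (A : E3 → M3) (p q : E3) (l c' : ℝ) (O O' : M3), IsOpen Ω → 0 < l →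
    O ∈ Matrix.specialOrthogonalGroup (Fin 3) ℝ → ContinuousOn f Ω → WeakGrad Ω f A →
    WeakGrad {X | p + l • act O X ∈ Ω} (fun X => c' • act O' (f (p + l • act O X) - q))
      (fun X => (c' * l) • (O' * A (p + l • act O X) * O))

namespace WGT_

open CHV_

/-- The similarity as a homeomorphism. -/
noncomputable def T (p : E3) {l : ℝ} (hl : 0 < l) {O : M3}
    (hO : O ∈ Matrix.specialOrthogonalGroup (Fin 3) ℝ) : E3 ≃ₜ E3 :=
  (iso hO).toHomeomorph.trans ((Homeomorph.smulOfNeZero l hl.ne').trans (Homeomorph.addLeft p))

theorem T_apply (p : E3) {l : ℝ} (hl : 0 < l) {O : M3}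
    (hO : O ∈ Matrix.specialOrthogonalGroup (Fin 3) ℝ) (X : E3) :
    T p hl hO X = p + l • act O X := rfl

theorem T_symm (p : E3) {l : ℝ} (hl : 0 < l) {O : M3}
    (hO : O ∈ Matrix.specialOrthogonalGroup (Fin 3) ℝ) (x : E3) :
    (T p hl hO).symm x = (iso hO).symm (l⁻¹ • (x - p)) := by
  rw [Homeomorph.symm_apply_eq, T_apply, ← iso_apply hO, LinearIsometryEquiv.apply_symm_apply,
    smul_smul, mul_inv_cancel₀ hl.ne', one_smul, add_sub_cancel]

theorem map_T (p : E3) {l : ℝ} (hl : 0 < l) {O : M3}
    (hO : O ∈ Matrix.specialOrthogonalGroup (Fin 3) ℝ) :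
    ∃ c : ENNReal, c ≠ ⊤ ∧ Measure.map (T p hl hO) (volume : Measure E3) = c • volume := by
  refine ⟨ENNReal.ofReal |(l ^ Module.finrank ℝ E3)⁻¹|, ENNReal.ofReal_ne_top, ?_⟩
  have h1 : (T p hl hO : E3 → E3) = (fun x => p + x) ∘ (fun x => l • x) ∘ (iso hO) := by
    funext X
    rfl
  rw [h1, ← Measure.map_map (measurable_const_add p) (by fun_prop),
    ← Measure.map_map (measurable_const_smul l) (iso hO).continuous.measurable,
    (iso hO).measurePreserving.map_eq, Measure.map_addHaar_smul volume hl.ne', Measure.map_smul,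
    map_add_left_eq_self]

theorem coord_smul (a : ℝ) (v : E3) (i : Fin 3) : (a • v) i = a * v i := rfl

theorem act_coord (M : M3) (v : E3) (i : Fin 3) : act M v i = ∑ a, M i a * v a := rfl

theorem clm_sum (L : E3 →L[ℝ] ℝ) (v : E3) :
    L v = ∑ b, v b * L (EuclideanSpace.single b 1) := by
  have h : v = ∑ b, v b • (EuclideanSpace.single b (1 : ℝ) : E3) := by
    ext i
    simp [Fin.sum_univ_three]
    fin_cases i <;> simp
  conv_lhs => rw [h]
  rw [map_sum]
  refine Finset.sum_congr rfl fun b _ => ?_
  rw [map_smul, smul_eq_mul]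

end WGT_

open WGT_ CHV_ in
theorem stmt_WGT (hCHV : Stmt_CHV) : Stmt_WGTc := by
  intro Ω f A p q l c' O O' hΩ hl hO hf hw
  set τ := T p hl hO with hτ
  have hτa : ∀ X, τ X = p + l • act O X := fun X => rfl
  refine ⟨?_, ?_⟩
  · intro K hK hKΩ i j
    obtain ⟨c, hc, hmap⟩ := map_T p hl hO
    have hK' : IsCompact (τ '' K) := hK.image τ.continuous
    have hK'Ω : τ '' K ⊆ Ω := by
      rintro _ ⟨X, hX, rfl⟩
      exact hKΩ hX
    have h0 : ∀ a b : Fin 3, MemLp (fun X => A (τ X) a b) 3 (volume.restrict K) := by
      intro a b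
      have h1 := hw.loc _ hK' hK'Ω a b
      have h2 : Measure.map τ (volume.restrict K) = c • volume.restrict (τ '' K) := by
        have h3 := τ.measurableEmbedding.restrict_map volume (τ '' K)
        rw [preimage_image_eq K τ.injective, hmap, Measure.restrict_smul] at h3
        exact h3.symm
      have h3 : MemLp (fun x => A x a b) 3 (Measure.map τ (volume.restrict K)) := by
        rw [h2]
        exact h1.smul_measure hc
      exact (τ.measurableEmbedding.memLp_map_measure_iff).1 h3
    have h1 : (fun X => ((c' * l) • (O' * A (p + l • act O X) * O)) i j)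
        = fun X => ∑ b, ∑ a, (c' * l * O' i a * O b j) * A (τ X) a b := by
      funext X
      rw [Matrix.smul_apply, Matrix.mul_apply, smul_eq_mul, Finset.mul_sum]
      refine Finset.sum_congr rfl fun b _ => ?_
      rw [Matrix.mul_apply, Finset.sum_mul, Finset.mul_sum]
      refine Finset.sum_congr rfl fun a _ => ?_
      rw [hτa]
      ring
    rw [h1]
    exact memLp_finsetSum _ fun b _ => memLp_finsetSum _ fun a _ => (h0 a b).const_mul _
  · intro φ h1 h2 h3 i j
    set ψ : E3 → ℝ := φ ∘ τ.symm with hψ
    have hs : ∀ x, τ.symm x = (iso hO).symm (l⁻¹ • (x - p)) := T_symm p hl hO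
    have g1 : ContDiff ℝ (⊤ : ℕ∞) ψ := by
      have e1 : ψ = fun x => φ ((iso hO).symm (l⁻¹ • (x - p))) := by
        funext x
        rw [hψ, Function.comp_apply, hs]
      rw [e1]
      refine h1.comp ((iso hO).symm.contDiff.comp ?_)
      fun_prop
    have g2 : HasCompactSupport ψ := h2.comp_homeomorph τ.symm
    have g3 : tsupport ψ ⊆ Ω := by
      rw [hψ, tsupport_comp_eq_preimage]
      intro x hx
      have := h3 hx
      simp only [mem_ofPred_eq, ← hτa, Homeomorph.apply_symm_apply] at this
      exact this
    have hφ : ∀ X, φ X = ψ (τ X) := fun X => by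
      rw [hψ, Function.comp_apply, Homeomorph.symm_apply_apply]
    have hdψ : Differentiable ℝ ψ := g1.differentiable (by simp)
    have hdφ : ∀ X, fderiv ℝ φ X (EuclideanSpace.single j 1)
        = ∑ b, (l * O b j) * fderiv ℝ ψ (τ X) (EuclideanSpace.single b 1) := by
      intro X
      have e1 : HasFDerivAt (fun X => p + l • (iso hO) X)
          (l • ((iso hO).toContinuousLinearEquiv : E3 →L[ℝ] E3)) X := by
        exact (((iso hO).toContinuousLinearEquiv.hasFDerivAt).const_smul l).const_add p
      have e2 : HasFDerivAt φ ((fderiv ℝ ψ (τ X)).comp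
          (l • ((iso hO).toContinuousLinearEquiv : E3 →L[ℝ] E3))) X := by
        have e3 : φ = ψ ∘ (fun X => p + l • (iso hO) X) := by
          funext Y
          exact hφ Y
        rw [e3]
        exact (hdψ (τ X)).hasFDerivAt.comp X e1
      rw [e2.fderiv, ContinuousLinearMap.comp_apply, clm_sum (fderiv ℝ ψ (τ X))]
      refine Finset.sum_congr rfl fun b _ => ?_
      congr 1
      change l * (act O (EuclideanSpace.single j 1)) b = l * O b j
      rw [act_coord]
      simp
    -- continuity and integrability
    have hcd : ∀ b, Continuous fun x => fderiv ℝ ψ x (EuclideanSpace.single b 1) := fun b =>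
      (g1.continuous_fderiv (by simp)).clm_apply continuous_const
    have hKc : IsCompact (tsupport ψ) := g2
    have hsd : ∀ b x, x ∉ tsupport ψ → fderiv ℝ ψ x (EuclideanSpace.single b 1) = 0 := by
      intro b x hx
      have : fderiv ℝ ψ x = 0 := by
        by_contra hne
        exact hx (support_fderiv_subset ℝ hne)
      rw [this, zero_apply]
    have hfc : ∀ a, ContinuousOn (fun x => f x a) (tsupport ψ) := fun a =>
      ((EuclideanSpace.proj a : E3 →L[ℝ] ℝ).continuous.comp_continuousOn (hf.mono g3))
    have i1 : ∀ a b, Integrable (fun x => f x a * fderiv ℝ ψ x (EuclideanSpace.single b 1)) := by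
      intro a b
      refine (integrableOn_iff_integrable_of_support_subset (s := tsupport ψ) ?_).1 ?_
      · intro x hx
        by_contra hn
        exact hx (by simp only [hsd b x hn, mul_zero])
      · exact ((hfc a).mul (hcd b).continuousOn).integrableOn_compact hKc
    have i2 : ∀ b, Integrable (fun x => fderiv ℝ ψ x (EuclideanSpace.single b 1)) := fun b =>
      (hcd b).integrable_of_hasCompactSupport (g2.fderiv_apply ℝ _)
    have i3 : ∀ a b, Integrable (fun x => A x a b * ψ x) := by
      intro a b
      refine (integrableOn_iff_integrable_of_support_subset (s := tsupport ψ) ?_).1 ?_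
      · intro x hx
        by_contra hn
        exact hx (by simp only [image_eq_zero_of_notMem_tsupport hn, mul_zero])
      · have e1 : IntegrableOn (fun x => A x a b) (tsupport ψ) := by
          have : IsFiniteMeasure (volume.restrict (tsupport ψ)) :=
            ⟨by rw [Measure.restrict_apply_univ]; exact hKc.measure_lt_top⟩
          exact (hw.loc _ hKc g3 a b).integrable (by norm_num)
        exact e1.mul_continuousOn g1.continuous.continuousOn hKc
    have i4 : ∀ b, ∫ x, fderiv ℝ ψ x (EuclideanSpace.single b 1) = 0 := by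
      intro b
      have e1 := integral_mul_fderiv_eq_neg_fderiv_mul_of_integrable (μ := (volume : Measure E3))
        (f := fun _ : E3 => (1 : ℝ)) (g := ψ) (v := EuclideanSpace.single b 1)
        (by simp) (by simpa using i2 b)
        (by simpa using g1.continuous.integrable_of_hasCompactSupport g2)
        (fun x _ => differentiableAt_const _) (fun x _ => hdψ x)
      simpa using e1
    have hC := fun h : E3 → ℝ => (hCHV h p l O hl hO).1
    set H1 : E3 → ℝ := fun x => ∑ b, ∑ a, (c' * l * O' i a * O b j) *
          (f x a * fderiv ℝ ψ x (EuclideanSpace.single b 1)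
            - q a * fderiv ℝ ψ x (EuclideanSpace.single b 1)) with hH1
    set H2 : E3 → ℝ := fun x => ∑ b, ∑ a, (c' * l * O' i a * O b j) * (A x a b * ψ x) with hH2
    have e1 : ∀ X, (c' • act O' (f (p + l • act O X) - q)) i
        * fderiv ℝ φ X (EuclideanSpace.single j 1)
        = H1 (p + l • act O X) := by
      intro X
      rw [hH1, hdφ, coord_smul, act_coord, Finset.mul_sum]
      refine Finset.sum_congr rfl fun b _ => ?_
      rw [Finset.mul_sum, Finset.sum_mul]
      refine Finset.sum_congr rfl fun a _ => ?_
      rw [hτa, PiLp.sub_apply]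
      ring
    have e2 : ∀ X, ((c' * l) • (O' * A (p + l • act O X) * O)) i j * φ X
        = H2 (p + l • act O X) := by
      intro X
      rw [hH2, Matrix.smul_apply, Matrix.mul_apply, smul_eq_mul, Finset.mul_sum, Finset.sum_mul]
      refine Finset.sum_congr rfl fun b _ => ?_
      rw [Matrix.mul_apply, Finset.sum_mul, Finset.mul_sum, Finset.sum_mul]
      refine Finset.sum_congr rfl fun a _ => ?_
      rw [hφ, hτa]
      ring
    refine (integral_congr_ae (Eventually.of_forall e1)).trans ((hC H1).trans ?_)
    refine Eq.trans ?_ (congrArg Neg.neg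
      ((integral_congr_ae (Eventually.of_forall e2)).trans (hC H2))).symm
    rw [← mul_neg]
    congr 1
    have j1 : ∀ b a, Integrable (fun x => (c' * l * O' i a * O b j) *
          (f x a * fderiv ℝ ψ x (EuclideanSpace.single b 1)
            - q a * fderiv ℝ ψ x (EuclideanSpace.single b 1))) := fun b a =>
      ((i1 a b).sub ((i2 b).const_mul (q a))).const_mul _
    have j2 : ∀ b a, Integrable (fun x => (c' * l * O' i a * O b j) * (A x a b * ψ x)) := fun b a =>
      (i3 a b).const_mul _
    have k1 : ∫ x, H1 x = ∑ b, ∑ a, ∫ x, (c' * l * O' i a * O b j) *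
          (f x a * fderiv ℝ ψ x (EuclideanSpace.single b 1)
            - q a * fderiv ℝ ψ x (EuclideanSpace.single b 1)) := by
      refine (integral_finsetSum _ fun b _ => integrable_finsetSum _ fun a _ => j1 b a).trans ?_
      exact Finset.sum_congr rfl fun b _ => integral_finsetSum _ fun a _ => j1 b a
    have k2 : ∫ x, H2 x = ∑ b, ∑ a, ∫ x, (c' * l * O' i a * O b j) * (A x a b * ψ x) := by
      refine (integral_finsetSum _ fun b _ => integrable_finsetSum _ fun a _ => j2 b a).trans ?_
      exact Finset.sum_congr rfl fun b _ => integral_finsetSum _ fun a _ => j2 b a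
    rw [k1, k2, ← Finset.sum_neg_distrib]
    refine Finset.sum_congr rfl fun b _ => ?_
    rw [← Finset.sum_neg_distrib]
    refine Finset.sum_congr rfl fun a _ => ?_
    rw [integral_const_mul, integral_const_mul, integral_sub (i1 a b) ((i2 b).const_mul (q a)),
      integral_const_mul, i4 b, mul_zero, sub_zero, hw.ibp ψ g1 g2 g3 a b, mul_neg]

end Pool.Mart
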