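import Pool.Agent.Work.MP_680515_an.IfaceA
import Pool.Agent.Work.MP_680515_an.B.WGT

/-!
# MP_680515_an, block NRM: the systems of a package are normalised maps
-/

open MeasureTheory Set Filter Topology Complex

namespace Pool.Mart

namespace NRM_

theorem act_eq (A : M3) (v : E3) : act A v = Matrix.toEuclideanLin A v := by
  simp [act, Matrix.toLpLin_apply]

theorem act_sub (A : M3) (v w : E3) : act A (v - w) = act A v - act A w := by
  simp only [act_eq, map_sub]

theorem act_smul (A : M3) (c : ℝ) (v : E3) : act A (c • v) = c • act A v := by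
  simp only [act_eq, map_smul]

theorem act_zero (A : M3) : act A 0 = 0 := by
  simp only [act_eq, map_zero]

theorem act_cont (A : M3) : Continuous (fun v : E3 => act A v) := by
  have h := (Matrix.toEuclideanLin A).continuous_of_finiteDimensional
  refine h.congr fun v => ?_
  rw [act_eq]

theorem mono {U V : Set E3} {f : E3 → E3} {A : E3 → M3} (h : U ⊆ V) (hw : WeakGrad V f A) :
    WeakGrad U f A :=
  ⟨fun K hK hKU i j => hw.loc K hK (hKU.trans h) i j,
    fun φ h1 h2 h3 i j => hw.ibp φ h1 h2 (h3.trans h) i j⟩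

end NRM_

open NRM_ in
theorem stmt_NRM (hWGT : Stmt_WGTc) (hCHV : Stmt_CHV) (hROT : Stmt_ROT) (hLIN4 : Stmt_LIN4) :
    Stmt_NRM := by
  intro ε Ω f A γ O O' K hΩ hq hin hK2 hP t ht n
  have hl := hP.pos t ht n
  have hl' := hP.pos' t ht n
  have hO := hP.so t ht n
  have hO' := hP.so' t ht n
  set l := len γ t n with hldef
  set l' := len (f ∘ γ) t n with hldef'
  obtain ⟨-, hn1, hn2, hn3, hn4⟩ := hCHV (fun _ => 0) (γ t) l (O t n) hl hO
  obtain ⟨-, hm1, hm2, hm3, -⟩ := hCHV (fun _ => 0) (γ t) l (O' t n) hl hO'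
  have hmt : ∀ v : E3, ‖act (O' t n).transpose v‖ = ‖v‖ := by
    intro v
    rw [← hm1 (act (O' t n).transpose v), hm2]
  have hsub : ∀ X ∈ Metric.ball (0 : E3) 64, γ t + l • act (O t n) X ∈ Ω := by
    intro X hX
    apply hP.sub t ht n
    rw [Metric.mem_ball, dist_eq_norm, add_sub_cancel_left, norm_smul, Real.norm_eq_abs,
      abs_of_pos hl, hn1, mul_comm]
    have : ‖X‖ < 64 := by simpa using hX
    exact mul_lt_mul_of_pos_right this hl
  -- almost every point is good
  obtain ⟨K', hK'1, hK'⟩ := hq.qr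
  have hgood : ∀ᵐ x ∂(volume.restrict Ω), Good (A x) ∧
      opn (cofm (A x)) ^ 3 ≤ K * (A x).det ^ 2 := by
    filter_upwards [hK', hin] with x h1 h2
    refine ⟨hLIN4 (A x) K' hK'1 h1 (h2.trans ?_), h2⟩
    exact mul_le_mul_of_nonneg_right hK2 (sq_nonneg _)
  rw [ae_restrict_iff' hΩ.measurableSet] at hgood
  have hgood2 := hn4 _ hgood
  have hc : 0 < l / l' := div_pos hl hl'
  have hrot : ∀ X, _ := fun X => hROT (A (γ t + l • act (O t n) X)) (O t n) (O' t n) (l / l') l l'
    hc hl hl' rfl hO hO'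
  refine ⟨⟨?_, ?_, ?_, ?_, ?_, ?_⟩, ?_⟩
  · -- continuity
    have h1 : ContinuousOn (fun X : E3 => γ t + l • act (O t n) X) (Metric.ball 0 64) :=
      (continuous_const.add ((act_cont _).const_smul l)).continuousOn
    have h2 : ContinuousOn (fun X : E3 => f (γ t + l • act (O t n) X)) (Metric.ball 0 64) :=
      hq.cont.comp h1 hsub
    have h3 : ContinuousOn (fun X : E3 => act (O' t n).transpose
        (f (γ t + l • act (O t n) X) - f (γ t))) (Metric.ball 0 64) :=
      (act_cont _).comp_continuousOn (h2.sub continuousOn_const)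
    exact h3.const_smul (l'⁻¹ : ℝ)
  · have h1 := hWGT Ω f A (γ t) (f (γ t)) l l'⁻¹ (O t n) (O' t n).transpose hΩ hl hO hq.cont hq.wg
    have h2 : nA f A γ O O' t n = fun X => (l'⁻¹ * l) •
        ((O' t n).transpose * A (γ t + l • act (O t n) X) * O t n) := by
      funext X
      simp only [nA]
      rw [← hldef, ← hldef', div_eq_mul_inv, mul_comm l l'⁻¹]
    rw [h2]
    exact mono hsub h1
  · rw [ae_restrict_iff' Metric.isOpen_ball.measurableSet]
    filter_upwards [hgood2] with X hX hXb
    exact (hrot X).1 (hX (hsub X hXb)).1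
  · intro X hX
    have h1 := hP.close t ht n X hX
    have h2 : nF f γ O O' t n X - wind X = l'⁻¹ • act (O' t n).transpose
        (f (γ t + l • act (O t n) X) - f (γ t) - l' • act (O' t n) (wind X)) := by
      simp only [nF]
      rw [act_sub _ (f (γ t + l • act (O t n) X) - f (γ t)), act_smul, hm3, smul_sub, smul_smul,
        inv_mul_cancel₀ hl'.ne', one_smul]
    rw [h2, norm_smul, hmt, Real.norm_eq_abs, abs_of_pos (inv_pos.mpr hl')]
    calc l'⁻¹ * ‖f (γ t + l • act (O t n) X) - f (γ t) - l' • act (O' t n) (wind X)‖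
        ≤ l'⁻¹ * (ε * l') := mul_le_mul_of_nonneg_left h1 (inv_pos.mpr hl').le
      _ = ε := by field_simp
  · simp only [nF, act_zero, smul_zero, add_zero, sub_self]
  · have h1 : γ t + l • act (O t n) e3 = γ (t + sc n) := by
      rw [hldef, ← hP.base t ht n]; abel
    have h2 := hP.base' t ht n
    simp only [nF]
    rw [← hldef, ← hldef', h1, h2, ← hldef', act_smul, hm3, smul_smul, inv_mul_cancel₀ hl'.ne',
      one_smul]
  · unfold InnerDist
    rw [ae_restrict_iff' Metric.isOpen_ball.measurableSet]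
    filter_upwards [hgood2] with X hX hXb
    obtain ⟨-, -, h3, h4, -⟩ := hrot X
    have h5 := (hX (hsub X hXb)).2
    have h6 : nA f A γ O O' t n X = (l / l') •
        ((O' t n).transpose * A (γ t + l • act (O t n) X) * O t n) := rfl
    rw [h6, h3, h4]
    calc ((l / l') ^ 2 * opn (cofm (A (γ t + l • act (O t n) X)))) ^ 3
        = (l / l') ^ 6 * opn (cofm (A (γ t + l • act (O t n) X))) ^ 3 := by ring
      _ ≤ (l / l') ^ 6 * (K * (A (γ t + l • act (O t n) X)).det ^ 2) :=
          mul_le_mul_of_nonneg_left h5 (by positivity)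
      _ = K * ((l / l') ^ 3 * (A (γ t + l • act (O t n) X)).det) ^ 2 := by ring

end Pool.Mart
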