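import Pool.Agent.Work.MP_680515_an.IfaceH

/-!
# MP_680515_an: block PACK
-/

open MeasureTheory Set Filter Topology Complex

namespace Pool.Mart.PACK_

theorem act_mul (M N : M3) (v : E3) : act (M * N) v = act M (act N v) := by
  simp [act, Matrix.mulVec_mulVec]

theorem act_one (v : E3) : act 1 v = v := by
  simp [act]

theorem act_sub (M : M3) (u v : E3) : act M (u - v) = act M u - act M v := by
  simp [act, Matrix.mulVec_sub]

theorem act_add (M : M3) (u v : E3) : act M (u + v) = act M u + act M v := by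
  simp [act, Matrix.mulVec_add]

theorem act_smul (M : M3) (c : ℝ) (v : E3) : act M (c • v) = c • act M v := by
  simp [act, Matrix.mulVec_smul]

theorem norm_act (M : M3) (hM : M ∈ Matrix.specialOrthogonalGroup (Fin 3) ℝ) (v : E3) :
    ‖act M v‖ = ‖v‖ := by
  have h1 : M.transpose * M = 1 := by
    have h := (Matrix.mem_specialOrthogonalGroup_iff.mp hM).1
    exact (Matrix.mem_orthogonalGroup_iff' (Fin 3) ℝ).mp h
  have h2 : ‖act M v‖ ^ 2 = ‖v‖ ^ 2 := by
    rw [EuclideanSpace.norm_sq_eq, EuclideanSpace.norm_sq_eq]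
    simp only [Real.norm_eq_abs, sq_abs]
    have h3 : ∑ i, (act M v) i ^ 2 = (M.mulVec v.ofLp) ⬝ᵥ (M.mulVec v.ofLp) := by
      simp [act, dotProduct, sq]
    have h4 : ∑ i, v i ^ 2 = v.ofLp ⬝ᵥ v.ofLp := by
      simp [dotProduct, sq]
    rw [h3, h4, Matrix.dotProduct_mulVec, Matrix.vecMul_mulVec, h1, Matrix.vecMul_one]
  exact (sq_eq_sq₀ (norm_nonneg _) (norm_nonneg _)).mp h2

theorem act_act_transpose (M : M3) (hM : M ∈ Matrix.specialOrthogonalGroup (Fin 3) ℝ) (v : E3) :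
    act M (act M.transpose v) = v := by
  rw [← act_mul]
  have h1 : M * M.transpose = 1 := by
    have h := (Matrix.mem_specialOrthogonalGroup_iff.mp hM).1
    exact (Matrix.mem_orthogonalGroup_iff (Fin 3) ℝ).mp h
  rw [h1, act_one]

theorem norm_actT (M : M3) (hM : M ∈ Matrix.specialOrthogonalGroup (Fin 3) ℝ) (v : E3) :
    ‖act M.transpose v‖ = ‖v‖ := by
  have h := norm_act M hM (act M.transpose v)
  rw [act_act_transpose M hM] at h
  exact h.symm

theorem norm_e3 : ‖e3‖ = 1 := by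
  simp [e3]

/-- The frames of one system. -/
theorem core (hFIXF : Stmt_FIXF) (hWIN1 : Stmt_WIN1) (δ1 δ2 : ℝ) (Ω : Set E3) (φ ψ : E3 → E3)
    (ys : E3) (κ : ℝ) (γ : ℝ → E3) (t : ℝ) (n : ℕ) (L Λ : ℝ) (Q Q' : M3) (hδ1 : 0 ≤ δ1)
    (hδ2 : 0 ≤ δ2) (hδ : δ1 + δ2 ≤ 1 / 100000) (hys0 : ys 0 = 0) (hys1 : ys 1 = 0) (hκ : 0 < κ)
    (hγ0 : ψ (γ t) = ys + (κ * t) • e3) (hγ1 : ψ (γ (t + sc n)) = ys + (κ * (t + sc n)) • e3)
    (hL : 0 < L) (hΛ : 0 < Λ) (hQ : Q ∈ Matrix.specialOrthogonalGroup (Fin 3) ℝ)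
    (hQ' : Q' ∈ Matrix.specialOrthogonalGroup (Fin 3) ℝ)
    (hline1 : ‖γ (t + sc n) - γ t - L • act Q e3‖ ≤ δ1 * L)
    (hline : ∀ s : ℝ, |s| ≤ 64 → t + s * sc n ∈ Icc (-21 : ℝ) 21 →
          ‖γ (t + s * sc n) - γ t - (s * L) • act Q e3‖ ≤ δ1 * L)
    (hX : ∀ X : E3, ‖X‖ ≤ 66 → γ t + L • act Q X ∈ Ω ∧
          ‖ψ (γ t + L • act Q X) - (ys + (κ * t) • e3 + (κ * sc n) • X)‖ ≤ δ1 * (κ * sc n))
    (hW : ∀ W : E3, ‖W‖ ≤ 68 →
        ‖φ (ys + (κ * t) • e3 + (κ * sc n) • W) - φ (ys + (κ * t) • e3) - Λ • act Q' W‖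
          ≤ δ2 * Λ) :
    ∃ O O' : M3, 0 < len γ t n ∧ 0 < len ((fun x => φ (wind (ψ x))) ∘ γ) t n ∧
      O ∈ Matrix.specialOrthogonalGroup (Fin 3) ℝ ∧
      O' ∈ Matrix.specialOrthogonalGroup (Fin 3) ℝ ∧
      γ (t + sc n) - γ t = len γ t n • act O e3 ∧
      φ (wind (ψ (γ (t + sc n)))) - φ (wind (ψ (γ t)))
        = len ((fun x => φ (wind (ψ x))) ∘ γ) t n • act O' e3 ∧
      Metric.ball (γ t) (64 * len γ t n) ⊆ Ω ∧
      (∀ X ∈ Metric.ball (0 : E3) 64,
        ‖φ (wind (ψ (γ t + len γ t n • act O X))) - φ (wind (ψ (γ t)))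
          - len ((fun x => φ (wind (ψ x))) ∘ γ) t n • act O' (wind X)‖
        ≤ 10000 * (δ1 + δ2) * len ((fun x => φ (wind (ψ x))) ∘ γ) t n) ∧
      (∀ s : ℝ, |s| ≤ 64 → t + s * sc n ∈ Icc (-21 : ℝ) 21 →
        ‖γ (t + s * sc n) - γ t - (s * len γ t n) • act O e3‖
          ≤ 10000 * (δ1 + δ2) * len γ t n) := by
  obtain ⟨hw1, -, -, hwL, hwS, hwT, -, -, hwA⟩ := hWIN1
  have hsc : 0 < sc n := by unfold sc; positivity
  set σ := κ * sc n with hσ
  have hσ0 : 0 < σ := by positivity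
  have hys : ys = (ys 2) • e3 := by
    ext i
    fin_cases i
    · simpa [e3] using hys0
    · simpa [e3] using hys1
    · simp [e3]
  -- the winding map near the axis
  have hwz : ∀ Z : E3, wind (ys + (κ * t) • e3 + σ • Z) = ys + (κ * t) • e3 + σ • wind Z := by
    intro Z
    have h1 : ys + (κ * t) • e3 + σ • Z = σ • Z + (ys 2 + κ * t) • e3 := by
      rw [add_smul, ← hys]
      abel
    rw [h1, hwT, hwS _ _ hσ0.le, add_smul, ← hys]
    abel
  have hwa : wind (ys + (κ * t) • e3) = ys + (κ * t) • e3 := by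
    have h1 : ys + (κ * t) • e3 = (ys 2 + κ * t) • e3 := by
      rw [add_smul, ← hys]
    rw [h1, hwA]
  have hf0 : φ (wind (ψ (γ t))) = φ (ys + (κ * t) • e3) := by rw [hγ0, hwa]
  have hf1 : φ (wind (ψ (γ (t + sc n)))) = φ (ys + (κ * t) • e3 + σ • e3) := by
    rw [hγ1]
    have h1 : ys + (κ * (t + sc n)) • e3 = ys + (κ * t) • e3 + σ • e3 := by
      rw [mul_add, add_smul, hσ]
      abel
    rw [h1, hwz]
    have h2 : wind e3 = e3 := by
      have := hwA 1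
      simpa using this
    rw [h2]
  -- the frames
  obtain ⟨O, hO, hbO, hlO, hpO, hcO⟩ := hFIXF Q L δ1 (γ (t + sc n) - γ t) hQ hL hδ1
    (by linarith) hline1
  obtain ⟨O', hO', hbO', hlO', hpO', hcO'⟩ := hFIXF Q' Λ δ2
    (φ (wind (ψ (γ (t + sc n)))) - φ (wind (ψ (γ t)))) hQ' hΛ hδ2
    (by linarith) (by
      rw [hf0, hf1]
      exact hW e3 (by rw [norm_e3]; norm_num))
  have hlen : len γ t n = ‖γ (t + sc n) - γ t‖ := rfl
  have hlen' : len ((fun x => φ (wind (ψ x))) ∘ γ) t n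
      = ‖φ (wind (ψ (γ (t + sc n)))) - φ (wind (ψ (γ t)))‖ := rfl
  rw [← hlen] at hbO hlO hpO hcO
  rw [← hlen'] at hbO' hlO' hpO' hcO'
  set l := len γ t n with hl
  set l' := len ((fun x => φ (wind (ψ x))) ∘ γ) t n with hl'
  have hlL : L ≤ 2 * l := by
    have := (abs_le.mp hlO).1
    nlinarith
  have hlL2 : l ≤ (1 + δ1) * L := by
    have := (abs_le.mp hlO).2
    nlinarith
  have hlΛ : Λ ≤ 2 * l' := by
    have := (abs_le.mp hlO').1
    nlinarith
  refine ⟨O, O', hpO, hpO', hO, hO', hbO, hbO', ?_, ?_, ?_⟩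
  · -- sub
    intro x hx
    rw [Metric.mem_ball, dist_eq_norm] at hx
    have h1 := (hX (L⁻¹ • act Q.transpose (x - γ t)) (by
      rw [norm_smul, norm_actT Q hQ, Real.norm_of_nonneg (by positivity)]
      have h2 : ‖x - γ t‖ ≤ 64 * ((1 + δ1) * L) := by
        have : 64 * l ≤ 64 * ((1 + δ1) * L) := by linarith
        linarith
      calc L⁻¹ * ‖x - γ t‖ ≤ L⁻¹ * (64 * ((1 + δ1) * L)) := by gcongr
        _ = 64 * (1 + δ1) := by field_simp
        _ ≤ 66 := by linarith)).1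
    rw [act_smul, act_act_transpose Q hQ, smul_smul, mul_inv_cancel₀ hL.ne', one_smul] at h1
    have h2 : γ t + (x - γ t) = x := by abel
    rwa [h2] at h1
  · -- close
    intro X hXb
    rw [mem_ball_zero_iff] at hXb
    set X' : E3 := (l / L) • act Q.transpose (act O X) with hX'
    have h1 : L • act Q X' = l • act O X := by
      rw [hX', act_smul, act_act_transpose Q hQ, smul_smul]
      congr 1
      field_simp
    have h2 : ‖X' - X‖ ≤ 768 * δ1 := by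
      rw [← norm_act Q hQ, act_sub]
      have h3 : ‖L • (act Q X' - act Q X)‖ ≤ 12 * δ1 * L * ‖X‖ := by
        rw [smul_sub, h1]
        exact (hcO X).2
      rw [norm_smul, Real.norm_of_nonneg hL.le] at h3
      have h4 : L * ‖act Q X' - act Q X‖ ≤ L * (768 * δ1) := by
        have h5 : 12 * δ1 * L * ‖X‖ ≤ 12 * δ1 * L * 64 := by gcongr
        linarith
      exact le_of_mul_le_mul_left h4 hL
    have h3 : ‖X'‖ ≤ 66 := by
      have h4 : ‖X'‖ ≤ ‖X' - X‖ + ‖X‖ := by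
        have := norm_add_le (X' - X) X
        rwa [sub_add_cancel] at this
      linarith
    obtain ⟨-, h4⟩ := hX X' h3
    rw [h1] at h4
    set x := γ t + l • act O X with hx
    set Z : E3 := σ⁻¹ • (ψ x - (ys + (κ * t) • e3)) with hZ
    have h5 : ψ x = ys + (κ * t) • e3 + σ • Z := by
      rw [hZ, smul_smul, mul_inv_cancel₀ hσ0.ne', one_smul]
      abel
    have h6 : ‖Z - X'‖ ≤ δ1 := by
      rw [h5, add_sub_add_left_eq_sub, ← smul_sub, norm_smul, Real.norm_of_nonneg hσ0.le,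
        mul_comm δ1] at h4
      exact le_of_mul_le_mul_left h4 hσ0
    have h7 : ‖Z - X‖ ≤ 769 * δ1 := by
      have := norm_add_le (Z - X') (X' - X)
      rw [sub_add_sub_cancel] at this
      linarith
    have h8 : ‖wind Z‖ ≤ 68 := by
      rw [hw1]
      have := norm_add_le (Z - X) X
      rw [sub_add_cancel] at this
      linarith
    have h9 := hW (wind Z) h8
    have h10 : φ (wind (ψ x)) = φ (ys + (κ * t) • e3 + σ • wind Z) := by
      rw [h5, hwz]
    rw [h10, hf0]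
    have h11 : ‖Λ • act Q' (wind Z) - Λ • act Q' (wind X)‖ ≤ Λ * (1538 * δ1) := by
      rw [← smul_sub, ← act_sub, norm_smul, norm_act Q' hQ', Real.norm_of_nonneg hΛ.le]
      have := hwL Z X
      gcongr
      linarith
    have h12 : ‖Λ • act Q' (wind X) - l' • act O' (wind X)‖ ≤ 768 * δ2 * Λ := by
      rw [norm_sub_rev]
      have h13 := (hcO' (wind X)).2
      rw [hw1] at h13
      have h14 : 12 * δ2 * Λ * ‖X‖ ≤ 12 * δ2 * Λ * 64 := by gcongr
      linarith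
    have h15 : φ (ys + (κ * t) • e3 + σ • wind Z) - φ (ys + (κ * t) • e3) - l' • act O' (wind X)
        = (φ (ys + (κ * t) • e3 + σ • wind Z) - φ (ys + (κ * t) • e3) - Λ • act Q' (wind Z))
          + (Λ • act Q' (wind Z) - Λ • act Q' (wind X))
          + (Λ • act Q' (wind X) - l' • act O' (wind X)) := by abel
    rw [h15]
    refine (norm_add₃_le).trans ?_
    have h16 : δ2 * Λ + Λ * (1538 * δ1) + 768 * δ2 * Λ ≤ 2307 * (δ1 + δ2) * Λ := by
      nlinarith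
    have h17 : 2307 * (δ1 + δ2) * Λ ≤ 2307 * (δ1 + δ2) * (2 * l') := by gcongr
    have h18 : 0 ≤ (δ1 + δ2) * l' := by positivity
    nlinarith
  · -- line
    intro s hs hts
    have h1 := hline s hs hts
    have h2 := (hcO e3).2
    rw [norm_e3, mul_one] at h2
    have h3 : γ (t + s * sc n) - γ t - (s * l) • act O e3
        = (γ (t + s * sc n) - γ t - (s * L) • act Q e3) - s • (l • act O e3 - L • act Q e3) := by
      rw [smul_sub, smul_smul, smul_smul]
      abel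
    rw [h3]
    refine (norm_sub_le _ _).trans ?_
    rw [norm_smul, Real.norm_eq_abs]
    have h4 : |s| * ‖l • act O e3 - L • act Q e3‖ ≤ 64 * (12 * δ1 * L) := by gcongr
    have h5 : 769 * δ1 * L ≤ 769 * δ1 * (2 * l) := by gcongr
    have h6 : 0 ≤ δ1 * l := by positivity
    have h7 : 0 ≤ δ2 * l := by positivity
    nlinarith

end Pool.Mart.PACK_

namespace Pool.Mart

open PACK_

theorem stmt_PACK (hCURV : Stmt_CURV) (hTARG : Stmt_TARG) (hFIXF : Stmt_FIXF)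
    (hWIN1 : Stmt_WIN1) : Stmt_PACK := by
  obtain ⟨C1, hC1, hcurv⟩ := hCURV
  obtain ⟨C2, hC2, htarg⟩ := hTARG
  refine ⟨10000 * (C1 + C2), min (1 / 100) (1 / (100000 * (C1 + C2))), by positivity,
    by positivity, ?_⟩
  intro ε Ω V φ ψ hε hε0 hV hψ hφ hax
  have hε1 : ε ≤ 1 / 100 := hε0.trans (min_le_left _ _)
  have hε2 : C1 * ε + C2 * ε ≤ 1 / 100000 := by
    have h1 : ε ≤ 1 / (100000 * (C1 + C2)) := hε0.trans (min_le_right _ _)
    have h2 : (C1 + C2) * ε ≤ (C1 + C2) * (1 / (100000 * (C1 + C2))) := by gcongr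
    have h3 : (C1 + C2) * (1 / (100000 * (C1 + C2))) = 1 / 100000 := by field_simp
    linarith
  obtain ⟨xs, hxs, hrad⟩ := hax
  have hyv : ψ xs 0 = 0 ∧ ψ xs 1 = 0 := by
    unfold rad at hrad
    have h1 : ψ xs 0 ^ 2 + ψ xs 1 ^ 2 = 0 := by
      have h2 : 0 ≤ ψ xs 0 ^ 2 + ψ xs 1 ^ 2 := by positivity
      exact (Real.sqrt_eq_zero h2).mp hrad
    constructor
    · nlinarith [sq_nonneg (ψ xs 0), sq_nonneg (ψ xs 1)]
    · nlinarith [sq_nonneg (ψ xs 0), sq_nonneg (ψ xs 1)]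
  have hys : ψ xs = (ψ xs 2) • e3 := by
    ext i
    fin_cases i
    · simpa [e3] using hyv.1
    · simpa [e3] using hyv.2
    · simp [e3]
  have hys2 : wind (ψ xs) = ψ xs := by
    rw [hys]
    exact hWIN1.2.2.2.2.2.2.2.2 _
  have hysV : ψ xs ∈ V := by
    have := hV xs hxs
    rwa [hys2] at this
  obtain ⟨κ1, hκ1, hcur⟩ := hcurv ε Ω ψ xs hε hε1 hψ hxs
  obtain ⟨κ2, hκ2, htar⟩ := htarg ε V φ (ψ xs) hε hφ hysV
  set κ := min κ1 κ2 with hκdef
  have hκ : 0 < κ := lt_min hκ1 hκ2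
  obtain ⟨γ, hγ, hcur2⟩ := hcur κ hκ (min_le_left _ _)
  have htar2 := htar κ hκ (min_le_right _ _)
  have key : ∀ (t : ℝ) (n : ℕ), ∃ O O' : M3, t ∈ Icc (-20 : ℝ) 20 →
      (0 < len γ t n ∧ 0 < len ((fun x => φ (wind (ψ x))) ∘ γ) t n ∧
      O ∈ Matrix.specialOrthogonalGroup (Fin 3) ℝ ∧
      O' ∈ Matrix.specialOrthogonalGroup (Fin 3) ℝ ∧
      γ (t + sc n) - γ t = len γ t n • act O e3 ∧
      φ (wind (ψ (γ (t + sc n)))) - φ (wind (ψ (γ t)))
        = len ((fun x => φ (wind (ψ x))) ∘ γ) t n • act O' e3 ∧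
      Metric.ball (γ t) (64 * len γ t n) ⊆ Ω ∧
      (∀ X ∈ Metric.ball (0 : E3) 64,
        ‖φ (wind (ψ (γ t + len γ t n • act O X))) - φ (wind (ψ (γ t)))
          - len ((fun x => φ (wind (ψ x))) ∘ γ) t n • act O' (wind X)‖
        ≤ 10000 * (C1 * ε + C2 * ε) * len ((fun x => φ (wind (ψ x))) ∘ γ) t n) ∧
      (∀ s : ℝ, |s| ≤ 64 → t + s * sc n ∈ Icc (-21 : ℝ) 21 →
        ‖γ (t + s * sc n) - γ t - (s * len γ t n) • act O e3‖
          ≤ 10000 * (C1 * ε + C2 * ε) * len γ t n)) := by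
    intro t n
    by_cases ht : t ∈ Icc (-20 : ℝ) 20
    · have hsc0 : 0 < sc n := by unfold sc; positivity
      have hsc1 : sc n ≤ 1 := by
        unfold sc
        exact pow_le_one₀ (by norm_num) (by norm_num)
      have ht1 : t + sc n ∈ Icc (-21 : ℝ) 21 := ⟨by linarith [ht.1], by linarith [ht.2]⟩
      obtain ⟨L, Q, hL, hQ, hl, hX⟩ := hcur2 t ht n
      obtain ⟨Λ, Q', hΛ, hQ', hW⟩ := htar2 t ht n
      have hl1 : ‖γ (t + sc n) - γ t - L • act Q e3‖ ≤ C1 * ε * L := by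
        have h := hl 1 (by norm_num) (by rwa [one_mul])
        rwa [one_mul, one_mul] at h
      obtain ⟨O, O', h⟩ := core hFIXF hWIN1 (C1 * ε) (C2 * ε) Ω φ ψ (ψ xs) κ γ t n L Λ Q Q'
        (by positivity) (by positivity) hε2 hyv.1 hyv.2 hκ
        (hγ t ⟨by linarith [ht.1], by linarith [ht.2]⟩).2 (hγ (t + sc n) ht1).2 hL hΛ hQ hQ'
        hl1 hl hX hW
      exact ⟨O, O', fun _ => h⟩
    · exact ⟨1, 1, fun h => absurd h ht⟩
  choose O O' hOO using key
  have hcc : 10000 * (C1 + C2) * ε = 10000 * (C1 * ε + C2 * ε) := by ring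
  refine ⟨γ, O, O', ?_⟩
  constructor
  · intro t ht n; exact (hOO t n ht).1
  · intro t ht n; exact (hOO t n ht).2.1
  · intro t ht n; exact (hOO t n ht).2.2.1
  · intro t ht n; exact (hOO t n ht).2.2.2.1
  · intro t ht n; exact (hOO t n ht).2.2.2.2.1
  · intro t ht n; exact (hOO t n ht).2.2.2.2.2.1
  · intro t ht n; exact (hOO t n ht).2.2.2.2.2.2.1
  · intro t ht n X hX
    rw [hcc]
    exact (hOO t n ht).2.2.2.2.2.2.2.1 X hX
  · intro t ht n s hs hts
    rw [hcc]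
    exact (hOO t n ht).2.2.2.2.2.2.2.2 s hs hts

end Pool.Mart
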