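import Pool.Agent.Work.MP_680515_an.IfaceA
import Pool.Agent.Work.MP_680515_an.Piola

open MeasureTheory Set Filter Topology

namespace Pool.Mart

namespace PIO_

theorem cpair_jac (g : E3 → E3) (x H b : E3) : cpair (jac g x) H b =
    b 0 * det3 H (fderiv ℝ g x (bs 1)) (fderiv ℝ g x (bs 2))
      + b 1 * det3 H (fderiv ℝ g x (bs 2)) (fderiv ℝ g x (bs 0))
      + b 2 * det3 H (fderiv ℝ g x (bs 0)) (fderiv ℝ g x (bs 1)) := by
  simp only [cpair, cofm, jac, Matrix.adjugate_fin_three, Fin.sum_univ_three, Matrix.transpose_apply,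
    Matrix.of_apply, Matrix.cons_val', Matrix.cons_val_zero, Matrix.cons_val_one, Matrix.cons_val,
    Matrix.cons_val_fin_one, det3, bs]
  ring

theorem det_jac (g : E3 → E3) (x : E3) : (jac g x).det =
    det3 (fderiv ℝ g x (bs 0)) (fderiv ℝ g x (bs 1)) (fderiv ℝ g x (bs 2)) := by
  simp only [jac, Matrix.det_fin_three, Matrix.of_apply, det3, bs]
  ring

theorem divv_trd (H : E3 → E3) (y : E3) : divv H y = trd (fderiv ℝ H y) := by
  simp [divv, trd, bs]

theorem gradv_apply (φ : E3 → ℝ) (x : E3) (j : Fin 3) : gradv φ x j = fderiv ℝ φ x (bs j) := by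
  simp [gradv, bs]

/-- Piola identity, global field. -/
theorem glob {g H : E3 → E3} {φ : E3 → ℝ} (hg : ContDiff ℝ 2 g) (hH : ContDiff ℝ 1 H)
    (hφ : ContDiff ℝ 1 φ) (hφc : HasCompactSupport φ) :
    ∫ x, cpair (jac g x) (H (g x)) (gradv φ x)
      = - ∫ x, φ x * ((jac g x).det * divv H (g x)) := by
  have := piola_smooth_global hg hH hφ hφc
  simp only [cpair_jac, det_jac, divv_trd, gradv_apply]
  exact this

end PIO_

theorem stmt_PIO0 : Stmt_PIO0 := by
  intro g u i hg hu huc
  have h := PIO_.glob (g := g) (H := fun _ => EuclideanSpace.single i 1) (hg.of_le (WithTop.coe_le_coe.2 (le_top : (2 : ℕ∞) ≤ ⊤)))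
    contDiff_const hu huc
  have hz : ∀ y : E3, divv (fun _ => EuclideanSpace.single i (1 : ℝ)) y = 0 := by
    intro y; simp [divv]
  simp only [hz, mul_zero, integral_zero, neg_zero] at h
  rw [← h]
  refine integral_congr_ae (Eventually.of_forall fun x => ?_)
  simp only [cpair, gradv]
  fin_cases i <;> simp [Fin.sum_univ_three]

end Pool.Mart
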