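import Pool.Agent.Work.MP_680515_an.B.PIO0

open MeasureTheory Set Filter Topology
open scoped Manifold ContDiff

namespace Pool.Mart

namespace PIO_

/-- cut-off of a field near a compact set -/
theorem cut_field {H : E3 → E3} {U K : Set E3} (hU : IsOpen U) (hH : ContDiffOn ℝ 1 H U)
    (hK : IsCompact K) (hKU : K ⊆ U) :
    ∃ H' : E3 → E3, ContDiff ℝ 1 H' ∧ ∀ y ∈ K, H' =ᶠ[𝓝 y] H := by
  obtain ⟨L, hLc, hKL, hLU⟩ := exists_compact_between hK hU hKU
  obtain ⟨f, hf1, hf0, -⟩ := exists_contMDiffMap_one_nhds_of_subset_interior (n := (⊤ : ℕ∞))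
    (modelWithCornersSelf ℝ E3) hK.isClosed hKL
  have hf : ContDiff ℝ (⊤ : ℕ∞) (fun y => f y) := f.contMDiff.contDiff
  refine ⟨fun y => f y • H y, ?_, ?_⟩
  · rw [contDiff_iff_contDiffAt]
    intro y
    by_cases hy : y ∈ U
    · exact ((hf.of_le (WithTop.coe_le_coe.2 (le_top : (1 : ℕ∞) ≤ ⊤))).contDiffAt).smul
        (hH.contDiffAt (hU.mem_nhds hy))
    · have hyL : y ∈ Lᶜ := fun h => hy (hLU h)
      have : (fun y => f y • H y) =ᶠ[𝓝 y] fun _ => 0 := by
        filter_upwards [hLc.isClosed.isOpen_compl.mem_nhds hyL] with z hz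
        rw [hf0 z hz, zero_smul]
      exact contDiffAt_const.congr_of_eventuallyEq this
  · intro y hy
    have h1 : ∀ᶠ z in 𝓝 y, f z = 1 := (eventually_nhdsSet_iff_forall.1 hf1) y hy
    filter_upwards [h1] with z hz
    rw [hz, one_smul]

end PIO_

theorem stmt_PIO1 : Stmt_PIO1 := by
  intro g H φ U hg hU hH hφ hφc hmem
  have hK : IsCompact (g '' tsupport φ) := hφc.isCompact.image hg.continuous
  obtain ⟨H', hH', heq⟩ := PIO_.cut_field hU hH hK (by rintro _ ⟨x, hx, rfl⟩; exact hmem x hx)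
  have h := PIO_.glob (g := g) (hg.of_le (WithTop.coe_le_coe.2 (le_top : (2 : ℕ∞) ≤ ⊤))) hH' hφ hφc
  have e1 : ∀ x, cpair (jac g x) (H' (g x)) (gradv φ x) = cpair (jac g x) (H (g x)) (gradv φ x) := by
    intro x
    by_cases hx : x ∈ tsupport φ
    · rw [(heq (g x) ⟨x, hx, rfl⟩).eq_of_nhds]
    · have hz : gradv φ x = 0 := by
        have : fderiv ℝ φ x = 0 := by
          by_contra hne
          exact hx (support_fderiv_subset ℝ (Function.mem_support.2 hne))
        ext j; simp [gradv, this]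
      rw [hz]; simp [cpair]
  have e2 : ∀ x, φ x * ((jac g x).det * divv H' (g x)) = φ x * ((jac g x).det * divv H (g x)) := by
    intro x
    by_cases hx : x ∈ tsupport φ
    · have : fderiv ℝ H' (g x) = fderiv ℝ H (g x) := (heq (g x) ⟨x, hx, rfl⟩).fderiv_eq
      simp only [divv, this]
    · rw [image_eq_zero_of_notMem_tsupport hx]; simp
  simp only [e1, e2] at h
  exact h

end Pool.Mart
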