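import Pool.Agent.Work.MP_680515_an.IfaceA

/-!
PIOI.  Integrability of the integrands of the Piola identity.
-/

open MeasureTheory Set Filter Topology

namespace Pool.Mart

namespace PIOI42_

/-- The matrix as a continuous linear map, linear in the matrix. -/
noncomputable def Lc : M3 →ₗ[ℝ] (E3 →L[ℝ] E3) :=
  (LinearMap.toContinuousLinearMap : (E3 →ₗ[ℝ] E3) ≃ₗ[ℝ] (E3 →L[ℝ] E3)).toLinearMap ∘ₗ
    (Matrix.toEuclideanLin : M3 ≃ₗ[ℝ] (E3 →ₗ[ℝ] E3)).toLinearMap

theorem opn_eq (M : M3) : opn M = ‖Lc M‖ := rfl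

theorem Lc_sum (M : M3) : Lc M = ∑ i, ∑ j, M i j • Lc (Matrix.single i j 1) := by
  conv_lhs => rw [Matrix.matrix_eq_sum_single M]
  rw [map_sum]
  refine Finset.sum_congr rfl fun i _ => ?_
  rw [map_sum]
  refine Finset.sum_congr rfl fun j _ => ?_
  rw [← map_smul, Matrix.smul_single, smul_eq_mul, mul_one]

theorem memLp_opn {μ : Measure E3} {p : ENNReal} {A : E3 → M3}
    (h : ∀ i j : Fin 3, MemLp (fun x => A x i j) p μ) : MemLp (fun x => opn (A x)) p μ := by
  have h0 : ∀ i j : Fin 3, MemLp (fun x => A x i j • Lc (Matrix.single i j 1)) p μ := fun i j =>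
    (ContinuousLinearMap.toSpanSingleton ℝ (Lc (Matrix.single i j 1))).comp_memLp' (h i j)
  have h1 : MemLp (fun x => ∑ i, ∑ j, A x i j • Lc (Matrix.single i j 1)) p μ :=
    memLp_finsetSum (f := fun i x => ∑ j, A x i j • Lc (Matrix.single i j 1)) _ fun i _ =>
      memLp_finsetSum (f := fun j x => A x i j • Lc (Matrix.single i j 1)) _ fun j _ => h0 i j
  have h2 := h1.norm
  have h3 : (fun x => opn (A x)) = fun x => ‖∑ i, ∑ j, A x i j • Lc (Matrix.single i j 1)‖ := by
    funext x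
    rw [opn_eq, Lc_sum (A x)]
  rw [h3]
  exact h2

theorem amgm {a b c : ℝ} (ha : 0 ≤ a) (hb : 0 ≤ b) (hc : 0 ≤ c) :
    a * b * c ≤ a ^ 3 + b ^ 3 + c ^ 3 := by
  have h1 : 0 ≤ a ^ 3 + b ^ 3 + c ^ 3 - 3 * (a * b * c) := by
    have : a ^ 3 + b ^ 3 + c ^ 3 - 3 * (a * b * c)
      = (a + b + c) * ((a - b) ^ 2 + (b - c) ^ 2 + (c - a) ^ 2) / 2 := by ring
    rw [this]; positivity
  have h2 : 0 ≤ a * b * c := by positivity
  linarith

theorem int3 {μ : Measure E3} {a b c : E3 → ℝ} (ha : MemLp a 3 μ) (hb : MemLp b 3 μ)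
    (hc : MemLp c 3 μ) : Integrable (fun x => a x * b x * c x) μ := by
  have ia := ha.integrable_norm_pow (p := 3) (by norm_num)
  have ib := hb.integrable_norm_pow (p := 3) (by norm_num)
  have ic := hc.integrable_norm_pow (p := 3) (by norm_num)
  refine ((ia.add ib).add ic).mono' ((ha.1.mul hb.1).mul hc.1) (Eventually.of_forall fun x => ?_)
  rw [norm_mul, norm_mul]
  exact amgm (norm_nonneg _) (norm_nonneg _) (norm_nonneg _)

theorem int2 {μ : Measure E3} {a b : E3 → ℝ} (ha : MemLp a 2 μ) (hb : MemLp b 2 μ) :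
    Integrable (fun x => a x * b x) μ := by
  have ia := ha.integrable_norm_pow (p := 2) (by norm_num)
  have ib := hb.integrable_norm_pow (p := 2) (by norm_num)
  refine (ia.add ib).mono' (ha.1.mul hb.1) (Eventually.of_forall fun x => ?_)
  rw [norm_mul]
  have : ‖a x‖ * ‖b x‖ ≤ ‖a x‖ ^ 2 + ‖b x‖ ^ 2 := by nlinarith [norm_nonneg (a x), norm_nonneg (b x)]
  exact this

/-- All entries of the cofactor matrix are integrable. -/
theorem int_cof {μ : Measure E3} {A : E3 → M3}
    (h : ∀ i j : Fin 3, MemLp (fun x => A x i j) 2 μ) (i j : Fin 3) :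
    Integrable (fun x => cofm (A x) i j) μ := by
  have key : ∀ a b c d a' b' c' d' : Fin 3,
      Integrable (fun x => A x a b * A x c d - A x a' b' * A x c' d') μ := fun a b c d a' b' c' d' =>
    (int2 (h a b) (h c d)).sub (int2 (h a' b') (h c' d'))
  have key' : ∀ a b c d a' b' c' d' : Fin 3,
      Integrable (fun x => -(A x a b * A x c d) + A x a' b' * A x c' d') μ :=
    fun a b c d a' b' c' d' => (int2 (h a b) (h c d)).neg.add (int2 (h a' b') (h c' d'))
  simp only [cofm, Matrix.adjugate_fin_three, Matrix.transpose_apply, Matrix.of_apply]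
  fin_cases i <;> fin_cases j <;>
    simp only [Matrix.cons_val', Matrix.cons_val_zero, Matrix.cons_val_one, Matrix.cons_val,
      Matrix.cons_val_fin_one, Fin.zero_eta, Fin.mk_one, Fin.reduceFinMk] <;>
    first
      | exact key _ _ _ _ _ _ _ _
      | exact key' _ _ _ _ _ _ _ _

theorem int_det {μ : Measure E3} {A : E3 → M3}
    (h : ∀ i j : Fin 3, MemLp (fun x => A x i j) 3 μ) :
    Integrable (fun x => (A x).det) μ := by
  simp only [Matrix.det_fin_three]
  exact (((((int3 (h _ _) (h _ _) (h _ _)).sub (int3 (h _ _) (h _ _) (h _ _))).sub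
    (int3 (h _ _) (h _ _) (h _ _))).add (int3 (h _ _) (h _ _) (h _ _))).add
    (int3 (h _ _) (h _ _) (h _ _))).sub (int3 (h _ _) (h _ _) (h _ _))

theorem cont_coord {K : Set E3} {H : E3 → E3} (h : ContinuousOn H K) (i : Fin 3) :
    ContinuousOn (fun x => H x i) K :=
  (EuclideanSpace.proj i : E3 →L[ℝ] ℝ).continuous.comp_continuousOn h

end PIOI42_

open PIOI42_ in
theorem stmt_PIOI' : Stmt_PIOI := by
  intro Ω f A _ _ hA K hK hKΩ
  have h3 := hA.loc K hK hKΩ
  have : IsFiniteMeasure (volume.restrict K) := ⟨by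
    rw [Measure.restrict_apply_univ]; exact hK.measure_lt_top⟩
  have h2 : ∀ i j : Fin 3, MemLp (fun x => A x i j) 2 (volume.restrict K) := fun i j =>
    (h3 i j).mono_exponent (by norm_num)
  refine ⟨int_det h3, ?_, ?_, ?_⟩
  · have := (memLp_opn h3).integrable_norm_pow (p := 3) (by norm_num)
    refine this.congr (Eventually.of_forall fun x => ?_)
    show ‖opn (A x)‖ ^ 3 = opn (A x) ^ 3
    rw [Real.norm_of_nonneg (by rw [opn_eq]; exact norm_nonneg _)]
  · have := (memLp_opn h2).integrable_norm_pow (p := 2) (by norm_num)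
    refine this.congr (Eventually.of_forall fun x => ?_)
    show ‖opn (A x)‖ ^ 2 = opn (A x) ^ 2
    rw [Real.norm_of_nonneg (by rw [opn_eq]; exact norm_nonneg _)]
  · intro H b hH hb
    unfold cpair
    refine integrable_finsetSum _ fun i _ => ?_
    refine integrable_finsetSum _ fun j _ => ?_
    have h1 : IntegrableOn (fun x => cofm (A x) i j) K := int_cof h2 i j
    have h4 := (h1.continuousOn_mul (cont_coord hH i) hK).mul_continuousOn (cont_coord hb j) hK
    exact h4

theorem stmt_PIOI (_hBAS : Stmt_BAS) : Stmt_PIOI := stmt_PIOI'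

end Pool.Mart
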