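import Pool.Agent.Work.MP_680515_an.IfaceA

/-!
# MP_680515_an: block PIOW (Piola identity for continuous Sobolev maps)
-/

open MeasureTheory Set Filter Topology

namespace Pool.Mart

namespace PIOW_

/-! ## Elementary inequalities -/

theorem amgm {u v w : ℝ} (hu : 0 ≤ u) (hv : 0 ≤ v) (hw : 0 ≤ w) :
    3 * (u * v * w) ≤ u ^ 3 + v ^ 3 + w ^ 3 := by
  nlinarith [mul_nonneg (add_nonneg (add_nonneg hu hv) hw) (sq_nonneg (u - v)),
    mul_nonneg (add_nonneg (add_nonneg hu hv) hw) (sq_nonneg (v - w)),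
    mul_nonneg (add_nonneg (add_nonneg hu hv) hw) (sq_nonneg (w - u))]

theorem trip {δ : ℝ} (hδ : 0 < δ) (d x y : ℝ) :
    |d| * |x| * |y| ≤ (|d| ^ 3 / δ ^ 6 + δ ^ 3 * |x| ^ 3 + δ ^ 3 * |y| ^ 3) / 3 := by
  have h := amgm (u := |d| / δ ^ 2) (v := δ * |x|) (w := δ * |y|) (by positivity) (by positivity)
    (by positivity)
  have e1 : |d| / δ ^ 2 * (δ * |x|) * (δ * |y|) = |d| * |x| * |y| := by
    field_simp
  have e2 : (|d| / δ ^ 2) ^ 3 = |d| ^ 3 / δ ^ 6 := by
    rw [div_pow]
    congr 1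
    ring
  rw [e1, e2, mul_pow, mul_pow] at h
  linarith

theorem cub (a b : ℝ) : |b| ^ 3 ≤ 4 * (|a| ^ 3 + |b - a| ^ 3) := by
  have h : |b| ≤ |a| + |b - a| := by
    have := abs_add_le a (b - a)
    have e : a + (b - a) = b := by ring
    rwa [e] at this
  have h1 : |b| ^ 3 ≤ (|a| + |b - a|) ^ 3 := pow_le_pow_left₀ (abs_nonneg _) h 3
  have h2 := abs_nonneg a
  have h3 := abs_nonneg (b - a)
  nlinarith [mul_nonneg (add_nonneg h2 h3) (sq_nonneg (|a| - |b - a|))]

/-- The bound. -/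
noncomputable def Q (δ R T : ℝ) : ℝ := R / δ ^ 6 + 8 * δ ^ 3 * (1 + T + R)

theorem prod3 {δ R T : ℝ} (hδ : 0 < δ) (hR : 0 ≤ R) (hT : 0 ≤ T) {a1 a2 a3 b1 b2 b3 : ℝ}
    (d1 : |b1 - a1| ^ 3 ≤ R) (d2 : |b2 - a2| ^ 3 ≤ R) (d3 : |b3 - a3| ^ 3 ≤ R)
    (s1 : |a1| ^ 3 ≤ T) (s2 : |a2| ^ 3 ≤ T) (s3 : |a3| ^ 3 ≤ T) :
    |b1 * b2 * b3 - a1 * a2 * a3| ≤ Q δ R T := by
  have hδ3 : 0 < δ ^ 3 := by positivity
  have hδ6 : 0 < δ ^ 6 := by positivity
  have t2 : |b2| ^ 3 ≤ 4 * (T + R) := (cub a2 b2).trans (by linarith)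
  have t3 : |b3| ^ 3 ≤ 4 * (T + R) := (cub a3 b3).trans (by linarith)
  have e : b1 * b2 * b3 - a1 * a2 * a3
      = (b1 - a1) * b2 * b3 + a1 * (b2 - a2) * b3 + a1 * a2 * (b3 - a3) := by ring
  have h1 := trip hδ (b1 - a1) b2 b3
  have h2 := trip hδ (b2 - a2) a1 b3
  have h3 := trip hδ (b3 - a3) a1 a2
  have k1 : |b1 - a1| ^ 3 / δ ^ 6 ≤ R / δ ^ 6 := div_le_div_of_nonneg_right d1 hδ6.le
  have k2 : |b2 - a2| ^ 3 / δ ^ 6 ≤ R / δ ^ 6 := div_le_div_of_nonneg_right d2 hδ6.le
  have k3 : |b3 - a3| ^ 3 / δ ^ 6 ≤ R / δ ^ 6 := div_le_div_of_nonneg_right d3 hδ6.le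
  have l1 := mul_le_mul_of_nonneg_left t2 hδ3.le
  have l2 := mul_le_mul_of_nonneg_left t3 hδ3.le
  have l3 := mul_le_mul_of_nonneg_left s1 hδ3.le
  have l4 := mul_le_mul_of_nonneg_left s2 hδ3.le
  have l5 := mul_nonneg hδ3.le hR
  have l6 := mul_nonneg hδ3.le hT
  rw [e]
  calc |(b1 - a1) * b2 * b3 + a1 * (b2 - a2) * b3 + a1 * a2 * (b3 - a3)|
      ≤ |(b1 - a1) * b2 * b3| + |a1 * (b2 - a2) * b3| + |a1 * a2 * (b3 - a3)| :=
        abs_add_three _ _ _
    _ = |b1 - a1| * |b2| * |b3| + |b2 - a2| * |a1| * |b3| + |b3 - a3| * |a1| * |a2| := by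
        simp only [abs_mul]
        ring
    _ ≤ Q δ R T := by
        unfold Q
        nlinarith

theorem prod2 {δ R T : ℝ} (hδ : 0 < δ) (hR : 0 ≤ R) (hT : 0 ≤ T) {a1 a2 b1 b2 : ℝ}
    (d1 : |b1 - a1| ^ 3 ≤ R) (d2 : |b2 - a2| ^ 3 ≤ R)
    (s1 : |a1| ^ 3 ≤ T) (s2 : |a2| ^ 3 ≤ T) :
    |b1 * b2 - a1 * a2| ≤ Q δ R T := by
  have hδ3 : 0 < δ ^ 3 := by positivity
  have hδ6 : 0 < δ ^ 6 := by positivity
  have t2 : |b2| ^ 3 ≤ 4 * (T + R) := (cub a2 b2).trans (by linarith)
  have e : b1 * b2 - a1 * a2 = (b1 - a1) * b2 + a1 * (b2 - a2) := by ring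
  have h1 := trip hδ (b1 - a1) b2 1
  have h2 := trip hδ (b2 - a2) a1 1
  have k1 : |b1 - a1| ^ 3 / δ ^ 6 ≤ R / δ ^ 6 := div_le_div_of_nonneg_right d1 hδ6.le
  have k2 : |b2 - a2| ^ 3 / δ ^ 6 ≤ R / δ ^ 6 := div_le_div_of_nonneg_right d2 hδ6.le
  have k0 : 0 ≤ R / δ ^ 6 := div_nonneg hR hδ6.le
  have l1 := mul_le_mul_of_nonneg_left t2 hδ3.le
  have l3 := mul_le_mul_of_nonneg_left s1 hδ3.le
  have l5 := mul_nonneg hδ3.le hR
  have l6 := mul_nonneg hδ3.le hT
  rw [abs_one, mul_one, one_pow, mul_one] at h1 h2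
  rw [e]
  calc |(b1 - a1) * b2 + a1 * (b2 - a2)|
      ≤ |(b1 - a1) * b2| + |a1 * (b2 - a2)| := abs_add_le _ _
    _ = |b1 - a1| * |b2| + |b2 - a2| * |a1| := by
        simp only [abs_mul]
        ring
    _ ≤ Q δ R T := by
        unfold Q
        nlinarith

/-- Sum of the cubes of the entries. -/
noncomputable def S3 (A : M3) : ℝ := ∑ i, ∑ j, |A i j| ^ 3

theorem S3_nonneg (A : M3) : 0 ≤ S3 A :=
  Finset.sum_nonneg fun _ _ => Finset.sum_nonneg fun _ _ => pow_nonneg (abs_nonneg _) 3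

theorem le_S3 (A : M3) (i j : Fin 3) : |A i j| ^ 3 ≤ S3 A := by
  unfold S3
  calc |A i j| ^ 3 ≤ ∑ j, |A i j| ^ 3 :=
        Finset.single_le_sum (f := fun j => |A i j| ^ 3)
          (fun _ _ => pow_nonneg (abs_nonneg _) 3) (Finset.mem_univ j)
    _ ≤ ∑ i, ∑ j, |A i j| ^ 3 :=
        Finset.single_le_sum (f := fun i => ∑ j, |A i j| ^ 3)
          (fun _ _ => Finset.sum_nonneg fun _ _ => pow_nonneg (abs_nonneg _) 3)
          (Finset.mem_univ i)

theorem le_S3' (A B : M3) (i j : Fin 3) : |B i j - A i j| ^ 3 ≤ S3 (B - A) := by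
  have := le_S3 (B - A) i j
  rwa [Matrix.sub_apply] at this

theorem det_le {δ : ℝ} (hδ : 0 < δ) (A B : M3) :
    |B.det - A.det| ≤ 6 * Q δ (S3 (B - A)) (S3 A) := by
  have hR := S3_nonneg (B - A)
  have hT := S3_nonneg A
  have p : ∀ i j k l m n : Fin 3, |B i j * B k l * B m n - A i j * A k l * A m n|
      ≤ Q δ (S3 (B - A)) (S3 A) := fun i j k l m n =>
    prod3 hδ hR hT (le_S3' A B i j) (le_S3' A B k l) (le_S3' A B m n) (le_S3 A i j)
      (le_S3 A k l) (le_S3 A m n)
  rw [Matrix.det_fin_three, Matrix.det_fin_three]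
  have h1 := abs_le.1 (p 0 0 1 1 2 2)
  have h2 := abs_le.1 (p 0 0 1 2 2 1)
  have h3 := abs_le.1 (p 0 1 1 0 2 2)
  have h4 := abs_le.1 (p 0 1 1 2 2 0)
  have h5 := abs_le.1 (p 0 2 1 0 2 1)
  have h6 := abs_le.1 (p 0 2 1 1 2 0)
  rw [abs_le]
  constructor <;> linarith [h1.1, h1.2, h2.1, h2.2, h3.1, h3.2, h4.1, h4.2, h5.1, h5.2, h6.1, h6.2]

theorem cof_le {δ : ℝ} (hδ : 0 < δ) (A B : M3) (i j : Fin 3) :
    |cofm B i j - cofm A i j| ≤ 6 * Q δ (S3 (B - A)) (S3 A) := by
  have hR := S3_nonneg (B - A)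
  have hT := S3_nonneg A
  have hQ : 0 ≤ Q δ (S3 (B - A)) (S3 A) := by
    unfold Q
    positivity
  have p : ∀ i j k l : Fin 3, |B i j * B k l - A i j * A k l|
      ≤ Q δ (S3 (B - A)) (S3 A) := fun i j k l =>
    prod2 hδ hR hT (le_S3' A B i j) (le_S3' A B k l) (le_S3 A i j) (le_S3 A k l)
  have key : ∀ a b c d e f g h : Fin 3,
      |(B a b * B c d - B e f * B g h) - (A a b * A c d - A e f * A g h)|
        ≤ 6 * Q δ (S3 (B - A)) (S3 A) := by
    intro a b c d e f g h
    have h1 := abs_le.1 (p a b c d)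
    have h2 := abs_le.1 (p e f g h)
    rw [abs_le]
    constructor <;> linarith [h1.1, h1.2, h2.1, h2.2]
  have key' : ∀ a b c d e f g h : Fin 3,
      |(-(B a b * B c d) + B e f * B g h) - (-(A a b * A c d) + A e f * A g h)|
        ≤ 6 * Q δ (S3 (B - A)) (S3 A) := by
    intro a b c d e f g h
    have h1 := abs_le.1 (p a b c d)
    have h2 := abs_le.1 (p e f g h)
    rw [abs_le]
    constructor <;> linarith [h1.1, h1.2, h2.1, h2.2]
  unfold cofm
  rw [Matrix.adjugate_fin_three, Matrix.adjugate_fin_three]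
  fin_cases i <;> fin_cases j <;>
    simp only [Matrix.transpose_apply, Matrix.of_apply, Matrix.cons_val', Matrix.cons_val_zero,
      Matrix.cons_val_one, Matrix.cons_val, Matrix.cons_val_fin_one, Fin.zero_eta, Fin.mk_one,
      Fin.reduceFinMk, Fin.isValue] <;>
    first
    | exact key _ _ _ _ _ _ _ _
    | exact key' _ _ _ _ _ _ _ _

/-! ## Limits -/

theorem lim_small {x r : ℕ → ℝ} {C τ : ℝ} (hC : 0 ≤ C) (hx : ∀ n, 0 ≤ x n)
    (hr : Tendsto r atTop (𝓝 0)) (hτ : 0 ≤ τ)
    (h : ∀ δ : ℝ, 0 < δ → ∀ n, x n ≤ C * (r n / δ ^ 6 + 8 * δ ^ 3 * (τ + r n))) :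
    Tendsto x atTop (𝓝 0) := by
  rw [Metric.tendsto_atTop]
  intro ε hε
  -- choice of δ
  obtain ⟨δ, hδ, hδ1, hδ2⟩ : ∃ δ : ℝ, 0 < δ ∧ δ ≤ 1 ∧ C * (8 * δ ^ 3 * τ) < ε / 2 := by
    have hp : 0 < 16 * (C * τ + 1) := by positivity
    refine ⟨min 1 (ε / (16 * (C * τ + 1) + ε)), lt_min one_pos (by positivity), min_le_left _ _, ?_⟩
    set d := min 1 (ε / (16 * (C * τ + 1) + ε)) with hd
    have h0 : 0 < d := lt_min one_pos (by positivity)
    have h1 : d ≤ 1 := min_le_left _ _
    have h2 : d ≤ ε / (16 * (C * τ + 1) + ε) := min_le_right _ _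
    have h3 : d ^ 3 ≤ d := by
      calc d ^ 3 = d * d ^ 2 := by ring
        _ ≤ d * 1 := mul_le_mul_of_nonneg_left (pow_le_one₀ h0.le h1) h0.le
        _ = d := mul_one d
    have h4 : d * (16 * (C * τ + 1) + ε) ≤ ε := by
      rwa [le_div_iff₀ (by positivity)] at h2
    have h5 : 0 ≤ C * τ := mul_nonneg hC hτ
    have h6 : C * (8 * d ^ 3 * τ) ≤ 8 * d * (C * τ) := by
      have := mul_le_mul_of_nonneg_right h3 (mul_nonneg (by norm_num : (0:ℝ) ≤ 8) h5)
      nlinarith
    have h7 : 0 < d * ε := mul_pos h0 hε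
    nlinarith
  have hlim : Tendsto (fun n => C * (r n / δ ^ 6 + 8 * δ ^ 3 * (τ + r n))) atTop
      (𝓝 (C * (0 / δ ^ 6 + 8 * δ ^ 3 * (τ + 0)))) :=
    ((hr.div_const _).add ((hr.const_add τ).const_mul _)).const_mul C
  have h1 : C * (0 / δ ^ 6 + 8 * δ ^ 3 * (τ + 0)) < ε := by
    rw [zero_div, zero_add, add_zero]
    linarith
  obtain ⟨N, hN⟩ := eventually_atTop.1 (hlim.eventually (gt_mem_nhds h1))
  refine ⟨N, fun n hn => ?_⟩
  rw [Real.dist_0_eq_abs, abs_of_nonneg (hx n)]
  exact (h δ hδ n).trans_lt (hN n hn)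

theorem lim {μ : Measure E3} {p : ℕ → E3 → ℝ} {p0 : E3 → ℝ} {q : ℕ → E3 → ℝ} {q0 : E3 → ℝ}
    {M : ℝ} (hp : ∀ n, Integrable (p n) μ) (hp0 : Integrable p0 μ)
    (hl : Tendsto (fun n => ∫ x, |p n x - p0 x| ∂μ) atTop (𝓝 0))
    (hq : ∀ n, AEStronglyMeasurable (q n) μ) (hM : ∀ n, ∀ᵐ x ∂μ, |q n x| ≤ M)
    (hql : ∀ᵐ x ∂μ, Tendsto (fun n => q n x) atTop (𝓝 (q0 x))) :
    Tendsto (fun n => ∫ x, p n x * q n x ∂μ) atTop (𝓝 (∫ x, p0 x * q0 x ∂μ)) := by
  have h1 : Tendsto (fun n => ∫ x, p0 x * q n x ∂μ) atTop (𝓝 (∫ x, p0 x * q0 x ∂μ)) := by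
    refine tendsto_integral_of_dominated_convergence (fun x => |p0 x| * M)
      (fun n => hp0.aestronglyMeasurable.mul (hq n)) (hp0.abs.mul_const M) (fun n => ?_) ?_
    · filter_upwards [hM n] with x hx
      rw [Real.norm_eq_abs, abs_mul]
      exact mul_le_mul_of_nonneg_left hx (abs_nonneg _)
    · filter_upwards [hql] with x hx
      exact hx.const_mul _
  have h2 : Tendsto (fun n => ∫ x, (p n x - p0 x) * q n x ∂μ) atTop (𝓝 0) := by
    refine squeeze_zero_norm (a := fun n => (∫ x, |p n x - p0 x| ∂μ) * M) (fun n => ?_) ?_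
    · have h3 : ‖∫ x, (p n x - p0 x) * q n x ∂μ‖ ≤ ∫ x, |p n x - p0 x| * M ∂μ := by
        refine norm_integral_le_of_norm_le (((hp n).sub hp0).abs.mul_const M) ?_
        filter_upwards [hM n] with x hx
        rw [Real.norm_eq_abs, abs_mul]
        exact mul_le_mul_of_nonneg_left hx (abs_nonneg _)
      rwa [integral_mul_const] at h3
    · have := hl.mul_const M
      rwa [zero_mul] at this
  have h3 : ∀ n, ∫ x, p n x * q n x ∂μ
      = (∫ x, (p n x - p0 x) * q n x ∂μ) + ∫ x, p0 x * q n x ∂μ := by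
    intro n
    have hb : ∀ᵐ x ∂μ, ‖q n x‖ ≤ M := by
      filter_upwards [hM n] with x hx
      rwa [Real.norm_eq_abs]
    have i1 : Integrable (fun x => (p n x - p0 x) * q n x) μ :=
      ((hp n).sub hp0).mul_bdd (hq n) hb
    have i2 : Integrable (fun x => p0 x * q n x) μ := hp0.mul_bdd (hq n) hb
    rw [← integral_add i1 i2]
    refine integral_congr_ae (Eventually.of_forall fun x => ?_)
    ring
  simp only [h3]
  have := h2.add h1
  rwa [zero_add] at this

/-- Continuity of the Jacobian matrix. -/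
theorem cont_jac {g : E3 → E3} (hg : ContDiff ℝ (⊤ : ℕ∞) g) (i j : Fin 3) :
    Continuous fun x => jac g x i j := by
  unfold jac
  simp only [Matrix.of_apply]
  have h1 : Continuous (fderiv ℝ g) :=
    (hg.of_le (WithTop.coe_le_coe.2 (le_top : (1 : ℕ∞) ≤ ⊤))).continuous_fderiv (by norm_num)
  have h2 : Continuous fun x => fderiv ℝ g x (EuclideanSpace.single j 1) :=
    h1.clm_apply continuous_const
  exact (EuclideanSpace.proj i : E3 →L[ℝ] ℝ).continuous.comp h2

theorem cont_jac' {g : E3 → E3} (hg : ContDiff ℝ (⊤ : ℕ∞) g) : Continuous fun x => jac g x :=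
  continuous_matrix fun i j => cont_jac hg i j

theorem cont_cof {g : E3 → E3} (hg : ContDiff ℝ (⊤ : ℕ∞) g) (i j : Fin 3) :
    Continuous fun x => cofm (jac g x) i j := by
  unfold cofm
  exact ((cont_jac' hg).matrix_adjugate.matrix_transpose).matrix_elem i j

theorem cont_det {g : E3 → E3} (hg : ContDiff ℝ (⊤ : ℕ∞) g) :
    Continuous fun x => (jac g x).det := (cont_jac' hg).matrix_det

theorem cont_gradv {φ : E3 → ℝ} (hφ : ContDiff ℝ 1 φ) (j : Fin 3) :
    Continuous fun x => gradv φ x j := by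
  unfold gradv
  exact (hφ.continuous_fderiv (by norm_num)).clm_apply continuous_const

theorem cont_divv {H : E3 → E3} {U : Set E3} (hU : IsOpen U) (hH : ContDiffOn ℝ 1 H U) :
    ContinuousOn (fun y => divv H y) U := by
  unfold divv
  have h1 : ContinuousOn (fderiv ℝ H) U := hH.continuousOn_fderiv_of_isOpen hU le_rfl
  refine continuousOn_finsetSum _ fun i _ => ?_
  exact (EuclideanSpace.proj i : E3 →L[ℝ] ℝ).continuous.comp_continuousOn
    (h1.clm_apply continuousOn_const)

theorem cpair_basis (A : M3) (i j : Fin 3) :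
    cpair A (EuclideanSpace.single i 1) (EuclideanSpace.single j 1) = cofm A i j := by
  unfold cpair
  fin_cases i <;> fin_cases j <;> simp

/-- `L^3` convergence of the matrices gives `L^1` convergence of polynomials of degree three. -/
theorem poly_lim {K : Set E3} (hK : IsCompact K) {A : E3 → M3} {G : ℕ → E3 → E3}
    (hG : ∀ n, ContDiff ℝ (⊤ : ℕ∞) (G n))
    (hA : ∀ i j, MemLp (fun x => A x i j) 3 (volume.restrict K))
    (hl : ∀ i j, Tendsto (fun n => ∫ x in K, |jac (G n) x i j - A x i j| ^ 3) atTop (𝓝 0))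
    {P : M3 → ℝ} (hP : ∀ δ : ℝ, 0 < δ → ∀ A B : M3,
      |P B - P A| ≤ 6 * Q δ (S3 (B - A)) (S3 A))
    (hPn : ∀ n, IntegrableOn (fun x => P (jac (G n) x)) K)
    (hPA : IntegrableOn (fun x => P (A x)) K) :
    Tendsto (fun n => ∫ x in K, |P (jac (G n) x) - P (A x)|) atTop (𝓝 0) := by
  have hfin : IsFiniteMeasure (volume.restrict K) :=
    ⟨by rw [Measure.restrict_apply_univ]; exact hK.measure_lt_top⟩
  have hcast : ((3 : ℕ) : ENNReal) = 3 := by norm_num
  have hAi : ∀ i j, Integrable (fun x => |A x i j| ^ 3) (volume.restrict K) := by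
    intro i j
    have h := hA i j
    rw [← hcast] at h
    have h1 := h.integrable_norm_pow (by norm_num)
    simpa only [Real.norm_eq_abs] using h1
  have hD : ∀ n i j, Integrable (fun x => |jac (G n) x i j - A x i j| ^ 3)
      (volume.restrict K) := by
    intro n i j
    have h0 : MemLp (fun x => jac (G n) x i j) 3 (volume.restrict K) := by
      obtain ⟨M, hM⟩ := hK.exists_bound_of_continuousOn (cont_jac (hG n) i j).continuousOn
      refine MemLp.of_bound (cont_jac (hG n) i j).aestronglyMeasurable M ?_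
      filter_upwards [ae_restrict_mem hK.isClosed.measurableSet] with x hx
      exact hM x hx
    have h := h0.sub (hA i j)
    rw [← hcast] at h
    have h1 := h.integrable_norm_pow (by norm_num)
    simpa only [Real.norm_eq_abs, Pi.sub_apply] using h1
  have hTi : Integrable (fun x => S3 (A x)) (volume.restrict K) := by
    unfold S3
    exact integrable_finsetSum _ fun i _ => integrable_finsetSum _ fun j _ => hAi i j
  have hRi : ∀ n, Integrable (fun x => S3 (jac (G n) x - A x)) (volume.restrict K) := by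
    intro n
    unfold S3
    simp only [Matrix.sub_apply]
    exact integrable_finsetSum _ fun i _ => integrable_finsetSum _ fun j _ => hD n i j
  have hR0 : Tendsto (fun n => ∫ x in K, S3 (jac (G n) x - A x)) atTop (𝓝 0) := by
    have e : ∀ n, ∫ x in K, S3 (jac (G n) x - A x)
        = ∑ i, ∑ j, ∫ x in K, |jac (G n) x i j - A x i j| ^ 3 := by
      intro n
      unfold S3
      simp only [Matrix.sub_apply]
      rw [integral_finsetSum _ fun i _ => integrable_finsetSum _ fun j _ => hD n i j]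
      exact Finset.sum_congr rfl fun i _ => integral_finsetSum _ fun j _ => hD n i j
    simp only [e]
    have h1 : Tendsto (fun n => ∑ i : Fin 3, ∑ j : Fin 3,
        ∫ x in K, |jac (G n) x i j - A x i j| ^ 3) atTop
        (𝓝 (∑ _i : Fin 3, ∑ _j : Fin 3, (0 : ℝ))) :=
      tendsto_finsetSum _ fun i _ => tendsto_finsetSum _ fun j _ => hl i j
    simpa using h1
  refine lim_small (C := 6) (τ := ∫ x in K, (1 + S3 (A x))) (by norm_num)
    (fun n => integral_nonneg fun x => abs_nonneg _) hR0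
    (integral_nonneg fun x => by have := S3_nonneg (A x); positivity) ?_
  intro δ hδ n
  have h1T : Integrable (fun x => 1 + S3 (A x)) (volume.restrict K) :=
    (integrable_const (1 : ℝ)).add hTi
  have hint : Integrable (fun x => 6 * Q δ (S3 (jac (G n) x - A x)) (S3 (A x)))
      (volume.restrict K) := by
    unfold Q
    exact (((hRi n).div_const _).add ((h1T.add (hRi n)).const_mul _)).const_mul 6
  calc ∫ x in K, |P (jac (G n) x) - P (A x)|
      ≤ ∫ x in K, 6 * Q δ (S3 (jac (G n) x - A x)) (S3 (A x)) :=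
        integral_mono ((hPn n).sub hPA).abs hint fun x => hP δ hδ _ _
    _ = 6 * ((∫ x in K, S3 (jac (G n) x - A x)) / δ ^ 6
        + 8 * δ ^ 3 * ((∫ x in K, (1 + S3 (A x))) + ∫ x in K, S3 (jac (G n) x - A x))) := by
        unfold Q
        have j1 : Integrable (fun x => S3 (jac (G n) x - A x) / δ ^ 6) (volume.restrict K) :=
          (hRi n).div_const _
        have j2 : Integrable (fun x => 1 + S3 (A x) + S3 (jac (G n) x - A x))
          (volume.restrict K) := h1T.add (hRi n)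
        have j3 : Integrable (fun x => 8 * δ ^ 3 * (1 + S3 (A x) + S3 (jac (G n) x - A x)))
          (volume.restrict K) := j2.const_mul _
        rw [integral_const_mul, integral_add j1 j3, integral_div, integral_const_mul,
          integral_add h1T (hRi n)]

end PIOW_

open PIOW_ in
theorem stmt_PIOW (hMOLL : Stmt_MOLL) (hPIO1 : Stmt_PIO1) (hPIOI : Stmt_PIOI)
    (_hBAS : Stmt_BAS) : Stmt_PIOW := by
  intro Ω f A hΩ hf hwg H φ U hU hH hφ hφc hsub hmem
  set K := tsupport φ with hKdef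
  have hK : IsCompact K := hφc.isCompact
  have hKm : MeasurableSet K := hK.isClosed.measurableSet
  obtain ⟨g, hg, hgu, hgl⟩ := hMOLL Ω f A hΩ hf hwg K hK hsub
  obtain ⟨hdetA, -, -, hcpA⟩ := hPIOI Ω f A hΩ hf hwg K hK hsub
  have hfK : ContinuousOn f K := hf.mono hsub
  -- a compact neighbourhood of the image
  have hfKc : IsCompact (f '' K) := hK.image_of_continuousOn hfK
  have hfKU : f '' K ⊆ U := by
    rintro _ ⟨x, hx, rfl⟩
    exact hmem x hx
  obtain ⟨L, hLc, hKL, hLU⟩ := exists_compact_between hfKc hU hfKU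
  obtain ⟨δ, hδ, hthick⟩ := hfKc.exists_thickening_subset_open isOpen_interior hKL
  obtain ⟨N, hN⟩ := eventually_atTop.1 (Metric.tendstoUniformlyOn_iff.1 hgu δ hδ)
  set G : ℕ → E3 → E3 := fun n => g (n + N) with hGdef
  have hGs : ∀ n, ContDiff ℝ (⊤ : ℕ∞) (G n) := fun n => hg _
  have hGL : ∀ n, ∀ x ∈ K, G n x ∈ L := by
    intro n x hx
    refine interior_subset (hthick (Metric.mem_thickening_iff.2 ⟨f x, mem_image_of_mem f hx, ?_⟩))
    rw [dist_comm]
    exact hN (n + N) (by omega) x hx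
  have hGpt : ∀ x ∈ K, Tendsto (fun n => G n x) atTop (𝓝 (f x)) := fun x hx =>
    (hgu.tendsto_at hx).comp (tendsto_add_atTop_nat N)
  have hGl : ∀ i j, Tendsto (fun n => ∫ x in K, |jac (G n) x i j - A x i j| ^ 3) atTop (𝓝 0) :=
    fun i j => (hgl i j).comp (tendsto_add_atTop_nat N)
  have hAL := hwg.loc K hK hsub
  -- functions outside of `K`
  have hφ0 : ∀ x, x ∉ K → φ x = 0 := fun x hx => image_eq_zero_of_notMem_tsupport hx
  have hgr0 : ∀ x, x ∉ K → gradv φ x = 0 := by
    intro x hx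
    have h1 : fderiv ℝ φ x = 0 := by
      by_contra hne
      exact hx (support_fderiv_subset ℝ (Function.mem_support.2 hne))
    ext j
    simp [gradv, h1]
  -- bounds
  have hHL : ContinuousOn H L := hH.continuousOn.mono hLU
  have hdL : ContinuousOn (fun y => divv H y) L := (cont_divv hU hH).mono hLU
  obtain ⟨MH, hMH⟩ := hLc.exists_bound_of_continuousOn hHL
  obtain ⟨Md, hMd⟩ := hLc.exists_bound_of_continuousOn hdL
  have hgrc : ∀ j, Continuous fun x => gradv φ x j := fun j => cont_gradv hφ j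
  -- the cofactor part
  have hcofA : ∀ i j, IntegrableOn (fun x => cofm (A x) i j) K := by
    intro i j
    have := hcpA (fun _ => EuclideanSpace.single i 1) (fun _ => EuclideanSpace.single j 1)
      continuousOn_const continuousOn_const
    simpa only [cpair_basis] using this
  have hcofn : ∀ n i j, IntegrableOn (fun x => cofm (jac (G n) x) i j) K := fun n i j =>
    (cont_cof (hGs n) i j).continuousOn.integrableOn_compact hK
  have hdetn : ∀ n, IntegrableOn (fun x => (jac (G n) x).det) K := fun n =>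
    (cont_det (hGs n)).continuousOn.integrableOn_compact hK
  have hq : ∀ n i, ContinuousOn (fun x => H (G n x) i) K := by
    intro n i
    exact (EuclideanSpace.proj i : E3 →L[ℝ] ℝ).continuous.comp_continuousOn
      (hHL.comp (hGs n).continuous.continuousOn (hGL n))
  have hpt : ∀ x ∈ K, ∀ i, Tendsto (fun n => H (G n x) i) atTop (𝓝 (H (f x) i)) := by
    intro x hx i
    have h1 : ContinuousAt H (f x) := hH.continuousOn.continuousAt (hU.mem_nhds (hmem x hx))
    have h2 : Tendsto (fun n => H (G n x)) atTop (𝓝 (H (f x))) := h1.tendsto.comp (hGpt x hx)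
    exact ((EuclideanSpace.proj i : E3 →L[ℝ] ℝ).continuous.tendsto _).comp h2
  have hterm : ∀ i j, Tendsto
      (fun n => ∫ x in K, cofm (jac (G n) x) i j * (H (G n x) i * gradv φ x j)) atTop
      (𝓝 (∫ x in K, cofm (A x) i j * (H (f x) i * gradv φ x j))) := by
    intro i j
    obtain ⟨Mg, hMg⟩ := hK.exists_bound_of_continuousOn (hgrc j).continuousOn
    refine lim (M := MH * Mg) (fun n => hcofn n i j) (hcofA i j)
      (poly_lim hK hGs hAL hGl (P := fun B => cofm B i j) (fun δ hδ A B => cof_le hδ A B i j)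
        (fun n => hcofn n i j) (hcofA i j)) ?_ ?_ ?_
    · intro n
      exact ((hq n i).mul (hgrc j).continuousOn).aestronglyMeasurable hKm
    · intro n
      filter_upwards [ae_restrict_mem hKm] with x hx
      rw [abs_mul]
      have h1 : |H (G n x) i| ≤ MH :=
        (PiLp.norm_apply_le (H (G n x)) i).trans (hMH _ (hGL n x hx))
      have h2 : |gradv φ x j| ≤ Mg := by
        have := hMg x hx
        rwa [Real.norm_eq_abs] at this
      exact mul_le_mul h1 h2 (abs_nonneg _) ((abs_nonneg _).trans h1)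
    · filter_upwards [ae_restrict_mem hKm] with x hx
      exact (hpt x hx i).mul_const _
  have hterm2 : Tendsto
      (fun n => ∫ x in K, (jac (G n) x).det * (φ x * divv H (G n x))) atTop
      (𝓝 (∫ x in K, (A x).det * (φ x * divv H (f x)))) := by
    obtain ⟨Mp, hMp⟩ := hK.exists_bound_of_continuousOn hφ.continuous.continuousOn
    refine lim (M := Mp * Md) hdetn hdetA
      (poly_lim hK hGs hAL hGl (P := fun B => B.det) (fun δ hδ A B => det_le hδ A B)
        hdetn hdetA) ?_ ?_ ?_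
    · intro n
      exact (hφ.continuous.continuousOn.mul
        (hdL.comp (hGs n).continuous.continuousOn (hGL n))).aestronglyMeasurable hKm
    · intro n
      filter_upwards [ae_restrict_mem hKm] with x hx
      rw [abs_mul]
      have h1 : |φ x| ≤ Mp := by
        have := hMp x hx
        rwa [Real.norm_eq_abs] at this
      have h2 : |divv H (G n x)| ≤ Md := by
        have := hMd _ (hGL n x hx)
        rwa [Real.norm_eq_abs] at this
      exact mul_le_mul h1 h2 (abs_nonneg _) ((abs_nonneg _).trans h1)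
    · filter_upwards [ae_restrict_mem hKm] with x hx
      have h1 : ContinuousAt (fun y => divv H y) (f x) :=
        (cont_divv hU hH).continuousAt (hU.mem_nhds (hmem x hx))
      exact (h1.tendsto.comp (hGpt x hx)).const_mul _
  -- integrability of the terms
  have hintn : ∀ n i j, IntegrableOn
      (fun x => cofm (jac (G n) x) i j * (H (G n x) i * gradv φ x j)) K := by
    intro n i j
    exact ((cont_cof (hGs n) i j).continuousOn.mul
      ((hq n i).mul (hgrc j).continuousOn)).integrableOn_compact hK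
  have hHf : ∀ i, ContinuousOn (fun x => H (f x) i) K := by
    intro i
    exact (EuclideanSpace.proj i : E3 →L[ℝ] ℝ).continuous.comp_continuousOn
      (hH.continuousOn.comp hfK hmem)
  have hintA : ∀ i j, IntegrableOn
      (fun x => cofm (A x) i j * (H (f x) i * gradv φ x j)) K := by
    intro i j
    obtain ⟨M, hM⟩ := hK.exists_bound_of_continuousOn ((hHf i).mul (hgrc j).continuousOn)
    refine (hcofA i j).mul_bdd (c := M)
      (((hHf i).mul (hgrc j).continuousOn).aestronglyMeasurable hKm) ?_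
    filter_upwards [ae_restrict_mem hKm] with x hx
    exact hM x hx
  -- the integrals over the whole space
  have hcp : ∀ (B : E3 → M3) (k : E3 → E3), (∀ i j, IntegrableOn
      (fun x => cofm (B x) i j * (k x i * gradv φ x j)) K) →
      ∫ x, cpair (B x) (k x) (gradv φ x)
        = ∑ i, ∑ j, ∫ x in K, cofm (B x) i j * (k x i * gradv φ x j) := by
    intro B k hi
    have h1 : ∫ x, cpair (B x) (k x) (gradv φ x) = ∫ x in K, cpair (B x) (k x) (gradv φ x) := by
      refine (setIntegral_eq_integral_of_forall_compl_eq_zero fun x hx => ?_).symm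
      rw [hgr0 x hx]
      simp [cpair]
    rw [h1]
    unfold cpair
    rw [← Finset.sum_congr rfl fun i _ => integral_finsetSum _ fun j _ => hi i j,
      ← integral_finsetSum _ fun i _ => integrable_finsetSum _ fun j _ => hi i j]
    refine integral_congr_ae (Eventually.of_forall fun x => ?_)
    refine Finset.sum_congr rfl fun i _ => Finset.sum_congr rfl fun j _ => ?_
    ring
  have hdt : ∀ (B : E3 → M3) (k : E3 → E3),
      ∫ x, φ x * ((B x).det * divv H (k x)) = ∫ x in K, (B x).det * (φ x * divv H (k x)) := by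
    intro B k
    have h1 : ∫ x, φ x * ((B x).det * divv H (k x))
        = ∫ x in K, φ x * ((B x).det * divv H (k x)) := by
      refine (setIntegral_eq_integral_of_forall_compl_eq_zero fun x hx => ?_).symm
      rw [hφ0 x hx, zero_mul]
    rw [h1]
    refine integral_congr_ae (Eventually.of_forall fun x => ?_)
    simp only
    ring
  -- the identities for the smooth maps
  have hid : ∀ n, ∫ x, cpair (jac (G n) x) (H (G n x)) (gradv φ x)
      = - ∫ x, φ x * ((jac (G n) x).det * divv H (G n x)) := fun n =>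
    hPIO1 (G n) H φ U (hGs n) hU hH hφ hφc fun x hx => hLU (hGL n x hx)
  rw [hcp A (fun x => H (f x)) hintA, hdt A f]
  have hlhs : Tendsto (fun n => ∑ i, ∑ j, ∫ x in K,
      cofm (jac (G n) x) i j * (H (G n x) i * gradv φ x j)) atTop
      (𝓝 (∑ i, ∑ j, ∫ x in K, cofm (A x) i j * (H (f x) i * gradv φ x j))) :=
    tendsto_finsetSum _ fun i _ => tendsto_finsetSum _ fun j _ => hterm i j
  have hid' : ∀ n, ∑ i, ∑ j, ∫ x in K,
      cofm (jac (G n) x) i j * (H (G n x) i * gradv φ x j)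
      = - ∫ x in K, (jac (G n) x).det * (φ x * divv H (G n x)) := by
    intro n
    rw [← hcp (fun x => jac (G n) x) (fun x => H (G n x)) (hintn n), ← hdt (fun x => jac (G n) x)
      (G n)]
    exact hid n
  simp only [hid'] at hlhs
  exact tendsto_nhds_unique hlhs hterm2.neg

end Pool.Mart
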