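import Pool.Agent.Work.MP_680515_an.IfaceL

/-!
# MP_680515_an, block PW: the pointwise lemma from PWS and PWB
-/

open MeasureTheory Set Filter Topology Complex

namespace Pool.Mart.PW_

/-- A vector whose square of the norm is positive. -/
theorem rad_le_norm (X : E3) : rad X ≤ ‖X‖ := by
  rw [rad, EuclideanSpace.norm_eq]
  apply Real.sqrt_le_sqrt
  rw [Fin.sum_univ_three]
  simp only [Real.norm_eq_abs, sq_abs]
  nlinarith [sq_nonneg (X 2)]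

theorem ne_zero_of_rad {X : E3} {ρ : ℝ} (hρ : 0 < ρ) (h : ρ < rad X) : X ≠ 0 := by
  intro h0
  have h1 := rad_le_norm X
  rw [h0, norm_zero] at h1
  rw [h0] at h
  linarith

theorem rad_sub_e3 (X : E3) : rad (X - e3) = rad X := by
  simp [rad, e3]

theorem rad_wind {X : E3} (h : 0 < rad X) : rad (wind X) = rad X := by
  have h1 : rad X ^ 2 = X 0 ^ 2 + X 1 ^ 2 := by
    rw [rad, Real.sq_sqrt (by positivity)]
  have h2 : (wind X) 0 ^ 2 + (wind X) 1 ^ 2 = rad X ^ 2 := by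
    have e0 : (wind X) 0 = (X 0 ^ 2 - X 1 ^ 2) / rad X := by simp [wind]
    have e1 : (wind X) 1 = 2 * X 0 * X 1 / rad X := by simp [wind]
    rw [e0, e1, div_pow, div_pow, ← add_div, div_eq_iff (by positivity)]
    rw [show rad X ^ 2 * rad X ^ 2 = (rad X ^ 2) ^ 2 by ring, h1]
    ring
  rw [show rad (wind X) = Real.sqrt ((wind X) 0 ^ 2 + (wind X) 1 ^ 2) from rfl, h2]
  exact Real.sqrt_sq h.le

theorem target_ne {X Y Z : E3} {ρ : ℝ} (hρ : 0 < ρ) (h : ρ < rad X)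
    (hY : ‖Y - wind X‖ ≤ ρ / 16) (hZ0 : Z 0 = 0) (hZ1 : Z 1 = 0) : Y ≠ Z := by
  intro hYZ
  have h1 : rad (wind X) ≤ ‖Y - wind X‖ := by
    have h2 := rad_le_norm (Y - wind X)
    have h3 : rad (Y - wind X) = rad (wind X) := by
      rw [hYZ]
      simp [rad, hZ0, hZ1]
    rwa [h3] at h2
  rw [rad_wind (hρ.trans h)] at h1
  linarith

theorem nonneg_dfc (hTHREE : Stmt_THREE) {A : M3} {X Y : E3} (hA : Good A) (hX : X ≠ 0)
    (hY : Y ≠ 0) : 0 ≤ dfc A X Y := by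
  have hX' : 0 < ‖X‖ := norm_pos_iff.2 hX
  have hY' : 0 < ‖Y‖ := norm_pos_iff.2 hY
  refine (hTHREE A (‖X‖⁻¹ • X) (‖Y‖⁻¹ • Y) (‖Y‖ / ‖X‖) (dfc A X Y) hA (by positivity)
    ?_ ?_ ?_).1
  · rw [norm_smul, norm_inv, norm_norm, inv_mul_cancel₀ hX'.ne']
  · rw [norm_smul, norm_inv, norm_norm, inv_mul_cancel₀ hY'.ne']
  · rw [dfc]
    field_simp

end Pool.Mart.PW_

namespace Pool.Mart

theorem stmt_PW (hBAS : Stmt_BAS) (hTHREE : Stmt_THREE) (hPWS : Stmt_PWS) (hPWB : Stmt_PWB) :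
    Stmt_PW := by
  have _ := hBAS
  intro ρ hρ hρ1
  obtain ⟨κ, C1, hκ, hC1, hS⟩ := hPWS ρ hρ hρ1
  obtain ⟨C2, hC2, hB⟩ := hPWB ρ κ hρ hρ1 hκ
  refine ⟨C1 + C2, by positivity, ?_⟩
  intro A X Y hA hX hX32 hY
  have hX0 : X ≠ 0 := PW_.ne_zero_of_rad hρ hX
  have hX1 : X - e3 ≠ 0 := PW_.ne_zero_of_rad hρ (by rwa [PW_.rad_sub_e3])
  have hY0 : Y ≠ 0 := PW_.target_ne hρ hX hY (by simp) (by simp)
  have hY1 : Y - e3 ≠ 0 := sub_ne_zero.2 (PW_.target_ne hρ hX hY (by simp [e3]) (by simp [e3]))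
  have h0 := PW_.nonneg_dfc hTHREE hA hX0 hY0
  have h1 := PW_.nonneg_dfc hTHREE hA hX1 hY1
  refine ⟨h0, h1, ?_⟩
  have hm1 : C1 * (dfc A X Y + dfc A (X - e3) (Y - e3))
      ≤ (C1 + C2) * (dfc A X Y + dfc A (X - e3) (Y - e3)) := by
    apply mul_le_mul_of_nonneg_right _ (by linarith)
    linarith
  have hm2 : C2 * (dfc A X Y + dfc A (X - e3) (Y - e3))
      ≤ (C1 + C2) * (dfc A X Y + dfc A (X - e3) (Y - e3)) := by
    apply mul_le_mul_of_nonneg_right _ (by linarith)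
    linarith
  rcases le_total (dfc A X Y + dfc A (X - e3) (Y - e3)) κ with h | h
  · obtain ⟨a, b⟩ := hS A X Y hA hX hX32 hY h
    exact ⟨a.trans hm1, b.trans hm1⟩
  · obtain ⟨a, b⟩ := hB A X Y hA hX hX32 hY h
    exact ⟨a.trans hm2, b.trans hm2⟩

end Pool.Mart
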