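import Pool.Agent.Work.MP_680515_an.IfaceL

open MeasureTheory Set Filter Topology Complex

namespace Pool.Mart

namespace PWB_

lemma nsq (v : E3) : ‖v‖ ^ 2 = v 0 ^ 2 + v 1 ^ 2 + v 2 ^ 2 := by
  rw [EuclideanSpace.real_norm_sq_eq, Fin.sum_univ_three]

lemma rad_nonneg (v : E3) : 0 ≤ rad v := Real.sqrt_nonneg _

lemma rad_sq (v : E3) : rad v ^ 2 = v 0 ^ 2 + v 1 ^ 2 := by
  unfold rad
  rw [Real.sq_sqrt]
  positivity

lemma lsq {a b : ℝ} (h : a ^ 2 ≤ b ^ 2) (hb : 0 ≤ b) : a ≤ b := by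
  exact le_of_abs_le (by
    have := sq_le_sq.mp h
    rwa [abs_of_nonneg hb] at this)

lemma er_le (v : E3) : ‖er v‖ ≤ 1 := by
  have h : ‖er v‖ ^ 2 ≤ 1 ^ 2 := by
    rw [nsq]
    have h0 : (er v) 0 = v 0 / rad v := rfl
    have h1 : (er v) 1 = v 1 / rad v := rfl
    have h2 : (er v) 2 = 0 := rfl
    rw [h0, h1, h2]
    have hr := rad_sq v
    by_cases hz : rad v = 0
    · rw [hz]
      simp
    · have : (v 0 / rad v) ^ 2 + (v 1 / rad v) ^ 2 + 0 ^ 2 = 1 := by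
        field_simp
        nlinarith [hr]
      rw [this]
      norm_num
  exact lsq h (by norm_num)

lemma et_le (v : E3) : ‖et v‖ ≤ 1 := by
  have h : ‖et v‖ ^ 2 ≤ 1 ^ 2 := by
    rw [nsq]
    have h0 : (et v) 0 = -(v 1) / rad v := rfl
    have h1 : (et v) 1 = v 0 / rad v := rfl
    have h2 : (et v) 2 = 0 := rfl
    rw [h0, h1, h2]
    have hr := rad_sq v
    by_cases hz : rad v = 0
    · rw [hz]
      simp
    · have : (-(v 1) / rad v) ^ 2 + (v 0 / rad v) ^ 2 + 0 ^ 2 = 1 := by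
        field_simp
        nlinarith [hr]
      rw [this]
      norm_num
  exact lsq h (by norm_num)

lemma e3_norm : ‖e3‖ = 1 := by
  unfold e3
  simp

lemma e3_0 : e3 0 = 0 := by
  unfold e3
  simp

lemma e3_1 : e3 1 = 0 := by
  unfold e3
  simp

lemma e3_2 : e3 2 = 1 := by
  unfold e3
  simp

/-- norms of the winding map -/
lemma wind_sub (X : E3) (hX : 0 < rad X) (c : ℝ) :
    ‖wind X - c • e3‖ = ‖X - c • e3‖ := by
  have h : ‖wind X - c • e3‖ ^ 2 = ‖X - c • e3‖ ^ 2 := by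
    rw [nsq, nsq]
    have h0 : (wind X - c • e3) 0 = (X 0 ^ 2 - X 1 ^ 2) / rad X := by
      have : (wind X - c • e3) 0 = (wind X) 0 - c * e3 0 := rfl
      rw [this, e3_0, mul_zero, sub_zero]
      rfl
    have h1 : (wind X - c • e3) 1 = 2 * X 0 * X 1 / rad X := by
      have : (wind X - c • e3) 1 = (wind X) 1 - c * e3 1 := rfl
      rw [this, e3_1, mul_zero, sub_zero]
      rfl
    have h2 : (wind X - c • e3) 2 = X 2 - c := by
      have : (wind X - c • e3) 2 = (wind X) 2 - c * e3 2 := rfl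
      rw [this, e3_2, mul_one]
      rfl
    have k0 : (X - c • e3) 0 = X 0 := by
      have : (X - c • e3) 0 = X 0 - c * e3 0 := rfl
      rw [this, e3_0, mul_zero, sub_zero]
    have k1 : (X - c • e3) 1 = X 1 := by
      have : (X - c • e3) 1 = X 1 - c * e3 1 := rfl
      rw [this, e3_1, mul_zero, sub_zero]
    have k2 : (X - c • e3) 2 = X 2 - c := by
      have : (X - c • e3) 2 = X 2 - c * e3 2 := rfl
      rw [this, e3_2, mul_one]
    rw [h0, h1, h2, k0, k1, k2]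
    have hr := rad_sq X
    have : ((X 0 ^ 2 - X 1 ^ 2) / rad X) ^ 2 + (2 * X 0 * X 1 / rad X) ^ 2 = X 0 ^ 2 + X 1 ^ 2 := by
      have hne : rad X ^ 2 ≠ 0 := by positivity
      rw [div_pow, div_pow, ← add_div, div_eq_iff hne, hr]
      ring
    linarith
  have h1 := abs_eq_abs.mpr (sq_eq_sq_iff_eq_or_eq_neg.mp h)
  rwa [abs_norm, abs_norm] at h1

lemma rad_le (X : E3) (c : ℝ) : rad X ≤ ‖X - c • e3‖ := by
  apply lsq _ (norm_nonneg _)
  rw [nsq, rad_sq]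
  have k0 : (X - c • e3) 0 = X 0 := by
    have : (X - c • e3) 0 = X 0 - c * e3 0 := rfl
    rw [this, e3_0, mul_zero, sub_zero]
  have k1 : (X - c • e3) 1 = X 1 := by
    have : (X - c • e3) 1 = X 1 - c * e3 1 := rfl
    rw [this, e3_1, mul_zero, sub_zero]
  rw [k0, k1]
  nlinarith [sq_nonneg ((X - c • e3) 2)]

/-- the ratio of the norms at the two base points -/
lemma ratio (ρ : ℝ) (hρ : 0 < ρ) (X Y : E3) (hX : ρ < rad X) (hY : ‖Y - wind X‖ ≤ ρ / 16)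
    (c : ℝ) : 0 < ‖X - c • e3‖ ∧ 0 < ‖Y - c • e3‖ ∧
      ‖Y - c • e3‖ ≤ 2 * ‖X - c • e3‖ := by
  have h1 := rad_le X c
  have h2 := wind_sub X (hρ.trans hX) c
  have h3 : ‖Y - c • e3‖ ≤ ‖Y - wind X‖ + ‖wind X - c • e3‖ := by
    have := norm_add_le (Y - wind X) (wind X - c • e3)
    rwa [sub_add_sub_cancel] at this
  have h4 : ‖wind X - c • e3‖ ≤ ‖Y - wind X‖ + ‖Y - c • e3‖ := by
    have := norm_sub_norm_le (wind X - c • e3) (wind X - Y)
    have h5 : wind X - c • e3 - (wind X - Y) = Y - c • e3 := by abel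
    rw [h5, norm_sub_rev (wind X) Y] at this
    linarith
  refine ⟨by linarith, by linarith, by linarith⟩

/-- `|A|^2 ≤ 81 (1 + δ)`. -/
lemma opn_sq (hTHREE : Stmt_THREE) (A : M3) (X Y : E3) (hA : Good A) (hX : 0 < ‖X‖)
    (hY : 0 < ‖Y‖) (hXY : ‖Y‖ ≤ 2 * ‖X‖) :
    0 ≤ dfc A X Y ∧ opn A ^ 2 ≤ 81 * (1 + dfc A X Y) := by
  set s : ℝ := ‖Y‖ / ‖X‖ with hs
  have hs0 : 0 < s := div_pos hY hX
  have hs2 : s ≤ 2 := by
    rw [hs, div_le_iff₀ hX]
    exact hXY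
  have hb : ‖‖X‖⁻¹ • X‖ = 1 := by
    rw [norm_smul, norm_inv, norm_norm]
    exact inv_mul_cancel₀ hX.ne'
  have hy : ‖‖Y‖⁻¹ • Y‖ = 1 := by
    rw [norm_smul, norm_inv, norm_norm]
    exact inv_mul_cancel₀ hY.ne'
  have hδ : dfc A X Y = (2 / 3) * A.det / s ^ 3 + 2 / 3
      - cpair A (‖Y‖⁻¹ • Y) (‖X‖⁻¹ • X) / s ^ 2 := by
    unfold dfc
    have e1 : ‖X‖ / ‖Y‖ = s⁻¹ := by rw [hs, inv_div]
    rw [e1]
    field_simp
  obtain ⟨h0, -, h2, h3⟩ := hTHREE A (‖X‖⁻¹ • X) (‖Y‖⁻¹ • Y) s (dfc A X Y) hA hs0 hb hy hδ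
  refine ⟨h0, ?_⟩
  set δ := dfc A X Y with hδd
  set w := Real.sqrt (opn (cofm A) / (2 * s ^ 2)) with hw
  have hw0 : 0 ≤ w := Real.sqrt_nonneg _
  set e := Real.sqrt (1 + δ) with he
  have he2 : e ^ 2 = 1 + δ := Real.sq_sqrt (by linarith)
  have he1 : 1 ≤ e := by
    rw [he]
    exact Real.one_le_sqrt.mpr (by linarith)
  have hwe : w ≤ 2 * e := by
    apply lsq _ (by linarith)
    nlinarith [sq_nonneg (w - 2)]
  have hw3 : w ^ 3 ≤ 8 * e ^ 3 := by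
    have := pow_le_pow_left₀ hw0 hwe 3
    calc w ^ 3 ≤ (2 * e) ^ 3 := this
      _ = 8 * e ^ 3 := by ring
  have hdet : A.det ≤ 16 * (9 * e ^ 3) := by
    have h4 : A.det / (2 * s ^ 3) ≤ 9 * e ^ 3 := by
      have : δ ≤ e ^ 3 := by nlinarith
      linarith
    have h5 : 0 < 2 * s ^ 3 := by positivity
    rw [div_le_iff₀ h5] at h4
    have h6 : s ^ 3 ≤ 2 ^ 3 := pow_le_pow_left₀ hs0.le hs2 3
    have h7 : 0 ≤ 9 * e ^ 3 := by positivity
    nlinarith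
  have ha : 0 ≤ opn A := norm_nonneg _
  have h8 : opn A ^ 3 ≤ (9 * e) ^ 3 := by
    have := hA.2
    have h9 : (9 * e) ^ 3 = 729 * e ^ 3 := by ring
    rw [h9]
    have : 0 ≤ e ^ 3 := by positivity
    nlinarith
  have h10 : opn A ≤ 9 * e := by
    by_contra hcon
    have := pow_lt_pow_left₀ (not_le.mp hcon) (by positivity) (n := 3) (by norm_num)
    linarith
  calc opn A ^ 2 ≤ (9 * e) ^ 2 := pow_le_pow_left₀ ha h10 2
    _ = 81 * (1 + δ) := by rw [mul_pow, he2]; ring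

lemma inn_le (hBAS : Stmt_BAS) (A : M3) (u v : E3) (hu : ‖u‖ ≤ 1) (hv : ‖v‖ ≤ 1) :
    |inner ℝ u (act A v)| ≤ opn A := by
  have ha : 0 ≤ opn A := norm_nonneg _
  have h1 := abs_real_inner_le_norm u (act A v)
  have h2 := hBAS.1 A v
  have h3 : 0 ≤ ‖act A v‖ := norm_nonneg _
  have h4 : 0 ≤ ‖v‖ := norm_nonneg _
  have h5 : ‖act A v‖ ≤ opn A := by nlinarith
  have h6 : 0 ≤ ‖u‖ := norm_nonneg _
  nlinarith

lemma cn_le (a b : ℝ) : ‖((a : ℝ) : ℂ) + ((b : ℝ) : ℂ) * I‖ ≤ |a| + |b| := by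
  have h := norm_add_le ((a : ℝ) : ℂ) (((b : ℝ) : ℂ) * I)
  rw [norm_mul, Complex.norm_I, mul_one, Complex.norm_real, Complex.norm_real] at h
  simpa using h

end PWB_

open PWB_ in
theorem stmt_PWB (hBAS : Stmt_BAS) (hTHREE : Stmt_THREE) : Stmt_PWB := by
  intro ρ κ hρ _ hκ
  refine ⟨2000 * (1 + 1 / κ), by positivity, ?_⟩
  intro A X Y hA hX _ hY hD
  obtain ⟨x1, y1, r1⟩ := ratio ρ hρ X Y hX hY 0
  obtain ⟨x2, y2, r2⟩ := ratio ρ hρ X Y hX hY 1
  simp only [zero_smul, sub_zero] at x1 y1 r1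
  simp only [one_smul] at x2 y2 r2
  obtain ⟨d1, o1⟩ := opn_sq hTHREE A X Y hA x1 y1 r1
  obtain ⟨d2, -⟩ := opn_sq hTHREE A (X - e3) (Y - e3) hA x2 y2 r2
  set D := dfc A X Y + dfc A (X - e3) (Y - e3) with hDd
  set a := opn A with hadef
  have ha : 0 ≤ a := norm_nonneg _
  set K := 1 + 1 / κ with hK
  have hKD : 1 + D ≤ K * D := by
    have : 1 ≤ 1 / κ * D := by
      rw [one_div, ← div_eq_inv_mul, le_div_iff₀ hκ]
      linarith
    rw [hK]
    linarith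
  have hone : 1 ≤ K * D := by linarith
  have ha2 : a ^ 2 ≤ 81 * (K * D) := by linarith
  have q1 := inn_le hBAS A (er Y) (er X) (er_le Y) (er_le X)
  have q2 := inn_le hBAS A e3 (er X) e3_norm.le (er_le X)
  have q3 := inn_le hBAS A (er Y) e3 (er_le Y) e3_norm.le
  have q4 := inn_le hBAS A e3 e3 e3_norm.le e3_norm.le
  have q5 := inn_le hBAS A (er Y) (et X) (er_le Y) (et_le X)
  have q6 := inn_le hBAS A e3 (et X) e3_norm.le (et_le X)
  have g1 : ‖gr A X Y‖ ≤ 1 + 2 * a := by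
    have := cn_le (inner ℝ (er Y) (act A (er X)) - 1) (inner ℝ e3 (act A (er X)))
    have h2 : |inner ℝ (er Y) (act A (er X)) - 1| ≤ |inner ℝ (er Y) (act A (er X))| + 1 := by
      have := abs_sub (inner ℝ (er Y) (act A (er X))) 1
      rwa [abs_one] at this
    unfold gr
    linarith
  have g2 : ‖gz A X Y‖ ≤ 1 + 2 * a := by
    have := cn_le (inner ℝ (er Y) (act A e3)) (inner ℝ e3 (act A e3) - 1)
    have h2 : |inner ℝ e3 (act A e3) - 1| ≤ |inner ℝ e3 (act A e3)| + 1 := by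
      have := abs_sub (inner ℝ e3 (act A e3)) 1
      rwa [abs_one] at this
    unfold gz
    linarith
  have g3 : ‖gt A X Y‖ ≤ 2 * a := by
    have := cn_le (inner ℝ (er Y) (act A (et X))) (inner ℝ e3 (act A (et X)))
    unfold gt
    linarith
  have n1 := norm_nonneg (gr A X Y)
  have n2 := norm_nonneg (gz A X Y)
  have n3 := norm_nonneg (gt A X Y)
  constructor
  · have h1 := norm_add_le (gr A X Y) (I * gz A X Y)
    rw [norm_mul, Complex.norm_I, one_mul] at h1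
    nlinarith [sq_nonneg (a - 1)]
  · have e1 : ‖gr A X Y‖ ^ 2 ≤ (1 + 2 * a) ^ 2 := pow_le_pow_left₀ n1 g1 2
    have e2 : ‖gz A X Y‖ ^ 2 ≤ (1 + 2 * a) ^ 2 := pow_le_pow_left₀ n2 g2 2
    have e3' : ‖gt A X Y‖ ^ 2 ≤ (2 * a) ^ 2 := pow_le_pow_left₀ n3 g3 2
    nlinarith [sq_nonneg (2 * a - 1)]

end Pool.Mart
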