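import Pool.Agent.Work.MP_680515_an.IfaceL

/-!
# MP_680515_an: block PWS (helper44)

Pointwise lemma, small defect.
-/

open MeasureTheory Set Filter Topology Complex

namespace Pool.Mart

namespace PWS_

theorem nsq (v : E3) : ‖v‖ ^ 2 = v 0 ^ 2 + v 1 ^ 2 + v 2 ^ 2 := by
  rw [← real_inner_self_eq_norm_sq, PiLp.inner_apply, Fin.sum_univ_three]
  simp [sq]

theorem inn (v w : E3) : (inner ℝ v w : ℝ) = v 0 * w 0 + v 1 * w 1 + v 2 * w 2 := by
  rw [PiLp.inner_apply, Fin.sum_univ_three]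
  simp [mul_comm]

theorem e3_0 : e3 0 = 0 := by simp [e3]
theorem e3_1 : e3 1 = 0 := by simp [e3]
theorem e3_2 : e3 2 = 1 := by simp [e3]

theorem act_comb (M : M3) (v w : E3) (s t : ℝ) :
    act M (s • v + t • w) = s • act M v + t • act M w := by
  ext i
  simp [act, Matrix.mulVec_add, Matrix.mulVec_smul]

theorem act_smul (M : M3) (v : E3) (s : ℝ) : act M (s • v) = s • act M v := by
  ext i
  simp [act, Matrix.mulVec_smul]

theorem act_sub (M : M3) (v w : E3) : act M (v - w) = act M v - act M w := by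
  ext i
  simp [act, Matrix.mulVec_sub]

theorem rad_sq (X : E3) : rad X ^ 2 = X 0 ^ 2 + X 1 ^ 2 := by
  unfold rad
  exact Real.sq_sqrt (by positivity)

theorem rad_nonneg (X : E3) : 0 ≤ rad X := Real.sqrt_nonneg _

theorem wind_h (X : E3) (h : 0 < rad X) : wind X 0 ^ 2 + wind X 1 ^ 2 = rad X ^ 2 := by
  have h1 : wind X 0 = (X 0 ^ 2 - X 1 ^ 2) / rad X := by simp [wind]
  have h2 : wind X 1 = 2 * X 0 * X 1 / rad X := by simp [wind]
  have h3 := rad_sq X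
  rw [h1, h2, div_pow, div_pow, ← add_div, div_eq_iff (by positivity)]
  have h4 : rad X ^ 2 * rad X ^ 2 = (X 0 ^ 2 + X 1 ^ 2) * (X 0 ^ 2 + X 1 ^ 2) := by rw [h3]
  rw [h4]
  ring

theorem wind_2 (X : E3) : wind X 2 = X 2 := by simp [wind]

theorem norm_wind (X : E3) (h : 0 < rad X) : ‖wind X‖ = ‖X‖ := by
  have h1 : ‖wind X‖ ^ 2 = ‖X‖ ^ 2 := by
    rw [nsq, nsq, wind_h X h, wind_2, rad_sq]
  exact (sq_eq_sq₀ (norm_nonneg _) (norm_nonneg _)).mp h1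

theorem norm_wind_sub (X : E3) (h : 0 < rad X) : ‖wind X - e3‖ = ‖X - e3‖ := by
  have h1 : ‖wind X - e3‖ ^ 2 = ‖X - e3‖ ^ 2 := by
    rw [nsq, nsq]
    simp only [PiLp.sub_apply, e3_0, e3_1, e3_2, sub_zero]
    rw [wind_h X h, wind_2, rad_sq]
  exact (sq_eq_sq₀ (norm_nonneg _) (norm_nonneg _)).mp h1

theorem rad_le_norm (X : E3) : rad X ≤ ‖X‖ := by
  apply le_of_sq_le_sq _ (norm_nonneg _)
  rw [rad_sq, nsq]
  nlinarith [sq_nonneg (X 2)]

theorem rad_le_norm_sub (X : E3) : rad X ≤ ‖X - e3‖ := by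
  apply le_of_sq_le_sq _ (norm_nonneg _)
  rw [rad_sq, nsq]
  simp only [PiLp.sub_apply, e3_0, e3_1, e3_2, sub_zero]
  nlinarith [sq_nonneg (X 2 - 1)]

theorem norm_er (X : E3) (h : 0 < rad X) : ‖er X‖ = 1 := by
  have h1 : ‖er X‖ ^ 2 = 1 ^ 2 := by
    rw [nsq]
    have a0 : er X 0 = X 0 / rad X := by simp [er]
    have a1 : er X 1 = X 1 / rad X := by simp [er]
    have a2 : er X 2 = 0 := by simp [er]
    rw [a0, a1, a2, div_pow, div_pow, ← add_div, ← rad_sq]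
    field_simp
    ring
  exact (sq_eq_sq₀ (norm_nonneg _) (by norm_num)).mp h1

theorem norm_et (X : E3) (h : 0 < rad X) : ‖et X‖ = 1 := by
  have h1 : ‖et X‖ ^ 2 = 1 ^ 2 := by
    rw [nsq]
    have a0 : et X 0 = -(X 1) / rad X := by simp [et]
    have a1 : et X 1 = X 0 / rad X := by simp [et]
    have a2 : et X 2 = 0 := by simp [et]
    have h3 := rad_sq X
    rw [a0, a1, a2, div_pow, div_pow, ← add_div]
    have h4 : (-(X 1)) ^ 2 + X 0 ^ 2 = rad X ^ 2 := by rw [h3]; ring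
    rw [h4]
    field_simp
    ring
  exact (sq_eq_sq₀ (norm_nonneg _) (by norm_num)).mp h1

theorem norm_e3 : ‖e3‖ = 1 := by
  have h1 : ‖e3‖ ^ 2 = 1 ^ 2 := by
    rw [nsq, e3_0, e3_1, e3_2]; norm_num
  exact (sq_eq_sq₀ (norm_nonneg _) (by norm_num)).mp h1

theorem inner_er_e3 (X : E3) : inner ℝ (er X) e3 = (0 : ℝ) := by
  rw [inn, e3_0, e3_1, e3_2]
  simp [er]

theorem inner_et_e3 (X : E3) : inner ℝ (et X) e3 = (0 : ℝ) := by
  rw [inn, e3_0, e3_1, e3_2]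
  simp [et]

theorem inner_et_er (X : E3) : inner ℝ (et X) (er X) = (0 : ℝ) := by
  rw [inn]
  simp [et, er]
  ring

theorem decomp (X : E3) (h : 0 < rad X) : X = rad X • er X + X 2 • e3 := by
  have hne : rad X ≠ 0 := h.ne'
  ext i
  fin_cases i
  · simp [er, e3]
    field_simp
  · simp [er, e3]
    field_simp
  · simp [er, e3]

/-- one base point -/
theorem one_pt (hTHREE : Stmt_THREE) (hQF : Stmt_QF) (hAB : Stmt_AB) (A : M3) (X Y : E3)
    (D : ℝ) (hA : Good A) (hD0 : 0 ≤ D) (hD1 : D ≤ 1 / 10) (hX : 0 < ‖X‖)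
    (h1 : 15 / 16 * ‖X‖ ≤ ‖Y‖) (h2 : ‖Y‖ ≤ 17 / 16 * ‖X‖) (hd : dfc A X Y ≤ D ^ 2) :
    0 < A.det ∧ 1 ≤ opn (cofm A) ∧ opn (cofm A) ≤ 3 ∧ 0 ≤ tau A ∧ tau A ≤ 3 / 2 ∧
      opn A ≤ 3 ∧ ‖act A X - Y‖ ≤ 9 * D * ‖X‖ ∧ Real.sqrt (qf A X) ≤ 3 * D * ‖X‖ := by
  have hY : 0 < ‖Y‖ := by linarith
  set s : ℝ := ‖Y‖ / ‖X‖ with hs
  have hs0 : 0 < s := div_pos hY hX
  have hs1 : 15 / 16 ≤ s := by rw [hs, le_div_iff₀ hX]; exact h1
  have hs2 : s ≤ 17 / 16 := by rw [hs, div_le_iff₀ hX]; exact h2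
  set b : E3 := ‖X‖⁻¹ • X with hb
  set y : E3 := ‖Y‖⁻¹ • Y with hy
  have hbn : ‖b‖ = 1 := by
    rw [hb, norm_smul, norm_inv, norm_norm]; exact inv_mul_cancel₀ hX.ne'
  have hyn : ‖y‖ = 1 := by
    rw [hy, norm_smul, norm_inv, norm_norm]; exact inv_mul_cancel₀ hY.ne'
  have hdf : dfc A X Y = (2 / 3) * A.det / s ^ 3 + 2 / 3 - cpair A y b / s ^ 2 := by
    unfold dfc
    have e1 : ‖X‖ / ‖Y‖ = 1 / s := by rw [hs]; field_simp
    rw [e1]
    rw [← hb, ← hy]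
    field_simp
  obtain ⟨p0, p1, p2, p3⟩ := hTHREE A b y s (dfc A X Y) hA hs0 hbn hyn hdf
  set N := opn (cofm A) with hN
  have hN0 : 0 ≤ N := norm_nonneg _
  set r := Real.sqrt (N / (2 * s ^ 2)) with hr
  have hr0 : 0 ≤ r := Real.sqrt_nonneg _
  have hr2 : r ^ 2 = N / (2 * s ^ 2) := Real.sq_sqrt (by positivity)
  have hdet0 : 0 ≤ A.det := by
    have h3 := hA.2
    have h4 : 0 ≤ opn A ^ 3 := pow_nonneg (norm_nonneg _) 3
    linarith
  have hr1 : (r - 1) ^ 2 ≤ (5 / 4 * D) ^ 2 := by nlinarith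
  have hrabs : |r - 1| ≤ 5 / 4 * D := by
    have := Real.sqrt_le_sqrt hr1
    rwa [Real.sqrt_sq_eq_abs, Real.sqrt_sq (by positivity)] at this
  have hr3 : 7 / 8 ≤ r := by have := (abs_le.mp hrabs).1; linarith
  have hr4 : r ≤ 9 / 8 := by have := (abs_le.mp hrabs).2; linarith
  have hNr : N = 2 * s ^ 2 * r ^ 2 := by rw [hr2]; field_simp
  have hs2l : 225 / 256 ≤ s ^ 2 := by nlinarith
  have hs2u : s ^ 2 ≤ 289 / 256 := by nlinarith
  have hr2l : 49 / 64 ≤ r ^ 2 := by nlinarith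
  have hr2u : r ^ 2 ≤ 81 / 64 := by nlinarith
  have hN1 : 1 ≤ N := by rw [hNr]; nlinarith
  have hN3 : N ≤ 3 := by rw [hNr]; nlinarith
  -- the number j
  set j : ℝ := A.det / (2 * s ^ 3) with hj
  have hj0 : 0 ≤ j := by positivity
  have hdj : A.det = 2 * s ^ 3 * j := by rw [hj]; field_simp
  have hjr : r ^ 3 ≤ j := by
    have h5 : (r ^ 3) ^ 2 ≤ j ^ 2 := by
      have h6 := hA.1
      rw [← hN, hNr, hdj] at h6
      have h7 : (2 * s ^ 2 * r ^ 2) ^ 3 = 8 * s ^ 6 * (r ^ 3) ^ 2 := by ring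
      have h8 : 2 * (2 * s ^ 3 * j) ^ 2 = 8 * s ^ 6 * j ^ 2 := by ring
      rw [h7, h8] at h6
      exact le_of_mul_le_mul_left h6 (by positivity)
    exact le_of_sq_le_sq h5 hj0
  have hju : j ≤ r ^ 3 + 3 / 4 * D ^ 2 := by linarith
  have hr3l : (1 : ℝ) / 2 ≤ r ^ 3 := by nlinarith
  have hjp : 0 < j := by linarith
  have hdet : 0 < A.det := by rw [hdj]; positivity
  have htau : tau A = s * (j / r ^ 2) := by
    unfold tau
    rw [← hN, hNr, hdj]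
    field_simp
  have hjr2 : r ≤ j / r ^ 2 := by
    rw [le_div_iff₀ (by positivity)]
    linarith [hjr, show r * r ^ 2 = r ^ 3 by ring]
  have hjr3 : j / r ^ 2 ≤ r + D ^ 2 := by
    rw [div_le_iff₀ (by positivity)]
    nlinarith [sq_nonneg D]
  have hD2 : D ^ 2 ≤ D / 10 := by nlinarith
  have hta : |tau A - s| ≤ 2 * D := by
    rw [htau, show s * (j / r ^ 2) - s = s * (j / r ^ 2 - 1) by ring, abs_mul, abs_of_pos hs0]
    have h9 : |j / r ^ 2 - 1| ≤ 27 / 20 * D := by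
      rw [abs_le]
      have ha := abs_le.mp hrabs
      constructor
      · linarith [ha.1]
      · linarith [ha.2]
    calc s * |j / r ^ 2 - 1| ≤ 17 / 16 * (27 / 20 * D) :=
          mul_le_mul hs2 h9 (abs_nonneg _) (by norm_num)
      _ ≤ 2 * D := by linarith
  have htau0 : 0 ≤ tau A := by rw [htau]; positivity
  have htau1 : tau A ≤ 3 / 2 := by have := (abs_le.mp hta).2; linarith
  -- AB
  have hη0 : 0 ≤ dfc A X Y * s ^ 2 := mul_nonneg p0 (by positivity)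
  obtain ⟨q1, q2, q3⟩ := hAB A b y (dfc A X Y * s ^ 2) hA hdet hbn hyn hη0 (by linarith)
  rw [← hN] at q1 q2
  have hη : dfc A X Y * s ^ 2 ≤ 289 / 256 * D ^ 2 := by
    calc dfc A X Y * s ^ 2 ≤ D ^ 2 * (289 / 256) :=
          mul_le_mul hd hs2u (by positivity) (by positivity)
      _ = 289 / 256 * D ^ 2 := by ring
  have hq7 : qf A b ≤ 7 * D ^ 2 := by
    calc qf A b ≤ 2 * N * (dfc A X Y * s ^ 2) := q1
      _ ≤ 2 * 3 * (289 / 256 * D ^ 2) := by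
          apply mul_le_mul _ hη hη0 (by norm_num)
          linarith
      _ ≤ 7 * D ^ 2 := by nlinarith [sq_nonneg D]
  have hsq : Real.sqrt (2 * (dfc A X Y * s ^ 2) / N) ≤ 151 / 100 * D := by
    rw [Real.sqrt_le_left (by positivity)]
    rw [div_le_iff₀ (by linarith)]
    have : (151 / 100 * D) ^ 2 ≤ (151 / 100 * D) ^ 2 * N := by
      nlinarith [sq_nonneg (151 / 100 * D)]
    nlinarith [sq_nonneg D]
  have hAb : ‖act A b - tau A • y‖ ≤ 7 * D := by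
    calc ‖act A b - tau A • y‖ ≤ 3 * tau A * Real.sqrt (2 * (dfc A X Y * s ^ 2) / N) := q2
      _ ≤ 3 * (3 / 2) * (151 / 100 * D) := by
          apply mul_le_mul _ hsq (Real.sqrt_nonneg _) (by norm_num)
          linarith
      _ ≤ 7 * D := by linarith
  have hXb : X = ‖X‖ • b := by rw [hb, smul_smul, mul_inv_cancel₀ hX.ne', one_smul]
  have hYy : Y = ‖X‖ • (s • y) := by
    rw [hy, hs, smul_smul, smul_smul]
    have : ‖X‖ * (‖Y‖ / ‖X‖) * ‖Y‖⁻¹ = 1 := by field_simp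
    rw [this, one_smul]
  refine ⟨hdet, hN1, hN3, htau0, htau1, by linarith, ?_, ?_⟩
  · have e2 : act A X - Y = ‖X‖ • ((act A b - tau A • y) + (tau A - s) • y) := by
      have e3 : act A X = ‖X‖ • act A b := by
        conv_lhs => rw [hXb]
        rw [act_smul]
      rw [e3]
      conv_lhs => rw [hYy]
      rw [← smul_sub]
      congr 1
      rw [sub_smul]
      abel
    rw [e2, norm_smul, norm_norm]
    have e4 : ‖(act A b - tau A • y) + (tau A - s) • y‖ ≤ 9 * D := by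
      calc ‖(act A b - tau A • y) + (tau A - s) • y‖
          ≤ ‖act A b - tau A • y‖ + ‖(tau A - s) • y‖ := norm_add_le _ _
        _ ≤ 7 * D + 2 * D := by
            rw [norm_smul, hyn, mul_one, Real.norm_eq_abs]
            exact add_le_add hAb hta
        _ = 9 * D := by ring
    calc ‖X‖ * ‖(act A b - tau A • y) + (tau A - s) • y‖ ≤ ‖X‖ * (9 * D) :=
          mul_le_mul_of_nonneg_left e4 hX.le
      _ = 9 * D * ‖X‖ := by ring
  · have h10 := (hQF A).2 b b ‖X‖ 0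
    rw [zero_smul, add_zero, ← hXb, abs_zero, zero_mul, add_zero, abs_of_pos hX] at h10
    have h11 : Real.sqrt (qf A b) ≤ 3 * D := by
      rw [Real.sqrt_le_left (by positivity)]
      nlinarith [sq_nonneg D]
    calc Real.sqrt (qf A X) ≤ ‖X‖ * Real.sqrt (qf A b) := h10
      _ ≤ ‖X‖ * (3 * D) := mul_le_mul_of_nonneg_left h11 hX.le
      _ = 3 * D * ‖X‖ := by ring

/-- abstract final computation -/
theorem fin_comp (u v g E Z w : E3) (a c Q τ : ℝ) (hQ0 : 0 ≤ Q) (hQ1 : Q ≤ 1 / 10)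
    (hE : ‖E‖ = 1) (hZ : ‖Z‖ = 1) (hEZ : inner ℝ E Z = (0 : ℝ)) (ha : 0 ≤ a)
    (hu : u = a • E + c • Z + w) (hw : ‖w‖ ≤ 4 * Q) (hv : ‖v - Z‖ ≤ Q)
    (hu3 : ‖u‖ ≤ 3) (_hv3 : ‖v‖ ≤ 3) (hg3 : ‖g‖ ≤ 3)
    (h1 : |‖u‖ ^ 2 - τ| ≤ 12 * Q ^ 2) (h2 : |‖v‖ ^ 2 - τ| ≤ 12 * Q ^ 2)
    (h3 : |(inner ℝ u v : ℝ)| ≤ 12 * Q ^ 2) (h4 : |(inner ℝ g u : ℝ)| ≤ 36 * Q)
    (h5 : |(inner ℝ g v : ℝ)| ≤ 36 * Q) :
    |((inner ℝ E u : ℝ) - 1) - ((inner ℝ Z v : ℝ) - 1)| ≤ 500 * Q ^ 2 ∧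
    |(inner ℝ Z u : ℝ) + (inner ℝ E v : ℝ)| ≤ 50 * Q ^ 2 ∧
    |(inner ℝ E u : ℝ) - 1| ≤ 30 * Q ∧ |(inner ℝ Z u : ℝ)| ≤ 30 * Q ∧
    |(inner ℝ E v : ℝ)| ≤ Q ∧ |(inner ℝ Z v : ℝ) - 1| ≤ Q ∧
    |(inner ℝ E g : ℝ)| ≤ 130 * Q ∧ |(inner ℝ Z g : ℝ)| ≤ 130 * Q := by
  set q : E3 := v - Z with hq
  have hvq : v = Z + q := by rw [hq]; abel
  have hEE : inner ℝ E E = (1 : ℝ) := by rw [real_inner_self_eq_norm_sq, hE]; norm_num
  have hZZ : inner ℝ Z Z = (1 : ℝ) := by rw [real_inner_self_eq_norm_sq, hZ]; norm_num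
  have hZE : inner ℝ Z E = (0 : ℝ) := by rw [real_inner_comm]; exact hEZ
  have cs : ∀ x y : E3, |(inner ℝ x y : ℝ)| ≤ ‖x‖ * ‖y‖ := abs_real_inner_le_norm
  have hQ2 : Q ^ 2 ≤ Q / 10 := by nlinarith
  -- bound of c
  have hc : |c| ≤ 9 * Q := by
    have e1 : (inner ℝ u v : ℝ) = c + inner ℝ w Z + inner ℝ u q := by
      rw [hvq, inner_add_right]
      have : (inner ℝ u Z : ℝ) = c + inner ℝ w Z := by
        rw [hu, inner_add_left, inner_add_left, inner_smul_left, inner_smul_left, hEZ, hZZ]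
        simp
      rw [this]
    have e2 : c = inner ℝ u v - inner ℝ w Z - inner ℝ u q := by rw [e1]; ring
    have e3 := cs w Z
    have e4 := cs u q
    rw [hZ, mul_one] at e3
    have e5 : ‖u‖ * ‖q‖ ≤ 3 * Q := mul_le_mul hu3 hv (norm_nonneg _) (by norm_num)
    have e6 := abs_le.mp h3
    have e7 := abs_le.mp (e3.trans hw)
    have e8 := abs_le.mp (e4.trans e5)
    rw [abs_le]
    constructor
    · linarith [e6.1, e7.2, e8.2]
    · linarith [e6.2, e7.1, e8.1]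
  -- norms
  have hnv : |‖v‖ - 1| ≤ Q := by
    have := abs_norm_sub_norm_le v Z
    rw [hZ] at this
    exact this.trans hv
  have hv9 : 9 / 10 ≤ ‖v‖ := by have := (abs_le.mp hnv).1; linarith
  have hnuv : |‖u‖ - ‖v‖| ≤ 3 * Q := by
    have e1 : |‖u‖ - ‖v‖| * (‖u‖ + ‖v‖) ≤ 24 * Q ^ 2 := by
      have e2 : |‖u‖ - ‖v‖| * (‖u‖ + ‖v‖) = |‖u‖ ^ 2 - ‖v‖ ^ 2| := by
        have e3 : 0 ≤ ‖u‖ + ‖v‖ := by positivity
        rw [show ‖u‖ ^ 2 - ‖v‖ ^ 2 = (‖u‖ - ‖v‖) * (‖u‖ + ‖v‖) by ring, abs_mul,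
          abs_of_nonneg e3]
      rw [e2]
      have e4 := abs_le.mp h1
      have e5 := abs_le.mp h2
      rw [abs_le]
      constructor
      · linarith [e4.1, e5.2]
      · linarith [e4.2, e5.1]
    have e6 : 9 / 10 ≤ ‖u‖ + ‖v‖ := by have := norm_nonneg u; linarith
    have e7 : |‖u‖ - ‖v‖| * (9 / 10) ≤ |‖u‖ - ‖v‖| * (‖u‖ + ‖v‖) :=
      mul_le_mul_of_nonneg_left e6 (abs_nonneg _)
    linarith
  have hnua : |‖u‖ - a| ≤ 13 * Q := by
    have e1 := abs_norm_sub_norm_le u (a • E)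
    rw [norm_smul, hE, mul_one, Real.norm_eq_abs, abs_of_nonneg ha] at e1
    have e2 : u - a • E = c • Z + w := by rw [hu]; abel
    have e3 : ‖c • Z + w‖ ≤ 9 * Q + 4 * Q := by
      calc ‖c • Z + w‖ ≤ ‖c • Z‖ + ‖w‖ := norm_add_le _ _
        _ ≤ 9 * Q + 4 * Q := by
            rw [norm_smul, hZ, mul_one, Real.norm_eq_abs]
            exact add_le_add hc hw
    rw [e2] at e1
    linarith
  have haa : |a - 1| ≤ 17 * Q := by
    have e1 := abs_le.mp hnv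
    have e2 := abs_le.mp hnuv
    have e3 := abs_le.mp hnua
    rw [abs_le]
    constructor
    · linarith [e1.1, e2.1, e3.2]
    · linarith [e1.2, e2.2, e3.1]
  -- p
  set p : E3 := u - E with hp
  have hup : u = E + p := by rw [hp]; abel
  have hpn : ‖p‖ ≤ 30 * Q := by
    have e1 : p = (a - 1) • E + c • Z + w := by rw [hp, hu, sub_smul, one_smul]; abel
    rw [e1]
    calc ‖(a - 1) • E + c • Z + w‖ ≤ ‖(a - 1) • E‖ + ‖c • Z‖ + ‖w‖ := norm_add₃_le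
      _ ≤ 17 * Q + 9 * Q + 4 * Q := by
          rw [norm_smul, norm_smul, hE, hZ, mul_one, mul_one, Real.norm_eq_abs,
            Real.norm_eq_abs]
          exact add_le_add (add_le_add haa hc) hw
      _ = 30 * Q := by ring
  have hEu : (inner ℝ E u : ℝ) = 1 + inner ℝ E p := by rw [hup, inner_add_right, hEE]
  have hZu : (inner ℝ Z u : ℝ) = inner ℝ Z p := by rw [hup, inner_add_right, hZE, zero_add]
  have hEv : (inner ℝ E v : ℝ) = inner ℝ E q := by rw [hvq, inner_add_right, hEZ, zero_add]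
  have hZv : (inner ℝ Z v : ℝ) = 1 + inner ℝ Z q := by rw [hvq, inner_add_right, hZZ]
  have hEp := cs E p
  have hZp := cs Z p
  have hEq := cs E q
  have hZq := cs Z q
  rw [hE, one_mul] at hEp hEq
  rw [hZ, one_mul] at hZp hZq
  have hpq : |(inner ℝ p q : ℝ)| ≤ 30 * Q ^ 2 := by
    calc |(inner ℝ p q : ℝ)| ≤ ‖p‖ * ‖q‖ := cs p q
      _ ≤ (30 * Q) * Q := mul_le_mul hpn hv (norm_nonneg _) (by positivity)
      _ = 30 * Q ^ 2 := by ring
  have hp2 : ‖p‖ ^ 2 ≤ 900 * Q ^ 2 := by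
    calc ‖p‖ ^ 2 ≤ (30 * Q) ^ 2 := pow_le_pow_left₀ (norm_nonneg _) hpn 2
      _ = 900 * Q ^ 2 := by ring
  have hq2 : ‖q‖ ^ 2 ≤ Q ^ 2 := pow_le_pow_left₀ (norm_nonneg _) hv 2
  have hu2 : ‖u‖ ^ 2 = 1 + 2 * inner ℝ E p + ‖p‖ ^ 2 := by
    rw [hup, norm_add_sq_real, hE]; ring
  have hv2 : ‖v‖ ^ 2 = 1 + 2 * inner ℝ Z q + ‖q‖ ^ 2 := by
    rw [hvq, norm_add_sq_real, hZ]; ring
  have huv : (inner ℝ u v : ℝ) = inner ℝ Z p + inner ℝ E q + inner ℝ p q := by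
    rw [hup, hvq, inner_add_left, inner_add_right, inner_add_right, hEZ,
      real_inner_comm Z p]
    ring
  have hgu : (inner ℝ g u : ℝ) = inner ℝ E g + inner ℝ g p := by
    rw [hup, inner_add_right, real_inner_comm g E]
  have hgv : (inner ℝ g v : ℝ) = inner ℝ Z g + inner ℝ g q := by
    rw [hvq, inner_add_right, real_inner_comm g Z]
  have hgp : |(inner ℝ g p : ℝ)| ≤ 90 * Q := by
    calc |(inner ℝ g p : ℝ)| ≤ ‖g‖ * ‖p‖ := cs g p
      _ ≤ 3 * (30 * Q) := mul_le_mul hg3 hpn (norm_nonneg _) (by norm_num)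
      _ = 90 * Q := by ring
  have hgq : |(inner ℝ g q : ℝ)| ≤ 3 * Q := by
    calc |(inner ℝ g q : ℝ)| ≤ ‖g‖ * ‖q‖ := cs g q
      _ ≤ 3 * Q := mul_le_mul hg3 hv (norm_nonneg _) (by norm_num)
  have A1 := abs_le.mp h1
  have A2 := abs_le.mp h2
  have A3 := abs_le.mp h3
  have A4 := abs_le.mp h4
  have A5 := abs_le.mp h5
  have B1 := abs_le.mp hpq
  have B2 := abs_le.mp hgp
  have B3 := abs_le.mp hgq
  have B4 := abs_le.mp (hEp.trans hpn)
  have B5 := abs_le.mp (hZp.trans hpn)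
  have B6 := abs_le.mp (hEq.trans hv)
  have B7 := abs_le.mp (hZq.trans hv)
  have P0 : 0 ≤ ‖p‖ ^ 2 := by positivity
  have P1 : 0 ≤ ‖q‖ ^ 2 := by positivity
  have P2 : 0 ≤ Q ^ 2 := by positivity
  rw [hu2] at A1
  rw [hv2] at A2
  rw [huv] at A3
  rw [hgu] at A4
  rw [hgv] at A5
  rw [hEu, hZu, hEv, hZv]
  refine ⟨?_, ?_, ?_, ?_, ?_, ?_, ?_, ?_⟩
  · rw [abs_le]; constructor
    · linarith [A1.1, A2.2]
    · linarith [A1.2, A2.1]
  · rw [abs_le]; constructor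
    · linarith [A3.1, B1.2]
    · linarith [A3.2, B1.1]
  · rw [abs_le]; constructor
    · linarith [B4.1]
    · linarith [B4.2]
  · rw [abs_le]; exact ⟨B5.1, B5.2⟩
  · rw [abs_le]; exact ⟨B6.1, B6.2⟩
  · rw [abs_le]; constructor
    · linarith [B7.1]
    · linarith [B7.2]
  · rw [abs_le]; constructor
    · linarith [A4.1, B2.2]
    · linarith [A4.2, B2.1]
  · rw [abs_le]; constructor
    · linarith [A5.1, B3.2]
    · linarith [A5.2, B3.1]

theorem normSq_bd (x y B C : ℝ) (hx : |x| ≤ B) (hy : |y| ≤ C) :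
    ‖((x : ℝ) : ℂ) + ((y : ℝ) : ℂ) * I‖ ^ 2 ≤ B ^ 2 + C ^ 2 := by
  rw [← Complex.normSq_eq_norm_sq, Complex.normSq_add_mul_I]
  have h1 : x ^ 2 ≤ B ^ 2 := by
    rw [← sq_abs]; exact pow_le_pow_left₀ (abs_nonneg _) hx 2
  have h2 : y ^ 2 ≤ C ^ 2 := by
    rw [← sq_abs]; exact pow_le_pow_left₀ (abs_nonneg _) hy 2
  linarith

end PWS_

open PWS_ in
theorem stmt_PWS (hBAS : Stmt_BAS) (hTHREE : Stmt_THREE) (hQF : Stmt_QF) (hSTAR : Stmt_STAR)
    (hAB : Stmt_AB) : Stmt_PWS := by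
  intro ρ hρ0 hρ1
  set M : ℝ := 7000 / ρ with hM
  have hM1 : 7000 ≤ M := by
    rw [hM, le_div_iff₀ hρ0]; nlinarith
  have hM0 : 0 < M := by linarith
  have hMρ : M * ρ = 7000 := by rw [hM]; field_simp
  refine ⟨1 / (100 * M ^ 2), 40000 * M ^ 2, by positivity, by positivity, ?_⟩
  intro A X Y hA hX hX32 hYX hδ
  have hr : 0 < rad X := hρ0.trans hX
  have hX0 : ρ < ‖X‖ := hX.trans_le (rad_le_norm X)
  have hX1 : ρ < ‖X - e3‖ := hX.trans_le (rad_le_norm_sub X)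
  have hXu : ‖X - e3‖ ≤ 33 := by
    have := norm_sub_le X e3
    rw [norm_e3] at this
    linarith
  set δ := dfc A X Y + dfc A (X - e3) (Y - e3) with hδd
  -- distances
  have hY0 : |‖Y‖ - ‖X‖| ≤ ρ / 16 := by
    have := abs_norm_sub_norm_le Y (wind X)
    rw [norm_wind X hr] at this
    exact this.trans hYX
  have hY1 : |‖Y - e3‖ - ‖X - e3‖| ≤ ρ / 16 := by
    have := abs_norm_sub_norm_le (Y - e3) (wind X - e3)
    rw [norm_wind_sub X hr] at this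
    have h2 : (Y - e3) - (wind X - e3) = Y - wind X := by abel
    rw [h2] at this
    exact this.trans hYX
  have hY0' := abs_le.mp hY0
  have hY1' := abs_le.mp hY1
  have hrY : 0 < rad Y := by
    rcases (rad_nonneg Y).lt_or_eq with h | h
    · exact h
    · exfalso
      have h1 := rad_sq Y
      rw [← h] at h1
      have hy0 : Y 0 = 0 := by nlinarith [sq_nonneg (Y 0), sq_nonneg (Y 1)]
      have hy1 : Y 1 = 0 := by nlinarith [sq_nonneg (Y 0), sq_nonneg (Y 1)]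
      have h2 : rad X ^ 2 ≤ ‖Y - wind X‖ ^ 2 := by
        rw [nsq, ← wind_h X hr]
        simp only [PiLp.sub_apply, hy0, hy1, zero_sub]
        nlinarith [sq_nonneg (Y 2 - wind X 2)]
      have h3 : rad X ≤ ‖Y - wind X‖ := le_of_sq_le_sq h2 (norm_nonneg _)
      linarith
  -- nonnegativity
  have hpos : ∀ X' Y' : E3, 0 < ‖X'‖ → 0 < ‖Y'‖ → 0 ≤ dfc A X' Y' := by
    intro X' Y' h1 h2
    have hdf : dfc A X' Y' = (2 / 3) * A.det / (‖Y'‖ / ‖X'‖) ^ 3 + 2 / 3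
        - cpair A (‖Y'‖⁻¹ • Y') (‖X'‖⁻¹ • X') / (‖Y'‖ / ‖X'‖) ^ 2 := by
      unfold dfc
      have e1 : ‖X'‖ / ‖Y'‖ = 1 / (‖Y'‖ / ‖X'‖) := by field_simp
      rw [e1]
      have e2 : 0 < ‖Y'‖ / ‖X'‖ := div_pos h2 h1
      generalize ‖Y'‖ / ‖X'‖ = s at e2 ⊢
      field_simp
    refine (hTHREE A (‖X'‖⁻¹ • X') (‖Y'‖⁻¹ • Y') (‖Y'‖ / ‖X'‖) _ hA (div_pos h2 h1) ?_ ?_ hdf).1
    · rw [norm_smul, norm_inv, norm_norm]; exact inv_mul_cancel₀ h1.ne'
    · rw [norm_smul, norm_inv, norm_norm]; exact inv_mul_cancel₀ h2.ne'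
  have hXp : 0 < ‖X‖ := hρ0.trans hX0
  have hX1p : 0 < ‖X - e3‖ := hρ0.trans hX1
  have n0 : 0 ≤ dfc A X Y := hpos _ _ hXp (by linarith)
  have n1 : 0 ≤ dfc A (X - e3) (Y - e3) := hpos _ _ hX1p (by linarith)
  have hδ0 : 0 ≤ δ := by linarith
  set D := Real.sqrt δ with hD
  have hD0 : 0 ≤ D := Real.sqrt_nonneg _
  have hD2 : D ^ 2 = δ := Real.sq_sqrt hδ0
  have hDM : M * D ≤ 1 / 10 := by
    have h1 : (M * D) ^ 2 ≤ (1 / 10) ^ 2 := by
      rw [mul_pow, hD2]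
      calc M ^ 2 * δ ≤ M ^ 2 * (1 / (100 * M ^ 2)) := mul_le_mul_of_nonneg_left hδ (by positivity)
        _ = (1 / 10) ^ 2 := by field_simp; norm_num
    exact le_of_sq_le_sq h1 (by norm_num)
  have hD1 : D ≤ 1 / 10 := by nlinarith
  obtain ⟨a1, a2, a3, a4, a5, a6, a7, a8⟩ := one_pt hTHREE hQF hAB A X Y D hA hD0 hD1 hXp
    (by linarith) (by linarith) (by linarith)
  obtain ⟨-, -, -, -, -, -, b7, b8⟩ := one_pt hTHREE hQF hAB A (X - e3) (Y - e3) D hA hD0 hD1 hX1p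
    (by linarith) (by linarith) (by linarith)
  have c7 : ‖act A X - Y‖ ≤ 300 * D := by
    have : 9 * D * ‖X‖ ≤ 9 * D * 33 := mul_le_mul_of_nonneg_left (by linarith) (by positivity)
    linarith
  have d7 : ‖act A (X - e3) - (Y - e3)‖ ≤ 300 * D := by
    have : 9 * D * ‖X - e3‖ ≤ 9 * D * 33 := mul_le_mul_of_nonneg_left hXu (by positivity)
    linarith
  have c8 : Real.sqrt (qf A X) ≤ 99 * D := by
    have : 3 * D * ‖X‖ ≤ 3 * D * 33 := mul_le_mul_of_nonneg_left (by linarith) (by positivity)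
    linarith
  have d8 : Real.sqrt (qf A (X - e3)) ≤ 99 * D := by
    have : 3 * D * ‖X - e3‖ ≤ 3 * D * 33 := mul_le_mul_of_nonneg_left hXu (by positivity)
    linarith
  set Q := M * D with hQ
  have hQ0 : 0 ≤ Q := by positivity
  have hQD : 7000 * D ≤ Q := mul_le_mul_of_nonneg_right hM1 hD0
  have hQD2 : ρ * Q = 7000 * D := by rw [hQ, ← mul_assoc, mul_comm ρ M, hMρ]
  -- the vector e3
  have hq : ‖act A e3 - e3‖ ≤ 600 * D := by
    have e1 : act A e3 - e3 = (act A X - Y) - (act A (X - e3) - (Y - e3)) := by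
      rw [act_sub]; abel
    rw [e1]
    refine (norm_sub_le _ _).trans ?_
    linarith
  have hqfe : Real.sqrt (qf A e3) ≤ 198 * D := by
    have h1 := (hQF A).2 X (X - e3) 1 (-1)
    have e1 : (1 : ℝ) • X + (-1 : ℝ) • (X - e3) = e3 := by
      rw [one_smul, neg_one_smul]; abel
    rw [e1, abs_one, abs_neg, abs_one, one_mul, one_mul] at h1
    linarith
  have hX2 : |X 2| ≤ 32 := by
    have h1 : X 2 ^ 2 ≤ ‖X‖ ^ 2 := by rw [nsq]; nlinarith [sq_nonneg (X 0), sq_nonneg (X 1)]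
    have h2 := abs_le_of_sq_le_sq' h1 (norm_nonneg _)
    rw [abs_le]
    constructor <;> linarith [h2.1, h2.2]
  have her : er X = (rad X)⁻¹ • X + (-(X 2) / rad X) • e3 := by
    have h1 := decomp X hr
    have h2 : (rad X)⁻¹ • X = (rad X)⁻¹ • (rad X • er X + X 2 • e3) := congrArg _ h1
    rw [smul_add, smul_smul, smul_smul, inv_mul_cancel₀ hr.ne', one_smul] at h2
    rw [h2, neg_div, neg_smul, div_eq_inv_mul]
    abel
  have hqfr : Real.sqrt (qf A (er X)) ≤ Q := by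
    have h1 := (hQF A).2 X e3 (rad X)⁻¹ (-(X 2) / rad X)
    rw [← her, abs_inv, abs_of_pos hr, abs_div, abs_neg, abs_of_pos hr] at h1
    have h2 : (rad X)⁻¹ * Real.sqrt (qf A X) + |X 2| / rad X * Real.sqrt (qf A e3)
        = (Real.sqrt (qf A X) + |X 2| * Real.sqrt (qf A e3)) / rad X := by
      field_simp
    rw [h2] at h1
    refine h1.trans ?_
    rw [div_le_iff₀ hr]
    have h3 : |X 2| * Real.sqrt (qf A e3) ≤ 32 * (198 * D) :=
      mul_le_mul hX2 hqfe (Real.sqrt_nonneg _) (by norm_num)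
    have h4 : Q * ρ ≤ Q * rad X := mul_le_mul_of_nonneg_left hX.le hQ0
    have h5 : Q * ρ = 7000 * D := by rw [mul_comm]; exact hQD2
    linarith
  have hqfe' : Real.sqrt (qf A e3) ≤ Q := by linarith
  -- STAR
  have hN0 : 0 < opn (cofm A) := by linarith
  have hcoef : 5 * tau A ^ 2 / opn (cofm A) ^ 2 ≤ 12 := by
    rw [div_le_iff₀ (by positivity)]
    have h1 : tau A ^ 2 ≤ (3 / 2) ^ 2 := pow_le_pow_left₀ a4 a5 2
    have h2 : (1 : ℝ) ^ 2 ≤ opn (cofm A) ^ 2 := pow_le_pow_left₀ (by norm_num) a2 2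
    linarith
  have hstar : ∀ (ξ ξ' : E3) (B B' : ℝ), Real.sqrt (qf A ξ) ≤ B → Real.sqrt (qf A ξ') ≤ B' →
      |(inner ℝ (act A ξ) (act A ξ') : ℝ) - tau A ^ 2 * inner ℝ ξ ξ'| ≤ 12 * (B * B') := by
    intro ξ ξ' B B' hB hB'
    refine (hSTAR A hA a1 ξ ξ').trans ?_
    have hB0 : 0 ≤ B := (Real.sqrt_nonneg _).trans hB
    apply mul_le_mul hcoef _ (by positivity) (by norm_num)
    exact mul_le_mul hB hB' (Real.sqrt_nonneg _) hB0
  have hs1 : |‖act A (er X)‖ ^ 2 - tau A ^ 2| ≤ 12 * Q ^ 2 := by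
    have h1 := hstar (er X) (er X) Q Q hqfr hqfr
    rw [real_inner_self_eq_norm_sq, real_inner_self_eq_norm_sq, norm_er X hr, one_pow,
      mul_one] at h1
    rw [sq Q]
    exact h1
  have hs2 : |‖act A e3‖ ^ 2 - tau A ^ 2| ≤ 12 * Q ^ 2 := by
    have h1 := hstar e3 e3 Q Q hqfe' hqfe'
    rw [real_inner_self_eq_norm_sq, real_inner_self_eq_norm_sq, norm_e3, one_pow,
      mul_one] at h1
    rw [sq Q]
    exact h1
  have hs3 : |(inner ℝ (act A (er X)) (act A e3) : ℝ)| ≤ 12 * Q ^ 2 := by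
    have h1 := hstar (er X) e3 Q Q hqfr hqfe'
    rw [inner_er_e3, mul_zero, sub_zero] at h1
    rw [sq Q]
    exact h1
  have hqft : Real.sqrt (qf A (et X)) ≤ 3 := by
    rw [Real.sqrt_le_left (by norm_num)]
    have h1 := ((hQF A).1 (et X)).2
    rw [norm_et X hr, one_pow, mul_one] at h1
    have h2 : opn (cofm A) ^ 2 ≤ 3 ^ 2 := pow_le_pow_left₀ hN0.le a3 2
    linarith
  have hs4 : |(inner ℝ (act A (et X)) (act A (er X)) : ℝ)| ≤ 36 * Q := by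
    have h1 := hstar (et X) (er X) 3 Q hqft hqfr
    rw [inner_et_er, mul_zero, sub_zero] at h1
    linarith
  have hs5 : |(inner ℝ (act A (et X)) (act A e3) : ℝ)| ≤ 36 * Q := by
    have h1 := hstar (et X) e3 3 Q hqft hqfe'
    rw [inner_et_e3, mul_zero, sub_zero] at h1
    linarith
  have hact : ∀ v : E3, ‖v‖ = 1 → ‖act A v‖ ≤ 3 := by
    intro v hv
    have h1 := hBAS.1 A v
    rw [hv, mul_one] at h1
    linarith
  -- decomposition of `A er`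
  set w : E3 := (rad X)⁻¹ • ((act A X - Y) - X 2 • (act A e3 - e3)) with hw
  have hwn : ‖w‖ ≤ 4 * Q := by
    rw [hw, norm_smul, norm_inv, Real.norm_eq_abs, abs_of_pos hr, inv_mul_le_iff₀ hr]
    have h1 : ‖(act A X - Y) - X 2 • (act A e3 - e3)‖ ≤ 300 * D + 32 * (600 * D) := by
      refine (norm_sub_le _ _).trans (add_le_add c7 ?_)
      rw [norm_smul, Real.norm_eq_abs]
      exact mul_le_mul hX2 hq (norm_nonneg _) (by norm_num)
    have h2 : ρ * (4 * Q) ≤ rad X * (4 * Q) := mul_le_mul_of_nonneg_right hX.le (by positivity)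
    have h3 : ρ * (4 * Q) = 28000 * D := by linarith
    linarith
  have hu : act A (er X) = (rad Y / rad X) • er Y + ((Y 2 - X 2) / rad X) • e3 + w := by
    have h1 : act A (er X) = (rad X)⁻¹ • act A X + (-(X 2) / rad X) • act A e3 := by
      conv_lhs => rw [her]
      rw [act_comb]
    have h2 := decomp Y hrY
    rw [h1, hw]
    have h3 : (rad X)⁻¹ • Y = (rad X)⁻¹ • (rad Y • er Y + Y 2 • e3) := congrArg _ h2
    rw [smul_add, smul_smul, smul_smul] at h3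
    rw [smul_sub, smul_sub, h3, smul_smul, smul_sub]
    rw [show rad Y / rad X = (rad X)⁻¹ * rad Y by ring,
      show (Y 2 - X 2) / rad X = (rad X)⁻¹ * Y 2 - (rad X)⁻¹ * X 2 by ring,
      show -(X 2) / rad X = -((rad X)⁻¹ * X 2) by ring, neg_smul, sub_smul]
    abel
  have hQ1 : Q ≤ 1 / 10 := hDM
  obtain ⟨r1, r2, r3, r4, r5, r6, r7, r8⟩ := fin_comp (act A (er X)) (act A e3) (act A (et X))
    (er Y) e3 w (rad Y / rad X) ((Y 2 - X 2) / rad X) Q (tau A ^ 2) hQ0 hQ1 (norm_er Y hrY)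
    norm_e3 (inner_er_e3 Y) (by positivity) hu hwn (by linarith) (hact _ (norm_er X hr))
    (hact _ norm_e3) (hact _ (norm_et X hr)) hs1 hs2 hs3 hs4 hs5
  have hQδ : Q ^ 2 = M ^ 2 * δ := by rw [hQ, mul_pow, hD2]
  have hQδ0 : 0 ≤ Q ^ 2 := by positivity
  constructor
  · have h1 : gr A X Y + I * gz A X Y
        = ((((inner ℝ (er Y) (act A (er X)) : ℝ) - 1)
            - ((inner ℝ e3 (act A e3) : ℝ) - 1) : ℝ) : ℂ)
          + (((inner ℝ e3 (act A (er X)) : ℝ) + (inner ℝ (er Y) (act A e3) : ℝ) : ℝ) : ℂ) * I := by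
      unfold gr gz
      have hI : I * I = -1 := Complex.I_mul_I
      push_cast
      linear_combination (((inner ℝ e3 (act A e3) : ℝ) : ℂ) - 1) * hI
    rw [h1]
    have h2 := normSq_bd _ _ (500 * Q ^ 2) (50 * Q ^ 2) r1 r2
    have h3 : (500 * Q ^ 2) ^ 2 + (50 * Q ^ 2) ^ 2 ≤ (40000 * Q ^ 2) ^ 2 := by
      nlinarith [sq_nonneg (Q ^ 2)]
    have h4 : 40000 * M ^ 2 * δ = 40000 * Q ^ 2 := by rw [hQδ]; ring
    rw [h4]
    exact le_of_sq_le_sq (h2.trans h3) (by positivity)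
  · have h1 := normSq_bd _ _ (30 * Q) (30 * Q) r3 r4
    have h2 := normSq_bd _ _ (Q) (Q) r5 r6
    have h3 := normSq_bd _ _ (130 * Q) (130 * Q) r7 r8
    have h4 : 40000 * M ^ 2 * δ = 40000 * Q ^ 2 := by rw [hQδ]; ring
    rw [h4]
    have e1 : ‖gr A X Y‖ ^ 2 ≤ (30 * Q) ^ 2 + (30 * Q) ^ 2 := h1
    have e2 : ‖gz A X Y‖ ^ 2 ≤ Q ^ 2 + Q ^ 2 := h2
    have e3 : ‖gt A X Y‖ ^ 2 ≤ (130 * Q) ^ 2 + (130 * Q) ^ 2 := h3
    calc ‖gr A X Y‖ ^ 2 + ‖gz A X Y‖ ^ 2 + ‖gt A X Y‖ ^ 2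
        ≤ ((30 * Q) ^ 2 + (30 * Q) ^ 2) + (Q ^ 2 + Q ^ 2) + ((130 * Q) ^ 2 + (130 * Q) ^ 2) :=
          add_le_add (add_le_add e1 e2) e3
      _ = 35602 * Q ^ 2 := by ring
      _ ≤ 40000 * Q ^ 2 := by linarith

end Pool.Mart
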