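import Pool.Agent.Work.MP_680515_an.IfaceL

/-!
# MP_680515_an: block QF (helper9)

`qf` is a nonnegative quadratic form; its square root is a seminorm.
-/

open MeasureTheory Set Filter Topology Complex

namespace Pool.Mart

namespace QF_

theorem act_comb (M : M3) (v w : E3) (s t : ℝ) :
    act M (s • v + t • w) = s • act M v + t • act M w := by
  ext i
  simp [act, Matrix.mulVec_add, Matrix.mulVec_smul]

/-- the bilinear form -/
noncomputable def bf (A : M3) (v w : E3) : ℝ :=
  opn (cofm A) ^ 2 * inner ℝ v w - inner ℝ (act (cofm A) v) (act (cofm A) w)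

theorem qf_comb (A : M3) (v w : E3) (s t : ℝ) :
    qf A (s • v + t • w) = s ^ 2 * qf A v + 2 * s * t * bf A v w + t ^ 2 * qf A w := by
  have h1 : ∀ x y : E3, ‖s • x + t • y‖ ^ 2
      = s ^ 2 * ‖x‖ ^ 2 + 2 * s * t * inner ℝ x y + t ^ 2 * ‖y‖ ^ 2 := by
    intro x y
    rw [norm_add_sq_real, norm_smul, norm_smul, inner_smul_left, inner_smul_right, mul_pow,
      mul_pow, Real.norm_eq_abs, Real.norm_eq_abs, sq_abs, sq_abs]
    simp only [conj_trivial]
    ring
  unfold qf bf
  rw [act_comb, h1, h1]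
  ring

end QF_

open QF_ in
theorem stmt_QF (hBAS : Stmt_BAS) : Stmt_QF := by
  intro A
  have hpos : ∀ v : E3, 0 ≤ qf A v := by
    intro v
    have h1 := hBAS.1 (cofm A) v
    have h2 : ‖act (cofm A) v‖ ^ 2 ≤ (opn (cofm A) * ‖v‖) ^ 2 :=
      pow_le_pow_left₀ (norm_nonneg _) h1 2
    unfold qf
    rw [mul_pow] at h2
    linarith
  refine ⟨fun v => ⟨hpos v, ?_⟩, ?_⟩
  · unfold qf
    have h3 := sq_nonneg ‖act (cofm A) v‖
    linarith
  · intro v w s t
    -- Cauchy-Schwarz
    have hcs : bf A v w ^ 2 ≤ qf A v * qf A w := by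
      have hd : ∀ x : ℝ, 0 ≤ qf A w * (x * x) + 2 * bf A v w * x + qf A v := by
        intro x
        have h4 := hpos ((1 : ℝ) • v + x • w)
        rw [qf_comb] at h4
        nlinarith [h4]
      have h5 := discrim_le_zero hd
      unfold discrim at h5
      nlinarith [h5]
    have hv := hpos v
    have hw := hpos w
    have hsq : |bf A v w| ≤ Real.sqrt (qf A v) * Real.sqrt (qf A w) := by
      rw [← Real.sqrt_mul hv]
      exact Real.abs_le_sqrt hcs
    have hr : 0 ≤ |s| * Real.sqrt (qf A v) + |t| * Real.sqrt (qf A w) := by positivity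
    rw [Real.sqrt_le_left hr, qf_comb]
    have e1 : Real.sqrt (qf A v) ^ 2 = qf A v := Real.sq_sqrt hv
    have e2 : Real.sqrt (qf A w) ^ 2 = qf A w := Real.sq_sqrt hw
    have e3 : 2 * s * t * bf A v w ≤ 2 * (|s| * |t|) * |bf A v w| := by
      have h6 : s * t * bf A v w ≤ |s * t * bf A v w| := le_abs_self _
      rw [abs_mul, abs_mul] at h6
      linarith
    have e4 : 2 * (|s| * |t|) * |bf A v w|
        ≤ 2 * (|s| * |t|) * (Real.sqrt (qf A v) * Real.sqrt (qf A w)) :=
      mul_le_mul_of_nonneg_left hsq (by positivity)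
    have e5 : (|s| * Real.sqrt (qf A v) + |t| * Real.sqrt (qf A w)) ^ 2
        = s ^ 2 * qf A v + 2 * (|s| * |t|) * (Real.sqrt (qf A v) * Real.sqrt (qf A w))
          + t ^ 2 * qf A w := by
      rw [add_sq, mul_pow, mul_pow, e1, e2, sq_abs, sq_abs]
      ring
    rw [e5]
    linarith

end Pool.Mart
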