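import Pool.Agent.Work.MP_680515_an.IfaceA

/-!
RADF.  Radial functions and radial fields.
-/

open MeasureTheory Set Filter Topology

namespace Pool.Mart

namespace RADF42_

/-- Derivative of a radial function off the centre. -/
theorem hasFDerivAt_rad {g : ℝ → ℝ} {g' : ℝ} {q y : E3} (hy : y ≠ q)
    (hg : HasDerivAt g g' ‖y - q‖) :
    HasFDerivAt (fun y : E3 => g ‖y - q‖) ((g' * ‖y - q‖⁻¹) • innerSL ℝ (y - q)) y := by
  have hn : 0 < ‖y - q‖ := norm_pos_iff.2 (sub_ne_zero.2 hy)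
  have h1 : HasFDerivAt (fun y : E3 => y - q) (ContinuousLinearMap.id ℝ E3) y :=
    (hasFDerivAt_id y).sub_const q
  have h2 : HasFDerivAt (fun y : E3 => ‖y - q‖ ^ 2)
      (2 • (innerSL ℝ (y - q)).comp (ContinuousLinearMap.id ℝ E3)) y := h1.norm_sq
  have h3 : HasFDerivAt (fun y : E3 => Real.sqrt (‖y - q‖ ^ 2))
      ((1 / (2 * Real.sqrt (‖y - q‖ ^ 2))) • (2 • (innerSL ℝ (y - q)).comp
        (ContinuousLinearMap.id ℝ E3))) y :=
    HasFDerivAt.sqrt h2 (by positivity)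
  have h4 : (fun y : E3 => Real.sqrt (‖y - q‖ ^ 2)) = fun y : E3 => ‖y - q‖ := by
    funext z; exact Real.sqrt_sq (norm_nonneg _)
  rw [h4, Real.sqrt_sq (norm_nonneg _)] at h3
  have h5 := hg.comp_hasFDerivAt y h3
  refine h5.congr_fderiv ?_
  ext v
  simp only [_root_.smul_apply, ContinuousLinearMap.comp_apply, smul_eq_mul,
    ContinuousLinearMap.id_apply, nsmul_eq_mul, innerSL_apply_apply]
  field_simp
  norm_num

theorem contDiffAt_nrm {q y : E3} (hy : y ≠ q) : ContDiffAt ℝ 1 (fun y : E3 => ‖y - q‖) y :=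
  (contDiffAt_id.sub contDiffAt_const).norm ℝ (sub_ne_zero.2 hy)

/-- Divergence of a scalar multiple of `y - q`. -/
theorem divv_smul {c : E3 → ℝ} {c' : E3 →L[ℝ] ℝ} {q y : E3} (hc : HasFDerivAt c c' y) :
    divv (fun y : E3 => c y • (y - q)) y = c' (y - q) + 3 * c y := by
  have h1 : HasFDerivAt (fun y : E3 => y - q) (ContinuousLinearMap.id ℝ E3) y :=
    (hasFDerivAt_id y).sub_const q
  have h2 := hc.smul h1
  have hd : y - q = ∑ i : Fin 3, (y - q) i • (EuclideanSpace.single i 1 : E3) := by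
    ext i
    fin_cases i <;> simp [Fin.sum_univ_three]
  have h3 : c' (y - q) = ∑ i : Fin 3, (y - q) i * c' (EuclideanSpace.single i 1) := by
    conv_lhs => rw [hd]
    simp [map_sum]
  unfold divv
  have h4 : fderiv ℝ (fun y : E3 => c y • (y - q)) y = _ := h2.fderiv
  rw [h4, h3]
  simp only [Fin.sum_univ_three, _root_.add_apply, _root_.smul_apply,
    ContinuousLinearMap.id_apply, ContinuousLinearMap.smulRight_apply, PiLp.add_apply,
    PiLp.smul_apply, PiLp.single_apply, smul_eq_mul, if_true]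
  ring

theorem divv_rad {g : ℝ → ℝ} {g' : ℝ} {q y : E3} (hy : y ≠ q) (hg : HasDerivAt g g' ‖y - q‖) :
    divv (fun y : E3 => g ‖y - q‖ • (y - q)) y = g' * ‖y - q‖ + 3 * g ‖y - q‖ := by
  have hn : 0 < ‖y - q‖ := norm_pos_iff.2 (sub_ne_zero.2 hy)
  rw [divv_smul (hasFDerivAt_rad hy hg)]
  simp only [_root_.smul_apply, smul_eq_mul, innerSL_apply_apply,
    real_inner_self_eq_norm_sq]
  field_simp

theorem gradv_rad {g : ℝ → ℝ} {g' : ℝ} {q y : E3} (hy : y ≠ q) (hg : HasDerivAt g g' ‖y - q‖) :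
    gradv (fun y : E3 => g ‖y - q‖) y = g' • (‖y - q‖⁻¹ • (y - q)) := by
  ext j
  simp only [gradv]
  rw [(hasFDerivAt_rad hy hg).fderiv]
  simp only [_root_.smul_apply, smul_eq_mul, innerSL_apply_apply,
    PiLp.smul_apply, PiLp.sub_apply]
  rw [EuclideanSpace.inner_single_right]
  simp
  ring

/-- A radial function supported off the centre vanishes near the centre. -/
theorem ev_zero {η : ℝ → ℝ} {p : E3} {r1 R : ℝ} (hr : 0 ≤ r1) (hs : tsupport η ⊆ Ioo r1 R) :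
    (fun x : E3 => η ‖x - p‖) =ᶠ[𝓝 p] fun _ => 0 := by
  have h0 : (0 : ℝ) ∉ tsupport η := fun h => absurd (hs h).1 (not_lt.2 hr)
  have h1 : (tsupport η)ᶜ ∈ 𝓝 ‖p - p‖ := by
    rw [sub_self, norm_zero]
    exact (isClosed_tsupport η).isOpen_compl.mem_nhds h0
  have hc : ContinuousAt (fun x : E3 => ‖x - p‖) p :=
    (continuous_norm.comp (continuous_id.sub continuous_const)).continuousAt
  filter_upwards [hc.preimage_mem_nhds h1] with x hx
  exact image_eq_zero_of_notMem_tsupport hx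

theorem part1 (η : ℝ → ℝ) (p : E3) (r1 R : ℝ) (hr : 0 ≤ r1) (hη : ContDiff ℝ 1 η)
    (hs : tsupport η ⊆ Ioo r1 R) :
    ContDiff ℝ 1 (fun x : E3 => η ‖x - p‖) ∧ HasCompactSupport (fun x : E3 => η ‖x - p‖) ∧
    tsupport (fun x : E3 => η ‖x - p‖) ⊆ {x | r1 < ‖x - p‖ ∧ ‖x - p‖ < R} ∧
    ∀ x : E3, gradv (fun x : E3 => η ‖x - p‖) x = deriv η ‖x - p‖ • (‖x - p‖⁻¹ • (x - p)) := by
  have hts : tsupport (fun x : E3 => η ‖x - p‖) ⊆ {x | r1 < ‖x - p‖ ∧ ‖x - p‖ < R} := by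
    have hcl : IsClosed ((fun x : E3 => ‖x - p‖) ⁻¹' tsupport η) :=
      (isClosed_tsupport η).preimage (continuous_norm.comp (continuous_id.sub continuous_const))
    have h1 : tsupport (fun x : E3 => η ‖x - p‖) ⊆ (fun x : E3 => ‖x - p‖) ⁻¹' tsupport η := by
      refine closure_minimal (fun x hx => ?_) hcl
      exact subset_tsupport η hx
    exact fun x hx => hs (h1 hx)
  refine ⟨?_, ?_, hts, ?_⟩
  · rw [contDiff_iff_contDiffAt]
    intro x
    rcases eq_or_ne x p with rfl | hx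
    · exact contDiffAt_const.congr_of_eventuallyEq (ev_zero hr hs)
    · exact hη.contDiffAt.comp x (contDiffAt_nrm hx)
  · refine HasCompactSupport.intro (isCompact_closedBall p R) fun x hx => ?_
    by_contra h
    have h2 := hts (subset_tsupport _ (Function.mem_support.2 h))
    apply hx
    rw [Metric.mem_closedBall, dist_eq_norm]
    exact h2.2.le
  · intro x
    rcases eq_or_ne x p with rfl | hx
    · rw [sub_self, smul_zero, smul_zero]
      have h1 : fderiv ℝ (fun z : E3 => η ‖z - x‖) x = 0 := by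
        rw [(ev_zero hr hs).fderiv_eq]
        simp
      ext j
      simp only [gradv, h1]
      simp
    · exact gradv_rad hx ((hη.differentiable (by norm_num)) _).hasDerivAt

theorem part2 (q : E3) : ContDiffOn ℝ 1 (fun y : E3 => (‖y - q‖ ^ 3)⁻¹ • (y - q)) {q}ᶜ ∧
    ContDiffOn ℝ 1 (fun y : E3 => (Real.log ‖y - q‖ * (‖y - q‖ ^ 3)⁻¹) • (y - q)) {q}ᶜ ∧
    ∀ y : E3, y ≠ q → divv (fun y : E3 => (‖y - q‖ ^ 3)⁻¹ • (y - q)) y = 0 ∧
      divv (fun y : E3 => (Real.log ‖y - q‖ * (‖y - q‖ ^ 3)⁻¹) • (y - q)) y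
        = (‖y - q‖ ^ 3)⁻¹ := by
  have hinv : ∀ y : E3, y ≠ q → ContDiffAt ℝ 1 (fun y : E3 => (‖y - q‖ ^ 3)⁻¹) y := by
    intro y hy
    have hn : ‖y - q‖ ^ 3 ≠ 0 := pow_ne_zero _ (norm_ne_zero_iff.2 (sub_ne_zero.2 hy))
    exact ((contDiffAt_nrm hy).pow 3).inv hn
  have hid : ∀ y : E3, ContDiffAt ℝ 1 (fun y : E3 => y - q) y := fun y =>
    contDiffAt_id.sub contDiffAt_const
  refine ⟨fun y hy => ?_, fun y hy => ?_, fun y hy => ⟨?_, ?_⟩⟩
  · exact ((hinv y hy).smul (hid y)).contDiffWithinAt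
  · have hn : ‖y - q‖ ≠ 0 := norm_ne_zero_iff.2 (sub_ne_zero.2 hy)
    exact ((((contDiffAt_nrm hy).log hn).mul (hinv y hy)).smul (hid y)).contDiffWithinAt
  · have hn : 0 < ‖y - q‖ := norm_pos_iff.2 (sub_ne_zero.2 hy)
    have hd : HasDerivAt (fun r : ℝ => (r ^ 3)⁻¹)
        (-(((3 : ℕ) : ℝ) * ‖y - q‖ ^ (3 - 1)) / (‖y - q‖ ^ 3) ^ 2) ‖y - q‖ :=
      (hasDerivAt_pow 3 ‖y - q‖).inv (by positivity)
    have := divv_rad hy hd
    rw [this]
    field_simp
    norm_num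
    ring
  · have hn : 0 < ‖y - q‖ := norm_pos_iff.2 (sub_ne_zero.2 hy)
    have hd : HasDerivAt (fun r : ℝ => (r ^ 3)⁻¹)
        (-(((3 : ℕ) : ℝ) * ‖y - q‖ ^ (3 - 1)) / (‖y - q‖ ^ 3) ^ 2) ‖y - q‖ :=
      (hasDerivAt_pow 3 ‖y - q‖).inv (by positivity)
    have hl : HasDerivAt Real.log (‖y - q‖)⁻¹ ‖y - q‖ := Real.hasDerivAt_log hn.ne'
    have hm := hl.mul hd
    have hm' : HasDerivAt (fun r : ℝ => Real.log r * (r ^ 3)⁻¹) _ ‖y - q‖ := hm
    have := divv_rad hy hm'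
    rw [this]
    field_simp
    push_cast
    ring

theorem part3 (y q : E3) : divv (fun y : E3 => y - q) y = 3 := by
  have h : (fun y : E3 => y - q) = fun y : E3 => (fun _ : E3 => (1 : ℝ)) y • (y - q) := by
    funext z; simp
  rw [h, divv_smul (hasFDerivAt_const (1 : ℝ) y)]
  simp

end RADF42_

theorem stmt_RADF : Stmt_RADF :=
  ⟨fun η p r1 R hr hη _ hs => RADF42_.part1 η p r1 R hr hη hs, RADF42_.part2, RADF42_.part3⟩

end Pool.Mart
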