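import Pool.Agent.Work.MP_680515_an.IfaceH

/-!
# MP_680515_an, block RADS: choice of a radius with prescribed `lam r`
-/

open MeasureTheory Set Filter Topology Complex

namespace Pool.Mart

theorem stmt_RADS (hSCMP : Stmt_SCMP) : Stmt_RADS := by
  intro ε g x y0 r0 r1 lam1 O1 b1 hε0 hε hNS hy0 hr1 hr10 h1 σ hσ hσ1
  by_contra hcon
  push Not at hcon
  have key : ∀ k : ℕ, ∃ (lam : ℝ) (O : M3) (b : E3), SimAp ε g y0 (r1 / 2 ^ k) lam O b ∧
      σ ≤ lam * (r1 / 2 ^ k) ∧ lam * (r1 / 2 ^ k) ≤ (11 / 20) ^ k * (lam1 * r1) := by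
    intro k
    induction k with
    | zero => exact ⟨lam1, O1, b1, by simpa using h1, by simpa using hσ1, by simp⟩
    | succ k ih =>
      obtain ⟨lam, O, b, hS, hlo, hup⟩ := ih
      have h2k : (0 : ℝ) < 2 ^ k := by positivity
      have h2k1 : (1 : ℝ) ≤ 2 ^ k := one_le_pow₀ (by norm_num)
      have hrk : 0 < r1 / 2 ^ k := by positivity
      have hrk1 : r1 / 2 ^ k ≤ r1 := div_le_self hr1.le h2k1
      have hhalf : r1 / 2 ^ (k + 1) = (r1 / 2 ^ k) / 2 := by
        rw [pow_succ]; field_simp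
      have h3 : 3 * σ < lam * (r1 / 2 ^ k) := hcon _ _ _ _ hrk hrk1 hS hlo
      rw [hhalf]
      set r := r1 / 2 ^ k with hr
      obtain ⟨lam', O', b', hS'⟩ := hNS y0 hy0 (r / 2) (by linarith) (by linarith)
      have hc := hSCMP ε g y0 y0 r (r / 2) lam lam' O O' b b' hε0 hε hS hS' (by linarith)
        (by linarith) (by linarith) (Metric.ball_subset_ball (by linarith))
      have hl : 0 < lam := hS.pos
      have hc2 : 10 * ε * lam ≤ lam / 10 := by
        have : ε * lam ≤ 1 / 100 * lam := mul_le_mul_of_nonneg_right hε hl.le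
        linarith
      rw [abs_le] at hc
      have ha : 9 / 10 * lam ≤ lam' := by linarith [hc.1]
      have hb : lam' ≤ 11 / 10 * lam := by linarith [hc.2]
      refine ⟨lam', O', b', hS', ?_, ?_⟩
      · have : 9 / 10 * lam * (r / 2) ≤ lam' * (r / 2) :=
          mul_le_mul_of_nonneg_right ha (by linarith)
        linarith
      · have h4 : lam' * (r / 2) ≤ 11 / 10 * lam * (r / 2) :=
          mul_le_mul_of_nonneg_right hb (by linarith)
        rw [pow_succ]
        linarith
  have hlim : Tendsto (fun k : ℕ => (11 / 20 : ℝ) ^ k * (lam1 * r1)) atTop (𝓝 0) := by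
    have := (tendsto_pow_atTop_nhds_zero_of_lt_one (by norm_num : (0 : ℝ) ≤ 11 / 20)
      (by norm_num)).mul_const (lam1 * r1)
    simpa using this
  obtain ⟨k, hk⟩ := (hlim.eventually (gt_mem_nhds hσ)).exists
  obtain ⟨lam, O, b, -, hlo, hup⟩ := key k
  linarith

end Pool.Mart
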