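import Pool.Agent.Work.MP_680515_an.IfaceM

/-!
# MP_680515_an: block RENC (helper2)
-/

open MeasureTheory Set Filter Topology Complex

namespace Pool.Mart.RENC_

lemma so_mul {O : M3} (hO : O ∈ Matrix.specialOrthogonalGroup (Fin 3) ℝ) :
    O * O.transpose = 1 ∧ O.transpose * O = 1 := by
  have h := (Matrix.mem_specialOrthogonalGroup_iff.mp hO).1
  have h1 : O * O.transpose = 1 := by
    have := (Matrix.mem_orthogonalGroup_iff (A := O)).1 h
    simpa [Matrix.star_eq_conjTranspose] using this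
  have h2 : O.transpose * O = 1 := by
    have := (Matrix.mem_orthogonalGroup_iff' (A := O)).1 h
    simpa [Matrix.star_eq_conjTranspose] using this
  exact ⟨h1, h2⟩

lemma act_apply (M : M3) (v : E3) (i : Fin 3) :
    act M v i = M i 0 * v 0 + M i 1 * v 1 + M i 2 * v 2 := by
  have : act M v i = (M.mulVec v.ofLp) i := rfl
  rw [this, Matrix.mulVec, dotProduct, Fin.sum_univ_three]

lemma tr_apply (M : M3) (i j : Fin 3) : M.transpose i j = M j i := rfl

lemma e3_0 : e3 0 = 0 := by simp [e3]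
lemma e3_1 : e3 1 = 0 := by simp [e3]
lemma e3_2 : e3 2 = 1 := by simp [e3]

lemma act_e3 (M : M3) (i : Fin 3) : act M e3 i = M i 2 := by
  rw [act_apply, e3_0, e3_1, e3_2]; ring

lemma norm_eq (v : E3) : ‖v‖ = Real.sqrt (v 0 ^ 2 + v 1 ^ 2 + v 2 ^ 2) := by
  rw [EuclideanSpace.norm_eq, Fin.sum_univ_three]
  simp only [Real.norm_eq_abs, sq_abs]

lemma inner_eq (v w : E3) : inner ℝ v w = v 0 * w 0 + v 1 * w 1 + v 2 * w 2 := by
  rw [PiLp.inner_apply, Fin.sum_univ_three]
  simp only [RCLike.inner_apply, conj_trivial]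
  ring

lemma rows {O : M3} (hO : O ∈ Matrix.specialOrthogonalGroup (Fin 3) ℝ) (i j : Fin 3) :
    O i 0 * O j 0 + O i 1 * O j 1 + O i 2 * O j 2 = if i = j then 1 else 0 := by
  have h := congrFun (congrFun (so_mul hO).1 i) j
  rw [Matrix.mul_apply, Fin.sum_univ_three, Matrix.one_apply] at h
  exact h

lemma cols {O : M3} (hO : O ∈ Matrix.specialOrthogonalGroup (Fin 3) ℝ) (i j : Fin 3) :
    O 0 i * O 0 j + O 1 i * O 1 j + O 2 i * O 2 j = if i = j then 1 else 0 := by
  have h := congrFun (congrFun (so_mul hO).2 i) j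
  rw [Matrix.mul_apply, Fin.sum_univ_three, Matrix.one_apply] at h
  exact h

lemma norm_act {O : M3} (hO : O ∈ Matrix.specialOrthogonalGroup (Fin 3) ℝ) (v : E3) :
    ‖act O v‖ = ‖v‖ := by
  rw [norm_eq, norm_eq, act_apply, act_apply, act_apply]
  congr 1
  have h00 := cols hO 0 0
  have h11 := cols hO 1 1
  have h22 := cols hO 2 2
  have h01 := cols hO 0 1
  have h02 := cols hO 0 2
  have h12 := cols hO 1 2
  simp only [if_true, Fin.isValue, if_neg (show ¬ ((0 : Fin 3) = 1) by decide),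
    if_neg (show ¬ ((0 : Fin 3) = 2) by decide), if_neg (show ¬ ((1 : Fin 3) = 2) by decide)]
    at h00 h11 h22 h01 h02 h12
  linear_combination v 0 ^ 2 * h00 + v 1 ^ 2 * h11 + v 2 ^ 2 * h22 + 2 * v 0 * v 1 * h01
    + 2 * v 0 * v 2 * h02 + 2 * v 1 * v 2 * h12

lemma norm_act_tr {O : M3} (hO : O ∈ Matrix.specialOrthogonalGroup (Fin 3) ℝ) (v : E3) :
    ‖act O.transpose v‖ = ‖v‖ := by
  rw [norm_eq, norm_eq, act_apply, act_apply, act_apply]
  simp only [tr_apply]
  congr 1
  have h00 := rows hO 0 0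
  have h11 := rows hO 1 1
  have h22 := rows hO 2 2
  have h01 := rows hO 0 1
  have h02 := rows hO 0 2
  have h12 := rows hO 1 2
  simp only [if_true, Fin.isValue, if_neg (show ¬ ((0 : Fin 3) = 1) by decide),
    if_neg (show ¬ ((0 : Fin 3) = 2) by decide), if_neg (show ¬ ((1 : Fin 3) = 2) by decide)]
    at h00 h11 h22 h01 h02 h12
  linear_combination v 0 ^ 2 * h00 + v 1 ^ 2 * h11 + v 2 ^ 2 * h22 + 2 * v 0 * v 1 * h01
    + 2 * v 0 * v 2 * h02 + 2 * v 1 * v 2 * h12

lemma act_sub (M : M3) (a b : E3) : act M (a - b) = act M a - act M b := by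
  simp [act, Matrix.mulVec_sub]

lemma act_add (M : M3) (a b : E3) : act M (a + b) = act M a + act M b := by
  simp [act, Matrix.mulVec_add]

lemma act_smul (M : M3) (c : ℝ) (a : E3) : act M (c • a) = c • act M a := by
  simp [act, Matrix.mulVec_smul]

lemma act_act (M N : M3) (v : E3) : act M (act N v) = act (M * N) v := by
  simp [act, Matrix.mulVec_mulVec]

lemma act_one (v : E3) : act 1 v = v := by
  simp [act]

lemma act_tr {O : M3} (hO : O ∈ Matrix.specialOrthogonalGroup (Fin 3) ℝ) (v : E3) :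
    act O.transpose (act O v) = v := by
  rw [act_act, (so_mul hO).2, act_one]

lemma tr2 (S : M3) (v : E3) : act S.transpose v 2 = inner ℝ v (act S e3) := by
  rw [inner_eq, act_e3, act_e3, act_e3, act_apply]
  simp only [tr_apply]
  ring

lemma rad_sq (X : E3) : rad X ^ 2 = X 0 ^ 2 + X 1 ^ 2 := Real.sq_sqrt (by positivity)

lemma rad_nonneg (X : E3) : 0 ≤ rad X := Real.sqrt_nonneg _

lemma rad_le_norm (X : E3) : rad X ≤ ‖X‖ := by
  rw [norm_eq]
  unfold rad
  exact Real.sqrt_le_sqrt (by nlinarith [sq_nonneg (X 2)])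

lemma cs2 (a b c d : ℝ) : |a * c + b * d| ≤ Real.sqrt (a ^ 2 + b ^ 2) * Real.sqrt (c ^ 2 + d ^ 2) := by
  rw [← Real.sqrt_mul (by positivity)]
  refine Real.abs_le_sqrt ?_
  nlinarith [sq_nonneg (a * d - b * c)]

lemma rad_add (x y : E3) : rad (x + y) ≤ rad x + rad y := by
  have h0 : 0 ≤ rad x + rad y := add_nonneg (rad_nonneg x) (rad_nonneg y)
  refine le_of_sq_le_sq' ?_ h0
  have hc := cs2 (x 0) (x 1) (y 0) (y 1)
  have hc' : x 0 * y 0 + x 1 * y 1 ≤ rad x * rad y := le_trans (le_abs_self _) hc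
  rw [add_sq, rad_sq, rad_sq, rad_sq]
  have e0 : (x + y) 0 = x 0 + y 0 := rfl
  have e1 : (x + y) 1 = x 1 + y 1 := rfl
  rw [e0, e1]
  nlinarith [hc']
where
  le_of_sq_le_sq' {x y : ℝ} (h : x ^ 2 ≤ y ^ 2) (hy : 0 ≤ y) : x ≤ y :=
    le_trans (le_abs_self x) (by
      have := sq_le_sq.mp h
      rwa [abs_of_nonneg hy] at this)

lemma rad_smul (c : ℝ) (x : E3) : rad (c • x) = |c| * rad x := by
  unfold rad
  have h : (c • x) 0 ^ 2 + (c • x) 1 ^ 2 = c ^ 2 * (x 0 ^ 2 + x 1 ^ 2) := by
    simp only [PiLp.smul_apply, smul_eq_mul]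
    ring
  rw [h, Real.sqrt_mul (sq_nonneg c), Real.sqrt_sq_eq_abs]

end Pool.Mart.RENC_

namespace Pool.Mart

open RENC_ in
theorem stmt_RENC (hCHV : Stmt_CHV) (hROT : Stmt_ROT) : Stmt_RENC := by
  intro S v hS
  refine ⟨?_, tr2 S v, norm_act_tr hS v, ?_, ?_⟩
  · have h1 : act S.transpose (v - (inner ℝ v (act S e3)) • act S e3)
        = act S.transpose v - (inner ℝ v (act S e3)) • e3 := by
      rw [act_sub, act_smul, act_tr hS]
    rw [← norm_act_tr hS (v - (inner ℝ v (act S e3)) • act S e3), h1, norm_eq]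
    unfold rad
    have e0 : (act S.transpose v - (inner ℝ v (act S e3)) • e3) 0 = act S.transpose v 0 := by
      have : (act S.transpose v - (inner ℝ v (act S e3)) • e3) 0
        = act S.transpose v 0 - (inner ℝ v (act S e3)) * e3 0 := rfl
      rw [this, e3_0]; ring
    have e1 : (act S.transpose v - (inner ℝ v (act S e3)) • e3) 1 = act S.transpose v 1 := by
      have : (act S.transpose v - (inner ℝ v (act S e3)) • e3) 1
        = act S.transpose v 1 - (inner ℝ v (act S e3)) * e3 1 := rfl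
      rw [this, e3_1]; ring
    have e2 : (act S.transpose v - (inner ℝ v (act S e3)) • e3) 2 = 0 := by
      have : (act S.transpose v - (inner ℝ v (act S e3)) • e3) 2
        = act S.transpose v 2 - (inner ℝ v (act S e3)) * e3 2 := rfl
      rw [this, e3_2, tr2]; ring
    rw [e0, e1, e2]
    congr 1
    ring
  · have h1 : act S v 2 - act S e3 2 * v 2 = S 2 0 * v 0 + S 2 1 * v 1 := by
      rw [act_e3, act_apply]; ring
    rw [h1]
    have hr := rows hS 2 2
    have hc := cols hS 2 2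
    simp only [if_true] at hr hc
    have h2 : rad (act S e3) = Real.sqrt (S 2 0 ^ 2 + S 2 1 ^ 2) := by
      unfold rad
      rw [act_e3, act_e3]
      congr 1
      nlinarith [hr, hc]
    rw [h2]
    exact cs2 _ _ _ _
  · have h1 : v = (v 2) • e3 + (v - (v 2) • e3) := by abel
    have h2 : act S v = (v 2) • act S e3 + act S (v - (v 2) • e3) := by
      conv_lhs => rw [h1]
      rw [act_add, act_smul]
    have h3 : ‖v - (v 2) • e3‖ = rad v := by
      rw [norm_eq]
      unfold rad
      have e0 : (v - (v 2) • e3) 0 = v 0 := by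
        have : (v - (v 2) • e3) 0 = v 0 - v 2 * e3 0 := rfl
        rw [this, e3_0]; ring
      have e1 : (v - (v 2) • e3) 1 = v 1 := by
        have : (v - (v 2) • e3) 1 = v 1 - v 2 * e3 1 := rfl
        rw [this, e3_1]; ring
      have e2 : (v - (v 2) • e3) 2 = 0 := by
        have : (v - (v 2) • e3) 2 = v 2 - v 2 * e3 2 := rfl
        rw [this, e3_2]; ring
      rw [e0, e1, e2]
      congr 1
      ring
    rw [h2]
    refine (rad_add _ _).trans ?_
    rw [rad_smul]
    have h4 : rad (act S (v - (v 2) • e3)) ≤ rad v := by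
      refine (rad_le_norm _).trans ?_
      rw [norm_act hS, h3]
    linarith

end Pool.Mart
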