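import Pool.Agent.Work.MP_680515_an.IfaceM

/-!
# MP_680515_an: block RENS (helper84)

Renormalisation of systems.
-/

open MeasureTheory Set Filter Topology Complex

namespace Pool.Mart

namespace RENS_

theorem act_mul (M N : M3) (v : E3) : act (M * N) v = act M (act N v) := by
  unfold act
  rw [Matrix.mulVec_mulVec]

theorem act_add (M : M3) (v w : E3) : act M (v + w) = act M v + act M w := by
  ext i
  simp [act, Matrix.mulVec_add]

theorem act_smul (M : M3) (c : ℝ) (v : E3) : act M (c • v) = c • act M v := by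
  ext i
  simp [act, Matrix.mulVec_smul]

theorem act_sub (M : M3) (v w : E3) : act M (v - w) = act M v - act M w := by
  ext i
  simp [act, Matrix.mulVec_sub]

theorem act_one (v : E3) : act 1 v = v := by
  ext i
  simp [act]

theorem tr_mem {O : M3} (h : O ∈ Matrix.specialOrthogonalGroup (Fin 3) ℝ) :
    O.transpose ∈ Matrix.specialOrthogonalGroup (Fin 3) ℝ := by
  rw [Matrix.mem_specialOrthogonalGroup_iff, Matrix.mem_orthogonalGroup_iff] at h ⊢
  refine ⟨?_, by rw [Matrix.det_transpose]; exact h.2⟩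
  have h3 : O * O.transpose = 1 := h.1
  change O.transpose * O.transpose.transpose = 1
  rw [Matrix.transpose_transpose]
  exact mul_eq_one_comm.1 h3

theorem norm_e3 : ‖e3‖ = 1 := by
  unfold e3
  simp

end RENS_

open RENS_ in
theorem stmt_RENS (hCHV : Stmt_CHV) : Stmt_RENS := by
  intro ε Ω f γ O O' _ _ hP t ht n t' ht' n'
  have hO := hP.so t ht n
  have hO' := hP.so' t ht n
  have hQ := hP.so t' ht' n'
  have hQ' := hP.so' t' ht' n'
  set L := len γ t n with hL
  set L' := len (f ∘ γ) t n with hL'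
  set l := len γ t' n' with hl
  set l' := len (f ∘ γ) t' n' with hl'
  have pL : 0 < L := hP.pos t ht n
  have pL' : 0 < L' := hP.pos' t ht n
  have pl : 0 < l := hP.pos t' ht' n'
  have pl' : 0 < l' := hP.pos' t' ht' n'
  have b1 := hP.base t' ht' n'
  have b2 := hP.base' t' ht' n'
  rw [← hl] at b1
  rw [← hl'] at b2
  -- facts about rotations
  have key : ∀ M : M3, M ∈ Matrix.specialOrthogonalGroup (Fin 3) ℝ →
      (∀ v : E3, ‖act M v‖ = ‖v‖) ∧ (∀ v : E3, act M (act M.transpose v) = v) ∧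
      (∀ v : E3, act M.transpose (act M v) = v) := by
    intro M hM
    obtain ⟨-, h1, h2, h3, -⟩ := hCHV (fun _ => 0) 0 1 M one_pos hM
    exact ⟨h1, h2, h3⟩
  obtain ⟨o1, o2, o3⟩ := key _ hO
  obtain ⟨o1', o2', o3'⟩ := key _ hO'
  obtain ⟨q1, q2, q3⟩ := key _ hQ
  obtain ⟨q1', q2', q3'⟩ := key _ hQ'
  obtain ⟨r1, -, -⟩ := key _ (tr_mem hO)
  obtain ⟨r1', -, -⟩ := key _ (tr_mem hO')
  intro F x0 x1 S S'
  have hS : S = (O t n).transpose * O t' n' := rfl
  have hS' : S' = (O' t n).transpose * O' t' n' := rfl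
  have e0 : x0 = L⁻¹ • act (O t n).transpose (γ t' - γ t) := rfl
  have e1 : x1 = L⁻¹ • act (O t n).transpose (γ (t' + sc n') - γ t) := rfl
  have hF : ∀ X, F X = L'⁻¹ • act (O' t n).transpose (f (γ t + L • act (O t n) X) - f (γ t)) :=
    fun X => rfl
  -- difference of the base points
  have d1 : x1 - x0 = (l / L) • act S e3 := by
    rw [e0, e1, ← smul_sub, ← act_sub, sub_sub_sub_cancel_right, b1, act_smul, smul_smul, hS,
      act_mul]
    congr 1
    rw [div_eq_inv_mul]
  have nS : ‖act S e3‖ = 1 := by rw [hS, act_mul, r1, q1, norm_e3]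
  have nS' : ‖act S' e3‖ = 1 := by rw [hS', act_mul, r1', q1', norm_e3]
  have n1 : ‖x1 - x0‖ = l / L := by
    rw [d1, norm_smul, nS, mul_one, Real.norm_of_nonneg (by positivity)]
  have x0' : γ t + L • act (O t n) x0 = γ t' := by
    rw [e0, act_smul, o2, smul_smul, mul_inv_cancel₀ pL.ne', one_smul]
    abel
  have x1' : γ t + L • act (O t n) x1 = γ (t' + sc n') := by
    rw [e1, act_smul, o2, smul_smul, mul_inv_cancel₀ pL.ne', one_smul]
    abel
  have d2 : F x1 - F x0 = (l' / L') • act S' e3 := by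
    rw [hF, hF, x0', x1', ← smul_sub, ← act_sub, sub_sub_sub_cancel_right]
    have b3 : f (γ (t' + sc n')) - f (γ t') = l' • act (O' t' n') e3 := b2
    rw [b3, act_smul, smul_smul, hS', act_mul]
    congr 1
    rw [div_eq_inv_mul]
  have n2 : ‖F x1 - F x0‖ = l' / L' := by
    rw [d2, norm_smul, nS', mul_one, Real.norm_of_nonneg (by positivity)]
  have pts : ∀ Y, γ t' + l • act (O t' n') Y
      = γ t + L • act (O t n) (x0 + ‖x1 - x0‖ • act S Y) := by
    intro Y
    rw [act_add, smul_add, ← add_assoc, x0', n1, act_smul, hS, act_mul, o2, smul_smul,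
      mul_div_cancel₀ _ pL.ne']
  refine ⟨n1, n2, ?_, mul_mem (tr_mem hO) hQ, mul_mem (tr_mem hO') hQ', ?_, ?_, pts⟩
  · intro Y
    unfold ren
    rw [n2, hF (x0 + ‖x1 - x0‖ • act S Y), ← pts Y, hF x0, x0', ← smul_sub, ← act_sub,
      sub_sub_sub_cancel_right, act_smul, hS', Matrix.transpose_mul, Matrix.transpose_transpose,
      act_mul, o2', smul_smul]
    unfold nF
    rw [← hl, ← hl']
    congr 1
    field_simp
  · rw [n1]; exact d1
  · rw [n2]; exact d2

end Pool.Mart
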