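import Pool.Agent.Work.MP_680515_an.IfaceS

/-!
# MP_680515_an, block RFL: reflection at the axis
-/

open MeasureTheory Set Filter Topology Complex

namespace Pool.Mart

namespace RFL_

/-- The reflection as a linear isometry equivalence. -/
noncomputable def ref : ℂ ≃ₗᵢ[ℝ] ℂ := Complex.conjLIE.trans (LinearIsometryEquiv.neg ℝ)

theorem ref_apply (ζ : ℂ) : ref ζ = -(starRingEnd ℂ) ζ := by
  simp [ref]

theorem integral_ref (F : ℂ → ℂ) : ∫ ζ, F (-(starRingEnd ℂ) ζ) = ∫ ζ, F ζ := by
  have h := (ref.measurePreserving).integral_comp ref.toHomeomorph.measurableEmbedding F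
  rw [← h]
  refine integral_congr_ae (Eventually.of_forall fun ζ => ?_)
  simp only [ref_apply]

theorem conj_smooth : ContDiff ℝ (⊤ : ℕ∞) (fun ζ : ℂ => (starRingEnd ℂ) ζ) :=
  Complex.conjCLE.contDiff

theorem nconj_smooth : ContDiff ℝ (⊤ : ℕ∞) (fun ζ : ℂ => -(starRingEnd ℂ) ζ) :=
  conj_smooth.neg

theorem tsupp (g : ℂ → ℂ) (ζ : ℂ) (hζ : ζ ∈ tsupport (rfl' g)) :
    -(starRingEnd ℂ) ζ ∈ tsupport g := by
  have h1 : Function.support (rfl' g) ⊆ (fun ζ : ℂ => -(starRingEnd ℂ) ζ) ⁻¹' tsupport g := by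
    intro w hw
    have : g (-(starRingEnd ℂ) w) ≠ 0 := by
      intro h0
      exact hw (by simp [rfl', h0])
    exact subset_tsupport g this
  have h2 : IsClosed ((fun ζ : ℂ => -(starRingEnd ℂ) ζ) ⁻¹' tsupport g) :=
    (isClosed_tsupport g).preimage nconj_smooth.continuous
  exact closure_minimal h1 h2 hζ

end RFL_

open RFL_ in
theorem stmt_RFL : Stmt_RFL := by
  intro g hg hc
  refine ⟨?_, ?_, ?_, ?_, ?_⟩
  · exact conj_smooth.comp (hg.comp nconj_smooth)
  · have h1 : HasCompactSupport (g ∘ ref.toHomeomorph) := hc.comp_homeomorph _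
    have h2 : HasCompactSupport ((fun z : ℂ => (starRingEnd ℂ) z) ∘ (g ∘ ref.toHomeomorph)) :=
      h1.comp_left (by simp)
    have h3 : ((fun z : ℂ => (starRingEnd ℂ) z) ∘ (g ∘ ref.toHomeomorph)) = rfl' g := by
      funext ζ
      simp [rfl', ref_apply]
    rwa [h3] at h2
  · exact fun ζ hζ => tsupp g ζ hζ
  · intro ζ
    have h1 : ∫ w, rfl' g w / (ζ - w)
        = ∫ w, (starRingEnd ℂ) (g w) / (ζ + (starRingEnd ℂ) w) := by
      rw [← integral_ref (fun w => (starRingEnd ℂ) (g w) / (ζ + (starRingEnd ℂ) w))]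
      refine integral_congr_ae (Eventually.of_forall fun w => ?_)
      simp only [rfl', map_neg, Complex.conj_conj]
      ring
    have h2 : (starRingEnd ℂ) (∫ w, g w / (-(starRingEnd ℂ) ζ - w))
        = - ∫ w, (starRingEnd ℂ) (g w) / (ζ + (starRingEnd ℂ) w) := by
      rw [← integral_conj, ← integral_neg]
      refine integral_congr_ae (Eventually.of_forall fun w => ?_)
      simp only [map_div₀, map_sub, map_neg, Complex.conj_conj]
      rw [← div_neg]
      congr 1
      ring
    unfold cT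
    rw [h1, map_mul, h2, Complex.conj_ofReal]
    ring
  · exact integral_ref

end Pool.Mart
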