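import Pool.Agent.Work.MP_680515_an.IfaceA
import Pool.Agent.Work.MP_680515_an.B.WGT

/-!
# MP_680515_an: block RING (integrated identity between two scales)
-/

open MeasureTheory Set Filter Topology Complex

namespace Pool.Mart

namespace RING_

abbrev SO3 : Submonoid M3 := Matrix.specialOrthogonalGroup (Fin 3) ℝ

theorem act_add (M : M3) (v w : E3) : act M (v + w) = act M v + act M w := by
  unfold act
  ext i
  simp [Matrix.mulVec_add]

theorem act_smul (M : M3) (c : ℝ) (v : E3) : act M (c • v) = c • act M v := by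
  unfold act
  ext i
  simp [Matrix.mulVec_smul]

theorem act_zero (M : M3) : act M 0 = 0 := by
  have h := act_smul M 0 0
  rwa [zero_smul, zero_smul] at h

theorem act_neg (M : M3) (v : E3) : act M (-v) = - act M v := by
  have h := act_smul M (-1) v
  rwa [neg_one_smul, neg_one_smul] at h

theorem act_one (v : E3) : act 1 v = v := by
  unfold act
  ext i
  simp

theorem cpair_smul_left (A : M3) (c : ℝ) (H b : E3) : cpair A (c • H) b = c * cpair A H b := by
  unfold cpair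
  rw [Finset.mul_sum]
  refine Finset.sum_congr rfl fun i _ => ?_
  rw [Finset.mul_sum]
  refine Finset.sum_congr rfl fun j _ => ?_
  simp only [PiLp.smul_apply, smul_eq_mul]
  ring

theorem cpair_zero_left (A : M3) (b : E3) : cpair A 0 b = 0 := by
  have h := cpair_smul_left A 0 0 b
  rwa [zero_smul, zero_mul] at h

theorem cpair_zero_right (A : M3) (H : E3) : cpair A H 0 = 0 := by
  unfold cpair
  simp

theorem fx_eq (A : M3) (X Y : E3) :
    fx A X Y = (‖Y‖ ^ 2)⁻¹ * cpair A (‖Y‖⁻¹ • Y) (‖X‖⁻¹ • X) := by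
  unfold fx
  rw [← cpair_smul_left, smul_smul, ← mul_inv, ← pow_succ]

theorem norm_tr (hC : Stmt_CHV) {O : M3} (hO : O ∈ SO3) (v : E3) : ‖act O.transpose v‖ = ‖v‖ := by
  obtain ⟨-, h1, h2, -, -⟩ := hC (fun _ => 0) 0 1 O one_pos hO
  rw [← h1 (act O.transpose v), h2]

theorem fx_rot (hR : Stmt_ROT) (hC : Stmt_CHV) (A O O' : M3) {l l' : ℝ} (hl : 0 < l)
    (hl' : 0 < l') (hO : O ∈ SO3) (hO' : O' ∈ SO3) (X Y : E3) :
    fx ((l / l') • (O'.transpose * A * O)) (l⁻¹ • act O.transpose X)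
      (l'⁻¹ • act O'.transpose Y) = l ^ 2 * fx A X Y := by
  by_cases hX : X = 0
  · subst hX
    rw [act_zero, smul_zero]
    unfold fx
    rw [smul_zero, cpair_zero_right, cpair_zero_right, mul_zero]
  by_cases hY : Y = 0
  · subst hY
    rw [act_zero, smul_zero]
    unfold fx
    rw [smul_zero, cpair_zero_left, cpair_zero_left, mul_zero]
  have hX' : 0 < ‖X‖ := norm_pos_iff.mpr hX
  have hY' : 0 < ‖Y‖ := norm_pos_iff.mpr hY
  obtain ⟨-, h1, -, h2, -⟩ := hR A O O' (l / l') l l' (div_pos hl hl') hl hl' rfl hO hO'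
  have h1' := h1 X Y
  rw [fx_eq, fx_eq]
  unfold dfc at h1'
  have n1 : ‖l⁻¹ • act O.transpose X‖ = ‖X‖ / l := by
    rw [norm_smul, norm_inv, Real.norm_of_nonneg hl.le, norm_tr hC hO, inv_mul_eq_div]
  have n2 : ‖l'⁻¹ • act O'.transpose Y‖ = ‖Y‖ / l' := by
    rw [norm_smul, norm_inv, Real.norm_of_nonneg hl'.le, norm_tr hC hO', inv_mul_eq_div]
  rw [h2] at h1'
  generalize hq' : cpair ((l / l') • (O'.transpose * A * O))
    (‖l'⁻¹ • act O'.transpose Y‖⁻¹ • (l'⁻¹ • act O'.transpose Y))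
    (‖l⁻¹ • act O.transpose X‖⁻¹ • (l⁻¹ • act O.transpose X)) = q' at h1' ⊢
  generalize hq : cpair A (‖Y‖⁻¹ • Y) (‖X‖⁻¹ • X) = q at h1' ⊢
  rw [n1, n2] at h1'
  rw [n2]
  have h3 : (‖X‖ / l / (‖Y‖ / l')) = (‖X‖ / ‖Y‖) * (l' / l) := by
    field_simp
  rw [h3] at h1'
  have h4 : (l / l') ^ 3 * A.det * (‖X‖ / ‖Y‖ * (l' / l)) ^ 3 = A.det * (‖X‖ / ‖Y‖) ^ 3 := by
    field_simp
  have h5 : (‖X‖ / ‖Y‖ * (l' / l)) ^ 2 * q' = (‖X‖ / ‖Y‖) ^ 2 * q := by
    nlinarith [h1', h4]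
  have h6 : (‖X‖ / ‖Y‖) ^ 2 * ((l' / l) ^ 2 * q' - q) = 0 := by
    rw [mul_sub, ← h5]; ring
  have h7 : (l' / l) ^ 2 * q' = q := by
    rcases mul_eq_zero.mp h6 with h | h
    · exact absurd h (pow_ne_zero 2 (div_ne_zero hX'.ne' hY'.ne'))
    · linarith
  rw [← h7]
  field_simp

/-- The data of one base point. -/
structure Ctx (ε : ℝ) (Ω : Set E3) (f : E3 → E3) (A : E3 → M3) (γ : ℝ → E3)
    (O O' : ℝ → ℕ → M3) (t : ℝ) : Prop where
  eps0 : 0 ≤ ε
  eps1 : ε ≤ 1 / 1024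
  op : IsOpen Ω
  qr : QReg Ω f A
  pk : Pack ε Ω f γ O O'
  tt : t ∈ Icc (-20 : ℝ) 20
  nm : ∀ n, Nm ε (nF f γ O O' t n) (nA f A γ O O' t n)
  scl : ∀ n, |len γ t (n + 1) - 1 / 2 * len γ t n| ≤ 2 * ε * len γ t n

/-- Flux density at `p`. -/
noncomputable def ph (f : E3 → E3) (A : E3 → M3) (p : E3) (x : E3) : ℝ :=
  fx (A x) (x - p) (f x - f p)

/-- Logarithm of the ratio. -/
noncomputable def lm (f : E3 → E3) (p : E3) (x : E3) : ℝ := Real.log (‖f x - f p‖ / ‖x - p‖)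

/-- Defect density. -/
noncomputable def Dd (f : E3 → E3) (A : E3 → M3) (p : E3) (x : E3) : ℝ :=
  dfc (A x) (x - p) (f x - f p) / ‖x - p‖ ^ 3

variable {ε : ℝ} {Ω : Set E3} {f : E3 → E3} {A : E3 → M3} {γ : ℝ → E3} {O O' : ℝ → ℕ → M3} {t : ℝ}

theorem Ctx.pos (c : Ctx ε Ω f A γ O O' t) (n : ℕ) : 0 < len γ t n := c.pk.pos t c.tt n

theorem Ctx.pos' (c : Ctx ε Ω f A γ O O' t) (n : ℕ) : 0 < len (f ∘ γ) t n := c.pk.pos' t c.tt n

theorem Ctx.so (c : Ctx ε Ω f A γ O O' t) (n : ℕ) : O t n ∈ SO3 := c.pk.so t c.tt n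

theorem Ctx.so' (c : Ctx ε Ω f A γ O O' t) (n : ℕ) : O' t n ∈ SO3 := c.pk.so' t c.tt n

theorem Ctx.up (c : Ctx ε Ω f A γ O O' t) (n : ℕ) : len γ t (n + 1) ≤ 3 / 4 * len γ t n := by
  have h := (abs_le.mp (c.scl n)).2
  have h1 := c.pos n
  have h2 : ε * len γ t n ≤ 1 / 1024 * len γ t n := mul_le_mul_of_nonneg_right c.eps1 h1.le
  linarith

theorem Ctx.low (c : Ctx ε Ω f A γ O O' t) (n : ℕ) : 1 / 4 * len γ t n ≤ len γ t (n + 1) := by
  have h := (abs_le.mp (c.scl n)).1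
  have h1 := c.pos n
  have h2 : ε * len γ t n ≤ 1 / 1024 * len γ t n := mul_le_mul_of_nonneg_right c.eps1 h1.le
  linarith

theorem Ctx.geo (c : Ctx ε Ω f A γ O O' t) (n : ℕ) : len γ t n ≤ (3 / 4) ^ n * len γ t 0 := by
  induction n with
  | zero => simp
  | succ n ih =>
    refine (c.up n).trans ?_
    rw [pow_succ]
    have : 3 / 4 * len γ t n ≤ 3 / 4 * ((3 / 4) ^ n * len γ t 0) :=
      mul_le_mul_of_nonneg_left ih (by norm_num)
    linarith

theorem Ctx.le0 (c : Ctx ε Ω f A γ O O' t) (n : ℕ) : len γ t n ≤ len γ t 0 := by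
  refine (c.geo n).trans ?_
  have h1 : (3 / 4 : ℝ) ^ n ≤ 1 := pow_le_one₀ (by norm_num) (by norm_num)
  have h2 := c.pos 0
  nlinarith

/-- The displacement in the target in the system `n`. -/
theorem Ctx.nrm (c : Ctx ε Ω f A γ O O' t) (hC : Stmt_CHV) (n : ℕ) (X : E3) :
    ‖nF f γ O O' t n X‖
      = ‖f (γ t + len γ t n • act (O t n) X) - f (γ t)‖ / len (f ∘ γ) t n := by
  unfold nF
  rw [norm_smul, norm_inv, Real.norm_of_nonneg (c.pos' n).le, norm_tr hC (c.so' n), inv_mul_eq_div]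

theorem Ctx.near (c : Ctx ε Ω f A γ O O' t) (hW : Stmt_WIN1) (n : ℕ) {X : E3} (hX : ‖X‖ < 64) :
    |‖nF f γ O O' t n X‖ - ‖X‖| ≤ ε := by
  have h1 := (c.nm n).close X (by simpa using hX)
  have h2 := hW.1 X
  rw [← h2]
  exact (abs_norm_sub_norm_le _ _).trans h1

theorem norm_act (hC : Stmt_CHV) {M : M3} (hO : M ∈ SO3) (v : E3) : ‖act M v‖ = ‖v‖ :=
  (hC (fun _ => 0) 0 1 M one_pos hO).2.1 v

theorem act_tr (hC : Stmt_CHV) {M : M3} (hO : M ∈ SO3) (v : E3) :
    act M (act M.transpose v) = v := (hC (fun _ => 0) 0 1 M one_pos hO).2.2.1 v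

theorem tr_act (hC : Stmt_CHV) {M : M3} (hO : M ∈ SO3) (v : E3) :
    act M.transpose (act M v) = v := (hC (fun _ => 0) 0 1 M one_pos hO).2.2.2.1 v

/-- Every point has coordinates in the system `n`. -/
theorem Ctx.coord (c : Ctx ε Ω f A γ O O' t) (hC : Stmt_CHV) (n : ℕ) (x : E3) :
    ∃ X : E3, x = γ t + len γ t n • act (O t n) X ∧ ‖x - γ t‖ = len γ t n * ‖X‖ := by
  have hp := c.pos n
  refine ⟨(len γ t n)⁻¹ • act (O t n).transpose (x - γ t), ?_, ?_⟩
  · rw [act_smul, act_tr hC (c.so n), smul_smul, mul_inv_cancel₀ hp.ne', one_smul]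
    abel
  · rw [norm_smul, norm_inv, Real.norm_of_nonneg hp.le, norm_tr hC (c.so n), ← mul_assoc,
      mul_inv_cancel₀ hp.ne', one_mul]

/-- The map does not take the value `f (γ t)` again. -/
theorem Ctx.ne (c : Ctx ε Ω f A γ O O' t) (hC : Stmt_CHV) (hW : Stmt_WIN1) {x : E3}
    (h0 : 0 < ‖x - γ t‖) (h1 : ‖x - γ t‖ < 64 * len γ t 0) : f x ≠ f (γ t) := by
  intro he
  have key : ∀ n : ℕ, ‖x - γ t‖ < 64 * len γ t n := by
    intro n
    induction n with
    | zero => exact h1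
    | succ n ih =>
      obtain ⟨X, hX, hX'⟩ := c.coord hC n x
      have hp := c.pos n
      rw [hX'] at ih
      have h2 : ‖X‖ < 64 := by
        by_contra h
        push Not at h
        nlinarith
      have h3 := c.near hW n h2
      rw [c.nrm hC, ← hX, he, sub_self, norm_zero, zero_div, zero_sub, abs_neg, abs_norm] at h3
      rw [hX']
      have h4 := c.low n
      have h5 := c.eps1
      nlinarith
  have h2 : Tendsto (fun n : ℕ => 64 * ((3 / 4 : ℝ) ^ n * len γ t 0)) atTop (𝓝 (64 * (0 * len γ t 0))) :=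
    ((tendsto_pow_atTop_nhds_zero_of_lt_one (by norm_num) (by norm_num)).mul_const _).const_mul _
  have h3 : ‖x - γ t‖ ≤ 64 * (0 * len γ t 0) := by
    refine ge_of_tendsto' h2 fun n => (key n).le.trans ?_
    exact mul_le_mul_of_nonneg_left (c.geo n) (by norm_num)
  linarith

/-- The flux density in the system `n`. -/
theorem Ctx.ph_sys (c : Ctx ε Ω f A γ O O' t) (hR : Stmt_ROT) (hC : Stmt_CHV) (n : ℕ) (X : E3) :
    ph f A (γ t) (γ t + len γ t n • act (O t n) X)
      = (len γ t n ^ 2)⁻¹ * fx (nA f A γ O O' t n X) X (nF f γ O O' t n X) := by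
  have hp := c.pos n
  have h := fx_rot hR hC (A (γ t + len γ t n • act (O t n) X)) (O t n) (O' t n) hp (c.pos' n)
    (c.so n) (c.so' n) (len γ t n • act (O t n) X)
    (f (γ t + len γ t n • act (O t n) X) - f (γ t))
  rw [act_smul, tr_act hC (c.so n), smul_smul, inv_mul_cancel₀ hp.ne', one_smul] at h
  unfold ph nA nF
  rw [h, add_sub_cancel_left]
  field_simp

theorem Ctx.lm_sys (c : Ctx ε Ω f A γ O O' t) (hC : Stmt_CHV) (n : ℕ) {X : E3}
    (hX : 0 < ‖X‖) (hY : 0 < ‖nF f γ O O' t n X‖) :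
    lm f (γ t) (γ t + len γ t n • act (O t n) X) + FF f γ t n
      = Real.log (‖nF f γ O O' t n X‖ / ‖X‖) := by
  have hp := c.pos n
  have hp' := c.pos' n
  have h1 := c.nrm hC n X
  have h2 : ‖f (γ t + len γ t n • act (O t n) X) - f (γ t)‖
      = len (f ∘ γ) t n * ‖nF f γ O O' t n X‖ := by
    rw [h1]; field_simp
  unfold lm FF
  rw [h2, add_sub_cancel_left, norm_smul, norm_act hC (c.so n), Real.norm_of_nonneg hp.le,
    ← Real.log_mul (by positivity) (by positivity)]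
  congr 1
  field_simp

theorem fx_bound (hB : Stmt_BAS) (M : M3) (X Y : E3) :
    |fx M X Y| ≤ (‖Y‖ ^ 2)⁻¹ * opn M ^ 2 := by
  rw [fx_eq, abs_mul, abs_of_nonneg (by positivity : (0 : ℝ) ≤ (‖Y‖ ^ 2)⁻¹)]
  refine mul_le_mul_of_nonneg_left ?_ (by positivity)
  rw [hB.2.2.1]
  have h0 : (0 : ℝ) ≤ opn (cofm M) := norm_nonneg _
  have hu : ∀ v : E3, ‖‖v‖⁻¹ • v‖ ≤ 1 := by
    intro v
    rw [norm_smul, norm_inv, norm_norm]
    exact inv_mul_le_one
  calc |inner ℝ (‖Y‖⁻¹ • Y) (act (cofm M) (‖X‖⁻¹ • X))|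
      ≤ ‖‖Y‖⁻¹ • Y‖ * ‖act (cofm M) (‖X‖⁻¹ • X)‖ := abs_real_inner_le_norm _ _
    _ ≤ 1 * (opn (cofm M) * 1) := by
        refine mul_le_mul (hu Y) ?_ (norm_nonneg _) zero_le_one
        exact (hB.1 _ _).trans (mul_le_mul_of_nonneg_left (hu X) h0)
    _ ≤ opn M ^ 2 := by rw [one_mul, mul_one]; exact hB.2.2.2.2.2.1 M

theorem arith1 {l K0 a1 a2 a3 a4 : ℝ} (hp : 0 < l) (hK0 : 0 ≤ K0) (hkl : |a1| ≤ K0 / l)
    (e1 : |a2| ≤ 16 * a4) (e4 : |a3| ≤ 1) :
    |a1| * ((l ^ 2)⁻¹ * |a2|) * |a3| ≤ (l ^ 3)⁻¹ * (K0 * 16) * a4 := by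
  have ha4 : 0 ≤ a4 := by
    have := abs_nonneg a2
    linarith
  calc |a1| * ((l ^ 2)⁻¹ * |a2|) * |a3| ≤ (K0 / l) * ((l ^ 2)⁻¹ * (16 * a4)) * 1 := by
        gcongr
    _ = (l ^ 3)⁻¹ * (K0 * 16) * a4 := by
        rw [mul_one, div_eq_mul_inv, pow_succ l 2, mul_inv]
        ring

/-- The error term of one scale. -/
theorem Ctx.err (c : Ctx ε Ω f A γ O O' t) (hR : Stmt_ROT) (hC : Stmt_CHV) (hB : Stmt_BAS)
    (hW : Stmt_WIN1) {CE : ℝ} (n : ℕ)
    (hI : IntegrableOn (fun X => opn (nA f A γ O O' t n X) ^ 3) (Metric.ball (0 : E3) 62))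
    (hE : ∫ X in Metric.ball (0 : E3) 62, opn (nA f A γ O O' t n X) ^ 3 ≤ CE)
    (k : ℝ → ℝ) (K0 : ℝ) (hK0 : 0 ≤ K0) (hk : ∀ s, |k s| ≤ K0 / len γ t n)
    (hk1 : ∀ s, s ≤ len γ t n / 2 → k s = 0) (hk2 : ∀ s, 50 * len γ t n ≤ s → k s = 0) :
    |∫ x, k ‖x - γ t‖ * ph f A (γ t) x * (lm f (γ t) x + FF f γ t n)|
      ≤ K0 * 16 * (volume.real (Metric.ball (0 : E3) 62) + CE) := by
  have hp := c.pos n
  set l := len γ t n with hl
  set h : E3 → ℝ := fun x => k ‖x - γ t‖ * ph f A (γ t) x * (lm f (γ t) x + FF f γ t n) with hh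
  have h1 : ∫ x, h x = l ^ 3 * ∫ X, h (γ t + l • act (O t n) X) := by
    rw [(hC h (γ t) l (O t n) hp (c.so n)).1]
    field_simp
  have h2 : ∀ X : E3, ‖h (γ t + l • act (O t n) X)‖ ≤ (Metric.ball (0 : E3) 62).indicator
      (fun X => (l ^ 3)⁻¹ * (K0 * 16) * (1 + opn (nA f A γ O O' t n X) ^ 3)) X := by
    intro X
    have hn : ‖γ t + l • act (O t n) X - γ t‖ = l * ‖X‖ := by
      rw [add_sub_cancel_left, norm_smul, norm_act hC (c.so n), Real.norm_of_nonneg hp.le]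
    have hop : (0 : ℝ) ≤ opn (nA f A γ O O' t n X) := norm_nonneg _
    have hnn : 0 ≤ (Metric.ball (0 : E3) 62).indicator
      (fun X => (l ^ 3)⁻¹ * (K0 * 16) * (1 + opn (nA f A γ O O' t n X) ^ 3)) X := by
      refine Set.indicator_nonneg (fun Y _ => ?_) X
      have : (0 : ℝ) ≤ opn (nA f A γ O O' t n Y) := norm_nonneg _
      positivity
    by_cases hX1 : ‖X‖ ≤ 1 / 2
    · have : k (l * ‖X‖) = 0 := hk1 _ (by nlinarith)
      simp only [hh, hn, this, zero_mul, norm_zero]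
      exact hnn
    by_cases hX2 : 50 ≤ ‖X‖
    · have : k (l * ‖X‖) = 0 := hk2 _ (by nlinarith)
      simp only [hh, hn, this, zero_mul, norm_zero]
      exact hnn
    push Not at hX1 hX2
    rw [Set.indicator_of_mem (by simpa using hX2.trans (by norm_num))]
    have hY := abs_le.mp (c.near hW n (X := X) (by linarith))
    have he := c.eps1
    have hY0 : 1 / 4 ≤ ‖nF f γ O O' t n X‖ := by linarith [hY.1]
    have hY1 : 0 < ‖nF f γ O O' t n X‖ := by linarith
    have hX0 : 0 < ‖X‖ := by linarith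
    simp only [hh]
    rw [c.lm_sys hC n hX0 hY1, c.ph_sys hR hC, hn, norm_mul, norm_mul, Real.norm_eq_abs,
      Real.norm_eq_abs, Real.norm_eq_abs, abs_mul, abs_of_nonneg (by positivity : (0:ℝ) ≤ (l ^ 2)⁻¹)]
    have e1 : |fx (nA f A γ O O' t n X) X (nF f γ O O' t n X)|
        ≤ 16 * (1 + opn (nA f A γ O O' t n X) ^ 3) := by
      refine (fx_bound hB _ _ _).trans ?_
      have e2 : (‖nF f γ O O' t n X‖ ^ 2)⁻¹ ≤ 16 := by
        rw [inv_le_comm₀ (by positivity) (by norm_num)]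
        nlinarith
      have e3' : opn (nA f A γ O O' t n X) ^ 2 ≤ 1 + opn (nA f A γ O O' t n X) ^ 3 := by
        rcases le_total (opn (nA f A γ O O' t n X)) 1 with hh1 | hh1
        · have : opn (nA f A γ O O' t n X) ^ 2 ≤ 1 := pow_le_one₀ hop hh1
          have : 0 ≤ opn (nA f A γ O O' t n X) ^ 3 := by positivity
          linarith
        · have : opn (nA f A γ O O' t n X) ^ 2 ≤ opn (nA f A γ O O' t n X) ^ 3 :=
            pow_le_pow_right₀ hh1 (by norm_num)
          linarith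
      exact mul_le_mul e2 e3' (by positivity) (by norm_num)
    have e4 : |Real.log (‖nF f γ O O' t n X‖ / ‖X‖)| ≤ 1 := by
      have a1 : ‖nF f γ O O' t n X‖ / ‖X‖ ≤ 2 := by
        rw [div_le_iff₀ hX0]; linarith [hY.2]
      have a2 : ‖X‖ / ‖nF f γ O O' t n X‖ ≤ 2 := by
        rw [div_le_iff₀ hY1]; linarith [hY.1]
      rw [abs_le]
      constructor
      · have := Real.log_le_sub_one_of_pos (div_pos hX0 hY1)
        have b := Real.log_inv (‖nF f γ O O' t n X‖ / ‖X‖)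
        rw [inv_div] at b
        linarith
      · have := Real.log_le_sub_one_of_pos (div_pos hY1 hX0)
        linarith
    exact arith1 hp hK0 (hk (l * ‖X‖)) e1 e4
  have hI1 : IntegrableOn (fun X => 1 + opn (nA f A γ O O' t n X) ^ 3) (Metric.ball (0 : E3) 62) :=
    (integrableOn_const (C := (1 : ℝ)) (by exact measure_ball_lt_top.ne) (by simp)).add hI
  have h3 : Integrable ((Metric.ball (0 : E3) 62).indicator
      (fun X => (l ^ 3)⁻¹ * (K0 * 16) * (1 + opn (nA f A γ O O' t n X) ^ 3))) :=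
    (integrable_indicator_iff measurableSet_ball).mpr (hI1.const_mul _)
  have h4 := norm_integral_le_of_norm_le h3 (Filter.Eventually.of_forall h2)
  rw [integral_indicator measurableSet_ball, integral_const_mul,
    integral_add (integrableOn_const (C := (1 : ℝ)) (by exact measure_ball_lt_top.ne) (by simp)) hI,
    setIntegral_const, smul_eq_mul, mul_one] at h4
  rw [h1, abs_mul, abs_of_pos (pow_pos hp 3)]
  rw [Real.norm_eq_abs] at h4
  calc l ^ 3 * |∫ X, h (γ t + l • act (O t n) X)|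
      ≤ l ^ 3 * ((l ^ 3)⁻¹ * (K0 * 16) * (volume.real (Metric.ball (0 : E3) 62)
        + ∫ X in Metric.ball (0 : E3) 62, opn (nA f A γ O O' t n X) ^ 3)) := by
        exact mul_le_mul_of_nonneg_left h4 (by positivity)
    _ = K0 * 16 * (volume.real (Metric.ball (0 : E3) 62)
        + ∫ X in Metric.ball (0 : E3) 62, opn (nA f A γ O O' t n X) ^ 3) := by
        field_simp
    _ ≤ _ := by gcongr

/-- The closed ring. -/
def kr (p : E3) (a b : ℝ) : Set E3 := {x | a ≤ ‖x - p‖ ∧ ‖x - p‖ ≤ b}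

theorem kr_compact (p : E3) (a b : ℝ) : IsCompact (kr p a b) := by
  have h1 : IsClosed (kr p a b) := by
    have : kr p a b = (fun x : E3 => ‖x - p‖) ⁻¹' (Icc a b) := rfl
    rw [this]
    exact isClosed_Icc.preimage (by fun_prop)
  refine (isCompact_closedBall p b).of_isClosed_subset h1 fun x hx => ?_
  rw [Metric.mem_closedBall, dist_eq_norm]
  exact hx.2

theorem Ctx.kr_sub (c : Ctx ε Ω f A γ O O' t) {a b : ℝ} (hb : b < 64 * len γ t 0) :
    kr (γ t) a b ⊆ Ω := by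
  intro x hx
  apply c.pk.sub t c.tt 0
  rw [Metric.mem_ball, dist_eq_norm]
  exact lt_of_le_of_lt hx.2 hb

theorem Ctx.kr_ne (c : Ctx ε Ω f A γ O O' t) (hC : Stmt_CHV) (hW : Stmt_WIN1) {a b : ℝ}
    (ha : 0 < a) (hb : b < 64 * len γ t 0) {x : E3} (hx : x ∈ kr (γ t) a b) :
    0 < ‖x - γ t‖ ∧ 0 < ‖f x - f (γ t)‖ := by
  have h1 : 0 < ‖x - γ t‖ := lt_of_lt_of_le ha hx.1
  refine ⟨h1, norm_pos_iff.mpr (sub_ne_zero.mpr ?_)⟩
  exact c.ne hC hW h1 (lt_of_le_of_lt hx.2 hb)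

theorem Ctx.contf (c : Ctx ε Ω f A γ O O' t) {a b : ℝ} (hb : b < 64 * len γ t 0) :
    ContinuousOn (fun x => f x - f (γ t)) (kr (γ t) a b) :=
  (c.qr.cont.mono (c.kr_sub hb)).sub continuousOn_const

theorem Ctx.ph_int (c : Ctx ε Ω f A γ O O' t) (hC : Stmt_CHV) (hW : Stmt_WIN1) (hP : Stmt_PIOI)
    {a b : ℝ} (ha : 0 < a) (hb : b < 64 * len γ t 0) :
    IntegrableOn (ph f A (γ t)) (kr (γ t) a b) := by
  have h := (hP Ω f A c.op c.qr.cont c.qr.wg (kr (γ t) a b) (kr_compact _ _ _)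
    (c.kr_sub hb)).2.2.2
  refine h (fun x => (‖f x - f (γ t)‖ ^ 3)⁻¹ • (f x - f (γ t)))
    (fun x => ‖x - γ t‖⁻¹ • (x - γ t)) ?_ ?_
  · refine ContinuousOn.smul (ContinuousOn.inv₀ ((c.contf hb).norm.pow 3) ?_) (c.contf hb)
    intro x hx
    exact pow_ne_zero 3 (c.kr_ne hC hW ha hb hx).2.ne'
  · have h1 : ContinuousOn (fun x : E3 => ‖x - γ t‖) (kr (γ t) a b) := by fun_prop
    have h2 : ContinuousOn (fun x : E3 => x - γ t) (kr (γ t) a b) := by fun_prop
    exact (h1.inv₀ fun x hx => (c.kr_ne hC hW ha hb hx).1.ne').smul h2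

theorem Ctx.det_int (c : Ctx ε Ω f A γ O O' t) (hP : Stmt_PIOI)
    {a b : ℝ} (hb : b < 64 * len γ t 0) :
    IntegrableOn (fun x => (A x).det) (kr (γ t) a b) :=
  (hP Ω f A c.op c.qr.cont c.qr.wg (kr (γ t) a b) (kr_compact _ _ _) (c.kr_sub hb)).1

theorem Dd_eq {x p : E3} (hx : 0 < ‖x - p‖) (hy : 0 < ‖f x - f p‖) :
    Dd f A p x = ((2 / 3) * (‖f x - f p‖ ^ 3)⁻¹) * (A x).det + (2 / 3) * (‖x - p‖ ^ 3)⁻¹
      - ‖x - p‖⁻¹ * ph f A p x := by
  unfold Dd ph dfc
  rw [fx_eq]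
  field_simp

theorem Ctx.Dd_int (c : Ctx ε Ω f A γ O O' t) (hC : Stmt_CHV) (hW : Stmt_WIN1) (hP : Stmt_PIOI)
    {a b : ℝ} (ha : 0 < a) (hb : b < 64 * len γ t 0) :
    IntegrableOn (Dd f A (γ t)) (kr (γ t) a b) := by
  have hk := kr_compact (γ t) a b
  have e : EqOn (fun x => ((2 / 3) * (‖f x - f (γ t)‖ ^ 3)⁻¹) * (A x).det
      + (2 / 3) * (‖x - γ t‖ ^ 3)⁻¹ - ‖x - γ t‖⁻¹ * ph f A (γ t) x) (Dd f A (γ t))
      (kr (γ t) a b) := by
    intro x hx
    obtain ⟨h1, h2⟩ := c.kr_ne hC hW ha hb hx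
    exact (Dd_eq h1 h2).symm
  refine IntegrableOn.congr_fun ?_ e hk.measurableSet
  refine ((IntegrableOn.continuousOn_mul ?_ (c.det_int hP hb) hk).add ?_).sub
    (IntegrableOn.continuousOn_mul ?_ (c.ph_int hC hW hP ha hb) hk)
  · refine ContinuousOn.mul continuousOn_const (ContinuousOn.inv₀ ((c.contf hb).norm.pow 3) ?_)
    intro x hx
    exact pow_ne_zero 3 (c.kr_ne hC hW ha hb hx).2.ne'
  · refine ContinuousOn.integrableOn_compact hk ?_
    refine ContinuousOn.mul continuousOn_const (ContinuousOn.inv₀ (by fun_prop) ?_)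
    intro x hx
    exact pow_ne_zero 3 (c.kr_ne hC hW ha hb hx).1.ne'
  · refine ContinuousOn.inv₀ (by fun_prop) ?_
    intro x hx
    exact (c.kr_ne hC hW ha hb hx).1.ne'

/-- Global integrability of a product with a function supported in a ring. -/
theorem Ctx.glob (c : Ctx ε Ω f A γ O O' t) (hC : Stmt_CHV) (hW : Stmt_WIN1) (hP : Stmt_PIOI)
    {a b : ℝ} (ha : 0 < a) (hb : b < 64 * len γ t 0) {k : ℝ → ℝ} (hk : Continuous k)
    (h0 : ∀ s, s < a → k s = 0) (h1 : ∀ s, b < s → k s = 0) :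
    Integrable (fun x => k ‖x - γ t‖ * ph f A (γ t) x) ∧
    Integrable (fun x => k ‖x - γ t‖ * ph f A (γ t) x * lm f (γ t) x) ∧
    Integrable (fun x => k ‖x - γ t‖ * Dd f A (γ t) x) := by
  have hK := kr_compact (γ t) a b
  have hz : ∀ x, x ∉ kr (γ t) a b → k ‖x - γ t‖ = 0 := by
    intro x hx
    by_contra h
    apply hx
    constructor
    · by_contra h2
      exact h (h0 _ (not_le.mp h2))
    · by_contra h2
      exact h (h1 _ (not_le.mp h2))
  have hkc : ContinuousOn (fun x : E3 => k ‖x - γ t‖) (kr (γ t) a b) := by fun_prop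
  have i1 : IntegrableOn (fun x => k ‖x - γ t‖ * ph f A (γ t) x) (kr (γ t) a b) :=
    IntegrableOn.continuousOn_mul hkc (c.ph_int hC hW hP ha hb) hK
  refine ⟨i1.integrable_of_forall_notMem_eq_zero ?_, ?_, ?_⟩
  · intro x hx
    rw [hz x hx, zero_mul]
  · refine IntegrableOn.integrable_of_forall_notMem_eq_zero (s := kr (γ t) a b) ?_ ?_
    · refine IntegrableOn.mul_continuousOn i1 ?_ hK
      refine ContinuousOn.log (ContinuousOn.div (c.contf hb).norm (by fun_prop) ?_) ?_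
      · intro x hx
        exact (c.kr_ne hC hW ha hb hx).1.ne'
      · intro x hx
        obtain ⟨h2, h3⟩ := c.kr_ne hC hW ha hb hx
        exact (div_pos h3 h2).ne'
    · intro x hx
      rw [hz x hx, zero_mul, zero_mul]
  · refine IntegrableOn.integrable_of_forall_notMem_eq_zero (s := kr (γ t) a b)
      (IntegrableOn.continuousOn_mul hkc (c.Dd_int hC hW hP ha hb) hK) ?_
    intro x hx
    rw [hz x hx, zero_mul]

theorem supp_bounds {k : ℝ → ℝ} {R : ℝ} (hR : 0 < R) (hk : HasCompactSupport k)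
    (hs : tsupport k ⊆ Ioo 0 R) :
    ∃ a b, 0 < a ∧ b < R ∧ (∀ s, s < a → k s = 0) ∧ (∀ s, b < s → k s = 0) := by
  rcases (tsupport k).eq_empty_or_nonempty with he | hne
  · refine ⟨R / 2, R / 2, by linarith, by linarith, ?_, ?_⟩ <;>
    · intro s _
      apply image_eq_zero_of_notMem_tsupport
      rw [he]
      exact notMem_empty s
  · obtain ⟨a, ha, ha'⟩ := hk.exists_isLeast hne
    obtain ⟨b, hb, hb'⟩ := hk.exists_isGreatest hne
    refine ⟨a, b, (hs ha).1, (hs hb).2, ?_, ?_⟩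
    · intro s h
      apply image_eq_zero_of_notMem_tsupport
      intro h2
      exact absurd (ha' h2) (not_le.mpr h)
    · intro s h
      apply image_eq_zero_of_notMem_tsupport
      intro h2
      exact absurd (hb' h2) (not_le.mpr h)

theorem supp_Icc {k : ℝ → ℝ} {a b : ℝ} (h0 : ∀ s, s < a → k s = 0) (h1 : ∀ s, b < s → k s = 0) :
    HasCompactSupport k ∧ tsupport k ⊆ Icc a b := by
  have hz : ∀ s, s ∉ Icc a b → k s = 0 := by
    intro s hs
    by_contra h
    apply hs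
    constructor
    · by_contra h2
      exact h (h0 _ (not_le.mp h2))
    · by_contra h2
      exact h (h1 _ (not_le.mp h2))
  refine ⟨HasCompactSupport.intro isCompact_Icc fun s hs => hz s hs, ?_⟩
  refine closure_minimal ?_ isClosed_Icc
  intro s hs
  by_contra h
  exact hs (hz s h)

theorem Ctx.flux (c : Ctx ε Ω f A γ O O' t) (hR : Stmt_ROT) (hC : Stmt_CHV) (hW : Stmt_WIN1)
    (hP : Stmt_PIOI) (hFLC : Stmt_FLC) (hFLK : Stmt_FLK) (hFL8 : Stmt_FL8) (k : ℝ → ℝ)
    (hk : Continuous k) (hkc : HasCompactSupport k) (hks : tsupport k ⊆ Ioo 0 (60 * len γ t 0)) :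
    ∫ x, k ‖x - γ t‖ * ph f A (γ t) x = 8 * Real.pi * ∫ r, k r := by
  have hp := c.pos 0
  have hR0 : 0 < 60 * len γ t 0 := by positivity
  have hint : ∀ h : ℝ → ℝ, Continuous h → HasCompactSupport h →
      tsupport h ⊆ Ioo 0 (60 * len γ t 0) →
      Integrable (fun x => h ‖x - γ t‖ * ph f A (γ t) x) := by
    intro h hh h1 h2
    obtain ⟨a, b, ha, hb, h3, h4⟩ := supp_bounds hR0 h1 h2
    exact (c.glob hC hW hP ha (by linarith) hh h3 h4).1
  obtain ⟨Φ, hΦ⟩ := hFLK 0 (60 * len γ t 0) (fun h => ∫ x, h ‖x - γ t‖ * ph f A (γ t) x) le_rfl hR0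
    (by
      intro h k hh hk h1 h2 h3 h4 a
      have i1 := hint h hh h3 h1
      have i2 := hint k hk h4 h2
      simp only
      rw [← integral_const_mul, ← integral_add i1 (i2.const_mul a)]
      refine integral_congr_ae (Filter.Eventually.of_forall fun x => ?_)
      simp only
      ring)
    (by
      intro η h1 h2 h3
      refine hFLC Ω f A (γ t) 0 (60 * len γ t 0) c.op c.qr.cont c.qr.wg le_rfl ?_ ?_ η h1 h2 h3
      · intro x hx
        apply c.pk.sub t c.tt 0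
        rw [Metric.mem_ball, dist_eq_norm]
        have := hx.2
        linarith
      · intro x h4 h5
        exact c.ne hC hW h4 (by linarith))
  rw [hΦ k hk hkc hks]
  have hh : Φ = 8 * Real.pi := by
    set h0 : ℝ → ℝ := fun s => max 0 (1 - |s - 10|) with hh0
    have c0 : Continuous h0 := by fun_prop
    have z1 : ∀ s, s < 9 → h0 s = 0 := by
      intro s hs
      refine max_eq_left ?_
      rw [abs_of_neg (by linarith)]
      linarith
    have z2 : ∀ s, 11 < s → h0 s = 0 := by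
      intro s hs
      refine max_eq_left ?_
      rw [abs_of_pos (by linarith)]
      linarith
    obtain ⟨s1, s2⟩ := supp_Icc z1 z2
    have f8 := hFL8 1 ε _ _ one_pos le_rfl (by linarith [c.eps1]) (c.nm 0) h0 c0 s1
      (s2.trans fun s hs => ⟨by linarith [hs.1], by linarith [hs.2]⟩)
    have c1 : Continuous fun s => h0 (s / len γ t 0) := c0.comp (by fun_prop)
    have z3 : ∀ s, s < 9 * len γ t 0 → h0 (s / len γ t 0) = 0 := by
      intro s hs
      apply z1
      rwa [div_lt_iff₀ hp]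
    have z4 : ∀ s, 11 * len γ t 0 < s → h0 (s / len γ t 0) = 0 := by
      intro s hs
      apply z2
      rwa [lt_div_iff₀ hp]
    obtain ⟨s3, s4⟩ := supp_Icc z3 z4
    have e1 : ∫ x, h0 (‖x - γ t‖ / len γ t 0) * ph f A (γ t) x
        = Φ * ∫ r, h0 (r / len γ t 0) := hΦ (fun s => h0 (s / len γ t 0)) c1 s3
      (s4.trans fun s hs => ⟨lt_of_lt_of_le (by positivity) hs.1, lt_of_le_of_lt hs.2 (by linarith)⟩)
    have e2 : ∫ r, h0 (r / len γ t 0) = len γ t 0 * ∫ r, h0 r := by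
      rw [Measure.integral_comp_div, smul_eq_mul, abs_of_pos hp]
    have e3' : ∫ x, h0 (‖x - γ t‖ / len γ t 0) * ph f A (γ t) x
        = len γ t 0 * (8 * Real.pi * ∫ r, h0 r) := by
      have e4 := (hC (fun x => h0 (‖x - γ t‖ / len γ t 0) * ph f A (γ t) x) (γ t) (len γ t 0)
        (O t 0) hp (c.so 0)).1
      have e5 : ∀ X : E3, h0 (‖γ t + len γ t 0 • act (O t 0) X - γ t‖ / len γ t 0)
          * ph f A (γ t) (γ t + len γ t 0 • act (O t 0) X)
          = (len γ t 0 ^ 2)⁻¹ * (h0 ‖X‖ * fx (nA f A γ O O' t 0 X) X (nF f γ O O' t 0 X)) := by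
        intro X
        rw [c.ph_sys hR hC, add_sub_cancel_left, norm_smul, norm_act hC (c.so 0),
          Real.norm_of_nonneg hp.le, mul_div_cancel_left₀ _ hp.ne']
        ring
      simp only [e5] at e4
      rw [integral_const_mul, f8] at e4
      have e6 : ∫ x, h0 (‖x - γ t‖ / len γ t 0) * ph f A (γ t) x
          = len γ t 0 ^ 3 * ((len γ t 0 ^ 2)⁻¹ * (8 * Real.pi * ∫ r, h0 r)) := by
        rw [e4]
        field_simp
      rw [e6]
      field_simp
    have e7 : 0 < ∫ r, h0 r := by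
      refine Continuous.integral_pos_of_hasCompactSupport_nonneg_nonzero (x := 10) c0 s1 ?_ ?_
      · intro s
        exact le_max_left _ _
      · simp [hh0]
    rw [e2, e3'] at e1
    have e8 : len γ t 0 * (∫ r, h0 r) * (8 * Real.pi - Φ) = 0 := by linarith
    rcases mul_eq_zero.mp e8 with h | h
    · exact absurd h (mul_pos hp e7).ne'
    · linarith
  rw [hh]

theorem wg_mono {U V : Set E3} {g : E3 → E3} {B : E3 → M3} (h : WeakGrad V g B) (hU : U ⊆ V) :
    WeakGrad U g B :=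
  ⟨fun K hK hKU i j => h.loc K hK (hKU.trans hU) i j,
    fun φ h1 h2 h3 i j => h.ibp φ h1 h2 (h3.trans hU) i j⟩

/-- The exact identity at the base point. -/
theorem Ctx.idt (c : Ctx ε Ω f A γ O O' t) (hR : Stmt_ROT) (hC : Stmt_CHV) (hW : Stmt_WIN1)
    (hP : Stmt_PIOI) (hFLC : Stmt_FLC) (hFLK : Stmt_FLK) (hFL8 : Stmt_FL8) (hI : Stmt_IDT)
    (hG : Stmt_WGTc) (η : ℝ → ℝ) (h1 : ContDiff ℝ 1 η) (h2 : HasCompactSupport η)
    (h3 : tsupport η ⊆ Ioo 0 (60 * len γ t 0)) :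
    ∫ x, η ‖x - γ t‖ * Dd f A (γ t) x
      = -(2 / 3) * ∫ x, deriv η ‖x - γ t‖ * ph f A (γ t) x * lm f (γ t) x := by
  have hp := c.pos 0
  set p := γ t with hpdef
  set R := 60 * len γ t 0 with hRdef
  have hR0 : 0 < R := by positivity
  have hball : ∀ X : E3, ‖X‖ < R → p + X ∈ Ω := by
    intro X hX
    apply c.pk.sub t c.tt 0
    rw [Metric.mem_ball, dist_eq_norm, add_sub_cancel_left]
    linarith
  have w1 : WeakGrad (Metric.ball 0 R) (fun X => f (p + X) - f p) (fun X => A (p + X)) := by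
    have h := hG Ω f A p (f p) 1 1 1 1 c.op one_pos (Submonoid.one_mem _) c.qr.cont c.qr.wg
    simp only [act_one, one_smul, one_mul, mul_one] at h
    refine wg_mono h ?_
    intro X hX
    exact hball X (by simpa using hX)
  have w2 : ContinuousOn (fun X => f (p + X) - f p) (Metric.ball 0 R) := by
    refine ContinuousOn.sub (c.qr.cont.comp (by fun_prop) ?_) continuousOn_const
    intro X hX
    exact hball X (by simpa using hX)
  have w3 : ∀ X : E3, 0 < ‖X‖ → ‖X‖ < R → f (p + X) - f p ≠ 0 := by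
    intro X hX hX'
    rw [sub_ne_zero]
    apply c.ne hC hW
    · rwa [add_sub_cancel_left]
    · rw [add_sub_cancel_left]
      linarith
  have w4 : f (p + 0) - f p = 0 := by rw [add_zero, sub_self]
  have w5 : ∀ h : ℝ → ℝ, Continuous h → HasCompactSupport h → tsupport h ⊆ Ioo 0 R →
      ∫ X, h ‖X‖ * fx (A (p + X)) X (f (p + X) - f p) = 8 * Real.pi * ∫ r, h r := by
    intro h k1 k2 k3
    rw [← c.flux hR hC hW hP hFLC hFLK hFL8 h k1 k2 k3,
      ← integral_add_left_eq_self (fun x => h ‖x - γ t‖ * ph f A (γ t) x) p]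
    refine integral_congr_ae (Filter.Eventually.of_forall fun X => ?_)
    simp only [ph, ← hpdef, add_sub_cancel_left]
  have key := hI 0 R (fun X => f (p + X) - f p) (fun X => A (p + X)) le_rfl hR0 w2 w1 w3 w4 w5
    η h1 h2 h3
  rw [← integral_add_left_eq_self (fun x => η ‖x - p‖ * Dd f A p x) p,
    ← integral_add_left_eq_self (fun x => deriv η ‖x - p‖ * ph f A p x * lm f p x) p]
  simp only [ph, lm, Dd, add_sub_cancel_left]
  exact key

/-- Smooth step. -/
noncomputable abbrev S : ℝ → ℝ := Real.smoothTransition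

theorem S_cd : ContDiff ℝ 1 S := Real.smoothTransition.contDiff

theorem dS_cont : Continuous (deriv S) := S_cd.continuous_deriv le_rfl

theorem S_hd (s : ℝ) : HasDerivAt S (deriv S s) s :=
  (S_cd.differentiable one_ne_zero s).hasDerivAt

theorem dS_zero_left {s : ℝ} (hs : s ≤ 0) : deriv S s = 0 := by
  refine IsLocalMin.deriv_eq_zero (Filter.Eventually.of_forall fun y => ?_)
  rw [show S s = 0 from Real.smoothTransition.zero_of_nonpos hs]
  exact Real.smoothTransition.nonneg y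

theorem dS_zero_right {s : ℝ} (hs : 1 ≤ s) : deriv S s = 0 := by
  refine IsLocalMax.deriv_eq_zero (Filter.Eventually.of_forall fun y => ?_)
  rw [show S s = 1 from Real.smoothTransition.one_of_one_le hs]
  exact Real.smoothTransition.le_one y

theorem dS_bd : ∃ CS : ℝ, 0 < CS ∧ ∀ s, |deriv S s| ≤ CS := by
  obtain ⟨C, hC⟩ := isCompact_Icc.exists_bound_of_continuousOn (s := Icc (0 : ℝ) 1)
    (dS_cont.continuousOn)
  refine ⟨|C| + 1, by positivity, fun s => ?_⟩
  by_cases h0 : s ≤ 0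
  · rw [dS_zero_left h0, abs_zero]; positivity
  by_cases h1 : 1 ≤ s
  · rw [dS_zero_right h1, abs_zero]; positivity
  push Not at h0 h1
  have := hC s ⟨h0.le, h1.le⟩
  rw [Real.norm_eq_abs] at this
  linarith [le_abs_self C]

/-- Inner part of the derivative of the cut-off. -/
noncomputable def K1 (l : ℝ) (s : ℝ) : ℝ := 2 / l * deriv S (2 / l * s - 1)

/-- Outer part of the derivative of the cut-off. -/
noncomputable def K2 (r : ℝ) (s : ℝ) : ℝ := 1 / (10 * r) * deriv S (5 - 1 / (10 * r) * s)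

/-- The cut-off. -/
noncomputable def et' (l r : ℝ) (s : ℝ) : ℝ := S (2 / l * s - 1) * S (5 - 1 / (10 * r) * s)

theorem hdu (l s : ℝ) : HasDerivAt (fun s => S (2 / l * s - 1)) (K1 l s) s := by
  have h1 : HasDerivAt (fun s => 2 / l * s - 1) (2 / l) s := by
    simpa using ((hasDerivAt_id s).const_mul (2 / l)).sub_const 1
  have h2 := (S_hd (2 / l * s - 1)).comp s h1
  rw [mul_comm] at h2
  exact h2

theorem hdv (r s : ℝ) : HasDerivAt (fun s => S (5 - 1 / (10 * r) * s)) (-K2 r s) s := by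
  have h1 : HasDerivAt (fun s => 5 - 1 / (10 * r) * s) (-(1 / (10 * r))) s := by
    simpa using ((hasDerivAt_id s).const_mul (1 / (10 * r))).const_sub 5
  have h2 := (S_hd (5 - 1 / (10 * r) * s)).comp s h1
  have e : -K2 r s = deriv S (5 - 1 / (10 * r) * s) * -(1 / (10 * r)) := by
    unfold K2; ring
  rw [e]
  exact h2

theorem K1_zero_left {l s : ℝ} (hl : 0 < l) (hs : s ≤ l / 2) : K1 l s = 0 := by
  unfold K1
  rw [dS_zero_left, mul_zero]
  have : 2 / l * s ≤ 2 / l * (l / 2) := mul_le_mul_of_nonneg_left hs (by positivity)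
  have e : 2 / l * (l / 2) = 1 := by field_simp
  linarith

theorem K1_zero_right {l s : ℝ} (hl : 0 < l) (hs : l ≤ s) : K1 l s = 0 := by
  unfold K1
  rw [dS_zero_right, mul_zero]
  have : 2 / l * l ≤ 2 / l * s := mul_le_mul_of_nonneg_left hs (by positivity)
  have e : 2 / l * l = 2 := by field_simp
  linarith

theorem K2_zero_left {r s : ℝ} (hr : 0 < r) (hs : s ≤ 40 * r) : K2 r s = 0 := by
  unfold K2
  rw [dS_zero_right, mul_zero]
  have : 1 / (10 * r) * s ≤ 1 / (10 * r) * (40 * r) := mul_le_mul_of_nonneg_left hs (by positivity)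
  have e : 1 / (10 * r) * (40 * r) = 4 := by field_simp; norm_num
  linarith

theorem K2_zero_right {r s : ℝ} (hr : 0 < r) (hs : 50 * r ≤ s) : K2 r s = 0 := by
  unfold K2
  rw [dS_zero_left, mul_zero]
  have : 1 / (10 * r) * (50 * r) ≤ 1 / (10 * r) * s := mul_le_mul_of_nonneg_left hs (by positivity)
  have e : 1 / (10 * r) * (50 * r) = 5 := by field_simp; norm_num
  linarith

theorem K1_cont (l : ℝ) : Continuous (K1 l) := by
  unfold K1
  exact continuous_const.mul (dS_cont.comp (by fun_prop))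

theorem K2_cont (r : ℝ) : Continuous (K2 r) := by
  unfold K2
  exact continuous_const.mul (dS_cont.comp (by fun_prop))

theorem K1_bd {CS l : ℝ} (hl : 0 < l) (h : ∀ s, |deriv S s| ≤ CS) (s : ℝ) :
    |K1 l s| ≤ 2 * CS / l := by
  unfold K1
  rw [abs_mul, abs_of_pos (by positivity)]
  calc 2 / l * |deriv S (2 / l * s - 1)| ≤ 2 / l * CS :=
        mul_le_mul_of_nonneg_left (h _) (by positivity)
    _ = 2 * CS / l := by ring

theorem K2_bd {CS r : ℝ} (hr : 0 < r) (hCS : 0 < CS) (h : ∀ s, |deriv S s| ≤ CS) (s : ℝ) :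
    |K2 r s| ≤ 2 * CS / r := by
  unfold K2
  rw [abs_mul, abs_of_pos (by positivity)]
  calc 1 / (10 * r) * |deriv S (5 - 1 / (10 * r) * s)| ≤ 1 / (10 * r) * CS :=
        mul_le_mul_of_nonneg_left (h _) (by positivity)
    _ = (1 / 10) * CS / r := by field_simp
    _ ≤ 2 * CS / r := by
        apply div_le_div_of_nonneg_right _ hr.le
        linarith

theorem S_one {s : ℝ} (h : 1 ≤ s) : S s = 1 := Real.smoothTransition.one_of_one_le h

theorem S_zero {s : ℝ} (h : s ≤ 0) : S s = 0 := Real.smoothTransition.zero_of_nonpos h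

theorem K1_int {l : ℝ} (hl : 0 < l) : ∫ s, K1 l s = 1 := by
  have h1 : Function.support (K1 l) ⊆ Ioc 0 (2 * l) := by
    intro s hs
    by_contra h
    apply hs
    by_cases h0 : s ≤ 0
    · exact K1_zero_left hl (by linarith)
    · refine K1_zero_right hl ?_
      by_contra h2
      exact h ⟨not_le.mp h0, by linarith⟩
  rw [← intervalIntegral.integral_eq_integral_of_support_subset h1,
    intervalIntegral.integral_eq_sub_of_hasDerivAt (fun s _ => hdu l s)
      ((K1_cont l).intervalIntegrable _ _)]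
  rw [S_one, S_zero]
  · norm_num
  · norm_num
  · have e : 2 / l * (2 * l) = 4 := by field_simp; norm_num
    linarith

theorem K2_int {r : ℝ} (hr : 0 < r) : ∫ s, K2 r s = 1 := by
  have h1 : Function.support (K2 r) ⊆ Ioc 0 (60 * r) := by
    intro s hs
    by_contra h
    apply hs
    by_cases h0 : s ≤ 0
    · exact K2_zero_left hr (by linarith)
    · refine K2_zero_right hr ?_
      by_contra h2
      exact h ⟨not_le.mp h0, by linarith⟩
  have h2 : ∀ s ∈ uIcc 0 (60 * r), HasDerivAt (fun s => -S (5 - 1 / (10 * r) * s)) (K2 r s) s := by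
    intro s _
    have := (hdv r s).neg
    rwa [neg_neg] at this
  rw [← intervalIntegral.integral_eq_integral_of_support_subset h1,
    intervalIntegral.integral_eq_sub_of_hasDerivAt h2 ((K2_cont r).intervalIntegrable _ _)]
  rw [S_zero, S_one]
  · norm_num
  · norm_num
  · have e : 1 / (10 * r) * (60 * r) = 6 := by field_simp; norm_num
    linarith

theorem et_deriv {l r : ℝ} (hl : 0 < l) (hlr : l ≤ r) (s : ℝ) :
    deriv (et' l r) s = K1 l s - K2 r s := by
  have hr : 0 < r := hl.trans_le hlr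
  have h := (hdu l s).mul (hdv r s)
  have h2 : deriv (et' l r) s = K1 l s * S (5 - 1 / (10 * r) * s)
      + S (2 / l * s - 1) * -K2 r s := h.deriv
  rw [h2]
  by_cases hs : s ≤ 40 * r
  · rw [K2_zero_left hr hs, S_one]
    · ring
    · have : 1 / (10 * r) * s ≤ 1 / (10 * r) * (40 * r) :=
        mul_le_mul_of_nonneg_left hs (by positivity)
      have e : 1 / (10 * r) * (40 * r) = 4 := by field_simp; norm_num
      linarith
  · push Not at hs
    rw [K1_zero_right hl (by linarith), S_one (s := 2 / l * s - 1)]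
    · ring
    · have : 2 / l * l ≤ 2 / l * s := mul_le_mul_of_nonneg_left (by linarith) (by positivity)
      have e : 2 / l * l = 2 := by field_simp
      linarith

theorem et_cd (l r : ℝ) : ContDiff ℝ 1 (et' l r) := by
  unfold et'
  exact (S_cd.comp (by fun_prop)).mul (S_cd.comp (by fun_prop))

theorem et_nonneg (l r s : ℝ) : 0 ≤ et' l r s :=
  mul_nonneg (Real.smoothTransition.nonneg _) (Real.smoothTransition.nonneg _)

theorem et_zero_left {l r s : ℝ} (hl : 0 < l) (hs : s ≤ l / 2) : et' l r s = 0 := by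
  unfold et'
  rw [S_zero (s := 2 / l * s - 1), zero_mul]
  have : 2 / l * s ≤ 2 / l * (l / 2) := mul_le_mul_of_nonneg_left hs (by positivity)
  have e : 2 / l * (l / 2) = 1 := by field_simp
  linarith

theorem et_zero_right {l r s : ℝ} (hr : 0 < r) (hs : 50 * r ≤ s) : et' l r s = 0 := by
  unfold et'
  rw [S_zero (s := 5 - 1 / (10 * r) * s), mul_zero]
  have : 1 / (10 * r) * (50 * r) ≤ 1 / (10 * r) * s := mul_le_mul_of_nonneg_left hs (by positivity)
  have e : 1 / (10 * r) * (50 * r) = 5 := by field_simp; norm_num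
  linarith

theorem et_one {l r s : ℝ} (hl : 0 < l) (hr : 0 < r) (h1 : l ≤ s) (h2 : s ≤ 40 * r) :
    et' l r s = 1 := by
  unfold et'
  have a1 : 2 / l * l ≤ 2 / l * s := mul_le_mul_of_nonneg_left h1 (by positivity)
  have e : 2 / l * l = 2 := by field_simp
  have a2 : 1 / (10 * r) * s ≤ 1 / (10 * r) * (40 * r) :=
    mul_le_mul_of_nonneg_left h2 (by positivity)
  have e2 : 1 / (10 * r) * (40 * r) = 4 := by field_simp; norm_num
  rw [S_one (by linarith), S_one (by linarith), mul_one]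

theorem so_tr {M : M3} (hM : M ∈ SO3) : M.transpose ∈ SO3 := by
  rw [Matrix.mem_specialOrthogonalGroup_iff] at hM ⊢
  obtain ⟨h1, h2⟩ := hM
  refine ⟨?_, by rw [Matrix.det_transpose]; exact h2⟩
  rw [Matrix.mem_orthogonalGroup_iff] at ⊢
  rw [Matrix.mem_orthogonalGroup_iff'] at h1
  rwa [Matrix.transpose_transpose]

theorem ae_back (hC : Stmt_CHV) {M : M3} (hM : M ∈ SO3) (p : E3) {l : ℝ} (hl : 0 < l)
    {P : E3 → Prop} (h : ∀ᵐ X, P (p + l • act M X)) : ∀ᵐ x, P x := by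
  have h1 := (hC (fun _ => 0) (-(l⁻¹ • act M.transpose p)) l⁻¹ M.transpose (inv_pos.mpr hl)
    (so_tr hM)).2.2.2.2 (fun X => P (p + l • act M X)) h
  filter_upwards [h1] with x hx
  have e : p + l • act M (-(l⁻¹ • act M.transpose p) + l⁻¹ • act M.transpose x) = x := by
    rw [act_add, act_neg, act_smul, act_smul, act_tr hC hM, act_tr hC hM, smul_add, smul_neg,
      smul_smul, smul_smul, mul_inv_cancel₀ hl.ne', one_smul, one_smul]
    abel
  rwa [e] at hx

theorem dfc_nonneg (hEN : Stmt_ENB) {M : M3} {X Y : E3} (hM : Good M) (hX : X ≠ 0) (hY : Y ≠ 0) :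
    0 ≤ dfc M X Y := by
  have hX' : 0 < ‖X‖ := norm_pos_iff.mpr hX
  have hY' : 0 < ‖Y‖ := norm_pos_iff.mpr hY
  obtain ⟨C, -, hC⟩ := hEN (min (‖Y‖ / ‖X‖) (‖X‖ / ‖Y‖))
    (lt_min (div_pos hY' hX') (div_pos hX' hY'))
  refine (hC M X Y hM hX ?_ ?_).1
  · calc min (‖Y‖ / ‖X‖) (‖X‖ / ‖Y‖) * ‖X‖ ≤ ‖Y‖ / ‖X‖ * ‖X‖ :=
        mul_le_mul_of_nonneg_right (min_le_left _ _) hX'.le
      _ = ‖Y‖ := div_mul_cancel₀ _ hX'.ne'
  · calc min (‖Y‖ / ‖X‖) (‖X‖ / ‖Y‖) * ‖Y‖ ≤ ‖X‖ / ‖Y‖ * ‖Y‖ :=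
        mul_le_mul_of_nonneg_right (min_le_right _ _) hY'.le
      _ = ‖X‖ := div_mul_cancel₀ _ hY'.ne'

theorem Ctx.nonneg (c : Ctx ε Ω f A γ O O' t) (hR : Stmt_ROT) (hC : Stmt_CHV) (hW : Stmt_WIN1)
    (hEN : Stmt_ENB) :
    ∀ᵐ x, 0 < ‖x - γ t‖ → ‖x - γ t‖ < 64 * len γ t 0 → 0 ≤ Dd f A (γ t) x := by
  refine ae_back hC (c.so 0) (γ t) (c.pos 0) ?_
  have hg := (ae_restrict_iff' measurableSet_ball).mp (c.nm 0).good
  filter_upwards [hg] with X hX
  have hp := c.pos 0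
  intro h1 h2
  have hn : ‖γ t + len γ t 0 • act (O t 0) X - γ t‖ = len γ t 0 * ‖X‖ := by
    rw [add_sub_cancel_left, norm_smul, norm_act hC (c.so 0), Real.norm_of_nonneg hp.le]
  have hne := c.ne hC hW h1 h2
  rw [hn] at h1 h2
  have hX1 : ‖X‖ < 64 := by
    by_contra h
    push Not at h
    nlinarith
  have hG := hX (by simpa using hX1)
  have h3 : act (O t 0) X ≠ 0 := by
    intro h
    have := norm_act hC (c.so 0) X
    rw [h, norm_zero] at this
    rw [← this, mul_zero] at h1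
    exact lt_irrefl _ h1
  have h4 := (hR (A (γ t + len γ t 0 • act (O t 0) X)) (O t 0) (O' t 0)
    (len γ t 0 / len (f ∘ γ) t 0) (len γ t 0) (len (f ∘ γ) t 0) (div_pos hp (c.pos' 0)) hp
    (c.pos' 0) rfl (c.so 0) (c.so' 0)).2.1 (len γ t 0 • act (O t 0) X)
    (f (γ t + len γ t 0 • act (O t 0) X) - f (γ t))
  unfold Dd
  refine div_nonneg ?_ (by positivity)
  rw [add_sub_cancel_left, ← h4]
  refine dfc_nonneg hEN hG ?_ ?_
  · rw [act_smul, tr_act hC (c.so 0), smul_smul, inv_mul_cancel₀ hp.ne', one_smul]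
    intro h
    rw [h, norm_zero, mul_zero] at h1
    exact lt_irrefl _ h1
  · intro h
    rw [smul_eq_zero] at h
    rcases h with h | h
    · exact absurd h (inv_ne_zero (c.pos' 0).ne')
    · have := norm_tr hC (c.so' 0) (f (γ t + len γ t 0 • act (O t 0) X) - f (γ t))
      rw [h, norm_zero] at this
      exact hne (sub_eq_zero.mp (norm_eq_zero.mp this.symm))

theorem Ctx.main (c : Ctx ε Ω f A γ O O' t) (hR : Stmt_ROT) (hC : Stmt_CHV) (hB : Stmt_BAS)
    (hW : Stmt_WIN1) (hP : Stmt_PIOI) (hFLC : Stmt_FLC) (hFLK : Stmt_FLK) (hFL8 : Stmt_FL8)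
    (hI : Stmt_IDT) (hG : Stmt_WGTc) (hEN : Stmt_ENB) {CE CS : ℝ}
    (hE : ∀ n, IntegrableOn (fun X => opn (nA f A γ O O' t n X) ^ 3) (Metric.ball (0 : E3) 62) ∧
      ∫ X in Metric.ball (0 : E3) 62, opn (nA f A γ O O' t n X) ^ 3 ≤ CE)
    (hCS : 0 < CS) (hS : ∀ s, |deriv S s| ≤ CS) (M : ℕ) :
    IntegrableOn (Dd f A (γ t)) {x | len γ t M < ‖x - γ t‖ ∧ ‖x - γ t‖ < 40 * len γ t 0} ∧
    ∫ x in {x | len γ t M < ‖x - γ t‖ ∧ ‖x - γ t‖ < 40 * len γ t 0}, Dd f A (γ t) x
      ≤ (16 * Real.pi / 3) * (FF f γ t M - FF f γ t 0)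
        + 2 * (2 * CS * 16 * (volume.real (Metric.ball (0 : E3) 62) + CE)) := by
  have hl := c.pos M
  have hr := c.pos 0
  have hlr := c.le0 M
  set l := len γ t M with hldef
  set r := len γ t 0 with hrdef
  set p := γ t with hpdef
  set U : Set E3 := {x | l < ‖x - p‖ ∧ ‖x - p‖ < 40 * r} with hU
  have hUm : MeasurableSet U := by
    have h1 : MeasurableSet {x : E3 | l < ‖x - p‖} := measurableSet_lt measurable_const (by fun_prop)
    have h2 : MeasurableSet {x : E3 | ‖x - p‖ < 40 * r} :=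
      measurableSet_lt (by fun_prop) measurable_const
    exact h1.inter h2
  have hUI : IntegrableOn (Dd f A p) U := by
    refine (c.Dd_int hC hW hP (a := l) (b := 40 * r) hl (by linarith)).mono_set ?_
    intro x hx
    exact ⟨hx.1.le, hx.2.le⟩
  refine ⟨hUI, ?_⟩
  -- the cut-off
  have z1 : ∀ s, s < l / 2 → et' l r s = 0 := fun s hs => et_zero_left hl hs.le
  have z2 : ∀ s, 50 * r < s → et' l r s = 0 := fun s hs => et_zero_right hr hs.le
  obtain ⟨s1, s2⟩ := supp_Icc z1 z2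
  have s3 : tsupport (et' l r) ⊆ Ioo 0 (60 * r) := s2.trans fun s hs =>
    ⟨lt_of_lt_of_le (by positivity) hs.1, lt_of_le_of_lt hs.2 (by linarith)⟩
  have hid := c.idt hR hC hW hP hFLC hFLK hFL8 hI hG (et' l r) (et_cd l r) s1 s3
  have hηI := (c.glob hC hW hP (a := l / 2) (b := 50 * r) (by positivity) (by linarith)
    (et_cd l r).continuous z1 z2).2.2
  -- the two parts of the derivative
  have a1 : ∀ s, s < l / 2 → K1 l s = 0 := fun s hs => K1_zero_left hl hs.le
  have a2 : ∀ s, l < s → K1 l s = 0 := fun s hs => K1_zero_right hl hs.le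
  have b1 : ∀ s, s < 40 * r → K2 r s = 0 := fun s hs => K2_zero_left hr hs.le
  have b2 : ∀ s, 50 * r < s → K2 r s = 0 := fun s hs => K2_zero_right hr hs.le
  obtain ⟨i1, i2, -⟩ := c.glob hC hW hP (a := l / 2) (b := l) (by positivity) (by linarith)
    (K1_cont l) a1 a2
  obtain ⟨j1, j2, -⟩ := c.glob hC hW hP (a := 40 * r) (b := 50 * r) (by positivity) (by linarith)
    (K2_cont r) b1 b2
  obtain ⟨t1, t2⟩ := supp_Icc a1 a2
  obtain ⟨u1, u2⟩ := supp_Icc b1 b2
  have f1 := c.flux hR hC hW hP hFLC hFLK hFL8 (K1 l) (K1_cont l) t1 (t2.trans fun s hs =>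
    ⟨lt_of_lt_of_le (by positivity) hs.1, lt_of_le_of_lt hs.2 (by linarith)⟩)
  have f2 := c.flux hR hC hW hP hFLC hFLK hFL8 (K2 r) (K2_cont r) u1 (u2.trans fun s hs =>
    ⟨lt_of_lt_of_le (by positivity) hs.1, lt_of_le_of_lt hs.2 (by linarith)⟩)
  rw [K1_int hl, mul_one] at f1
  rw [K2_int hr, mul_one] at f2
  have g1 : ∫ x, K1 l ‖x - p‖ * ph f A p x * (lm f p x + FF f γ t M)
      = (∫ x, K1 l ‖x - p‖ * ph f A p x * lm f p x) + FF f γ t M * (8 * Real.pi) := by
    rw [← f1, ← integral_const_mul, ← integral_add i2 (i1.const_mul _)]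
    refine integral_congr_ae (Filter.Eventually.of_forall fun x => ?_)
    simp only
    ring
  have g2 : ∫ x, K2 r ‖x - p‖ * ph f A p x * (lm f p x + FF f γ t 0)
      = (∫ x, K2 r ‖x - p‖ * ph f A p x * lm f p x) + FF f γ t 0 * (8 * Real.pi) := by
    rw [← f2, ← integral_const_mul, ← integral_add j2 (j1.const_mul _)]
    refine integral_congr_ae (Filter.Eventually.of_forall fun x => ?_)
    simp only
    ring
  have g3 : ∫ x, deriv (et' l r) ‖x - p‖ * ph f A p x * lm f p x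
      = (∫ x, K1 l ‖x - p‖ * ph f A p x * lm f p x)
        - ∫ x, K2 r ‖x - p‖ * ph f A p x * lm f p x := by
    rw [← integral_sub i2 j2]
    refine integral_congr_ae (Filter.Eventually.of_forall fun x => ?_)
    simp only [et_deriv hl hlr]
    ring
  have E1 := c.err hR hC hB hW M (hE M).1 (hE M).2 (K1 l) (2 * CS) (by positivity)
    (K1_bd hl hS) (fun s hs => K1_zero_left hl hs) (fun s hs => K1_zero_right hl (by linarith))
  have E2 := c.err hR hC hB hW 0 (hE 0).1 (hE 0).2 (K2 r) (2 * CS) (by positivity)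
    (K2_bd hr hCS hS) (fun s hs => K2_zero_left hr (by linarith)) (fun s hs => K2_zero_right hr hs)
  rw [g1] at E1
  rw [g2] at E2
  rw [g3] at hid
  have hle : ∫ x in U, Dd f A p x ≤ ∫ x, et' l r ‖x - p‖ * Dd f A p x := by
    rw [← integral_indicator hUm]
    refine integral_mono_ae ((integrable_indicator_iff hUm).mpr hUI) hηI ?_
    filter_upwards [c.nonneg hR hC hW hEN] with x hx
    by_cases hxU : x ∈ U
    · rw [Set.indicator_of_mem hxU]
      rw [et_one hl hr hxU.1.le hxU.2.le, one_mul]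
    · rw [Set.indicator_of_notMem hxU]
      by_cases h1 : ‖x - p‖ ≤ l / 2
      · rw [et_zero_left hl h1, zero_mul]
      by_cases h2 : 50 * r ≤ ‖x - p‖
      · rw [et_zero_right hr h2, zero_mul]
      push Not at h1 h2
      exact mul_nonneg (et_nonneg _ _ _) (hx (by linarith) (by linarith))
  refine hle.trans ?_
  rw [hid]
  have A1 := (abs_le.mp E1).1
  have A2 := (abs_le.mp E2).2
  have hV : 0 ≤ 2 * CS * 16 * (volume.real (Metric.ball (0 : E3) 62) + CE) :=
    (abs_nonneg _).trans E1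
  generalize (∫ x, K1 l ‖x - p‖ * ph f A p x * lm f p x) = I1 at *
  generalize (∫ x, K2 r ‖x - p‖ * ph f A p x * lm f p x) = I2 at *
  generalize 2 * CS * 16 * (volume.real (Metric.ball (0 : E3) 62) + CE) = B at *
  generalize FF f γ t M = FM at *
  generalize FF f γ t 0 = F0 at *
  linarith

end RING_

theorem stmt_RING (hFLC : Stmt_FLC) (hFLK : Stmt_FLK) (hFL8 : Stmt_FL8) (hIDT : Stmt_IDT)
    (hENER : Stmt_ENER) (hNRM : Stmt_NRM) (hSCL : Stmt_SCL) (hPIOI : Stmt_PIOI) (hENB : Stmt_ENB)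
    (hCHV : Stmt_CHV) (hROT : Stmt_ROT) (hBAS : Stmt_BAS) (hWIN1 : Stmt_WIN1) (hWGT : Stmt_WGTc) :
    Stmt_RING := by
  obtain ⟨CE, hCE, hE⟩ := hENER
  obtain ⟨CS, hCS, hS⟩ := RING_.dS_bd
  refine ⟨2 * (2 * CS * 16 * (volume.real (Metric.ball (0 : E3) 62) + CE)), by positivity, ?_⟩
  intro ε Ω f A γ O O' h0 h1 hΩ hq hd hpk t ht M
  have hnm := hNRM ε Ω f A γ O O' 2 hΩ hq hd le_rfl hpk t ht
  have c : RING_.Ctx ε Ω f A γ O O' t := by
    refine ⟨h0, h1, hΩ, hq, hpk, ht, fun n => (hnm n).1, fun n => ?_⟩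
    have h := ((hSCL ε Ω f γ O O' h0 h1 hpk t ht n).1 0 1 (by norm_num) (by simpa using ht)
      (by norm_num)).1
    rw [zero_mul, add_zero] at h
    have e : sc 1 = 1 / 2 := by unfold sc; norm_num
    rwa [e] at h
  exact c.main hROT hCHV hBAS hWIN1 hPIOI hFLC hFLK hFL8 hIDT hWGT hENB
    (fun n => hE ε _ _ (by linarith) (hnm n).1) hCS hS M

end Pool.Mart
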