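import Pool.Agent.Work.MP_680515_an.IfaceA

/-!
RINT.  Radial integration in three dimensional space.
-/

open MeasureTheory Set Filter Topology Complex

namespace Pool.Mart


theorem RINT_vol : (volume : Measure (EuclideanSpace ℝ (Fin 3))).real (Metric.ball 0 1)
    = 4 * Real.pi / 3 := by
  have h := EuclideanSpace.volume_ball_fin_three (0 : EuclideanSpace ℝ (Fin 3)) 1
  rw [Measure.real, h]
  rw [ENNReal.toReal_mul, ENNReal.toReal_pow, ENNReal.toReal_ofReal zero_le_one]
  rw [ENNReal.toReal_ofReal (by positivity)]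
  ring

theorem stmt_RINT : Stmt_RINT := by
  intro h r1 R hr1 _ _ hsupp
  have h0 : ∀ r : ℝ, r ∉ Ioi (0 : ℝ) → h r * r ^ 2 = 0 := by
    intro r hr
    have : r ∉ tsupport h := by
      intro hmem
      have := hsupp hmem
      exact hr (lt_of_le_of_lt hr1 this.1)
    rw [image_eq_zero_of_notMem_tsupport this, zero_mul]
  have h1 : ∫ r, h r * r ^ 2 = ∫ r in Ioi (0 : ℝ), h r * r ^ 2 :=
    (setIntegral_eq_integral_of_forall_compl_eq_zero h0).symm
  have h2 := integral_fun_norm_addHaar (volume : Measure (EuclideanSpace ℝ (Fin 3))) h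
  have h3 : Module.finrank ℝ (EuclideanSpace ℝ (Fin 3)) = 3 := by simp
  rw [h3, RINT_vol] at h2
  have h4 : ∫ X : E3, h ‖X‖ = ∫ X : EuclideanSpace ℝ (Fin 3), h ‖X‖ := rfl
  rw [h4, h2, h1]
  simp only [nsmul_eq_mul, smul_eq_mul]
  have h5 : ∫ r in Ioi (0 : ℝ), r ^ (3 - 1) * h r = ∫ r in Ioi (0 : ℝ), h r * r ^ 2 := by
    refine integral_congr_ae (Eventually.of_forall fun r => ?_)
    show r ^ (3 - 1) * h r = h r * r ^ 2
    ring
  rw [h5]
  push_cast
  ring

end Pool.Mart
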