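import Pool.Agent.Work.MP_680515_an.IfaceL

/-! # MP_680515_an: block ROT (helper93) -/

open MeasureTheory Set Filter Topology Complex

namespace Pool.Mart

namespace ROT_

theorem act_adj (M : M3) (v w : E3) : inner ℝ (act M v) w = inner ℝ v (act M.transpose w) := by
  simp only [PiLp.inner_apply, act, Matrix.mulVec, dotProduct, Fin.sum_univ_three,
    Matrix.transpose_apply, RCLike.inner_apply, conj_trivial]
  ring

theorem act_smul (M : M3) (c : ℝ) (v : E3) : act M (c • v) = c • act M v := by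
  unfold act
  rw [WithLp.ofLp_smul, Matrix.mulVec_smul, WithLp.toLp_smul]

theorem smul_act (M : M3) (c : ℝ) (v : E3) : act (c • M) v = c • act M v := by
  unfold act
  rw [Matrix.smul_mulVec, WithLp.toLp_smul]

theorem mul_act (M M' : M3) (v : E3) : act (M * M') v = act M (act M' v) := by
  unfold act
  rw [← Matrix.mulVec_mulVec]

theorem one_act (v : E3) : act 1 v = v := by
  unfold act
  rw [Matrix.one_mulVec, WithLp.toLp_ofLp]

theorem so_data {O : M3} (hO : O ∈ Matrix.specialOrthogonalGroup (Fin 3) ℝ) :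
    O.transpose * O = 1 ∧ O * O.transpose = 1 ∧ O.det = 1 := by
  rw [Matrix.mem_specialOrthogonalGroup_iff] at hO
  obtain ⟨h1, h2⟩ := hO
  have h3 := (Matrix.mem_orthogonalGroup_iff (Fin 3) ℝ).1 h1
  have h4 := (Matrix.mem_orthogonalGroup_iff' (Fin 3) ℝ).1 h1
  exact ⟨h4, h3, h2⟩

theorem cofm_mul (M M' : M3) : cofm (M * M') = cofm M * cofm M' := by
  unfold cofm
  rw [Matrix.adjugate_mul_distrib, Matrix.transpose_mul]

theorem cofm_smul (M : M3) (c : ℝ) : cofm (c • M) = c ^ 2 • cofm M := by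
  unfold cofm
  rw [Matrix.adjugate_smul, Matrix.transpose_smul]
  simp

theorem cofm_so {O : M3} (h1 : O.transpose * O = 1) (h3 : O.det = 1) : cofm O = O := by
  unfold cofm
  have h : O.adjugate = O.transpose := by
    calc O.adjugate = (O.transpose * O) * O.adjugate := by rw [h1, one_mul]
      _ = O.transpose * (O * O.adjugate) := by rw [mul_assoc]
      _ = O.transpose := by rw [Matrix.mul_adjugate, h3, one_smul, mul_one]
  rw [h, Matrix.transpose_transpose]

theorem norm_iso {O : M3} (h1 : O.transpose * O = 1) (v : E3) : ‖act O v‖ = ‖v‖ := by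
  have h : ‖act O v‖ ^ 2 = ‖v‖ ^ 2 := by
    rw [← real_inner_self_eq_norm_sq, ← real_inner_self_eq_norm_sq, act_adj, ← mul_act, h1,
      one_act]
  exact (pow_left_inj₀ (norm_nonneg _) (norm_nonneg _) two_ne_zero).1 h

theorem opn_le (hBAS : Stmt_BAS) {O O' : M3} (h1 : O.transpose * O = 1)
    (h2 : O' * O'.transpose = 1) (M : M3) (c : ℝ) (hc : 0 ≤ c) :
    opn (c • (O'.transpose * M * O)) ≤ c * opn M := by
  obtain ⟨hop, hle, _⟩ := hBAS
  refine hle _ _ (mul_nonneg hc (norm_nonneg _)) fun v => ?_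
  rw [smul_act, mul_act, mul_act, norm_smul, Real.norm_eq_abs, abs_of_nonneg hc,
    norm_iso (O := O'.transpose) (by rw [Matrix.transpose_transpose]; exact h2)]
  have h := hop M (act O v)
  rw [norm_iso h1] at h
  calc c * ‖act M (act O v)‖ ≤ c * (opn M * ‖v‖) := mul_le_mul_of_nonneg_left h hc
    _ = c * opn M * ‖v‖ := by ring

theorem opn_eq (hBAS : Stmt_BAS) {O O' : M3} (h1 : O.transpose * O = 1)
    (h1' : O * O.transpose = 1) (h2 : O' * O'.transpose = 1) (h2' : O'.transpose * O' = 1)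
    (M : M3) (c : ℝ) (hc : 0 < c) :
    opn (c • (O'.transpose * M * O)) = c * opn M := by
  refine le_antisymm (opn_le hBAS h1 h2 M c hc.le) ?_
  have h := opn_le hBAS (O := O.transpose) (O' := O'.transpose)
    (by rw [Matrix.transpose_transpose]; exact h1') (by rw [Matrix.transpose_transpose]; exact h2')
    (c • (O'.transpose * M * O)) c⁻¹ (by positivity)
  have h3 : c⁻¹ • (O'.transpose.transpose * (c • (O'.transpose * M * O)) * O.transpose) = M := by
    rw [Matrix.transpose_transpose, Matrix.mul_smul, Matrix.smul_mul, smul_smul,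
      inv_mul_cancel₀ hc.ne', one_smul]
    calc O' * (O'.transpose * M * O) * O.transpose
        = (O' * O'.transpose) * M * (O * O.transpose) := by simp only [mul_assoc]
      _ = M := by rw [h2, h1', one_mul, mul_one]
  rw [h3, le_inv_mul_iff₀ hc] at h
  exact h

end ROT_

open ROT_

theorem stmt_ROT (hBAS : Stmt_BAS) : Stmt_ROT := by
  intro A O O' c l l' hc hl hl' hcl hO hO'
  obtain ⟨a1, a2, a3⟩ := so_data hO
  obtain ⟨b1, b2, b3⟩ := so_data hO'
  have hcof : cofm (c • (O'.transpose * A * O)) = c ^ 2 • (O'.transpose * cofm A * O) := by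
    rw [cofm_smul, cofm_mul, cofm_mul, cofm_so a1 a3,
      cofm_so (O := O'.transpose) (by rw [Matrix.transpose_transpose]; exact b2)
        (by rw [Matrix.det_transpose]; exact b3)]
  have hoc : opn (cofm (c • (O'.transpose * A * O))) = c ^ 2 * opn (cofm A) := by
    rw [hcof]
    exact opn_eq hBAS a1 a2 b2 b1 _ _ (by positivity)
  have hdet : (c • (O'.transpose * A * O)).det = c ^ 3 * A.det := by
    rw [Matrix.det_smul, Matrix.det_mul, Matrix.det_mul, Matrix.det_transpose, a3, b3]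
    simp
  have hop : opn (c • (O'.transpose * A * O)) = c * opn A := opn_eq hBAS a1 a2 b2 b1 _ _ hc
  refine ⟨?_, ?_, hoc, hdet, hop⟩
  · rintro ⟨g1, g2⟩
    refine ⟨?_, ?_⟩
    · rw [hoc, hdet]
      calc (c ^ 2 * opn (cofm A)) ^ 3 = c ^ 6 * opn (cofm A) ^ 3 := by ring
        _ ≤ c ^ 6 * (2 * A.det ^ 2) := mul_le_mul_of_nonneg_left g1 (by positivity)
        _ = 2 * (c ^ 3 * A.det) ^ 2 := by ring
    · rw [hop, hdet]
      calc (c * opn A) ^ 3 = c ^ 3 * opn A ^ 3 := by ring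
        _ ≤ c ^ 3 * (4 * A.det) := mul_le_mul_of_nonneg_left g2 (by positivity)
        _ = 4 * (c ^ 3 * A.det) := by ring
  · intro X Y
    have nX : ‖l⁻¹ • act O.transpose X‖ = ‖X‖ / l := by
      rw [norm_smul, Real.norm_eq_abs, abs_of_pos (by positivity),
        norm_iso (O := O.transpose) (by rw [Matrix.transpose_transpose]; exact a2)]
      field_simp
    have nY : ‖l'⁻¹ • act O'.transpose Y‖ = ‖Y‖ / l' := by
      rw [norm_smul, Real.norm_eq_abs, abs_of_pos (by positivity),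
        norm_iso (O := O'.transpose) (by rw [Matrix.transpose_transpose]; exact b2)]
      field_simp
    have hratio : (‖X‖ / l) / (‖Y‖ / l') = (‖X‖ / ‖Y‖) / c := by
      rw [hcl, div_div_div_eq, div_div_div_eq, mul_comm l]
    have uX : (‖X‖ / l)⁻¹ • l⁻¹ • act O.transpose X = act O.transpose (‖X‖⁻¹ • X) := by
      rw [act_smul, smul_smul]
      congr 1
      rw [inv_div]
      field_simp
    have uY : (‖Y‖ / l')⁻¹ • l'⁻¹ • act O'.transpose Y = act O'.transpose (‖Y‖⁻¹ • Y) := by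
      rw [act_smul, smul_smul]
      congr 1
      rw [inv_div]
      field_simp
    have hcp : cpair (c • (O'.transpose * A * O)) (act O'.transpose (‖Y‖⁻¹ • Y))
        (act O.transpose (‖X‖⁻¹ • X)) = c ^ 2 * cpair A (‖Y‖⁻¹ • Y) (‖X‖⁻¹ • X) := by
      rw [hBAS.2.2.1, hBAS.2.2.1, hcof, smul_act, mul_act, mul_act, ← mul_act O O.transpose, a2,
        one_act, real_inner_smul_right, act_adj, Matrix.transpose_transpose, ← mul_act, b2,
        one_act]
    unfold dfc
    rw [nX, nY, hratio, uX, uY, hcp, hdet]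
    have hc' : c ≠ 0 := hc.ne'
    have e1 : 2 / 3 * (c ^ 3 * A.det) * ((‖X‖ / ‖Y‖) ^ 3 / c ^ 3)
        = 2 / 3 * A.det * (‖X‖ / ‖Y‖) ^ 3 := by
      rw [show 2 / 3 * (c ^ 3 * A.det) * ((‖X‖ / ‖Y‖) ^ 3 / c ^ 3)
        = (2 / 3 * A.det * (‖X‖ / ‖Y‖) ^ 3) * (c ^ 3 / c ^ 3) by ring,
        div_self (pow_ne_zero 3 hc'), mul_one]
    have e2 : (‖X‖ / ‖Y‖) ^ 2 / c ^ 2 * (c ^ 2 * cpair A (‖Y‖⁻¹ • Y) (‖X‖⁻¹ • X))
        = (‖X‖ / ‖Y‖) ^ 2 * cpair A (‖Y‖⁻¹ • Y) (‖X‖⁻¹ • X) := by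
      rw [show (‖X‖ / ‖Y‖) ^ 2 / c ^ 2 * (c ^ 2 * cpair A (‖Y‖⁻¹ • Y) (‖X‖⁻¹ • X))
        = ((‖X‖ / ‖Y‖) ^ 2 * cpair A (‖Y‖⁻¹ • Y) (‖X‖⁻¹ • X)) * (c ^ 2 / c ^ 2) by ring,
        div_self (pow_ne_zero 2 hc'), mul_one]
    rw [div_pow (‖X‖ / ‖Y‖) c 3, div_pow (‖X‖ / ‖Y‖) c 2, e1, e2]

end Pool.Mart
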