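import Pool.Agent.Work.MP_680515_an.IfaceH

/-!
# MP_680515_an, block ROTF: small rotation moving a unit vector to a close unit vector

The rotation is the product of the half turns around `u` and around the bisector of `u`, `v`.
-/

open MeasureTheory Set Filter Topology Complex

namespace Pool.Mart

/-- Half turn around `a`. -/
noncomputable def ROTF_.Hm (a : E3) : M3 :=
  Matrix.of fun i j => 2 * a i * a j - (1 : M3) i j

/-- Half turn around `a`, as a map. -/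
noncomputable def ROTF_.h (a x : E3) : E3 := (2 * inner ℝ a x : ℝ) • a - x

theorem ROTF_.inner3 (a x : E3) : (inner ℝ a x : ℝ) = a 0 * x 0 + a 1 * x 1 + a 2 * x 2 := by
  rw [PiLp.inner_apply, Fin.sum_univ_three]
  simp
  ring

theorem ROTF_.unit3 (a : E3) (ha : ‖a‖ = 1) : a 0 ^ 2 + a 1 ^ 2 + a 2 ^ 2 = 1 := by
  have h1 : (inner ℝ a a : ℝ) = 1 := by rw [real_inner_self_eq_norm_sq, ha]; norm_num
  rw [ROTF_.inner3] at h1
  linarith

theorem ROTF_.act_Hm (a x : E3) : act (ROTF_.Hm a) x = ROTF_.h a x := by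
  ext i
  unfold act ROTF_.h
  rw [ROTF_.inner3]
  simp only [ROTF_.Hm, Matrix.mulVec, dotProduct, Fin.sum_univ_three, Matrix.of_apply,
    PiLp.sub_apply, PiLp.smul_apply, smul_eq_mul]
  fin_cases i <;> simp [Matrix.one_apply] <;> ring

theorem ROTF_.act_mul (A B : M3) (x : E3) : act (A * B) x = act A (act B x) := by
  unfold act
  simp [Matrix.mulVec_mulVec]

theorem ROTF_.mem (a : E3) (ha : ‖a‖ = 1) :
    ROTF_.Hm a ∈ Matrix.specialOrthogonalGroup (Fin 3) ℝ := by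
  have h1 := ROTF_.unit3 a ha
  rw [Matrix.mem_specialOrthogonalGroup_iff]
  constructor
  · rw [Matrix.mem_orthogonalGroup_iff]
    ext i j
    rw [Matrix.mul_apply, Fin.sum_univ_three]
    simp only [ROTF_.Hm, Matrix.of_apply]
    have h2 : a 0 ^ 2 = 1 - a 1 ^ 2 - a 2 ^ 2 := by linarith
    fin_cases i <;> fin_cases j <;> simp [Matrix.one_apply] <;> ring_nf
    all_goals first | linear_combination (4 * a 0 ^ 2) * h1 | linear_combination (4 * a 1 ^ 2) * h1 | linear_combination (4 * a 2 ^ 2) * h1 | linear_combination (4 * a 0 * a 1) * h1 | linear_combination (4 * a 0 * a 2) * h1 | linear_combination (4 * a 1 * a 2) * h1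
  · rw [Matrix.det_fin_three]
    simp [ROTF_.Hm, Matrix.one_apply]
    linear_combination 2 * h1

theorem ROTF_.norm_h (a x : E3) (ha : ‖a‖ = 1) : ‖ROTF_.h a x‖ = ‖x‖ := by
  have h1 : ‖ROTF_.h a x‖ ^ 2 = ‖x‖ ^ 2 := by
    unfold ROTF_.h
    rw [norm_sub_sq_real, norm_smul, inner_smul_left, ha, Real.norm_eq_abs, mul_one, sq_abs]
    simp
    ring
  exact (sq_eq_sq₀ (norm_nonneg _) (norm_nonneg _)).mp h1

theorem ROTF_.h_h (a x : E3) (ha : ‖a‖ = 1) : ROTF_.h a (ROTF_.h a x) = x := by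
  have h1 : (inner ℝ a a : ℝ) = 1 := by rw [real_inner_self_eq_norm_sq, ha]; norm_num
  unfold ROTF_.h
  rw [inner_sub_right, inner_smul_right, h1]
  module

theorem ROTF_.h_sub (a x y : E3) : ROTF_.h a (x - y) = ROTF_.h a x - ROTF_.h a y := by
  unfold ROTF_.h
  rw [inner_sub_right]
  module

theorem stmt_ROTF : Stmt_ROTF := by
  intro u v hu hv huv
  have huu : (inner ℝ u u : ℝ) = 1 := by rw [real_inner_self_eq_norm_sq, hu]; norm_num
  have hvv : (inner ℝ v v : ℝ) = 1 := by rw [real_inner_self_eq_norm_sq, hv]; norm_num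
  set c : ℝ := inner ℝ u v with hc
  have hd : ‖u - v‖ ^ 2 = 2 - 2 * c := by
    rw [norm_sub_sq_real, hu, hv]; ring
  have hc1 : 1 / 2 ≤ c := by
    have : ‖u - v‖ ^ 2 ≤ 1 := by
      have := norm_nonneg (u - v)
      nlinarith
    linarith
  have hc2 : c ≤ 1 := by nlinarith [sq_nonneg ‖u - v‖]
  set s : ℝ := ‖u + v‖ with hs
  have hs2 : s ^ 2 = 2 + 2 * c := by
    rw [hs, norm_add_sq_real, hu, hv]; ring
  have hs0 : 0 < s := by
    rcases (norm_nonneg (u + v)).lt_or_eq with h | h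
    · exact h
    · exfalso
      have : s = 0 := h.symm
      rw [this] at hs2
      linarith
  set m : E3 := s⁻¹ • (u + v) with hm
  have hm1 : ‖m‖ = 1 := by
    rw [hm, norm_smul, norm_inv, Real.norm_eq_abs, abs_of_pos hs0]
    exact inv_mul_cancel₀ hs0.ne'
  have hmu : (inner ℝ m u : ℝ) = s⁻¹ * (1 + c) := by
    rw [hm, inner_smul_left, inner_add_left, huu, real_inner_comm]
    simp [hc]
  have hum : ‖u - m‖ ≤ ‖u - v‖ := by
    have e1 : ‖u - m‖ ^ 2 = 2 - 2 * (s⁻¹ * (1 + c)) := by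
      rw [norm_sub_sq_real, hu, hm1, real_inner_comm, hmu]; ring
    have e2 : s⁻¹ * (1 + c) = s / 2 := by
      field_simp
      linarith
    have e3 : c ≤ s / 2 := by nlinarith
    have e4 : ‖u - m‖ ^ 2 ≤ ‖u - v‖ ^ 2 := by rw [e1, hd, e2]; linarith
    exact (sq_le_sq₀ (norm_nonneg _) (norm_nonneg _)).mp e4
  have hhm : ROTF_.h m u = v := by
    unfold ROTF_.h
    rw [hmu, hm, smul_smul]
    have e1 : 2 * (s⁻¹ * (1 + c)) * s⁻¹ = 1 := by
      field_simp
      linarith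
    rw [e1]
    module
  have hhu : ROTF_.h u u = u := by
    unfold ROTF_.h
    rw [huu]
    module
  refine ⟨ROTF_.Hm m * ROTF_.Hm u, mul_mem (ROTF_.mem m hm1) (ROTF_.mem u hu), ?_, ?_⟩
  · rw [ROTF_.act_mul, ROTF_.act_Hm, ROTF_.act_Hm, hhu, hhm]
  · intro x
    rw [ROTF_.act_mul, ROTF_.act_Hm, ROTF_.act_Hm]
    have e1 : ROTF_.h m (ROTF_.h u x) - x = ROTF_.h m (ROTF_.h u x - ROTF_.h m x) := by
      rw [ROTF_.h_sub, ROTF_.h_h m x hm1]
    rw [e1, ROTF_.norm_h _ _ hm1]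
    have e2 : ROTF_.h u x - ROTF_.h m x
        = (2 * inner ℝ u x : ℝ) • (u - m) + (2 * inner ℝ (u - m) x : ℝ) • m := by
      unfold ROTF_.h
      rw [inner_sub_left]
      module
    rw [e2]
    have e3 : |(inner ℝ u x : ℝ)| ≤ ‖x‖ := by
      have := abs_real_inner_le_norm u x
      rwa [hu, one_mul] at this
    have e4 : |(inner ℝ (u - m) x : ℝ)| ≤ ‖u - m‖ * ‖x‖ := abs_real_inner_le_norm _ _
    calc ‖(2 * inner ℝ u x : ℝ) • (u - m) + (2 * inner ℝ (u - m) x : ℝ) • m‖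
        ≤ ‖(2 * inner ℝ u x : ℝ) • (u - m)‖ + ‖(2 * inner ℝ (u - m) x : ℝ) • m‖ :=
          norm_add_le _ _
      _ = 2 * |(inner ℝ u x : ℝ)| * ‖u - m‖ + 2 * |(inner ℝ (u - m) x : ℝ)| := by
          rw [norm_smul, norm_smul, hm1, Real.norm_eq_abs, Real.norm_eq_abs, abs_mul, abs_mul,
            abs_two, mul_one]
      _ ≤ 2 * ‖x‖ * ‖u - m‖ + 2 * (‖u - m‖ * ‖x‖) := by gcongr
      _ = 4 * ‖u - m‖ * ‖x‖ := by ring
      _ ≤ 4 * ‖u - v‖ * ‖x‖ := by gcongr

end Pool.Mart
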