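import Pool.Agent.Work.MP_680515_an.IfaceM

open MeasureTheory Set Filter Topology Complex

namespace Pool.Mart

namespace ROTZ_

lemma nsq (v : E3) : ‖v‖ ^ 2 = v 0 ^ 2 + v 1 ^ 2 + v 2 ^ 2 := by
  rw [EuclideanSpace.norm_sq_eq, Fin.sum_univ_three]
  simp only [Real.norm_eq_abs, sq_abs]

lemma c0 (v : E3) : |v 0| ≤ ‖v‖ := by
  refine abs_le_of_sq_le_sq ?_ (norm_nonneg v)
  rw [nsq]
  nlinarith [sq_nonneg (v 1), sq_nonneg (v 2)]

lemma c1 (v : E3) : |v 1| ≤ ‖v‖ := by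
  refine abs_le_of_sq_le_sq ?_ (norm_nonneg v)
  rw [nsq]
  nlinarith [sq_nonneg (v 0), sq_nonneg (v 2)]

lemma c2 (v : E3) : |v 2| ≤ ‖v‖ := by
  refine abs_le_of_sq_le_sq ?_ (norm_nonneg v)
  rw [nsq]
  nlinarith [sq_nonneg (v 0), sq_nonneg (v 1)]

lemma act_apply (M : M3) (Y : E3) (i : Fin 3) :
    act M Y i = M i 0 * Y 0 + M i 1 * Y 1 + M i 2 * Y 2 := by
  simp only [act, Matrix.mulVec, dotProduct, Fin.sum_univ_three]

lemma act_e3 (M : M3) (i : Fin 3) : act M e3 i = M i 2 := by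
  rw [act_apply]
  simp [e3]

lemma norm_bound (v : E3) (b : ℝ) (hb : 0 ≤ b) (h0 : |v 0| ≤ b) (h1 : |v 1| ≤ b)
    (h2 : |v 2| ≤ b) : ‖v‖ ≤ 2 * b := by
  refine le_of_abs_le (abs_le_of_sq_le_sq ?_ (by linarith))
  rw [nsq]
  have k0 : v 0 ^ 2 ≤ b ^ 2 := by
    rw [← sq_abs (v 0)]
    exact pow_le_pow_left₀ (abs_nonneg _) h0 2
  have k1 : v 1 ^ 2 ≤ b ^ 2 := by
    rw [← sq_abs (v 1)]
    exact pow_le_pow_left₀ (abs_nonneg _) h1 2
  have k2 : v 2 ^ 2 ≤ b ^ 2 := by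
    rw [← sq_abs (v 2)]
    exact pow_le_pow_left₀ (abs_nonneg _) h2 2
  nlinarith

lemma diff_bound (M N : M3) (η : ℝ) (hη : 0 ≤ η) (h : ∀ i j, |M i j - N i j| ≤ η) (Y : E3) :
    ‖act M Y - act N Y‖ ≤ 6 * η * ‖Y‖ := by
  have key : ∀ i : Fin 3, |(act M Y - act N Y) i| ≤ 3 * η * ‖Y‖ := by
    intro i
    rw [PiLp.sub_apply, act_apply, act_apply]
    have e : M i 0 * Y 0 + M i 1 * Y 1 + M i 2 * Y 2 - (N i 0 * Y 0 + N i 1 * Y 1 + N i 2 * Y 2)
        = (M i 0 - N i 0) * Y 0 + (M i 1 - N i 1) * Y 1 + (M i 2 - N i 2) * Y 2 := by ring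
    rw [e]
    have k0 : |(M i 0 - N i 0) * Y 0| ≤ η * ‖Y‖ := by
      rw [abs_mul]
      exact mul_le_mul (h i 0) (c0 Y) (abs_nonneg _) hη
    have k1 : |(M i 1 - N i 1) * Y 1| ≤ η * ‖Y‖ := by
      rw [abs_mul]
      exact mul_le_mul (h i 1) (c1 Y) (abs_nonneg _) hη
    have k2 : |(M i 2 - N i 2) * Y 2| ≤ η * ‖Y‖ := by
      rw [abs_mul]
      exact mul_le_mul (h i 2) (c2 Y) (abs_nonneg _) hη
    refine (abs_add_three _ _ _).trans ?_
    linarith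
  have hY : 0 ≤ 3 * η * ‖Y‖ := by positivity
  refine (norm_bound _ _ hY (key 0) (key 1) (key 2)).trans ?_
  linarith

lemma core (S : M3) (δ : ℝ) (hS : S ∈ Matrix.specialOrthogonalGroup (Fin 3) ℝ)
    (hδ : rad (act S e3) ≤ δ) (hδ2 : δ ≤ 1 / 2) (hp : 0 < act S e3 2) :
    ∃ α : ℝ, ∀ i j, |S i j - rotz α i j| ≤ 3 * δ := by
  rw [Matrix.mem_specialOrthogonalGroup_iff] at hS
  obtain ⟨hO, hdet⟩ := hS
  have hO1 : S * S.transpose = 1 := (Matrix.mem_orthogonalGroup_iff (Fin 3) ℝ).1 hO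
  have hO2 : S.transpose * S = 1 := (Matrix.mem_orthogonalGroup_iff' (Fin 3) ℝ).1 hO
  have hadj : S.adjugate = S.transpose := by
    have h1 : S.adjugate * S = 1 := by
      rw [Matrix.adjugate_mul, hdet, one_smul]
    calc S.adjugate = S.adjugate * (S * S.transpose) := by rw [hO1, mul_one]
      _ = (S.adjugate * S) * S.transpose := by rw [mul_assoc]
      _ = S.transpose := by rw [h1, one_mul]
  have r2 : S 2 0 ^ 2 + S 2 1 ^ 2 + S 2 2 ^ 2 = 1 := by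
    have h := congrFun (congrFun hO1 2) 2
    rw [Matrix.mul_apply, Fin.sum_univ_three, Matrix.one_apply_eq] at h
    simp only [Matrix.transpose_apply] at h
    linarith
  have k2 : S 0 2 ^ 2 + S 1 2 ^ 2 + S 2 2 ^ 2 = 1 := by
    have h := congrFun (congrFun hO2 2) 2
    rw [Matrix.mul_apply, Fin.sum_univ_three, Matrix.one_apply_eq] at h
    simp only [Matrix.transpose_apply] at h
    linarith
  have k0 : S 0 0 ^ 2 + S 1 0 ^ 2 + S 2 0 ^ 2 = 1 := by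
    have h := congrFun (congrFun hO2 0) 0
    rw [Matrix.mul_apply, Fin.sum_univ_three, Matrix.one_apply_eq] at h
    simp only [Matrix.transpose_apply] at h
    linarith
  have a01 : S 0 1 = -(S 1 0 * S 2 2) + S 1 2 * S 2 0 := by
    have h := congrFun (congrFun hadj 1) 0
    rw [Matrix.adjugate_fin_three] at h
    simp only [Matrix.transpose_apply, Matrix.of_apply, Matrix.cons_val', Matrix.cons_val_zero,
      Matrix.cons_val_one] at h
    exact h.symm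
  have a11 : S 1 1 = S 0 0 * S 2 2 - S 0 2 * S 2 0 := by
    have h := congrFun (congrFun hadj 1) 1
    rw [Matrix.adjugate_fin_three] at h
    simp only [Matrix.transpose_apply, Matrix.of_apply, Matrix.cons_val', Matrix.cons_val_zero,
      Matrix.cons_val_one] at h
    exact h.symm
  rw [act_e3] at hp
  have hδ0 : 0 ≤ δ := (Real.sqrt_nonneg _).trans hδ
  have hrad : S 0 2 ^ 2 + S 1 2 ^ 2 ≤ δ ^ 2 := by
    have h1 : rad (act S e3) ^ 2 = S 0 2 ^ 2 + S 1 2 ^ 2 := by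
      unfold rad
      rw [Real.sq_sqrt (by positivity), act_e3, act_e3]
    rw [← h1]
    exact pow_le_pow_left₀ (Real.sqrt_nonneg _) hδ 2
  have hδδ : δ ^ 2 ≤ δ / 2 := by nlinarith
  have hrow : S 2 0 ^ 2 + S 2 1 ^ 2 ≤ δ ^ 2 := by linarith
  have s02 : |S 0 2| ≤ δ := abs_le_of_sq_le_sq (by nlinarith [sq_nonneg (S 1 2)]) hδ0
  have s12 : |S 1 2| ≤ δ := abs_le_of_sq_le_sq (by nlinarith [sq_nonneg (S 0 2)]) hδ0
  have s20 : |S 2 0| ≤ δ := abs_le_of_sq_le_sq (by nlinarith [sq_nonneg (S 2 1)]) hδ0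
  have s21 : |S 2 1| ≤ δ := abs_le_of_sq_le_sq (by nlinarith [sq_nonneg (S 2 0)]) hδ0
  have s22a : S 2 2 ≤ 1 := by nlinarith [sq_nonneg (S 0 2), sq_nonneg (S 1 2)]
  have s22b : 1 - S 2 2 ≤ δ ^ 2 := by nlinarith
  have s20sq : S 2 0 ^ 2 ≤ δ ^ 2 := by nlinarith [sq_nonneg (S 2 1)]
  -- the angle
  set z : ℂ := ⟨S 0 0, S 1 0⟩ with hz
  set n : ℝ := ‖z‖ with hn
  have hn2 : n ^ 2 = S 0 0 ^ 2 + S 1 0 ^ 2 := by
    rw [hn, Complex.sq_norm, Complex.normSq_apply]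
    simp only [hz]
    ring
  have hn0 : 0 ≤ n := norm_nonneg z
  have hn3 : 1 - δ ^ 2 ≤ n ^ 2 := by linarith
  have hnpos : 0 < n := by
    rcases hn0.lt_or_eq with h | h
    · exact h
    · rw [← h] at hn3
      nlinarith
  have hn1 : n ≤ 1 := by nlinarith [sq_nonneg (S 2 0)]
  have hnd : 1 - n ≤ δ ^ 2 := by nlinarith
  have hz0 : z ≠ 0 := norm_pos_iff.1 hnpos
  have hcos : Real.cos (arg z) = S 0 0 / n := Complex.cos_arg hz0
  have hsin : Real.sin (arg z) = S 1 0 / n := Complex.sin_arg z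
  have ha : |S 0 0| ≤ n := Complex.abs_re_le_norm z
  have hb : |S 1 0| ≤ n := Complex.abs_im_le_norm z
  have hgen : ∀ x : ℝ, |x| ≤ n → |x - x / n| ≤ δ ^ 2 := by
    intro x hx
    have e : x - x / n = -(x / n * (1 - n)) := by
      field_simp
      ring
    have h1 : |x / n| ≤ 1 := by
      rw [abs_div, abs_of_pos hnpos, div_le_one hnpos]
      exact hx
    rw [e, abs_neg, abs_mul, abs_of_nonneg (by linarith : (0 : ℝ) ≤ 1 - n)]
    calc |x / n| * (1 - n) ≤ 1 * δ ^ 2 := mul_le_mul h1 hnd (by linarith) zero_le_one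
      _ = δ ^ 2 := one_mul _
  have d00 := abs_le.1 (hgen _ ha)
  have d10 := abs_le.1 (hgen _ hb)
  have p1 : |S 1 0 * (1 - S 2 2)| ≤ δ ^ 2 := by
    rw [abs_mul, abs_of_nonneg (by linarith : (0 : ℝ) ≤ 1 - S 2 2)]
    calc |S 1 0| * (1 - S 2 2) ≤ 1 * δ ^ 2 :=
          mul_le_mul (hb.trans hn1) s22b (by linarith) zero_le_one
      _ = δ ^ 2 := one_mul _
  have p2 : |S 0 0 * (1 - S 2 2)| ≤ δ ^ 2 := by
    rw [abs_mul, abs_of_nonneg (by linarith : (0 : ℝ) ≤ 1 - S 2 2)]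
    calc |S 0 0| * (1 - S 2 2) ≤ 1 * δ ^ 2 :=
          mul_le_mul (ha.trans hn1) s22b (by linarith) zero_le_one
      _ = δ ^ 2 := one_mul _
  have p3 : |S 1 2 * S 2 0| ≤ δ ^ 2 := by
    rw [abs_mul, sq]
    exact mul_le_mul s12 s20 (abs_nonneg _) hδ0
  have p4 : |S 0 2 * S 2 0| ≤ δ ^ 2 := by
    rw [abs_mul, sq]
    exact mul_le_mul s02 s20 (abs_nonneg _) hδ0
  have p1' := abs_le.1 p1
  have p2' := abs_le.1 p2
  have p3' := abs_le.1 p3
  have p4' := abs_le.1 p4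
  refine ⟨arg z, ?_⟩
  have t00 : |S 0 0 - Real.cos (arg z)| ≤ 3 * δ := by
    rw [hcos, abs_le]
    constructor <;> linarith [d00.1, d00.2]
  have t01 : |S 0 1 - -Real.sin (arg z)| ≤ 3 * δ := by
    rw [hsin, a01, abs_le]
    constructor <;> linarith [d10.1, d10.2, p1'.1, p1'.2, p3'.1, p3'.2]
  have t02 : |S 0 2 - 0| ≤ 3 * δ := by
    rw [sub_zero]
    linarith
  have t10 : |S 1 0 - Real.sin (arg z)| ≤ 3 * δ := by
    rw [hsin, abs_le]
    constructor <;> linarith [d10.1, d10.2]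
  have t11 : |S 1 1 - Real.cos (arg z)| ≤ 3 * δ := by
    rw [hcos, a11, abs_le]
    constructor <;> linarith [d00.1, d00.2, p2'.1, p2'.2, p4'.1, p4'.2]
  have t12 : |S 1 2 - 0| ≤ 3 * δ := by
    rw [sub_zero]
    linarith
  have t20 : |S 2 0 - 0| ≤ 3 * δ := by
    rw [sub_zero]
    linarith
  have t21 : |S 2 1 - 0| ≤ 3 * δ := by
    rw [sub_zero]
    linarith
  have t22 : |S 2 2 - 1| ≤ 3 * δ := by
    rw [abs_le]
    constructor <;> linarith
  intro i j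
  fin_cases i <;> fin_cases j
  · exact t00
  · exact t01
  · exact t02
  · exact t10
  · exact t11
  · exact t12
  · exact t20
  · exact t21
  · exact t22

end ROTZ_

open ROTZ_ in
theorem stmt_ROTZ (_hCHV : Stmt_CHV) : Stmt_ROTZ := by
  refine ⟨18, by norm_num, ?_⟩
  intro S δ hS hδ hδ2 hp
  obtain ⟨α, hα⟩ := core S δ hS hδ hδ2 hp
  have hδ0 : 0 ≤ δ := (Real.sqrt_nonneg _).trans hδ
  refine ⟨α, fun Y => ?_⟩
  refine (diff_bound S (rotz α) (3 * δ) (by linarith) hα Y).trans (le_of_eq ?_)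
  ring

end Pool.Mart
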