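import Pool.Agent.Work.MP_680515_an.IfaceA

/-!
# MP_680515_an, block SCL: consecutive scales and neighbours
-/

open MeasureTheory Set Filter Topology Complex

namespace Pool.Mart

namespace SCL_

theorem act_eq (A : M3) (v : E3) : act A v = Matrix.toEuclideanLin A v := by
  simp [act, Matrix.toLpLin_apply]

theorem act_smul (A : M3) (c : ℝ) (v : E3) : act A (c • v) = c • act A v := by
  simp only [act_eq, map_smul]

theorem act_sub (A : M3) (v w : E3) : act A (v - w) = act A v - act A w := by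
  simp only [act_eq, map_sub]

theorem act_mul (A B : M3) (v : E3) : act (A * B) v = act A (act B v) := by
  simp [act, Matrix.mulVec_mulVec]

theorem act_one (v : E3) : act 1 v = v := by
  simp [act]

theorem so_mul {O : M3} (hO : O ∈ Matrix.specialOrthogonalGroup (Fin 3) ℝ) :
    O.transpose * O = 1 ∧ O * O.transpose = 1 := by
  have h := (Matrix.mem_specialOrthogonalGroup_iff.mp hO).1
  have h1 := (Matrix.mem_orthogonalGroup_iff' (Fin 3) ℝ).mp h
  have h2 := (Matrix.mem_orthogonalGroup_iff (Fin 3) ℝ).mp h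
  exact ⟨h1, h2⟩

theorem norm_act {O : M3} (hO : O ∈ Matrix.specialOrthogonalGroup (Fin 3) ℝ) (v : E3) :
    ‖act O v‖ = ‖v‖ := by
  have h : ‖act O v‖ ^ 2 = ‖v‖ ^ 2 := by
    rw [EuclideanSpace.real_norm_sq_eq, EuclideanSpace.real_norm_sq_eq]
    have h1 : ∑ i, (act O v) i ^ 2 = dotProduct (O.mulVec v.ofLp) (O.mulVec v.ofLp) := by
      simp only [dotProduct, act, sq]
    have h2 : ∑ i, v i ^ 2 = dotProduct v.ofLp v.ofLp := by
      simp only [dotProduct, sq]
    rw [h1, h2, Matrix.dotProduct_mulVec, Matrix.vecMul_mulVec, (so_mul hO).1, Matrix.vecMul_one]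
  exact (pow_left_inj₀ (norm_nonneg _) (norm_nonneg _) two_ne_zero).1 h

theorem act_tr {O : M3} (hO : O ∈ Matrix.specialOrthogonalGroup (Fin 3) ℝ) (v : E3) :
    act O (act O.transpose v) = v := by
  rw [← act_mul, (so_mul hO).2, act_one]

theorem act_tr' {O : M3} (hO : O ∈ Matrix.specialOrthogonalGroup (Fin 3) ℝ) (v : E3) :
    act O.transpose (act O v) = v := by
  rw [← act_mul, (so_mul hO).1, act_one]

theorem norm_act_tr {O : M3} (hO : O ∈ Matrix.specialOrthogonalGroup (Fin 3) ℝ) (v : E3) :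
    ‖act O.transpose v‖ = ‖v‖ := by
  rw [← norm_act hO (act O.transpose v), act_tr hO]

theorem norm_e3 : ‖e3‖ = 1 := by
  simp [e3]

theorem sc_pos (n : ℕ) : 0 < sc n := by unfold sc; positivity

theorem sc_le (n : ℕ) : sc n ≤ 1 := by
  unfold sc
  exact pow_le_one₀ (by norm_num) (by norm_num)

theorem sc_add (n k : ℕ) : sc (n + k) = sc n * sc k := by
  unfold sc
  exact pow_add _ _ _

/-- logarithm near one -/
theorem log_near {a b δ : ℝ} (ha : 0 < a) (hb : 0 < b) (h : |a - b| ≤ δ * b) (hδ : δ ≤ 1 / 2) :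
    |Real.log a - Real.log b| ≤ 2 * δ := by
  have hδ0 : 0 ≤ δ := by
    have := (abs_nonneg _).trans h
    by_contra hc
    rw [not_le] at hc
    nlinarith
  rw [← Real.log_div ha.ne' hb.ne']
  have h1 : |a / b - 1| ≤ δ := by
    have : a / b - 1 = (a - b) / b := by field_simp
    rw [this, abs_div, abs_of_pos hb, div_le_iff₀ hb]
    exact h
  have hq : 0 < a / b := div_pos ha hb
  rw [abs_le] at h1 ⊢
  constructor
  · have h2 := Real.one_sub_inv_le_log_of_pos hq
    have h3 : 1 - (a / b)⁻¹ ≥ - (2 * δ) := by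
      have h4 : (a / b)⁻¹ ≤ 1 + 2 * δ := by
        rw [inv_le_iff_one_le_mul₀ hq]
        nlinarith [h1.1]
      linarith
    linarith
  · have h2 := Real.log_le_sub_one_of_pos hq
    linarith [h1.2]

theorem abs_norm_sub {v w : E3} {a b c : ℝ} (h : ‖v - w‖ ≤ c) (hw : ‖w‖ = a * b) :
    |‖v‖ - a * b| ≤ c := by
  rw [← hw]
  exact (abs_norm_sub_norm_le v w).trans h

end SCL_

open SCL_ in
theorem stmt_SCL (hWIN1 : Stmt_WIN1) : Stmt_SCL := by
  intro ε Ω f γ O O' hε0 hε hP
  obtain ⟨-, -, -, hlip, -, -, -, -, hse⟩ := hWIN1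
  have key : ∀ t ∈ Icc (-20 : ℝ) 20, ∀ n : ℕ,
    (∀ (s : ℝ) (k : ℕ), |s| ≤ 40 → t + s * sc n ∈ Icc (-20 : ℝ) 20 →
      |len γ (t + s * sc n) (n + k) - sc k * len γ t n| ≤ 2 * ε * len γ t n ∧
      |len (f ∘ γ) (t + s * sc n) (n + k) - sc k * len (f ∘ γ) t n|
        ≤ 8 * ε * len (f ∘ γ) t n) := by
    intro t ht n s k hs hts
    have hl := hP.pos t ht n
    have hl' := hP.pos' t ht n
    have hO := hP.so t ht n
    have hO' := hP.so' t ht n
    set l := len γ t n with hldef
    set l' := len (f ∘ γ) t n with hldef'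
    have hsk := sc_pos k
    have hsk1 := sc_le k
    have hsn := sc_pos n
    have hsn1 := sc_le n
    -- one point
    have hpt : ∀ r : ℝ, |r| ≤ 41 → t + r * sc n ∈ Icc (-21 : ℝ) 21 →
        ‖γ (t + r * sc n) - γ t - (r * l) • act (O t n) e3‖ ≤ ε * l ∧
        ‖f (γ (t + r * sc n)) - f (γ t) - (r * l') • act (O' t n) e3‖ ≤ 3 * ε * l' := by
      intro r hr hrt
      have h1 := hP.line t ht n r (by linarith) hrt
      rw [← hldef] at h1
      refine ⟨h1, ?_⟩
      set X : E3 := l⁻¹ • act (O t n).transpose (γ (t + r * sc n) - γ t) with hX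
      have hX1 : γ t + l • act (O t n) X = γ (t + r * sc n) := by
        rw [hX, act_smul, act_tr hO, smul_smul, mul_inv_cancel₀ hl.ne', one_smul]
        abel
      have hX2 : ‖X - r • e3‖ ≤ ε := by
        have h2 : X - r • e3 = l⁻¹ • act (O t n).transpose
            (γ (t + r * sc n) - γ t - (r * l) • act (O t n) e3) := by
          rw [act_sub _ (γ (t + r * sc n) - γ t), act_smul, act_tr' hO, smul_sub, smul_smul,
            ← hX]
          congr 2
          field_simp
        rw [h2, norm_smul, norm_act_tr hO, Real.norm_eq_abs, abs_of_pos (inv_pos.mpr hl)]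
        calc l⁻¹ * _ ≤ l⁻¹ * (ε * l) := mul_le_mul_of_nonneg_left h1 (inv_pos.mpr hl).le
          _ = ε := by field_simp
      have hX3 : X ∈ Metric.ball (0 : E3) 64 := by
        rw [mem_ball_zero_iff]
        have h3 : ‖X‖ ≤ ‖X - r • e3‖ + ‖r • e3‖ := by
          calc ‖X‖ = ‖(X - r • e3) + r • e3‖ := by rw [sub_add_cancel]
            _ ≤ _ := norm_add_le _ _
        have h3' : ‖r • e3‖ = |r| := by rw [norm_smul, norm_e3, mul_one, Real.norm_eq_abs]
        linarith
      have h4 := hP.close t ht n X hX3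
      rw [← hldef, ← hldef', hX1] at h4
      have h5 : ‖wind X - r • e3‖ ≤ 2 * ε := by
        have := hlip X (r • e3)
        rw [hse r] at this
        linarith
      have h6 : f (γ (t + r * sc n)) - f (γ t) - (r * l') • act (O' t n) e3
          = (f (γ (t + r * sc n)) - f (γ t) - l' • act (O' t n) (wind X))
            + l' • act (O' t n) (wind X - r • e3) := by
        rw [act_sub, act_smul, smul_sub, smul_smul, mul_comm l' r]
        abel
      rw [h6]
      refine (norm_add_le _ _).trans ?_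
      rw [norm_smul, norm_act hO', Real.norm_eq_abs, abs_of_pos hl']
      have h7 : l' * ‖wind X - r • e3‖ ≤ l' * (2 * ε) := mul_le_mul_of_nonneg_left h5 hl'.le
      linarith
    have hr1 : |s| ≤ 41 := by linarith
    have hr2 : |s + sc k| ≤ 41 := by
      refine (abs_add_le _ _).trans ?_
      rw [abs_of_pos hsk]
      linarith
    have ht1 : t + s * sc n ∈ Icc (-21 : ℝ) 21 := ⟨by linarith [hts.1], by linarith [hts.2]⟩
    have hprod : sc k * sc n ≤ 1 := by nlinarith
    have hprod0 : 0 < sc k * sc n := mul_pos hsk hsn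
    have ht2 : t + (s + sc k) * sc n ∈ Icc (-21 : ℝ) 21 := by
      constructor
      · nlinarith [hts.1]
      · nlinarith [hts.2]
    have hE : t + s * sc n + sc (n + k) = t + (s + sc k) * sc n := by
      rw [sc_add]; ring
    obtain ⟨a1, a2⟩ := hpt s hr1 ht1
    obtain ⟨b1, b2⟩ := hpt (s + sc k) hr2 ht2
    have hnorm : ∀ (M : M3), M ∈ Matrix.specialOrthogonalGroup (Fin 3) ℝ → ∀ a : ℝ, 0 < a →
        ‖(sc k * a) • act M e3‖ = sc k * a := by
      intro M hM a ha
      rw [norm_smul, norm_act hM, norm_e3, mul_one, Real.norm_eq_abs,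
        abs_of_pos (mul_pos hsk ha)]
    constructor
    · have h1 : len γ (t + s * sc n) (n + k)
          = ‖γ (t + (s + sc k) * sc n) - γ (t + s * sc n)‖ := by
        unfold len
        rw [hE]
      rw [h1]
      refine abs_norm_sub (w := (sc k * l) • act (O t n) e3) ?_ (hnorm _ hO _ hl)
      have h2 : γ (t + (s + sc k) * sc n) - γ (t + s * sc n) - (sc k * l) • act (O t n) e3
          = (γ (t + (s + sc k) * sc n) - γ t - ((s + sc k) * l) • act (O t n) e3)
            - (γ (t + s * sc n) - γ t - (s * l) • act (O t n) e3) := by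
        rw [add_mul s (sc k) l, add_smul]
        abel
      rw [h2]
      refine (norm_sub_le _ _).trans ?_
      linarith
    · have h1 : len (f ∘ γ) (t + s * sc n) (n + k)
          = ‖f (γ (t + (s + sc k) * sc n)) - f (γ (t + s * sc n))‖ := by
        unfold len
        rw [hE]
        rfl
      rw [h1]
      refine abs_norm_sub (w := (sc k * l') • act (O' t n) e3) ?_ (hnorm _ hO' _ hl')
      have h2 : f (γ (t + (s + sc k) * sc n)) - f (γ (t + s * sc n))
            - (sc k * l') • act (O' t n) e3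
          = (f (γ (t + (s + sc k) * sc n)) - f (γ t) - ((s + sc k) * l') • act (O' t n) e3)
            - (f (γ (t + s * sc n)) - f (γ t) - (s * l') • act (O' t n) e3) := by
        rw [add_mul s (sc k) l', add_smul]
        abel
      rw [h2]
      refine (norm_sub_le _ _).trans ?_
      nlinarith
  -- the logarithms
  have hFF : ∀ t ∈ Icc (-20 : ℝ) 20, ∀ n, FF f γ t n
      = Real.log (len γ t n) - Real.log (len (f ∘ γ) t n) := by
    intro t ht n
    unfold FF
    exact Real.log_div (hP.pos t ht n).ne' (hP.pos' t ht n).ne'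
  have hstep : ∀ t ∈ Icc (-20 : ℝ) 20, ∀ n, |FF f γ t (n + 1) - FF f γ t n| ≤ 40 * ε := by
    intro t ht n
    have hk := key t ht n 0 1 (by norm_num) (by simpa using ht)
    have h0 : t + 0 * sc n = t := by ring
    rw [h0] at hk
    have hs1 : sc 1 = 1 / 2 := by unfold sc; norm_num
    rw [hs1] at hk
    have hl := hP.pos t ht n
    have hl' := hP.pos' t ht n
    have hm := hP.pos t ht (n + 1)
    have hm' := hP.pos' t ht (n + 1)
    have e1 := log_near hm (b := 1 / 2 * len γ t n) (δ := 4 * ε) (by positivity)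
      (by linarith [hk.1]) (by linarith)
    have e2 := log_near hm' (b := 1 / 2 * len (f ∘ γ) t n) (δ := 16 * ε) (by positivity)
      (by linarith [hk.2]) (by linarith)
    rw [Real.log_mul (by norm_num) hl.ne'] at e1
    rw [Real.log_mul (by norm_num) hl'.ne'] at e2
    rw [hFF t ht, hFF t ht]
    rw [abs_le] at e1 e2 ⊢
    constructor <;> linarith [e1.1, e1.2, e2.1, e2.2]
  have htel : ∀ t ∈ Icc (-20 : ℝ) 20, ∀ n : ℕ, |FF f γ t n - FF f γ t 0| ≤ 40 * ε * n := by
    intro t ht n
    induction n with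
    | zero => simp
    | succ n ih =>
      have h1 := hstep t ht n
      have h2 : FF f γ t (n + 1) - FF f γ t 0
          = (FF f γ t (n + 1) - FF f γ t n) + (FF f γ t n - FF f γ t 0) := by ring
      rw [h2]
      refine (abs_add_le _ _).trans ?_
      push_cast
      linarith
  have h0mem : (0 : ℝ) ∈ Icc (-20 : ℝ) 20 := ⟨by norm_num, by norm_num⟩
  have hsc0 : sc 0 = 1 := by unfold sc; norm_num
  have hbase : ∀ t ∈ Icc (-20 : ℝ) 20, |FF f γ t 0 - FF f γ 0 0| ≤ 20 * ε := by
    intro t ht
    have hk := key 0 h0mem 0 t 0 (by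
      have := abs_le.mpr ht
      linarith) (by rw [hsc0]; simpa using ht)
    rw [hsc0] at hk
    have e0 : (0 : ℝ) + t * 1 = t := by ring
    rw [e0, one_mul, one_mul, Nat.add_zero] at hk
    have e1 := log_near (hP.pos t ht 0) (hP.pos 0 h0mem 0) hk.1 (by linarith)
    have e2 := log_near (hP.pos' t ht 0) (hP.pos' 0 h0mem 0) hk.2 (by linarith)
    rw [hFF t ht, hFF 0 h0mem]
    rw [abs_le] at e1 e2 ⊢
    constructor <;> linarith [e1.1, e1.2, e2.1, e2.2]
  intro t ht n
  refine ⟨fun s k h1 h2 _ => key t ht n s k h1 h2, ?_, ?_⟩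
  · have := hstep t ht n
    linarith
  · have h1 := htel t ht n
    have h2 := htel 0 h0mem n
    have h3 := hbase t ht
    have hn : (0 : ℝ) ≤ (n : ℝ) := Nat.cast_nonneg n
    have h4 : 0 ≤ ε * n := mul_nonneg hε0 hn
    rw [abs_le] at h1 h2 h3 ⊢
    constructor <;> nlinarith [h1.1, h1.2, h2.1, h2.2, h3.1, h3.2]

end Pool.Mart
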