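import Pool.Agent.Work.MP_680515_an.IfaceH

/-!
# MP_680515_an, block SCMP: ratios of two approximations on nested balls
-/

open MeasureTheory Set Filter Topology Complex

namespace Pool.Mart

namespace SCMP_

theorem act_eq (A : M3) (v : E3) : act A v = Matrix.toEuclideanLin A v := by
  simp [act, Matrix.toLpLin_apply]

theorem act_add (A : M3) (v w : E3) : act A (v + w) = act A v + act A w := by
  simp only [act_eq, map_add]

theorem norm_act {O : M3} (hO : O ∈ Matrix.specialOrthogonalGroup (Fin 3) ℝ) (v : E3) :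
    ‖act O v‖ = ‖v‖ := by
  have hm : O.transpose * O = 1 :=
    (Matrix.mem_orthogonalGroup_iff' (Fin 3) ℝ).mp (Matrix.mem_specialOrthogonalGroup_iff.mp hO).1
  have h : ‖act O v‖ ^ 2 = ‖v‖ ^ 2 := by
    rw [EuclideanSpace.real_norm_sq_eq, EuclideanSpace.real_norm_sq_eq]
    have h1 : ∑ i, (act O v) i ^ 2 = dotProduct (O.mulVec v.ofLp) (O.mulVec v.ofLp) := by
      simp only [dotProduct, act, sq]
    have h2 : ∑ i, v i ^ 2 = dotProduct v.ofLp v.ofLp := by
      simp only [dotProduct, sq]
    rw [h1, h2, Matrix.dotProduct_mulVec, Matrix.vecMul_mulVec, hm, Matrix.vecMul_one]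
  exact (pow_left_inj₀ (norm_nonneg _) (norm_nonneg _) two_ne_zero).1 h

/-- the increment of an approximated map -/
theorem incr {ε : ℝ} {g : E3 → E3} {y : E3} {r lam : ℝ} {O : M3} {b : E3}
    (h : SimAp ε g y r lam O b) {p u : E3} (hp : p ∈ Metric.ball y r)
    (hpu : p + u ∈ Metric.ball y r) :
    |‖g (p + u) - g p‖ - lam * ‖u‖| ≤ 2 * (ε * lam * r) := by
  have h1 := h.ap p hp
  have h2 := h.ap (p + u) hpu
  have h3 : ‖lam • act O u‖ = lam * ‖u‖ := by
    rw [norm_smul, norm_act h.so, Real.norm_eq_abs, abs_of_pos h.pos]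
  rw [← h3]
  refine (abs_norm_sub_norm_le _ _).trans ?_
  have h4 : g (p + u) - g p - lam • act O u
      = (g (p + u) - (lam • act O (p + u) + b)) - (g p - (lam • act O p + b)) := by
    rw [act_add, smul_add]
    abel
  rw [h4]
  refine (norm_sub_le _ _).trans ?_
  linarith

end SCMP_

open SCMP_ in
theorem stmt_SCMP : Stmt_SCMP := by
  intro ε g y y' r r' lam lam' O O' b b' hε0 hε h h' hr' hrr hr2 hsub
  have hl := h.pos
  have hl' := h'.pos
  have hy' : y' ∈ Metric.ball y' r' := Metric.mem_ball_self hr'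
  have hne : ‖e3‖ = 1 := by simp [e3]
  -- for every smaller radius
  have key : ∀ t : ℝ, 0 < t → t < r' →
      |lam' - lam| * t ≤ 2 * (ε * lam * r) + 2 * (ε * lam' * r') := by
    intro t ht0 ht
    have hn : ‖t • e3‖ = t := by
      rw [norm_smul, hne, mul_one, Real.norm_eq_abs, abs_of_pos ht0]
    have hmem : y' + t • e3 ∈ Metric.ball y' r' := by
      rw [Metric.mem_ball, dist_eq_norm, add_sub_cancel_left, hn]
      exact ht
    have h1 := incr h (hsub hy') (hsub hmem)
    have h2 := incr h' hy' hmem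
    rw [hn] at h1 h2
    have h3 : |lam' - lam| * t = |lam' * t - lam * t| := by
      rw [← sub_mul, abs_mul, abs_of_pos ht0]
    rw [h3]
    rw [abs_le] at h1 h2 ⊢
    constructor <;> linarith [h1.1, h1.2, h2.1, h2.2]
  have hlim : |lam' - lam| * r' ≤ 2 * (ε * lam * r) + 2 * (ε * lam' * r') := by
    by_contra hc
    rw [not_le] at hc
    set B := 2 * (ε * lam * r) + 2 * (ε * lam' * r') with hB
    have hB0 : 0 ≤ B := by
      have : 0 < r := by linarith
      positivity
    have hd : 0 < |lam' - lam| := by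
      by_contra hd
      have : |lam' - lam| = 0 := le_antisymm (not_lt.1 hd) (abs_nonneg _)
      rw [this] at hc
      linarith
    -- choose a radius between
    have hq : B / |lam' - lam| < r' := by
      rw [div_lt_iff₀ hd]
      linarith [mul_comm r' (|lam' - lam|)]
    have hq0 : 0 ≤ B / |lam' - lam| := div_nonneg hB0 hd.le
    have h1 := key ((B / |lam' - lam| + r') / 2) (by linarith) (by linarith)
    have h2 : |lam' - lam| * ((B / |lam' - lam| + r') / 2)
        = (B + |lam' - lam| * r') / 2 := by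
      field_simp
    rw [h2] at h1
    linarith
  have h5 : ε * lam * r ≤ ε * lam * (2 * r') :=
    mul_le_mul_of_nonneg_left hr2 (by positivity)
  have h6 : |lam' - lam| * r' ≤ (4 * ε * lam + 2 * ε * lam') * r' := by
    linarith
  have h7 : |lam' - lam| ≤ 4 * ε * lam + 2 * ε * lam' := le_of_mul_le_mul_right h6 hr'
  have h8 : lam' ≤ lam + |lam' - lam| := by
    have := le_abs_self (lam' - lam)
    linarith
  have h9 : ε * lam' ≤ ε * (lam + |lam' - lam|) := mul_le_mul_of_nonneg_left h8 hε0
  have h10 : ε * |lam' - lam| ≤ 1 / 100 * |lam' - lam| :=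
    mul_le_mul_of_nonneg_right hε (abs_nonneg _)
  have h11 : 0 ≤ ε * lam := by positivity
  linarith

end Pool.Mart
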