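import Pool.Agent.Work.MP_680515_an.IfaceU

/-!
# MP_680515_an, block SHF: dyadic averages of shifted functions
-/

open MeasureTheory Set Filter Topology Complex

namespace Pool.Mart

namespace SHF_

lemma sum_shift (h : ℤ → ℝ) (m : ℤ) (M : ℕ) :
    ∑ j ∈ Finset.range M, h ((j : ℤ) + m) = ∑ j ∈ Finset.Ico m (m + M), h j := by
  refine Finset.sum_bij' (fun j _ => (j : ℤ) + m) (fun x _ => (x - m).toNat) ?_ ?_ ?_ ?_ ?_
  · intro a ha
    have := Finset.mem_range.1 ha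
    rw [Finset.mem_Ico]
    constructor <;> omega
  · intro a ha
    rw [Finset.mem_Ico] at ha
    rw [Finset.mem_range]
    omega
  · intro a _
    simp
  · intro a ha
    rw [Finset.mem_Ico] at ha
    omega
  · intro a _
    rfl

lemma sum_cmp (h : ℤ → ℝ) (G c : ℝ) (A B : Finset ℤ) (hB : ∀ x ∈ B, 0 ≤ h x)
    (hA : ∀ x ∈ A, h x ≤ G) (hG : 0 ≤ G) (hc : ((A \ B).card : ℝ) ≤ c) :
    ∑ x ∈ A, h x ≤ ∑ x ∈ B, h x + c * G := by
  have h1 : ∑ x ∈ A, h x = ∑ x ∈ A ∩ B, h x + ∑ x ∈ A \ B, h x :=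
    (Finset.sum_inter_add_sum_sdiff A B h).symm
  have h2 : ∑ x ∈ A ∩ B, h x ≤ ∑ x ∈ B, h x :=
    Finset.sum_le_sum_of_subset_of_nonneg Finset.inter_subset_right (fun x hx _ => hB x hx)
  have h3 : ∑ x ∈ A \ B, h x ≤ (A \ B).card * G := by
    have := Finset.sum_le_card_nsmul (A \ B) h G
      (fun x hx => hA x (Finset.mem_sdiff.1 hx).1)
    simpa [nsmul_eq_mul] using this
  have h4 : ((A \ B).card : ℝ) * G ≤ c * G := mul_le_mul_of_nonneg_right hc hG
  linarith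

lemma card_a (m : ℤ) (M : ℕ) :
    (((Finset.Ico m (m + M)) \ (Finset.Ico (0 : ℤ) M)).card : ℝ) ≤ |(m : ℝ)| := by
  rcases le_total 0 m with hm | hm
  · have hsub : (Finset.Ico m (m + M)) \ (Finset.Ico (0 : ℤ) M) ⊆ Finset.Ico (M : ℤ) (m + M) := by
      intro x hx
      simp only [Finset.mem_sdiff, Finset.mem_Ico] at hx ⊢
      omega
    have hcard := Finset.card_le_card hsub
    rw [Int.card_Ico] at hcard
    have h1 : ((((Finset.Ico m (m + M)) \ (Finset.Ico (0 : ℤ) M)).card : ℤ)) ≤ m := by omega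
    have h2 : ((((Finset.Ico m (m + M)) \ (Finset.Ico (0 : ℤ) M)).card : ℝ)) ≤ (m : ℝ) := by
      exact_mod_cast h1
    exact le_trans h2 (le_abs_self _)
  · have hsub : (Finset.Ico m (m + M)) \ (Finset.Ico (0 : ℤ) M) ⊆ Finset.Ico m 0 := by
      intro x hx
      simp only [Finset.mem_sdiff, Finset.mem_Ico] at hx ⊢
      omega
    have hcard := Finset.card_le_card hsub
    rw [Int.card_Ico] at hcard
    have h1 : ((((Finset.Ico m (m + M)) \ (Finset.Ico (0 : ℤ) M)).card : ℤ)) ≤ -m := by omega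
    have h2 : ((((Finset.Ico m (m + M)) \ (Finset.Ico (0 : ℤ) M)).card : ℝ)) ≤ -(m : ℝ) := by
      exact_mod_cast h1
    exact le_trans h2 (neg_le_abs _)

lemma card_b (m : ℤ) (M : ℕ) :
    (((Finset.Ico (0 : ℤ) M) \ (Finset.Ico m (m + M))).card : ℝ) ≤ |(m : ℝ)| := by
  rcases le_total 0 m with hm | hm
  · have hsub : (Finset.Ico (0 : ℤ) M) \ (Finset.Ico m (m + M)) ⊆ Finset.Ico 0 m := by
      intro x hx
      simp only [Finset.mem_sdiff, Finset.mem_Ico] at hx ⊢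
      omega
    have hcard := Finset.card_le_card hsub
    rw [Int.card_Ico] at hcard
    have h1 : ((((Finset.Ico (0 : ℤ) M) \ (Finset.Ico m (m + M))).card : ℤ)) ≤ m := by omega
    have h2 : ((((Finset.Ico (0 : ℤ) M) \ (Finset.Ico m (m + M))).card : ℝ)) ≤ (m : ℝ) := by
      exact_mod_cast h1
    exact le_trans h2 (le_abs_self _)
  · have hsub : (Finset.Ico (0 : ℤ) M) \ (Finset.Ico m (m + M)) ⊆ Finset.Ico (m + M) (M : ℤ) := by
      intro x hx
      simp only [Finset.mem_sdiff, Finset.mem_Ico] at hx ⊢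
      omega
    have hcard := Finset.card_le_card hsub
    rw [Int.card_Ico] at hcard
    have h1 : ((((Finset.Ico (0 : ℤ) M) \ (Finset.Ico m (m + M))).card : ℤ)) ≤ -m := by omega
    have h2 : ((((Finset.Ico (0 : ℤ) M) \ (Finset.Ico m (m + M))).card : ℝ)) ≤ -(m : ℝ) := by
      exact_mod_cast h1
    exact le_trans h2 (neg_le_abs _)

end SHF_

open SHF_

theorem stmt_SHF : Stmt_SHF := by
  intro N k i g G hk hi hg
  have hG : 0 ≤ G := by
    have h := hg 0 ⟨by norm_num, by norm_num⟩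
    linarith [h.1, h.2]
  obtain ⟨m, hm⟩ : ∃ m : ℤ, (i : ℝ) * sc k = (m : ℝ) * sc N := by
    refine ⟨i * 2 ^ (N - k), ?_⟩
    unfold sc
    push_cast
    have h1 : (2 : ℝ)⁻¹ ^ N = (2 : ℝ)⁻¹ ^ (N - k) * (2 : ℝ)⁻¹ ^ k := by
      rw [← pow_add, Nat.sub_add_cancel hk]
    have h2 : (2 : ℝ) ^ (N - k) * (2 : ℝ)⁻¹ ^ (N - k) = 1 := by
      rw [← mul_pow]; norm_num
    rw [h1]
    linear_combination -((i : ℝ) * (2 : ℝ)⁻¹ ^ k) * h2
  have hs : 0 < sc N := by unfold sc; positivity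
  have hsM : ((2 ^ N : ℕ) : ℝ) * sc N = 1 := by
    unfold sc
    push_cast
    rw [← mul_pow]; norm_num
  set M : ℕ := 2 ^ N with hMdef
  set h : ℤ → ℝ := fun x => g ((x : ℝ) * sc N) with hh
  have e1 : avg N (fun t => g (t + i * sc k)) = sc N * ∑ j ∈ Finset.Ico m (m + M), h j := by
    rw [← sum_shift h m M]
    unfold avg
    rw [show (2 : ℝ)⁻¹ ^ N = sc N from rfl]
    congr 1
    refine Finset.sum_congr rfl (fun j _ => ?_)
    simp only [hh]
    rw [hm]
    congr 1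
    push_cast
    ring
  have e2 : avg N g = sc N * ∑ j ∈ Finset.Ico (0 : ℤ) M, h j := by
    have := sum_shift h 0 M
    rw [zero_add] at this
    rw [← this]
    unfold avg
    rw [show (2 : ℝ)⁻¹ ^ N = sc N from rfl]
    congr 1
  rw [hm] at hi ⊢
  rw [hm] at e1
  have hia := abs_le.1 hi
  have hmem : ∀ x : ℤ, x ∈ Finset.Ico m (m + M) ∨ x ∈ Finset.Ico (0 : ℤ) M →
      (x : ℝ) * sc N ∈ Icc (-9 : ℝ) 10 := by
    intro x hx
    have key : (min m 0 : ℤ) ≤ x ∧ x ≤ max m 0 + M := by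
      rcases hx with hx | hx
      · rw [Finset.mem_Ico] at hx
        omega
      · rw [Finset.mem_Ico] at hx
        omega
    have k1 : ((min m 0 : ℤ) : ℝ) ≤ (x : ℝ) := by exact_mod_cast key.1
    have k2 : (x : ℝ) ≤ ((max m 0 : ℤ) : ℝ) + (M : ℝ) := by exact_mod_cast key.2
    have l1 : ((min m 0 : ℤ) : ℝ) * sc N ≤ (x : ℝ) * sc N := mul_le_mul_of_nonneg_right k1 hs.le
    have l2 : (x : ℝ) * sc N ≤ (((max m 0 : ℤ) : ℝ) + (M : ℝ)) * sc N :=
      mul_le_mul_of_nonneg_right k2 hs.le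
    rw [add_mul, hsM] at l2
    have l3 : -9 ≤ ((min m 0 : ℤ) : ℝ) * sc N := by
      rcases le_total m 0 with h0 | h0
      · rw [min_eq_left h0]; exact hia.1
      · rw [min_eq_right h0]; simp
    have l4 : ((max m 0 : ℤ) : ℝ) * sc N ≤ 9 := by
      rcases le_total m 0 with h0 | h0
      · rw [max_eq_right h0]; simp
      · rw [max_eq_left h0]; exact hia.2
    exact ⟨by linarith, by linarith⟩
  have habs : |(m : ℝ) * sc N| = |(m : ℝ)| * sc N := by rw [abs_mul, abs_of_pos hs]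
  rw [e1, e2, habs]
  constructor
  · have := sum_cmp h G |(m : ℝ)| _ _ (fun x hx => (hg _ (hmem x (Or.inr hx))).1)
      (fun x hx => (hg _ (hmem x (Or.inl hx))).2) hG (card_a m M)
    have := mul_le_mul_of_nonneg_left this hs.le
    linarith
  · have := sum_cmp h G |(m : ℝ)| _ _ (fun x hx => (hg _ (hmem x (Or.inl hx))).1)
      (fun x hx => (hg _ (hmem x (Or.inr hx))).2) hG (card_b m M)
    have := mul_le_mul_of_nonneg_left this hs.le
    linarith

end Pool.Mart
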