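import Pool.Agent.Work.MP_680515_an.IfaceS

/-!
# MP_680515_an, block SL: the scalar lemma
-/

open MeasureTheory Set Filter Topology Complex

namespace Pool.Mart

namespace SL_

lemma hint (S : Set ℂ) (v m : ℂ → ℂ) (K : ℝ) (hS : MeasurableSet S)
    (hv : IntegrableOn v S) (hm : Measurable m)
    (hb : ∀ ζ ∈ S, ‖m ζ‖ ≤ K) (hz : ∀ ζ, ζ ∉ S → v ζ * m ζ = 0) :
    Integrable (fun ζ => v ζ * m ζ) := by
  have h1 : IntegrableOn (fun ζ => v ζ * m ζ) S := by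
    refine Integrable.mul_bdd (c := K) hv hm.aestronglyMeasurable ?_
    exact (ae_restrict_iff' hS).2 (Eventually.of_forall hb)
  refine (integrableOn_iff_integrable_of_support_subset ?_).1 h1
  intro ζ hζ
  by_contra h
  exact hζ (hz ζ h)

lemma nint (S : Set ℂ) (v m : ℂ → ℂ) (K : ℝ) (hS : MeasurableSet S)
    (hv : IntegrableOn v S)
    (hb : ∀ ζ ∈ S, ‖m ζ‖ ≤ K) (hz : ∀ ζ, ζ ∉ S → v ζ * m ζ = 0) :
    ‖∫ ζ, v ζ * m ζ‖ ≤ K * ∫ ζ in S, ‖v ζ‖ := by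
  rw [← setIntegral_eq_integral_of_forall_compl_eq_zero (s := S) hz]
  calc ‖∫ ζ in S, v ζ * m ζ‖ ≤ ∫ ζ in S, K * ‖v ζ‖ := by
        refine norm_integral_le_of_norm_le (Integrable.const_mul hv.norm K) ?_
        refine (ae_restrict_iff' hS).2 (Eventually.of_forall fun ζ hζ => ?_)
        rw [norm_mul, mul_comm]
        exact mul_le_mul_of_nonneg_right (hb ζ hζ) (norm_nonneg _)
    _ = K * ∫ ζ in S, ‖v ζ‖ := by rw [integral_const_mul]

lemma rint (S : Set ℂ) (v m : ℂ → ℂ) (A B : ℝ) (hS : MeasurableSet S)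
    (hv : IntegrableOn v S) (hF : Integrable (fun ζ => v ζ * m ζ))
    (hb : ∀ ζ ∈ S, |(v ζ * m ζ).re| ≤ A * ‖v ζ‖ + B * |(v ζ).im|)
    (hz : ∀ ζ, ζ ∉ S → v ζ * m ζ = 0) :
    |(∫ ζ, v ζ * m ζ).re| ≤ A * (∫ ζ in S, ‖v ζ‖) + B * ∫ ζ in S, |(v ζ).im| := by
  have hvn : IntegrableOn (fun ζ => ‖v ζ‖) S := hv.norm
  have hvi : IntegrableOn (fun ζ => |(v ζ).im|) S := by
    have h0 : IntegrableOn (fun ζ => (v ζ).im) S := Integrable.im hv
    exact h0.abs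
  have e : (∫ ζ, v ζ * m ζ).re = ∫ ζ in S, (v ζ * m ζ).re := by
    rw [← setIntegral_eq_integral_of_forall_compl_eq_zero (s := S) hz]
    exact (integral_re (hF.integrableOn (s := S))).symm
  rw [e, ← Real.norm_eq_abs]
  calc ‖∫ ζ in S, (v ζ * m ζ).re‖ ≤ ∫ ζ in S, (A * ‖v ζ‖ + B * |(v ζ).im|) := by
        refine norm_integral_le_of_norm_le
          (Integrable.add (Integrable.const_mul hvn A) (Integrable.const_mul hvi B)) ?_
        refine (ae_restrict_iff' hS).2 (Eventually.of_forall fun ζ hζ => ?_)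
        rw [Real.norm_eq_abs]
        exact hb ζ hζ
    _ = A * (∫ ζ in S, ‖v ζ‖) + B * ∫ ζ in S, |(v ζ).im| := by
        rw [integral_add (Integrable.const_mul hvn A) (Integrable.const_mul hvi B),
          integral_const_mul, integral_const_mul]

lemma mcT (g : ℂ → ℂ) (hg : Continuous g) : Measurable (cT g) := by
  have h : StronglyMeasurable (fun ζ : ℂ => ∫ w, g w / (ζ - w)) := by
    refine StronglyMeasurable.integral_prod_right (f := fun ζ w : ℂ => g w / (ζ - w)) ?_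
    refine Measurable.stronglyMeasurable ?_
    exact (hg.measurable.comp measurable_snd).div (measurable_fst.sub measurable_snd)
  exact (measurable_const).mul h.measurable

lemma mkk (g : ℂ → ℂ) (hg : Continuous g) : Measurable (kk g) := by
  have h2 : Continuous (rfl' g) := by
    unfold rfl'
    exact Complex.continuous_conj.comp (hg.comp (Complex.continuous_conj.neg))
  exact (mcT g hg).add (mcT _ h2)

lemma mdbar (ψ : ℂ → ℂ) : Measurable (dbar ψ) := by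
  unfold dbar
  exact measurable_const.mul ((measurable_fderiv_apply_const ℝ ψ 1).add
    (measurable_const.mul (measurable_fderiv_apply_const ℝ ψ I)))

lemma oHE (ρ : ℝ) : IsOpen (HE ρ) := by
  unfold HE
  exact (isOpen_lt continuous_const Complex.continuous_re).inter
    (isOpen_lt continuous_norm continuous_const)

lemma oSTR (ρ : ℝ) : IsOpen (STR ρ) := by
  unfold STR
  exact (isOpen_lt continuous_const Complex.continuous_re).inter
    ((isOpen_lt Complex.continuous_re continuous_const).inter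
    (isOpen_lt continuous_norm continuous_const))

lemma oOUTR (ρ : ℝ) : IsOpen (OUTR ρ) := by
  unfold OUTR
  exact (isOpen_lt continuous_const Complex.continuous_re).inter
    ((isOpen_lt continuous_const continuous_norm).inter
    (isOpen_lt continuous_norm continuous_const))

lemma oQh (h : ℝ) : IsOpen (Qh h) := by
  unfold Qh
  exact (isOpen_lt continuous_const Complex.continuous_re).inter
    ((isOpen_lt Complex.continuous_re continuous_const).inter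
    (isOpen_lt (Complex.continuous_im.abs) continuous_const))

lemma qnorm (h : ℝ) (h0 : 0 < h) (hh : h ≤ 1 / 128) (ζ : ℂ) (hζ : ζ ∈ Qh h) : ‖ζ‖ < 1 := by
  obtain ⟨h1, h2, h3⟩ := hζ
  have h4 := Complex.norm_le_abs_re_add_abs_im ζ
  have h5 : |ζ.re| < 16 * h := by
    rw [abs_lt]; constructor <;> linarith
  linarith

lemma qb (h : ℝ) (h0 : 0 < h) (hh : h ≤ 1 / 128) : Bornology.IsBounded (Qh h) := by
  refine (Metric.isBounded_ball (x := (0 : ℂ)) (r := 1)).subset ?_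
  intro ζ hζ
  rw [Metric.mem_ball, dist_zero_right]
  exact qnorm h h0 hh ζ hζ

end SL_

open SL_ in
theorem stmt_SL (hSLI : Stmt_SLI) (hKB1 : Stmt_KB1) (hKB2 : Stmt_KB2) (hCUT : Stmt_CUT)
    (hDUAL : Stmt_DUAL) : Stmt_SL := by
  obtain ⟨C1, hC1, H1⟩ := hKB1
  obtain ⟨C2, hC2, H2⟩ := hKB2
  obtain ⟨C3, hC3, H3⟩ := hCUT
  refine ⟨C1 + C3 * C2 + 2 * C3 * C1 + C3 * C1, by positivity, ?_⟩
  intro ρ h M v hρ hρh hh hM hvc hvi hWB
  have h0 : 0 < h := by linarith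
  obtain ⟨χ0, χ1, s0, s1, hχ, hχ0one, hχ1one, hcs, hts, hd0, hd1, hχ1z, hχ0z⟩ :=
    H3 ρ hρ (by linarith)
  -- the moments
  set p : ℂ → ℂ := fun ζ => (χ0 ζ : ℂ) * dbar (fun ζ => (χ1 ζ : ℂ)) ζ with hp
  set q : ℂ → ℂ := fun ζ => (χ1 ζ : ℂ) * dbar (fun ζ => (χ0 ζ : ℂ)) ζ with hq
  have mχ0 : Measurable (fun ζ => (χ0 ζ : ℂ)) :=
    (Complex.continuous_ofReal.comp s0.continuous).measurable
  have mχ1 : Measurable (fun ζ => (χ1 ζ : ℂ)) :=
    (Complex.continuous_ofReal.comp s1.continuous).measurable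
  have mp : Measurable p := mχ0.mul (mdbar _)
  have mq : Measurable q := mχ1.mul (mdbar _)
  have pz : ∀ ζ, ζ ∉ OUTR ρ → p ζ = 0 := by
    intro ζ hζ
    by_contra hne
    rw [hp] at hne
    have ha : χ0 ζ ≠ 0 := by
      intro h; apply hne; simp [h]
    have hb : dbar (fun ζ => (χ1 ζ : ℂ)) ζ ≠ 0 := by
      intro h; apply hne; simp [h]
    have hc : 4 < ‖ζ‖ ∧ ‖ζ‖ < 8 := by
      by_contra h; exact hb ((hd1 ζ).2 h)
    exact hζ ⟨hχ0z ζ ha, hc.1, hc.2⟩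
  have pb : ∀ ζ, ‖p ζ‖ ≤ C3 := by
    intro ζ
    rw [hp]
    simp only [norm_mul, Complex.norm_real, Real.norm_eq_abs]
    have ha : |χ0 ζ| ≤ 1 := by
      rw [abs_le]; constructor <;> linarith [(hχ ζ).1, (hχ ζ).2.1]
    calc |χ0 ζ| * ‖dbar (fun ζ => (χ1 ζ : ℂ)) ζ‖ ≤ 1 * C3 :=
          mul_le_mul ha (hd1 ζ).1 (norm_nonneg _) zero_le_one
      _ = C3 := one_mul _
  have qz : ∀ ζ, ζ ∉ STR ρ → q ζ = 0 := by
    intro ζ hζ
    by_contra hne
    rw [hq] at hne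
    have ha : χ1 ζ ≠ 0 := by
      intro h; apply hne; simp [h]
    have hb : dbar (fun ζ => (χ0 ζ : ℂ)) ζ ≠ 0 := by
      intro h; apply hne; simp [h]
    obtain ⟨x, hx1, hx2, hx3⟩ := hd0 ζ
    have hc : ρ < ζ.re ∧ ζ.re < 2 * ρ := by
      by_contra h; apply hb; rw [hx1, hx3 h]; simp
    exact hζ ⟨hc.1, hc.2, hχ1z ζ ha⟩
  have qb : ∀ ζ, ∃ x : ℝ, q ζ = (x : ℂ) ∧ |x| ≤ C3 / ρ := by
    intro ζ
    obtain ⟨x, hx1, hx2, hx3⟩ := hd0 ζ
    refine ⟨χ1 ζ * x, ?_, ?_⟩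
    · rw [hq]; simp only [hx1]; push_cast; ring
    · rw [abs_mul]
      have ha : |χ1 ζ| ≤ 1 := by
        rw [abs_le]; constructor <;> linarith [(hχ ζ).2.2.1, (hχ ζ).2.2.2]
      calc |χ1 ζ| * |x| ≤ 1 * (C3 / ρ) := mul_le_mul ha hx2 (abs_nonneg _) zero_le_one
        _ = C3 / ρ := one_mul _
  have subO : OUTR ρ ⊆ HE ρ := fun ζ hζ => ⟨hζ.1, hζ.2.2⟩
  have subS : STR ρ ⊆ HE ρ := fun ζ hζ => ⟨hζ.1, hζ.2.2⟩
  have subQ : Qh h ⊆ HE ρ := fun ζ hζ => ⟨by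
    have := hζ.1
    linarith, by linarith [qnorm h h0 hh ζ hζ]⟩
  have vO : IntegrableOn v (OUTR ρ) := hvi.mono_set subO
  have vS : IntegrableOn v (STR ρ) := hvi.mono_set subS
  have vQ : IntegrableOn v (Qh h) := hvi.mono_set subQ
  have MO : MeasurableSet (OUTR ρ) := (oOUTR ρ).measurableSet
  have MS : MeasurableSet (STR ρ) := (oSTR ρ).measurableSet
  have MQ : MeasurableSet (Qh h) := (oQh h).measurableSet
  -- X and Y
  have nO : ∀ ζ ∈ OUTR ρ, ‖ζ⁻¹‖ ≤ 1 := by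
    intro ζ hζ
    rw [norm_inv]
    have := hζ.2.1
    rw [inv_le_one_iff₀]
    right; linarith
  have iX : Integrable (fun ζ => v ζ * (p ζ * ζ⁻¹)) := by
    refine hint (OUTR ρ) v _ C3 MO vO (mp.mul measurable_inv) ?_ ?_
    · intro ζ hζ
      rw [norm_mul]
      calc ‖p ζ‖ * ‖ζ⁻¹‖ ≤ C3 * 1 := mul_le_mul (pb ζ) (nO ζ hζ) (norm_nonneg _) hC3.le
        _ = C3 := mul_one _
    · intro ζ hζ; rw [pz ζ hζ]; simp
  have iY : Integrable (fun ζ => v ζ * (p ζ * (ζ⁻¹ * ζ⁻¹))) := by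
    refine hint (OUTR ρ) v _ C3 MO vO (mp.mul (measurable_inv.mul measurable_inv)) ?_ ?_
    · intro ζ hζ
      rw [norm_mul, norm_mul ζ⁻¹]
      have hh1 := nO ζ hζ
      have hh2 : ‖ζ⁻¹‖ * ‖ζ⁻¹‖ ≤ 1 := by nlinarith [norm_nonneg (ζ⁻¹)]
      calc ‖p ζ‖ * (‖ζ⁻¹‖ * ‖ζ⁻¹‖) ≤ C3 * 1 :=
            mul_le_mul (pb ζ) hh2 (by positivity) hC3.le
        _ = C3 := mul_one _
    · intro ζ hζ; rw [pz ζ hζ]; simp
  set X : ℂ := ∫ ζ, v ζ * (p ζ * ζ⁻¹) with hX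
  set Y : ℂ := ∫ ζ, v ζ * (p ζ * (ζ⁻¹ * ζ⁻¹)) with hY
  refine ⟨-(2 / Real.pi) * X.re, -(2 / Real.pi) * (I * Y).re, ?_⟩
  set a : ℝ := -(2 / Real.pi) * X.re with ha
  set b : ℝ := -(2 / Real.pi) * (I * Y).re with hb
  have caf : Continuous (af a b) := by
    unfold af
    exact continuous_const.add (continuous_const.mul (continuous_const.mul continuous_id))
  have iafQ : IntegrableOn (af a b) (Qh h) := by
    have h1 : IntegrableOn (af a b) (Metric.closedBall (0 : ℂ) 1) :=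
      caf.continuousOn.integrableOn_compact (isCompact_closedBall _ _)
    refine h1.mono_set ?_
    intro ζ hζ
    rw [Metric.mem_closedBall, dist_zero_right]
    exact (qnorm h h0 hh ζ hζ).le
  refine hDUAL (Qh h) (fun ζ => v ζ - af a b ζ) _ (oQh h) (SL_.qb h h0 hh)
    ((hvc.mono subQ).sub caf.continuousOn) (vQ.sub iafQ) ?_
  intro g g1 g2 g3 g4
  have hTF : TF h g := ⟨g1, g2, g3, g4⟩
  obtain ⟨kb, kr⟩ := H1 h g h0 hh hTF
  have gz : ∀ ζ, ζ ∉ Qh h → g ζ = 0 := by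
    intro ζ hζ
    by_contra hne
    exact hζ (g3 (subset_tsupport g hne))
  have mk : Measurable (kk g) := mkk g g1.continuous
  -- integral of af * g
  have ig : Integrable g := g1.continuous.integrable_of_hasCompactSupport g2
  have iwg : Integrable (fun w => w * g w) :=
    (continuous_id.mul g1.continuous).integrable_of_hasCompactSupport g2.mul_left
  have ivg : Integrable (fun ζ => v ζ * g ζ) := by
    refine hint (Qh h) v g 1 MQ vQ g1.continuous.measurable (fun ζ _ => g4 ζ) ?_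
    intro ζ hζ; rw [gz ζ hζ, mul_zero]
  set m0 : ℂ := ∫ w, g w with hm0
  set m1 : ℂ := ∫ w, w * g w with hm1
  have iaf : Integrable (fun ζ => af a b ζ * g ζ) :=
    (caf.mul g1.continuous).integrable_of_hasCompactSupport g2.mul_left
  have eaf : ∫ ζ, af a b ζ * g ζ = (a : ℂ) * m0 + ((b : ℂ) * (-I)) * m1 := by
    have e1 : (fun ζ => af a b ζ * g ζ) = fun ζ => (a : ℂ) * g ζ + ((b : ℂ) * (-I)) * (ζ * g ζ) := by
      funext ζ; unfold af; ring
    rw [e1, integral_add (ig.const_mul _) (iwg.const_mul _), integral_const_mul,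
      integral_const_mul]
  have e0 : ∫ ζ, (v ζ - af a b ζ) * g ζ = (∫ ζ, v ζ * g ζ) - ((a : ℂ) * m0 + ((b : ℂ) * (-I)) * m1) := by
    rw [← eaf, ← integral_sub ivg iaf]
    congr 1
    funext ζ
    ring
  -- the identity
  have hid := hSLI ρ h M v g χ0 χ1 hρ hρh hh hvc hvi hWB hM hTF s0 s1 hχ hχ0one hχ1one hcs hts
    hχ1z hχ0z (C1 * h) kb
  -- the parts
  have iF1 : Integrable (fun ζ => v ζ * (kk g ζ * q ζ)) := by
    refine hint (STR ρ) v _ (C1 * h * (C3 / ρ)) MS vS (mk.mul mq) ?_ ?_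
    · intro ζ hζ
      rw [norm_mul]
      obtain ⟨x, hx1, hx2⟩ := qb ζ
      have : ‖q ζ‖ ≤ C3 / ρ := by
        rw [hx1, Complex.norm_real, Real.norm_eq_abs]; exact hx2
      exact mul_le_mul (kb ζ) this (norm_nonneg _) (by positivity)
    · intro ζ hζ; rw [qz ζ hζ]; simp
  have iF2 : Integrable (fun ζ => v ζ * (kk g ζ * p ζ)) := by
    refine hint (OUTR ρ) v _ (C1 * h * C3) MO vO (mk.mul mp) ?_ ?_
    · intro ζ hζ
      rw [norm_mul]
      exact mul_le_mul (kb ζ) (pb ζ) (norm_nonneg _) (by positivity)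
    · intro ζ hζ; rw [pz ζ hζ]; simp
  have esplit : ∫ ζ, v ζ * kk g ζ *
      (χ1 ζ * dbar (fun ζ => (χ0 ζ : ℂ)) ζ + χ0 ζ * dbar (fun ζ => (χ1 ζ : ℂ)) ζ)
      = (∫ ζ, v ζ * (kk g ζ * q ζ)) + ∫ ζ, v ζ * (kk g ζ * p ζ) := by
    rw [← integral_add iF1 iF2]
    congr 1
    funext ζ
    rw [hp, hq]
    ring
  rw [esplit] at hid
  -- the far field
  set D : ℂ → ℂ := fun ζ => kk g ζ - ((2 / Real.pi : ℝ) : ℂ) * ((m0.re : ℂ) / ζ
      + I * (m1.im : ℂ) / ζ ^ 2) with hD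
  have mD : Measurable D := by
    refine mk.sub (measurable_const.mul ?_)
    exact (measurable_const.div measurable_id).add
      (measurable_const.div (measurable_id.pow_const 2))
  have hDb : ∀ ζ ∈ OUTR ρ, ‖D ζ‖ ≤ C2 * h ^ 4 := fun ζ hζ => H2 h g h0 hh hTF ζ hζ.2.1.le
  have iF3 : Integrable (fun ζ => v ζ * (p ζ * D ζ)) := by
    refine hint (OUTR ρ) v _ (C3 * (C2 * h ^ 4)) MO vO (mp.mul mD) ?_ ?_
    · intro ζ hζ
      rw [norm_mul]
      exact mul_le_mul (pb ζ) (hDb ζ hζ) (norm_nonneg _) hC3.le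
    · intro ζ hζ; rw [pz ζ hζ]; simp
  have bF3 : ‖∫ ζ, v ζ * (p ζ * D ζ)‖ ≤ C3 * (C2 * h ^ 4) * ∫ ζ in OUTR ρ, ‖v ζ‖ := by
    refine nint (OUTR ρ) v _ (C3 * (C2 * h ^ 4)) MO vO ?_ ?_
    · intro ζ hζ
      rw [norm_mul]
      exact mul_le_mul (pb ζ) (hDb ζ hζ) (norm_nonneg _) hC3.le
    · intro ζ hζ; rw [pz ζ hζ]; simp
  have eF2 : ∫ ζ, v ζ * (kk g ζ * p ζ) = (∫ ζ, v ζ * (p ζ * D ζ))
      + ((2 / Real.pi : ℝ) : ℂ) * (m0.re : ℂ) * X
      + ((2 / Real.pi : ℝ) : ℂ) * (m1.im : ℂ) * (I * Y) := by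
    have e1 : (fun ζ => v ζ * (kk g ζ * p ζ)) = fun ζ => (v ζ * (p ζ * D ζ)
        + ((2 / Real.pi : ℝ) : ℂ) * (m0.re : ℂ) * (v ζ * (p ζ * ζ⁻¹)))
        + ((2 / Real.pi : ℝ) : ℂ) * (m1.im : ℂ) * I * (v ζ * (p ζ * (ζ⁻¹ * ζ⁻¹))) := by
      funext ζ
      rw [hD]
      simp only [div_eq_mul_inv]
      ring
    have i1 := iX.const_mul (((2 / Real.pi : ℝ) : ℂ) * (m0.re : ℂ))
    have i2 := iY.const_mul (((2 / Real.pi : ℝ) : ℂ) * (m1.im : ℂ) * I)
    have i3 : Integrable (fun ζ => v ζ * (p ζ * D ζ)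
        + ((2 / Real.pi : ℝ) : ℂ) * (m0.re : ℂ) * (v ζ * (p ζ * ζ⁻¹))) := iF3.add i1
    rw [e1, integral_add i3 i2, integral_add iF3 i1, integral_const_mul, integral_const_mul,
      ← hX, ← hY]
    ring
  -- the strip
  have bF1 : |(∫ ζ, v ζ * (kk g ζ * q ζ)).re| ≤ (2 * C3 * C1) * (∫ ζ in STR ρ, ‖v ζ‖)
      + (C3 * C1 * (h / ρ)) * ∫ ζ in STR ρ, |(v ζ).im| := by
    refine rint (STR ρ) v _ _ _ MS vS iF1 ?_ ?_
    · intro ζ hζ
      obtain ⟨x, hx1, hx2⟩ := qb ζ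
      have hre : (v ζ * (kk g ζ * q ζ)).re
          = x * ((v ζ).re * (kk g ζ).re - (v ζ).im * (kk g ζ).im) := by
        rw [hx1]
        simp only [Complex.mul_re, Complex.mul_im, Complex.ofReal_re, Complex.ofReal_im]
        ring
      rw [hre, abs_mul]
      obtain ⟨z1, z2, z3⟩ := hζ
      have k1 : |(kk g ζ).re| ≤ C1 * (2 * ρ) :=
        (kr ζ (by linarith) (by linarith)).trans (mul_le_mul_of_nonneg_left z2.le hC1.le)
      have k2 : |(kk g ζ).im| ≤ C1 * h := (Complex.abs_im_le_norm _).trans (kb ζ)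
      have k3 : |(v ζ).re| ≤ ‖v ζ‖ := Complex.abs_re_le_norm _
      have k4 : |(v ζ).re * (kk g ζ).re - (v ζ).im * (kk g ζ).im|
          ≤ ‖v ζ‖ * (C1 * (2 * ρ)) + |(v ζ).im| * (C1 * h) := by
        refine (abs_sub _ _).trans ?_
        rw [abs_mul, abs_mul]
        exact add_le_add (mul_le_mul k3 k1 (abs_nonneg _) (norm_nonneg _))
          (mul_le_mul_of_nonneg_left k2 (abs_nonneg _))
      calc |x| * |(v ζ).re * (kk g ζ).re - (v ζ).im * (kk g ζ).im|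
          ≤ (C3 / ρ) * (‖v ζ‖ * (C1 * (2 * ρ)) + |(v ζ).im| * (C1 * h)) :=
            mul_le_mul hx2 k4 (abs_nonneg _) (by positivity)
        _ = 2 * C3 * C1 * ‖v ζ‖ + C3 * C1 * (h / ρ) * |(v ζ).im| := by
            field_simp
    · intro ζ hζ; rw [qz ζ hζ]; simp
  -- end
  have r1 := (Complex.abs_re_le_norm _).trans hid
  have r3 := (Complex.abs_re_le_norm _).trans bF3
  rw [eF2] at r1
  rw [e0]
  have rX : (((2 / Real.pi : ℝ) : ℂ) * (m0.re : ℂ) * X).re = (2 / Real.pi) * m0.re * X.re := by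
    rw [← Complex.ofReal_mul, Complex.re_ofReal_mul]
  have rY : (((2 / Real.pi : ℝ) : ℂ) * (m1.im : ℂ) * (I * Y)).re
      = (2 / Real.pi) * m1.im * (I * Y).re := by
    rw [← Complex.ofReal_mul, Complex.re_ofReal_mul]
  have raf : ((a : ℂ) * m0 + ((b : ℂ) * (-I)) * m1).re = a * m0.re + b * m1.im := by
    simp
  rw [Complex.sub_re, raf]
  simp only [Complex.add_re, rX, rY] at r1
  have nn1 : 0 ≤ ∫ ζ in OUTR ρ, ‖v ζ‖ := integral_nonneg fun _ => norm_nonneg _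
  have nn2 : 0 ≤ ∫ ζ in STR ρ, ‖v ζ‖ := integral_nonneg fun _ => norm_nonneg _
  have nn3 : 0 ≤ ∫ ζ in STR ρ, |(v ζ).im| := integral_nonneg fun _ => abs_nonneg _
  have nn4 : 0 ≤ h / ρ := by positivity
  set IO : ℝ := ∫ ζ in OUTR ρ, ‖v ζ‖
  set IS : ℝ := ∫ ζ in STR ρ, ‖v ζ‖
  set IT : ℝ := ∫ ζ in STR ρ, |(v ζ).im|
  have r1' := (abs_le.1 r1).2
  have r2' := (abs_le.1 bF1).1
  have r3' := (abs_le.1 r3).1
  have key : (∫ ζ, v ζ * g ζ).re - (a * m0.re + b * m1.im)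
      ≤ M * (C1 * h) + (2 * C3 * C1 * IS + C3 * C1 * (h / ρ) * IT) + C3 * (C2 * h ^ 4) * IO := by
    rw [ha, hb]
    linarith
  refine key.trans ?_
  have p1 : 0 ≤ C3 * C2 + 2 * C3 * C1 + C3 * C1 := by positivity
  have p2 : 0 ≤ C1 + 2 * C3 * C1 + C3 * C1 := by positivity
  have p3 : 0 ≤ C1 + C3 * C2 + C3 * C1 := by positivity
  have p4 : 0 ≤ C1 + C3 * C2 + 2 * C3 * C1 := by positivity
  have q1 : 0 ≤ (C3 * C2 + 2 * C3 * C1 + C3 * C1) * (h * M) := by positivity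
  have q2 : 0 ≤ (C1 + 2 * C3 * C1 + C3 * C1) * (h ^ 4 * IO) := by positivity
  have q3 : 0 ≤ (C1 + C3 * C2 + C3 * C1) * IS := by positivity
  have q4 : 0 ≤ (C1 + C3 * C2 + 2 * C3 * C1) * (h / ρ * IT) := by positivity
  nlinarith [q1, q2, q3, q4]

end Pool.Mart
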