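import Pool.Agent.Work.MP_680515_an.IfaceS

/-!
# MP_680515_an, block SLI: the identity for the test function `χ0 χ1 k`
-/

open MeasureTheory Set Filter Topology Complex

namespace Pool.Mart

namespace SLI_

theorem int_mul {U : Set ℂ} {v F : ℂ → ℂ} (hv : IntegrableOn v U) (hF : Continuous F)
    (hc : HasCompactSupport F) (h0 : ∀ ζ, ζ ∉ U → F ζ = 0) :
    Integrable (fun ζ => v ζ * F ζ) := by
  obtain ⟨C, hC⟩ := hF.bounded_above_of_compact_support hc
  have h1 : IntegrableOn (fun ζ => v ζ * F ζ) U :=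
    Integrable.mul_bdd hv hF.aestronglyMeasurable (Eventually.of_forall hC)
  refine (integrableOn_iff_integrable_of_support_subset (s := U) ?_).1 h1
  intro ζ hζ
  by_contra hn
  exact hζ (by simp [h0 ζ hn])

theorem dbar_mul {f g : ℂ → ℂ} {ζ : ℂ} (hf : DifferentiableAt ℝ f ζ)
    (hg : DifferentiableAt ℝ g ζ) :
    dbar (fun w => f w * g w) ζ = f ζ * dbar g ζ + g ζ * dbar f ζ := by
  unfold dbar
  rw [fderiv_fun_mul hf hg]
  simp only [add_apply, smul_apply, smul_eq_mul]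
  ring

theorem dbar_add {f g : ℂ → ℂ} {ζ : ℂ} (hf : DifferentiableAt ℝ f ζ)
    (hg : DifferentiableAt ℝ g ζ) :
    dbar (fun w => f w + g w) ζ = dbar f ζ + dbar g ζ := by
  unfold dbar
  rw [fderiv_fun_add hf hg]
  simp only [add_apply]
  ring

theorem dbar_cont {f : ℂ → ℂ} (hf : ContDiff ℝ (⊤ : ℕ∞) f) : Continuous (dbar f) := by
  have h := hf.continuous_fderiv (by simp)
  unfold dbar
  exact continuous_const.mul ((h.clm_apply continuous_const).add
    (continuous_const.mul (h.clm_apply continuous_const)))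

theorem dbar_supp {f : ℂ → ℂ} {ζ : ℂ} (h : ζ ∉ tsupport f) : dbar f ζ = 0 := by
  have h2 : fderiv ℝ f ζ = 0 := by
    by_contra hn
    exact h (support_fderiv_subset ℝ hn)
  unfold dbar
  rw [h2]
  simp

theorem smooth_ofReal {χ : ℂ → ℝ} (h : ContDiff ℝ (⊤ : ℕ∞) χ) :
    ContDiff ℝ (⊤ : ℕ∞) (fun ζ => ((χ ζ : ℝ) : ℂ)) :=
  Complex.ofRealCLM.contDiff.comp h

end SLI_

open SLI_ in
theorem stmt_SLI (hCTD : Stmt_CTD) (hRFL : Stmt_RFL) : Stmt_SLI := by
  intro ρ h M v g χ0 χ1 hρ hρh hh _hvc hvi hWB _hM hg hs0 hs1 hb h0 h1 hcs hts _hx1 hx0 B hB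
  obtain ⟨hgs, hgc, hgt, _hg1⟩ := hg
  obtain ⟨hrs, hrc, hrt, _, _⟩ := hRFL g hgs hgc
  obtain ⟨hCs, hCd⟩ := hCTD g hgs hgc
  obtain ⟨hCs', hCd'⟩ := hCTD (rfl' g) hrs hrc
  have hks : ContDiff ℝ (⊤ : ℕ∞) (kk g) := hCs.add hCs'
  have hkd : ∀ ζ, dbar (kk g) ζ = g ζ + rfl' g ζ := by
    intro ζ
    have := dbar_add (f := cT g) (g := cT (rfl' g)) (ζ := ζ)
      (hCs.differentiable (by simp) ζ) (hCs'.differentiable (by simp) ζ)
    rw [hCd, hCd'] at this
    exact this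
  have hS0 := smooth_ofReal hs0
  have hS1 := smooth_ofReal hs1
  set X : ℂ → ℂ := fun ζ => ((χ0 ζ : ℝ) : ℂ) * ((χ1 ζ : ℝ) : ℂ) with hX
  have hXs : ContDiff ℝ (⊤ : ℕ∞) X := hS0.mul hS1
  have hXeq : X = fun ζ => ((χ0 ζ * χ1 ζ : ℝ) : ℂ) := by
    funext ζ
    simp [hX]
  have hXsupp : Function.support X = Function.support (fun ζ => χ0 ζ * χ1 ζ) := by
    rw [hXeq]
    ext ζ
    simp only [Function.mem_support, ne_eq, Complex.ofReal_eq_zero]
  have hXt : tsupport X = tsupport (fun ζ => χ0 ζ * χ1 ζ) := by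
    unfold tsupport
    rw [hXsupp]
  have hXc : HasCompactSupport X := by
    unfold HasCompactSupport
    rw [hXt]
    exact hcs
  have hXb : ∀ ζ, ‖X ζ‖ ≤ 1 := by
    intro ζ
    rw [hXeq]
    obtain ⟨a1, a2, a3, a4⟩ := hb ζ
    rw [Complex.norm_real, Real.norm_eq_abs, abs_of_nonneg (mul_nonneg a1 a3)]
    nlinarith
  set ψ : ℂ → ℂ := fun ζ => X ζ * kk g ζ with hψ
  have hψs : ContDiff ℝ (⊤ : ℕ∞) ψ := hXs.mul hks
  have hψc : HasCompactSupport ψ := hXc.mul_right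
  have hψt : tsupport ψ ⊆ HE ρ := by
    have e1 : tsupport ψ ⊆ tsupport X := tsupport_mul_subset_left
    exact e1.trans (hXt ▸ hts)
  have hψb : ∀ ζ, ‖ψ ζ‖ ≤ B := by
    intro ζ
    rw [hψ]
    simp only [norm_mul]
    calc ‖X ζ‖ * ‖kk g ζ‖ ≤ 1 * ‖kk g ζ‖ :=
          mul_le_mul_of_nonneg_right (hXb ζ) (norm_nonneg _)
      _ ≤ B := by rw [one_mul]; exact hB ζ
  have hmain := hWB ψ hψs hψc hψt B hψb
  -- the product with `g + g*`
  have hXg : ∀ ζ, X ζ * (g ζ + rfl' g ζ) = g ζ := by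
    intro ζ
    by_cases hr : 0 ≤ ζ.re
    · have hz : rfl' g ζ = 0 := by
        by_contra hn
        have h3 := hgt (hrt ζ (subset_tsupport _ hn))
        obtain ⟨h4, _, _⟩ := h3
        simp only [Complex.neg_re, Complex.conj_re] at h4
        linarith
      rw [hz, add_zero]
      by_cases hgz : g ζ = 0
      · rw [hgz, mul_zero]
      · obtain ⟨h4, h5, h6⟩ := hgt (subset_tsupport _ hgz)
        have e0 : χ0 ζ = 1 := h0 ζ (by linarith)
        have e1 : χ1 ζ = 1 := by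
          refine h1 ζ ?_
          have := Complex.norm_le_abs_re_add_abs_im ζ
          rw [abs_of_nonneg hr] at this
          linarith
        simp [hX, e0, e1]
    · have e0 : χ0 ζ = 0 := by
        by_contra hn
        have := hx0 ζ hn
        linarith
      have hz : g ζ = 0 := by
        by_contra hn
        obtain ⟨h4, _, _⟩ := hgt (subset_tsupport _ hn)
        linarith
      rw [hz]
      simp [hX, e0]
  have hXd : ∀ ζ, dbar X ζ = χ1 ζ * dbar (fun ζ => (χ0 ζ : ℂ)) ζ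
      + χ0 ζ * dbar (fun ζ => (χ1 ζ : ℂ)) ζ := by
    intro ζ
    have := dbar_mul (f := fun ζ => ((χ0 ζ : ℝ) : ℂ)) (g := fun ζ => ((χ1 ζ : ℝ) : ℂ)) (ζ := ζ)
      (hS0.differentiable (by simp) ζ) (hS1.differentiable (by simp) ζ)
    rw [show dbar X ζ = dbar (fun w => ((χ0 w : ℝ) : ℂ) * ((χ1 w : ℝ) : ℂ)) ζ from rfl, this]
    ring
  have hψd : ∀ ζ, dbar ψ ζ = g ζ + kk g ζ * dbar X ζ := by
    intro ζ
    have := dbar_mul (f := X) (g := kk g) (ζ := ζ)
      (hXs.differentiable (by simp) ζ) (hks.differentiable (by simp) ζ)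
    rw [show dbar ψ ζ = dbar (fun w => X w * kk g w) ζ from rfl, this, hkd, hXg]
  have hgU : ∀ ζ, ζ ∉ HE ρ → g ζ = 0 := by
    intro ζ hζ
    by_contra hn
    obtain ⟨h4, h5, h6⟩ := hgt (subset_tsupport _ hn)
    apply hζ
    refine ⟨by linarith, ?_⟩
    have := Complex.norm_le_abs_re_add_abs_im ζ
    rw [abs_of_nonneg (by linarith : (0 : ℝ) ≤ ζ.re)] at this
    linarith
  have hI1 : Integrable (fun ζ => v ζ * g ζ) := int_mul hvi hgs.continuous hgc hgU
  have hI2 : Integrable (fun ζ => v ζ * (kk g ζ * dbar X ζ)) := by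
    refine int_mul hvi (hks.continuous.mul (dbar_cont hXs)) ?_ ?_
    · have hc2 : HasCompactSupport (dbar X) := by
        refine HasCompactSupport.intro' hXc (isClosed_tsupport X) ?_
        intro ζ hζ
        exact dbar_supp hζ
      exact hc2.mul_left
    · intro ζ hζ
      rw [dbar_supp (fun hn => hζ (hts (hXt ▸ hn))), mul_zero]
  have hsplit : ∫ ζ, v ζ * dbar ψ ζ = (∫ ζ, v ζ * g ζ) + ∫ ζ, v ζ * kk g ζ *
      (χ1 ζ * dbar (fun ζ => (χ0 ζ : ℂ)) ζ + χ0 ζ * dbar (fun ζ => (χ1 ζ : ℂ)) ζ) := by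
    rw [← integral_add hI1 (by
      refine hI2.congr (Eventually.of_forall fun ζ => ?_)
      simp only [hXd]
      ring)]
    refine integral_congr_ae (Eventually.of_forall fun ζ => ?_)
    simp only [hψd, hXd]
    ring
  rw [← hsplit]
  exact hmain

end Pool.Mart
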