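import Pool.Agent.Work.MP_680515_an.IfaceS

/-!
# MP_680515_an, block SPL: the scalar lemma with Whitney boxes
-/

open MeasureTheory Set Filter Topology Complex

namespace Pool.Mart

namespace SPL_

theorem int_union {f : ℂ → ℝ} (h0 : ∀ ζ, 0 ≤ f ζ) {A B : Set ℂ} (hA : IntegrableOn f A)
    (hB : IntegrableOn f B) :
    ∫ ζ in A ∪ B, f ζ ≤ (∫ ζ in A, f ζ) + ∫ ζ in B, f ζ := by
  have h1 : Integrable f (volume.restrict A + volume.restrict B) :=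
    Integrable.add_measure hA hB
  calc ∫ ζ in A ∪ B, f ζ ≤ ∫ ζ, f ζ ∂(volume.restrict A + volume.restrict B) :=
        integral_mono_measure (Measure.restrict_union_le A B) (Eventually.of_forall h0) h1
    _ = _ := integral_add_measure hA hB

theorem int_biUnion {ι : Type} {f : ℂ → ℝ} (h0 : ∀ ζ, 0 ≤ f ζ) (s : Finset ι)
    (E : ι → Set ℂ) (hE : ∀ i ∈ s, IntegrableOn f (E i)) :
    ∫ ζ in ⋃ i ∈ s, E i, f ζ ≤ ∑ i ∈ s, ∫ ζ in E i, f ζ := by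
  classical
  induction s using Finset.induction_on with
  | empty => simp
  | insert i s hi ih =>
    rw [Finset.set_biUnion_insert, Finset.sum_insert hi]
    have h1 := hE i (Finset.mem_insert_self i s)
    have h2 : ∀ j ∈ s, IntegrableOn f (E j) := fun j hj => hE j (Finset.mem_insert_of_mem hj)
    have h3 : IntegrableOn f (⋃ j ∈ s, E j) := (integrableOn_finset_iUnion).2 h2
    exact (int_union h0 h1 h3).trans (by linarith [ih h2])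

theorem int_cover {ι : Type} {f : ℂ → ℝ} (h0 : ∀ ζ, 0 ≤ f ζ) (s : Finset ι)
    (E : ι → Set ℂ) (hE : ∀ i ∈ s, IntegrableOn f (E i)) {S : Set ℂ}
    (hS : ∀ ζ ∈ S, ∃ i ∈ s, ζ ∈ E i) :
    ∫ ζ in S, f ζ ≤ ∑ i ∈ s, ∫ ζ in E i, f ζ := by
  have h3 : IntegrableOn f (⋃ j ∈ s, E j) := (integrableOn_finset_iUnion).2 hE
  refine (setIntegral_mono_set h3 (Eventually.of_forall h0) ?_).trans (int_biUnion h0 s E hE)
  refine Eventually.of_forall fun ζ hζ => ?_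
  obtain ⟨i, hi, hiE⟩ := hS ζ hζ
  exact Set.mem_biUnion hi hiE

theorem af_sub (a b a' b' : ℝ) (ζ : ℂ) : af (a - a') (b - b') ζ = af a b ζ - af a' b' ζ := by
  unfold af
  push_cast
  ring

theorem af_add (a b a' b' : ℝ) (ζ : ℂ) : af (a + a') (b + b') ζ = af a b ζ + af a' b' ζ := by
  unfold af
  push_cast
  ring

theorem af_cont (a b : ℝ) : Continuous (af a b) := by
  unfold af
  fun_prop

theorem af_int (a b : ℝ) {E : Set ℂ} (hE : E ⊆ Metric.closedBall 0 20) :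
    IntegrableOn (af a b) E :=
  ((af_cont a b).continuousOn.integrableOn_compact (isCompact_closedBall 0 20)).mono_set hE

theorem HD_sub (ρ : ℝ) : HD ρ ⊆ Metric.closedBall (0 : ℂ) 20 := by
  intro ζ hζ
  rw [mem_closedBall_zero_iff]
  exact hζ.2.le

theorem HE_sub {ρ ρ' : ℝ} (h : ρ' ≤ ρ) : HE ρ ⊆ HD ρ' := by
  intro ζ hζ
  exact ⟨h.trans_lt hζ.1, hζ.2.trans (by norm_num)⟩

theorem BC_sub (k : ℕ) (i : ℤ) : BC k i ⊆ BB k i := by
  intro ζ hζ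
  obtain ⟨h1, h2, h3⟩ := hζ
  have hp : (0 : ℝ) < (2 : ℝ)⁻¹ ^ k := by positivity
  have e1 : (2 : ℝ)⁻¹ ^ (k + 1) = (2 : ℝ)⁻¹ ^ k * (2 : ℝ)⁻¹ := pow_succ _ _
  have e2 : (2 : ℝ)⁻¹ ^ (k + 2) = (2 : ℝ)⁻¹ ^ k * (2 : ℝ)⁻¹ * (2 : ℝ)⁻¹ := by
    rw [pow_succ, pow_succ]
  refine ⟨?_, ?_, ?_⟩
  · rw [e2]
    rw [e1] at h1
    linarith
  · linarith
  · linarith

theorem QQ_sub {ρ : ℝ} (h : ρ ≤ 1 / 8) : QQ ⊆ HD ρ := by
  intro ζ hζ
  obtain ⟨h1, h2, h3⟩ := hζ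
  refine ⟨by linarith, ?_⟩
  have := Complex.norm_le_abs_re_add_abs_im ζ
  rw [abs_of_nonneg (by linarith : (0 : ℝ) ≤ ζ.re)] at this
  linarith

theorem card_IX (k : ℕ) : ((IX k).card : ℝ) ≤ 17 * 2 ^ k := by
  have h1 : (IX k).card = 16 * 2 ^ k + 1 := by
    unfold IX
    rw [Int.card_Icc]
    have : (8 * 2 ^ k + 1 - -(8 * 2 ^ k) : ℤ) = ((16 * 2 ^ k + 1 : ℕ) : ℤ) := by
      push_cast
      ring
    rw [this, Int.toNat_natCast]
  rw [h1]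
  push_cast
  have : (1 : ℝ) ≤ 2 ^ k := one_le_pow₀ (by norm_num)
  linarith

/-- Abel summation. -/
theorem abel (S : ℕ → ℝ) (K : ℕ) (hK : 3 ≤ K) :
    (∑ k ∈ Finset.Icc 3 K, (2 : ℝ)⁻¹ ^ k * ∑ j ∈ Finset.Icc 3 k, (4 : ℝ)⁻¹ ^ j * S j)
      + (2 : ℝ)⁻¹ ^ K * ∑ j ∈ Finset.Icc 3 K, (4 : ℝ)⁻¹ ^ j * S j
      = 2 * ∑ j ∈ Finset.Icc 3 K, (8 : ℝ)⁻¹ ^ j * S j := by
  induction K, hK using Nat.le_induction with
  | base =>
    simp only [Finset.Icc_self, Finset.sum_singleton]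
    norm_num
    ring
  | succ n hn ih =>
    rw [Finset.sum_Icc_succ_top (by omega), Finset.sum_Icc_succ_top (by omega),
      Finset.sum_Icc_succ_top (by omega)]
    have e8 : (8 : ℝ)⁻¹ ^ n = (2 : ℝ)⁻¹ ^ n * (4 : ℝ)⁻¹ ^ n := by
      rw [← mul_pow]
      norm_num
    rw [pow_succ (2 : ℝ)⁻¹, pow_succ (4 : ℝ)⁻¹, pow_succ (8 : ℝ)⁻¹, e8]
    linear_combination ih

theorem geom (K : ℕ) (hK : 3 ≤ K) : ∑ k ∈ Finset.Icc 3 K, (2 : ℝ)⁻¹ ^ k ≤ 1 := by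
  have h : ∑ k ∈ Finset.Icc 3 K, (2 : ℝ)⁻¹ ^ k + (2 : ℝ)⁻¹ ^ K = 1 / 4 := by
    induction K, hK using Nat.le_induction with
    | base => norm_num
    | succ n hn ih =>
      rw [Finset.sum_Icc_succ_top (by omega), pow_succ (2 : ℝ)⁻¹]
      linarith
  have : (0 : ℝ) < (2 : ℝ)⁻¹ ^ K := by positivity
  linarith

/-- Sum over a generation of the bounds by the chain of ancestors. -/
theorem sum_chain {C2 o0 : ℝ} (hC2 : 0 ≤ C2) (h00 : 0 ≤ o0) (k : ℕ) (X : ℤ → ℝ) (w : ℕ → ℝ)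
    (hw : ∀ j, 0 ≤ w j) (o : ℕ → ℤ → ℝ)
    (hcov : ∀ (f : ℤ → ℝ) (j : ℕ), j ≤ k → (∀ i, 0 ≤ f i) →
      ∑ i ∈ IX k, f (anc k j i) ≤ 2 ^ (k - j) * ∑ i ∈ IX j, f i)
    (hX : ∀ i ∈ IX k, X i ≤ C2 * (o0 + ∑ j ∈ Finset.Icc 3 k, w j * o j (anc k j i))) :
    ∑ i ∈ IX k, X i ≤ C2 * ((2 : ℝ) ^ k * (17 * o0 + ∑ j ∈ Finset.Icc 3 k,
      w j * (2 : ℝ)⁻¹ ^ j * ∑ i ∈ IX j, max (o j i) 0)) := by
  have h1 : ∑ i ∈ IX k, X i ≤ ∑ i ∈ IX k, C2 * (o0 + ∑ j ∈ Finset.Icc 3 k,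
      w j * max (o j (anc k j i)) 0) := by
    refine Finset.sum_le_sum fun i hi => (hX i hi).trans ?_
    refine mul_le_mul_of_nonneg_left ?_ hC2
    have : ∑ j ∈ Finset.Icc 3 k, w j * o j (anc k j i)
        ≤ ∑ j ∈ Finset.Icc 3 k, w j * max (o j (anc k j i)) 0 :=
      Finset.sum_le_sum fun j _ => mul_le_mul_of_nonneg_left (le_max_left _ _) (hw j)
    linarith
  refine h1.trans ?_
  rw [← Finset.mul_sum, Finset.sum_add_distrib, Finset.sum_const, nsmul_eq_mul,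
    Finset.sum_comm]
  refine mul_le_mul_of_nonneg_left ?_ hC2
  have h2 : ((IX k).card : ℝ) * o0 ≤ 17 * 2 ^ k * o0 :=
    mul_le_mul_of_nonneg_right (card_IX k) h00
  have h3 : ∑ j ∈ Finset.Icc 3 k, ∑ i ∈ IX k, w j * max (o j (anc k j i)) 0
      ≤ ∑ j ∈ Finset.Icc 3 k, (2 : ℝ) ^ k * (w j * (2 : ℝ)⁻¹ ^ j * ∑ i ∈ IX j, max (o j i) 0) := by
    refine Finset.sum_le_sum fun j hj => ?_
    have hjk : j ≤ k := (Finset.mem_Icc.1 hj).2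
    rw [← Finset.mul_sum]
    have h4 := hcov (fun i => max (o j i) 0) j hjk (fun i => le_max_right _ _)
    have h5 : (2 : ℝ) ^ (k - j) = 2 ^ k * (2 : ℝ)⁻¹ ^ j := by
      rw [pow_sub₀ _ (by norm_num) hjk, inv_pow]
    rw [h5] at h4
    calc w j * ∑ i ∈ IX k, max (o j (anc k j i)) 0
        ≤ w j * (2 ^ k * (2 : ℝ)⁻¹ ^ j * ∑ i ∈ IX j, max (o j i) 0) :=
          mul_le_mul_of_nonneg_left h4 (hw j)
      _ = _ := by ring
  rw [← Finset.mul_sum] at h3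
  have : (2 : ℝ) ^ k * (17 * o0 + ∑ j ∈ Finset.Icc 3 k,
      w j * (2 : ℝ)⁻¹ ^ j * ∑ i ∈ IX j, max (o j i) 0) = 17 * 2 ^ k * o0 +
      (2 : ℝ) ^ k * ∑ j ∈ Finset.Icc 3 k, w j * (2 : ℝ)⁻¹ ^ j * ∑ i ∈ IX j, max (o j i) 0 := by
    ring
  rw [this]
  exact add_le_add h2 h3

theorem gen_num {C2 C3 r t A Bs P R o0 : ℝ} (hC2 : 0 < C2) (hC3 : 0 < C3) (h00 : 0 ≤ o0)
    (hr0 : 0 < r) (hr1 : r ≤ 1) (e2 : t * r = 1) (hp : A ≤ C2 * (t * (17 * o0 + P)))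
    (hr : Bs ≤ C2 * (t * (17 * o0 + R))) (hrp : r * R ≤ P) :
    C3 * (r * r) * (A + r * Bs) ≤ 2 * (C2 * C3) * (r * (17 * o0 + P)) := by
  have hA : r * A ≤ C2 * (17 * o0 + P) := by
    calc r * A ≤ r * (C2 * (t * (17 * o0 + P))) := mul_le_mul_of_nonneg_left hp hr0.le
      _ = C2 * ((t * r) * (17 * o0 + P)) := by ring
      _ = _ := by rw [e2, one_mul]
  have hB : r * Bs ≤ C2 * (17 * o0 + R) := by
    calc r * Bs ≤ r * (C2 * (t * (17 * o0 + R))) := mul_le_mul_of_nonneg_left hr hr0.le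
      _ = C2 * ((t * r) * (17 * o0 + R)) := by ring
      _ = _ := by rw [e2, one_mul]
  have hB2 : r * (r * Bs) ≤ C2 * (17 * o0 + P) := by
    calc r * (r * Bs) ≤ r * (C2 * (17 * o0 + R)) := mul_le_mul_of_nonneg_left hB hr0.le
      _ = C2 * (17 * (r * o0) + r * R) := by ring
      _ ≤ C2 * (17 * o0 + P) := by
          refine mul_le_mul_of_nonneg_left ?_ hC2.le
          have : r * o0 ≤ o0 := mul_le_of_le_one_left h00 hr1
          linarith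
  have h2 : C3 * (r * r) * (A + r * Bs) = C3 * r * (r * A) + C3 * r * (r * (r * Bs)) := by
    ring
  rw [h2]
  have h3 : C3 * r * (r * A) ≤ C3 * r * (C2 * (17 * o0 + P)) :=
    mul_le_mul_of_nonneg_left hA (by positivity)
  have h4 : C3 * r * (r * (r * Bs)) ≤ C3 * r * (C2 * (17 * o0 + P)) :=
    mul_le_mul_of_nonneg_left hB2 (by positivity)
  linarith

theorem out_num {K o0 T Q W G Y IO : ℝ} (hK : 0 < K) (h00 : 0 ≤ o0) (hOUT : IO ≤ o0 + T)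
    (h1 : T ≤ Q + 2 * K * (17 * o0 * G + W)) (h3 : W + Y = 2 * Q) (h4 : 0 ≤ Y) (h5 : G ≤ 1)
    (h6 : 0 ≤ Q) : IO ≤ (1 + 34 * K) * (o0 + Q) := by
  have h7 : 17 * o0 * G + W ≤ 17 * o0 + 2 * Q := by
    have : 17 * o0 * G ≤ 17 * o0 * 1 := mul_le_mul_of_nonneg_left h5 (by positivity)
    linarith
  have h8 : 2 * K * (17 * o0 * G + W) ≤ 2 * K * (17 * o0 + 2 * Q) :=
    mul_le_mul_of_nonneg_left h7 (by positivity)
  have h9 : (0 : ℝ) ≤ K * Q := mul_nonneg hK.le h6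
  linarith

theorem final_num {C1 C2 C3 h M r ρ t o0 Q R P s IO IS II Bs : ℝ} (hC1 : 0 < C1) (hC2 : 0 < C2)
    (hC3 : 0 < C3) (hr0 : 0 < r) (hr1 : r ≤ 1) (hh0 : 0 < h) (hh : h ≤ 1 / 128) (hM : 0 ≤ M)
    (h00 : 0 ≤ o0) (hQ0 : 0 ≤ Q) (hR0 : 0 ≤ R) (hs0 : 0 ≤ s) (hPk : P ≤ R) (hsing : r * s ≤ R)
    (e2 : t * r = 1) (hOUT : IO ≤ (1 + 34 * (C2 * C3)) * (o0 + Q))
    (hS : IS ≤ r * r * r * s + 2 * (C2 * C3) * (r * (17 * o0 + P)))
    (hI : II ≤ r * r * r * s + C3 * (r * r * r) * Bs) (hBs : Bs ≤ C2 * (t * (17 * o0 + R)))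
    (eρ : ρ = r / 2) :
    C1 * (h ^ 4 * IO + h * M + IS + (h / ρ) * II) ≤
      C1 * (40 + 80 * (C2 * C3)) * (h ^ 4 * (o0 + Q) + r * (o0 + R) + h * M) := by
  have hK : 0 < C2 * C3 := by positivity
  have hrRs : r * (r * s) ≤ r * R := mul_le_mul_of_nonneg_left hsing hr0.le
  have e0 : 0 ≤ r * o0 := by positivity
  have hIS : IS ≤ (1 + 34 * (C2 * C3)) * (r * (o0 + R)) := by
    have h1 : r * r * r * s ≤ r * R := by
      calc r * r * r * s = r * (r * (r * s)) := by ring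
        _ ≤ 1 * (r * (r * s)) := mul_le_mul_of_nonneg_right hr1 (by positivity)
        _ ≤ r * R := by linarith
    have h2 : 2 * (C2 * C3) * (r * (17 * o0 + P)) ≤ 2 * (C2 * C3) * (r * (17 * (o0 + R))) := by
      refine mul_le_mul_of_nonneg_left (mul_le_mul_of_nonneg_left ?_ hr0.le) (by positivity)
      linarith
    linarith
  have hII : (h / ρ) * II ≤ (1 + 17 * (C2 * C3)) * (r * (o0 + R)) := by
    have h1 : r * Bs ≤ C2 * (17 * (o0 + R)) := by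
      calc r * Bs ≤ r * (C2 * (t * (17 * o0 + R))) := mul_le_mul_of_nonneg_left hBs hr0.le
        _ = C2 * ((t * r) * (17 * o0 + R)) := by ring
        _ = C2 * (17 * o0 + R) := by rw [e2, one_mul]
        _ ≤ _ := mul_le_mul_of_nonneg_left (by linarith) hC2.le
    have h2 : II ≤ r * (r * R + 17 * (C2 * C3) * (r * (o0 + R))) := by
      have h3 : C3 * (r * r * r) * Bs ≤ r * (17 * (C2 * C3) * (r * (o0 + R))) := by
        calc C3 * (r * r * r) * Bs = C3 * (r * r) * (r * Bs) := by ring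
          _ ≤ C3 * (r * r) * (C2 * (17 * (o0 + R))) :=
              mul_le_mul_of_nonneg_left h1 (by positivity)
          _ = _ := by ring
      have h4 : r * r * r * s ≤ r * (r * R) := by
        calc r * r * r * s = r * (r * (r * s)) := by ring
          _ ≤ _ := mul_le_mul_of_nonneg_left hrRs hr0.le
      linarith
    have h5 : h / ρ = 2 * h / r := by
      rw [eρ]
      field_simp
    rw [h5]
    have hII0 : 0 ≤ r * R + 17 * (C2 * C3) * (r * (o0 + R)) := by positivity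
    calc 2 * h / r * II ≤ 2 * h / r * (r * (r * R + 17 * (C2 * C3) * (r * (o0 + R)))) :=
          mul_le_mul_of_nonneg_left h2 (by positivity)
      _ = 2 * h * (r * R + 17 * (C2 * C3) * (r * (o0 + R))) := by field_simp
      _ ≤ 1 * (r * R + 17 * (C2 * C3) * (r * (o0 + R))) :=
          mul_le_mul_of_nonneg_right (by linarith) hII0
      _ ≤ _ := by linarith
  have h4 : 0 ≤ h ^ 4 := by positivity
  have e1 : h ^ 4 * IO ≤ (1 + 34 * (C2 * C3)) * (h ^ 4 * (o0 + Q)) := by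
    calc h ^ 4 * IO ≤ h ^ 4 * ((1 + 34 * (C2 * C3)) * (o0 + Q)) :=
          mul_le_mul_of_nonneg_left hOUT h4
      _ = _ := by ring
  generalize C2 * C3 = K at *
  have f1 : 0 ≤ h ^ 4 * (o0 + Q) := by positivity
  have f2 : 0 ≤ r * (o0 + R) := by positivity
  have f3 : 0 ≤ h * M := by positivity
  generalize h ^ 4 * (o0 + Q) = x1 at *
  generalize r * (o0 + R) = x2 at *
  generalize h * M = x3 at *
  generalize h ^ 4 * IO = y1 at *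
  generalize (h / ρ) * II = y2 at *
  have g1 : 0 ≤ K * x1 := by positivity
  have g2 : 0 ≤ K * x2 := by positivity
  have g3 : 0 ≤ K * x3 := by positivity
  have hsum : y1 + x3 + IS + y2 ≤ (40 + 80 * K) * (x1 + x2 + x3) := by
    linarith
  calc C1 * (y1 + x3 + IS + y2) ≤ C1 * ((40 + 80 * K) * (x1 + x2 + x3)) :=
        mul_le_mul_of_nonneg_left hsum hC1.le
    _ = _ := by ring

end SPL_

open SPL_ in
theorem stmt_SPL (hSL : Stmt_SL) (hCHS : Stmt_CHS) (hBXI : Stmt_BXI) (hCOV : Stmt_COV)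
    (hWAF : Stmt_WAF) : Stmt_SPL := by
  obtain ⟨C1, hC1, HSL⟩ := hSL
  obtain ⟨C2, hC2, HCHS⟩ := hCHS
  obtain ⟨C3, hC3, HBXI⟩ := hBXI
  refine ⟨C1 * (40 + 80 * (C2 * C3)), by positivity, ?_⟩
  intro k0 h M v a b o a0 b0 o0 hk0 hρh hh hM hvc hvi hWB ho ho0
  obtain ⟨cov1, cov2, cov3, cov4, cov5⟩ := hCOV k0 hk0
  set ρ : ℝ := (2 : ℝ)⁻¹ ^ (k0 + 1) with hρ
  set ρ' : ℝ := (2 : ℝ)⁻¹ ^ (k0 + 3) with hρ'
  have hρ0 : 0 < ρ := by positivity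
  have hρρ : ρ' ≤ ρ := pow_le_pow_of_le_one (by norm_num) (by norm_num) (by omega)
  have hρ8 : ρ' ≤ 1 / 8 := by
    have : ρ' ≤ (2 : ℝ)⁻¹ ^ 3 := pow_le_pow_of_le_one (by norm_num) (by norm_num) (by omega)
    norm_num at this ⊢
    exact this
  set w : ℂ → ℂ := fun ζ => v ζ - af a0 b0 ζ with hw
  have hh0 : 0 < h := by nlinarith
  have h00 : 0 ≤ o0 := le_trans (integral_nonneg fun _ => norm_nonneg _) ho0
  -- the function `w`
  have hwi : IntegrableOn w (HD ρ') := hvi.sub (af_int a0 b0 (HD_sub ρ'))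
  have hwiE : IntegrableOn w (HE ρ) := hwi.mono_set (HE_sub hρρ)
  have hwcE : ContinuousOn w (HE ρ) :=
    (hvc.mono (HE_sub hρρ)).sub (af_cont a0 b0).continuousOn
  have hWBw : WB (HE ρ) w M := by
    intro ψ hψs hψc hψt B hB
    have h1 := hWB ψ hψs hψc (hψt.trans (HE_sub hρρ)) B hB
    have hdc : Continuous (dbar ψ) := by
      have h := hψs.continuous_fderiv (by simp)
      unfold dbar
      exact continuous_const.mul ((h.clm_apply continuous_const).add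
        (continuous_const.mul (h.clm_apply continuous_const)))
    have hds : ∀ ζ, ζ ∉ tsupport ψ → dbar ψ ζ = 0 := by
      intro ζ hζ
      have h2 : fderiv ℝ ψ ζ = 0 := by
        by_contra hn
        exact hζ (support_fderiv_subset ℝ hn)
      unfold dbar
      rw [h2]
      simp
    have hdcs : HasCompactSupport (dbar ψ) :=
      HasCompactSupport.intro' hψc (isClosed_tsupport ψ) hds
    obtain ⟨D, hD⟩ := hdc.bounded_above_of_compact_support hdcs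
    have hI : Integrable (fun ζ => v ζ * dbar ψ ζ) := by
      have h2 : IntegrableOn (fun ζ => v ζ * dbar ψ ζ) (HD ρ') :=
        Integrable.mul_bdd hvi hdc.aestronglyMeasurable (Eventually.of_forall hD)
      refine (integrableOn_iff_integrable_of_support_subset (s := HD ρ') ?_).1 h2
      intro ζ hζ
      by_contra hn
      exact hζ (by
        show v ζ * dbar ψ ζ = 0
        rw [hds ζ (fun h3 => hn (HE_sub hρρ (hψt h3))), mul_zero])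
    obtain ⟨hA1, hA2⟩ := hWAF a0 b0 ψ hψs hψc
    have h3 : ∫ ζ, w ζ * dbar ψ ζ = ∫ ζ, v ζ * dbar ψ ζ := by
      have : ∫ ζ, w ζ * dbar ψ ζ = ∫ ζ, (v ζ * dbar ψ ζ - af a0 b0 ζ * dbar ψ ζ) := by
        refine integral_congr_ae (Eventually.of_forall fun ζ => ?_)
        simp only [hw]
        ring
      rw [this, integral_sub hI hA1, hA2, sub_zero]
    rw [h3]
    exact h1
  obtain ⟨a', b', hab⟩ := HSL ρ h M w hρ0 hρh hh hM hwcE hwiE hWBw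
  refine ⟨a0 + a', b0 + b', ?_⟩
  have hQh : ∫ ζ in Qh h, ‖v ζ - af (a0 + a') (b0 + b') ζ‖ = ∫ ζ in Qh h, ‖w ζ - af a' b' ζ‖ := by
    refine integral_congr_ae (Eventually.of_forall fun ζ => ?_)
    simp only [hw, af_add]
    congr 1
    ring
  rw [hQh]
  refine hab.trans ?_
  -- the boxes
  have hBBi : ∀ k ∈ Finset.Icc 3 k0, ∀ i ∈ IX k, IntegrableOn w (BB k i) := fun k hk i hi =>
    hwi.mono_set (cov3 k hk i hi)
  have hoB : ∀ k ∈ Finset.Icc 3 k0, ∀ i ∈ IX k,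
      8 ^ k * (∫ ζ in BB k i, ‖w ζ - af (a k i - a0) (b k i - b0) ζ‖) ≤ o k i := by
    intro k hk i hi
    have : ∫ ζ in BB k i, ‖w ζ - af (a k i - a0) (b k i - b0) ζ‖
        = ∫ ζ in BB k i, ‖v ζ - af (a k i) (b k i) ζ‖ := by
      refine integral_congr_ae (Eventually.of_forall fun ζ => ?_)
      simp only [hw, af_sub]
      congr 1
      ring
    rw [this]
    exact ho k hk i hi
  have ho_nn : ∀ k ∈ Finset.Icc 3 k0, ∀ i ∈ IX k, 0 ≤ o k i := by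
    intro k hk i hi
    refine le_trans ?_ (ho k hk i hi)
    exact mul_nonneg (by positivity) (integral_nonneg fun _ => norm_nonneg _)
  have hchs := HCHS w k0 (fun k i => a k i - a0) (fun k i => b k i - b0) o o0 hk0
    (hwi.mono_set (QQ_sub hρ8)) hBBi hoB ho0
  set S : ℕ → ℝ := fun j => ∑ i ∈ IX j, max (o j i) 0 with hS
  have hS0 : ∀ j, 0 ≤ S j := fun j => Finset.sum_nonneg fun i _ => le_max_right _ _
  have hSo : ∀ j ∈ Finset.Icc 3 k0, S j = ∑ i ∈ IX j, o j i := by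
    intro j hj
    refine Finset.sum_congr rfl fun i hi => ?_
    exact max_eq_left (ho_nn j hj i hi)
  have hP : ∀ k ∈ Finset.Icc 3 k0, ∑ i ∈ IX k, |(a k i - a0) + (b k i - b0) * (i * (2 : ℝ)⁻¹ ^ k)|
      ≤ C2 * ((2 : ℝ) ^ k * (17 * o0 + ∑ j ∈ Finset.Icc 3 k, (4 : ℝ)⁻¹ ^ j * S j)) := by
    intro k hk
    have := sum_chain hC2.le h00 k
      (fun i => |(a k i - a0) + (b k i - b0) * (i * (2 : ℝ)⁻¹ ^ k)|) (fun j => (2 : ℝ)⁻¹ ^ j)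
      (fun j => by positivity) o (fun f j => cov5 f k j) (fun i hi => (hchs k hk i hi).2)
    refine this.trans (le_of_eq ?_)
    congr 3
    refine Finset.sum_congr rfl fun j _ => ?_
    rw [← mul_pow]
    norm_num [hS]
  have hR : ∀ k ∈ Finset.Icc 3 k0, ∑ i ∈ IX k, |b k i - b0|
      ≤ C2 * ((2 : ℝ) ^ k * (17 * o0 + ∑ j ∈ Finset.Icc 3 k, (2 : ℝ)⁻¹ ^ j * S j)) := by
    intro k hk
    have := sum_chain hC2.le h00 k (fun i => |b k i - b0|) (fun j => 1)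
      (fun j => by norm_num) o (fun f j => cov5 f k j) (fun i hi => by
        simpa using (hchs k hk i hi).1)
    refine this.trans (le_of_eq ?_)
    congr 3
    refine Finset.sum_congr rfl fun j _ => ?_
    rw [one_mul]
  have hRP : ∀ k, (2 : ℝ)⁻¹ ^ k * ∑ j ∈ Finset.Icc 3 k, (2 : ℝ)⁻¹ ^ j * S j
      ≤ ∑ j ∈ Finset.Icc 3 k, (4 : ℝ)⁻¹ ^ j * S j := by
    intro k
    rw [Finset.mul_sum]
    refine Finset.sum_le_sum fun j hj => ?_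
    have hjk : j ≤ k := (Finset.mem_Icc.1 hj).2
    have e1 : (2 : ℝ)⁻¹ ^ k ≤ (2 : ℝ)⁻¹ ^ j := pow_le_pow_of_le_one (by norm_num) (by norm_num) hjk
    have e4 : (4 : ℝ)⁻¹ ^ j = (2 : ℝ)⁻¹ ^ j * (2 : ℝ)⁻¹ ^ j := by
      rw [← mul_pow]
      norm_num
    rw [e4, ← mul_assoc]
    exact mul_le_mul_of_nonneg_right (mul_le_mul_of_nonneg_right e1 (by positivity)) (hS0 j)
  have hPR : ∀ k, ∑ j ∈ Finset.Icc 3 k, (4 : ℝ)⁻¹ ^ j * S j
      ≤ ∑ j ∈ Finset.Icc 3 k, (2 : ℝ)⁻¹ ^ j * S j := by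
    intro k
    refine Finset.sum_le_sum fun j _ => mul_le_mul_of_nonneg_right ?_ (hS0 j)
    exact pow_le_pow_left₀ (by norm_num) (by norm_num) j
  have hwn : ∀ k ∈ Finset.Icc 3 k0, ∀ i ∈ IX k, IntegrableOn (fun ζ => ‖w ζ‖) (BC k i) :=
    fun k hk i hi => ((hBBi k hk i hi).mono_set (BC_sub k i)).norm
  have hwm : ∀ k ∈ Finset.Icc 3 k0, ∀ i ∈ IX k, IntegrableOn (fun ζ => |(w ζ).im|) (BC k i) := by
    intro k hk i hi
    have h1 : IntegrableOn w (BC k i) := (hBBi k hk i hi).mono_set (BC_sub k i)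
    exact (Complex.imCLM.integrable_comp h1).norm
  have hT : ∀ k ∈ Finset.Icc 3 k0, ∑ i ∈ IX k, ∫ ζ in BC k i, ‖w ζ‖
      ≤ (8 : ℝ)⁻¹ ^ k * S k + 2 * (C2 * C3) * ((2 : ℝ)⁻¹ ^ k * (17 * o0 +
        ∑ j ∈ Finset.Icc 3 k, (4 : ℝ)⁻¹ ^ j * S j)) := by
    intro k hk
    have h1 : ∑ i ∈ IX k, ∫ ζ in BC k i, ‖w ζ‖ ≤ ∑ i ∈ IX k, ((8 : ℝ)⁻¹ ^ k * o k i
        + C3 * (4 : ℝ)⁻¹ ^ k * (|(a k i - a0) + (b k i - b0) * (i * (2 : ℝ)⁻¹ ^ k)|
          + (2 : ℝ)⁻¹ ^ k * |b k i - b0|)) :=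
      Finset.sum_le_sum fun i hi =>
        (HBXI w k i (a k i - a0) (b k i - b0) (o k i) (hBBi k hk i hi) (hoB k hk i hi)).1
    rw [Finset.sum_add_distrib, ← Finset.mul_sum, ← Finset.mul_sum, Finset.sum_add_distrib,
      ← Finset.mul_sum, ← hSo k hk] at h1
    have e2 : (2 : ℝ) ^ k * (2 : ℝ)⁻¹ ^ k = 1 := by
      rw [← mul_pow]
      norm_num
    have e4 : (4 : ℝ)⁻¹ ^ k = (2 : ℝ)⁻¹ ^ k * (2 : ℝ)⁻¹ ^ k := by
      rw [← mul_pow]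
      norm_num
    have h2 := gen_num hC2 hC3 h00 (r := (2 : ℝ)⁻¹ ^ k) (by positivity)
      (pow_le_one₀ (by norm_num) (by norm_num)) e2 (hP k hk) (hR k hk) (hRP k)
    rw [e4] at h1
    exact h1.trans (add_le_add le_rfl h2)
  -- the outer region
  have hOUT : ∫ ζ in OUTR ρ, ‖w ζ‖ ≤ o0 + ∑ k ∈ Finset.Icc 3 k0,
      ∑ i ∈ IX k, ∫ ζ in BC k i, ‖w ζ‖ := by
    set s : Finset (Σ _ : ℕ, ℤ) := (Finset.Icc 3 k0).sigma IX with hs
    have hE : ∀ p ∈ s, IntegrableOn (fun ζ => ‖w ζ‖) (BC p.1 p.2) := by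
      intro p hp
      rw [hs, Finset.mem_sigma] at hp
      exact hwn p.1 hp.1 p.2 hp.2
    have hQi : IntegrableOn (fun ζ => ‖w ζ‖) QQ := (hwi.mono_set (QQ_sub hρ8)).norm
    have hUi : IntegrableOn (fun ζ => ‖w ζ‖) (⋃ p ∈ s, BC p.1 p.2) :=
      (integrableOn_finset_iUnion).2 hE
    have h1 : ∫ ζ in OUTR ρ, ‖w ζ‖ ≤ ∫ ζ in QQ ∪ ⋃ p ∈ s, BC p.1 p.2, ‖w ζ‖ := by
      refine setIntegral_mono_set (hQi.union hUi) (Eventually.of_forall fun _ => norm_nonneg _) ?_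
      refine Eventually.of_forall fun ζ hζ => ?_
      obtain ⟨h2, _, h4⟩ := hζ
      have h5 : |ζ.im| < 8 := (Complex.abs_im_le_norm ζ).trans_lt h4
      have h6 : ζ.re < 8 := (le_abs_self _).trans_lt ((Complex.abs_re_le_norm ζ).trans_lt h4)
      by_cases h7 : ζ.re ≤ 1 / 8
      · right
        obtain ⟨k, hk, i, hi, hz⟩ := cov1 ζ h2 h7 h5
        exact Set.mem_biUnion (x := (⟨k, i⟩ : Σ _ : ℕ, ℤ)) (Finset.mem_sigma.2 ⟨hk, hi⟩) hz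
      · left
        exact ⟨lt_of_not_ge h7, by linarith, by linarith⟩
    refine h1.trans ?_
    refine (int_union (fun _ => norm_nonneg _) hQi hUi).trans ?_
    have h2 := int_biUnion (fun ζ => norm_nonneg (w ζ)) s (fun p => BC p.1 p.2) hE
    have h3 : ∑ p ∈ s, ∫ ζ in BC p.1 p.2, ‖w ζ‖
        = ∑ k ∈ Finset.Icc 3 k0, ∑ i ∈ IX k, ∫ ζ in BC k i, ‖w ζ‖ := by
      rw [hs, Finset.sum_sigma]
    rw [h3] at h2
    exact add_le_add ho0 h2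
  have hOUT2 : ∫ ζ in OUTR ρ, ‖w ζ‖ ≤ (1 + 34 * (C2 * C3)) *
      (o0 + ∑ k ∈ Finset.Icc 3 k0, (8 : ℝ)⁻¹ ^ k * S k) := by
    have h1 := Finset.sum_le_sum hT
    rw [Finset.sum_add_distrib, ← Finset.mul_sum] at h1
    have h2 : ∑ k ∈ Finset.Icc 3 k0, ((2 : ℝ)⁻¹ ^ k * (17 * o0 +
        ∑ j ∈ Finset.Icc 3 k, (4 : ℝ)⁻¹ ^ j * S j))
        = 17 * o0 * ∑ k ∈ Finset.Icc 3 k0, (2 : ℝ)⁻¹ ^ k +
          ∑ k ∈ Finset.Icc 3 k0, (2 : ℝ)⁻¹ ^ k * ∑ j ∈ Finset.Icc 3 k, (4 : ℝ)⁻¹ ^ j * S j := by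
      rw [Finset.mul_sum, ← Finset.sum_add_distrib]
      refine Finset.sum_congr rfl fun k _ => ?_
      ring
    rw [h2] at h1
    exact out_num (by positivity) h00 hOUT h1 (abel S k0 hk0)
      (mul_nonneg (by positivity) (Finset.sum_nonneg fun j _ => mul_nonneg (by positivity) (hS0 j)))
      (geom k0 hk0) (Finset.sum_nonneg fun j _ => mul_nonneg (by positivity) (hS0 j))
  -- the strip
  have hmem : k0 ∈ Finset.Icc 3 k0 := Finset.mem_Icc.2 ⟨hk0, le_rfl⟩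
  have hSTR : ∫ ζ in STR ρ, ‖w ζ‖ ≤ ∑ i ∈ IX k0, ∫ ζ in BC k0 i, ‖w ζ‖ :=
    int_cover (fun _ => norm_nonneg _) (IX k0) (BC k0) (hwn k0 hmem) cov2
  have hSTI : ∫ ζ in STR ρ, |(w ζ).im| ≤ ∑ i ∈ IX k0, ∫ ζ in BC k0 i, |(w ζ).im| :=
    int_cover (fun _ => abs_nonneg _) (IX k0) (BC k0) (hwm k0 hmem) cov2
  have hTI : ∑ i ∈ IX k0, ∫ ζ in BC k0 i, |(w ζ).im| ≤ (8 : ℝ)⁻¹ ^ k0 * S k0
      + C3 * (8 : ℝ)⁻¹ ^ k0 * ∑ i ∈ IX k0, |b k0 i - b0| := by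
    have h1 : ∑ i ∈ IX k0, ∫ ζ in BC k0 i, |(w ζ).im| ≤ ∑ i ∈ IX k0, ((8 : ℝ)⁻¹ ^ k0 * o k0 i
        + C3 * (8 : ℝ)⁻¹ ^ k0 * |b k0 i - b0|) :=
      Finset.sum_le_sum fun i hi =>
        (HBXI w k0 i (a k0 i - a0) (b k0 i - b0) (o k0 i) (hBBi k0 hmem i hi)
          (hoB k0 hmem i hi)).2
    rwa [Finset.sum_add_distrib, ← Finset.mul_sum, ← Finset.mul_sum, ← hSo k0 hmem] at h1
  have hsing : (2 : ℝ)⁻¹ ^ k0 * S k0 ≤ ∑ j ∈ Finset.Icc 3 k0, (2 : ℝ)⁻¹ ^ j * S j :=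
    Finset.single_le_sum (f := fun j => (2 : ℝ)⁻¹ ^ j * S j)
      (fun j _ => mul_nonneg (by positivity) (hS0 j)) hmem
  have hTk := hT k0 hmem
  have e8 : (8 : ℝ)⁻¹ ^ k0 = (2 : ℝ)⁻¹ ^ k0 * (2 : ℝ)⁻¹ ^ k0 * (2 : ℝ)⁻¹ ^ k0 := by
    rw [← mul_pow, ← mul_pow]
    norm_num
  have e2 : (2 : ℝ) ^ k0 * (2 : ℝ)⁻¹ ^ k0 = 1 := by
    rw [← mul_pow]
    norm_num
  have eρ : ρ = (2 : ℝ)⁻¹ ^ k0 / 2 := by
    rw [hρ, pow_succ]
    ring
  have hfin1 : ∑ k ∈ Finset.Icc 3 k0, (8 : ℝ)⁻¹ ^ k * ∑ i ∈ IX k, o k i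
      = ∑ k ∈ Finset.Icc 3 k0, (8 : ℝ)⁻¹ ^ k * S k :=
    Finset.sum_congr rfl fun k hk => by rw [hSo k hk]
  have hfin2 : ∑ k ∈ Finset.Icc 3 k0, (2 : ℝ)⁻¹ ^ k * ∑ i ∈ IX k, o k i
      = ∑ k ∈ Finset.Icc 3 k0, (2 : ℝ)⁻¹ ^ k * S k :=
    Finset.sum_congr rfl fun k hk => by rw [hSo k hk]
  rw [hfin1, hfin2]
  have hQ0 : (0 : ℝ) ≤ ∑ k ∈ Finset.Icc 3 k0, (8 : ℝ)⁻¹ ^ k * S k :=
    Finset.sum_nonneg fun j _ => mul_nonneg (by positivity) (hS0 j)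
  have hR0 : (0 : ℝ) ≤ ∑ k ∈ Finset.Icc 3 k0, (2 : ℝ)⁻¹ ^ k * S k :=
    Finset.sum_nonneg fun j _ => mul_nonneg (by positivity) (hS0 j)
  rw [e8] at hTk hTI
  exact final_num hC1 hC2 hC3 (by positivity) (pow_le_one₀ (by norm_num) (by norm_num)) hh0 hh hM
    h00 hQ0 hR0 (hS0 k0) (hPR k0) hsing e2 hOUT2 (hSTR.trans hTk) (hSTI.trans hTI) (hR k0 hmem) eρ

end Pool.Mart
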