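import Pool.Agent.Work.MP_680515_an.IfaceS

open MeasureTheory Set Filter Topology Complex

namespace Pool.Mart

namespace SPV_

lemma HD_bdd (ρ : ℝ) : HD ρ ⊆ Metric.closedBall 0 20 := by
  rintro ζ ⟨_, h⟩
  rw [Metric.mem_closedBall, dist_zero_right]
  exact h.le

lemma BB_HD (k0 k : ℕ) (i : ℤ) (hk : k ∈ Finset.Icc 3 k0) (hi : i ∈ IX k) :
    BB k i ⊆ HD ((2 : ℝ)⁻¹ ^ (k0 + 3)) := by
  rintro ζ ⟨h1, h2, h3⟩
  rw [Finset.mem_Icc] at hk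
  have hp : (0 : ℝ) < (2 : ℝ)⁻¹ ^ k := by positivity
  have hp1 : (2 : ℝ)⁻¹ ^ k ≤ (2 : ℝ)⁻¹ ^ 3 :=
    pow_le_pow_of_le_one (by norm_num) (by norm_num) hk.1
  have e8 : (2 : ℝ)⁻¹ ^ 3 = 1 / 8 := by norm_num
  rw [e8] at hp1
  have hq : (0 : ℝ) < (2 : ℝ)⁻¹ ^ (k + 2) := by positivity
  have h4 : ‖ζ‖ ≤ |ζ.re| + |ζ.im| := Complex.norm_le_abs_re_add_abs_im ζ
  have h5 : |ζ.re| ≤ 2 := by
    rw [abs_of_pos (hq.trans h1)]; linarith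
  have hi' : |(i : ℝ)| ≤ 8 * 2 ^ k := by
    rw [IX, Finset.mem_Icc] at hi
    rw [abs_le]
    constructor
    · have := hi.1
      have h : ((-(8 * 2 ^ k) : ℤ) : ℝ) ≤ (i : ℝ) := by exact_mod_cast this
      push_cast at h
      linarith
    · exact_mod_cast hi.2
  have h6 : |ζ.im| ≤ 10 := by
    have e : ζ.im = (ζ.im - i * (2 : ℝ)⁻¹ ^ k) + i * (2 : ℝ)⁻¹ ^ k := by ring
    rw [e]
    refine (abs_add_le _ _).trans ?_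
    have h7 : |(i : ℝ) * (2 : ℝ)⁻¹ ^ k| ≤ 8 := by
      rw [abs_mul, abs_of_pos hp]
      have h8 : |(i : ℝ)| * (2 : ℝ)⁻¹ ^ k ≤ 8 * 2 ^ k * (2 : ℝ)⁻¹ ^ k :=
        mul_le_mul_of_nonneg_right hi' hp.le
      have h9 : (8 : ℝ) * 2 ^ k * (2 : ℝ)⁻¹ ^ k = 8 := by
        rw [mul_assoc, ← mul_pow]; norm_num
      linarith
    linarith
  refine ⟨?_, by linarith⟩
  have : (2 : ℝ)⁻¹ ^ (k0 + 3) ≤ (2 : ℝ)⁻¹ ^ (k + 2) :=
    pow_le_pow_of_le_one (by norm_num) (by norm_num) (by omega)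
  linarith

lemma QQ_HD (k0 : ℕ) (hk : 3 ≤ k0) : QQ ⊆ HD ((2 : ℝ)⁻¹ ^ (k0 + 3)) := by
  rintro ζ ⟨h1, h2, h3⟩
  have h4 : ‖ζ‖ ≤ |ζ.re| + |ζ.im| := Complex.norm_le_abs_re_add_abs_im ζ
  have h5 : |ζ.re| ≤ 9 := by
    rw [abs_of_pos (by linarith)]; linarith
  refine ⟨?_, by linarith⟩
  have : (2 : ℝ)⁻¹ ^ (k0 + 3) ≤ (2 : ℝ)⁻¹ ^ 3 :=
    pow_le_pow_of_le_one (by norm_num) (by norm_num) (by omega)
  have e8 : (2 : ℝ)⁻¹ ^ 3 = 1 / 8 := by norm_num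
  linarith

lemma Qh_HD (k0 : ℕ) (h : ℝ) (h0 : 64 * (2 : ℝ)⁻¹ ^ (k0 + 1) ≤ h) (h1 : h ≤ 1 / 128) :
    Qh h ⊆ HD ((2 : ℝ)⁻¹ ^ (k0 + 3)) := by
  rintro ζ ⟨h2, h3, h5⟩
  have hp : (0 : ℝ) < (2 : ℝ)⁻¹ ^ (k0 + 1) := by positivity
  have h4 : ‖ζ‖ ≤ |ζ.re| + |ζ.im| := Complex.norm_le_abs_re_add_abs_im ζ
  have h6 : |ζ.re| ≤ 9 := by
    rw [abs_of_pos (by linarith)]; linarith
  refine ⟨?_, by linarith⟩
  have : (2 : ℝ)⁻¹ ^ (k0 + 3) ≤ (2 : ℝ)⁻¹ ^ (k0 + 1) :=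
    pow_le_pow_of_le_one (by norm_num) (by norm_num) (by omega)
  linarith

lemma af_cont (a b : ℝ) : Continuous (af a b) := by
  unfold af
  fun_prop

lemma aff_apply (a b : Fin 5 → ℝ) (ζ : ℂ) (c : Fin 5) : aff a b ζ c = af (a c) (b c) ζ := rfl

lemma aff_cont (a b : Fin 5 → ℝ) : Continuous (aff a b) := by
  unfold aff
  refine (PiLp.continuous_toLp 2 _).comp ?_
  refine continuous_pi fun c => ?_
  exact af_cont (a c) (b c)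

lemma aff_int (a b : Fin 5 → ℝ) (ρ : ℝ) : IntegrableOn (aff a b) (HD ρ) :=
  ((aff_cont a b).continuousOn.integrableOn_compact
    (isCompact_closedBall (0 : ℂ) 20)).mono_set (HD_bdd ρ)

lemma comp_int {V : ℂ → C5} {s : Set ℂ} (h : IntegrableOn V s) (c : Fin 5) :
    IntegrableOn (fun ζ => V ζ c) s :=
  (EuclideanSpace.proj c : C5 →L[ℂ] ℂ).integrable_comp h

lemma comp_le (x : C5) (c : Fin 5) : ‖x c‖ ≤ ‖x‖ := PiLp.norm_apply_le x c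

lemma norm_le_sum (x : C5) : ‖x‖ ≤ ∑ c, ‖x c‖ := by
  rw [EuclideanSpace.norm_eq]
  have h0 : ∀ c ∈ (Finset.univ : Finset (Fin 5)), 0 ≤ ‖x c‖ := fun c _ => norm_nonneg _
  rw [Real.sqrt_le_left (Finset.sum_nonneg h0)]
  exact Finset.sum_sq_le_sq_sum_of_nonneg h0

end SPV_

open SPV_ in
theorem stmt_SPV (hSPL : Stmt_SPL) : Stmt_SPV := by
  obtain ⟨C, hC, H⟩ := hSPL
  refine ⟨5 * C, by positivity, ?_⟩
  intro k0 h M V a b o a0 b0 o0 hk0 h64 h128 hM hcont hint hwb hbox hQQ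
  have key : ∀ c : Fin 5, ∃ p : ℝ × ℝ, ∫ ζ in Qh h, ‖V ζ c - af p.1 p.2 ζ‖ ≤ C * (
      h ^ 4 * (o0 + ∑ k ∈ Finset.Icc 3 k0, (8 : ℝ)⁻¹ ^ k * ∑ i ∈ IX k, o k i)
      + (2 : ℝ)⁻¹ ^ k0 * (o0 + ∑ k ∈ Finset.Icc 3 k0, (2 : ℝ)⁻¹ ^ k * ∑ i ∈ IX k, o k i)
      + h * M) := by
    intro c
    have hmono : ∀ (s : Set ℂ) (p q : Fin 5 → ℝ), s ⊆ HD ((2 : ℝ)⁻¹ ^ (k0 + 3)) →
        (∫ ζ in s, ‖V ζ c - af (p c) (q c) ζ‖) ≤ ∫ ζ in s, ‖V ζ - aff p q ζ‖ := by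
      intro s p q hs
      have hi : IntegrableOn (fun ζ => V ζ - aff p q ζ) s :=
        (hint.sub (aff_int p q _)).mono_set hs
      refine setIntegral_mono (comp_int hi c).norm hi.norm fun ζ => ?_
      exact comp_le (V ζ - aff p q ζ) c
    obtain ⟨a1, b1, h1⟩ := H k0 h M (fun ζ => V ζ c) (fun k i => a k i c) (fun k i => b k i c) o
      (a0 c) (b0 c) o0 hk0 h64 h128 hM
      ((EuclideanSpace.proj c : C5 →L[ℂ] ℂ).continuous.comp_continuousOn hcont)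
      (comp_int hint c) (hwb c)
      (fun k hk i hi => (mul_le_mul_of_nonneg_left (hmono _ (a k i) (b k i) (BB_HD k0 k i hk hi))
        (by positivity)).trans (hbox k hk i hi))
      ((hmono _ a0 b0 (QQ_HD k0 hk0)).trans hQQ)
    exact ⟨(a1, b1), h1⟩
  choose p hp using key
  refine ⟨fun c => (p c).1, fun c => (p c).2, ?_⟩
  have hi : IntegrableOn (fun ζ => V ζ - aff (fun c => (p c).1) (fun c => (p c).2) ζ) (Qh h) :=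
    (hint.sub (aff_int _ _ _)).mono_set (Qh_HD k0 h h64 h128)
  calc (∫ ζ in Qh h, ‖V ζ - aff (fun c => (p c).1) (fun c => (p c).2) ζ‖)
      ≤ ∫ ζ in Qh h, ∑ c, ‖V ζ c - af (p c).1 (p c).2 ζ‖ := by
        refine setIntegral_mono hi.norm ?_ fun ζ => ?_
        · exact integrable_finsetSum _ fun c _ => (comp_int hi c).norm
        · exact norm_le_sum (V ζ - aff (fun c => (p c).1) (fun c => (p c).2) ζ)
    _ = ∑ c, ∫ ζ in Qh h, ‖V ζ c - af (p c).1 (p c).2 ζ‖ :=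
        integral_finsetSum _ fun c _ => (comp_int hi c).norm
    _ ≤ ∑ _c : Fin 5, C * (
      h ^ 4 * (o0 + ∑ k ∈ Finset.Icc 3 k0, (8 : ℝ)⁻¹ ^ k * ∑ i ∈ IX k, o k i)
      + (2 : ℝ)⁻¹ ^ k0 * (o0 + ∑ k ∈ Finset.Icc 3 k0, (2 : ℝ)⁻¹ ^ k * ∑ i ∈ IX k, o k i)
      + h * M) := Finset.sum_le_sum fun c _ => hp c
    _ = _ := by
        rw [Finset.sum_const, Finset.card_univ, Fintype.card_fin, nsmul_eq_mul]
        push_cast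
        ring

end Pool.Mart
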