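import Pool.Agent.Work.MP_680515_an.IfaceL

/-! # MP_680515_an: block STAR (helper89) -/

open MeasureTheory Set Filter Topology Complex

namespace Pool.Mart

namespace STAR_

theorem act_adj (M : M3) (v w : E3) : inner ℝ (act M v) w = inner ℝ v (act M.transpose w) := by
  simp only [PiLp.inner_apply, act, Matrix.mulVec, dotProduct, Fin.sum_univ_three,
    Matrix.transpose_apply, RCLike.inner_apply, conj_trivial]
  ring

theorem act_sub (M : M3) (v w : E3) : act M (v - w) = act M v - act M w := by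
  unfold act
  rw [WithLp.ofLp_sub, Matrix.mulVec_sub, WithLp.toLp_sub]

theorem act_smul (M : M3) (c : ℝ) (v : E3) : act M (c • v) = c • act M v := by
  unfold act
  rw [WithLp.ofLp_smul, Matrix.mulVec_smul, WithLp.toLp_smul]

theorem act_comb (M : M3) (v w : E3) (s t : ℝ) :
    act M (s • v + t • w) = s • act M v + t • act M w := by
  unfold act
  rw [WithLp.ofLp_add, WithLp.ofLp_smul, WithLp.ofLp_smul, Matrix.mulVec_add, Matrix.mulVec_smul,
    Matrix.mulVec_smul, WithLp.toLp_add, WithLp.toLp_smul, WithLp.toLp_smul]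

theorem opn_nonneg (M : M3) : 0 ≤ opn M := norm_nonneg _

/-- the bilinear form -/
noncomputable def bf (A : M3) (v w : E3) : ℝ :=
  opn (cofm A) ^ 2 * inner ℝ v w - inner ℝ (act (cofm A) v) (act (cofm A) w)

theorem qf_comb (A : M3) (v w : E3) (s t : ℝ) :
    qf A (s • v + t • w) = s ^ 2 * qf A v + 2 * s * t * bf A v w + t ^ 2 * qf A w := by
  have h1 : ∀ x y : E3, ‖s • x + t • y‖ ^ 2
      = s ^ 2 * ‖x‖ ^ 2 + 2 * s * t * inner ℝ x y + t ^ 2 * ‖y‖ ^ 2 := by
    intro x y
    rw [norm_add_sq_real, norm_smul, norm_smul, inner_smul_left, inner_smul_right, mul_pow,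
      mul_pow, Real.norm_eq_abs, Real.norm_eq_abs, sq_abs, sq_abs]
    simp only [conj_trivial]
    ring
  unfold qf bf
  rw [act_comb, h1, h1]
  ring

theorem bf_le (A : M3) (hpos : ∀ v : E3, 0 ≤ qf A v) (v w : E3) :
    |bf A v w| ≤ Real.sqrt (qf A v) * Real.sqrt (qf A w) := by
  have hcs : bf A v w ^ 2 ≤ qf A v * qf A w := by
    have hd : ∀ x : ℝ, 0 ≤ qf A w * (x * x) + 2 * bf A v w * x + qf A v := by
      intro x
      have h4 := hpos ((1 : ℝ) • v + x • w)
      rw [qf_comb] at h4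
      nlinarith [h4]
    have h5 := discrim_le_zero hd
    unfold discrim at h5
    nlinarith [h5]
  rw [← Real.sqrt_mul (hpos v)]
  exact Real.abs_le_sqrt hcs

end STAR_

open STAR_ in
theorem stmt_STAR (hBAS : Stmt_BAS) (hQF : Stmt_QF) : Stmt_STAR := by
  obtain ⟨hop, _, _, hin, hadj, _, _⟩ := hBAS
  intro A hG hdet ξ ξ'
  have hpos : ∀ v : E3, 0 ≤ qf A v := fun v => ((hQF A).1 v).1
  have hle : ∀ v : E3, qf A v ≤ opn (cofm A) ^ 2 * ‖v‖ ^ 2 := fun v => ((hQF A).1 v).2
  have hcs := bf_le A hpos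
  have hN0 : 0 ≤ opn (cofm A) := opn_nonneg _
  have hNpos : 0 < opn (cofm A) := by
    rcases hN0.lt_or_eq with h | h
    · exact h
    · exfalso
      have h1 := hop (cofm A) e3
      rw [← h, zero_mul] at h1
      have h2 : act (cofm A) e3 = 0 := norm_le_zero_iff.1 h1
      have h3 := hin A e3 e3
      have h4 : ‖e3‖ = 1 := by simp [e3]
      rw [h2, inner_zero_right, real_inner_self_eq_norm_sq, h4] at h3
      nlinarith
  obtain ⟨N, hN⟩ : ∃ N, N = opn (cofm A) := ⟨_, rfl⟩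
  obtain ⟨B, hB⟩ : ∃ B, B = cofm A := ⟨_, rfl⟩
  have htau : tau A = A.det / N := by rw [hN]; rfl
  rw [← hN] at hNpos hle
  have hbf : ∀ v w, bf A v w = N ^ 2 * inner ℝ v w - inner ℝ (act B v) (act B w) := by
    intro v w; unfold bf; rw [← hN, ← hB]
  have htp : 0 < tau A := by rw [htau]; positivity
  have hop3 : opn A ≤ 2 * tau A := by
    have h1 : A.det ≤ 2 * tau A ^ 3 := by
      have h2 : N ^ 3 ≤ 2 * A.det ^ 2 := by have := hG.1; rwa [← hN] at this
      rw [htau, div_pow]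
      rw [← mul_div_assoc, le_div_iff₀ (by positivity)]
      nlinarith
    have h3 : opn A ^ 3 ≤ (2 * tau A) ^ 3 := by
      have := hG.2
      nlinarith
    exact le_of_pow_le_pow_left₀ (by norm_num) (by positivity) h3
  -- the operator `H`
  obtain ⟨H, hH⟩ : ∃ H : E3 → E3, H = fun v => N ^ 2 • v - act B.transpose (act B v) := ⟨_, rfl⟩
  have hHv : ∀ v, H v = N ^ 2 • v - act B.transpose (act B v) := fun v => by rw [hH]
  have hHin : ∀ v w, inner ℝ w (H v) = bf A w v := by
    intro v w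
    rw [hHv, inner_sub_right, real_inner_smul_right, ← act_adj, hbf]
  have hHn : ∀ v, ‖H v‖ ≤ N * Real.sqrt (qf A v) := by
    intro v
    have h1 : ‖H v‖ ^ 2 ≤ (N * Real.sqrt (qf A v)) * ‖H v‖ := by
      rw [← real_inner_self_eq_norm_sq, hHin v (H v)]
      refine (le_abs_self _).trans ((hcs _ _).trans ?_)
      have h2 : Real.sqrt (qf A (H v)) ≤ N * ‖H v‖ := by
        apply Real.sqrt_le_iff.2
        refine ⟨by positivity, ?_⟩
        rw [mul_pow]
        exact hle (H v)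
      calc Real.sqrt (qf A (H v)) * Real.sqrt (qf A v) ≤ (N * ‖H v‖) * Real.sqrt (qf A v) :=
            mul_le_mul_of_nonneg_right h2 (Real.sqrt_nonneg _)
        _ = (N * Real.sqrt (qf A v)) * ‖H v‖ := by ring
    rcases (norm_nonneg (H v)).lt_or_eq with h | h
    · rw [pow_two] at h1
      exact le_of_mul_le_mul_right h1 h
    · rw [← h]; positivity
  have hAH : ∀ v, N ^ 2 • act A v = act A (H v) + A.det • act B v := by
    intro v
    have h1 : act A (H v) = N ^ 2 • act A v - A.det • act B v := by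
      rw [hHv, act_sub, act_smul, hB, hadj A]
    rw [h1]; abel
  have hAHn : ∀ v, ‖act A (H v)‖ ≤ 2 * tau A * (N * Real.sqrt (qf A v)) := by
    intro v
    refine (hop A (H v)).trans ?_
    exact mul_le_mul hop3 (hHn v) (norm_nonneg _) (by positivity)
  have hin' : ∀ v w, inner ℝ (act A v) (act B w) = A.det * inner ℝ v w := by
    intro v w; rw [hB]; exact hin A v w
  -- main identity
  have hmain : N ^ 4 * inner ℝ (act A ξ) (act A ξ')
      = inner ℝ (act A (H ξ)) (act A (H ξ')) + A.det ^ 2 * bf A ξ ξ'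
        + A.det ^ 2 * (N ^ 2 * inner ℝ ξ ξ') := by
    have h1 : N ^ 4 * inner ℝ (act A ξ) (act A ξ')
        = inner ℝ (N ^ 2 • act A ξ) (N ^ 2 • act A ξ') := by
      rw [real_inner_smul_left, real_inner_smul_right]; ring
    have h2 : inner ℝ (act A (H ξ)) (act B ξ') = A.det * bf A ξ ξ' := by
      rw [hin' (H ξ) ξ', real_inner_comm, hHin ξ ξ']
      congr 1
      rw [hbf, hbf, real_inner_comm, real_inner_comm (act B ξ)]
    have h3 : inner ℝ (act B ξ) (act A (H ξ')) = A.det * bf A ξ ξ' := by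
      rw [real_inner_comm, hin' (H ξ') ξ, real_inner_comm, hHin ξ' ξ]
    have h4 : inner ℝ (act B ξ) (act B ξ') = N ^ 2 * inner ℝ ξ ξ' - bf A ξ ξ' := by
      rw [hbf]; ring
    rw [h1, hAH ξ, hAH ξ', inner_add_left, inner_add_right, inner_add_right,
      real_inner_smul_left, real_inner_smul_left, real_inner_smul_right, real_inner_smul_right,
      h2, h3, h4]
    ring
  have hS : 0 ≤ Real.sqrt (qf A ξ) * Real.sqrt (qf A ξ') := by positivity
  obtain ⟨S, hSd⟩ : ∃ S, S = Real.sqrt (qf A ξ) * Real.sqrt (qf A ξ') := ⟨_, rfl⟩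
  rw [← hSd] at hS
  have hd : A.det = tau A * N := by rw [htau]; field_simp
  have hb1 : |inner ℝ (act A (H ξ)) (act A (H ξ'))| ≤ 4 * tau A ^ 2 * N ^ 2 * S := by
    refine (abs_real_inner_le_norm _ _).trans ?_
    refine (mul_le_mul (hAHn ξ) (hAHn ξ') (norm_nonneg _) (by positivity)).trans (le_of_eq ?_)
    rw [hSd]; ring
  have hb2 : |bf A ξ ξ'| ≤ S := by rw [hSd]; exact hcs ξ ξ'
  have hfin : N ^ 4 * |inner ℝ (act A ξ) (act A ξ') - tau A ^ 2 * inner ℝ ξ ξ'|
      ≤ 5 * tau A ^ 2 * N ^ 2 * S := by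
    have h1 : N ^ 4 * |inner ℝ (act A ξ) (act A ξ') - tau A ^ 2 * inner ℝ ξ ξ'|
        = |inner ℝ (act A (H ξ)) (act A (H ξ')) + A.det ^ 2 * bf A ξ ξ'| := by
      rw [← abs_of_pos (show (0 : ℝ) < N ^ 4 by positivity), ← abs_mul, mul_sub, hmain]
      congr 1
      rw [hd]; ring
    rw [h1]
    refine (abs_add_le _ _).trans ?_
    rw [abs_mul, abs_of_nonneg (sq_nonneg A.det)]
    have h2 : A.det ^ 2 * |bf A ξ ξ'| ≤ A.det ^ 2 * S :=
      mul_le_mul_of_nonneg_left hb2 (sq_nonneg _)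
    have h3 : A.det ^ 2 * S = tau A ^ 2 * N ^ 2 * S := by
      rw [hd]; ring
    linarith
  rw [← hN, ← hSd]
  have h4 : 5 * tau A ^ 2 / N ^ 2 * S = (5 * tau A ^ 2 * N ^ 2 * S) / N ^ 4 := by
    field_simp
  rw [h4, le_div_iff₀ (by positivity), mul_comm]
  exact hfin

end Pool.Mart
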