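import Pool.Agent.Work.MP_680515_an.IfaceM
import Pool.Agent.Work.MP_680515_an.IfaceS

/-!
# MP_680515_an: block STB
-/

open MeasureTheory Set Filter Topology Complex

namespace Pool.Mart

/-! ### The norm `en` -/

theorem STB_en_add (a b : Fin 5 → ℝ) : en (a + b) ≤ en a + en b := by
  unfold en
  rw [WithLp.toLp_add]
  exact norm_add_le _ _

theorem STB_en_smul (c : ℝ) (a : Fin 5 → ℝ) : en (c • a) = |c| * en a := by
  unfold en
  rw [WithLp.toLp_smul, norm_smul, Real.norm_eq_abs]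

theorem STB_en_sum (a : Fin 5 → ℝ) : en a ≤ ∑ k, |a k| := by
  unfold en
  rw [EuclideanSpace.norm_eq]
  refine Real.sqrt_le_iff.2 ⟨Finset.sum_nonneg fun k _ => abs_nonneg _, ?_⟩
  simp only [Real.norm_eq_abs]
  exact Finset.sum_sq_le_sq_sum_of_nonneg fun k _ => abs_nonneg _

theorem STB_en_bound (a : Fin 5 → ℝ) (B : ℝ) (h : ∀ k, |a k| ≤ B) : en a ≤ 5 * B := by
  refine (STB_en_sum a).trans ?_
  calc ∑ k, |a k| ≤ ∑ _k : Fin 5, B := Finset.sum_le_sum fun k _ => h k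
    _ = 5 * B := by simp

/-! ### Real affine functions -/

theorem STB_aff_apply (a b : Fin 5 → ℝ) (ζ : ℂ) (k : Fin 5) : aff a b ζ k = af (a k) (b k) ζ := by
  simp [aff, af]

theorem STB_aff_cont (a b : Fin 5 → ℝ) : Continuous (aff a b) := by
  unfold aff
  refine (PiLp.continuous_toLp 2 _).comp ?_
  refine continuous_pi fun k => ?_
  fun_prop

theorem STB_actC_cont (R : Matrix (Fin 5) (Fin 5) ℝ) : Continuous (actC R) := by
  unfold actC
  refine (PiLp.continuous_toLp 2 _).comp ?_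
  refine continuous_pi fun k => ?_
  fun_prop

/-- The pointwise identity. -/
theorem STB_ident (R : Matrix (Fin 5) (Fin 5) ℝ) (pa pb qa qb a b : Fin 5 → ℝ) (l z0 : ℝ)
    (hl : l ≠ 0) (V1 V2 : C5) (ζ : ℂ) :
    aff (qa - l⁻¹ • R.mulVec (pa - a + z0 • (pb - b))) (qb - R.mulVec (pb - b)) ζ
      = (aff qa qb ζ - V2)
        + (V2 - ((l⁻¹ : ℝ) : ℂ) • actC R (V1 - aff a b ((z0 : ℂ) * I + (l : ℂ) * ζ)))
        + ((l⁻¹ : ℝ) : ℂ) • actC R (V1 - aff pa pb ((z0 : ℂ) * I + (l : ℂ) * ζ)) := by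
  have hl' : ((l⁻¹ : ℝ) : ℂ) * (l : ℂ) = 1 := by
    rw [← Complex.ofReal_mul, inv_mul_cancel₀ hl, Complex.ofReal_one]
  have hI : I * I = -1 := Complex.I_mul_I
  ext k
  simp only [aff, actC, PiLp.add_apply, PiLp.sub_apply, PiLp.smul_apply, smul_eq_mul,
    Pi.sub_apply, Pi.add_apply, Pi.smul_apply, Matrix.mulVec, dotProduct, Fin.sum_univ_five,
    Complex.ofReal_sub, Complex.ofReal_add, Complex.ofReal_mul]
  linear_combination
    (((R k 0 : ℂ) * ((pb 0 : ℂ) - b 0) + (R k 1 : ℂ) * ((pb 1 : ℂ) - b 1)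
      + (R k 2 : ℂ) * ((pb 2 : ℂ) - b 2) + (R k 3 : ℂ) * ((pb 3 : ℂ) - b 3)
      + (R k 4 : ℂ) * ((pb 4 : ℂ) - b 4)) * (I * ζ)) * (-1 : ℂ) * hl'
    + (((R k 0 : ℂ) * ((pb 0 : ℂ) - b 0) + (R k 1 : ℂ) * ((pb 1 : ℂ) - b 1)
      + (R k 2 : ℂ) * ((pb 2 : ℂ) - b 2) + (R k 3 : ℂ) * ((pb 3 : ℂ) - b 3)
      + (R k 4 : ℂ) * ((pb 4 : ℂ) - b 4)) * ((l⁻¹ : ℝ) : ℂ) * z0) * (-1 : ℂ) * hI

/-! ### The square -/

/-- The square used for the comparison. -/
def STB_P : Set ℂ := {ζ : ℂ | 1 / 2 < ζ.re ∧ ζ.re < 2 * (1 / 2) ∧ |ζ.im - 1 / 4| < 1 / 2 / 2}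

theorem STB_P_open : IsOpen STB_P := by
  have h1 : IsOpen {ζ : ℂ | (1 / 2 : ℝ) < ζ.re} := isOpen_lt continuous_const Complex.continuous_re
  have h2 : IsOpen {ζ : ℂ | ζ.re < 2 * (1 / 2 : ℝ)} :=
    isOpen_lt Complex.continuous_re continuous_const
  have h3 : IsOpen {ζ : ℂ | |ζ.im - 1 / 4| < (1 / 2 / 2 : ℝ)} :=
    isOpen_lt (Complex.continuous_im.sub continuous_const).abs continuous_const
  exact h1.inter (h2.inter h3)

theorem STB_im (ζ : ℂ) (h : ζ ∈ STB_P) : 0 < ζ.im ∧ ζ.im < 1 / 2 := by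
  obtain ⟨-, -, h3⟩ := h
  rw [abs_lt] at h3
  constructor <;> linarith [h3.1, h3.2]

theorem STB_P_bdd : STB_P ⊆ Metric.ball 0 2 := by
  intro ζ hζ
  obtain ⟨h1, h2⟩ := STB_im ζ hζ
  obtain ⟨h3, h4, -⟩ := hζ
  rw [mem_ball_zero_iff]
  refine lt_of_le_of_lt (Complex.norm_le_abs_re_add_abs_im ζ) ?_
  rw [abs_of_pos (by linarith), abs_of_pos h1]
  linarith

theorem STB_P_sub_QQ : STB_P ⊆ QQ := by
  intro ζ hζ
  obtain ⟨h1, h2⟩ := STB_im ζ hζ
  obtain ⟨h3, h4, -⟩ := hζ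
  refine ⟨by linarith, by linarith, ?_⟩
  rw [abs_of_pos h1]
  linarith

theorem STB_QQ_sub_EE : QQ ⊆ EE := by
  rintro ζ ⟨h1, h2, h3⟩
  exact ⟨by linarith, by linarith, by linarith⟩

theorem STB_QQ_meas : MeasurableSet QQ := by
  have h1 : IsOpen {ζ : ℂ | (1 / 8 : ℝ) < ζ.re} := isOpen_lt continuous_const Complex.continuous_re
  have h2 : IsOpen {ζ : ℂ | ζ.re < (9 : ℝ)} :=
    isOpen_lt Complex.continuous_re continuous_const
  have h3 : IsOpen {ζ : ℂ | |ζ.im| < (9 : ℝ)} :=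
    isOpen_lt Complex.continuous_im.abs continuous_const
  exact (h1.inter (h2.inter h3)).measurableSet

theorem STB_T_mem (ζ : ℂ) (hζ : ζ ∈ STB_P) (z0 l : ℝ) (hl : 2 / 5 ≤ l) (hl' : l ≤ 7 / 10)
    (hz : |z0| ≤ 3 / 5) : (z0 : ℂ) * I + (l : ℂ) * ζ ∈ QQ := by
  obtain ⟨h1, h2⟩ := STB_im ζ hζ
  obtain ⟨h3, h4, -⟩ := hζ
  have e1 : ((z0 : ℂ) * I + (l : ℂ) * ζ).re = l * ζ.re := by simp
  have e2 : ((z0 : ℂ) * I + (l : ℂ) * ζ).im = z0 + l * ζ.im := by simp
  refine ⟨?_, ?_, ?_⟩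
  · rw [e1]; nlinarith
  · rw [e1]; nlinarith
  · rw [e2]
    have h5 : |l * ζ.im| ≤ 1 := by
      rw [abs_of_nonneg (mul_nonneg (by linarith) h1.le)]
      nlinarith
    linarith [abs_add_le z0 (l * ζ.im)]

theorem STB_QQ_bdd : QQ ⊆ Metric.ball 0 20 := by
  rintro ζ ⟨h1, h2, h3⟩
  rw [mem_ball_zero_iff]
  refine lt_of_le_of_lt (Complex.norm_le_abs_re_add_abs_im ζ) ?_
  rw [abs_of_pos (by linarith)]
  linarith

theorem STB_intOn_of_cont {f : ℂ → C5} (hf : Continuous f) (E : Set ℂ) (r : ℝ)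
    (hE : E ⊆ Metric.ball 0 r) : IntegrableOn f E := by
  refine IntegrableOn.mono_set ?_ (hE.trans Metric.ball_subset_closedBall)
  exact hf.continuousOn.integrableOn_compact (isCompact_closedBall 0 r)

/-- Change of variables. -/
theorem STB_cov (h : ℂ → C5) (hh : IntegrableOn h QQ) (z0 l : ℝ) (hl : 2 / 5 ≤ l)
    (hl' : l ≤ 7 / 10) (hz : |z0| ≤ 3 / 5) :
    IntegrableOn (fun ζ : ℂ => ‖h ((z0 : ℂ) * I + (l : ℂ) * ζ)‖) STB_P ∧
    ∫ ζ in STB_P, ‖h ((z0 : ℂ) * I + (l : ℂ) * ζ)‖ ≤ 25 / 4 * ∫ ζ in QQ, ‖h ζ‖ := by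
  set G : ℂ → ℝ := QQ.indicator fun ζ => ‖h ζ‖ with hG
  have hGi : Integrable G := (integrable_indicator_iff STB_QQ_meas).2 hh.norm
  have hl0 : l ≠ 0 := by linarith
  have hGT : Integrable fun ζ : ℂ => G ((z0 : ℂ) * I + l • ζ) := by
    have h1 : Integrable fun ζ : ℂ => G ((z0 : ℂ) * I + ζ) := hGi.comp_add_left _
    exact (integrable_comp_smul_iff volume (fun ζ : ℂ => G ((z0 : ℂ) * I + ζ)) hl0).2 h1
  have hGe : ∫ ζ : ℂ, G ((z0 : ℂ) * I + l • ζ) = (l ^ 2)⁻¹ * ∫ ζ in QQ, ‖h ζ‖ := by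
    have h1 := Measure.integral_comp_smul (volume : Measure ℂ)
      (fun ζ : ℂ => G ((z0 : ℂ) * I + ζ)) l
    rw [Complex.finrank_real_complex, abs_of_nonneg (by positivity)] at h1
    rw [h1, integral_add_left_eq_self, hG, integral_indicator STB_QQ_meas, smul_eq_mul]
  have hpt : ∀ ζ ∈ STB_P, ‖h ((z0 : ℂ) * I + (l : ℂ) * ζ)‖ = G ((z0 : ℂ) * I + l • ζ) := by
    intro ζ hζ
    rw [hG, Complex.real_smul, indicator_of_mem (STB_T_mem ζ hζ z0 l hl hl' hz)]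
  have hPm := STB_P_open.measurableSet
  refine ⟨(hGT.integrableOn).congr_fun (fun ζ hζ => (hpt ζ hζ).symm) hPm, ?_⟩
  calc ∫ ζ in STB_P, ‖h ((z0 : ℂ) * I + (l : ℂ) * ζ)‖
      = ∫ ζ in STB_P, G ((z0 : ℂ) * I + l • ζ) := setIntegral_congr_fun hPm hpt
    _ ≤ ∫ ζ : ℂ, G ((z0 : ℂ) * I + l • ζ) := by
        refine setIntegral_le_integral hGT (Eventually.of_forall fun ζ => ?_)
        exact indicator_nonneg (fun _ _ => norm_nonneg _) _
    _ = (l ^ 2)⁻¹ * ∫ ζ in QQ, ‖h ζ‖ := hGe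
    _ ≤ 25 / 4 * ∫ ζ in QQ, ‖h ζ‖ := by
        refine mul_le_mul_of_nonneg_right ?_ (integral_nonneg fun _ => norm_nonneg _)
        rw [inv_le_comm₀ (by positivity) (by norm_num)]
        nlinarith

/-! ### Lower bound for affine functions on the square -/

theorem STB_af_int (a b : ℝ) : IntegrableOn (af a b) STB_P := by
  refine IntegrableOn.mono_set ?_ (STB_P_bdd.trans Metric.ball_subset_closedBall)
  have hc : Continuous (af a b) := by
    unfold af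
    fun_prop
  exact hc.continuousOn.integrableOn_compact (isCompact_closedBall 0 2)

theorem STB_lower (hAFN : Stmt_AFN) : ∃ c : ℝ, 0 < c ∧ ∀ (u w : Fin 5 → ℝ) (Δ : ℝ),
    (∫ ζ in STB_P, ‖aff u w ζ‖) ≤ Δ → en u ≤ c * Δ ∧ en (u + w) ≤ c * Δ := by
  obtain ⟨c, hc, h⟩ := hAFN
  refine ⟨70 / c, by positivity, fun u w Δ hΔ => ?_⟩
  have hI : IntegrableOn (aff u w) STB_P := STB_intOn_of_cont (STB_aff_cont u w) _ 2 STB_P_bdd
  have hΔ0 : 0 ≤ Δ := (integral_nonneg fun _ => norm_nonneg _).trans hΔ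
  have hk : ∀ k : Fin 5, |u k + w k * (1 / 4)| ≤ 4 * Δ / c ∧ |w k| ≤ 8 * Δ / c := by
    intro k
    have h1 := h (u k) (w k) (1 / 2) (1 / 4) STB_P (by norm_num) STB_P_open.measurableSet
      (le_refl _) (STB_af_int _ _)
    have h2 : ∫ ζ in STB_P, ‖af (u k) (w k) ζ‖ ≤ Δ := by
      refine le_trans ?_ hΔ
      refine integral_mono_of_nonneg (Eventually.of_forall fun _ => norm_nonneg _) hI.norm
        (Eventually.of_forall fun ζ => ?_)
      simp only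
      rw [← STB_aff_apply u w ζ k]
      exact PiLp.norm_apply_le _ k
    have h3 : c * ((1 / 2) ^ 2 * |u k + w k * (1 / 4)| + (1 / 2) ^ 3 * |w k|) ≤ Δ := h1.trans h2
    have h4 : (1 / 2 : ℝ) ^ 2 * |u k + w k * (1 / 4)| + (1 / 2) ^ 3 * |w k| ≤ Δ / c := by
      rw [le_div_iff₀ hc]
      linarith
    have h5 := abs_nonneg (u k + w k * (1 / 4))
    have h6 := abs_nonneg (w k)
    constructor
    · have : 4 * Δ / c = 4 * (Δ / c) := by ring
      rw [this]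
      linarith
    · have : 8 * Δ / c = 8 * (Δ / c) := by ring
      rw [this]
      linarith
  have hc0 : 0 ≤ Δ / c := div_nonneg hΔ0 hc.le
  constructor
  · have := STB_en_bound u (6 * (Δ / c)) fun k => by
      obtain ⟨h1, h2⟩ := hk k
      have h3 : |u k| ≤ |u k + w k * (1 / 4)| + |w k * (1 / 4)| := by
        have := abs_sub (u k + w k * (1 / 4)) (w k * (1 / 4))
        rwa [add_sub_cancel_right] at this
      rw [abs_mul, abs_of_pos (by norm_num : (0 : ℝ) < 1 / 4)] at h3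
      have e1 : 4 * Δ / c = 4 * (Δ / c) := by ring
      have e2 : 8 * Δ / c = 8 * (Δ / c) := by ring
      rw [e1] at h1
      rw [e2] at h2
      linarith
    have e : 70 / c * Δ = 70 * (Δ / c) := by ring
    rw [e]
    linarith
  · have := STB_en_bound (u + w) (14 * (Δ / c)) fun k => by
      obtain ⟨h1, h2⟩ := hk k
      have h3 : |(u + w) k| ≤ |u k + w k * (1 / 4)| + |w k * (3 / 4)| := by
        have := abs_add_le (u k + w k * (1 / 4)) (w k * (3 / 4))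
        have e : (u + w) k = u k + w k * (1 / 4) + w k * (3 / 4) := by
          simp only [Pi.add_apply]
          ring
        rw [e]
        exact this
      rw [abs_mul, abs_of_pos (by norm_num : (0 : ℝ) < 3 / 4)] at h3
      have e1 : 4 * Δ / c = 4 * (Δ / c) := by ring
      have e2 : 8 * Δ / c = 8 * (Δ / c) := by ring
      rw [e1] at h1
      rw [e2] at h2
      linarith
    have e : 70 / c * Δ = 70 * (Δ / c) := by ring
    rw [e]
    linarith

theorem stmt_STB (hMCI : Stmt_MCI) (hMODP : Stmt_MODP) (hVCO : Stmt_VCO) (hAFN : Stmt_AFN)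
    (_hWIN1 : Stmt_WIN1) (hMCB : Stmt_MCB) : Stmt_STB := by
  obtain ⟨C1, κ1, hC1, hκ1, hM⟩ := hMCI (2 / 5) (by norm_num) (by norm_num)
  obtain ⟨C2, κ2, hC2, hκ2, hB⟩ := hMCB (2 / 5) (by norm_num) (by norm_num)
  obtain ⟨c, hc, hL⟩ := STB_lower hAFN
  obtain ⟨-, -, hR1, hR2, -, -, -, hR3⟩ := hMODP
  refine ⟨c * (50 + C1) + (1 + 5 * C2), min κ1 (min κ2 1), by positivity, by positivity, ?_⟩
  intro ε m η d1 d2 F A x0 x1 S S' pa pb qa qb hε hεκ hm hmκ hNm hSub hup hz0 hpb hη hd1 hd2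
  have hεκ1 : ε ≤ κ1 := hεκ.trans (min_le_left _ _)
  have hmκ1 : m ≤ κ1 := hmκ.trans (min_le_left _ _)
  have hmκ2 : m ≤ κ2 := hmκ.trans ((min_le_right _ _).trans (min_le_left _ _))
  have hm1 : m ≤ 1 := hmκ.trans ((min_le_right _ _).trans (min_le_right _ _))
  have hη' : (∫ X in RG (2 / 5 / 64), grd F A X) ≤ η := by
    have e : (2 / 5 / 64 : ℝ) = 1 / 160 := by norm_num
    rw [e]
    exact hη
  have hη0 : 0 ≤ η := by
    refine le_trans (integral_nonneg fun X => ?_) hη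
    unfold grd
    positivity
  obtain ⟨α, a, b, ha, hb, -, hV2i, -, hV1i, hmain⟩ :=
    hM ε m η F A x0 x1 S S' hε hεκ1 hm hmκ1 hNm hSub hη'
  obtain ⟨g1, -, g3, -, -, -, -, -, -, a', b', ha', hb', -, -, -, -, -, hab⟩ :=
    hB ε m F x0 x1 S S' hm hmκ2 hSub
  set l : ℝ := ‖x1 - x0‖ with hl
  have hl1 : 2 / 5 ≤ l := hSub.low
  have hl2 : l ≤ 7 / 10 := hSub.up
  have hl0 : 0 < l := by linarith
  set z0 : ℝ := x0 2 with hz0'
  set z1 : ℝ := x1 2 with hz1'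
  have hz : z0 < z1 := hSub.ord
  -- the two pairs agree
  have hbb : b = b' := by
    have e1 : (z1 - z0) • b = (z1 - z0) • b' := by
      have e2 : (z1 - z0) • b = (a + z1 • b) - (a + z0 • b) := by
        rw [sub_smul]
        abel
      have e3 : (z1 - z0) • b' = (a' + z1 • b') - (a' + z0 • b') := by
        rw [sub_smul]
        abel
      rw [e2, e3, hb, ha, hb', ha']
    exact smul_right_injective _ (sub_ne_zero.2 hz.ne') e1
  set R := Rm α with hR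
  set V1 : ℂ → C5 := fun ζ => vv F ((z0 : ℂ) * I + (l : ℂ) * ζ) with hV1
  set V2 : ℂ → C5 := vv (ren F x0 x1 S S') with hV2
  set u : Fin 5 → ℝ := qa - l⁻¹ • R.mulVec (pa - a + z0 • (pb - b)) with hu
  set w : Fin 5 → ℝ := qb - R.mulVec (pb - b) with hw
  have hid : ∀ ζ, aff u w ζ = (aff qa qb ζ - V2 ζ)
      + (V2 ζ - ((l⁻¹ : ℝ) : ℂ) • actC R (V1 ζ - aff a b ((z0 : ℂ) * I + (l : ℂ) * ζ)))
      + ((l⁻¹ : ℝ) : ℂ) • actC R (V1 ζ - aff pa pb ((z0 : ℂ) * I + (l : ℂ) * ζ)) :=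
    fun ζ => STB_ident R pa pb qa qb a b l z0 hl0.ne' (V1 ζ) (V2 ζ) ζ
  -- integrability
  have hPE : STB_P ⊆ EE := STB_P_sub_QQ.trans STB_QQ_sub_EE
  have hTc : Continuous fun ζ : ℂ => (z0 : ℂ) * I + (l : ℂ) * ζ := by fun_prop
  have hactI : ∀ f : ℂ → C5, IntegrableOn f EE →
      IntegrableOn (fun ζ => ((l⁻¹ : ℝ) : ℂ) • actC R (f ζ)) EE := by
    intro f hf
    have h1 : Integrable (fun ζ => actC R (f ζ)) (volume.restrict EE) := by
      refine Integrable.mono hf ((STB_actC_cont R).comp_aestronglyMeasurable hf.1)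
        (Eventually.of_forall fun ζ => ?_)
      rw [hR1 α]
    exact h1.smul ((l⁻¹ : ℝ) : ℂ)
  have hEEb : EE ⊆ Metric.ball 0 33 := by
    rintro ζ ⟨h1, h2, h3⟩
    rw [mem_ball_zero_iff]
    refine lt_of_le_of_lt (Complex.norm_le_abs_re_add_abs_im ζ) ?_
    rw [abs_of_pos (by linarith)]
    linarith
  have hI1 : IntegrableOn (fun ζ => aff qa qb ζ - V2 ζ) QQ :=
    (STB_intOn_of_cont (STB_aff_cont qa qb) _ 20 STB_QQ_bdd).sub (hV2i.mono_set STB_QQ_sub_EE)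
  have hI2 : IntegrableOn (fun ζ => V2 ζ - ((l⁻¹ : ℝ) : ℂ) •
      actC R (V1 ζ - aff a b ((z0 : ℂ) * I + (l : ℂ) * ζ))) EE :=
    hV2i.sub (hactI _ (hV1i.sub
      (STB_intOn_of_cont ((STB_aff_cont a b).comp hTc) _ 33 hEEb)))
  have hI3 : IntegrableOn (fun ζ => ((l⁻¹ : ℝ) : ℂ) •
      actC R (V1 ζ - aff pa pb ((z0 : ℂ) * I + (l : ℂ) * ζ))) EE :=
    hactI _ (hV1i.sub (STB_intOn_of_cont ((STB_aff_cont pa pb).comp hTc) _ 33 hEEb))
  have hVF : IntegrableOn (vv F) QQ := (hVCO ε F A hε hNm).2.2.2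
  have hI4 : IntegrableOn (fun ζ => vv F ζ - aff pa pb ζ) QQ :=
    hVF.sub (STB_intOn_of_cont (STB_aff_cont pa pb) _ 20 STB_QQ_bdd)
  -- bounds of the three integrals
  have b1 : ∫ ζ in STB_P, ‖aff qa qb ζ - V2 ζ‖ ≤ d2 := by
    refine le_trans ?_ hd2
    have e : ∀ ζ, ‖aff qa qb ζ - V2 ζ‖ = ‖V2 ζ - aff qa qb ζ‖ := fun ζ => norm_sub_rev _ _
    simp only [e]
    refine setIntegral_mono_set ?_ (Eventually.of_forall fun _ => norm_nonneg _)
      (STB_P_sub_QQ.eventuallyLE)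
    have := hI1.norm
    simp only [e] at this
    exact this
  have b2 : ∫ ζ in STB_P, ‖V2 ζ - ((l⁻¹ : ℝ) : ℂ) •
      actC R (V1 ζ - aff a b ((z0 : ℂ) * I + (l : ℂ) * ζ))‖ ≤ C1 * (ε + m + η) * m := by
    refine le_trans ?_ hmain
    exact setIntegral_mono_set hI2.norm (Eventually.of_forall fun _ => norm_nonneg _)
      hPE.eventuallyLE
  obtain ⟨c1, c2⟩ := STB_cov (fun ζ => vv F ζ - aff pa pb ζ) hI4 z0 l hl1 hl2 hz0
  have b3 : ∫ ζ in STB_P, ‖((l⁻¹ : ℝ) : ℂ) •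
      actC R (V1 ζ - aff pa pb ((z0 : ℂ) * I + (l : ℂ) * ζ))‖ ≤ 16 * d1 := by
    have e : ∀ ζ, ‖((l⁻¹ : ℝ) : ℂ) • actC R (V1 ζ - aff pa pb ((z0 : ℂ) * I + (l : ℂ) * ζ))‖
        = l⁻¹ * ‖V1 ζ - aff pa pb ((z0 : ℂ) * I + (l : ℂ) * ζ)‖ := by
      intro ζ
      rw [norm_smul, hR1 α, Complex.norm_real, Real.norm_eq_abs, abs_of_pos (by positivity)]
    simp only [e]
    rw [integral_const_mul]
    have hd1' : 0 ≤ d1 := (integral_nonneg fun _ => norm_nonneg _).trans hd1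
    have hli : l⁻¹ ≤ 5 / 2 := by
      rw [inv_le_comm₀ hl0 (by norm_num)]
      linarith
    calc l⁻¹ * ∫ ζ in STB_P, ‖V1 ζ - aff pa pb ((z0 : ℂ) * I + (l : ℂ) * ζ)‖
        ≤ 5 / 2 * (25 / 4 * d1) := by
          refine mul_le_mul hli (c2.trans ?_) (integral_nonneg fun _ => norm_nonneg _)
            (by norm_num)
          exact mul_le_mul_of_nonneg_left hd1 (by norm_num)
      _ ≤ 16 * d1 := by linarith
  have hd1' : 0 ≤ d1 := (integral_nonneg fun _ => norm_nonneg _).trans hd1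
  have hd2' : 0 ≤ d2 := (integral_nonneg fun _ => norm_nonneg _).trans hd2
  have hΔ : ∫ ζ in STB_P, ‖aff u w ζ‖ ≤ d2 + C1 * (ε + m + η) * m + 16 * d1 := by
    have i1 : Integrable (fun ζ => ‖aff qa qb ζ - V2 ζ‖) (volume.restrict STB_P) :=
      (hI1.mono_set STB_P_sub_QQ).norm
    have i2 : Integrable (fun ζ => ‖V2 ζ - ((l⁻¹ : ℝ) : ℂ) •
        actC R (V1 ζ - aff a b ((z0 : ℂ) * I + (l : ℂ) * ζ))‖) (volume.restrict STB_P) :=
      (hI2.mono_set hPE).norm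
    have i3 : Integrable (fun ζ => ‖((l⁻¹ : ℝ) : ℂ) •
        actC R (V1 ζ - aff pa pb ((z0 : ℂ) * I + (l : ℂ) * ζ))‖) (volume.restrict STB_P) :=
      (hI3.mono_set hPE).norm
    calc ∫ ζ in STB_P, ‖aff u w ζ‖
        ≤ ∫ ζ in STB_P, (‖aff qa qb ζ - V2 ζ‖ + ‖V2 ζ - ((l⁻¹ : ℝ) : ℂ) •
            actC R (V1 ζ - aff a b ((z0 : ℂ) * I + (l : ℂ) * ζ))‖
            + ‖((l⁻¹ : ℝ) : ℂ) • actC R (V1 ζ - aff pa pb ((z0 : ℂ) * I + (l : ℂ) * ζ))‖) := by
          refine integral_mono_of_nonneg (Eventually.of_forall fun _ => norm_nonneg _)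
            ((i1.add i2).add i3) (Eventually.of_forall fun ζ => ?_)
          simp only
          rw [hid ζ]
          exact norm_add₃_le
      _ = (∫ ζ in STB_P, ‖aff qa qb ζ - V2 ζ‖) + (∫ ζ in STB_P, ‖V2 ζ - ((l⁻¹ : ℝ) : ℂ) •
            actC R (V1 ζ - aff a b ((z0 : ℂ) * I + (l : ℂ) * ζ))‖)
            + ∫ ζ in STB_P, ‖((l⁻¹ : ℝ) : ℂ) •
              actC R (V1 ζ - aff pa pb ((z0 : ℂ) * I + (l : ℂ) * ζ))‖ := by
          have s1 := integral_add (i1.add i2) i3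
          have s2 := integral_add i1 i2
          simp only [Pi.add_apply] at s1
          rw [s1, s2]
      _ ≤ _ := by linarith
  obtain ⟨hu1, hu2⟩ := hL u w _ hΔ
  set W : ℝ := d1 + d2 + (ε + m + η) * m with hW
  have hem : 0 ≤ (ε + m + η) * m := by positivity
  have hW0 : 0 ≤ W := by positivity
  have hΔW : d2 + C1 * (ε + m + η) * m + 16 * d1 ≤ (50 + C1) * W := by
    have e : (50 + C1) * W = 50 * d1 + 50 * d2 + 50 * ((ε + m + η) * m) + C1 * d1 + C1 * d2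
        + C1 * (ε + m + η) * m := by
      rw [hW]
      ring
    rw [e]
    have := mul_nonneg hC1.le hd1'
    have := mul_nonneg hC1.le hd2'
    linarith
  have hcW : c * (d2 + C1 * (ε + m + η) * m + 16 * d1) ≤ c * (50 + C1) * W := by
    calc c * (d2 + C1 * (ε + m + η) * m + 16 * d1) ≤ c * ((50 + C1) * W) := by gcongr
      _ = c * (50 + C1) * W := by ring
  have hen : ∀ v : Fin 5 → ℝ, 0 ≤ en v := fun v => norm_nonneg _
  have hlen : ∀ v : Fin 5 → ℝ, l * en v ≤ en v := fun v =>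
    mul_le_of_le_one_left (hen v) (by linarith)
  -- the height of the second base point
  have hzl : |z1 - z0 - l| ≤ m ^ 2 := by
    set q : E3 := act S e3 with hq
    have hxq : x1 - x0 = l • q := hSub.b
    have hn : ‖q‖ = 1 := by
      have h1 : l = l * ‖q‖ := by
        calc l = ‖x1 - x0‖ := hl
          _ = ‖l • q‖ := by rw [hxq]
          _ = l * ‖q‖ := by rw [norm_smul, Real.norm_eq_abs, abs_of_pos hl0]
      have h2 : l * ‖q‖ = l * 1 := by linarith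
      exact mul_left_cancel₀ hl0.ne' h2
    have hn2 : q 0 ^ 2 + q 1 ^ 2 + q 2 ^ 2 = 1 := by
      have h1 : ‖q‖ ^ 2 = q 0 ^ 2 + q 1 ^ 2 + q 2 ^ 2 := by
        rw [EuclideanSpace.norm_sq_eq]
        simp [Fin.sum_univ_three]
      rw [← h1, hn]
      norm_num
    have hr2 : q 0 ^ 2 + q 1 ^ 2 ≤ m ^ 2 := by
      have h1 : rad q ^ 2 = q 0 ^ 2 + q 1 ^ 2 := Real.sq_sqrt (by positivity)
      rw [← h1]
      exact pow_le_pow_left₀ (Real.sqrt_nonneg _) g1 2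
    have hq2 : q 2 ≤ 1 := by nlinarith [sq_nonneg (q 0), sq_nonneg (q 1)]
    have hz1 : z1 - z0 = l * q 2 := by
      have := congrArg (fun v : E3 => v 2) hxq
      simpa using this
    have e : z1 - z0 - l = -(l * (1 - q 2)) := by
      rw [hz1]
      ring
    rw [e, abs_neg, abs_of_nonneg (mul_nonneg hl0.le (by linarith))]
    have h3 : 1 - q 2 ≤ m ^ 2 := by nlinarith
    calc l * (1 - q 2) ≤ 1 * m ^ 2 := by
          refine mul_le_mul (by linarith) h3 (by linarith) (by norm_num)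
      _ = m ^ 2 := one_mul _
  have hpbb : en (pb - b) ≤ 1 + 5 * C2 := by
    have e : pb - b = pb + (-1 : ℝ) • b := by
      rw [neg_one_smul, sub_eq_add_neg]
    have h1 : en b ≤ 5 * (C2 * 1) := by
      refine STB_en_bound b _ fun k => ?_
      rw [hbb]
      exact (hab k).2.trans (mul_le_mul_of_nonneg_left hm1 hC2.le)
    rw [e]
    refine (STB_en_add _ _).trans ?_
    rw [STB_en_smul, abs_neg, abs_one, one_mul]
    linarith
  refine ⟨-α, ?_, ?_⟩
  · -- first target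
    have e : pa + z0 • pb - da F x0 - l • (Rm (-α)).mulVec qa = (-l) • (Rm (-α)).mulVec u := by
      have e1 : (Rm (-α)).mulVec u
          = (Rm (-α)).mulVec qa - l⁻¹ • (pa - a + z0 • (pb - b)) := by
        rw [hu, Matrix.mulVec_sub, Matrix.mulVec_smul, hR, hR3 α]
      rw [e1, smul_sub, smul_smul, neg_smul, neg_mul, mul_inv_cancel₀ hl0.ne', ← ha]
      simp only [smul_sub, neg_smul, one_smul]
      abel
    rw [e, STB_en_smul, abs_neg, abs_of_pos hl0, hR2]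
    have h1 : 0 ≤ (1 + 5 * C2) * W := by positivity
    have h2 : (c * (50 + C1) + (1 + 5 * C2)) * W = c * (50 + C1) * W + (1 + 5 * C2) * W := by ring
    rw [h2]
    linarith [hlen u]
  · -- second target
    have e : pa + z1 • pb - da F x1 - l • (Rm (-α)).mulVec (qa + qb)
        = (-l) • (Rm (-α)).mulVec (u + w) + (z1 - z0 - l) • (pb - b) := by
      have e1 : (Rm (-α)).mulVec (u + w) = (Rm (-α)).mulVec (qa + qb)
          - l⁻¹ • (pa - a + z0 • (pb - b)) - (pb - b) := by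
        have e2 : u + w = (qa + qb) - l⁻¹ • R.mulVec (pa - a + z0 • (pb - b))
            - R.mulVec (pb - b) := by
          rw [hu, hw]
          abel
        rw [e2, Matrix.mulVec_sub, Matrix.mulVec_sub, Matrix.mulVec_smul, hR, hR3 α, hR3 α]
      have e3 : l • (l⁻¹ • (pa - a + z0 • (pb - b))) = pa - a + z0 • (pb - b) := by
        rw [smul_smul, mul_inv_cancel₀ hl0.ne', one_smul]
      rw [e1, ← hb]
      simp only [smul_sub, neg_smul, sub_smul] at e3 ⊢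
      rw [e3]
      abel
    rw [e]
    refine (STB_en_add _ _).trans ?_
    rw [STB_en_smul, STB_en_smul, abs_neg, abs_of_pos hl0, hR2]
    have h3 : |z1 - z0 - l| * en (pb - b) ≤ (1 + 5 * C2) * W := by
      calc |z1 - z0 - l| * en (pb - b) ≤ m ^ 2 * (1 + 5 * C2) :=
            mul_le_mul hzl hpbb (hen _) (by positivity)
        _ ≤ W * (1 + 5 * C2) := by
            refine mul_le_mul_of_nonneg_right ?_ (by positivity)
            have : (ε + m + η) * m = ε * m + m ^ 2 + η * m := by ring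
            have := mul_nonneg hε hm
            have := mul_nonneg hη0 hm
            rw [hW]
            linarith
        _ = (1 + 5 * C2) * W := by ring
    have h2 : (c * (50 + C1) + (1 + 5 * C2)) * W = c * (50 + C1) * W + (1 + 5 * C2) * W := by ring
    rw [h2]
    linarith [hlen (u + w)]

end Pool.Mart
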