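import Pool.Agent.Work.MP_680515_an.IfaceU

open MeasureTheory Set Filter Topology Complex

namespace Pool.Mart

namespace SUBH_

theorem act_eq (A : M3) (v : E3) : act A v = Matrix.toEuclideanLin A v := by
  simp [act, Matrix.toLpLin_apply]

theorem act_sub (A : M3) (v w : E3) : act A (v - w) = act A v - act A w := by
  simp only [act_eq, map_sub]

theorem act_smul (A : M3) (c : ℝ) (v : E3) : act A (c • v) = c • act A v := by
  simp only [act_eq, map_smul]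

theorem act_zero (A : M3) : act A 0 = 0 := by
  simp only [act_eq, map_zero]

theorem norm_e3 : ‖e3‖ = 1 := by
  simp [e3]

theorem e3_two : e3 2 = 1 := by
  simp [e3]

theorem sc_pos (n : ℕ) : 0 < sc n := by
  unfold sc; positivity

theorem sc_le (n : ℕ) : sc n ≤ 1 := by
  unfold sc
  exact pow_le_one₀ (by norm_num) (by norm_num)

theorem sc_succ (n : ℕ) : sc (n + 1) = 1 / 2 * sc n := by
  unfold sc; rw [pow_succ]; ring

theorem dev_nonneg (X Y : E3) : 0 ≤ dev X Y := by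
  unfold dev rad
  positivity

theorem abs_le_norm (v : E3) (i : Fin 3) : |v i| ≤ ‖v‖ := by
  have := PiLp.norm_apply_le v i
  rwa [Real.norm_eq_abs] at this

theorem sub_two (x : E3) (a : ℝ) : (x - a • e3) 2 = x 2 - a := by
  rw [PiLp.sub_apply, PiLp.smul_apply, smul_eq_mul, e3_two, mul_one]

theorem nX_self (γ : ℝ → E3) (O : ℝ → ℕ → M3) (t : ℝ) (n : ℕ) : nX γ O t n (γ t) = 0 := by
  unfold nX
  rw [sub_self, act_zero, smul_zero]

theorem nX_one (hCHV : Stmt_CHV) {ε : ℝ} {Ω : Set E3} {f : E3 → E3} {γ : ℝ → E3}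
    {O O' : ℝ → ℕ → M3} (hP : Pack ε Ω f γ O O') {t : ℝ} (ht : t ∈ Icc (-20 : ℝ) 20) (n : ℕ) :
    nX γ O t n (γ (t + sc n)) = e3 := by
  obtain ⟨_, h1, h2, h3, _⟩ := hCHV (fun _ => 0) 0 1 (O t n) one_pos (hP.so t ht n)
  have hl := hP.pos t ht n
  unfold nX
  rw [hP.base t ht n, act_smul, h3, smul_smul, inv_mul_cancel₀ hl.ne', one_smul]

theorem line_nX (hCHV : Stmt_CHV) {ε : ℝ} {Ω : Set E3} {f : E3 → E3} {γ : ℝ → E3}
    {O O' : ℝ → ℕ → M3} (hP : Pack ε Ω f γ O O') {t : ℝ} (ht : t ∈ Icc (-20 : ℝ) 20) (n : ℕ)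
    (s : ℝ) (hs : |s| ≤ 64) (hts : t + s * sc n ∈ Icc (-21 : ℝ) 21) :
    ‖nX γ O t n (γ (t + s * sc n)) - s • e3‖ ≤ ε := by
  obtain ⟨_, h1, h2, h3, _⟩ := hCHV (fun _ => 0) 0 1 (O t n) one_pos (hP.so t ht n)
  have hl := hP.pos t ht n
  have h := hP.line t ht n s hs hts
  have e : nX γ O t n (γ (t + s * sc n)) - s • e3
      = (len γ t n)⁻¹ • act (O t n).transpose
        (γ (t + s * sc n) - γ t - (s * len γ t n) • act (O t n) e3) := by
    unfold nX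
    rw [act_sub (O t n).transpose (γ (t + s * sc n) - γ t), act_smul, h3, smul_sub, smul_smul]
    congr 2
    field_simp
  have h4 : ∀ v : E3, ‖act (O t n).transpose v‖ = ‖v‖ := fun v => by
    rw [← h1 (act (O t n).transpose v), h2]
  rw [e, norm_smul, h4, norm_inv, Real.norm_eq_abs, abs_of_pos hl, inv_mul_le_iff₀ hl]
  linarith

end SUBH_

open SUBH_ in
theorem stmt_SUBH (hRENS : Stmt_RENS) (hGEO2 : Stmt_GEO2) (hSCL : Stmt_SCL) (hCHV : Stmt_CHV)
    (hWIN1 : Stmt_WIN1) : Stmt_SUBH := by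
  obtain ⟨C2, hC2, H2⟩ := hGEO2
  refine ⟨1 / 1024, by norm_num, ?_⟩
  intro ε Ω f γ O O' he he1 hP t ht n
  have hs0 := sc_pos n
  have hs1 := sc_le n
  have hss := sc_succ n
  have ht20 : t ∈ Icc (-20 : ℝ) 20 := ⟨by linarith [ht.1], by linarith [ht.2]⟩
  have ht18 : t ∈ Icc (-18 : ℝ) 18 := ⟨by linarith [ht.1], by linarith [ht.2]⟩
  have htm : t + sc (n + 1) ∈ Icc (-20 : ℝ) 20 := ⟨by linarith [ht.1], by linarith [ht.2]⟩
  have ett : t + sc (n + 1) + sc (n + 1) = t + sc n := by rw [hss]; ring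
  obtain ⟨_, _, g3, g4, g5⟩ := H2 ε Ω f γ O O' he he1 hP t ht18 n
  have hz := nX_self γ O t n
  have ho := nX_one hCHV hP ht20 n
  have L : ‖nX γ O t n (γ (t + sc (n + 1))) - (1 / 2 : ℝ) • e3‖ ≤ ε := by
    rw [hss]
    exact line_nX hCHV hP ht20 n (1 / 2) (by rw [abs_of_pos] <;> norm_num)
      ⟨by linarith [ht.1], by linarith [ht.2]⟩
  obtain ⟨r1, r2, _, r4, r5, r6, r7, _⟩ := hRENS ε Ω f γ O O' he he1 hP t ht20 n t ht20 (n + 1)
  obtain ⟨q1, q2, _, q4, q5, q6, q7, _⟩ :=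
    hRENS ε Ω f γ O O' he he1 hP t ht20 n (t + sc (n + 1)) htm (n + 1)
  rw [ett, ho] at q1 q2 q6 q7
  rw [hz] at r1 r2 r6 r7
  have hXX : XX f γ O O' t n = dev (nX γ O t n (γ (t + sc (n + 1))))
    (nF f γ O O' t n (nX γ O t n (γ (t + sc (n + 1))))) := rfl
  have g3' : dev 0 (nF f γ O O' t n 0) = 0 := by
    have : Dv f γ O O' t n t = dev (nX γ O t n (γ t)) (nF f γ O O' t n (nX γ O t n (γ t))) := rfl
    rw [hz] at this
    rw [← this, g3]
  have g4' : dev e3 (nF f γ O O' t n e3) = 0 := by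
    have : Dv f γ O O' t n (t + sc n)
      = dev (nX γ O t n (γ (t + sc n))) (nF f γ O O' t n (nX γ O t n (γ (t + sc n)))) := rfl
    rw [ho] at this
    rw [← this, g4]
  have hX0 : 0 ≤ XX f γ O O' t n := dev_nonneg _ _
  have hlpos := hP.pos' t ht20 n
  have hlpos1 := hP.pos' t ht20 (n + 1)
  have hlpos2 := hP.pos' _ htm (n + 1)
  generalize nX γ O t n (γ (t + sc (n + 1))) = x at *
  generalize XX f γ O O' t n = X at *
  have h12 : ‖(1 / 2 : ℝ) • e3‖ = 1 / 2 := by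
    rw [norm_smul, norm_e3, mul_one, Real.norm_eq_abs, abs_of_pos] <;> norm_num
  have N1 : |‖x‖ - 1 / 2| ≤ ε := by
    have := abs_norm_sub_norm_le x ((1 / 2 : ℝ) • e3)
    rw [h12] at this
    linarith
  have N2 : |‖e3 - x‖ - 1 / 2| ≤ ε := by
    have h1 := abs_norm_sub_norm_le (e3 - x) ((1 / 2 : ℝ) • e3)
    have h2 : (e3 - x) - (1 / 2 : ℝ) • e3 = -(x - (1 / 2 : ℝ) • e3) := by
      have h3 : e3 = (1 / 2 : ℝ) • e3 + (1 / 2 : ℝ) • e3 := by
        rw [← add_smul]; norm_num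
      nth_rewrite 1 [h3]
      abel
    rw [h12, h2, norm_neg] at h1
    linarith
  obtain ⟨n1, n2⟩ := abs_le.mp N1
  obtain ⟨n3, n4⟩ := abs_le.mp N2
  have hx2 : |x 2 - 1 / 2| ≤ ε := by
    have := (abs_le_norm _ 2).trans L
    rwa [sub_two] at this
  obtain ⟨n5, n6⟩ := abs_le.mp hx2
  have hz2 : (0 : E3) 2 = 0 := rfl
  refine ⟨⟨r4, r5, r6, r7, ?_, ?_, ?_, ?_, ?_, ?_⟩, ⟨q4, q5, q6, q7, ?_, ?_, ?_, ?_, ?_, ?_⟩,
    by linarith, hX0, g5, hz, ho, ett⟩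
  · rw [sub_zero]; linarith
  · rw [sub_zero]; linarith
  · rw [r2]; exact div_pos hlpos1 hlpos
  · rw [hz2]; linarith
  · rw [norm_zero]; norm_num
  · rw [g3', ← hXX, sub_zero]
    have : X * (3 * ‖x‖) ≥ X * 1 := mul_le_mul_of_nonneg_left (by linarith) hX0
    linarith
  · linarith
  · linarith
  · rw [q2]; exact div_pos hlpos2 hlpos
  · rw [e3_two]; linarith
  · linarith
  · rw [g4', ← hXX]
    have : X * (3 * ‖e3 - x‖) ≥ X * 1 := mul_le_mul_of_nonneg_left (by linarith) hX0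
    linarith

end Pool.Mart
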