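import Pool.Agent.Work.MP_680515_an.IfaceU

open MeasureTheory Set Filter Topology Complex

namespace Pool.Mart

namespace SUBP_

theorem act_eq (A : M3) (v : E3) : act A v = Matrix.toEuclideanLin A v := by
  simp [act, Matrix.toLpLin_apply]

theorem act_sub (A : M3) (v w : E3) : act A (v - w) = act A v - act A w := by
  simp only [act_eq, map_sub]

theorem act_smul (A : M3) (c : ℝ) (v : E3) : act A (c • v) = c • act A v := by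
  simp only [act_eq, map_smul]

theorem act_zero (A : M3) : act A 0 = 0 := by
  simp only [act_eq, map_zero]

theorem norm_e3 : ‖e3‖ = 1 := by
  simp [e3]

theorem e3_two : e3 2 = 1 := by
  simp [e3]

theorem sc_pos (n : ℕ) : 0 < sc n := by
  unfold sc; positivity

theorem sc_add (n k : ℕ) : sc (n + k) = sc n * (2 : ℝ)⁻¹ ^ k := by
  unfold sc; rw [pow_add]

theorem dev_nonneg (X Y : E3) : 0 ≤ dev X Y := by
  unfold dev rad
  positivity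

theorem abs_le_norm (v : E3) (i : Fin 3) : |v i| ≤ ‖v‖ := by
  have := PiLp.norm_apply_le v i
  rwa [Real.norm_eq_abs] at this

theorem sub_two (x : E3) (a : ℝ) : (x - a • e3) 2 = x 2 - a := by
  rw [PiLp.sub_apply, PiLp.smul_apply, smul_eq_mul, e3_two, mul_one]

theorem nX_self (γ : ℝ → E3) (O : ℝ → ℕ → M3) (t : ℝ) (n : ℕ) : nX γ O t n (γ t) = 0 := by
  unfold nX
  rw [sub_self, act_zero, smul_zero]

theorem line_nX (hCHV : Stmt_CHV) {ε : ℝ} {Ω : Set E3} {f : E3 → E3} {γ : ℝ → E3}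
    {O O' : ℝ → ℕ → M3} (hP : Pack ε Ω f γ O O') {t : ℝ} (ht : t ∈ Icc (-20 : ℝ) 20) (n : ℕ)
    (s : ℝ) (hs : |s| ≤ 64) (hts : t + s * sc n ∈ Icc (-21 : ℝ) 21) :
    ‖nX γ O t n (γ (t + s * sc n)) - s • e3‖ ≤ ε := by
  obtain ⟨_, h1, h2, h3, _⟩ := hCHV (fun _ => 0) 0 1 (O t n) one_pos (hP.so t ht n)
  have hl := hP.pos t ht n
  have h := hP.line t ht n s hs hts
  have e : nX γ O t n (γ (t + s * sc n)) - s • e3
      = (len γ t n)⁻¹ • act (O t n).transpose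
        (γ (t + s * sc n) - γ t - (s * len γ t n) • act (O t n) e3) := by
    unfold nX
    rw [act_sub (O t n).transpose (γ (t + s * sc n) - γ t), act_smul, h3, smul_sub, smul_smul]
    congr 2
    field_simp
  have h4 : ∀ v : E3, ‖act (O t n).transpose v‖ = ‖v‖ := fun v => by
    rw [← h1 (act (O t n).transpose v), h2]
  rw [e, norm_smul, h4, norm_inv, Real.norm_eq_abs, abs_of_pos hl, inv_mul_le_iff₀ hl]
  linarith

end SUBP_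

open SUBP_ in
theorem stmt_SUBP (hRENS : Stmt_RENS) (hGEO3 : Stmt_GEO3) (hGEO2 : Stmt_GEO2) (hSCL : Stmt_SCL)
    (hCHV : Stmt_CHV) (hWIN1 : Stmt_WIN1) : Stmt_SUBP := by
  intro k0
  obtain ⟨C3, hC3, H3⟩ := hGEO3 k0
  obtain ⟨C2, hC2, H2⟩ := hGEO2
  obtain ⟨N, hN⟩ : ∃ N : ℝ, N = ∑ j ∈ Finset.range (k0 + 2),
    ((Finset.Icc (-(12 * 2 ^ j) : ℤ) (12 * 2 ^ j)).card : ℝ) := ⟨_, rfl⟩
  have hN0 : 0 ≤ N := by
    rw [hN]
    exact Finset.sum_nonneg fun j _ => Nat.cast_nonneg _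
  refine ⟨C3 * 2 ^ (k0 + 2) + 20 * N + 3, (2 : ℝ)⁻¹ ^ (k0 + 20), by positivity, by positivity, ?_⟩
  intro ε Ω f γ O O' he heκ hP t ht n hn k hk i hi
  rw [Finset.mem_Icc] at hk
  have hq0 : (0 : ℝ) < (2 : ℝ)⁻¹ ^ (k0 + 1) := by positivity
  have e20 : (2 : ℝ)⁻¹ ^ (k0 + 20) = (2 : ℝ)⁻¹ ^ (k0 + 1) * (2 : ℝ)⁻¹ ^ 19 := by
    rw [← pow_add]
  have e19 : (2 : ℝ)⁻¹ ^ 19 = 1 / 524288 := by norm_num
  have hq1 : (2 : ℝ)⁻¹ ^ (k0 + 1) ≤ 1 := pow_le_one₀ (by norm_num) (by norm_num)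
  rw [e20, e19] at heκ
  have he1 : ε ≤ 1 / 1024 := by linarith
  have ht20 : t ∈ Icc (-20 : ℝ) 20 := ⟨by linarith [ht.1], by linarith [ht.2]⟩
  have ht3 : t ∈ Icc (-3 : ℝ) 3 := ⟨by linarith [ht.1], by linarith [ht.2]⟩
  have hp : (0 : ℝ) < (2 : ℝ)⁻¹ ^ k := by positivity
  have hp2 : (2 : ℝ) ^ k * (2 : ℝ)⁻¹ ^ k = 1 := by rw [← mul_pow]; norm_num
  have hpk : (2 : ℝ)⁻¹ ^ k ≤ 1 / 2 := by
    have : (2 : ℝ)⁻¹ ^ k ≤ (2 : ℝ)⁻¹ ^ 1 :=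
      pow_le_pow_of_le_one (by norm_num) (by norm_num) hk.1
    linarith
  have hpk0 : 2 * (2 : ℝ)⁻¹ ^ (k0 + 1) ≤ (2 : ℝ)⁻¹ ^ k := by
    have h1 : (2 : ℝ)⁻¹ ^ k0 ≤ (2 : ℝ)⁻¹ ^ k :=
      pow_le_pow_of_le_one (by norm_num) (by norm_num) hk.2
    have h2 : (2 : ℝ)⁻¹ ^ (k0 + 1) = (2 : ℝ)⁻¹ ^ k0 / 2 := by rw [pow_succ]; ring
    linarith
  have hsn : sc n ≤ 1 / 2 := by
    have : (2 : ℝ)⁻¹ ^ n ≤ (2 : ℝ)⁻¹ ^ 1 :=
      pow_le_pow_of_le_one (by norm_num) (by norm_num) hn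
    unfold sc
    linarith
  have hsn0 := sc_pos n
  have hiR : |(i : ℝ)| ≤ 8 * 2 ^ k := by exact_mod_cast hi
  have hs8 : ∀ x : ℝ, |x| ≤ 9 * 2 ^ k → |x * (2 : ℝ)⁻¹ ^ k| ≤ 9 := by
    intro x hx
    rw [abs_mul, abs_of_pos hp]
    have := mul_le_mul_of_nonneg_right hx hp.le
    rw [mul_assoc, hp2] at this
    linarith
  have h2k : (1 : ℝ) ≤ 2 ^ k := one_le_pow₀ (by norm_num)
  have hi9 : |(i : ℝ)| ≤ 9 * 2 ^ k := by linarith
  have hi19 : |(i : ℝ) + 1| ≤ 9 * 2 ^ k := by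
    refine (abs_add_le _ _).trans ?_
    rw [abs_one]; linarith
  have hs0 := hs8 _ hi9
  have hs1 := hs8 _ hi19
  have hs00 : |(i : ℝ) * (2 : ℝ)⁻¹ ^ k| ≤ 8 := by
    rw [abs_mul, abs_of_pos hp]
    have := mul_le_mul_of_nonneg_right hiR hp.le
    rw [mul_assoc, hp2] at this
    linarith
  have hrange : ∀ s : ℝ, |s| ≤ 9 → t + s * sc n ∈ Icc (-20 : ℝ) 20 := by
    intro s hs
    have h1 : |s * sc n| ≤ 9 * (1 / 2) := by
      rw [abs_mul, abs_of_pos hsn0]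
      exact mul_le_mul hs hsn hsn0.le (by norm_num)
    obtain ⟨h2, h3⟩ := abs_le.mp h1
    exact ⟨by linarith [ht.1], by linarith [ht.2]⟩
  have hrange' : ∀ s : ℝ, |s| ≤ 9 → t + s * sc n ∈ Icc (-21 : ℝ) 21 := by
    intro s hs
    obtain ⟨h1, h2⟩ := hrange s hs
    exact ⟨by linarith, by linarith⟩
  have et0 : t + i * sc (n + k) = t + (i * (2 : ℝ)⁻¹ ^ k) * sc n := by
    rw [sc_add]; ring
  have et1 : t + i * sc (n + k) + sc (n + k) = t + (((i : ℝ) + 1) * (2 : ℝ)⁻¹ ^ k) * sc n := by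
    rw [sc_add]; ring
  have ht' : t + i * sc (n + k) ∈ Icc (-20 : ℝ) 20 := by
    rw [et0]; exact hrange _ hs0
  have L0 : ‖nX γ O t n (γ (t + i * sc (n + k))) - (i * (2 : ℝ)⁻¹ ^ k) • e3‖ ≤ ε := by
    rw [et0]
    exact line_nX hCHV hP ht20 n _ (by linarith) (hrange' _ hs0)
  have L1 : ‖nX γ O t n (γ (t + i * sc (n + k) + sc (n + k)))
      - (((i : ℝ) + 1) * (2 : ℝ)⁻¹ ^ k) • e3‖ ≤ ε := by
    rw [et1]
    exact line_nX hCHV hP ht20 n _ (by linarith) (hrange' _ hs1)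
  obtain ⟨r1, r2, _, r4, r5, r6, r7, _⟩ :=
    hRENS ε Ω f γ O O' he he1 hP t ht20 n (t + i * sc (n + k)) ht' (n + k)
  have D0 := H3 ε Ω f γ O O' he (by rw [e20, e19]; exact heκ) hP t ht3 n hn k hk.2 i
    (by
      have : (0 : ℤ) < 2 ^ k := by positivity
      linarith)
  have D1 := H3 ε Ω f γ O O' he (by rw [e20, e19]; exact heκ) hP t ht3 n hn k hk.2 (i + 1)
    (by
      have h1 : (1 : ℤ) ≤ 2 ^ k := one_le_pow₀ (by norm_num)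
      have h2 : |i + 1| ≤ |i| + 1 := by
        refine (abs_add_le _ _).trans ?_
        rw [abs_one]
      linarith)
  have et2 : t + ((i + 1 : ℤ) : ℝ) * sc (n + k) = t + i * sc (n + k) + sc (n + k) := by
    push_cast; ring
  rw [et2] at D1
  set x0 : E3 := nX γ O t n (γ (t + i * sc (n + k))) with hx0
  set x1 : E3 := nX γ O t n (γ (t + i * sc (n + k) + sc (n + k))) with hx1
  set σ : ℝ := SS f γ O O' k0 t n with hσ
  have hσ0 : 0 ≤ σ := by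
    refine Finset.sum_nonneg fun j _ => Finset.sum_nonneg fun i _ => ?_
    exact dev_nonneg _ _
  have hσ1 : σ ≤ 20 * N * ε := by
    have h1 : σ ≤ ∑ j ∈ Finset.range (k0 + 2),
        ∑ _i ∈ Finset.Icc (-(12 * 2 ^ j) : ℤ) (12 * 2 ^ j), 20 * ε := by
      refine Finset.sum_le_sum fun j _ => Finset.sum_le_sum fun i hi => ?_
      rw [Finset.mem_Icc] at hi
      have hj : |(i : ℝ)| ≤ 12 * 2 ^ j := by
        have : |i| ≤ 12 * 2 ^ j := abs_le.mpr hi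
        exact_mod_cast this
      have h2 : |(i : ℝ) * sc (n + j)| ≤ 12 * sc n := by
        rw [abs_mul, abs_of_pos (sc_pos _), sc_add]
        have h3 : (2 : ℝ) ^ j * (2 : ℝ)⁻¹ ^ j = 1 := by rw [← mul_pow]; norm_num
        calc |(i : ℝ)| * (sc n * (2 : ℝ)⁻¹ ^ j) ≤ (12 * 2 ^ j) * (sc n * (2 : ℝ)⁻¹ ^ j) :=
              mul_le_mul_of_nonneg_right hj (by positivity)
          _ = 12 * sc n * (2 ^ j * (2 : ℝ)⁻¹ ^ j) := by ring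
          _ = 12 * sc n := by rw [h3, mul_one]
      obtain ⟨h4, h5⟩ := abs_le.mp h2
      exact (H2 ε Ω f γ O O' he he1 hP (t + i * sc (n + j))
        ⟨by linarith [ht.1], by linarith [ht.2]⟩ (n - 1 + j)).2.2.2.2
    refine h1.trans (le_of_eq ?_)
    rw [hN]
    simp only [Finset.sum_const, nsmul_eq_mul]
    rw [← Finset.sum_mul]
    ring
  have hd : |‖x1 - x0‖ - (2 : ℝ)⁻¹ ^ k| ≤ 2 * ε := by
    have e1 : (x1 - x0) - ((2 : ℝ)⁻¹ ^ k) • e3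
        = (x1 - (((i : ℝ) + 1) * (2 : ℝ)⁻¹ ^ k) • e3) - (x0 - (i * (2 : ℝ)⁻¹ ^ k) • e3) := by
      rw [add_mul, one_mul, add_smul]
      abel
    have e2 : ‖((2 : ℝ)⁻¹ ^ k) • e3‖ = (2 : ℝ)⁻¹ ^ k := by
      rw [norm_smul, norm_e3, mul_one, Real.norm_eq_abs, abs_of_pos hp]
    have h1 : ‖(x1 - x0) - ((2 : ℝ)⁻¹ ^ k) • e3‖ ≤ 2 * ε := by
      rw [e1]
      refine (norm_sub_le _ _).trans ?_
      linarith
    have h2 := abs_norm_sub_norm_le (x1 - x0) (((2 : ℝ)⁻¹ ^ k) • e3)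
    rw [e2] at h2
    linarith
  obtain ⟨hd1, hd2⟩ := abs_le.mp hd
  have hlow : (2 : ℝ)⁻¹ ^ (k0 + 1) ≤ ‖x1 - x0‖ := by linarith
  have hN' : 0 ≤ 20 * N := mul_nonneg (by norm_num) hN0
  have D0' : dev x0 (nF f γ O O' t n x0) ≤ C3 * σ := D0
  have D1' : dev x1 (nF f γ O O' t n x1) ≤ C3 * σ := D1
  clear_value x0 x1 σ
  have hC0 : 0 ≤ C3 * 2 ^ (k0 + 2) := by positivity
  refine ⟨⟨r4, r5, r6, r7, hlow, by linarith, ?_, ?_, ?_, ?_⟩, ?_, ?_, hσ0, ?_, ?_⟩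
  · rw [r2]
    exact div_pos (hP.pos' _ ht' _) (hP.pos' _ ht20 _)
  · have h1 := (abs_le_norm _ 2).trans L0
    have h2 := (abs_le_norm _ 2).trans L1
    rw [sub_two] at h1 h2
    have h3 := (abs_le.mp h1).2
    have h4 := (abs_le.mp h2).1
    linarith
  · have h1 : ‖x0‖ ≤ ‖x0 - (i * (2 : ℝ)⁻¹ ^ k) • e3‖ + ‖(i * (2 : ℝ)⁻¹ ^ k) • e3‖ :=
      norm_le_norm_sub_add _ _
    rw [norm_smul ((i : ℝ) * (2 : ℝ)⁻¹ ^ k), norm_e3, mul_one, Real.norm_eq_abs] at h1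
    linarith
  · have h1 : dev x0 (nF f γ O O' t n x0) + dev x1 (nF f γ O O' t n x1) ≤ 2 * (C3 * σ) := by
      linarith
    have h2 : 2 * (C3 * σ) = C3 * 2 ^ (k0 + 2) * σ * (2 : ℝ)⁻¹ ^ (k0 + 1) := by
      have h3 : (2 : ℝ) ^ (k0 + 2) * (2 : ℝ)⁻¹ ^ (k0 + 1) = 2 := by
        rw [pow_succ (2 : ℝ) (k0 + 1), mul_right_comm, ← mul_pow]; norm_num
      calc 2 * (C3 * σ) = C3 * σ * ((2 : ℝ) ^ (k0 + 2) * (2 : ℝ)⁻¹ ^ (k0 + 1)) := by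
            rw [h3]; ring
        _ = _ := by ring
    have h3 : C3 * 2 ^ (k0 + 2) * σ ≤ (C3 * 2 ^ (k0 + 2) + 20 * N + 3) * σ :=
      mul_le_mul_of_nonneg_right (by linarith) hσ0
    calc _ ≤ 2 * (C3 * σ) := h1
      _ = C3 * 2 ^ (k0 + 2) * σ * (2 : ℝ)⁻¹ ^ (k0 + 1) := h2
      _ ≤ (C3 * 2 ^ (k0 + 2) + 20 * N + 3) * σ * ‖x1 - x0‖ :=
        mul_le_mul h3 hlow hq0.le (by positivity)
  · have h1 : 0 ≤ (C3 * 2 ^ (k0 + 2) + 20 * N + 2) * ε := by positivity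
    linarith
  · have h1 : 0 ≤ (C3 * 2 ^ (k0 + 2) + 20 * N + 1) * ε := by positivity
    linarith
  · have h1 : 0 ≤ (C3 * 2 ^ (k0 + 2) + 3) * ε := by positivity
    linarith
  · exact nX_self γ O t n

end Pool.Mart
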