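import Pool.Agent.Work.MP_680515_an.IfaceH

/-!
# MP_680515_an, block SURJ: local surjectivity of nearly similar maps (Newton iteration)
-/

open MeasureTheory Set Filter Topology Complex

namespace Pool.Mart

namespace SURJ_

theorem act_eq (A : M3) (v : E3) : act A v = Matrix.toEuclideanLin A v := by
  simp [act, Matrix.toLpLin_apply]

theorem act_add (A : M3) (v w : E3) : act A (v + w) = act A v + act A w := by
  simp only [act_eq, map_add]

theorem act_sub (A : M3) (v w : E3) : act A (v - w) = act A v - act A w := by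
  simp only [act_eq, map_sub]

theorem act_smul (A : M3) (c : ℝ) (v : E3) : act A (c • v) = c • act A v := by
  simp only [act_eq, map_smul]

theorem norm_act {O : M3} (hO : O ∈ Matrix.specialOrthogonalGroup (Fin 3) ℝ) (v : E3) :
    ‖act O v‖ = ‖v‖ := by
  have hm : O.transpose * O = 1 :=
    (Matrix.mem_orthogonalGroup_iff' (Fin 3) ℝ).mp (Matrix.mem_specialOrthogonalGroup_iff.mp hO).1
  have h : ‖act O v‖ ^ 2 = ‖v‖ ^ 2 := by
    rw [EuclideanSpace.real_norm_sq_eq, EuclideanSpace.real_norm_sq_eq]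
    have h1 : ∑ i, (act O v) i ^ 2 = dotProduct (O.mulVec v.ofLp) (O.mulVec v.ofLp) := by
      simp only [dotProduct, act, sq]
    have h2 : ∑ i, v i ^ 2 = dotProduct v.ofLp v.ofLp := by
      simp only [dotProduct, sq]
    rw [h1, h2, Matrix.dotProduct_mulVec, Matrix.vecMul_mulVec, hm, Matrix.vecMul_one]
  exact (pow_left_inj₀ (norm_nonneg _) (norm_nonneg _) two_ne_zero).1 h

theorem act_transpose {O : M3} (hO : O ∈ Matrix.specialOrthogonalGroup (Fin 3) ℝ) (v : E3) :
    act O (act O.transpose v) = v := by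
  have hm : O * O.transpose = 1 :=
    (Matrix.mem_orthogonalGroup_iff (Fin 3) ℝ).mp (Matrix.mem_specialOrthogonalGroup_iff.mp hO).1
  unfold act
  simp only [Matrix.mulVec_mulVec, hm, Matrix.one_mulVec]

/-- one Newton step -/
theorem step {ε : ℝ} {g : E3 → E3} {x y : E3} {r lam : ℝ} {O : M3} {b : E3} (hr : 0 < r)
    (h : SimAp ε g x r lam O b) (hy : ‖y - g x‖ ≤ lam * r / 4) :
    ∃ x' : E3, dist x x' ≤ r / 4 ∧ ‖y - g x'‖ ≤ 2 * (ε * lam * r) := by
  have hl := h.pos
  refine ⟨x + lam⁻¹ • act O.transpose (y - g x), ?_, ?_⟩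
  · have h1 : ‖act O.transpose (y - g x)‖ = ‖y - g x‖ := by
      rw [← norm_act h.so (act O.transpose (y - g x)), act_transpose h.so]
    rw [dist_comm, dist_eq_norm, add_sub_cancel_left, norm_smul, h1, norm_inv, Real.norm_eq_abs,
      abs_of_pos hl, inv_mul_le_iff₀ hl]
    linarith
  · have hd : dist (x + lam⁻¹ • act O.transpose (y - g x)) x ≤ r / 4 := by
      have h1 : ‖act O.transpose (y - g x)‖ = ‖y - g x‖ := by
        rw [← norm_act h.so (act O.transpose (y - g x)), act_transpose h.so]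
      rw [dist_eq_norm, add_sub_cancel_left, norm_smul, h1, norm_inv, Real.norm_eq_abs,
        abs_of_pos hl, inv_mul_le_iff₀ hl]
      linarith
    set x' := x + lam⁻¹ • act O.transpose (y - g x) with hx'
    have h1 := h.ap x (Metric.mem_ball_self hr)
    have h2 := h.ap x' (by rw [Metric.mem_ball]; linarith)
    have h3 : lam • act O x' + b = lam • act O x + b + (y - g x) := by
      rw [hx', act_add, act_smul, act_transpose h.so, smul_add, smul_smul, mul_inv_cancel₀ hl.ne',
        one_smul]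
      abel
    have h5 : y - g x' = (g x - (lam • act O x + b)) - (g x' - (lam • act O x' + b)) := by
      rw [h3]
      abel
    rw [h5]
    refine (norm_sub_le _ _).trans ?_
    linarith

end SURJ_

open SURJ_ in
theorem stmt_SURJ (hSCMP : Stmt_SCMP) : Stmt_SURJ := by
  intro ε g x y0 r0 r lam O b hε0 hε hNS hy0 hr hr0 h0 y hy
  -- the states of the iteration
  let Q : ℕ → E3 × ℝ → Prop := fun k s => ∃ (O' : M3) (b' : E3),
    SimAp ε g s.1 (r / 2 ^ k) s.2 O' b' ∧ ‖y - g s.1‖ ≤ s.2 * (r / 2 ^ k) / 4 ∧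
    dist s.1 y0 ≤ r / 2 * (1 - 1 / 2 ^ k) ∧ s.2 * (r / 2 ^ k) ≤ (11 / 20) ^ k * (lam * r)
  have hQ0 : Q 0 (y0, lam) := by
    refine ⟨O, b, by simpa using h0, ?_, by simp, by simp⟩
    rw [norm_sub_rev] at hy
    simpa [norm_sub_rev] using hy
  have hstep : ∀ (k : ℕ) (s : E3 × ℝ), Q k s →
      ∃ s' : E3 × ℝ, Q (k + 1) s' ∧ dist s.1 s'.1 ≤ r / 2 / 2 / 2 ^ k := by
    rintro k ⟨z, l⟩ ⟨O', b', hS, hn, hd, hb⟩
    simp only at hS hn hd hb
    have h2k : (0 : ℝ) < 2 ^ k := by positivity
    have hrk : 0 < r / 2 ^ k := by positivity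
    have hrk1 : r / 2 ^ k ≤ r := div_le_self hr.le (one_le_pow₀ (by norm_num))
    have hl : 0 < l := hS.pos
    obtain ⟨z', hz1, hz2⟩ := step hrk hS hn
    have hhalf : r / 2 ^ (k + 1) = (r / 2 ^ k) / 2 := by
      rw [pow_succ]; field_simp
    have hdist : dist z' y0 ≤ r / 2 * (1 - 1 / 2 ^ (k + 1)) := by
      have h1 : dist z' y0 ≤ dist z z' + dist z y0 := by
        rw [dist_comm z z']
        exact dist_triangle _ _ _
      have h2 : r / 2 * (1 - 1 / 2 ^ (k + 1)) = r / 2 * (1 - 1 / 2 ^ k) + r / 2 ^ k / 4 := by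
        rw [pow_succ]; field_simp; ring
      rw [h2]
      linarith
    have hzx : z' ∈ Metric.ball x r0 := by
      rw [Metric.mem_ball]
      have h1 : dist z' x ≤ dist z' y0 + dist y0 x := dist_triangle _ _ _
      rw [Metric.mem_ball] at hy0
      have h2 : r / 2 * (1 - 1 / 2 ^ (k + 1)) ≤ r / 2 := by
        have : (0 : ℝ) ≤ 1 / 2 ^ (k + 1) := by positivity
        nlinarith
      linarith
    obtain ⟨l', O'', b'', hS'⟩ := hNS z' hzx (r / 2 ^ k / 2) (by linarith) (by linarith)
    have hc := hSCMP ε g z z' (r / 2 ^ k) (r / 2 ^ k / 2) l l' O' O'' b' b'' hε0 hε hS hS'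
      (by linarith) (by linarith) (by linarith) (by
        apply Metric.ball_subset_ball'
        rw [dist_comm z' z]
        linarith)
    have hc2 : 10 * ε * l ≤ l / 10 := by
      have : ε * l ≤ 1 / 100 * l := mul_le_mul_of_nonneg_right hε hl.le
      linarith
    rw [abs_le] at hc
    have ha : 9 / 10 * l ≤ l' := by linarith [hc.1]
    have hb' : l' ≤ 11 / 10 * l := by linarith [hc.2]
    have hεl : 2 * (ε * l * (r / 2 ^ k)) ≤ 1 / 50 * (l * (r / 2 ^ k)) := by
      have h1 : ε * (l * (r / 2 ^ k)) ≤ 1 / 100 * (l * (r / 2 ^ k)) :=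
        mul_le_mul_of_nonneg_right hε (by positivity)
      nlinarith
    have hlr : 9 / 10 * (l * (r / 2 ^ k)) ≤ l' * (r / 2 ^ k) := by
      have := mul_le_mul_of_nonneg_right ha hrk.le
      linarith
    have hlr2 : l' * (r / 2 ^ k) ≤ 11 / 10 * (l * (r / 2 ^ k)) := by
      have := mul_le_mul_of_nonneg_right hb' hrk.le
      linarith
    have hpos : 0 < l * (r / 2 ^ k) := by positivity
    refine ⟨(z', l'), ⟨O'', b'', ?_, ?_, hdist, ?_⟩, ?_⟩
    · rw [hhalf]; exact hS'
    · rw [hhalf]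
      simp only
      linarith
    · rw [hhalf]
      simp only
      rw [pow_succ]
      linarith
    · simp only
      have : r / 2 / 2 / 2 ^ k = r / 2 ^ k / 4 := by field_simp; ring
      rw [this]
      exact hz1
  -- the sequence
  choose! nx hnx using hstep
  let F : (k : ℕ) → {s : E3 × ℝ // Q k s} := fun k =>
    Nat.rec ⟨(y0, lam), hQ0⟩ (fun k s => ⟨nx k s.1, (hnx k s.1 s.2).1⟩) k
  have hF0 : (F 0).1 = (y0, lam) := rfl
  have hFs : ∀ k, (F (k + 1)).1 = nx k (F k).1 := fun k => rfl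
  set u : ℕ → E3 := fun k => (F k).1.1 with hu
  have hdu : ∀ k, dist (u k) (u (k + 1)) ≤ r / 2 / 2 / 2 ^ k := by
    intro k
    have := (hnx k (F k).1 (F k).2).2
    rw [← hFs k] at this
    exact this
  have hcau : CauchySeq u := cauchySeq_of_le_geometric_two hdu
  obtain ⟨p, hp⟩ := cauchySeq_tendsto_of_complete hcau
  have hpk : ∀ k, dist (u k) p ≤ r / 2 / 2 ^ k := fun k =>
    dist_le_of_le_geometric_two_of_tendsto hdu hp k
  refine ⟨p, ?_, ?_⟩
  · have := hpk 0
    rw [pow_zero, div_one] at this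
    rw [Metric.mem_closedBall, dist_comm]
    exact this
  · -- the residue tends to zero
    have hres : ∀ k : ℕ, ‖g p - y‖ ≤ (11 / 20) ^ k * (lam * r) := by
      intro k
      obtain ⟨O', b', hS, hn, -, hb⟩ := (F k).2
      have hl : 0 < (F k).1.2 := hS.pos
      have hrk : 0 < r / 2 ^ k := by positivity
      have hd : ‖p - u k‖ ≤ r / 2 ^ k / 2 := by
        rw [← dist_eq_norm, dist_comm]
        have h1 : r / 2 ^ k / 2 = r / 2 / 2 ^ k := by field_simp
        rw [h1]
        exact hpk k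
      have h1 := hS.ap (u k) (Metric.mem_ball_self hrk)
      have h2 := hS.ap p (by
        rw [Metric.mem_ball, dist_eq_norm]
        exact lt_of_le_of_lt hd (by linarith))
      set l := (F k).1.2 with hldef
      have h3 : ‖l • act O' (p - u k)‖ ≤ l * (r / 2 ^ k / 2) := by
        rw [norm_smul, norm_act hS.so, Real.norm_eq_abs, abs_of_pos hl]
        exact mul_le_mul_of_nonneg_left hd hl.le
      have h4 : g p - y = (g p - (l • act O' p + b')) - (g (u k) - (l • act O' (u k) + b')) +
          l • act O' (p - u k) - (y - g (u k)) := by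
        rw [act_sub, smul_sub]
        abel
      have hεl : ε * l * (r / 2 ^ k) ≤ 1 / 100 * (l * (r / 2 ^ k)) := by
        have h1 : ε * (l * (r / 2 ^ k)) ≤ 1 / 100 * (l * (r / 2 ^ k)) :=
          mul_le_mul_of_nonneg_right hε (by positivity)
        nlinarith
      have hpos : 0 < l * (r / 2 ^ k) := by positivity
      have h5 : ‖g p - y‖ ≤ ‖g p - (l • act O' p + b')‖ + ‖g (u k) - (l • act O' (u k) + b')‖ +
          ‖l • act O' (p - u k)‖ + ‖y - g (u k)‖ := by
        rw [h4]
        refine (norm_sub_le _ _).trans ?_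
        gcongr
        refine (norm_add_le _ _).trans ?_
        gcongr
        exact norm_sub_le _ _
      have h6 : ‖y - g (u k)‖ ≤ l * (r / 2 ^ k) / 4 := hn
      have h7 : l * (r / 2 ^ k) ≤ (11 / 20) ^ k * (lam * r) := hb
      linarith
    have hlim : Tendsto (fun k : ℕ => (11 / 20 : ℝ) ^ k * (lam * r)) atTop (𝓝 0) := by
      have := (tendsto_pow_atTop_nhds_zero_of_lt_one (by norm_num : (0 : ℝ) ≤ 11 / 20)
        (by norm_num)).mul_const (lam * r)
      simpa using this
    have h8 : ‖g p - y‖ ≤ 0 := ge_of_tendsto' hlim hres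
    exact sub_eq_zero.1 (norm_le_zero_iff.1 h8)

end Pool.Mart
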