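import Pool.Agent.Work.MP_680515_an.IfaceH

open MeasureTheory Set Filter Topology Complex

namespace Pool.Mart

namespace TARG_

theorem act_eq (A : M3) (v : E3) : act A v = Matrix.toEuclideanLin A v := by
  simp [act, Matrix.toLpLin_apply]

theorem act_sub (A : M3) (v w : E3) : act A (v - w) = act A v - act A w := by
  simp only [act_eq, map_sub]

theorem act_smul (A : M3) (c : ℝ) (v : E3) : act A (c • v) = c • act A v := by
  simp only [act_eq, map_smul]

theorem norm_e3 : ‖e3‖ = 1 := by
  simp [e3]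

theorem sc_pos (n : ℕ) : 0 < sc n := by
  unfold sc; positivity

theorem sc_le (n : ℕ) : sc n ≤ 1 := by
  unfold sc
  exact pow_le_one₀ (by norm_num) (by norm_num)

end TARG_

open TARG_ in
theorem stmt_TARG : Stmt_TARG := by
  refine ⟨140, by norm_num, ?_⟩
  intro ε V φ ys he hNS hys
  obtain ⟨r0, hr0, _, H⟩ := hNS ys hys
  refine ⟨r0 / 100, by positivity, ?_⟩
  intro κ hκ hκ0 t ht n
  have hs := sc_pos n
  have hs1 := sc_le n
  have hks : 0 < κ * sc n := mul_pos hκ hs
  have hks1 : κ * sc n ≤ κ := mul_le_of_le_one_right hκ.le hs1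
  have hy : ys + (κ * t) • e3 ∈ Metric.ball ys r0 := by
    rw [Metric.mem_ball, dist_eq_norm, add_sub_cancel_left, norm_smul, norm_e3, mul_one,
      Real.norm_eq_abs, abs_mul, abs_of_pos hκ]
    have h1 : |t| ≤ 20 := abs_le.mpr ⟨by linarith [ht.1], ht.2⟩
    have h2 : κ * |t| ≤ κ * 20 := mul_le_mul_of_nonneg_left h1 hκ.le
    linarith
  obtain ⟨lam, O, b, hlam, hO, hap⟩ := H _ hy (70 * (κ * sc n)) (by positivity) (by linarith)
  refine ⟨lam * (κ * sc n), O, mul_pos hlam hks, hO, ?_⟩
  intro W hW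
  have h0 := hap (ys + (κ * t) • e3) (Metric.mem_ball_self (by positivity))
  have h1 := hap (ys + (κ * t) • e3 + (κ * sc n) • W) (by
    rw [Metric.mem_ball, dist_eq_norm, add_sub_cancel_left, norm_smul, Real.norm_eq_abs,
      abs_of_pos hks]
    have : κ * sc n * ‖W‖ ≤ κ * sc n * 68 := mul_le_mul_of_nonneg_left hW hks.le
    linarith)
  have e : φ (ys + (κ * t) • e3 + (κ * sc n) • W) - φ (ys + (κ * t) • e3)
      - (lam * (κ * sc n)) • act O W
      = (φ (ys + (κ * t) • e3 + (κ * sc n) • W)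
          - (lam • act O (ys + (κ * t) • e3 + (κ * sc n) • W) + b))
        - (φ (ys + (κ * t) • e3) - (lam • act O (ys + (κ * t) • e3) + b)) := by
    have h2 : act O (ys + (κ * t) • e3 + (κ * sc n) • W)
        = act O (ys + (κ * t) • e3) + (κ * sc n) • act O W := by
      have h3 := act_sub O (ys + (κ * t) • e3 + (κ * sc n) • W) (ys + (κ * t) • e3)
      rw [add_sub_cancel_left, act_smul] at h3
      rw [h3]
      abel
    rw [h2, smul_add, smul_smul]
    abel
  rw [e]
  refine (norm_sub_le _ _).trans ?_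
  calc _ ≤ ε * lam * (70 * (κ * sc n)) + ε * lam * (70 * (κ * sc n)) := add_le_add h1 h0
    _ = _ := by ring

end Pool.Mart
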