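import Pool.Agent.Work.MP_680515_an.IfaceL

/-!
# MP_680515_an: block THREE (helper84)

The defect is a sum of three nonnegative terms.
-/

open MeasureTheory Set Filter Topology Complex

namespace Pool.Mart

namespace THREE_

theorem opn_nonneg (M : M3) : 0 ≤ opn M := norm_nonneg _

theorem cpair_le (hBAS : Stmt_BAS) (A : M3) {y b : E3} (hb : ‖b‖ = 1) (hy : ‖y‖ = 1) :
    cpair A y b ≤ opn (cofm A) := by
  rw [hBAS.2.2.1 A y b]
  refine (real_inner_le_norm _ _).trans ?_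
  rw [hy, one_mul]
  have h := hBAS.1 (cofm A) b
  rwa [hb, mul_one] at h

end THREE_

open THREE_ in
theorem stmt_THREE (hBAS : Stmt_BAS) : Stmt_THREE := by
  intro A b y s δ hA hs hb hy hδ
  set N := opn (cofm A) with hN
  set D := A.det with hD
  set c := cpair A y b with hc
  have hN0 : 0 ≤ N := opn_nonneg _
  have hcN : c ≤ N := cpair_le hBAS A hb hy
  have hA1 : N ^ 3 ≤ 2 * D ^ 2 := hA.1
  have hA2 : opn A ^ 3 ≤ 4 * D := hA.2
  have hD0 : 0 ≤ D := by
    have : 0 ≤ opn A ^ 3 := pow_nonneg (opn_nonneg A) 3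
    linarith
  have hs2 : 0 < s ^ 2 := by positivity
  have hs3 : 0 < s ^ 3 := by positivity
  set t := Real.sqrt (N / (2 * s ^ 2)) with ht
  have ht0 : 0 ≤ t := Real.sqrt_nonneg _
  have ht2 : t ^ 2 = N / (2 * s ^ 2) := Real.sq_sqrt (by positivity)
  set j := D / (2 * s ^ 3) with hj
  have hj0 : 0 ≤ j := by positivity
  have hjt : t ^ 3 ≤ j := by
    have h1 : (t ^ 3) ^ 2 ≤ j ^ 2 := by
      calc (t ^ 3) ^ 2 = (t ^ 2) ^ 3 := by ring
        _ = N ^ 3 / (8 * s ^ 6) := by rw [ht2]; field_simp; ring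
        _ ≤ 2 * D ^ 2 / (8 * s ^ 6) := by gcongr
        _ = j ^ 2 := by rw [hj]; field_simp; ring
    exact le_of_sq_le_sq h1 hj0
  have hid : δ = 4 / 3 * (j - t ^ 3) + 2 / 3 * ((t - 1) ^ 2 * (2 * t + 1)) + (N - c) / s ^ 2 := by
    have e1 : (2 / 3) * D / s ^ 3 = 4 / 3 * j := by rw [hj]; field_simp; ring
    have e2 : N / s ^ 2 = 2 * t ^ 2 := by rw [ht2]; field_simp
    rw [hδ, e1, sub_div, e2]
    ring
  have h3 : 0 ≤ (N - c) / s ^ 2 := div_nonneg (by linarith) hs2.le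
  have h2 : 0 ≤ (t - 1) ^ 2 * (2 * t + 1) := by positivity
  have h2' : (t - 1) ^ 2 ≤ (t - 1) ^ 2 * (2 * t + 1) :=
    le_mul_of_one_le_right (sq_nonneg _) (by linarith)
  refine ⟨by rw [hid]; linarith, ?_, ?_, ?_⟩
  · have h4 : (N - c) / s ^ 2 ≤ δ := by rw [hid]; linarith
    rwa [div_le_iff₀ hs2] at h4
  · rw [hid]; linarith
  · rw [hid]; linarith

end Pool.Mart
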