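import Pool.Agent.Work.MP_680515_an.IfaceM

/-!
# MP_680515_an: block TRF (helper84)

Transfer of real affine approximations between two systems.
-/

open MeasureTheory Set Filter Topology Complex

namespace Pool.Mart

namespace TRF_

/-- the affine map of the plane -/
noncomputable def TT (z l : ℝ) (ζ : ℂ) : ℂ := (z : ℂ) * I + (l : ℂ) * ζ

theorem TT_eq (z l : ℝ) : TT z l = fun ζ : ℂ => (z : ℂ) * I + l • ζ := by
  funext ζ
  simp [TT]

theorem det_smul_id (l : ℝ) : (l • ContinuousLinearMap.id ℝ ℂ).det = l ^ 2 := by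
  have h : (l • ContinuousLinearMap.id ℝ ℂ).det
      = LinearMap.det (l • (LinearMap.id : ℂ →ₗ[ℝ] ℂ)) := rfl
  rw [h, LinearMap.det_smul, LinearMap.det_id, mul_one, Complex.finrank_real_complex]

theorem cv (z : ℝ) {l : ℝ} (hl : 0 < l) {s : Set ℂ} (hs : MeasurableSet s) (g : ℂ → ℝ) :
    ∫ ζ in TT z l '' s, g ζ = l ^ 2 * ∫ ζ in s, g (TT z l ζ) := by
  have hinj : InjOn (TT z l) s := by
    intro a _ b _ hab
    have hl' : (l : ℂ) ≠ 0 := by exact_mod_cast hl.ne'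
    unfold TT at hab
    exact mul_left_cancel₀ hl' (add_left_cancel hab)
  have hd : ∀ x ∈ s, HasFDerivWithinAt (TT z l) (l • ContinuousLinearMap.id ℝ ℂ) s x := by
    intro x _
    rw [TT_eq]
    exact (((hasFDerivAt_id x).const_smul l).const_add _).hasFDerivWithinAt
  rw [integral_image_eq_integral_abs_det_fderiv_smul volume hs hd hinj g]
  simp only [det_smul_id, smul_eq_mul]
  rw [integral_const_mul, abs_of_nonneg (by positivity)]

theorem actC_smul (R : Matrix (Fin 5) (Fin 5) ℝ) (c : ℂ) (w : C5) :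
    actC R (c • w) = c • actC R w := by
  ext k
  simp only [actC, PiLp.smul_apply, smul_eq_mul, Finset.mul_sum]
  exact Finset.sum_congr rfl fun j _ => by ring

theorem actC_sub (R : Matrix (Fin 5) (Fin 5) ℝ) (w w' : C5) :
    actC R (w - w') = actC R w - actC R w' := by
  ext k
  simp only [actC, PiLp.sub_apply, mul_sub, Finset.sum_sub_distrib]

theorem actC_cont (R : Matrix (Fin 5) (Fin 5) ℝ) : Continuous (actC R) := by
  unfold actC
  fun_prop

theorem aff_cont (a b : Fin 5 → ℝ) : Continuous (aff a b) := by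
  unfold aff
  fun_prop

theorem aff_shift1 (a b a' b' : Fin 5 → ℝ) (z l : ℝ) (ζ : ℂ) :
    aff (a + (l • a' - z • b')) (b + b') (TT z l ζ) = aff a b (TT z l ζ) + (l : ℂ) • aff a' b' ζ := by
  ext k
  simp only [aff, TT, PiLp.add_apply, PiLp.smul_apply, smul_eq_mul, Pi.add_apply, Pi.sub_apply,
    Pi.smul_apply]
  push_cast
  linear_combination (-(b' k : ℂ) * z) * I_sq

theorem aff_shift2 (a' b' : Fin 5 → ℝ) (z : ℝ) {l : ℝ} (hl : 0 < l) (ζ : ℂ) :
    aff (l⁻¹ • (a' + z • b')) b' ζ = ((l⁻¹ : ℝ) : ℂ) • aff a' b' (TT z l ζ) := by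
  have hl' : (l : ℂ) ≠ 0 := by exact_mod_cast hl.ne'
  ext k
  simp only [aff, TT, PiLp.smul_apply, smul_eq_mul, Pi.add_apply, Pi.smul_apply]
  push_cast
  field_simp
  linear_combination (b' k : ℂ) * z * I_sq

theorem aff_sub (a b a' b' : Fin 5 → ℝ) (ζ : ℂ) :
    aff a b ζ - aff a' b' ζ = aff (a - a') (b - b') ζ := by
  ext k
  simp only [aff, PiLp.sub_apply, Pi.sub_apply]
  push_cast
  ring

theorem EE_sub : EE ⊆ Metric.closedBall (0 : ℂ) 64 := by
  rintro ζ ⟨h1, h2, h3⟩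
  rw [mem_closedBall_zero_iff]
  refine (Complex.norm_le_abs_re_add_abs_im ζ).trans ?_
  rw [abs_of_pos (by linarith)]
  linarith

end TRF_

open TRF_ in
theorem stmt_TRF (hMCI : Stmt_MCI) (hMODP : Stmt_MODP) (_hVCO : Stmt_VCO) (_hWIN1 : Stmt_WIN1) :
    Stmt_TRF := by
  obtain ⟨-, -, mn, -, maff, -, minv, -⟩ := hMODP
  intro lm hlm hlm2
  obtain ⟨C, κ, hC, hκ, hM⟩ := hMCI lm hlm hlm2
  refine ⟨C, κ, hC, hκ, ?_⟩
  intro ε m η F A x0 x1 S S' hε hεκ hm hmκ hF hSub hη E2 hE2m hE2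
  obtain ⟨α, a, b, -, -, -, iv, -, iu, hint⟩ :=
    hM ε m η F A x0 x1 S S' hε hεκ hm hmκ hF hSub hη
  set l := ‖x1 - x0‖ with hl
  set z := x0 2 with hz
  have lpos : 0 < l := lt_of_lt_of_le hlm hSub.low
  have l1 : l ≤ 1 := hSub.up.trans (by norm_num)
  have l3 : l ^ 3 ≤ 1 := pow_le_one₀ lpos.le l1
  set V := vv (ren F x0 x1 S S') with hV
  set U : ℂ → C5 := fun ζ => vv F (TT z l ζ) with hU
  set G : ℂ → C5 := fun ζ => aff a b (TT z l ζ) with hG
  set err : ℂ → C5 := fun ζ => V ζ - ((l⁻¹ : ℝ) : ℂ) • actC (Rm α) (U ζ - G ζ) with herr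
  have hint' : ∫ ζ in EE, ‖err ζ‖ ≤ C * (ε + m + η) * m := hint
  have TTc : Continuous (TT z l) := by unfold TT; fun_prop
  have affI : ∀ (h : ℂ → C5), Continuous h → IntegrableOn h EE := fun h hh =>
    (hh.continuousOn.integrableOn_compact (isCompact_closedBall (0 : ℂ) 64)).mono_set EE_sub
  have iU : IntegrableOn U EE := iu
  have iUG : IntegrableOn (fun ζ => U ζ - G ζ) EE := iU.sub (affI G ((aff_cont a b).comp TTc))
  have iR : IntegrableOn (fun ζ => actC (Rm α) (U ζ - G ζ)) EE := by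
    refine iUG.norm.mono' ((actC_cont (Rm α)).comp_aestronglyMeasurable iUG.aestronglyMeasurable)
      (Filter.Eventually.of_forall fun ζ => ?_)
    rw [mn]
  have iR2 : IntegrableOn (fun ζ => ((l⁻¹ : ℝ) : ℂ) • actC (Rm α) (U ζ - G ζ)) EE :=
    Integrable.smul ((l⁻¹ : ℝ) : ℂ) iR
  have ierr : IntegrableOn err EE := iv.sub iR2
  have errE2 : ∫ ζ in E2, ‖err ζ‖ ≤ C * (ε + m + η) * m :=
    (setIntegral_mono_set ierr.norm (Filter.Eventually.of_forall fun _ => norm_nonneg _)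
      (LE.le.eventuallyLE hE2)).trans hint'
  have err0 : 0 ≤ ∫ ζ in E2, ‖err ζ‖ := integral_nonneg fun _ => norm_nonneg _
  have hl' : (l : ℂ) ≠ 0 := by exact_mod_cast lpos.ne'
  have hcan : ∀ w : C5, (l : ℂ) • ((l⁻¹ : ℝ) : ℂ) • w = w := by
    intro w
    rw [smul_smul, Complex.ofReal_inv, mul_inv_cancel₀ hl', one_smul]
  have nl : ‖(l : ℂ)‖ = l := by rw [Complex.norm_real, Real.norm_of_nonneg lpos.le]
  have nli : ‖((l⁻¹ : ℝ) : ℂ)‖ = l⁻¹ := by
    rw [Complex.norm_real, Real.norm_of_nonneg (by positivity)]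
  have himg : (fun ζ : ℂ => (z : ℂ) * I + (l : ℂ) * ζ) '' E2 = TT z l '' E2 := rfl
  constructor
  · intro a2 b2
    refine ⟨a + (l • (Rm (-α)).mulVec a2 - z • (Rm (-α)).mulVec b2), b + (Rm (-α)).mulVec b2, ?_⟩
    rw [himg, cv z lpos hE2m]
    have pw : ∀ ζ : ℂ, ‖vv F (TT z l ζ) -
        aff (a + (l • (Rm (-α)).mulVec a2 - z • (Rm (-α)).mulVec b2)) (b + (Rm (-α)).mulVec b2)
          (TT z l ζ)‖ ≤ l * ‖V ζ - aff a2 b2 ζ‖ + l * ‖err ζ‖ := by
      intro ζ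
      have e1 : U ζ - G ζ = (l : ℂ) • actC (Rm (-α)) (V ζ - err ζ) := by
        have : V ζ - err ζ = ((l⁻¹ : ℝ) : ℂ) • actC (Rm α) (U ζ - G ζ) := by
          simp only [herr]; abel
        rw [this, actC_smul, minv, hcan]
      have e2 : vv F (TT z l ζ) -
          aff (a + (l • (Rm (-α)).mulVec a2 - z • (Rm (-α)).mulVec b2)) (b + (Rm (-α)).mulVec b2)
          (TT z l ζ) = (l : ℂ) • actC (Rm (-α)) ((V ζ - aff a2 b2 ζ) - err ζ) := by
        rw [aff_shift1, ← maff]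
        have e3 : (V ζ - aff a2 b2 ζ) - err ζ = (V ζ - err ζ) - aff a2 b2 ζ := by abel
        rw [e3, actC_sub (Rm (-α)) (V ζ - err ζ), smul_sub, ← e1]
        simp only [hU, hG]
        abel
      rw [e2, norm_smul, nl, mn, ← mul_add]
      exact mul_le_mul_of_nonneg_left (norm_sub_le _ _) lpos.le
    have i1 : IntegrableOn (fun ζ => l * ‖V ζ - aff a2 b2 ζ‖) E2 :=
      ((iv.sub (affI _ (aff_cont a2 b2))).mono_set hE2).norm.const_mul l
    have i2 : IntegrableOn (fun ζ => l * ‖err ζ‖) E2 := (ierr.mono_set hE2).norm.const_mul l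
    have i3 : IntegrableOn (fun ζ => ‖vv F (TT z l ζ) -
        aff (a + (l • (Rm (-α)).mulVec a2 - z • (Rm (-α)).mulVec b2)) (b + (Rm (-α)).mulVec b2)
          (TT z l ζ)‖) E2 :=
      ((iU.sub (affI _ ((aff_cont _ _).comp TTc))).mono_set hE2).norm
    have h1 := integral_mono i3 (i1.add i2) pw
    have h2 : ∫ ζ in E2, (l * ‖V ζ - aff a2 b2 ζ‖ + l * ‖err ζ‖) =
        l * (∫ ζ in E2, ‖V ζ - aff a2 b2 ζ‖) + l * ∫ ζ in E2, ‖err ζ‖ := by
      rw [integral_add i1 i2, integral_const_mul, integral_const_mul]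
    have h3 := mul_le_mul_of_nonneg_left (h1.trans_eq h2) (sq_nonneg l)
    refine h3.trans ?_
    have h4 : l ^ 3 * (∫ ζ in E2, ‖err ζ‖) ≤ C * (ε + m + η) * m :=
      (mul_le_of_le_one_left err0 l3).trans errE2
    nlinarith [h4]
  · intro a1 b1
    refine ⟨l⁻¹ • ((Rm α).mulVec (a1 - a) + z • (Rm α).mulVec (b1 - b)),
      (Rm α).mulVec (b1 - b), ?_⟩
    rw [himg, cv z lpos hE2m]
    have pw : ∀ ζ : ℂ, ‖V ζ - aff (l⁻¹ • ((Rm α).mulVec (a1 - a) + z • (Rm α).mulVec (b1 - b)))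
        ((Rm α).mulVec (b1 - b)) ζ‖ ≤ l⁻¹ * ‖vv F (TT z l ζ) - aff a1 b1 (TT z l ζ)‖ + ‖err ζ‖ := by
      intro ζ
      have e2 : V ζ - aff (l⁻¹ • ((Rm α).mulVec (a1 - a) + z • (Rm α).mulVec (b1 - b)))
          ((Rm α).mulVec (b1 - b)) ζ
          = ((l⁻¹ : ℝ) : ℂ) • actC (Rm α) (vv F (TT z l ζ) - aff a1 b1 (TT z l ζ)) + err ζ := by
        have e3 : vv F (TT z l ζ) - aff a1 b1 (TT z l ζ)
            = (U ζ - G ζ) - aff (a1 - a) (b1 - b) (TT z l ζ) := by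
          rw [← aff_sub]
          simp only [hU, hG]
          abel
        rw [aff_shift2 _ _ z lpos, ← maff, e3, actC_sub (Rm α) (U ζ - G ζ), smul_sub]
        simp only [herr]
        abel
      rw [e2]
      refine (norm_add_le _ _).trans ?_
      rw [norm_smul, nli, mn]
    have i1 : IntegrableOn (fun ζ => l⁻¹ * ‖vv F (TT z l ζ) - aff a1 b1 (TT z l ζ)‖) E2 :=
      ((iU.sub (affI _ ((aff_cont _ _).comp TTc))).mono_set hE2).norm.const_mul _
    have i2 : IntegrableOn (fun ζ => ‖err ζ‖) E2 := (ierr.mono_set hE2).norm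
    have i3 : IntegrableOn (fun ζ => ‖V ζ -
        aff (l⁻¹ • ((Rm α).mulVec (a1 - a) + z • (Rm α).mulVec (b1 - b)))
        ((Rm α).mulVec (b1 - b)) ζ‖) E2 :=
      ((iv.sub (affI _ (aff_cont _ _))).mono_set hE2).norm
    have h1 := integral_mono i3 (i1.add i2) pw
    have h2 : ∫ ζ in E2, (l⁻¹ * ‖vv F (TT z l ζ) - aff a1 b1 (TT z l ζ)‖ + ‖err ζ‖) =
        l⁻¹ * (∫ ζ in E2, ‖vv F (TT z l ζ) - aff a1 b1 (TT z l ζ)‖) + ∫ ζ in E2, ‖err ζ‖ := by
      rw [integral_add i1 i2, integral_const_mul]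
    have h3 := mul_le_mul_of_nonneg_left (h1.trans_eq h2) (pow_nonneg lpos.le 3)
    refine h3.trans ?_
    have h4 : l ^ 3 * (∫ ζ in E2, ‖err ζ‖) ≤ C * (ε + m + η) * m :=
      (mul_le_of_le_one_left err0 l3).trans errE2
    have h5 : l ^ 3 * (l⁻¹ * (∫ ζ in E2, ‖vv F (TT z l ζ) - aff a1 b1 (TT z l ζ)‖)) =
        l ^ 2 * ∫ ζ in E2, ‖vv F (TT z l ζ) - aff a1 b1 (TT z l ζ)‖ := by
      field_simp
    rw [mul_add, h5]
    linarith

end Pool.Mart
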