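import Pool.Agent.Work.MP_680515_an.IfaceU

/-!
MP_680515_an, block UABS (helper81): the system of inequalities is impossible.
-/

set_option autoImplicit false

namespace Pool.Mart
namespace UABS_

open Set

theorem avg_ge (N : ℕ) (g : ℝ → ℝ) (c : ℝ) (H : ∀ t ∈ Icc (0 : ℝ) 1, c ≤ g t) :
    c ≤ avg N g := by
  unfold avg
  have hgrid : ∀ j ∈ Finset.range (2 ^ N), c ≤ g (j * sc N) := by
    intro j hj
    have hj' : j < 2 ^ N := Finset.mem_range.1 hj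
    have h1 : (j : ℝ) ≤ 2 ^ N := by exact_mod_cast hj'.le
    have hs : (0 : ℝ) < sc N := by unfold sc; positivity
    refine H _ ⟨by positivity, ?_⟩
    have h2 : (j : ℝ) * sc N ≤ 2 ^ N * sc N := mul_le_mul_of_nonneg_right h1 hs.le
    have h3 : (2 : ℝ) ^ N * sc N = 1 := by
      unfold sc
      rw [← mul_pow]
      norm_num
    linarith
  have h := Finset.sum_le_sum hgrid
  rw [Finset.sum_const, Finset.card_range, nsmul_eq_mul] at h
  have h2 := mul_le_mul_of_nonneg_left h (by positivity : (0 : ℝ) ≤ (2 : ℝ)⁻¹ ^ N)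
  push_cast at h2
  rw [← mul_assoc, ← mul_pow, inv_mul_cancel₀ (by norm_num : (2 : ℝ) ≠ 0), one_pow, one_mul] at h2
  exact h2

theorem avg_nonneg (N : ℕ) (g : ℝ → ℝ) (H : ∀ t ∈ Icc (0 : ℝ) 1, 0 ≤ g t) :
    0 ≤ avg N g := avg_ge N g 0 H

/-- Choice of `k1`. -/
theorem choose_k1 (B : ℝ) (hB : 0 < B) :
    ∃ k1 : ℕ, (2 : ℝ)⁻¹ ^ k1 ≤ 1 / 128 ∧ B * (2 : ℝ)⁻¹ ^ k1 ≤ 1 / 8 := by
  obtain ⟨n, hn⟩ := exists_pow_lt_of_lt_one (show (0 : ℝ) < min (1 / 128) (1 / (8 * B)) by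
    positivity) (show (2 : ℝ)⁻¹ < 1 by norm_num)
  refine ⟨n, (hn.le.trans (min_le_left _ _)), ?_⟩
  have h := mul_le_mul_of_nonneg_left (hn.le.trans (min_le_right _ _)) hB.le
  have e : B * (1 / (8 * B)) = 1 / 8 := by field_simp
  linarith

/-- Choice of `k0`. -/
theorem choose_k0 (B : ℝ) (hB : 0 < B) (k1 : ℕ) :
    ∃ k0 : ℕ, 3 ≤ k0 ∧ k1 ≤ k0 ∧ 64 * (2 : ℝ)⁻¹ ^ (k0 + 1) ≤ (2 : ℝ)⁻¹ ^ k1 ∧
      B * (8 ^ k1 * (2 : ℝ)⁻¹ ^ k0 * k0) ≤ 1 / 8 := by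
  have hlim := tendsto_self_mul_const_pow_of_lt_one (show (0 : ℝ) ≤ (2 : ℝ)⁻¹ by norm_num)
    (show (2 : ℝ)⁻¹ < 1 by norm_num)
  have hpos : (0 : ℝ) < 1 / (8 * (B * 8 ^ k1)) := by positivity
  have hev := (hlim.eventually (gt_mem_nhds hpos)).and
    (Filter.eventually_ge_atTop (k1 + 8))
  obtain ⟨k0, h1, h2⟩ := hev.exists
  refine ⟨k0, by omega, by omega, ?_, ?_⟩
  · obtain ⟨m, rfl⟩ : ∃ m, k0 = k1 + 8 + m := ⟨k0 - (k1 + 8), by omega⟩
    have e : (2 : ℝ)⁻¹ ^ (k1 + 8 + m + 1) = (2 : ℝ)⁻¹ ^ k1 * ((2 : ℝ)⁻¹ ^ 9 * (2 : ℝ)⁻¹ ^ m) := by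
      rw [← pow_add, ← pow_add]
      congr 1
      omega
    rw [e]
    have hm : (2 : ℝ)⁻¹ ^ m ≤ 1 := pow_le_one₀ (by norm_num) (by norm_num)
    have hk : (0 : ℝ) < (2 : ℝ)⁻¹ ^ k1 := by positivity
    have h9 : (2 : ℝ)⁻¹ ^ 9 = 1 / 512 := by norm_num
    rw [h9]
    nlinarith [mul_le_mul_of_nonneg_left hm hk.le]
  · have h := mul_le_mul_of_nonneg_left h1.le (by positivity : (0 : ℝ) ≤ B * 8 ^ k1)
    have e : B * 8 ^ k1 * (1 / (8 * (B * 8 ^ k1))) = 1 / 8 := by field_simp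
    rw [e] at h
    calc B * (8 ^ k1 * (2 : ℝ)⁻¹ ^ k0 * k0) = B * 8 ^ k1 * (k0 * (2 : ℝ)⁻¹ ^ k0) := by ring
      _ ≤ 1 / 8 := h

end UABS_

open Set UABS_ in
theorem stmt_UABS (hUX : Stmt_UX) (hUD : Stmt_UD) : Stmt_UABS := by
  obtain ⟨C4, hC4, hUD⟩ := hUD
  intro C1 hC1
  obtain ⟨C3, e1, hC3, he1, hUX⟩ := hUX C1 hC1
  have hB : 0 < C4 * C1 := mul_pos hC4 hC1
  obtain ⟨k1, hk1a, hk1b⟩ := choose_k1 (C4 * C1) hB
  obtain ⟨k0, hk0a, hk0b, hk0c, hk0d⟩ := choose_k0 (C4 * C1) hB k1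
  refine ⟨k0, k1, hk0a, hk0c, hk1a, ?_⟩
  intro C2 hC2
  set W : ℝ := 2 * C2 ^ 2 + C2 * 32 ^ (k0 + 2) with hW
  have hWpos : 0 < W := by positivity
  refine ⟨min e1 (min 1 (1 / (4 * (W * C3)))), by positivity, ?_⟩
  intro e c D d X P R he0 he hc hU
  have hea : e ≤ e1 := he.trans (min_le_left _ _)
  have heb : e ≤ 1 := he.trans ((min_le_right _ _).trans (min_le_left _ _))
  have hec : e ≤ 1 / (4 * (W * C3)) := he.trans ((min_le_right _ _).trans (min_le_right _ _))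
  have hec' : e * W * C3 ≤ 1 / 4 := by
    have h := mul_le_mul_of_nonneg_right hec (by positivity : (0 : ℝ) ≤ W * C3)
    have e2 : 1 / (4 * (W * C3)) * (W * C3) = 1 / 4 := by field_simp
    rw [e2] at h
    linarith
  set K : ℝ := (k0 + 4) / 4 + 2 * C2 * (C2 + 4) + C2 * 32 ^ (k0 + 2) * (k0 + 4) + k1 + 4 with hK
  have hKpos : 0 < K := by positivity
  -- uniform bound
  have key : ∀ N : ℕ, c * N ≤ C2 * (1 + C3 * (1 + (2 * K + 1 / 2))) := by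
    intro N
    have hN1 : N + 1 ≤ N + k0 + 2 := by omega
    have hx := hUX C2 e c k0 k1 D d X P R he0 hea hU N (N + k0 + 2) hN1
    have hD := hU.e1 N (N + k0 + 2) hN1
    have hd := hUD C1 C2 e c k0 k1 D d X P R hC1 hC2 he0 heb hk0a hk0b hU N (N + k0 + 2) le_rfl
    have hlow : c * N ≤ ∑ n ∈ Finset.range N, avg (N + k0 + 2) (fun t => D t n) := by
      have h := Finset.sum_le_sum (fun n (_ : n ∈ Finset.range N) =>
        avg_ge (N + k0 + 2) (fun t => D t n) c (fun t ht => hU.e6 t ht n))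
      rw [Finset.sum_const, Finset.card_range, nsmul_eq_mul] at h
      linarith
    have sub01 : ∀ t ∈ Icc (0 : ℝ) 1, t ∈ Icc (-9 : ℝ) 10 := by
      intro t ht
      exact ⟨by linarith [ht.1], by linarith [ht.2]⟩
    have hx0 : 0 ≤ ∑ n ∈ Finset.range N, avg (N + k0 + 2) (fun t => X t n) :=
      Finset.sum_nonneg fun n _ => avg_nonneg _ _ fun t ht => (hU.bd t (sub01 t ht) n).2.2.1.1
    have hd0 : 0 ≤ ∑ n ∈ Finset.range N, avg (N + k0 + 2) (fun t => d t n) :=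
      Finset.sum_nonneg fun n _ => avg_nonneg _ _ fun t ht => (hU.bd t (sub01 t ht) n).2.1.1
    generalize ∑ n ∈ Finset.range N, avg (N + k0 + 2) (fun t => X t n) = Sx at *
    generalize ∑ n ∈ Finset.range N, avg (N + k0 + 2) (fun t => D t n) = SD at *
    generalize ∑ n ∈ Finset.range N, avg (N + k0 + 2) (fun t => d t n) = Sd at *
    -- coefficient of the first term
    have hq : C4 * C1 * ((2 : ℝ)⁻¹ ^ k1 + 8 ^ k1 * (2 : ℝ)⁻¹ ^ k0 * k0) ≤ 1 / 4 := by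
      rw [mul_add]
      linarith
    have hk0' : (0 : ℝ) ≤ Sd + k0 + 4 := by positivity
    have t1 := mul_le_mul_of_nonneg_right hq hk0'
    have t2 : 2 * C2 * (SD + 4) ≤ 2 * C2 * (C2 + 4) + 2 * C2 ^ 2 * e * Sx := by
      have := mul_le_mul_of_nonneg_left hD (by positivity : (0 : ℝ) ≤ 2 * C2)
      nlinarith
    have t3 : C2 * e * 32 ^ (k0 + 2) * (Sx + k0 + 4)
        ≤ C2 * 32 ^ (k0 + 2) * (k0 + 4) + C2 * 32 ^ (k0 + 2) * e * Sx := by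
      have h1 : C2 * 32 ^ (k0 + 2) * ((k0 : ℝ) + 4) * e ≤ C2 * 32 ^ (k0 + 2) * ((k0 : ℝ) + 4) * 1 :=
        mul_le_mul_of_nonneg_left heb (by positivity)
      nlinarith
    have t4 : e * W * Sx ≤ 1 / 4 * (1 + Sd) := by
      have h1 := mul_le_mul_of_nonneg_left hx (by positivity : (0 : ℝ) ≤ e * W)
      have h2 := mul_le_mul_of_nonneg_right hec' (by positivity : (0 : ℝ) ≤ 1 + Sd)
      calc e * W * Sx ≤ e * W * (C3 * (1 + Sd)) := h1
        _ = e * W * C3 * (1 + Sd) := by ring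
        _ ≤ 1 / 4 * (1 + Sd) := h2
    have t5 : e * W * Sx = 2 * C2 ^ 2 * e * Sx + C2 * 32 ^ (k0 + 2) * e * Sx := by
      rw [hW]; ring
    have t6 : Sd ≤ 2 * K + 1 / 2 := by
      rw [hK]
      rw [hK] at hKpos
      linarith
    have t7 : Sx ≤ C3 * (1 + (2 * K + 1 / 2)) :=
      hx.trans (mul_le_mul_of_nonneg_left (by linarith) hC3.le)
    have t8 : e * Sx ≤ C3 * (1 + (2 * K + 1 / 2)) := by
      have := mul_le_mul_of_nonneg_right heb hx0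
      linarith
    calc c * N ≤ SD := hlow
      _ ≤ C2 * (1 + e * Sx) := hD
      _ ≤ C2 * (1 + C3 * (1 + (2 * K + 1 / 2))) := by
        refine mul_le_mul_of_nonneg_left ?_ hC2.le
        linarith
  obtain ⟨N, hN⟩ := exists_nat_gt ((C2 * (1 + C3 * (1 + (2 * K + 1 / 2)))) / c)
  have h1 := key N
  rw [div_lt_iff₀ hc] at hN
  linarith

end Pool.Mart
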