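import Pool.Agent.Work.MP_680515_an.IfaceU

/-!
# MP_680515_an, block UD: sum of the improvement inequalities
-/

open MeasureTheory Set Filter Topology Complex

namespace Pool.Mart

namespace UD_

theorem avg_add (N : ℕ) (f g : ℝ → ℝ) : avg N (fun t => f t + g t) = avg N f + avg N g := by
  unfold avg
  rw [Finset.sum_add_distrib, mul_add]

theorem avg_mul (N : ℕ) (c : ℝ) (f : ℝ → ℝ) : avg N (fun t => c * f t) = c * avg N f := by
  unfold avg
  rw [← Finset.mul_sum]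
  ring

theorem avg_sum {ι : Type} (N : ℕ) (s : Finset ι) (f : ι → ℝ → ℝ) :
    avg N (fun t => ∑ i ∈ s, f i t) = ∑ i ∈ s, avg N (fun t => f i t) := by
  unfold avg
  rw [Finset.sum_comm, ← Finset.mul_sum]

theorem avg_const (N : ℕ) (c : ℝ) : avg N (fun _ => c) = c := by
  unfold avg
  rw [Finset.sum_const, Finset.card_range, nsmul_eq_mul, ← mul_assoc]
  push_cast
  rw [← mul_pow]
  norm_num

theorem pt_mem {N j : ℕ} (hj : j ∈ Finset.range (2 ^ N)) : (j : ℝ) * sc N ∈ Icc (0 : ℝ) 1 := by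
  rw [Finset.mem_range] at hj
  have h1 : (j : ℝ) ≤ 2 ^ N := by exact_mod_cast hj.le
  have h2 : (0 : ℝ) < sc N := by
    unfold sc
    positivity
  refine ⟨by positivity, ?_⟩
  calc (j : ℝ) * sc N ≤ 2 ^ N * sc N := mul_le_mul_of_nonneg_right h1 h2.le
    _ = 1 := by
        unfold sc
        rw [← mul_pow]
        norm_num

theorem avg_mono {N : ℕ} {f g : ℝ → ℝ} (h : ∀ t ∈ Icc (0 : ℝ) 1, f t ≤ g t) :
    avg N f ≤ avg N g := by
  unfold avg
  refine mul_le_mul_of_nonneg_left (Finset.sum_le_sum fun j hj => h _ (pt_mem hj)) (by positivity)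

theorem avg_nn {N : ℕ} {f : ℝ → ℝ} (h : ∀ t ∈ Icc (0 : ℝ) 1, 0 ≤ f t) : 0 ≤ avg N f := by
  have := avg_mono (N := N) (f := fun _ => 0) h
  rwa [avg_const] at this

theorem avg_le_one {N : ℕ} {f : ℝ → ℝ} (h : ∀ t ∈ Icc (0 : ℝ) 1, f t ≤ 1) : avg N f ≤ 1 := by
  have := avg_mono (N := N) (g := fun _ => 1) h
  rwa [avg_const] at this

theorem shift1 (b : ℕ → ℝ) (h0 : ∀ n, 0 ≤ b n) (h1 : ∀ n, b n ≤ 1) (N q : ℕ) :
    ∑ m ∈ Finset.range N, b (m + q) ≤ ∑ n ∈ Finset.range N, b n + q := by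
  induction q with
  | zero => simp
  | succ q ih =>
    have e : ∑ m ∈ Finset.range N, b (m + (q + 1)) + b (0 + q)
        = ∑ m ∈ Finset.range N, b (m + q) + b (N + q) := by
      have e1 := Finset.sum_range_succ' (fun m => b (m + q)) N
      have e2 := Finset.sum_range_succ (fun m => b (m + q)) N
      rw [e2] at e1
      rw [e1]
      congr 1
      refine Finset.sum_congr rfl fun m _ => ?_
      congr 1
      omega
    have h2 := h0 (0 + q)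
    have h3 := h1 (N + q)
    push_cast
    linarith

theorem shift (b : ℕ → ℝ) (h0 : ∀ n, 0 ≤ b n) (h1 : ∀ n, b n ≤ 1) {M N : ℕ} (hMN : M ≤ N)
    (q : ℕ) : ∑ m ∈ Finset.range M, b (m + q) ≤ ∑ n ∈ Finset.range N, b n + q := by
  refine le_trans ?_ (shift1 b h0 h1 N q)
  exact Finset.sum_le_sum_of_subset_of_nonneg (Finset.range_mono hMN) fun i _ _ => h0 _

theorem sc_sum (M : ℕ) : ∑ m ∈ Finset.range M, sc (m + 1) ≤ 1 := by
  have : ∑ m ∈ Finset.range M, sc (m + 1) + sc M = 1 := by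
    induction M with
    | zero => simp [sc]
    | succ M ih =>
      rw [Finset.sum_range_succ]
      have : sc M = 2 * sc (M + 1) := by
        unfold sc
        rw [pow_succ]
        ring
      linarith
  have h : 0 < sc M := by
    unfold sc
    positivity
  linarith

theorem geom4 (K : ℕ) (hK : 3 ≤ K) : ∑ k ∈ Finset.Icc 3 K, (4 : ℝ)⁻¹ ^ k ≤ 1 / 48 := by
  have h : ∑ k ∈ Finset.Icc 3 K, (4 : ℝ)⁻¹ ^ k + (4 : ℝ)⁻¹ ^ K / 3 = 1 / 48 := by
    induction K, hK using Nat.le_induction with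
    | base => norm_num
    | succ n hn ih =>
      rw [Finset.sum_Icc_succ_top (by omega), pow_succ (4 : ℝ)⁻¹]
      linarith
  have : (0 : ℝ) < (4 : ℝ)⁻¹ ^ K := by positivity
  linarith

theorem geom2 (K : ℕ) : ∑ j ∈ Finset.range K, (2 : ℝ) ^ j ≤ 2 ^ K := by
  have h : ∑ j ∈ Finset.range K, (2 : ℝ) ^ j + 1 = 2 ^ K := by
    induction K with
    | zero => simp
    | succ n ih =>
      rw [Finset.sum_range_succ, pow_succ]
      linarith
  linarith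

theorem card_sym (z : ℤ) (hz : 0 ≤ z) (k : ℕ) :
    ((Finset.Icc (-(z * 2 ^ k)) (z * 2 ^ k)).card : ℝ) ≤ (2 * z + 1) * 2 ^ k := by
  have hp : (0 : ℤ) ≤ z * 2 ^ k := by positivity
  have h1 : ((Finset.Icc (-(z * 2 ^ k)) (z * 2 ^ k)).card : ℤ) = 2 * (z * 2 ^ k) + 1 := by
    rw [Int.card_Icc, Int.toNat_of_nonneg (by linarith)]
    ring
  have h2 : ((Finset.Icc (-(z * 2 ^ k)) (z * 2 ^ k)).card : ℝ) = 2 * (z * 2 ^ k) + 1 := by
    exact_mod_cast h1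
  rw [h2]
  have : (1 : ℝ) ≤ 2 ^ k := one_le_pow₀ (by norm_num)
  linarith

theorem abs_sym {z i : ℤ} {k : ℕ} (hi : i ∈ Finset.Icc (-(z * 2 ^ k)) (z * 2 ^ k)) :
    |(i : ℝ)| ≤ z * 2 ^ k := by
  rw [Finset.mem_Icc] at hi
  rw [abs_le]
  constructor
  · exact_mod_cast hi.1
  · exact_mod_cast hi.2

theorem sc_mul (n k : ℕ) : sc (n + k) = sc n * (2 : ℝ)⁻¹ ^ k := by
  unfold sc
  rw [pow_add]

/-- Bound of the shift. -/
theorem shift_bd {c : ℝ} {n k : ℕ} {i : ℤ} (hi : |(i : ℝ)| ≤ c * 2 ^ k) :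
    |(i : ℝ) * sc (n + k)| ≤ c * sc n := by
  have h2 : (0 : ℝ) < sc (n + k) := by
    unfold sc
    positivity
  rw [abs_mul, abs_of_pos h2]
  calc |(i : ℝ)| * sc (n + k) ≤ c * 2 ^ k * sc (n + k) := mul_le_mul_of_nonneg_right hi h2.le
    _ = c * sc n * (2 ^ k * (2 : ℝ)⁻¹ ^ k) := by rw [sc_mul]; ring
    _ = c * sc n := by
        rw [← mul_pow]
        norm_num

theorem sc_le {n : ℕ} (hn : 1 ≤ n) : sc n ≤ 1 / 2 := by
  unfold sc
  have : (2 : ℝ)⁻¹ ^ n ≤ (2 : ℝ)⁻¹ ^ 1 := pow_le_pow_of_le_one (by norm_num) (by norm_num) hn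
  norm_num at this ⊢
  linarith

theorem sc_pos (n : ℕ) : 0 < sc n := by
  unfold sc
  positivity

/-- Inner sum of the improvement inequality. -/
theorem inner_bd (hSHF : Stmt_SHF) {N' n k : ℕ} {z : ℤ} (hz : 0 ≤ z) (hz9 : (z : ℝ) ≤ 18)
    (hn : 1 ≤ n) (hnk : n + k ≤ N') (g : ℝ → ℝ) (hg : ∀ t ∈ Icc (-9 : ℝ) 10, 0 ≤ g t ∧ g t ≤ 1) :
    ∑ i ∈ Finset.Icc (-(z * 2 ^ k)) (z * 2 ^ k), avg N' (fun t => g (t + i * sc (n + k)))
      ≤ (2 * z + 1) * 2 ^ k * (avg N' g + z * sc n) := by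
  have hz0 : (0 : ℝ) ≤ z := by exact_mod_cast hz
  have hsn := sc_le hn
  have hsp := sc_pos n
  have h1 : ∀ i ∈ Finset.Icc (-(z * 2 ^ k)) (z * 2 ^ k),
      avg N' (fun t => g (t + i * sc (n + k))) ≤ avg N' g + z * sc n := by
    intro i hi
    have h2 := shift_bd (n := n) (abs_sym hi)
    have h3 : (z : ℝ) * sc n ≤ 9 := by nlinarith
    have h4 := (hSHF N' (n + k) i g 1 hnk (h2.trans h3) hg).1
    linarith
  have h2 := Finset.sum_le_card_nsmul _ _ _ h1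
  rw [nsmul_eq_mul] at h2
  refine h2.trans ?_
  refine mul_le_mul_of_nonneg_right (card_sym z hz k) ?_
  have h5 : 0 ≤ avg N' g := avg_nn fun t ht => (hg t ⟨by linarith [ht.1], by linarith [ht.2]⟩).1
  positivity

theorem sum_w (b : ℕ → ℝ) (h0 : ∀ n, 0 ≤ b n) (h1 : ∀ n, b n ≤ 1) {M N : ℕ} (hMN : M ≤ N)
    (s : Finset ℕ) (w : ℕ → ℝ) (hw : ∀ k ∈ s, 0 ≤ w k) (q : ℕ → ℕ) (Q : ℝ)
    (hq : ∀ k ∈ s, (q k : ℝ) ≤ Q) (z : ℝ) (hz : 0 ≤ z) :
    ∑ m ∈ Finset.range M, ∑ k ∈ s, w k * (b (m + q k) + z * sc (m + 1))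
      ≤ (∑ k ∈ s, w k) * (∑ n ∈ Finset.range N, b n + Q + z) := by
  rw [Finset.sum_comm, Finset.sum_mul]
  refine Finset.sum_le_sum fun k hk => ?_
  rw [← Finset.mul_sum]
  refine mul_le_mul_of_nonneg_left ?_ (hw k hk)
  rw [Finset.sum_add_distrib, ← Finset.mul_sum]
  have h2 := shift b h0 h1 hMN (q k)
  have h3 := hq k hk
  have h4 := mul_le_mul_of_nonneg_left (sc_sum M) hz
  linarith

theorem fin_num {C1 C2 e al be k0 k1 S SB SX L T1 TB Sc W1 W2 W3 p2 p32 : ℝ} (hC1 : 0 < C1)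
    (hC2 : 0 < C2) (he : 0 ≤ e) (hal : 0 ≤ al) (hbe : 0 ≤ be) (hk0 : 3 ≤ k0)
    (hS : 0 ≤ S) (hSX : 0 ≤ SX) (hL : S ≤ (k1 + 1) + L)
    (hsum : L ≤ C1 * (al * (T1 + W1) + be * (T1 + W2)) + C2 * (2 * TB + Sc) + C2 * e * W3 + Sc)
    (hT1 : T1 ≤ S + 1) (hTB : TB ≤ SB + 1) (hSc : Sc ≤ 1)
    (hW1 : W1 ≤ 17 / 48 * (S + (k0 + 1) + 8)) (hW2 : W2 ≤ 17 * k0 * (S + (k0 + 1) + 8))
    (hW3 : W3 ≤ 25 * p2 * (SX + (k0 + 1) + 12)) (hp2 : 0 ≤ p2) (hp : 100 * p2 ≤ p32) :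
    S ≤ 40 * C1 * (al + be * k0) * (S + k0 + 4) + 2 * C2 * (SB + 4)
      + C2 * e * p32 * (SX + k0 + 4) + k1 + 4 := by
  have h1 : T1 + W1 ≤ 40 * (S + k0 + 4) := by linarith
  have h2 : T1 + W2 ≤ 40 * k0 * (S + k0 + 4) := by nlinarith
  have h3 : W3 ≤ p32 * (SX + k0 + 4) := by
    have e1 : 25 * p2 * (SX + (k0 + 1) + 12) ≤ 100 * p2 * (SX + k0 + 4) := by nlinarith
    have e2 : 100 * p2 * (SX + k0 + 4) ≤ p32 * (SX + k0 + 4) :=
      mul_le_mul_of_nonneg_right hp (by linarith)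
    linarith
  have g1 := mul_le_mul_of_nonneg_left h1 hal
  have g2 := mul_le_mul_of_nonneg_left h2 hbe
  have g3 := mul_le_mul_of_nonneg_left (add_le_add g1 g2) hC1.le
  have g4 : C2 * (2 * TB + Sc) ≤ C2 * (2 * (SB + 4)) :=
    mul_le_mul_of_nonneg_left (by linarith) hC2.le
  have g5 := mul_le_mul_of_nonneg_left h3 (mul_nonneg hC2.le he)
  have g6 : C1 * (al * (40 * (S + k0 + 4)) + be * (40 * k0 * (S + k0 + 4)))
      = 40 * C1 * (al + be * k0) * (S + k0 + 4) := by ring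
  have g7 : C2 * e * (p32 * (SX + k0 + 4)) = C2 * e * p32 * (SX + k0 + 4) := by ring
  linarith

end UD_

open UD_ in
theorem stmt_UD (hSHF : Stmt_SHF) : Stmt_UD := by
  refine ⟨40, by norm_num, ?_⟩
  intro C1 C2 e c k0 k1 D d X P R hC1 hC2 he he1 hk0 hk1 hU N N' hN
  have hbd := hU.bd
  have hin : ∀ {t : ℝ}, t ∈ Icc (0 : ℝ) 1 → t ∈ Icc (-9 : ℝ) 10 := fun ht =>
    ⟨by linarith [ht.1], by linarith [ht.2]⟩
  set a : ℕ → ℝ := fun n => avg N' (fun t => d t n) with ha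
  set b : ℕ → ℝ := fun n => avg N' (fun t => D t n) with hb
  set x : ℕ → ℝ := fun n => avg N' (fun t => X t n) with hx
  have ha0 : ∀ n, 0 ≤ a n := fun n => avg_nn fun t ht => (hbd t (hin ht) n).2.1.1
  have ha1 : ∀ n, a n ≤ 1 := fun n => avg_le_one fun t ht => (hbd t (hin ht) n).2.1.2
  have hb0 : ∀ n, 0 ≤ b n := fun n => avg_nn fun t ht => (hbd t (hin ht) n).1.1
  have hb1 : ∀ n, b n ≤ 1 := fun n => avg_le_one fun t ht => (hbd t (hin ht) n).1.2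
  have hx0 : ∀ n, 0 ≤ x n := fun n => avg_nn fun t ht => (hbd t (hin ht) n).2.2.1.1
  have hx1 : ∀ n, x n ≤ 1 := fun n => avg_le_one fun t ht => (hbd t (hin ht) n).2.2.1.2
  set al : ℝ := (2 : ℝ)⁻¹ ^ k1 with hal
  set be : ℝ := 8 ^ k1 * (2 : ℝ)⁻¹ ^ k0 with hbe
  have hal0 : 0 ≤ al := by positivity
  have hbe0 : 0 ≤ be := by positivity
  -- the averaged inequality
  have key : ∀ m : ℕ, m + 1 < N → a (m + (k1 + 1)) ≤ C1 * (al * (a (m + 1) +
      ∑ k ∈ Finset.Icc 3 k0, 17 * (4 : ℝ)⁻¹ ^ k * (a (m + (k + 1)) + 8 * sc (m + 1)))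
      + be * (a (m + 1) + ∑ k ∈ Finset.Icc 3 k0, 17 * (a (m + (k + 1)) + 8 * sc (m + 1))))
      + C2 * (2 * b (m + 1) + sc (m + 1))
      + C2 * e * (∑ j ∈ Finset.range (k0 + 2), 25 * 2 ^ j * (x (m + j) + 12 * sc (m + 1)))
      + sc (m + 1) := by
    intro m hm
    have h1 := avg_mono (N := N') (fun t ht => hU.e2 t ht (m + 1) (by omega))
    simp only [avg_add, avg_mul, avg_sum, avg_const] at h1
    have hA : ∀ k ∈ Finset.Icc 3 k0, ∑ i ∈ IX k,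
        avg N' (fun t => d (t + i * sc (m + 1 + k)) (m + 1 + k))
        ≤ 17 * 2 ^ k * (a (m + (k + 1)) + 8 * sc (m + 1)) := by
      intro k hk
      have hkk := (Finset.mem_Icc.1 hk).2
      have h2 := inner_bd hSHF (z := 8) (N' := N') (n := m + 1) (k := k) (by norm_num)
        (by norm_num) (by omega) (by omega) (fun t => d t (m + 1 + k))
        (fun t ht => (hbd t ht (m + 1 + k)).2.1)
      have h3 : m + (k + 1) = m + 1 + k := by omega
      rw [h3]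
      unfold IX
      refine h2.trans (le_of_eq ?_)
      simp only [ha]
      norm_num
    have hB1 : ∑ k ∈ Finset.Icc 3 k0, (8 : ℝ)⁻¹ ^ k * ∑ i ∈ IX k,
        avg N' (fun t => d (t + i * sc (m + 1 + k)) (m + 1 + k))
        ≤ ∑ k ∈ Finset.Icc 3 k0, 17 * (4 : ℝ)⁻¹ ^ k * (a (m + (k + 1)) + 8 * sc (m + 1)) := by
      refine Finset.sum_le_sum fun k hk => ?_
      have h2 := mul_le_mul_of_nonneg_left (hA k hk)
        (by positivity : (0 : ℝ) ≤ (8 : ℝ)⁻¹ ^ k)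
      refine h2.trans (le_of_eq ?_)
      have h4 : (4 : ℝ)⁻¹ ^ k = (8 : ℝ)⁻¹ ^ k * 2 ^ k := by
        rw [← mul_pow]
        norm_num
      rw [h4]
      ring
    have hB2 : ∑ k ∈ Finset.Icc 3 k0, (2 : ℝ)⁻¹ ^ k * ∑ i ∈ IX k,
        avg N' (fun t => d (t + i * sc (m + 1 + k)) (m + 1 + k))
        ≤ ∑ k ∈ Finset.Icc 3 k0, 17 * (a (m + (k + 1)) + 8 * sc (m + 1)) := by
      refine Finset.sum_le_sum fun k hk => ?_
      have h2 := mul_le_mul_of_nonneg_left (hA k hk)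
        (by positivity : (0 : ℝ) ≤ (2 : ℝ)⁻¹ ^ k)
      refine h2.trans (le_of_eq ?_)
      have h4 : (2 : ℝ)⁻¹ ^ k * 2 ^ k = 1 := by
        rw [← mul_pow]
        norm_num
      linear_combination (17 * (a (m + (k + 1)) + 8 * sc (m + 1))) * h4
    have hD : avg N' (fun t => D (t + sc (m + 1)) (m + 1)) ≤ b (m + 1) + sc (m + 1) := by
      have h2 := (hSHF N' (m + 1) 1 (fun t => D t (m + 1)) 1 (by omega)
        (by
          have := sc_le (n := m + 1) (by omega)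
          have h3 := sc_pos (m + 1)
          rw [Int.cast_one, one_mul, abs_of_pos h3]
          linarith) (fun t ht => (hbd t ht (m + 1)).1)).1
      rw [Int.cast_one, one_mul, abs_of_pos (sc_pos _), mul_one] at h2
      exact h2
    have hX : ∑ j ∈ Finset.range (k0 + 2), ∑ i ∈ Finset.Icc (-(12 * 2 ^ j) : ℤ) (12 * 2 ^ j),
        avg N' (fun t => X (t + i * sc (m + 1 + j)) (m + 1 - 1 + j))
        ≤ ∑ j ∈ Finset.range (k0 + 2), 25 * 2 ^ j * (x (m + j) + 12 * sc (m + 1)) := by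
      refine Finset.sum_le_sum fun j hj => ?_
      have hjj := Finset.mem_range.1 hj
      have h2 := inner_bd hSHF (z := 12) (N' := N') (n := m + 1) (k := j) (by norm_num)
        (by norm_num) (by omega) (by omega) (fun t => X t (m + 1 - 1 + j))
        (fun t ht => (hbd t ht (m + 1 - 1 + j)).2.2.1)
      refine h2.trans (le_of_eq ?_)
      simp only [hx, Nat.add_sub_cancel]
      norm_num
    have h5 : m + (k1 + 1) = m + 1 + k1 := by omega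
    rw [h5]
    refine h1.trans ?_
    have g1 : al * (a (m + 1) + ∑ k ∈ Finset.Icc 3 k0, (8 : ℝ)⁻¹ ^ k * ∑ i ∈ IX k,
        avg N' (fun t => d (t + i * sc (m + 1 + k)) (m + 1 + k))) ≤ al * (a (m + 1) +
        ∑ k ∈ Finset.Icc 3 k0, 17 * (4 : ℝ)⁻¹ ^ k * (a (m + (k + 1)) + 8 * sc (m + 1))) :=
      mul_le_mul_of_nonneg_left (add_le_add le_rfl hB1) hal0
    have g2 : be * (a (m + 1) + ∑ k ∈ Finset.Icc 3 k0, (2 : ℝ)⁻¹ ^ k * ∑ i ∈ IX k,
        avg N' (fun t => d (t + i * sc (m + 1 + k)) (m + 1 + k))) ≤ be * (a (m + 1) +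
        ∑ k ∈ Finset.Icc 3 k0, 17 * (a (m + (k + 1)) + 8 * sc (m + 1))) :=
      mul_le_mul_of_nonneg_left (add_le_add le_rfl hB2) hbe0
    have g3 := mul_le_mul_of_nonneg_left (add_le_add g1 g2) hC1.le
    have g4 := mul_le_mul_of_nonneg_left (add_le_add (le_refl (b (m + 1))) hD) hC2.le
    have g5 := mul_le_mul_of_nonneg_left hX (mul_nonneg hC2.le he)
    have g6 : C2 * (b (m + 1) + (b (m + 1) + sc (m + 1))) = C2 * (2 * b (m + 1) + sc (m + 1)) := by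
      ring
    rw [g6] at g4
    exact add_le_add (add_le_add (add_le_add g3 g4) g5) le_rfl
  have hS0 : 0 ≤ ∑ n ∈ Finset.range N, a n := Finset.sum_nonneg fun n _ => ha0 n
  have hSB0 : 0 ≤ ∑ n ∈ Finset.range N, b n := Finset.sum_nonneg fun n _ => hb0 n
  have hSX0 : 0 ≤ ∑ n ∈ Finset.range N, x n := Finset.sum_nonneg fun n _ => hx0 n
  obtain rfl | ⟨M, rfl⟩ : N = 0 ∨ ∃ M, N = M + 1 := by
    cases N with
    | zero => exact Or.inl rfl
    | succ M => exact Or.inr ⟨M, rfl⟩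
  · simp only [Finset.range_zero, Finset.sum_empty, zero_add]
    positivity
  have hk0r : (3 : ℝ) ≤ k0 := by exact_mod_cast hk0
  -- left side
  have hL : ∑ n ∈ Finset.range (M + 1), a n ≤ (k1 + 1) + ∑ m ∈ Finset.range M, a (m + (k1 + 1)) := by
    have h1 : ∑ n ∈ Finset.range (M + 1), a n ≤ ∑ n ∈ Finset.range (k1 + 1 + M), a n :=
      Finset.sum_le_sum_of_subset_of_nonneg (Finset.range_mono (by omega)) fun i _ _ => ha0 _
    rw [Finset.sum_range_add a (k1 + 1) M] at h1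
    have h2 : ∑ n ∈ Finset.range (k1 + 1), a n ≤ k1 + 1 := by
      have := Finset.sum_le_card_nsmul (Finset.range (k1 + 1)) a 1 (fun n _ => ha1 n)
      rw [Finset.card_range, nsmul_eq_mul, mul_one] at this
      exact_mod_cast this
    have h3 : ∑ m ∈ Finset.range M, a (k1 + 1 + m) = ∑ m ∈ Finset.range M, a (m + (k1 + 1)) :=
      Finset.sum_congr rfl fun m _ => by rw [add_comm]
    rw [h3] at h1
    linarith
  have hT1 := shift a ha0 ha1 (Nat.le_succ M) 1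
  have hTB := shift b hb0 hb1 (Nat.le_succ M) 1
  have hSc := sc_sum M
  have hW1 := sum_w a ha0 ha1 (Nat.le_succ M) (Finset.Icc 3 k0) (fun k => 17 * (4 : ℝ)⁻¹ ^ k)
    (fun k _ => by positivity) (fun k => k + 1) (k0 + 1)
    (fun k hk => by
      have := (Finset.mem_Icc.1 hk).2
      exact_mod_cast Nat.succ_le_succ this) 8 (by norm_num)
  have hW2 := sum_w a ha0 ha1 (Nat.le_succ M) (Finset.Icc 3 k0) (fun k => 17)
    (fun k _ => by positivity) (fun k => k + 1) (k0 + 1)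
    (fun k hk => by
      have := (Finset.mem_Icc.1 hk).2
      exact_mod_cast Nat.succ_le_succ this) 8 (by norm_num)
  have hW3 := sum_w x hx0 hx1 (Nat.le_succ M) (Finset.range (k0 + 2)) (fun j => 25 * 2 ^ j)
    (fun k _ => by positivity) (fun j => j) (k0 + 1)
    (fun k hk => by
      have := Finset.mem_range.1 hk
      exact_mod_cast Nat.lt_succ_iff.1 this) 12 (by norm_num)
  have hg4 : ∑ k ∈ Finset.Icc 3 k0, 17 * (4 : ℝ)⁻¹ ^ k ≤ 17 / 48 := by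
    rw [← Finset.mul_sum]
    linarith [geom4 k0 hk0]
  have hg1 : ∑ k ∈ Finset.Icc 3 k0, (17 : ℝ) ≤ 17 * k0 := by
    rw [Finset.sum_const, nsmul_eq_mul, Nat.card_Icc]
    have : ((k0 + 1 - 3 : ℕ) : ℝ) ≤ k0 := by
      exact_mod_cast (by omega : k0 + 1 - 3 ≤ k0)
    linarith
  have hg2 : ∑ j ∈ Finset.range (k0 + 2), 25 * (2 : ℝ) ^ j ≤ 25 * 2 ^ (k0 + 2) := by
    rw [← Finset.mul_sum]
    linarith [geom2 (k0 + 2)]
  change ∑ n ∈ Finset.range (M + 1), a n ≤ 40 * C1 * (al + be * k0)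
    * (∑ n ∈ Finset.range (M + 1), a n + k0 + 4) + 2 * C2 * (∑ n ∈ Finset.range (M + 1), b n + 4)
    + C2 * e * 32 ^ (k0 + 2) * (∑ n ∈ Finset.range (M + 1), x n + k0 + 4) + k1 + 4
  obtain ⟨W1, hW1d⟩ : ∃ W : ℕ → ℝ, W = fun m => ∑ k ∈ Finset.Icc 3 k0,
    17 * (4 : ℝ)⁻¹ ^ k * (a (m + (k + 1)) + 8 * sc (m + 1)) := ⟨_, rfl⟩
  obtain ⟨W2, hW2d⟩ : ∃ W : ℕ → ℝ, W = fun m => ∑ k ∈ Finset.Icc 3 k0,
    17 * (a (m + (k + 1)) + 8 * sc (m + 1)) := ⟨_, rfl⟩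
  obtain ⟨W3, hW3d⟩ : ∃ W : ℕ → ℝ, W = fun m => ∑ j ∈ Finset.range (k0 + 2),
    25 * 2 ^ j * (x (m + j) + 12 * sc (m + 1)) := ⟨_, rfl⟩
  have hsum : ∑ m ∈ Finset.range M, a (m + (k1 + 1)) ≤ ∑ m ∈ Finset.range M,
      (C1 * (al * (a (m + 1) + W1 m) + be * (a (m + 1) + W2 m))
      + C2 * (2 * b (m + 1) + sc (m + 1)) + C2 * e * W3 m + sc (m + 1)) := by
    refine Finset.sum_le_sum fun m hm => ?_
    rw [hW1d, hW2d, hW3d]
    exact key m (by have := Finset.mem_range.1 hm; omega)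
  simp only [Finset.sum_add_distrib, ← Finset.mul_sum] at hsum
  replace hW1 : ∑ m ∈ Finset.range M, W1 m ≤ (∑ k ∈ Finset.Icc 3 k0, 17 * (4 : ℝ)⁻¹ ^ k)
      * (∑ n ∈ Finset.range (M + 1), a n + ((k0 : ℝ) + 1) + 8) := by
    rw [hW1d]
    exact hW1
  replace hW2 : ∑ m ∈ Finset.range M, W2 m ≤ (∑ k ∈ Finset.Icc 3 k0, (17 : ℝ))
      * (∑ n ∈ Finset.range (M + 1), a n + ((k0 : ℝ) + 1) + 8) := by
    rw [hW2d]
    exact hW2
  replace hW3 : ∑ m ∈ Finset.range M, W3 m ≤ (∑ j ∈ Finset.range (k0 + 2), 25 * (2 : ℝ) ^ j)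
      * (∑ n ∈ Finset.range (M + 1), x n + ((k0 : ℝ) + 1) + 12) := by
    rw [hW3d]
    exact hW3
  have hQa : 0 ≤ ∑ n ∈ Finset.range (M + 1), a n + ((k0 : ℝ) + 1) + 8 := by positivity
  have hQx : 0 ≤ ∑ n ∈ Finset.range (M + 1), x n + ((k0 : ℝ) + 1) + 12 := by positivity
  replace hW1 := hW1.trans (mul_le_mul_of_nonneg_right hg4 hQa)
  replace hW2 := hW2.trans (mul_le_mul_of_nonneg_right hg1 hQa)
  replace hW3 := hW3.trans (mul_le_mul_of_nonneg_right hg2 hQx)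
  rw [Nat.cast_one] at hT1 hTB
  exact fin_num hC1 hC2 he hal0 hbe0 hk0r hS0 hSX0 hL hsum hT1 hTB hSc
    hW1 hW2 hW3 (by positivity) (by
      have h1 : (32 : ℝ) ^ (k0 + 2) = 16 ^ (k0 + 2) * 2 ^ (k0 + 2) := by
        rw [← mul_pow]
        norm_num
      have h2 : (16 : ℝ) ^ 2 ≤ 16 ^ (k0 + 2) := pow_le_pow_right₀ (by norm_num) (by omega)
      rw [h1]
      exact mul_le_mul_of_nonneg_right (by linarith) (by positivity))

end Pool.Mart
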