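import Pool.Agent.Work.MP_680515_an.IfaceU

/-!
MP_680515_an, block UX (helper81): sum of the chain inequalities.
-/

set_option autoImplicit false

namespace Pool.Mart
namespace UX_

open Set

/-- The grid points are in the unit interval. -/
theorem grid_mem (N j : ℕ) (hj : j ∈ Finset.range (2 ^ N)) :
    ((j : ℝ) * sc N) ∈ Icc (0 : ℝ) 1 := by
  have hj' : j < 2 ^ N := Finset.mem_range.1 hj
  have h1 : (j : ℝ) ≤ 2 ^ N := by exact_mod_cast hj'.le
  have hs : (0 : ℝ) < sc N := by unfold sc; positivity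
  refine ⟨by positivity, ?_⟩
  have h2 : (j : ℝ) * sc N ≤ 2 ^ N * sc N := mul_le_mul_of_nonneg_right h1 hs.le
  have h3 : (2 : ℝ) ^ N * sc N = 1 := by
    unfold sc
    rw [← mul_pow]
    norm_num
  linarith

theorem avg_mono (N : ℕ) (g h : ℝ → ℝ) (H : ∀ t ∈ Icc (0 : ℝ) 1, g t ≤ h t) :
    avg N g ≤ avg N h := by
  unfold avg
  refine mul_le_mul_of_nonneg_left ?_ (by positivity)
  exact Finset.sum_le_sum fun j hj => H _ (grid_mem N j hj)

theorem avg_const (N : ℕ) (a : ℝ) : avg N (fun _ => a) = a := by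
  unfold avg
  rw [Finset.sum_const, Finset.card_range, nsmul_eq_mul]
  push_cast
  rw [← mul_assoc, ← mul_pow]
  norm_num

theorem avg_add (N : ℕ) (g h : ℝ → ℝ) :
    avg N (fun t => g t + h t) = avg N g + avg N h := by
  unfold avg
  rw [Finset.sum_add_distrib, mul_add]

theorem avg_smul (N : ℕ) (a : ℝ) (g : ℝ → ℝ) :
    avg N (fun t => a * g t) = a * avg N g := by
  unfold avg
  rw [← Finset.mul_sum]
  ring

theorem avg_bd (N : ℕ) (g : ℝ → ℝ) (H : ∀ t ∈ Icc (0 : ℝ) 1, 0 ≤ g t ∧ g t ≤ 1) :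
    0 ≤ avg N g ∧ avg N g ≤ 1 := by
  have h0 := avg_mono N (fun _ => (0 : ℝ)) g fun t ht => (H t ht).1
  have h1 := avg_mono N g (fun _ => (1 : ℝ)) fun t ht => (H t ht).2
  rw [avg_const] at h0 h1
  exact ⟨h0, h1⟩

theorem sum_shift (N : ℕ) (g : ℕ → ℝ) (h0 : 0 ≤ g 0) (h1 : g N ≤ 1) :
    ∑ n ∈ Finset.range N, g (n + 1) ≤ ∑ n ∈ Finset.range N, g n + 1 := by
  have e1 : ∑ n ∈ Finset.range (N + 1), g n = ∑ n ∈ Finset.range N, g (n + 1) + g 0 :=
    Finset.sum_range_succ' g N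
  have e2 : ∑ n ∈ Finset.range (N + 1), g n = ∑ n ∈ Finset.range N, g n + g N :=
    Finset.sum_range_succ g N
  linarith

theorem sum_sc (N : ℕ) : ∑ n ∈ Finset.range N, sc (n + 1) ≤ 1 := by
  have h : ∀ N : ℕ, ∑ n ∈ Finset.range N, sc (n + 1) = 1 - sc N := by
    intro N
    induction N with
    | zero => simp [sc]
    | succ n ih =>
      rw [Finset.sum_range_succ, ih]
      unfold sc
      rw [pow_succ]
      ring
  rw [h N]
  have : (0 : ℝ) < sc N := by unfold sc; positivity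
  linarith

end UX_

open Set UX_ in
theorem stmt_UX (hSHF : Stmt_SHF) : Stmt_UX := by
  intro C1 hC1
  refine ⟨2 * C1 * (12 + 20 * C1), 1 / (20 * C1 ^ 2), by positivity, by positivity, ?_⟩
  intro C2 e c k0 k1 D d X P R he0 he hU N N' hNN
  have sub01 : ∀ t ∈ Icc (0 : ℝ) 1, t ∈ Icc (-9 : ℝ) 10 := by
    intro t ht
    exact ⟨by linarith [ht.1], by linarith [ht.2]⟩
  -- averages
  have bd : ∀ n, (0 ≤ avg N' (fun t => d t n) ∧ avg N' (fun t => d t n) ≤ 1) ∧
      (0 ≤ avg N' (fun t => X t n) ∧ avg N' (fun t => X t n) ≤ 1) ∧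
      (0 ≤ avg N' (fun t => P t n) ∧ avg N' (fun t => P t n) ≤ 1) ∧
      (0 ≤ avg N' (fun t => R t n) ∧ avg N' (fun t => R t n) ≤ 1) := by
    intro n
    refine ⟨avg_bd N' _ ?_, avg_bd N' _ ?_, avg_bd N' _ ?_, avg_bd N' _ ?_⟩
    · exact fun t ht => (hU.bd t (sub01 t ht) n).2.1
    · exact fun t ht => (hU.bd t (sub01 t ht) n).2.2.1
    · exact fun t ht => (hU.bd t (sub01 t ht) n).2.2.2.1
    · exact fun t ht => (hU.bd t (sub01 t ht) n).2.2.2.2
  -- e3
  have E3 : ∀ n, avg N' (fun t => P t n) ≤ 3 / 5 * avg N' (fun t => P t (n + 1))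
      + C1 * (avg N' (fun t => d t n) + avg N' (fun t => d t (n + 1)))
      + C1 * e * avg N' (fun t => X t n) := by
    intro n
    have h := avg_mono N' (fun t => P t n) (fun t => 3 / 5 * P t (n + 1)
      + C1 * (d t n + d t (n + 1)) + C1 * e * X t n) (fun t ht => hU.e3 t ht n)
    rw [avg_add N' (fun t => 3 / 5 * P t (n + 1) + C1 * (d t n + d t (n + 1)))
      (fun t => C1 * e * X t n), avg_add N' (fun t => 3 / 5 * P t (n + 1))
      (fun t => C1 * (d t n + d t (n + 1))), avg_smul, avg_smul N' C1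
      (fun t => d t n + d t (n + 1)), avg_add N' (fun t => d t n), avg_smul] at h
    exact h
  have shiftB : ∀ (Y : ℝ → ℕ → ℝ) (_ : ∀ t ∈ Icc (-9 : ℝ) 10, ∀ n, 0 ≤ Y t n ∧ Y t n ≤ 1)
      (n : ℕ), n ∈ Finset.range N →
      avg N' (fun t => Y (t + sc (n + 1)) (n + 1)) ≤ avg N' (fun t => Y t (n + 1)) + sc (n + 1) := by
    intro Y hY n hn
    have hn' : n < N := Finset.mem_range.1 hn
    have hs0 : (0 : ℝ) < sc (n + 1) := by unfold sc; positivity
    have hs1 : sc (n + 1) ≤ 1 := by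
      unfold sc
      exact pow_le_one₀ (by norm_num) (by norm_num)
    have habs : |((1 : ℤ) : ℝ) * sc (n + 1)| = sc (n + 1) := by
      rw [Int.cast_one, one_mul, abs_of_pos hs0]
    have h := (hSHF N' (n + 1) 1 (fun t => Y t (n + 1)) 1 (by omega)
      (by rw [habs]; linarith) (fun t ht => hY t ht (n + 1))).1
    rw [habs, mul_one] at h
    have e : (fun t => (fun t => Y t (n + 1)) (t + ((1 : ℤ) : ℝ) * sc (n + 1)))
        = (fun t => Y (t + sc (n + 1)) (n + 1)) := by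
      funext t
      simp only [Int.cast_one, one_mul]
    rw [e] at h
    exact h
  -- e4
  have E4 : ∀ n ∈ Finset.range N, avg N' (fun t => R t n)
      ≤ 3 / 5 * (avg N' (fun t => R t (n + 1)) + sc (n + 1))
      + C1 * (avg N' (fun t => d t n) + (avg N' (fun t => d t (n + 1)) + sc (n + 1)))
      + C1 * e * avg N' (fun t => X t n) := by
    intro n hn
    have h := avg_mono N' (fun t => R t n) (fun t => 3 / 5 * R (t + sc (n + 1)) (n + 1)
      + C1 * (d t n + d (t + sc (n + 1)) (n + 1)) + C1 * e * X t n) (fun t ht => hU.e4 t ht n)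
    rw [avg_add N' (fun t => 3 / 5 * R (t + sc (n + 1)) (n + 1)
      + C1 * (d t n + d (t + sc (n + 1)) (n + 1)))
      (fun t => C1 * e * X t n), avg_add N' (fun t => 3 / 5 * R (t + sc (n + 1)) (n + 1))
      (fun t => C1 * (d t n + d (t + sc (n + 1)) (n + 1))), avg_smul, avg_smul N' C1
      (fun t => d t n + d (t + sc (n + 1)) (n + 1)), avg_add N' (fun t => d t n), avg_smul] at h
    have hR := shiftB R (fun t ht n => (hU.bd t ht n).2.2.2.2) n hn
    have hd := shiftB d (fun t ht n => (hU.bd t ht n).2.1) n hn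
    have hd2 := mul_le_mul_of_nonneg_left hd hC1.le
    linarith
  -- e5
  have E5 : ∀ n, avg N' (fun t => X t n) ≤ C1 * (avg N' (fun t => P t n)
      + avg N' (fun t => R t n) + avg N' (fun t => P t (n + 1)) + avg N' (fun t => R t (n + 1))
      + avg N' (fun t => d t n) + avg N' (fun t => d t (n + 1))) := by
    intro n
    have h := avg_mono N' (fun t => X t n) (fun t => C1 * (P t n + R t n + P t (n + 1)
      + R t (n + 1) + d t n + d t (n + 1))) (fun t ht => hU.e5 t ht n)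
    rw [avg_smul, avg_add N' (fun t => P t n + R t n + P t (n + 1)
      + R t (n + 1) + d t n), avg_add N' (fun t => P t n + R t n + P t (n + 1)
      + R t (n + 1)), avg_add N' (fun t => P t n + R t n + P t (n + 1)),
      avg_add N' (fun t => P t n + R t n), avg_add N' (fun t => P t n)] at h
    exact h
  -- sums
  set Sp := ∑ n ∈ Finset.range N, avg N' (fun t => P t n) with hSp
  set Sr := ∑ n ∈ Finset.range N, avg N' (fun t => R t n) with hSr
  set Sx := ∑ n ∈ Finset.range N, avg N' (fun t => X t n) with hSx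
  set Sd := ∑ n ∈ Finset.range N, avg N' (fun t => d t n) with hSd
  set Sp' := ∑ n ∈ Finset.range N, avg N' (fun t => P t (n + 1)) with hSp'
  set Sr' := ∑ n ∈ Finset.range N, avg N' (fun t => R t (n + 1)) with hSr'
  set Sd' := ∑ n ∈ Finset.range N, avg N' (fun t => d t (n + 1)) with hSd'
  set Ss := ∑ n ∈ Finset.range N, sc (n + 1) with hSs
  have hp' : Sp' ≤ Sp + 1 := sum_shift N (fun n => avg N' (fun t => P t n)) (bd 0).2.2.1.1
    (bd N).2.2.1.2
  have hr' : Sr' ≤ Sr + 1 := sum_shift N (fun n => avg N' (fun t => R t n)) (bd 0).2.2.2.1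
    (bd N).2.2.2.2
  have hd' : Sd' ≤ Sd + 1 := sum_shift N (fun n => avg N' (fun t => d t n)) (bd 0).1.1
    (bd N).1.2
  have hs' : Ss ≤ 1 := sum_sc N
  have hx0 : 0 ≤ Sx := Finset.sum_nonneg fun n _ => (bd n).2.1.1
  have hd0 : 0 ≤ Sd := Finset.sum_nonneg fun n _ => (bd n).1.1
  have F3 : Sp ≤ 3 / 5 * Sp' + C1 * (Sd + Sd') + C1 * e * Sx := by
    have h := Finset.sum_le_sum (fun n (_ : n ∈ Finset.range N) => E3 n)
    rw [Finset.sum_add_distrib, Finset.sum_add_distrib, ← Finset.mul_sum, ← Finset.mul_sum,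
      ← Finset.mul_sum, Finset.sum_add_distrib] at h
    exact h
  have F4 : Sr ≤ 3 / 5 * (Sr' + Ss) + C1 * (Sd + (Sd' + Ss)) + C1 * e * Sx := by
    have h := Finset.sum_le_sum E4
    rw [Finset.sum_add_distrib, Finset.sum_add_distrib, ← Finset.mul_sum, ← Finset.mul_sum,
      ← Finset.mul_sum, Finset.sum_add_distrib, Finset.sum_add_distrib,
      Finset.sum_add_distrib] at h
    exact h
  have F5 : Sx ≤ C1 * (Sp + Sr + Sp' + Sr' + Sd + Sd') := by
    have h := Finset.sum_le_sum (fun n (_ : n ∈ Finset.range N) => E5 n)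
    rw [← Finset.mul_sum, Finset.sum_add_distrib, Finset.sum_add_distrib,
      Finset.sum_add_distrib, Finset.sum_add_distrib, Finset.sum_add_distrib] at h
    exact h
  -- absorption
  have G3 : 2 / 5 * Sp ≤ 3 / 5 + C1 * (2 * Sd + 1) + C1 * e * Sx := by
    have := mul_le_mul_of_nonneg_left hd' hC1.le
    linarith
  have G4 : 2 / 5 * Sr ≤ 6 / 5 + C1 * (2 * Sd + 2) + C1 * e * Sx := by
    have h1 := mul_le_mul_of_nonneg_left hd' hC1.le
    have h2 := mul_le_mul_of_nonneg_left hs' hC1.le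
    linarith
  have G5 : Sx ≤ C1 * (2 * Sp + 2 * Sr + 2 * Sd + 3) := by
    refine F5.trans (mul_le_mul_of_nonneg_left ?_ hC1.le)
    linarith
  have G6 : 2 * Sp + 2 * Sr + 2 * Sd + 3
      ≤ 12 + 15 * C1 + (20 * C1 + 2) * Sd + 10 * C1 * e * Sx := by
    linarith
  have G7 : Sx ≤ C1 * (12 + 15 * C1 + (20 * C1 + 2) * Sd + 10 * C1 * e * Sx) :=
    G5.trans (mul_le_mul_of_nonneg_left G6 hC1.le)
  have habs : C1 * (10 * C1 * e * Sx) ≤ 1 / 2 * Sx := by
    have h1 : e * (20 * C1 ^ 2) ≤ 1 := by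
      have := mul_le_mul_of_nonneg_right he (by positivity : (0 : ℝ) ≤ 20 * C1 ^ 2)
      rwa [one_div, inv_mul_cancel₀ (by positivity)] at this
    have h2 := mul_le_mul_of_nonneg_right h1 hx0
    nlinarith
  have G8 : Sx ≤ 2 * (C1 * (12 + 15 * C1 + (20 * C1 + 2) * Sd)) := by
    have : C1 * (12 + 15 * C1 + (20 * C1 + 2) * Sd + 10 * C1 * e * Sx)
        = C1 * (12 + 15 * C1 + (20 * C1 + 2) * Sd) + C1 * (10 * C1 * e * Sx) := by ring
    linarith
  have G9 : 12 + 15 * C1 + (20 * C1 + 2) * Sd ≤ (12 + 20 * C1) * (1 + Sd) := by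
    nlinarith
  have G10 := mul_le_mul_of_nonneg_left G9 hC1.le
  calc Sx ≤ 2 * (C1 * (12 + 15 * C1 + (20 * C1 + 2) * Sd)) := G8
    _ ≤ 2 * (C1 * ((12 + 20 * C1) * (1 + Sd))) := by linarith
    _ = 2 * C1 * (12 + 20 * C1) * (1 + Sd) := by ring

end Pool.Mart
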