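import Pool.Agent.Work.MP_680515_an.IfaceU

open MeasureTheory Set Filter Topology Complex

namespace Pool.Mart

namespace VBD_

lemma QQ_eq : QQ = measurableEquivRealProd ⁻¹' (Ioo (1 / 8 : ℝ) 9 ×ˢ Ioo (-9 : ℝ) 9) := by
  ext ζ
  simp only [QQ, Set.mem_ofPred_eq, mem_preimage, measurableEquivRealProd_apply, mem_prod,
    mem_Ioo, abs_lt]
  constructor
  · rintro ⟨h1, h2, h3, h4⟩
    exact ⟨⟨h1, h2⟩, by linarith, by linarith⟩
  · rintro ⟨⟨h1, h2⟩, h3, h4⟩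
    exact ⟨h1, h2, by linarith, by linarith⟩

lemma meas_QQ : MeasurableSet QQ := by
  rw [QQ_eq]
  exact measurableEquivRealProd.measurable (measurableSet_Ioo.prod measurableSet_Ioo)

lemma vol_QQ : volume QQ = ENNReal.ofReal ((9 - 1 / 8) * (9 - (-9))) := by
  rw [QQ_eq, volume_preserving_equiv_real_prod.measure_preimage
    (measurableSet_Ioo.prod measurableSet_Ioo).nullMeasurableSet, Measure.volume_eq_prod,
    Measure.prod_prod, Real.volume_Ioo, Real.volume_Ioo,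
    ← ENNReal.ofReal_mul (by norm_num)]

lemma constInt (c : ℝ) :
    IntegrableOn (fun _ : ℂ => c) QQ ∧ (∫ _ in QQ, c) = ((9 - 1 / 8) * (9 - (-9))) * c := by
  constructor
  · refine integrableOn_const ?_
    rw [vol_QQ]
    exact ENNReal.ofReal_ne_top
  · rw [setIntegral_const, measureReal_def, vol_QQ, ENNReal.toReal_ofReal (by norm_num),
      smul_eq_mul]

lemma QQ_norm (ζ : ℂ) (h : ζ ∈ QQ) : ‖ζ‖ ≤ 18 := by
  obtain ⟨h1, h2, h3⟩ := h
  have h4 : ‖ζ‖ ≤ |ζ.re| + |ζ.im| := Complex.norm_le_abs_re_add_abs_im ζ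
  have h5 : |ζ.re| ≤ 9 := by
    rw [abs_of_pos (by linarith)]; linarith
  linarith

lemma af_cont (a b : ℝ) : Continuous (af a b) := by
  unfold af
  fun_prop

lemma aff_cont (a b : Fin 5 → ℝ) : Continuous (aff a b) := by
  unfold aff
  refine (PiLp.continuous_toLp 2 _).comp ?_
  refine continuous_pi fun c => ?_
  exact af_cont (a c) (b c)

lemma aff_int (a b : Fin 5 → ℝ) : IntegrableOn (aff a b) QQ :=
  ((aff_cont a b).continuousOn.integrableOn_compact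
    (isCompact_closedBall (0 : ℂ) 18)).mono_set fun ζ h => by
      rw [Metric.mem_closedBall, dist_zero_right]
      exact QQ_norm ζ h

lemma comp_int {V : ℂ → C5} {s : Set ℂ} (h : IntegrableOn V s) (c : Fin 5) :
    IntegrableOn (fun ζ => V ζ c) s :=
  (EuclideanSpace.proj c : C5 →L[ℂ] ℂ).integrable_comp h

lemma comp_le (x : C5) (c : Fin 5) : ‖x c‖ ≤ ‖x‖ := PiLp.norm_apply_le x c

lemma en_le_sum (a : Fin 5 → ℝ) : en a ≤ ∑ c, |a c| := by
  rw [en, EuclideanSpace.norm_eq]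
  have h0 : ∀ c ∈ (Finset.univ : Finset (Fin 5)),
      0 ≤ ‖(WithLp.toLp 2 a : EuclideanSpace ℝ (Fin 5)) c‖ := fun c _ => norm_nonneg _
  rw [Real.sqrt_le_left (Finset.sum_nonneg fun c _ => abs_nonneg _)]
  exact Finset.sum_sq_le_sq_sum_of_nonneg h0

lemma aff_zero (ζ : ℂ) : aff 0 0 ζ = 0 := by
  ext c
  simp [aff]

end VBD_

open VBD_ in
theorem stmt_VBD (hVCO : Stmt_VCO) (hAFN : Stmt_AFN) (hWIN1 : Stmt_WIN1) : Stmt_VBD := by
  obtain ⟨c, hc, hA⟩ := hAFN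
  refine ⟨1000 + 10000 / c, 1, by positivity, one_pos, ?_⟩
  intro ε F A he _ hN
  obtain ⟨_, hb, _, hint⟩ := hVCO ε F A he hN
  have hi : ∀ a b : Fin 5 → ℝ, IntegrableOn (fun ζ => vv F ζ - aff a b ζ) QQ :=
    fun a b => hint.sub (aff_int a b)
  have hnn : ∀ p : (Fin 5 → ℝ) × (Fin 5 → ℝ), 0 ≤ ∫ ζ in QQ, ‖vv F ζ - aff p.1 p.2 ζ‖ :=
    fun p => integral_nonneg fun ζ => norm_nonneg _
  have hbdd : BddBelow (Set.range fun p : (Fin 5 → ℝ) × (Fin 5 → ℝ) =>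
      ∫ ζ in QQ, ‖vv F ζ - aff p.1 p.2 ζ‖) := ⟨0, by rintro _ ⟨p, rfl⟩; exact hnn p⟩
  have hle : ∀ a b : Fin 5 → ℝ, dd F ≤ ∫ ζ in QQ, ‖vv F ζ - aff a b ζ‖ :=
    fun a b => ciInf_le hbdd (a, b)
  have h0 : 0 ≤ dd F := Real.iInf_nonneg hnn
  have hv : (∫ ζ in QQ, ‖vv F ζ‖) ≤ 960 * ε := by
    obtain ⟨c1, c2⟩ := constInt (6 * ε)
    have h1 : (∫ ζ in QQ, ‖vv F ζ‖) ≤ ∫ _ in QQ, 6 * ε := by
      refine setIntegral_mono_on hint.norm c1 meas_QQ fun ζ hζ => ?_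
      have h2 := QQ_norm ζ hζ
      exact hb ζ (by linarith [hζ.1]) (by linarith)
    rw [c2] at h1
    linarith
  have h1 : dd F ≤ 960 * ε := by
    refine (hle 0 0).trans ?_
    simp only [aff_zero, sub_zero]
    exact hv
  have hc0 : 0 ≤ 10000 / c * ε := by positivity
  refine ⟨fun a b => ⟨hi a b, hle a b⟩, h0, by linarith, ?_⟩
  intro δ hδ hδε
  obtain ⟨⟨a, b⟩, hp⟩ := exists_lt_of_ciInf_lt (show (⨅ p : (Fin 5 → ℝ) × (Fin 5 → ℝ),
    ∫ ζ in QQ, ‖vv F ζ - aff p.1 p.2 ζ‖) < dd F + δ by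
      change dd F < dd F + δ
      linarith)
  have hp' : (∫ ζ in QQ, ‖vv F ζ - aff a b ζ‖) < dd F + δ := hp
  have haff : (∫ ζ in QQ, ‖aff a b ζ‖) ≤ 1921 * ε := by
    have h2 : (∫ ζ in QQ, ‖aff a b ζ‖) ≤ ∫ ζ in QQ, (‖vv F ζ‖ + ‖vv F ζ - aff a b ζ‖) := by
      refine setIntegral_mono (aff_int a b).norm (hint.norm.add (hi a b).norm) fun ζ => ?_
      have e : aff a b ζ = vv F ζ - (vv F ζ - aff a b ζ) := by abel
      have h3 : ‖aff a b ζ‖ ≤ ‖vv F ζ‖ + ‖vv F ζ - aff a b ζ‖ := by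
        conv_lhs => rw [e]
        exact norm_sub_le _ _
      exact h3
    have h3 := integral_add hint.norm (hi a b).norm
    rw [h3] at h2
    linarith
  have hcomp : ∀ k : Fin 5, |a k| + |b k| ≤ 1921 * ε / c := by
    intro k
    have h2 := hA (a k) (b k) 1 0 QQ one_pos meas_QQ (by
      rintro ζ ⟨h3, h4, h5⟩
      refine ⟨by linarith, by linarith, ?_⟩
      rw [sub_zero] at h5
      linarith) (comp_int (aff_int a b) k)
    have h3 : (∫ ζ in QQ, ‖af (a k) (b k) ζ‖) ≤ ∫ ζ in QQ, ‖aff a b ζ‖ := by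
      refine setIntegral_mono (comp_int (aff_int a b) k).norm (aff_int a b).norm fun ζ => ?_
      exact comp_le (aff a b ζ) k
    rw [le_div_iff₀ hc]
    have e : c * (1 ^ 2 * |a k + b k * 0| + 1 ^ 3 * |b k|) = (|a k| + |b k|) * c := by
      rw [mul_zero, add_zero]; ring
    linarith
  have hsum : ∀ x : Fin 5 → ℝ, (∀ k, |x k| ≤ 1921 * ε / c) → en x ≤ (1000 + 10000 / c) * ε := by
    intro x hx
    refine (en_le_sum x).trans ?_
    have h2 : ∑ k, |x k| ≤ ∑ _k : Fin 5, 1921 * ε / c := Finset.sum_le_sum fun k _ => hx k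
    rw [Finset.sum_const, Finset.card_univ, Fintype.card_fin, nsmul_eq_mul] at h2
    have h3 : ((5 : ℕ) : ℝ) * (1921 * ε / c) = 9605 * (ε / c) := by push_cast; ring
    have h4 : 10000 / c * ε = 10000 * (ε / c) := by ring
    have h5 : 0 ≤ ε / c := by positivity
    rw [add_mul, h4]
    linarith
  refine ⟨a, b, hp'.le, hsum a fun k => ?_, hsum b fun k => ?_⟩
  · have := hcomp k
    have := abs_nonneg (b k)
    linarith
  · have := hcomp k
    have := abs_nonneg (a k)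
    linarith

end Pool.Mart
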