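import Pool.Agent.Work.MP_680515_an.IfaceW

/-!
# MP_680515_an, block VCO: the modes of a normalised map are continuous and small
-/

open MeasureTheory Set Filter Topology Complex

namespace Pool.Mart

namespace VCO_

theorem rad_eq (x : E3) : rad x = ‖((x 0 : ℝ) : ℂ) + ((x 1 : ℝ) : ℂ) * I‖ := by
  rw [Complex.norm_add_mul_I]
  rfl

theorem rad_le (x : E3) : rad x ≤ ‖x‖ := by
  unfold rad
  rw [EuclideanSpace.norm_eq]
  apply Real.sqrt_le_sqrt
  simp only [Fin.sum_univ_three, Real.norm_eq_abs, sq_abs]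
  have := sq_nonneg (x 2)
  linarith

theorem rad_lip (x y : E3) : |rad x - rad y| ≤ ‖x - y‖ := by
  have h1 : |rad x - rad y| ≤ rad (x - y) := by
    rw [rad_eq, rad_eq, rad_eq]
    refine (abs_norm_sub_norm_le _ _).trans (le_of_eq ?_)
    congr 1
    simp only [PiLp.sub_apply]
    push_cast
    ring
  exact h1.trans (rad_le _)

theorem two_lip (x y : E3) : |x 2 - y 2| ≤ ‖x - y‖ := by
  have := EuclideanSpace.norm_eq (x - y)
  have h2 : |(x - y) 2| ≤ ‖x - y‖ := by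
    rw [← Real.norm_eq_abs]
    exact PiLp.norm_apply_le (x - y) 2
  simpa using h2

theorem cont_rad : Continuous rad := by
  unfold rad
  fun_prop

theorem cont_cyl : Continuous (fun p : ℂ × ℝ => cyl p.1 p.2) := by
  unfold cyl
  have h : Continuous (fun p : ℂ × ℝ => ![p.1.re * Real.cos p.2, p.1.re * Real.sin p.2, p.1.im]) := by
    apply continuous_pi
    intro i
    fin_cases i
    · simp; fun_prop
    · simp; fun_prop
    · simp; fun_prop
  exact (PiLp.continuous_toLp 2 _).comp h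

theorem norm_cyl (ζ : ℂ) (θ : ℝ) : ‖cyl ζ θ‖ = ‖ζ‖ := by
  rw [EuclideanSpace.norm_eq, Complex.norm_eq_sqrt_sq_add_sq]
  congr 1
  simp only [Fin.sum_univ_three, Real.norm_eq_abs, sq_abs, cyl]
  simp
  have := Real.sin_sq_add_cos_sq θ
  linear_combination (ζ.re ^ 2) * this

theorem norm_gg (h : Stmt_WIN1) {ε : ℝ} {F : E3 → E3} {A : E3 → M3} (hF : Nm ε F A) {X : E3}
    (hX : ‖X‖ < 64) : ‖gg X (F X)‖ ≤ 2 * ε := by
  obtain ⟨-, hw1, hw2, -⟩ := h
  have hc := hF.close X (by simpa using hX)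
  have h1 : |rad (F X) - rad X| ≤ ε := by
    rw [← hw1 X]
    exact (rad_lip _ _).trans hc
  have h2 : |F X 2 - X 2| ≤ ε := by
    have := (two_lip (F X) (wind X)).trans hc
    rwa [hw2 X] at this
  unfold gg
  refine (norm_add_le _ _).trans ?_
  rw [norm_mul, Complex.norm_I, mul_one, Complex.norm_real, Complex.norm_real, Real.norm_eq_abs,
    Real.norm_eq_abs]
  linarith

theorem cont_gg : Continuous (fun p : E3 × E3 => gg p.1 p.2) := by
  unfold gg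
  have := cont_rad
  fun_prop

theorem kap_cont (k : Fin 5) : Continuous (fun θ => (kap k θ : ℂ)) := by
  fin_cases k <;> · simp [kap]; try fun_prop

theorem kap_le (k : Fin 5) (θ : ℝ) : ‖(kap k θ : ℂ)‖ ≤ 1 := by
  rw [Complex.norm_real, Real.norm_eq_abs]
  fin_cases k
  · simp [kap]
  · simpa [kap] using Real.abs_cos_le_one θ
  · simpa [kap] using Real.abs_sin_le_one θ
  · simpa [kap] using Real.abs_cos_le_one (2 * θ)
  · simpa [kap] using Real.abs_sin_le_one (2 * θ)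

theorem cst_norm (k : Fin 5) : ‖cst k‖ = 1 := by
  fin_cases k <;> simp [cst]

/-- the domain -/
def DD0 : Set ℂ := {ζ | 0 ≤ ζ.re ∧ ‖ζ‖ < 64}

theorem cont_int {ε : ℝ} {F : E3 → E3} {A : E3 → M3} (hF : Nm ε F A) (k : Fin 5) :
    Continuous (fun p : DD0 × ℝ => (kap k p.2 : ℂ) * gg (cyl p.1 p.2) (F (cyl p.1 p.2))) := by
  have h1 : Continuous (fun p : DD0 × ℝ => cyl p.1 p.2) :=
    cont_cyl.comp (by fun_prop : Continuous (fun p : DD0 × ℝ => ((p.1 : ℂ), p.2)))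
  have h2 : Continuous (fun p : DD0 × ℝ => F (cyl p.1 p.2)) := by
    refine hF.cont.comp_continuous h1 fun p => ?_
    rw [mem_ball_zero_iff, norm_cyl]
    exact p.1.2.2
  have h3 : Continuous (fun p : DD0 × ℝ => gg (cyl p.1 p.2) (F (cyl p.1 p.2))) :=
    cont_gg.comp (h1.prodMk h2)
  exact ((kap_cont k).comp continuous_snd).mul h3

theorem cont_vv {ε : ℝ} {F : E3 → E3} {A : E3 → M3} (hF : Nm ε F A) :
    ContinuousOn (vv F) DD0 := by
  rw [continuousOn_iff_continuous_domRestrict]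
  have h : ∀ k : Fin 5, Continuous (fun ζ : DD0 => cst k * ((2 * Real.pi)⁻¹ : ℝ) *
      ∫ θ in (0 : ℝ)..(2 * Real.pi), (kap k θ : ℂ) * gg (cyl ζ θ) (F (cyl ζ θ))) := by
    intro k
    refine continuous_const.mul ?_
    exact intervalIntegral.continuous_parametric_intervalIntegral_of_continuous'
      (f := fun (ζ : DD0) (θ : ℝ) => (kap k θ : ℂ) * gg (cyl ζ θ) (F (cyl ζ θ))) (cont_int hF k) _ _
  exact (PiLp.continuous_toLp 2 _).comp (continuous_pi h)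

theorem norm_vv (h : Stmt_WIN1) {ε : ℝ} (hε : 0 ≤ ε) {F : E3 → E3} {A : E3 → M3} (hF : Nm ε F A)
    (ζ : ℂ) (hζ : ‖ζ‖ < 64) : ‖vv F ζ‖ ≤ 6 * ε := by
  have hk : ∀ k : Fin 5, ‖vv F ζ k‖ ≤ 2 * ε := by
    intro k
    have e : vv F ζ k = cst k * ((2 * Real.pi)⁻¹ : ℝ) *
        ∫ θ in (0 : ℝ)..(2 * Real.pi), (kap k θ : ℂ) * gg (cyl ζ θ) (F (cyl ζ θ)) := rfl
    rw [e, norm_mul, norm_mul, cst_norm, one_mul]
    have hb : ‖∫ θ in (0 : ℝ)..(2 * Real.pi), (kap k θ : ℂ) * gg (cyl ζ θ) (F (cyl ζ θ))‖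
        ≤ (2 * ε) * |2 * Real.pi - 0| := by
      apply intervalIntegral.norm_integral_le_of_norm_le_const
      intro θ _
      rw [norm_mul]
      calc ‖(kap k θ : ℂ)‖ * ‖gg (cyl ζ θ) (F (cyl ζ θ))‖ ≤ 1 * (2 * ε) := by
            gcongr
            · exact kap_le k θ
            · exact norm_gg h hF (by rw [norm_cyl]; exact hζ)
        _ = 2 * ε := one_mul _
    have hpi : 0 < 2 * Real.pi := by positivity
    rw [sub_zero, abs_of_pos hpi] at hb
    rw [Complex.norm_real, Real.norm_eq_abs, abs_of_pos (by positivity)]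
    calc (2 * Real.pi)⁻¹ * _ ≤ (2 * Real.pi)⁻¹ * (2 * ε * (2 * Real.pi)) := by gcongr
      _ = 2 * ε := by field_simp
  rw [EuclideanSpace.norm_eq]
  apply Real.sqrt_le_iff.2
  refine ⟨by positivity, ?_⟩
  calc ∑ k : Fin 5, ‖vv F ζ k‖ ^ 2 ≤ ∑ k : Fin 5, (2 * ε) ^ 2 := by
        apply Finset.sum_le_sum
        intro k _
        have := hk k
        gcongr
    _ = 20 * ε ^ 2 := by simp; ring
    _ ≤ (6 * ε) ^ 2 := by nlinarith [sq_nonneg ε]

theorem int_vv {ε : ℝ} {F : E3 → E3} {A : E3 → M3} (hF : Nm ε F A) (U : Set ℂ)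
    (hU : U ⊆ {ζ | 0 ≤ ζ.re ∧ ‖ζ‖ ≤ 20}) : IntegrableOn (vv F) U := by
  have hc : IsCompact {ζ : ℂ | 0 ≤ ζ.re ∧ ‖ζ‖ ≤ 20} := by
    have h1 : {ζ : ℂ | 0 ≤ ζ.re ∧ ‖ζ‖ ≤ 20} = {ζ : ℂ | 0 ≤ ζ.re} ∩ Metric.closedBall 0 20 := by
      ext ζ; simp
    rw [h1]
    exact (isCompact_closedBall (0 : ℂ) 20).inter_left
      (isClosed_le continuous_const Complex.continuous_re)
  have h2 : ContinuousOn (vv F) {ζ : ℂ | 0 ≤ ζ.re ∧ ‖ζ‖ ≤ 20} :=
    (cont_vv hF).mono fun ζ hζ => ⟨hζ.1, lt_of_le_of_lt hζ.2 (by norm_num)⟩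
  exact (h2.integrableOn_compact hc).mono_set hU

end VCO_

open VCO_ in
theorem stmt_VCO (hWIN1 : Stmt_WIN1) : Stmt_VCO := by
  intro ε F A hε hF
  refine ⟨cont_vv hF, fun ζ _ hζ => norm_vv hWIN1 hε hF ζ hζ, fun ρ hρ => ?_, ?_⟩
  · exact int_vv hF _ fun ζ hζ => ⟨(hρ.trans hζ.1).le, hζ.2.le⟩
  · refine int_vv hF _ fun ζ hζ => ⟨by have := hζ.1; linarith, ?_⟩
    have h1 := Complex.norm_le_abs_re_add_abs_im ζ
    obtain ⟨h2, h3, h4⟩ := hζ
    rw [abs_of_pos (by linarith : (0 : ℝ) < ζ.re)] at h1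
    linarith

end Pool.Mart
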