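import Pool.Agent.Work.MP_680515_an.IfaceS

/-!
# MP_680515_an, block WAF: real affine functions are holomorphic
-/

open MeasureTheory Set Filter Topology Complex

namespace Pool.Mart

namespace WAF_

theorem hasFDerivAt_af (a b : ℝ) (ζ : ℂ) :
    HasFDerivAt (af a b) (((b : ℂ) * (-I)) • (ContinuousLinearMap.id ℝ ℂ)) ζ := by
  have h1 : HasFDerivAt (fun z : ℂ => ((b : ℂ) * (-I)) • z)
      (((b : ℂ) * (-I)) • (ContinuousLinearMap.id ℝ ℂ)) ζ :=
    (hasFDerivAt_id (𝕜 := ℝ) ζ).const_smul ((b : ℂ) * (-I))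
  have h2 := h1.const_add (a : ℂ)
  refine h2.congr_of_eventuallyEq (Eventually.of_forall fun z => ?_)
  simp only [af, smul_eq_mul]
  ring

theorem diff_af (a b : ℝ) : Differentiable ℝ (af a b) :=
  fun ζ => (hasFDerivAt_af a b ζ).differentiableAt

theorem fderiv_af (a b : ℝ) (ζ v : ℂ) : fderiv ℝ (af a b) ζ v = (b : ℂ) * (-I) * v := by
  rw [(hasFDerivAt_af a b ζ).fderiv]
  simp

theorem cont_af (a b : ℝ) : Continuous (af a b) := (diff_af a b).continuous

/-- Continuous times compactly supported continuous is integrable. -/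
theorem int_mul {f g : ℂ → ℂ} (hf : Continuous f) (hg : Continuous g) (hc : HasCompactSupport g) :
    Integrable (fun z => f z * g z) :=
  (hf.mul hg).integrable_of_hasCompactSupport (hc.mul_left (f := f))

end WAF_

open WAF_ in
theorem stmt_WAF : Stmt_WAF := by
  intro a b ψ hψ hc
  have hcd : Continuous (fderiv ℝ ψ) := hψ.continuous_fderiv (by simp)
  have hcv : ∀ v : ℂ, Continuous (fun ζ => fderiv ℝ ψ ζ v) := fun v =>
    hcd.clm_apply continuous_const
  have hsv : ∀ v : ℂ, HasCompactSupport (fun ζ => fderiv ℝ ψ ζ v) := fun v =>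
    (hc.fderiv (𝕜 := ℝ)).comp_left (g := fun L : ℂ →L[ℝ] ℂ => L v) (by simp)
  have hI : ∀ v : ℂ, Integrable (fun ζ => af a b ζ * fderiv ℝ ψ ζ v) := fun v =>
    int_mul (cont_af a b) (hcv v) (hsv v)
  have hψi : Integrable ψ := hψ.continuous.integrable_of_hasCompactSupport hc
  have key : ∀ v : ℂ, ∫ ζ, af a b ζ * fderiv ℝ ψ ζ v = - ((b : ℂ) * (-I) * v * ∫ ζ, ψ ζ) := by
    intro v
    rw [integral_mul_fderiv_eq_neg_fderiv_mul_of_integrable (f := af a b) (g := ψ) (v := v)]
    · rw [← integral_const_mul]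
      congr 1
      refine integral_congr_ae (Eventually.of_forall fun ζ => ?_)
      simp only [fderiv_af]
    · have := hψi.const_mul ((b : ℂ) * (-I) * v)
      refine this.congr (Eventually.of_forall fun ζ => ?_)
      simp only [fderiv_af]
    · exact hI v
    · exact int_mul (cont_af a b) hψ.continuous hc
    · exact fun x _ => diff_af a b x
    · exact fun x _ => (hψ.differentiable (by simp)) x
  have e : (fun ζ => af a b ζ * dbar ψ ζ)
      = fun ζ => (1 / 2 : ℂ) * (af a b ζ * fderiv ℝ ψ ζ 1 + I * (af a b ζ * fderiv ℝ ψ ζ I)) := by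
    funext ζ
    simp only [dbar]
    ring
  have hIs : Integrable (fun ζ => af a b ζ * fderiv ℝ ψ ζ 1 + I * (af a b ζ * fderiv ℝ ψ ζ I)) :=
    (hI 1).add ((hI I).const_mul I)
  refine ⟨?_, ?_⟩
  · rw [e]
    exact hIs.const_mul _
  · rw [e, integral_const_mul, integral_add (hI 1) ((hI I).const_mul I), integral_const_mul,
      key 1, key I]
    have hI2 : I * I = -1 := Complex.I_mul_I
    linear_combination (1 / 2 : ℂ) * (-(b : ℂ) * I) * (∫ ζ, ψ ζ) * (-1) * hI2

end Pool.Mart
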