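import Pool.Agent.Work.MP_680515_an.IfaceW

open MeasureTheory Set Filter Topology Complex

namespace Pool.Mart

namespace WDB_

theorem continuous_rad : Continuous rad := by
  unfold rad
  have h : ∀ i : Fin 3, Continuous (fun x : E3 => x i) := fun i =>
    (EuclideanSpace.proj i : E3 →L[ℝ] ℝ).continuous
  exact (((h 0).pow 2).add ((h 1).pow 2)).sqrt

theorem continuous_coord (i : Fin 3) : Continuous (fun x : E3 => x i) :=
  (EuclideanSpace.proj i : E3 →L[ℝ] ℝ).continuous

theorem continuous_hp : Continuous hp := by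
  have : hp = fun X => ((rad X : ℝ) : ℂ) + ((X 2 : ℝ) : ℂ) * I := by
    funext X; apply Complex.ext <;> simp [hp]
  rw [this]
  exact (continuous_ofReal.comp continuous_rad).add
    ((continuous_ofReal.comp (continuous_coord 2)).mul continuous_const)

theorem norm_hp (X : E3) : ‖hp X‖ = ‖X‖ := by
  have h1 : ‖hp X‖ ^ 2 = ‖X‖ ^ 2 := by
    rw [Complex.sq_norm, Complex.normSq_apply, EuclideanSpace.norm_sq_eq, Fin.sum_univ_three]
    simp only [hp, rad, Real.norm_eq_abs, sq_abs]
    have : Real.sqrt (X 0 ^ 2 + X 1 ^ 2) * Real.sqrt (X 0 ^ 2 + X 1 ^ 2) = X 0 ^ 2 + X 1 ^ 2 :=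
      Real.mul_self_sqrt (by positivity)
    rw [this]; ring
  nlinarith [norm_nonneg (hp X), norm_nonneg X, sq_nonneg (‖hp X‖ - ‖X‖),
    abs_nonneg (‖hp X‖ - ‖X‖), sq_abs (‖hp X‖ - ‖X‖), mul_nonneg (norm_nonneg (hp X)) (norm_nonneg X)]

theorem continuous_cyl : Continuous (fun p : ℂ × ℝ => cyl p.1 p.2) := by
  unfold cyl
  have h : Continuous (fun p : ℂ × ℝ => ![p.1.re * Real.cos p.2, p.1.re * Real.sin p.2, p.1.im]) := by
    refine continuous_pi fun i => ?_
    fin_cases i
    · exact (continuous_re.comp continuous_fst).mul (Real.continuous_cos.comp continuous_snd)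
    · exact (continuous_re.comp continuous_fst).mul (Real.continuous_sin.comp continuous_snd)
    · exact continuous_im.comp continuous_fst
  exact (PiLp.continuous_toLp 2 (fun _ : Fin 3 => ℝ)).comp h

theorem hp_cyl {ζ : ℂ} (h : 0 ≤ ζ.re) (θ : ℝ) : hp (cyl ζ θ) = ζ := by
  apply Complex.ext
  · simp only [hp, rad, cyl]
    have : (ζ.re * Real.cos θ) ^ 2 + (ζ.re * Real.sin θ) ^ 2 = ζ.re ^ 2 := by
      nlinarith [Real.sin_sq_add_cos_sq θ]
    simp [this, Real.sqrt_sq h]
  · simp [hp, cyl]

theorem continuous_gg {F : E3 → E3} (hF : Continuous F) : Continuous (fun X => gg X (F X)) := by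
  unfold gg
  exact (continuous_ofReal.comp ((continuous_rad.comp hF).sub continuous_rad)).add
    ((continuous_ofReal.comp (((continuous_coord 2).comp hF).sub (continuous_coord 2))).mul
      continuous_const)

theorem isCompact_KR (ρ R : ℝ) : IsCompact (KR ρ R) := by
  refine Metric.isCompact_of_isClosed_isBounded ?_ ?_
  · exact (isClosed_le continuous_const continuous_rad).inter
      (isClosed_le continuous_norm continuous_const)
  · exact (Metric.isBounded_closedBall (x := (0 : E3)) (r := R)).subset fun X hX => by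
      simpa using hX.2

theorem norm_kap (k : Fin 5) (θ : ℝ) : ‖(kap k θ : ℂ)‖ ≤ 1 := by
  rw [Complex.norm_real, Real.norm_eq_abs]
  fin_cases k
  · simp [kap]
  · simpa [kap] using Real.abs_cos_le_one θ
  · simpa [kap] using Real.abs_sin_le_one θ
  · simpa [kap] using Real.abs_cos_le_one (2 * θ)
  · simpa [kap] using Real.abs_sin_le_one (2 * θ)

theorem continuous_kap (k : Fin 5) : Continuous (fun θ => (kap k θ : ℂ)) := by
  refine continuous_ofReal.comp ?_
  fin_cases k
  · have : kap 0 = fun _ => 1 := by funext θ; simp [kap]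
    simpa [this] using continuous_const
  · have : kap 1 = Real.cos := by funext θ; simp [kap]
    simpa [this] using Real.continuous_cos
  · have : kap 2 = Real.sin := by funext θ; simp [kap]
    simpa [this] using Real.continuous_sin
  · have : kap 3 = fun θ => Real.cos (2 * θ) := by funext θ; simp [kap]
    rw [show ((fun i => i) ⟨3, by norm_num⟩ : Fin 5) = 3 from rfl, this]
    exact Real.continuous_cos.comp (continuous_const.mul continuous_id)
  · have : kap 4 = fun θ => Real.sin (2 * θ) := by funext θ; simp [kap]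
    rw [show ((fun i => i) ⟨4, by norm_num⟩ : Fin 5) = 4 from rfl, this]
    exact Real.continuous_sin.comp (continuous_const.mul continuous_id)

theorem norm_cst (k : Fin 5) : ‖cst k‖ = 1 := by
  fin_cases k <;> simp [cst]

/-- difference of one mode -/
theorem modes_sub_le {G1 G2 : E3 → ℂ} {ζ : ℂ} {δ : ℝ} (k : Fin 5)
    (h1 : Continuous fun θ => G1 (cyl ζ θ)) (h2 : Continuous fun θ => G2 (cyl ζ θ))
    (hd : ∀ θ, ‖G1 (cyl ζ θ) - G2 (cyl ζ θ)‖ ≤ δ) : ‖modes G1 ζ k - modes G2 ζ k‖ ≤ δ := by
  have hpi : (0 : ℝ) < 2 * Real.pi := by positivity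
  have e : modes G1 ζ k - modes G2 ζ k = cst k * ((2 * Real.pi)⁻¹ : ℝ) *
      ∫ θ in (0 : ℝ)..(2 * Real.pi), (kap k θ : ℂ) * (G1 (cyl ζ θ) - G2 (cyl ζ θ)) := by
    simp only [modes]
    rw [← mul_sub, ← intervalIntegral.integral_sub]
    · congr 1
      refine intervalIntegral.integral_congr fun θ _ => ?_
      ring
    · exact ((continuous_kap k).mul h1).intervalIntegrable _ _
    · exact ((continuous_kap k).mul h2).intervalIntegrable _ _
  rw [e, norm_mul, norm_mul, norm_cst, one_mul, Complex.norm_real, Real.norm_eq_abs,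
    abs_of_pos (inv_pos.2 hpi)]
  have hb : ‖∫ θ in (0 : ℝ)..(2 * Real.pi), (kap k θ : ℂ) * (G1 (cyl ζ θ) - G2 (cyl ζ θ))‖
      ≤ δ * |2 * Real.pi - 0| := by
    refine intervalIntegral.norm_integral_le_of_norm_le_const fun θ _ => ?_
    rw [norm_mul]
    calc _ ≤ 1 * δ := mul_le_mul (norm_kap k θ) (hd θ) (norm_nonneg _) zero_le_one
      _ = δ := one_mul _
  rw [sub_zero, abs_of_pos hpi] at hb
  calc (2 * Real.pi)⁻¹ * _ ≤ (2 * Real.pi)⁻¹ * (δ * (2 * Real.pi)) :=
        mul_le_mul_of_nonneg_left hb (inv_pos.2 hpi).le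
    _ = δ := by field_simp

theorem continuous_modes {G : E3 → ℂ} (hG : Continuous G) (k : Fin 5) :
    Continuous fun ζ => modes G ζ k := by
  simp only [modes]
  refine continuous_const.mul ?_
  have : Continuous (Function.uncurry fun (ζ : ℂ) (θ : ℝ) => (kap k θ : ℂ) * G (cyl ζ θ)) :=
    ((continuous_kap k).comp continuous_snd).mul (hG.comp continuous_cyl)
  exact intervalIntegral.continuous_parametric_intervalIntegral_of_continuous' this _ _

theorem dbar_continuous {ψ : ℂ → ℂ} (h : ContDiff ℝ (⊤ : ℕ∞) ψ) : Continuous (dbar ψ) := by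
  have h1 : Continuous (fderiv ℝ ψ) := h.continuous_fderiv (by simp)
  unfold dbar
  exact continuous_const.mul ((h1.clm_apply continuous_const).add
    (continuous_const.mul (h1.clm_apply continuous_const)))

theorem dbar_support {ψ : ℂ → ℂ} {ζ : ℂ} (h : ζ ∉ tsupport ψ) : dbar ψ ζ = 0 := by
  have : fderiv ℝ ψ ζ = 0 := by
    by_contra hne
    exact h (support_fderiv_subset ℝ (Function.mem_support.2 hne))
  simp [dbar, this]

theorem act_jac (g : E3 → E3) (x v : E3) : act (jac g x) v = fderiv ℝ g x v := by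
  have hv : v = ∑ j, v j • (EuclideanSpace.single j (1 : ℝ) : E3) := by
    ext i
    simp [Fin.sum_univ_three]
    fin_cases i <;> simp
  ext i
  conv_rhs => rw [hv]
  simp only [act, jac, Matrix.mulVec, dotProduct, Matrix.of_apply, map_sum, map_smul]
  simp [mul_comm]

theorem continuousOn_er : ContinuousOn er {X | 0 < rad X} := by
  unfold er
  have h : ContinuousOn (fun X : E3 => ![X 0 / rad X, X 1 / rad X, 0]) {X | 0 < rad X} := by
    refine continuousOn_pi.2 fun i => ?_
    fin_cases i
    · exact (continuous_coord 0).continuousOn.div continuous_rad.continuousOn fun X hX => ne_of_gt hX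
    · exact (continuous_coord 1).continuousOn.div continuous_rad.continuousOn fun X hX => ne_of_gt hX
    · exact continuousOn_const
  exact (PiLp.continuous_toLp 2 (fun _ : Fin 3 => ℝ)).comp_continuousOn h

theorem continuousOn_gr {g : E3 → E3} (hg : ContDiff ℝ (⊤ : ℕ∞) g) {K : Set E3}
    (h1 : ∀ X ∈ K, 0 < rad X) (h2 : ∀ X ∈ K, 0 < rad (g X)) :
    ContinuousOn (fun X => gr (jac g X) X (g X)) K ∧
    ContinuousOn (fun X => gz (jac g X) X (g X)) K := by
  have hf : Continuous (fderiv ℝ g) := hg.continuous_fderiv (by simp)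
  have e1 : ContinuousOn (fun X => er (g X)) K := continuousOn_er.comp hg.continuous.continuousOn h2
  have e2 : ContinuousOn er K := continuousOn_er.mono h1
  have a1 : ContinuousOn (fun X => fderiv ℝ g X (er X)) K := hf.continuousOn.clm_apply e2
  have a2 : ContinuousOn (fun X => fderiv ℝ g X e3) K := (hf.clm_apply continuous_const).continuousOn
  unfold gr gz
  simp only [act_jac]
  constructor
  · exact (continuous_ofReal.comp_continuousOn ((e1.inner a1).sub continuousOn_const)).add
      ((continuous_ofReal.comp_continuousOn (continuousOn_const.inner a1)).mul continuousOn_const)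
  · exact (continuous_ofReal.comp_continuousOn (e1.inner a2)).add
      ((continuous_ofReal.comp_continuousOn ((continuousOn_const.inner a2).sub
        continuousOn_const)).mul continuousOn_const)

end WDB_

open WDB_

theorem stmt_WDB (hWDBS : Stmt_WDBS) (hAPX : Stmt_APX) (hPW : Stmt_PW) (hDLI : Stmt_DLI)
    (hVCO : Stmt_VCO) : Stmt_WDB := by
  intro ρ hρ hρ1
  obtain ⟨C, hC, hPWC⟩ := hPW ρ hρ hρ1
  refine ⟨ρ⁻¹ * C, by positivity, ?_⟩
  intro ε F A hε0 hε hN k ψ hψ hψc hψs B hB
  obtain ⟨igr, igz, igt, g, hg, hrad, hunif, hcr, hcz, -⟩ := hAPX ρ ε F A hρ hρ1 hε0 hε hN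
  obtain ⟨hvc, -, -, -⟩ := hVCO ε F A hε0 hN
  obtain ⟨idl, dl0, -⟩ := hDLI ρ ε F A hρ hρ1 hε0 hε hN
  have hB0 : 0 ≤ B := (norm_nonneg _).trans (hB 0)
  set S : Set E3 := {X | hp X ∈ tsupport ψ} with hS
  have hSc : IsClosed S := (isClosed_tsupport ψ).preimage continuous_hp
  have hSR : S ⊆ RG ρ := by
    intro X hX
    have := hψs hX
    exact ⟨this.1, by have h2 := this.2; rw [norm_hp] at h2; linarith⟩
  have hRK : RG ρ ⊆ KR ρ 40 := fun X hX => ⟨hX.1.le, by linarith [hX.2]⟩
  have hSK : S ⊆ KR ρ 40 := hSR.trans hRK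
  have hKc : IsCompact (KR ρ 40) := isCompact_KR ρ 40
  have hSKae : S ≤ᵐ[(volume : Measure E3)] KR ρ 40 := ae_of_all _ hSK
  have hSRae : S ≤ᵐ[(volume : Measure E3)] RG ρ := ae_of_all _ hSR
  have hcylK : ∀ ζ ∈ tsupport ψ, ∀ θ, cyl ζ θ ∈ S := by
    intro ζ hζ θ
    have h1 := hψs hζ
    show hp (cyl ζ θ) ∈ tsupport ψ
    rw [hp_cyl (hρ.le.trans h1.1.le) θ]; exact hζ
  -- left sides converge
  have hdc : Continuous (dbar ψ) := dbar_continuous hψ
  have hdcs : HasCompactSupport (dbar ψ) := by
    refine HasCompactSupport.of_support_subset_isCompact hψc.isCompact ?_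
    intro ζ hζ
    by_contra h
    exact hζ (dbar_support h)
  have hGn : ∀ n, Continuous (fun X => gg X (g n X)) := fun n => continuous_gg (hg n).continuous
  have hint1 : ∀ n, Integrable (fun ζ => modes (fun X => gg X (g n X)) ζ k * dbar ψ ζ) := by
    intro n
    exact ((continuous_modes (hGn n) k).mul hdc).integrable_of_hasCompactSupport hdcs.mul_left
  have hvk : ContinuousOn (fun ζ => vv F ζ k) {ζ | 0 ≤ ζ.re ∧ ‖ζ‖ < 64} := by
    have : Continuous (fun v : C5 => v k) := (EuclideanSpace.proj k : C5 →L[ℂ] ℂ).continuous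
    exact this.comp_continuousOn hvc
  have hsub : tsupport ψ ⊆ {ζ : ℂ | 0 ≤ ζ.re ∧ ‖ζ‖ < 64} := fun ζ hζ =>
    ⟨hρ.le.trans (hψs hζ).1.le, by have := (hψs hζ).2; show ‖ζ‖ < 64; linarith⟩
  have hint2 : Integrable (fun ζ => vv F ζ k * dbar ψ ζ) := by
    have h1 : IntegrableOn (fun ζ => vv F ζ k * dbar ψ ζ) (tsupport ψ) :=
      ((hvk.mono hsub).mul hdc.continuousOn).integrableOn_compact hψc.isCompact
    rw [← integrableOn_iff_integrable_of_support_subset (s := tsupport ψ)]
    · exact h1
    · intro ζ hζ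
      by_contra h
      apply hζ
      simp only
      rw [dbar_support h, mul_zero]
  set I0 : ℝ := ∫ ζ, ‖dbar ψ ζ‖ with hI0
  have hIint : Integrable (fun ζ => ‖dbar ψ ζ‖) := (hdc.integrable_of_hasCompactSupport hdcs).norm
  have hlim : Tendsto (fun n => ∫ ζ, modes (fun X => gg X (g n X)) ζ k * dbar ψ ζ) atTop
      (𝓝 (∫ ζ, vv F ζ k * dbar ψ ζ)) := by
    rw [Metric.tendsto_nhds]
    intro e he
    have hI : 0 ≤ I0 := integral_nonneg fun _ => norm_nonneg _
    obtain ⟨δ, hδ, hδe⟩ : ∃ δ : ℝ, 0 < δ ∧ δ * I0 < e :=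
      ⟨e / (I0 + 1), by positivity, by
        rw [div_mul_eq_mul_div, div_lt_iff₀ (by positivity)]; nlinarith⟩
    filter_upwards [(Metric.tendstoUniformlyOn_iff.1 hunif) δ hδ] with n hn
    rw [dist_eq_norm, ← integral_sub (hint1 n) hint2]
    refine lt_of_le_of_lt ?_ hδe
    calc ‖∫ ζ, (modes (fun X => gg X (g n X)) ζ k * dbar ψ ζ - vv F ζ k * dbar ψ ζ)‖
        ≤ ∫ ζ, δ * ‖dbar ψ ζ‖ := by
          refine norm_integral_le_of_norm_le (hIint.const_mul δ) (Eventually.of_forall fun ζ => ?_)
          by_cases hζ : ζ ∈ tsupport ψ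
          · rw [← sub_mul, norm_mul]
            refine mul_le_mul_of_nonneg_right ?_ (norm_nonneg _)
            have hc2 : Continuous fun θ : ℝ => cyl ζ θ :=
              continuous_cyl.comp (continuous_const.prodMk continuous_id)
            refine modes_sub_le k ((hGn n).comp hc2) ?_ ?_
            · have hF : ContinuousOn F (Metric.ball 0 64) := hN.cont
              have hmaps : ∀ θ, cyl ζ θ ∈ Metric.ball (0 : E3) 64 := by
                intro θ
                have := (hSK (hcylK ζ hζ θ)).2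
                rw [Metric.mem_ball, dist_zero_right]; linarith
              have hFc : Continuous fun θ : ℝ => F (cyl ζ θ) := by
                rw [← continuousOn_univ]
                exact hF.comp hc2.continuousOn fun θ _ => hmaps θ
              unfold gg
              exact (continuous_ofReal.comp ((continuous_rad.comp hFc).sub
                (continuous_rad.comp hc2))).add
                ((continuous_ofReal.comp (((continuous_coord 2).comp hFc).sub
                  ((continuous_coord 2).comp hc2))).mul continuous_const)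
            · intro θ
              have := hn (cyl ζ θ) (hSK (hcylK ζ hζ θ))
              rw [dist_comm, dist_eq_norm] at this
              exact this.le
          · simp only
            rw [dbar_support hζ]; simp
      _ = δ * I0 := by rw [integral_const_mul]
  -- right sides
  have hgi : ∀ n, IntegrableOn (fun X => gr (jac (g n) X) X (g n X)) (KR ρ 40) ∧
      IntegrableOn (fun X => gz (jac (g n) X) X (g n X)) (KR ρ 40) := by
    intro n
    have h := continuousOn_gr (hg n) (K := KR ρ 40) (fun X hX => lt_of_lt_of_le hρ hX.1)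
      (fun X hX => lt_of_lt_of_le (by positivity) (hrad n X hX))
    exact ⟨h.1.integrableOn_compact hKc, h.2.integrableOn_compact hKc⟩
  have hright : ∀ n, ∫ X in S, ‖gr (jac (g n) X) X (g n X) + I * gz (jac (g n) X) X (g n X)‖ ≤
      (∫ X in S, ‖gr (A X) X (F X) + I * gz (A X) X (F X)‖)
      + (∫ X in KR ρ 40, ‖gr (jac (g n) X) X (g n X) - gr (A X) X (F X)‖)
      + ∫ X in KR ρ 40, ‖gz (jac (g n) X) X (g n X) - gz (A X) X (F X)‖ := by
    intro n
    have i1 : IntegrableOn (fun X => ‖gr (A X) X (F X) + I * gz (A X) X (F X)‖) S :=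
      ((igr.mono_set hSK).add ((igz.mono_set hSK).const_mul I)).norm
    have i2 : IntegrableOn (fun X => ‖gr (jac (g n) X) X (g n X) - gr (A X) X (F X)‖) (KR ρ 40) :=
      ((hgi n).1.sub igr).norm
    have i3 : IntegrableOn (fun X => ‖gz (jac (g n) X) X (g n X) - gz (A X) X (F X)‖) (KR ρ 40) :=
      ((hgi n).2.sub igz).norm
    have i0 : IntegrableOn
        (fun X => ‖gr (jac (g n) X) X (g n X) + I * gz (jac (g n) X) X (g n X)‖) S :=
      (((hgi n).1.mono_set hSK).add (((hgi n).2.mono_set hSK).const_mul I)).norm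
    have s2 := setIntegral_mono_set i2 (Eventually.of_forall fun _ => norm_nonneg _)
      hSKae
    have s3 := setIntegral_mono_set i3 (Eventually.of_forall fun _ => norm_nonneg _)
      hSKae
    have m : ∫ X in S, ‖gr (jac (g n) X) X (g n X) + I * gz (jac (g n) X) X (g n X)‖ ≤
        ∫ X in S, (‖gr (A X) X (F X) + I * gz (A X) X (F X)‖
          + ‖gr (jac (g n) X) X (g n X) - gr (A X) X (F X)‖
          + ‖gz (jac (g n) X) X (g n X) - gz (A X) X (F X)‖) := by
      refine setIntegral_mono i0 ((i1.add (i2.mono_set hSK)).add (i3.mono_set hSK)) fun X => ?_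
      simp only
      have e : gr (jac (g n) X) X (g n X) + I * gz (jac (g n) X) X (g n X)
          = (gr (A X) X (F X) + I * gz (A X) X (F X))
            + (gr (jac (g n) X) X (g n X) - gr (A X) X (F X))
            + I * (gz (jac (g n) X) X (g n X) - gz (A X) X (F X)) := by ring
      rw [e]
      refine (norm_add_le _ _).trans ?_
      rw [norm_mul, norm_I, one_mul]
      exact add_le_add (norm_add_le _ _) le_rfl
    have e2 : ∫ X in S, (‖gr (A X) X (F X) + I * gz (A X) X (F X)‖
          + ‖gr (jac (g n) X) X (g n X) - gr (A X) X (F X)‖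
          + ‖gz (jac (g n) X) X (g n X) - gz (A X) X (F X)‖)
        = (∫ X in S, ‖gr (A X) X (F X) + I * gz (A X) X (F X)‖)
          + (∫ X in S, ‖gr (jac (g n) X) X (g n X) - gr (A X) X (F X)‖)
          + ∫ X in S, ‖gz (jac (g n) X) X (g n X) - gz (A X) X (F X)‖ := by
      rw [← integral_add i1 (i2.mono_set hSK)]
      exact integral_add (i1.add (i2.mono_set hSK)) (i3.mono_set hSK)
    rw [e2] at m
    linarith
  have hbound : ‖∫ ζ, vv F ζ k * dbar ψ ζ‖ ≤
      ρ⁻¹ * B * ∫ X in S, ‖gr (A X) X (F X) + I * gz (A X) X (F X)‖ := by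
    have t1 := hlim.norm
    have t2 : Tendsto (fun n => ρ⁻¹ * B * ((∫ X in S, ‖gr (A X) X (F X) + I * gz (A X) X (F X)‖)
      + (∫ X in KR ρ 40, ‖gr (jac (g n) X) X (g n X) - gr (A X) X (F X)‖)
      + ∫ X in KR ρ 40, ‖gz (jac (g n) X) X (g n X) - gz (A X) X (F X)‖)) atTop
      (𝓝 (ρ⁻¹ * B * ((∫ X in S, ‖gr (A X) X (F X) + I * gz (A X) X (F X)‖) + 0 + 0))) :=
      ((tendsto_const_nhds.add hcr).add hcz).const_mul _
    rw [add_zero, add_zero] at t2
    refine le_of_tendsto_of_tendsto' t1 t2 fun n => ?_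
    refine (hWDBS ρ B (g n) ψ k hρ (hg n) hψ hψc hψs hB ?_).trans ?_
    · intro X hX
      have := hrad n X (hSK hX)
      linarith
    · exact mul_le_mul_of_nonneg_left (hright n) (mul_nonneg (inv_nonneg.2 hρ.le) hB0)
  refine hbound.trans ?_
  have hmono : ∫ X in S, ‖gr (A X) X (F X) + I * gz (A X) X (F X)‖ ≤ C * ∫ X in RG ρ, dl F A X := by
    have hRm : MeasurableSet (RG ρ) :=
      ((isOpen_lt continuous_const continuous_rad).inter
        (isOpen_lt continuous_norm continuous_const)).measurableSet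
    have i1 : IntegrableOn (fun X => ‖gr (A X) X (F X) + I * gz (A X) X (F X)‖) (RG ρ) :=
      ((igr.mono_set hRK).add ((igz.mono_set hRK).const_mul I)).norm
    have s1 := setIntegral_mono_set i1 (Eventually.of_forall fun _ => norm_nonneg _)
      hSRae
    refine s1.trans ?_
    rw [← integral_const_mul]
    refine setIntegral_mono_ae_restrict i1 (idl.const_mul C) ?_
    have hball : RG ρ ⊆ Metric.ball (0 : E3) 64 := by
      intro X hX
      rw [Metric.mem_ball, dist_zero_right]; linarith [hX.2]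
    have hgood := ae_restrict_of_ae_restrict_of_subset hball hN.good
    filter_upwards [hgood, ae_restrict_mem hRm] with X hX hXR
    have hcl := hN.close X (hball hXR)
    exact (hPWC (A X) X (F X) hX hXR.1 hXR.2 (hcl.trans hε)).2.2.1
  calc ρ⁻¹ * B * ∫ X in S, ‖gr (A X) X (F X) + I * gz (A X) X (F X)‖
      ≤ ρ⁻¹ * B * (C * ∫ X in RG ρ, dl F A X) :=
        mul_le_mul_of_nonneg_left hmono (mul_nonneg (inv_nonneg.2 hρ.le) hB0)
    _ = ρ⁻¹ * C * (∫ X in RG ρ, dl F A X) * B := by ring

end Pool.Mart
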