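import Pool.Agent.Work.MP_680515_an.IfaceA

/-! Block WIN1: elementary properties of the winding map. -/

open MeasureTheory Set Filter Topology Complex

namespace Pool.Mart.WIN1_

lemma w0 (X : E3) : wind X 0 = (X 0 ^ 2 - X 1 ^ 2) / rad X := rfl
lemma w1 (X : E3) : wind X 1 = 2 * X 0 * X 1 / rad X := rfl
lemma w2 (X : E3) : wind X 2 = X 2 := rfl

lemma rad_nonneg (X : E3) : 0 ≤ rad X := Real.sqrt_nonneg _

lemma rad_sq (X : E3) : rad X ^ 2 = X 0 ^ 2 + X 1 ^ 2 := Real.sq_sqrt (by positivity)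

lemma normsq (X : E3) : ‖X‖ ^ 2 = X 0 ^ 2 + X 1 ^ 2 + X 2 ^ 2 := by
  rw [EuclideanSpace.norm_sq_eq, Fin.sum_univ_three]
  simp [sq_abs]

lemma zero_of_rad {X : E3} (h : rad X = 0) : X 0 = 0 ∧ X 1 = 0 := by
  have := rad_sq X
  rw [h] at this
  constructor <;> nlinarith [sq_nonneg (X 0), sq_nonneg (X 1)]

lemma wplane (X : E3) : wind X 0 ^ 2 + wind X 1 ^ 2 = X 0 ^ 2 + X 1 ^ 2 := by
  rw [w0, w1]
  by_cases h : rad X = 0
  · obtain ⟨h0, h1⟩ := zero_of_rad h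
    simp [h0, h1]
  · have h2 : (X 0 ^ 2 + X 1 ^ 2) = rad X ^ 2 := (rad_sq X).symm
    have h3 : ((X 0 ^ 2 - X 1 ^ 2) / rad X) ^ 2 + (2 * X 0 * X 1 / rad X) ^ 2
        = (X 0 ^ 2 + X 1 ^ 2) ^ 2 / rad X ^ 2 := by
      field_simp
      ring
    rw [h3, h2]
    field_simp

lemma norm_eq_of_sq {X Y : E3} (h : ‖X‖ ^ 2 = ‖Y‖ ^ 2) : ‖X‖ = ‖Y‖ := by
  have := abs_eq_abs.mpr (sq_eq_sq_iff_eq_or_eq_neg.mp h)
  rwa [abs_norm, abs_norm] at this

lemma norm_wind (X : E3) : ‖wind X‖ = ‖X‖ := by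
  apply norm_eq_of_sq
  rw [normsq, normsq, wplane, w2]

lemma rad_wind (X : E3) : rad (wind X) = rad X := by
  unfold rad
  rw [wplane]

lemma key {a b c d r s : ℝ} (hr : 0 < r) (hs : 0 < s) (h1 : r ^ 2 = a ^ 2 + b ^ 2)
    (h2 : s ^ 2 = c ^ 2 + d ^ 2) :
    ((a ^ 2 - b ^ 2) / r - (c ^ 2 - d ^ 2) / s) ^ 2 + (2 * a * b / r - 2 * c * d / s) ^ 2
      ≤ 4 * ((a - c) ^ 2 + (b - d) ^ 2) := by
  set p := a * c + b * d with hp
  have hA : ((a ^ 2 - b ^ 2) / r) ^ 2 + (2 * a * b / r) ^ 2 = r ^ 2 := by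
    have : ((a ^ 2 - b ^ 2) / r) ^ 2 + (2 * a * b / r) ^ 2 = (a ^ 2 + b ^ 2) ^ 2 / r ^ 2 := by
      field_simp
      ring
    rw [this, ← h1]
    field_simp
  have hB : ((c ^ 2 - d ^ 2) / s) ^ 2 + (2 * c * d / s) ^ 2 = s ^ 2 := by
    have : ((c ^ 2 - d ^ 2) / s) ^ 2 + (2 * c * d / s) ^ 2 = (c ^ 2 + d ^ 2) ^ 2 / s ^ 2 := by
      field_simp
      ring
    rw [this, ← h2]
    field_simp
  have hC : ((a ^ 2 - b ^ 2) / r) * ((c ^ 2 - d ^ 2) / s) + (2 * a * b / r) * (2 * c * d / s)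
      = 2 * p ^ 2 / (r * s) - r * s := by
    have h3 : (a ^ 2 - b ^ 2) * (c ^ 2 - d ^ 2) + (2 * a * b) * (2 * c * d)
        = 2 * p ^ 2 - r ^ 2 * s ^ 2 := by
      rw [h1, h2, hp]; ring
    have h4 : ((a ^ 2 - b ^ 2) / r) * ((c ^ 2 - d ^ 2) / s) + (2 * a * b / r) * (2 * c * d / s)
        = ((a ^ 2 - b ^ 2) * (c ^ 2 - d ^ 2) + (2 * a * b) * (2 * c * d)) / (r * s) := by
      field_simp
    rw [h4, h3]
    field_simp
  have hD : 0 ≤ 3 * (r - s) ^ 2 + 4 * (r * s - p) ^ 2 / (r * s) := by positivity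
  have hE : 3 * (r - s) ^ 2 + 4 * (r * s - p) ^ 2 / (r * s)
      = 3 * (r ^ 2 + s ^ 2) - 2 * (r * s) - 8 * p + 2 * (2 * p ^ 2 / (r * s)) := by
    field_simp
    ring
  have hF : (a - c) ^ 2 + (b - d) ^ 2 = r ^ 2 + s ^ 2 - 2 * p := by
    rw [h1, h2, hp]; ring
  rw [hF]
  nlinarith [hA, hB, hC, hD, hE]

lemma lip (X Y : E3) : ‖wind X - wind Y‖ ≤ 2 * ‖X - Y‖ := by
  have h0 : ‖wind X - wind Y‖ ^ 2 ≤ (2 * ‖X - Y‖) ^ 2 := by
    rw [mul_pow, normsq, normsq]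
    have e0 : (wind X - wind Y) 0 = (X 0 ^ 2 - X 1 ^ 2) / rad X - (Y 0 ^ 2 - Y 1 ^ 2) / rad Y := rfl
    have e1 : (wind X - wind Y) 1 = 2 * X 0 * X 1 / rad X - 2 * Y 0 * Y 1 / rad Y := rfl
    have e2 : (wind X - wind Y) 2 = X 2 - Y 2 := rfl
    have f0 : (X - Y) 0 = X 0 - Y 0 := rfl
    have f1 : (X - Y) 1 = X 1 - Y 1 := rfl
    have f2 : (X - Y) 2 = X 2 - Y 2 := rfl
    rw [e0, e1, e2, f0, f1, f2]
    have hk : ((X 0 ^ 2 - X 1 ^ 2) / rad X - (Y 0 ^ 2 - Y 1 ^ 2) / rad Y) ^ 2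
        + (2 * X 0 * X 1 / rad X - 2 * Y 0 * Y 1 / rad Y) ^ 2
        ≤ 4 * ((X 0 - Y 0) ^ 2 + (X 1 - Y 1) ^ 2) := by
      by_cases hX : rad X = 0
      · obtain ⟨hx0, hx1⟩ := zero_of_rad hX
        have := wplane Y
        rw [w0, w1] at this
        rw [hx0, hx1]
        simp only [hX]
        norm_num
        nlinarith [this, sq_nonneg (Y 0), sq_nonneg (Y 1)]
      · by_cases hY : rad Y = 0
        · obtain ⟨hy0, hy1⟩ := zero_of_rad hY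
          have := wplane X
          rw [w0, w1] at this
          rw [hy0, hy1]
          simp only [hY]
          norm_num
          nlinarith [this, sq_nonneg (X 0), sq_nonneg (X 1)]
        · exact key (lt_of_le_of_ne (rad_nonneg X) (Ne.symm hX))
            (lt_of_le_of_ne (rad_nonneg Y) (Ne.symm hY)) (rad_sq X) (rad_sq Y)
    nlinarith [hk, sq_nonneg (X 2 - Y 2)]
  exact le_of_sq_le_sq h0 (by positivity)
where
  le_of_sq_le_sq {x y : ℝ} (h : x ^ 2 ≤ y ^ 2) (hy : 0 ≤ y) : x ≤ y :=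
    le_trans (le_abs_self x) (by
      have := sq_le_sq.mp h
      rwa [abs_of_nonneg hy] at this)

lemma rad_smul {s : ℝ} (hs : 0 ≤ s) (X : E3) : rad (s • X) = s * rad X := by
  unfold rad
  have h0 : (s • X) 0 = s * X 0 := rfl
  have h1 : (s • X) 1 = s * X 1 := rfl
  rw [h0, h1]
  have : (s * X 0) ^ 2 + (s * X 1) ^ 2 = s ^ 2 * (X 0 ^ 2 + X 1 ^ 2) := by ring
  rw [this, Real.sqrt_mul (by positivity), Real.sqrt_sq hs]

lemma ext3 {X Y : E3} (h0 : X 0 = Y 0) (h1 : X 1 = Y 1) (h2 : X 2 = Y 2) : X = Y := by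
  ext i
  fin_cases i
  · exact h0
  · exact h1
  · exact h2

lemma wind_smul {s : ℝ} (hs : 0 ≤ s) (X : E3) : wind (s • X) = s • wind X := by
  rcases eq_or_lt_of_le hs with h | h
  · subst h
    apply ext3
    · rw [w0]; simp
    · rw [w1]; simp
    · rw [w2]; simp
  · have e0 : (s • X) 0 = s * X 0 := rfl
    have e1 : (s • X) 1 = s * X 1 := rfl
    have e2 : (s • X) 2 = s * X 2 := rfl
    have g0 : (s • wind X) 0 = s * wind X 0 := rfl
    have g1 : (s • wind X) 1 = s * wind X 1 := rfl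
    have g2 : (s • wind X) 2 = s * wind X 2 := rfl
    apply ext3
    · rw [w0, g0, w0, rad_smul hs, e0, e1]
      by_cases hX : rad X = 0
      · obtain ⟨hx0, hx1⟩ := zero_of_rad hX
        simp [hx0, hx1]
      · field_simp
    · rw [w1, g1, w1, rad_smul hs, e0, e1]
      by_cases hX : rad X = 0
      · obtain ⟨hx0, hx1⟩ := zero_of_rad hX
        simp [hx0, hx1]
      · field_simp
    · rw [w2, g2, w2, e2]

lemma e3_0 : e3 0 = 0 := by simp [e3]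
lemma e3_1 : e3 1 = 0 := by simp [e3]
lemma e3_2 : e3 2 = 1 := by simp [e3]

lemma wind_add (s : ℝ) (X : E3) : wind (X + s • e3) = wind X + s • e3 := by
  have e0 : (X + s • e3) 0 = X 0 := by
    have : (X + s • e3) 0 = X 0 + s * e3 0 := rfl
    rw [this, e3_0]; ring
  have e1 : (X + s • e3) 1 = X 1 := by
    have : (X + s • e3) 1 = X 1 + s * e3 1 := rfl
    rw [this, e3_1]; ring
  have e2 : (X + s • e3) 2 = X 2 + s := by
    have : (X + s • e3) 2 = X 2 + s * e3 2 := rfl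
    rw [this, e3_2]; ring
  have hr : rad (X + s • e3) = rad X := by
    unfold rad; rw [e0, e1]
  have g0 : (wind X + s • e3) 0 = wind X 0 := by
    have : (wind X + s • e3) 0 = wind X 0 + s * e3 0 := rfl
    rw [this, e3_0]; ring
  have g1 : (wind X + s • e3) 1 = wind X 1 := by
    have : (wind X + s • e3) 1 = wind X 1 + s * e3 1 := rfl
    rw [this, e3_1]; ring
  have g2 : (wind X + s • e3) 2 = wind X 2 + s := by
    have : (wind X + s • e3) 2 = wind X 2 + s * e3 2 := rfl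
    rw [this, e3_2]; ring
  apply ext3
  · rw [w0, g0, w0, hr, e0, e1]
  · rw [w1, g1, w1, hr, e0, e1]
  · rw [w2, g2, w2, e2]

lemma rad_cyl {ζ : ℂ} (θ : ℝ) (h : 0 ≤ ζ.re) : rad (cyl ζ θ) = ζ.re := by
  unfold rad
  have h0 : cyl ζ θ 0 = ζ.re * Real.cos θ := rfl
  have h1 : cyl ζ θ 1 = ζ.re * Real.sin θ := rfl
  rw [h0, h1]
  have : (ζ.re * Real.cos θ) ^ 2 + (ζ.re * Real.sin θ) ^ 2 = ζ.re ^ 2 := by
    have := Real.sin_sq_add_cos_sq θ
    nlinarith [this]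
  rw [this, Real.sqrt_sq h]

lemma norm_cyl (ζ : ℂ) (θ : ℝ) : ‖cyl ζ θ‖ = ‖ζ‖ := by
  have h1 : ‖cyl ζ θ‖ ^ 2 = ‖ζ‖ ^ 2 := by
    rw [normsq, Complex.sq_norm, Complex.normSq_apply]
    have h0 : cyl ζ θ 0 = ζ.re * Real.cos θ := rfl
    have h1 : cyl ζ θ 1 = ζ.re * Real.sin θ := rfl
    have h2 : cyl ζ θ 2 = ζ.im := rfl
    rw [h0, h1, h2]
    have := Real.sin_sq_add_cos_sq θ
    nlinarith [this]
  have := abs_eq_abs.mpr (sq_eq_sq_iff_eq_or_eq_neg.mp h1)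
  rwa [abs_norm, abs_norm] at this

lemma wind_cyl {ζ : ℂ} (θ : ℝ) (h : 0 ≤ ζ.re) : wind (cyl ζ θ) = cyl ζ (2 * θ) := by
  have h0 : cyl ζ θ 0 = ζ.re * Real.cos θ := rfl
  have h1 : cyl ζ θ 1 = ζ.re * Real.sin θ := rfl
  have h2 : cyl ζ θ 2 = ζ.im := rfl
  have g0 : cyl ζ (2 * θ) 0 = ζ.re * Real.cos (2 * θ) := rfl
  have g1 : cyl ζ (2 * θ) 1 = ζ.re * Real.sin (2 * θ) := rfl
  have g2 : cyl ζ (2 * θ) 2 = ζ.im := rfl
  apply ext3
  · rw [w0, rad_cyl θ h, h0, h1, g0, Real.cos_two_mul']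
    by_cases hz : ζ.re = 0
    · simp [hz]
    · field_simp
  · rw [w1, rad_cyl θ h, h0, h1, g1, Real.sin_two_mul]
    by_cases hz : ζ.re = 0
    · simp [hz]
    · field_simp
  · rw [w2, h2, g2]

lemma wind_axis (s : ℝ) : wind (s • e3) = s • e3 := by
  have := wind_add s (0 : E3)
  have h0 : wind (0 : E3) = 0 := by
    apply ext3
    · rw [w0]; simp
    · rw [w1]; simp
    · rw [w2]
  rwa [zero_add, h0, zero_add] at this

end Pool.Mart.WIN1_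

namespace Pool.Mart

open WIN1_

theorem stmt_WIN1 : Stmt_WIN1 :=
  ⟨norm_wind, rad_wind, w2, lip, fun _ X hs => wind_smul hs X, wind_add,
    fun _ θ h => wind_cyl θ h, fun ζ θ h => ⟨rad_cyl θ h, norm_cyl ζ θ⟩, wind_axis⟩

end Pool.Mart
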