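import Pool.Agent.Work.MP_680515_an.IfaceA

/-!
# MP_680515_an, block WIN2: the winding map is a Sobolev map
-/

open MeasureTheory Set Filter Topology Complex
open scoped NNReal

namespace Pool.Mart.WIN2_

theorem act_jac (g : E3 → E3) (x v : E3) : act (jac g x) v = fderiv ℝ g x v := by
  have hv : v = ∑ j : Fin 3, v j • (EuclideanSpace.single j (1 : ℝ) : E3) := by
    ext i
    fin_cases i <;> simp [Fin.sum_univ_three]
  have h1 : fderiv ℝ g x v = ∑ j : Fin 3, v j • fderiv ℝ g x (EuclideanSpace.single j 1) := by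
    conv_lhs => rw [hv]
    rw [map_sum]
    refine Finset.sum_congr rfl fun j _ => ?_
    rw [map_smul]
  ext i
  rw [h1]
  simp only [act, jac, Matrix.mulVec, dotProduct, Matrix.of_apply, WithLp.ofLp_sum,
    Finset.sum_apply, PiLp.smul_apply, smul_eq_mul]
  refine Finset.sum_congr rfl fun j _ => ?_
  ring

theorem lip (hWIN1 : Stmt_WIN1) : LipschitzWith 2 wind := by
  obtain ⟨-, -, -, h, -⟩ := hWIN1
  refine LipschitzWith.of_dist_le_mul fun x y => ?_
  rw [dist_eq_norm, dist_eq_norm]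
  exact h x y

theorem opn_le (hWIN1 : Stmt_WIN1) (hBAS : Stmt_BAS) (x : E3) : opn (jac wind x) ≤ 4 := by
  refine hBAS.2.1 _ 4 (by norm_num) fun v => ?_
  rw [act_jac]
  have h1 : ‖fderiv ℝ wind x‖ ≤ 2 := norm_fderiv_le_of_lipschitz ℝ (lip hWIN1)
  have h2 := (fderiv ℝ wind x).le_opNorm v
  nlinarith [norm_nonneg v, norm_nonneg (fderiv ℝ wind x v)]

theorem entry_le (hWIN1 : Stmt_WIN1) (x : E3) (i j : Fin 3) : |jac wind x i j| ≤ 2 := by
  have h1 : ‖fderiv ℝ wind x‖ ≤ 2 := norm_fderiv_le_of_lipschitz ℝ (lip hWIN1)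
  have h2 := (fderiv ℝ wind x).le_opNorm (EuclideanSpace.single j (1 : ℝ))
  have h3 : ‖(EuclideanSpace.single j (1 : ℝ) : E3)‖ = 1 := by simp
  have h4 := PiLp.norm_apply_le (fderiv ℝ wind x (EuclideanSpace.single j (1 : ℝ))) i
  rw [Real.norm_eq_abs] at h4
  have h5 : jac wind x i j = fderiv ℝ wind x (EuclideanSpace.single j (1 : ℝ)) i := rfl
  rw [h5]
  rw [h3, mul_one] at h2
  linarith

theorem meas (i j : Fin 3) : Measurable fun x : E3 => jac wind x i j := by
  have h1 : Measurable fun x : E3 => fderiv ℝ wind x (EuclideanSpace.single j (1 : ℝ)) :=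
    measurable_fderiv_apply_const ℝ wind _
  exact (EuclideanSpace.proj (𝕜 := ℝ) i).continuous.measurable.comp h1

theorem wg (hWIN1 : Stmt_WIN1) : WeakGrad univ wind (jac wind) := by
  refine ⟨?_, ?_⟩
  · intro K hK _ i j
    have : IsFiniteMeasure (volume.restrict K) := ⟨by
      rw [Measure.restrict_apply_univ]; exact hK.measure_lt_top⟩
    refine MemLp.of_bound (meas i j).aestronglyMeasurable 2 (Eventually.of_forall fun x => ?_)
    rw [Real.norm_eq_abs]
    exact entry_le hWIN1 x i j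
  · intro φ hφ hc _ i j
    obtain ⟨D, hD⟩ := ContDiff.lipschitzWith_of_hasCompactSupport hc hφ (by simp)
    have hL : LipschitzWith 2 (fun x : E3 => wind x i) := by
      refine LipschitzWith.of_dist_le_mul fun x y => ?_
      have h1 := (lip hWIN1).dist_le_mul x y
      have h2 := PiLp.norm_apply_le (wind x - wind y) i
      rw [dist_eq_norm] at h1 ⊢
      have h3 : wind x i - wind y i = (wind x - wind y) i := by simp
      rw [h3]
      exact h2.trans h1
    have key := LipschitzWith.integral_lineDeriv_mul_eq (μ := (volume : Measure E3)) hL hD hc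
      (EuclideanSpace.single j (1 : ℝ))
    have e1 : ∫ x : E3, lineDeriv ℝ (fun x : E3 => wind x i) x (EuclideanSpace.single j (1 : ℝ)) * φ x
        = ∫ x : E3, jac wind x i j * φ x := by
      refine integral_congr_ae ?_
      filter_upwards [(lip hWIN1).ae_differentiableAt] with x hx
      have h1 : DifferentiableAt ℝ (fun x : E3 => wind x i) x :=
        ((EuclideanSpace.proj (𝕜 := ℝ) i).differentiableAt).comp x hx
      have h2 : fderiv ℝ (fun x : E3 => wind x i) x
          = (EuclideanSpace.proj (𝕜 := ℝ) i).comp (fderiv ℝ wind x) :=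
        ((EuclideanSpace.proj (𝕜 := ℝ) i).hasFDerivAt.comp x hx.hasFDerivAt).fderiv
      rw [h1.lineDeriv_eq_fderiv, h2]
      rfl
    have e2 : ∫ x : E3, lineDeriv ℝ φ x (-(EuclideanSpace.single j (1 : ℝ))) * wind x i
        = - ∫ x : E3, wind x i * fderiv ℝ φ x (EuclideanSpace.single j (1 : ℝ)) := by
      rw [← integral_neg]
      refine integral_congr_ae (Eventually.of_forall fun x => ?_)
      have h1 : DifferentiableAt ℝ φ x := (hφ.differentiable (by simp)).differentiableAt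
      simp only
      rw [h1.lineDeriv_eq_fderiv, map_neg]
      ring
    rw [e1, e2] at key
    linarith

/-! ### The Jacobian off the axis -/

theorem rad_hasDerivAt {x : E3} (h : 0 < rad x) (v : E3) :
    HasDerivAt (fun t : ℝ => rad (x + t • v)) ((x 0 * v 0 + x 1 * v 1) / rad x) 0 := by
  have h0 : HasDerivAt (fun t : ℝ => x 0 + t * v 0) (v 0) 0 := by
    simpa using ((hasDerivAt_id (0 : ℝ)).mul_const (v 0)).const_add (x 0)
  have h1 : HasDerivAt (fun t : ℝ => x 1 + t * v 1) (v 1) 0 := by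
    simpa using ((hasDerivAt_id (0 : ℝ)).mul_const (v 1)).const_add (x 1)
  have h2 := (h0.pow 2).add (h1.pow 2)
  have h3 : (x 0 + (0 : ℝ) * v 0) ^ 2 + (x 1 + (0 : ℝ) * v 1) ^ 2 ≠ 0 := by
    have : 0 < x 0 ^ 2 + x 1 ^ 2 := Real.sqrt_pos.1 h
    simpa using this.ne'
  have h4 := h2.sqrt h3
  refine (h4.congr_deriv ?_).congr_of_eventuallyEq (Eventually.of_forall fun t => ?_)
  · simp only [Nat.cast_ofNat, zero_mul, add_zero, Pi.add_apply, Pi.pow_apply]
    rw [rad] at h ⊢
    norm_num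
    field_simp
  · simp [rad]

theorem comp0_hasDerivAt {x : E3} (h : 0 < rad x) (v : E3) :
    HasDerivAt (fun t : ℝ => wind (x + t • v) 0)
      (((2 * (x 0 * v 0 - x 1 * v 1)) * rad x
        - (x 0 ^ 2 - x 1 ^ 2) * ((x 0 * v 0 + x 1 * v 1) / rad x)) / rad x ^ 2) 0 := by
  have h0 : HasDerivAt (fun t : ℝ => x 0 + t * v 0) (v 0) 0 := by
    simpa using ((hasDerivAt_id (0 : ℝ)).mul_const (v 0)).const_add (x 0)
  have h1 : HasDerivAt (fun t : ℝ => x 1 + t * v 1) (v 1) 0 := by
    simpa using ((hasDerivAt_id (0 : ℝ)).mul_const (v 1)).const_add (x 1)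
  have h2 := (h0.pow 2).sub (h1.pow 2)
  have h3 : rad (x + (0 : ℝ) • v) ≠ 0 := by simpa using h.ne'
  have h4 := h2.div (rad_hasDerivAt h v) h3
  refine (h4.congr_deriv ?_).congr_of_eventuallyEq (Eventually.of_forall fun t => ?_)
  · simp only [Nat.cast_ofNat, zero_mul, add_zero, Pi.sub_apply, Pi.pow_apply, zero_smul]
    ring
  · simp [wind]

theorem comp1_hasDerivAt {x : E3} (h : 0 < rad x) (v : E3) :
    HasDerivAt (fun t : ℝ => wind (x + t • v) 1)
      (((2 * (v 0 * x 1 + x 0 * v 1)) * rad x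
        - (2 * x 0 * x 1) * ((x 0 * v 0 + x 1 * v 1) / rad x)) / rad x ^ 2) 0 := by
  have h0 : HasDerivAt (fun t : ℝ => x 0 + t * v 0) (v 0) 0 := by
    simpa using ((hasDerivAt_id (0 : ℝ)).mul_const (v 0)).const_add (x 0)
  have h1 : HasDerivAt (fun t : ℝ => x 1 + t * v 1) (v 1) 0 := by
    simpa using ((hasDerivAt_id (0 : ℝ)).mul_const (v 1)).const_add (x 1)
  have h2 := (h0.const_mul 2).mul h1
  have h3 : rad (x + (0 : ℝ) • v) ≠ 0 := by simpa using h.ne'
  have h4 := h2.div (rad_hasDerivAt h v) h3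
  refine (h4.congr_deriv ?_).congr_of_eventuallyEq (Eventually.of_forall fun t => ?_)
  · simp only [zero_mul, add_zero, Pi.mul_apply, zero_smul]
    ring
  · simp [wind]

theorem comp2_hasDerivAt (x : E3) (v : E3) :
    HasDerivAt (fun t : ℝ => wind (x + t • v) 2) (v 2) 0 := by
  have h0 : HasDerivAt (fun t : ℝ => x 2 + t * v 2) (v 2) 0 := by
    simpa using ((hasDerivAt_id (0 : ℝ)).mul_const (v 2)).const_add (x 2)
  refine h0.congr_of_eventuallyEq (Eventually.of_forall fun t => ?_)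
  simp [wind]

theorem diff {x : E3} (h : 0 < rad x) : DifferentiableAt ℝ wind x := by
  have c : ∀ i : Fin 3, DifferentiableAt ℝ (fun y : E3 => y i) x := fun i =>
    (EuclideanSpace.proj (𝕜 := ℝ) i).differentiableAt
  have hs : x 0 ^ 2 + x 1 ^ 2 ≠ 0 := by
    have : 0 < x 0 ^ 2 + x 1 ^ 2 := Real.sqrt_pos.1 h
    exact this.ne'
  have hr : DifferentiableAt ℝ rad x := by
    have := (((c 0).pow 2).add ((c 1).pow 2)).sqrt hs
    exact this
  rw [differentiableAt_euclidean]
  intro i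
  fin_cases i
  · have h1 := (((c 0).pow 2).sub ((c 1).pow 2)).mul (hr.inv h.ne')
    refine h1.congr_of_eventuallyEq (Eventually.of_forall fun y => ?_)
    simp [wind, div_eq_mul_inv]
  · have h1 := (((c 0).const_mul 2).mul (c 1)).mul (hr.inv h.ne')
    refine h1.congr_of_eventuallyEq (Eventually.of_forall fun y => ?_)
    simp [wind, div_eq_mul_inv]
  · refine (c 2).congr_of_eventuallyEq (Eventually.of_forall fun y => ?_)
    simp [wind]

theorem fderiv_comp {x : E3} (h : 0 < rad x) (v : E3) (i : Fin 3) {d : ℝ}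
    (hd : HasDerivAt (fun t : ℝ => wind (x + t • v) i) d 0) : fderiv ℝ wind x v i = d := by
  have h1 := (diff h).hasFDerivAt.hasLineDerivAt v
  have h2 : HasDerivAt (fun t : ℝ => wind (x + t • v)) (fderiv ℝ wind x v) 0 := h1
  have h3 := (EuclideanSpace.proj (𝕜 := ℝ) i).hasFDerivAt.comp_hasDerivAt (0 : ℝ) h2
  exact h3.unique hd

theorem det_jac {x : E3} (h : 0 < rad x) : (jac wind x).det = 2 := by
  have hr : rad x ^ 2 = x 0 ^ 2 + x 1 ^ 2 := by
    rw [rad, Real.sq_sqrt (by positivity)]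
  have e : ∀ i j, jac wind x i j = fderiv ℝ wind x (EuclideanSpace.single j (1 : ℝ)) i :=
    fun i j => rfl
  rw [Matrix.det_fin_three]
  simp only [e]
  simp only [fderiv_comp h _ 0 (comp0_hasDerivAt h _), fderiv_comp h _ 1 (comp1_hasDerivAt h _),
    fderiv_comp h _ 2 (comp2_hasDerivAt x _)]
  simp
  have h6 : rad x ^ 6 = (x 0 ^ 2 + x 1 ^ 2) ^ 3 := by rw [← hr]; ring
  field_simp
  rw [h6, hr]
  ring

end Pool.Mart.WIN2_

namespace Pool.Mart

theorem stmt_WIN2 (hWIN1 : Stmt_WIN1) (hBAS : Stmt_BAS) : Stmt_WIN2 := by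
  refine ⟨WIN2_.wg hWIN1, Eventually.of_forall fun X => WIN2_.opn_le hWIN1 hBAS X, ?_⟩
  intro X hX
  have hXn : 0 < ‖X‖ := by
    rw [norm_pos_iff]
    rintro rfl
    simp [rad] at hX
  have hE : act (jac wind X) X = wind X := by
    rw [WIN2_.act_jac]
    have h1 := (WIN2_.diff hX).hasFDerivAt.hasLineDerivAt X
    have h2 : HasDerivAt (fun t : ℝ => wind (X + t • X)) (fderiv ℝ wind X X) 0 := h1
    have h3 : HasDerivAt (fun t : ℝ => wind (X + t • X)) (wind X) 0 := by
      have h4 : HasDerivAt (fun t : ℝ => (1 + t) • wind X) (wind X) 0 := by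
        simpa using ((hasDerivAt_id (0 : ℝ)).const_add 1).smul_const (wind X)
      refine h4.congr_of_eventuallyEq ?_
      have h5 : ∀ᶠ t : ℝ in 𝓝 0, -1 < t := lt_mem_nhds (by norm_num)
      filter_upwards [h5] with t ht
      rw [← hWIN1.2.2.2.2.1 (1 + t) X (by linarith)]
      congr 1
      rw [add_smul, one_smul]
    exact h2.unique h3
  have h6 := hBAS.2.2.2.1 (jac wind X) X X
  rw [hE, WIN2_.det_jac hX, real_inner_self_eq_norm_sq] at h6
  rw [fx, hBAS.2.2.1]
  have h7 : act (cofm (jac wind X)) (‖X‖⁻¹ • X) = ‖X‖⁻¹ • act (cofm (jac wind X)) X := by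
    simp [act, Matrix.mulVec_smul]
  rw [h7, inner_smul_left, inner_smul_right, h6, hWIN1.1 X]
  simp only [conj_trivial]
  field_simp

end Pool.Mart
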